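import Pool.Agent.H391.KR.GT

/-!
# The data of type F_4
-/

namespace H391.KR.P_f4ok

open H391.KR H391.KR.GD Finset

/-- quadruples -/
abbrev V := ℤ × ℤ × ℤ × ℤ

/-- the function of a quadruple -/
def F (v : V) : Fin 4 → ℤ := ![v.1, v.2.1, v.2.2.1, v.2.2.2]

/-- inner product -/
def dot4 (a b : V) : ℤ := a.1 * b.1 + a.2.1 * b.2.1 + a.2.2.1 * b.2.2.1 + a.2.2.2 * b.2.2.2

/-- subtract a multiple -/
def sb (b : V) (c : ℤ) (a : V) : V :=
  (b.1 - c * a.1, b.2.1 - c * a.2.1, b.2.2.1 - c * a.2.2.1, b.2.2.2 - c * a.2.2.2)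

/-- coroots, roots, lengths -/
def T : List (V × V × ℤ) := [
  ((1, 0, 0, 0), (2, -1, 0, 0), 1),
  ((0, 1, 0, 0), (-1, 2, -2, 0), 1),
  ((0, 0, 1, 0), (0, -1, 2, -1), 2),
  ((0, 0, 0, 1), (0, 0, -1, 2), 2),
  ((-1, 0, 0, 0), (-2, 1, 0, 0), 1),
  ((1, 1, 0, 0), (1, 1, -2, 0), 1),
  ((0, -1, 0, 0), (1, -2, 2, 0), 1),
  ((0, 1, 1, 0), (-1, 0, 2, -2), 1),
  ((0, 2, 1, 0), (-1, 1, 0, -1), 2),
  ((0, 0, -1, 0), (0, 1, -2, 1), 2),
  ((0, 0, 1, 1), (0, -1, 1, 1), 2),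
  ((0, 0, 0, -1), (0, 0, 1, -2), 2),
  ((-1, -1, 0, 0), (-1, -1, 2, 0), 1),
  ((1, 1, 1, 0), (1, -1, 2, -2), 1),
  ((0, -1, -1, 0), (1, 0, -2, 2), 1),
  ((0, 1, 1, 1), (-1, 0, 0, 2), 1),
  ((2, 2, 1, 0), (1, 0, 0, -1), 2),
  ((0, 2, 1, 1), (-1, 1, -1, 1), 2),
  ((0, -2, -1, 0), (1, -1, 0, 1), 2),
  ((0, 0, -1, -1), (0, 1, -1, -1), 2),
  ((-1, -1, -1, 0), (-1, 1, -2, 2), 1),
  ((1, 2, 1, 0), (0, 1, 0, -2), 1),
  ((1, 1, 1, 1), (1, -1, 0, 2), 1),
  ((0, -1, -1, -1), (1, 0, 0, -2), 1),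
  ((2, 2, 1, 1), (1, 0, -1, 1), 2),
  ((0, 2, 2, 1), (-1, 0, 1, 0), 2),
  ((-2, -2, -1, 0), (-1, 0, 0, 1), 2),
  ((0, -2, -1, -1), (1, -1, 1, -1), 2),
  ((-1, -2, -1, 0), (0, -1, 0, 2), 1),
  ((-1, -1, -1, -1), (-1, 1, 0, -2), 1),
  ((1, 2, 1, 1), (0, 1, -2, 2), 1),
  ((2, 2, 2, 1), (1, -1, 1, 0), 2),
  ((-2, -2, -1, -1), (-1, 0, 1, -1), 2),
  ((0, -2, -2, -1), (1, 0, -1, 0), 2),
  ((-1, -2, -1, -1), (0, -1, 2, -2), 1),
  ((1, 2, 2, 1), (0, -1, 2, 0), 1),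
  ((2, 4, 2, 1), (0, 1, -1, 0), 2),
  ((-2, -2, -2, -1), (-1, 1, -1, 0), 2),
  ((-1, -2, -2, -1), (0, 1, -2, 0), 1),
  ((1, 3, 2, 1), (-1, 1, 0, 0), 1),
  ((2, 4, 3, 1), (0, 0, 1, -1), 2),
  ((-2, -4, -2, -1), (0, -1, 1, 0), 2),
  ((-1, -3, -2, -1), (1, -1, 0, 0), 1),
  ((2, 3, 2, 1), (1, 0, 0, 0), 1),
  ((2, 4, 3, 2), (0, 0, 0, 1), 2),
  ((-2, -4, -3, -1), (0, 0, -1, 1), 2),
  ((-2, -3, -2, -1), (-1, 0, 0, 0), 1),
  ((-2, -4, -3, -2), (0, 0, 0, -1), 2)]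

lemma F_zero (v : V) : F v 0 = v.1 := rfl
lemma F_one (v : V) : F v 1 = v.2.1 := rfl
lemma F_two (v : V) : F v 2 = v.2.2.1 := rfl
lemma F_three (v : V) : F v 3 = v.2.2.2 := rfl

lemma dot_F (a b : V) : dot (F a) (F b) = dot4 a b := by
  simp [dot, dot4, F_zero, F_one, F_two, F_three, Fin.sum_univ_four]

lemma sb_F (a b : V) (c : ℤ) : F b - c • F a = F (sb b c a) := by
  funext i
  fin_cases i <;> simp [F, sb]

lemma F_ext (x : Fin 4 → ℤ) : x = F (x 0, x 1, x 2, x 3) := by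
  funext i
  fin_cases i <;> rfl

/-- unit vectors -/
def e4 : Fin 4 → V := ![(1, 0, 0, 0), (0, 1, 0, 0), (0, 0, 1, 0), (0, 0, 0, 1)]

/-- simple roots -/
def r4 : Fin 4 → V := ![(2, -1, 0, 0), (-1, 2, -2, 0), (0, -1, 2, -1), (0, 0, -1, 2)]

lemma om_F (i : Fin 4) : (om i : Fin 4 → ℤ) = F (e4 i) := by
  revert i; decide +kernel

lemma rtw_F (i : Fin 4) : F4.rtw i = F (r4 i) := by
  revert i; decide +kernel

lemma tab1 : ∀ e ∈ T, F4.tt (F e.1) = e.2.2 := by decide +kernel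

lemma tab2 : ∀ e ∈ T, F4.rt (F e.1) = F e.2.1 := by decide +kernel

lemma clos : ∀ e ∈ T, ∀ i : Fin 4, ∃ e' ∈ T, sb e.1 (dot4 e.1 (r4 i)) (e4 i) = e'.1 := by
  decide +kernel

lemma cstep (v w : V) (i : Fin 4) (h : F4.Cor (F v)) (hw : sb v (dot4 v (r4 i)) (e4 i) = w) :
    F4.Cor (F w) := by
  have h' := GD.Cor.refl (S := F4) (F v) i h
  rw [rtw_F, dot_F, om_F, sb_F, hw] at h'
  exact h'

lemma cor_T : ∀ e ∈ T, F4.Cor (F e.1) := by
  have h0 : F4.Cor (F (1, 0, 0, 0)) := by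
    have h := GD.Cor.simple (S := F4) 0
    rwa [show om (n := 4) 0 = F (1, 0, 0, 0) from by decide] at h
  have h1 : F4.Cor (F (0, 1, 0, 0)) := by
    have h := GD.Cor.simple (S := F4) 1
    rwa [show om (n := 4) 1 = F (0, 1, 0, 0) from by decide] at h
  have h2 : F4.Cor (F (0, 0, 1, 0)) := by
    have h := GD.Cor.simple (S := F4) 2
    rwa [show om (n := 4) 2 = F (0, 0, 1, 0) from by decide] at h
  have h3 : F4.Cor (F (0, 0, 0, 1)) := by
    have h := GD.Cor.simple (S := F4) 3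
    rwa [show om (n := 4) 3 = F (0, 0, 0, 1) from by decide] at h
  have h4 : F4.Cor (F (-1, 0, 0, 0)) := cstep _ _ 0 h0 (by decide)
  have h5 : F4.Cor (F (1, 1, 0, 0)) := cstep _ _ 1 h0 (by decide)
  have h6 : F4.Cor (F (0, -1, 0, 0)) := cstep _ _ 1 h1 (by decide)
  have h7 : F4.Cor (F (0, 1, 1, 0)) := cstep _ _ 2 h1 (by decide)
  have h8 : F4.Cor (F (0, 2, 1, 0)) := cstep _ _ 1 h2 (by decide)
  have h9 : F4.Cor (F (0, 0, -1, 0)) := cstep _ _ 2 h2 (by decide)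
  have h10 : F4.Cor (F (0, 0, 1, 1)) := cstep _ _ 3 h2 (by decide)
  have h11 : F4.Cor (F (0, 0, 0, -1)) := cstep _ _ 3 h3 (by decide)
  have h12 : F4.Cor (F (-1, -1, 0, 0)) := cstep _ _ 1 h4 (by decide)
  have h13 : F4.Cor (F (1, 1, 1, 0)) := cstep _ _ 2 h5 (by decide)
  have h14 : F4.Cor (F (0, -1, -1, 0)) := cstep _ _ 2 h6 (by decide)
  have h15 : F4.Cor (F (0, 1, 1, 1)) := cstep _ _ 3 h7 (by decide)
  have h16 : F4.Cor (F (2, 2, 1, 0)) := cstep _ _ 0 h8 (by decide)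
  have h17 : F4.Cor (F (0, 2, 1, 1)) := cstep _ _ 3 h8 (by decide)
  have h18 : F4.Cor (F (0, -2, -1, 0)) := cstep _ _ 1 h9 (by decide)
  have h19 : F4.Cor (F (0, 0, -1, -1)) := cstep _ _ 3 h9 (by decide)
  have h20 : F4.Cor (F (-1, -1, -1, 0)) := cstep _ _ 2 h12 (by decide)
  have h21 : F4.Cor (F (1, 2, 1, 0)) := cstep _ _ 1 h13 (by decide)
  have h22 : F4.Cor (F (1, 1, 1, 1)) := cstep _ _ 3 h13 (by decide)
  have h23 : F4.Cor (F (0, -1, -1, -1)) := cstep _ _ 3 h14 (by decide)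
  have h24 : F4.Cor (F (2, 2, 1, 1)) := cstep _ _ 3 h16 (by decide)
  have h25 : F4.Cor (F (0, 2, 2, 1)) := cstep _ _ 2 h17 (by decide)
  have h26 : F4.Cor (F (-2, -2, -1, 0)) := cstep _ _ 0 h18 (by decide)
  have h27 : F4.Cor (F (0, -2, -1, -1)) := cstep _ _ 3 h18 (by decide)
  have h28 : F4.Cor (F (-1, -2, -1, 0)) := cstep _ _ 1 h20 (by decide)
  have h29 : F4.Cor (F (-1, -1, -1, -1)) := cstep _ _ 3 h20 (by decide)
  have h30 : F4.Cor (F (1, 2, 1, 1)) := cstep _ _ 3 h21 (by decide)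
  have h31 : F4.Cor (F (2, 2, 2, 1)) := cstep _ _ 2 h24 (by decide)
  have h32 : F4.Cor (F (-2, -2, -1, -1)) := cstep _ _ 3 h26 (by decide)
  have h33 : F4.Cor (F (0, -2, -2, -1)) := cstep _ _ 2 h27 (by decide)
  have h34 : F4.Cor (F (-1, -2, -1, -1)) := cstep _ _ 3 h28 (by decide)
  have h35 : F4.Cor (F (1, 2, 2, 1)) := cstep _ _ 2 h30 (by decide)
  have h36 : F4.Cor (F (2, 4, 2, 1)) := cstep _ _ 1 h31 (by decide)
  have h37 : F4.Cor (F (-2, -2, -2, -1)) := cstep _ _ 2 h32 (by decide)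
  have h38 : F4.Cor (F (-1, -2, -2, -1)) := cstep _ _ 2 h34 (by decide)
  have h39 : F4.Cor (F (1, 3, 2, 1)) := cstep _ _ 1 h35 (by decide)
  have h40 : F4.Cor (F (2, 4, 3, 1)) := cstep _ _ 2 h36 (by decide)
  have h41 : F4.Cor (F (-2, -4, -2, -1)) := cstep _ _ 1 h37 (by decide)
  have h42 : F4.Cor (F (-1, -3, -2, -1)) := cstep _ _ 1 h38 (by decide)
  have h43 : F4.Cor (F (2, 3, 2, 1)) := cstep _ _ 0 h39 (by decide)
  have h44 : F4.Cor (F (2, 4, 3, 2)) := cstep _ _ 3 h40 (by decide)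
  have h45 : F4.Cor (F (-2, -4, -3, -1)) := cstep _ _ 2 h41 (by decide)
  have h46 : F4.Cor (F (-2, -3, -2, -1)) := cstep _ _ 0 h42 (by decide)
  have h47 : F4.Cor (F (-2, -4, -3, -2)) := cstep _ _ 3 h45 (by decide)
  simp only [T, List.forall_mem_cons]
  exact ⟨h0, h1, h2, h3, h4, h5, h6, h7, h8, h9, h10, h11, h12, h13, h14, h15, h16, h17, h18, h19, h20, h21, h22, h23, h24, h25, h26, h27, h28, h29, h30, h31, h32, h33, h34, h35, h36, h37, h38, h39, h40, h41, h42, h43, h44, h45, h46, h47, by simp⟩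

lemma T_cor (a : Fin 4 → ℤ) (h : F4.Cor a) : ∃ e ∈ T, a = F e.1 := by
  induction h with
  | simple i =>
    have h : ∀ i : Fin 4, ∃ e ∈ T, (om i : Fin 4 → ℤ) = F e.1 := by decide +kernel
    exact h i
  | refl a i _ ih =>
    obtain ⟨e, he, rfl⟩ := ih
    obtain ⟨e', he', h'⟩ := clos e he i
    refine ⟨e', he', ?_⟩
    rw [rtw_F, dot_F, om_F, sb_F, h']


lemma two_T : ∀ e ∈ T, dot4 e.1 e.2.1 = 2 := by decide +kernel

lemma refl_T : ∀ e ∈ T, ∀ e' ∈ T, (sb e'.1 (dot4 e'.1 e.2.1) e.1, sb e'.2.1 (dot4 e.1 e'.2.1) e.2.1,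
    e'.2.2) ∈ T := by decide +kernel

lemma pairs_T : ∀ e ∈ T, ∀ e' ∈ T, e'.2.2 * dot4 e.1 e'.2.1 = e.2.2 * dot4 e'.1 e.2.1 ∧
    (e.2.2 = e'.2.2 → dot4 e.1 e'.2.1 = 2 → e.1 = e'.1) ∧ -3 ≤ dot4 e.1 e'.2.1 ∧
    dot4 e.1 e'.2.1 ≤ 3 := by decide +kernel

lemma sgn_T : ∀ e ∈ T, F e.1 ≠ 0 ∧ ((∀ i, 0 ≤ F e.1 i) ∨ ∀ i, F e.1 i ≤ 0) := by decide +kernel

lemma prop_T : ∀ e ∈ T, ∀ i : Fin 4, (∀ k, k ≠ i → F e.1 k = 0) →
    F e.1 = H391.KR.om i ∨ F e.1 = -H391.KR.om i := by decide +kernel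

lemma pos_T : ∀ e ∈ T, 1 ≤ e.2.2 := by decide +kernel

lemma dvd_T : ∀ e ∈ T, ∀ i : Fin 4, e.2.2 ∣ F4.t i * F e.1 i := by decide +kernel

lemma rtc_T : ∀ e ∈ T, F e.2.1 = ∑ j, (F4.t j * F e.1 j / e.2.2) • F4.rtw j := by decide +kernel

lemma th_F : F4.th = F (2, 3, 2, 1) := rfl

lemma rt_th : F4.rt F4.th = F (1, 0, 0, 0) := by decide +kernel

lemma th_T : ∀ e ∈ T, e.1 ≠ (2, 3, 2, 1) → e.1 ≠ (-2, -3, -2, -1) →
    e.2.2 ∣ dot4 e.1 (1, 0, 0, 0) ∧ -e.2.2 ≤ dot4 e.1 (1, 0, 0, 0) ∧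
      dot4 e.1 (1, 0, 0, 0) ≤ e.2.2 := by
  decide +kernel

lemma bnd_T : ∀ e ∈ T, ∀ i : Fin 4, F e.1 i ≤ e.2.2 * F4.th i := by decide +kernel

lemma quad (a : Fin 4 → ℤ) : 6 * (∑ i, ∑ j, a i * F4.C i j * F4.t j * a j) =
    3 * (2 * a 0 - a 1) ^ 2 + (3 * a 1 - 4 * a 2) ^ 2 + 2 * (2 * a 2 - 3 * a 3) ^ 2 +
      6 * a 3 ^ 2 := by
  simp only [F4, Fin.sum_univ_four, Matrix.cons_val_zero, Matrix.cons_val_one, Matrix.cons_val]
  ring

lemma pd4 (a : Fin 4 → ℤ) (ha : a ≠ 0) : 0 < ∑ i, ∑ j, a i * F4.C i j * F4.t j * a j := by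
  by_contra hc
  have hq := quad a
  have h1 := sq_nonneg (2 * a 0 - a 1)
  have h2 := sq_nonneg (3 * a 1 - 4 * a 2)
  have h3 := sq_nonneg (2 * a 2 - 3 * a 3)
  have h4 := sq_nonneg (a 3)
  have e1 : (2 * a 0 - a 1) ^ 2 = 0 := by omega
  have e2 : (3 * a 1 - 4 * a 2) ^ 2 = 0 := by omega
  have e3 : (2 * a 2 - 3 * a 3) ^ 2 = 0 := by omega
  have e4 : (a 3) ^ 2 = 0 := by omega
  have f1 := pow_eq_zero_iff (two_ne_zero) |>.1 e1
  have f2 := pow_eq_zero_iff (two_ne_zero) |>.1 e2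
  have f3 := pow_eq_zero_iff (two_ne_zero) |>.1 e3
  have f4 := pow_eq_zero_iff (two_ne_zero) |>.1 e4
  refine ha (funext fun i => ?_)
  fin_cases i <;> simp <;> omega

lemma nd4 (a : Fin 4 → ℤ) (h : ∀ j, dot a (F4.rtw j) = 0) : a = 0 := by
  have h0 := h 0
  have h1 := h 1
  have h2 := h 2
  have h3 := h 3
  simp only [dot, GD.rtw, F4, Fin.sum_univ_four, Matrix.cons_val_zero, Matrix.cons_val_one,
    Matrix.cons_val] at h0 h1 h2 h3
  refine (funext fun i => ?_)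
  fin_cases i <;> simp <;> omega

lemma nd4' (g : Fin 4 → ℤ) (h : (∑ j, g j • F4.rtw j) = 0) : g = 0 := by
  have h0 := congrFun h 0
  have h1 := congrFun h 1
  have h2 := congrFun h 2
  have h3 := congrFun h 3
  simp only [Finset.sum_apply, Pi.smul_apply, smul_eq_mul, Pi.zero_apply, GD.rtw, F4,
    Fin.sum_univ_four, Matrix.cons_val_zero, Matrix.cons_val_one, Matrix.cons_val] at h0 h1 h2 h3
  refine (funext fun i => ?_)
  fin_cases i <;> simp <;> omega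


/-- a step on pairs (level, finite part) -/
def stp (j : Option (Fin 4)) (p : ℤ × V) : ℤ × V :=
  match j with
  | none => (p.1, sb p.2 (-(p.1 - dot4 (2, 3, 2, 1) p.2)) (1, 0, 0, 0))
  | some 0 => (p.1, -p.2.1, p.2.2.1 + p.2.1, p.2.2.2.1, p.2.2.2.2)
  | some 1 => (p.1, p.2.1 + p.2.2.1, -p.2.2.1, p.2.2.2.1 + 2 * p.2.2.1, p.2.2.2.2)
  | some 2 => (p.1, p.2.1, p.2.2.1 + p.2.2.2.1, -p.2.2.2.1, p.2.2.2.2 + p.2.2.2.1)
  | some 3 => (p.1, p.2.1, p.2.2.1, p.2.2.2.1 + p.2.2.2.2, -p.2.2.2.2)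

/-- the additive map -/
def stpL (j : Option (Fin 4)) : (ℤ × V) →+ (ℤ × V) where
  toFun := stp j
  map_zero' := by
    rcases j with _ | j
    · decide
    · fin_cases j <;> decide
  map_add' := by
    rintro ⟨l, a, b, c, d⟩ ⟨l', a', b', c', d'⟩
    rcases j with _ | j
    · simp only [stp, sb, dot4, Prod.mk_add_mk, Prod.mk.injEq]
      refine ⟨trivial, ?_, ?_, ?_, ?_⟩ <;> ring
    · fin_cases j <;> simp only [stp, Prod.mk_add_mk, Prod.mk.injEq, true_and, and_true] <;>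
        (repeat' constructor) <;> ring

/-- translation -/
def trs (i : Fin 4) (p : ℤ × V) : ℤ × V := (p.1, sb p.2 (p.1 * F4.t i) (e4 i))

/-- translation -/
def trL (i : Fin 4) : (ℤ × V) →+ (ℤ × V) where
  toFun := trs i
  map_zero' := by revert i; decide
  map_add' := by
    rintro ⟨l, a, b, c, d⟩ ⟨l', a', b', c', d'⟩
    simp only [trs, sb, Prod.mk_add_mk, Prod.mk.injEq]
    refine ⟨trivial, ?_, ?_, ?_, ?_⟩ <;> ring

/-- composition -/
def cmp : List (Option (Fin 4)) → ((ℤ × V) →+ (ℤ × V))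
  | [] => AddMonoidHom.id _
  | j :: w => (cmp w).comp (stpL j)

lemma foldl_cmp (w : List (Option (Fin 4))) (p : ℤ × V) : w.foldl (fun y j => stp j y) p = cmp w p := by
  induction w generalizing p with
  | nil => rfl
  | cons j w ih => rw [List.foldl_cons, ih]; rfl

lemma lin_ext (f g : (ℤ × V) →+ (ℤ × V)) (h : ∀ q ∈ [((1 : ℤ), ((0, 0, 0, 0) : V)),
    (0, 1, 0, 0, 0), (0, 0, 1, 0, 0), (0, 0, 0, 1, 0), (0, 0, 0, 0, 1)], f q = g q) (p : ℤ × V) :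
    f p = g p := by
  obtain ⟨l, a, b, c, d⟩ := p
  have hp : ((l, a, b, c, d) : ℤ × V) = l • ((1 : ℤ), ((0, 0, 0, 0) : V)) + a • (0, 1, 0, 0, 0) +
    b • (0, 0, 1, 0, 0) + c • (0, 0, 0, 1, 0) + d • (0, 0, 0, 0, 1) := by
    simp
  rw [hp]
  simp only [map_add, map_zsmul]
  rw [h _ (by simp), h _ (by simp), h _ (by simp), h _ (by simp), h _ (by simp)]

/-- word -/
def w00 : List (Option (Fin 4)) := [some 0, some 1, some 0, some 2, some 1, some 0, some 2, some 1, some 2, some 3, some 2, some 1, some 0, some 2, some 1, some 2, some 3, some 2, some 1, some 0, some 2, some 1, some 2, some 3]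

/-- words -/
def wtr : Fin 4 → List (Option (Fin 4)) := ![
  [some 0, some 1, some 2, some 1, some 0, some 3, some 2, some 1, some 0, some 2, some 1, some 3, some 2, some 1, some 0, none],
  [some 1, some 0, some 2, some 1, some 0, some 2, some 1, some 3, some 2, some 1, some 0, none, some 2, some 1, some 2, some 3, some 2, some 1, some 0, none, some 2, some 1, some 0, some 2, some 1, some 3, some 2, some 1, some 0, none],
  [some 2, some 1, some 0, some 2, some 1, some 2, some 3, some 2, some 1, some 0, none, some 2, some 1, some 0, some 2, some 1, some 3, some 2, some 1, some 0, none, some 2, some 1, some 0, some 2, some 1, some 2, some 3, some 2, some 1, some 0, none, some 2, some 1, some 0, some 2, some 1, some 3, some 2, some 1, some 0, none],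
  [some 3, some 2, some 1, some 0, some 2, some 1, some 2, some 3, some 2, some 1, some 0, none, some 2, some 1, some 0, some 2, some 1, some 3, some 2, some 1, some 0, none]]

lemma w00_chk : ∀ q ∈ [((0 : ℤ), ((1, 0, 0, 0) : V)), (0, 0, 1, 0, 0), (0, 0, 0, 1, 0),
    (0, 0, 0, 0, 1)], w00.foldl (fun y j => stp j y) q = -q := by decide +kernel

lemma wtr_chk : ∀ i, ∀ q ∈ [((1 : ℤ), ((0, 0, 0, 0) : V)),
    (0, 1, 0, 0, 0), (0, 0, 1, 0, 0), (0, 0, 0, 1, 0), (0, 0, 0, 0, 1)],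
    (wtr i).foldl (fun y j => stp j y) (trs i q) = q := by decide +kernel


/-- the function of a pair -/
def G (p : ℤ × V) : Option (Fin 4) → ℤ := aw p.1 (F p.2)

lemma G_ext (x : Option (Fin 4) → ℤ) : x = G (x none, x (some 0), x (some 1), x (some 2),
    x (some 3)) := by
  funext o
  rcases o with _ | o
  · rfl
  · fin_cases o <;> rfl

lemma rtwF (i k : Fin 4) : F4.rtw i k = F4.C k i := rfl

lemma rf_G (j : Option (Fin 4)) (p : ℤ × V) : F4.rf j (G p) = G (stp j p) := by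
  obtain ⟨l, a, b, c, d⟩ := p
  rcases j with _ | j
  · have h1 : F4.al none = aw 0 (-(F (1, 0, 0, 0))) := by rw [← rt_th]; rfl
    have h2 : F4.co none (G (l, a, b, c, d)) = l - dot4 (2, 3, 2, 1) (a, b, c, d) := by
      show l - dot F4.th (F (a, b, c, d)) = _
      rw [th_F, dot_F]
    funext o
    rw [GD.rf, h1, h2]
    rcases o with _ | o
    · simp [G, aw, stp]
    · fin_cases o <;> simp [G, aw, stp, F, sb]
  · have h1 : F4.al (some j) = aw 0 (F (r4 j)) := by rw [← rtw_F]; rfl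
    have h2 : F4.co (some j) (G (l, a, b, c, d)) = F (a, b, c, d) j := rfl
    funext o
    rw [GD.rf, h1, h2]
    rcases o with _ | o
    · fin_cases j <;> simp [G, aw, stp]
    · fin_cases j <;> fin_cases o <;> simp [G, aw, stp, F, r4] <;> ring

lemma foldl_G (w : List (Option (Fin 4))) (p : ℤ × V) :
    w.foldl (fun y j => F4.rf j y) (G p) = G (w.foldl (fun y j => stp j y) p) := by
  induction w generalizing p with
  | nil => rfl
  | cons j w ih => rw [List.foldl_cons, List.foldl_cons, rf_G, ih]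

lemma tr_G (i : Fin 4) (p : ℤ × V) : F4.tr i (G p) = G (trs i p) := by
  have h : F4.tr i (G p) = aw p.1 (F p.2 - (p.1 * F4.t i) • om i) := rfl
  rw [h, om_F, sb_F]
  rfl

lemma fold_w0 (w : List (Fin 4)) (l : ℤ) (x : Fin 4 → ℤ) :
    (w.map some).foldl (fun y j => F4.rf j y) (aw l x) =
      aw l (w.foldl (fun y j => y - y j • F4.rtw j) x) := by
  induction w generalizing x with
  | nil => rfl
  | cons j w ih =>
    rw [List.map_cons, List.foldl_cons, List.foldl_cons]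
    have h : F4.rf (some j) (aw l x) = aw l (x - x j • F4.rtw j) := by
      funext o
      rcases o with _ | o
      · simp [GD.rf, GD.al, GD.co, aw]
      · simp [GD.rf, GD.al, GD.co, aw]
    rw [h, ih]

/-- word -/
def w0l : List (Fin 4) := [0, 1, 0, 2, 1, 0, 2, 1, 2, 3, 2, 1, 0, 2, 1, 2, 3, 2, 1, 0, 2, 1, 2, 3]

lemma w0l_map : w0l.map some = w00 := by decide

lemma w00_gen (p : V) : (w0l.map some).foldl (fun y j => stp j y) (0, p) = (0, -p) := by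
  rw [w0l_map, foldl_cmp]
  obtain ⟨a, b, c, d⟩ := p
  have hp : ((0, a, b, c, d) : ℤ × V) = a • ((0 : ℤ), ((1, 0, 0, 0) : V)) +
    b • (0, 0, 1, 0, 0) + c • (0, 0, 0, 1, 0) + d • (0, 0, 0, 0, 1) := by
    simp
  rw [hp]
  simp only [map_add, map_zsmul]
  rw [← foldl_cmp, ← foldl_cmp, ← foldl_cmp, ← foldl_cmp, w00_chk _ (by simp),
    w00_chk _ (by simp), w00_chk _ (by simp), w00_chk _ (by simp)]
  simp

lemma w0_gen (w : List (Fin 4)) (hw : ∀ p : V, (w.map some).foldl (fun y j => stp j y) (0, p) =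
    (0, -p)) (x : Fin 4 → ℤ) : w.foldl (fun y j => y - y j • F4.rtw j) x = -x := by
  have h := fold_w0 w 0 x
  have hx : (aw 0 x : Option (Fin 4) → ℤ) = G (0, x 0, x 1, x 2, x 3) := by
    rw [G_ext (aw 0 x)]; rfl
  rw [hx, foldl_G, hw] at h
  funext k
  have hk := congrFun h (some k)
  have h1 : G (0, -(x 0, x 1, x 2, x 3)) (some k) = -x k := by
    fin_cases k <;> rfl
  rw [h1] at hk
  rw [Pi.neg_apply, hk]
  rfl

theorem main : GD.T_F4 where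
  t_pos := by decide
  symm := by decide
  diag := by decide
  off := by decide
  pd := pd4
  nd := nd4
  nd' := nd4'
  fin := by
    refine Set.Finite.subset (List.finite_toSet (T.map fun e => F e.1)) fun a ha => ?_
    obtain ⟨e, he, rfl⟩ := T_cor a ha
    exact List.mem_map.2 ⟨e, he, rfl⟩
  sgn := by
    intro a ha
    obtain ⟨e, he, rfl⟩ := T_cor a ha
    exact sgn_T e he
  om := by decide +kernel
  two := by
    intro a ha
    obtain ⟨e, he, rfl⟩ := T_cor a ha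
    rw [tab2 e he, dot_F]
    exact two_T e he
  refl := by
    intro a b ha hb
    obtain ⟨e, he, rfl⟩ := T_cor a ha
    obtain ⟨e', he', rfl⟩ := T_cor b hb
    have h := refl_T e he e' he'
    have h0 := cor_T _ h
    have h1 := tab1 _ h
    have h2 := tab2 _ h
    rw [tab2 e he, tab2 e' he', tab1 e' he', dot_F, dot_F, sb_F, sb_F]
    exact ⟨h0, h1, h2⟩
  pairs := by
    intro a b ha hb
    obtain ⟨e, he, rfl⟩ := T_cor a ha
    obtain ⟨e', he', rfl⟩ := T_cor b hb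
    rw [tab2 e he, tab2 e' he', tab1 e' he', tab1 e he, dot_F, dot_F]
    obtain ⟨h1, h2, h3, h4⟩ := pairs_T e he e' he'
    exact ⟨h1, fun h h' => by rw [h2 h h'], abs_le.2 ⟨h3, h4⟩⟩
  prop := by
    intro a ha
    obtain ⟨e, he, rfl⟩ := T_cor a ha
    exact prop_T e he
  tt_pos := by
    intro a ha
    obtain ⟨e, he, rfl⟩ := T_cor a ha
    rw [tab1 e he]
    exact pos_T e he
  tdvd := by
    intro a ha
    obtain ⟨e, he, rfl⟩ := T_cor a ha
    rw [tab1 e he]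
    exact dvd_T e he
  rtc := by
    intro a ha
    obtain ⟨e, he, rfl⟩ := T_cor a ha
    rw [tab1 e he, tab2 e he]
    exact ⟨fun j => F4.t j * F e.1 j / e.2.2, rtc_T e he,
      fun j => Int.mul_ediv_cancel' (dvd_T e he j)⟩
  th_cor := by
    refine ⟨?_, by decide +kernel⟩
    have h : ∃ e ∈ T, F4.th = F e.1 := by decide +kernel
    obtain ⟨e, he, h⟩ := h
    rw [h]
    exact cor_T e he
  th_pos := by decide
  th_dom := by decide +kernel
  th_pair := by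
    intro a ha h1 h2
    obtain ⟨e, he, rfl⟩ := T_cor a ha
    rw [tab1 e he, rt_th, dot_F]
    obtain ⟨g1, g2, g3⟩ := th_T e he (fun h => h1 (by rw [h]; rfl))
      (fun h => h2 (by rw [h]; decide +kernel))
    exact ⟨g1, abs_le.2 ⟨g2, g3⟩⟩
  bnd := by
    intro a ha
    obtain ⟨e, he, rfl⟩ := T_cor a ha
    rw [tab1 e he]
    exact bnd_T e he
  w0 := ⟨w0l, fun x => w0_gen w0l w00_gen x⟩
  trw := by
    intro i
    refine ⟨wtr i, fun x => ?_⟩
    rw [G_ext x, tr_G, foldl_G, foldl_cmp]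
    congr 1
    refine lin_ext ((cmp (wtr i)).comp (trL i)) (AddMonoidHom.id _) (fun q hq => ?_) _
    have h := wtr_chk i q hq
    rw [foldl_cmp] at h
    exact h

end H391.KR.P_f4ok
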