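import Pool.Agent.H391.KR.GT

/-!
# KR part G, task g2ok: the elementary facts on the root datum of type `G_2`
-/

set_option autoImplicit false

noncomputable section

namespace H391.KR.P_g2ok

open Finset H391.KR

/-- the coroots -/
def LL : List (ℤ × ℤ) := [(1, 0), (1, 3), (2, 3), (0, 1), (1, 1), (1, 2), (-1, 0), (-1, -3),
  (-2, -3), (0, -1), (-1, -1), (-1, -2)]

/-- half the square length -/
def Q (p : ℤ × ℤ) : ℤ := 3 * p.1 * p.1 - 3 * p.1 * p.2 + p.2 * p.2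

/-- first coordinate of the root -/
def R0 (p : ℤ × ℤ) : ℤ := (6 * p.1 - 3 * p.2) / Q p

/-- second coordinate of the root -/
def R1 (p : ℤ × ℤ) : ℤ := (-3 * p.1 + 2 * p.2) / Q p

/-- the value of the coroot `p` at the root of `q` -/
def DD (p q : ℤ × ℤ) : ℤ := p.1 * R0 q + p.2 * R1 q

theorem dot_eq (a b : Fin 2 → ℤ) : dot a b = a 0 * b 0 + a 1 * b 1 := by
  unfold dot
  rw [Fin.sum_univ_two]

theorem eta (a : Fin 2 → ℤ) : a = ![a 0, a 1] := by
  funext i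
  fin_cases i <;> rfl

theorem ext2 {a b : Fin 2 → ℤ} (h0 : a 0 = b 0) (h1 : a 1 = b 1) : a = b := by
  funext i
  fin_cases i
  · exact h0
  · exact h1

theorem C00 : G2.C 0 0 = 2 := rfl
theorem C01 : G2.C 0 1 = -3 := rfl
theorem C10 : G2.C 1 0 = -1 := rfl
theorem C11 : G2.C 1 1 = 2 := rfl
theorem t0 : G2.t 0 = 3 := rfl
theorem t1 : G2.t 1 = 1 := rfl
theorem th0 : G2.th 0 = 1 := rfl
theorem th1 : G2.th 1 = 2 := rfl

theorem rtw0 : G2.rtw 0 = ![2, -1] := by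
  refine ext2 rfl rfl

theorem rtw1 : G2.rtw 1 = ![-3, 2] := by
  refine ext2 rfl rfl

theorem om0 : (om 0 : Fin 2 → ℤ) = ![1, 0] := ext2 rfl rfl
theorem om1 : (om 1 : Fin 2 → ℤ) = ![0, 1] := ext2 rfl rfl

theorem form_eq (a : Fin 2 → ℤ) :
    (∑ i, ∑ j, a i * G2.C i j * G2.t j * a j) = 2 * Q (a 0, a 1) := by
  simp only [Fin.sum_univ_two, C00, C01, C10, C11, t0, t1, Q]
  ring

theorem tt_eq (a : Fin 2 → ℤ) : G2.tt a = Q (a 0, a 1) := by
  unfold GD.tt
  rw [form_eq, Int.mul_ediv_cancel_left _ (by norm_num)]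

theorem rt0 (a : Fin 2 → ℤ) : G2.rt a 0 = R0 (a 0, a 1) := by
  unfold GD.rt R0
  simp only [Fin.sum_univ_two, C00, C01, t0, t1, tt_eq]
  congr 1
  ring

theorem rt1 (a : Fin 2 → ℤ) : G2.rt a 1 = R1 (a 0, a 1) := by
  unfold GD.rt R1
  simp only [Fin.sum_univ_two, C10, C11, t0, t1, tt_eq]
  congr 1

theorem dot_rt (a b : Fin 2 → ℤ) : dot a (G2.rt b) = DD (a 0, a 1) (b 0, b 1) := by
  rw [dot_eq, rt0, rt1]
  rfl

theorem mem_of {a : Fin 2 → ℤ} (h : G2.Cor a) : (a 0, a 1) ∈ LL := by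
  have key : ∀ p ∈ LL, (p.2 - p.1, p.2) ∈ LL ∧ (p.1, 3 * p.1 - p.2) ∈ LL := by decide
  induction h with
  | simple i =>
    fin_cases i
    · exact List.mem_of_elem_eq_true rfl
    · exact List.mem_of_elem_eq_true rfl
  | refl a i _ ih =>
    obtain ⟨k0, k1⟩ := key _ ih
    fin_cases i
    · have e0 : (a - dot a (G2.rtw 0) • (om 0 : Fin 2 → ℤ)) 0 = a 1 - a 0 := by
        rw [rtw0, om0, dot_eq]
        simp
        ring
      have e1 : (a - dot a (G2.rtw 0) • (om 0 : Fin 2 → ℤ)) 1 = a 1 := by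
        rw [rtw0, om0, dot_eq]
        simp
      show ((a - dot a (G2.rtw 0) • (om 0 : Fin 2 → ℤ)) 0,
        (a - dot a (G2.rtw 0) • (om 0 : Fin 2 → ℤ)) 1) ∈ LL
      rw [e0, e1]
      exact k0
    · have e0 : (a - dot a (G2.rtw 1) • (om 1 : Fin 2 → ℤ)) 0 = a 0 := by
        rw [rtw1, om1, dot_eq]
        simp
      have e1 : (a - dot a (G2.rtw 1) • (om 1 : Fin 2 → ℤ)) 1 = 3 * a 0 - a 1 := by
        rw [rtw1, om1, dot_eq]
        simp
        ring
      show ((a - dot a (G2.rtw 1) • (om 1 : Fin 2 → ℤ)) 0,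
        (a - dot a (G2.rtw 1) • (om 1 : Fin 2 → ℤ)) 1) ∈ LL
      rw [e0, e1]
      exact k1

theorem s0 {x y x' : ℤ} (h : G2.Cor ![x, y]) (hx : x' = y - x) : G2.Cor ![x', y] := by
  have h1 := GD.Cor.refl _ 0 h
  have e : (![x, y] : Fin 2 → ℤ) - dot ![x, y] (G2.rtw 0) • (om 0 : Fin 2 → ℤ) = ![x', y] := by
    rw [rtw0, om0, dot_eq, hx]
    refine ext2 ?_ ?_
    · simp
      ring
    · simp
  rwa [e] at h1

theorem s1 {x y y' : ℤ} (h : G2.Cor ![x, y]) (hy : y' = 3 * x - y) : G2.Cor ![x, y'] := by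
  have h1 := GD.Cor.refl _ 1 h
  have e : (![x, y] : Fin 2 → ℤ) - dot ![x, y] (G2.rtw 1) • (om 1 : Fin 2 → ℤ) = ![x, y'] := by
    rw [rtw1, om1, dot_eq, hy]
    refine ext2 ?_ ?_
    · simp
    · simp
      ring
  rwa [e] at h1

theorem of_mem {x y : ℤ} (h : (x, y) ∈ LL) : G2.Cor ![x, y] := by
  have a1 : G2.Cor ![1, 0] := by
    have := GD.Cor.simple (S := G2) 0
    rwa [om0] at this
  have a2 : G2.Cor ![1, 3] := s1 a1 (by norm_num)
  have a3 : G2.Cor ![2, 3] := s0 a2 (by norm_num)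
  have b1 : G2.Cor ![0, 1] := by
    have := GD.Cor.simple (S := G2) 1
    rwa [om1] at this
  have b2 : G2.Cor ![1, 1] := s0 b1 (by norm_num)
  have b3 : G2.Cor ![1, 2] := s1 b2 (by norm_num)
  have c1 : G2.Cor ![-1, 0] := s0 a1 (by norm_num)
  have c2 : G2.Cor ![-1, -3] := s1 c1 (by norm_num)
  have c3 : G2.Cor ![-2, -3] := s0 c2 (by norm_num)
  have d1 : G2.Cor ![0, -1] := s1 b1 (by norm_num)
  have d2 : G2.Cor ![-1, -1] := s0 d1 (by norm_num)
  have d3 : G2.Cor ![-1, -2] := s1 d2 (by norm_num)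
  simp only [LL, List.mem_cons, Prod.mk.injEq, List.not_mem_nil, or_false] at h
  rcases h with h | h | h | h | h | h | h | h | h | h | h | h <;>
    (obtain ⟨rfl, rfl⟩ := h; assumption)

theorem cor_of {a : Fin 2 → ℤ} (h : (a 0, a 1) ∈ LL) : G2.Cor a := by
  rw [eta a]
  exact of_mem h

/-! ### words -/

theorem rfs0 {l a b a' b' : ℤ} (ha : a' = -a) (hb : b' = b + a) :
    G2.rf (some 0) (aw l ![a, b]) = aw l ![a', b'] := by
  show aw l ![a, b] - a • aw 0 (G2.rtw 0) = aw l ![a', b']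
  rw [rtw0, ha, hb]
  funext o
  rcases o with _ | i
  · simp [aw]
  · fin_cases i
    · simp [aw]
      ring
    · simp [aw]

theorem rfs1 {l a b a' b' : ℤ} (ha : a' = a + 3 * b) (hb : b' = -b) :
    G2.rf (some 1) (aw l ![a, b]) = aw l ![a', b'] := by
  show aw l ![a, b] - b • aw 0 (G2.rtw 1) = aw l ![a', b']
  rw [rtw1, ha, hb]
  funext o
  rcases o with _ | i
  · simp [aw]
  · fin_cases i
    · simp [aw]
      ring
    · simp [aw]
      ring

theorem rfn {l a b b' : ℤ} (hb : b' = l - a - b) :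
    G2.rf none (aw l ![a, b]) = aw l ![a, b'] := by
  have e0 : G2.rt G2.th 0 = 0 := by rw [rt0, th0, th1]; decide
  have e1 : G2.rt G2.th 1 = 1 := by rw [rt1, th0, th1]; decide
  unfold GD.rf GD.co GD.al
  rw [hb]
  funext o
  rcases o with _ | i
  · simp [aw]
  · fin_cases i
    · simp [aw, e0]
    · simp [aw, e1, fp, dot_eq, th0, th1]
      ring

theorem aweta (x : Option (Fin 2) → ℤ) : x = aw (x none) ![x (some 0), x (some 1)] := by
  funext o
  rcases o with _ | i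
  · rfl
  · fin_cases i <;> rfl

theorem tr0 (x : Option (Fin 2) → ℤ) :
    G2.tr 0 x = aw (x none) ![x (some 0) - 3 * x none, x (some 1)] := by
  unfold GD.tr
  congr 1
  rw [t0, om0]
  refine ext2 ?_ ?_
  · simp [fp]
    ring
  · simp [fp]

theorem tr1 (x : Option (Fin 2) → ℤ) :
    G2.tr 1 x = aw (x none) ![x (some 0), x (some 1) - x none] := by
  unfold GD.tr
  congr 1
  rw [t1, om1]
  refine ext2 ?_ ?_
  · simp [fp]
  · simp [fp]

theorem word0 (x : Option (Fin 2) → ℤ) :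
    [some 0, some 1, some 0, some 1, some 0, none, some 1, some 0, some 1, none].foldl
      (fun y j => G2.rf j y) (G2.tr 0 x) = x := by
  rw [tr0]
  conv_rhs => rw [aweta x]
  obtain ⟨l, hl⟩ : ∃ l, l = x none := ⟨_, rfl⟩
  obtain ⟨a, ha⟩ : ∃ a, a = x (some 0) := ⟨_, rfl⟩
  obtain ⟨b, hb⟩ : ∃ b, b = x (some 1) := ⟨_, rfl⟩
  rw [← hl, ← ha, ← hb]
  simp only [List.foldl_cons, List.foldl_nil]
  rw [rfs0 (a' := 3 * l - a) (b' := -3 * l + a + b) (by ring) (by ring)]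
  rw [rfs1 (a' := -6 * l + 2 * a + 3 * b) (b' := 3 * l - a - b) (by ring) (by ring)]
  rw [rfs0 (a' := 6 * l - 2 * a - 3 * b) (b' := -3 * l + a + 2 * b) (by ring) (by ring)]
  rw [rfs1 (a' := -3 * l + a + 3 * b) (b' := 3 * l - a - 2 * b) (by ring) (by ring)]
  rw [rfs0 (a' := 3 * l - a - 3 * b) (b' := b) (by ring) (by ring)]
  rw [rfn (b' := -2 * l + a + 2 * b) (by ring)]
  rw [rfs1 (a' := -3 * l + 2 * a + 3 * b) (b' := 2 * l - a - 2 * b) (by ring) (by ring)]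
  rw [rfs0 (a' := 3 * l - 2 * a - 3 * b) (b' := -l + a + b) (by ring) (by ring)]
  rw [rfs1 (a' := a) (b' := l - a - b) (by ring) (by ring)]
  rw [rfn (b' := b) (by ring)]

theorem word1 (x : Option (Fin 2) → ℤ) :
    [some 1, some 0, some 1, some 0, some 1, none].foldl
      (fun y j => G2.rf j y) (G2.tr 1 x) = x := by
  rw [tr1]
  conv_rhs => rw [aweta x]
  obtain ⟨l, hl⟩ : ∃ l, l = x none := ⟨_, rfl⟩
  obtain ⟨a, ha⟩ : ∃ a, a = x (some 0) := ⟨_, rfl⟩
  obtain ⟨b, hb⟩ : ∃ b, b = x (some 1) := ⟨_, rfl⟩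
  rw [← hl, ← ha, ← hb]
  simp only [List.foldl_cons, List.foldl_nil]
  rw [rfs1 (a' := -3 * l + a + 3 * b) (b' := l - b) (by ring) (by ring)]
  rw [rfs0 (a' := 3 * l - a - 3 * b) (b' := -2 * l + a + 2 * b) (by ring) (by ring)]
  rw [rfs1 (a' := -3 * l + 2 * a + 3 * b) (b' := 2 * l - a - 2 * b) (by ring) (by ring)]
  rw [rfs0 (a' := 3 * l - 2 * a - 3 * b) (b' := -l + a + b) (by ring) (by ring)]
  rw [rfs1 (a' := a) (b' := l - a - b) (by ring) (by ring)]
  rw [rfn (b' := b) (by ring)]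

theorem fs0 {a b a' b' : ℤ} (ha : a' = -a) (hb : b' = b + a) :
    (![a, b] : Fin 2 → ℤ) - (![a, b] : Fin 2 → ℤ) 0 • G2.rtw 0 = ![a', b'] := by
  rw [rtw0, ha, hb]
  refine ext2 ?_ ?_
  · simp
    ring
  · simp

theorem fs1 {a b a' b' : ℤ} (ha : a' = a + 3 * b) (hb : b' = -b) :
    (![a, b] : Fin 2 → ℤ) - (![a, b] : Fin 2 → ℤ) 1 • G2.rtw 1 = ![a', b'] := by
  rw [rtw1, ha, hb]
  refine ext2 ?_ ?_
  · simp
    ring
  · simp
    ring

theorem longest (x : Fin 2 → ℤ) :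
    ([0, 1, 0, 1, 0, 1] : List (Fin 2)).foldl (fun y j => y - y j • G2.rtw j) x = -x := by
  obtain ⟨a, ha⟩ : ∃ a, a = x 0 := ⟨_, rfl⟩
  obtain ⟨b, hb⟩ : ∃ b, b = x 1 := ⟨_, rfl⟩
  have hx : x = ![a, b] := by rw [ha, hb]; exact eta x
  have hn : -x = ![-a, -b] := by
    rw [ha, hb]
    exact ext2 rfl rfl
  rw [hn, hx]
  simp only [List.foldl_cons, List.foldl_nil]
  rw [fs0 (a' := -a) (b' := b + a) (by ring) (by ring)]
  rw [fs1 (a' := 2 * a + 3 * b) (b' := -a - b) (by ring) (by ring)]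
  rw [fs0 (a' := -2 * a - 3 * b) (b' := a + 2 * b) (by ring) (by ring)]
  rw [fs1 (a' := a + 3 * b) (b' := -a - 2 * b) (by ring) (by ring)]
  rw [fs0 (a' := -a - 3 * b) (b' := b) (by ring) (by ring)]
  rw [fs1 (a' := -a) (b' := -b) (by ring) (by ring)]

/-- Task g2ok. -/
theorem main : GD.T_G2 := by
  have hth : (G2.th 0, G2.th 1) ∈ LL := by rw [th0, th1]; decide
  refine
    { t_pos := ?_
      symm := ?_
      diag := ?_
      off := ?_
      pd := ?_
      nd := ?_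
      nd' := ?_
      fin := ?_
      sgn := ?_
      om := ?_
      two := ?_
      refl := ?_
      pairs := ?_
      prop := ?_
      tt_pos := ?_
      tdvd := ?_
      rtc := ?_
      th_cor := ?_
      th_pos := ?_
      th_dom := ?_
      th_pair := ?_
      bnd := ?_
      w0 := ?_
      trw := ?_ }
  · rw [Fin.forall_fin_two]
    exact ⟨by rw [t0]; norm_num, by rw [t1]⟩
  · rw [Fin.forall_fin_two]
    refine ⟨?_, ?_⟩ <;> rw [Fin.forall_fin_two] <;>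
      refine ⟨?_, ?_⟩ <;> simp only [t0, t1, C00, C01, C10, C11] <;> norm_num
  · rw [Fin.forall_fin_two]
    exact ⟨rfl, rfl⟩
  · rw [Fin.forall_fin_two]
    refine ⟨?_, ?_⟩ <;> rw [Fin.forall_fin_two] <;>
      refine ⟨?_, ?_⟩ <;> intro h <;>
      first
      | exact absurd rfl h
      | (simp only [C01, C10]; norm_num)
  · intro a ha
    rw [form_eq]
    unfold Q
    have h1 : a 0 ≠ 0 ∨ a 1 ≠ 0 := by
      by_contra h
      push Not at h
      exact ha (ext2 h.1 h.2)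
    have h2 : 4 * (3 * a 0 * a 0 - 3 * a 0 * a 1 + a 1 * a 1) =
        (2 * a 1 - 3 * a 0) ^ 2 + 3 * a 0 ^ 2 := by ring
    have h3 : 0 < (2 * a 1 - 3 * a 0) ^ 2 + 3 * a 0 ^ 2 := by
      rcases eq_or_ne (a 0) 0 with h0 | h0
      · have h4 : a 1 ≠ 0 := h1.resolve_left (fun h => h h0)
        rw [h0]
        have : 2 * a 1 - 3 * 0 ≠ 0 := by
          intro h
          apply h4
          linarith
        positivity
      · positivity
    show 0 < 2 * (3 * a 0 * a 0 - 3 * a 0 * a 1 + a 1 * a 1)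
    linarith
  · intro a h
    rw [Fin.forall_fin_two, rtw0, rtw1, dot_eq, dot_eq] at h
    obtain ⟨h1, h2⟩ := h
    simp only [Matrix.cons_val_zero, Matrix.cons_val_one] at h1 h2
    exact ext2 (by show a 0 = 0; linarith) (by show a 1 = 0; linarith)
  · intro g h
    rw [Fin.sum_univ_two, rtw0, rtw1] at h
    have h1 := congrFun h 0
    have h2 := congrFun h 1
    simp at h1 h2
    exact ext2 (by show g 0 = 0; linarith) (by show g 1 = 0; linarith)
  · refine Set.Finite.subset (Set.toFinite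
      (↑(LL.toFinset.image fun p : ℤ × ℤ => (![p.1, p.2] : Fin 2 → ℤ)) : Set (Fin 2 → ℤ))) ?_
    intro a ha
    rw [Finset.mem_coe, Finset.mem_image]
    exact ⟨(a 0, a 1), List.mem_toFinset.2 (mem_of ha), (eta a).symm⟩
  · intro a ha
    have key : ∀ p ∈ LL, (p.1 ≠ 0 ∨ p.2 ≠ 0) ∧ ((0 ≤ p.1 ∧ 0 ≤ p.2) ∨ (p.1 ≤ 0 ∧ p.2 ≤ 0)) := by
      decide
    obtain ⟨k1, k2⟩ := key _ (mem_of ha)
    refine ⟨?_, ?_⟩
    · rintro rfl
      rcases k1 with k1 | k1 <;> exact k1 rfl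
    · rw [Fin.forall_fin_two, Fin.forall_fin_two]
      exact k2
  · rw [Fin.forall_fin_two]
    refine ⟨⟨?_, ?_⟩, ⟨?_, ?_⟩⟩
    · rw [tt_eq]
      decide
    · rw [rtw0]
      refine ext2 ?_ ?_
      · rw [rt0]
        decide
      · rw [rt1]
        decide
    · rw [tt_eq]
      decide
    · rw [rtw1]
      refine ext2 ?_ ?_
      · rw [rt0]
        decide
      · rw [rt1]
        decide
  · intro a ha
    have key : ∀ p ∈ LL, DD p p = 2 := by decide
    rw [dot_rt]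
    exact key _ (mem_of ha)
  · intro a b ha hb
    have key : ∀ p ∈ LL, ∀ q ∈ LL, (q.1 - DD q p * p.1, q.2 - DD q p * p.2) ∈ LL ∧
        Q (q.1 - DD q p * p.1, q.2 - DD q p * p.2) = Q q ∧
        R0 (q.1 - DD q p * p.1, q.2 - DD q p * p.2) = R0 q - DD p q * R0 p ∧
        R1 (q.1 - DD q p * p.1, q.2 - DD q p * p.2) = R1 q - DD p q * R1 p := by decide
    obtain ⟨k1, k2, k3, k4⟩ := key _ (mem_of ha) _ (mem_of hb)
    have e0 : (b - dot b (G2.rt a) • a) 0 = b 0 - DD (b 0, b 1) (a 0, a 1) * a 0 := by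
      rw [dot_rt]
      rfl
    have e1 : (b - dot b (G2.rt a) • a) 1 = b 1 - DD (b 0, b 1) (a 0, a 1) * a 1 := by
      rw [dot_rt]
      rfl
    refine ⟨cor_of ?_, ?_, ext2 ?_ ?_⟩
    · rw [e0, e1]
      exact k1
    · rw [tt_eq, tt_eq, e0, e1]
      exact k2
    · rw [rt0, e0, e1, k3]
      show _ = G2.rt b 0 - dot a (G2.rt b) * G2.rt a 0
      rw [rt0, rt0, dot_rt]
    · rw [rt1, e0, e1, k4]
      show _ = G2.rt b 1 - dot a (G2.rt b) * G2.rt a 1
      rw [rt1, rt1, dot_rt]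
  · intro a b ha hb
    have key : ∀ p ∈ LL, ∀ q ∈ LL, Q q * DD p q = Q p * DD q p ∧
        (Q p = Q q → DD p q = 2 → p = q) ∧ |DD p q| ≤ 3 := by decide
    obtain ⟨k1, k2, k3⟩ := key _ (mem_of ha) _ (mem_of hb)
    rw [tt_eq, tt_eq, dot_rt, dot_rt]
    refine ⟨k1, fun h1 h2 => ?_, k3⟩
    have h3 := k2 h1 h2
    exact ext2 (congrArg Prod.fst h3) (congrArg Prod.snd h3)
  · intro a ha
    have key : ∀ p ∈ LL, (p.2 = 0 → p = (1, 0) ∨ p = (-1, 0)) ∧
        (p.1 = 0 → p = (0, 1) ∨ p = (0, -1)) := by decide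
    obtain ⟨k1, k2⟩ := key _ (mem_of ha)
    rw [Fin.forall_fin_two]
    refine ⟨fun h => ?_, fun h => ?_⟩
    · rcases k1 (h 1 (by decide)) with h1 | h1
      · left
        rw [om0]
        exact ext2 (congrArg Prod.fst h1) (congrArg Prod.snd h1)
      · right
        rw [om0]
        exact ext2 (congrArg Prod.fst h1) (congrArg Prod.snd h1)
    · rcases k2 (h 0 (by decide)) with h1 | h1
      · left
        rw [om1]
        exact ext2 (congrArg Prod.fst h1) (congrArg Prod.snd h1)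
      · right
        rw [om1]
        exact ext2 (congrArg Prod.fst h1) (congrArg Prod.snd h1)
  · intro a ha
    have key : ∀ p ∈ LL, 1 ≤ Q p := by decide
    rw [tt_eq]
    exact key _ (mem_of ha)
  · intro a ha
    have key : ∀ p ∈ LL, Q p ∣ 3 * p.1 ∧ Q p ∣ 1 * p.2 := by decide
    rw [Fin.forall_fin_two, tt_eq, t0, t1]
    exact key _ (mem_of ha)
  · intro a ha
    have key : ∀ p ∈ LL, R0 p = 2 * (3 * p.1 / Q p) - 3 * (p.2 / Q p) ∧
        R1 p = -(3 * p.1 / Q p) + 2 * (p.2 / Q p) ∧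
        Q p * (3 * p.1 / Q p) = 3 * p.1 ∧ Q p * (p.2 / Q p) = 1 * p.2 := by decide
    obtain ⟨k1, k2, k3, k4⟩ := key _ (mem_of ha)
    refine ⟨![3 * a 0 / Q (a 0, a 1), a 1 / Q (a 0, a 1)], ?_, ?_⟩
    · rw [Fin.sum_univ_two, rtw0, rtw1]
      refine ext2 ?_ ?_
      · rw [rt0, k1]
        simp
        ring
      · rw [rt1, k2]
        simp
        ring
    · rw [Fin.forall_fin_two, tt_eq, t0, t1]
      exact ⟨k3, k4⟩
  · refine ⟨cor_of hth, ?_⟩
    rw [tt_eq, th0, th1]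
    decide
  · rw [Fin.forall_fin_two, th0, th1]
    norm_num
  · rw [Fin.forall_fin_two, rt0, rt1, th0, th1]
    decide
  · intro a ha h1 h2
    have key : ∀ p ∈ LL, p ≠ (1, 2) → p ≠ (-1, -2) → Q p ∣ DD p (1, 2) ∧ |DD p (1, 2)| ≤ Q p := by
      decide
    rw [tt_eq, dot_rt, th0, th1]
    refine key _ (mem_of ha) (fun h => h1 ?_) (fun h => h2 ?_)
    · exact ext2 (congrArg Prod.fst h) (congrArg Prod.snd h)
    · exact ext2 (congrArg Prod.fst h) (congrArg Prod.snd h)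
  · intro a ha
    have key : ∀ p ∈ LL, p.1 ≤ Q p * 1 ∧ p.2 ≤ Q p * 2 := by decide
    rw [Fin.forall_fin_two, tt_eq, th0, th1]
    exact key _ (mem_of ha)
  · exact ⟨[0, 1, 0, 1, 0, 1], longest⟩
  · rw [Fin.forall_fin_two]
    exact ⟨⟨_, word0⟩, ⟨_, word1⟩⟩

end H391.KR.P_g2ok
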