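import Pool.Agent.H391.KR.GC

/-!
# The Q-system relation at level `k` (task KR-gK)
-/

set_option autoImplicit false

noncomputable section

namespace H391.KR.P_gK

open Finset H391.KR

lemma ex_mul {ι : Type} (x y : ι → ℤ) : ex x * ex y = ex (x + y) := by
  unfold ex
  rw [AddMonoidAlgebra.single_mul_single, one_mul]

lemma aw_add {n : ℕ} (a b : ℤ) (x y : Fin n → ℤ) : aw a x + aw b y = aw (a + b) (x + y) := by
  funext o
  cases o with
  | none => rfl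
  | some j => rfl

theorem main : RDat.N_op → RDat.N_adj → GD.G_sig → GD.G_sd → GD.G_X → GD.G_adj → GD.G_F →
    GD.G_K := by
  intro hop hadj hsig hsd hX hA hF n S hS D hD hOK i m k hmk p hp phi hphi
  obtain ⟨X⟩ := hsig n S hS D hD i
  obtain ⟨c, -, sd1, sd2, sd3⟩ := hsd n S hS D hD hOK i
  obtain ⟨x1, x2, -, x4⟩ := hX n S hS D hD hOK i X
  have a1 := hA n S hS D hD hOK i X (k - m)
  obtain ⟨-, f2, f3, f4, -, f6, -⟩ := hF n S hS D hD hOK
  have f1 := (hF n S hS D hD hOK).1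
  obtain ⟨-, n2, n3, -⟩ := hadj _ _ D p hp
  obtain ⟨psi, hpsi⟩ : ∃ psi, psi = phi * S.T D i m := ⟨_, rfl⟩
  have hinv : ∀ j, D.IsInv j psi := by
    intro j
    rw [hpsi]
    exact ((hop _ _ D j).2.2.2.2.2.2.2.1 _ _ (hphi.1 j) ((f2 i m).1 j)).2.2
  have hk : (m : ℤ) + ((k - m : ℕ) : ℤ) = k := by omega
  -- the element `F ^ 2 - nb`
  have h1 : ex (aw (m : ℤ) 0) * (S.F D i m ^ 2 - S.nb D i m) =
      S.T D i m * X.X (ex (aw (m : ℤ) (-om i))) := by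
    have h2 : X.X (D.Dem (S.xi i) m) = S.F D i m * (ex (aw (m : ℤ) 0) * S.F D i m) := by
      rw [← f3 i m, mul_comm (ex (aw (m : ℤ) 0)) (S.F D i m), x1 _ _ (f1 i m), x2, ← f3 i m]
      rw [mul_comm (S.F D i m) (ex (aw (m : ℤ) 0))]
    have h3 : X.X (D.Dem (D.s (some i) (S.xi i)) m) = ex (aw (m : ℤ) 0) * S.nb D i m := by
      rw [x4, f6]
    have h4 : X.X (D.Dem (S.xi i) m - D.Dem (D.s (some i) (S.xi i)) m) =
        S.T D i m * X.X (ex (aw (m : ℤ) (-om i))) := by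
      rw [f4, mul_comm, x1 _ _ (f2 i m)]
    rw [map_sub, h2, h3] at h4
    rw [← h4]
    ring
  have h5 : ex (aw (k : ℤ) 0) * (S.F D i m ^ 2 - S.nb D i m) =
      X.X (ex (aw (m : ℤ) (-om i))) * (S.T D i m * ex (aw ((k - m : ℕ) : ℤ) 0)) := by
    have h6 : (ex (aw (k : ℤ) 0) : GR (Option (Fin n))) =
        ex (aw (m : ℤ) 0) * ex (aw ((k - m : ℕ) : ℤ) 0) := by
      rw [ex_mul, aw_add, hk, add_zero]
    rw [h6]
    calc ex (aw (m : ℤ) 0) * ex (aw ((k - m : ℕ) : ℤ) 0) * (S.F D i m ^ 2 - S.nb D i m) =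
        (ex (aw (m : ℤ) 0) * (S.F D i m ^ 2 - S.nb D i m)) * ex (aw ((k - m : ℕ) : ℤ) 0) := by ring
      _ = _ := by rw [h1]; ring
  have h7 : phi * (ex (aw (k : ℤ) 0) * (S.F D i m ^ 2 - S.nb D i m)) =
      D.demL (some i :: X.w) (ex (aw (m : ℤ) (-om i))) * (psi * ex (aw ((k - m : ℕ) : ℤ) 0)) := by
    rw [h5, hpsi]
    show phi * (X.X (ex (aw (m : ℤ) (-om i))) * (S.T D i m * ex (aw ((k - m : ℕ) : ℤ) 0))) =
      X.X (ex (aw (m : ℤ) (-om i))) * (phi * S.T D i m * ex (aw ((k - m : ℕ) : ℤ) 0))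
    ring
  rw [h7, n2, n3 _ _ _ (fun j _ => hinv j), a1, sd3 (m : ℤ), sub_mul, map_sub, n2, n2,
    List.reverse_reverse, List.reverse_reverse, n3 _ _ _ (fun j _ => hinv j),
    n3 _ _ _ (fun j _ => hinv j), ← sd1, ← sd2, ← map_sub, ← mul_sub, ← mul_sub, f4]
  congr 1
  have h8 : (ex (aw (k : ℤ) 0) : GR (Option (Fin n))) =
      ex (aw (m : ℤ) (om i)) * ex (aw ((k - m : ℕ) : ℤ) (-om i)) := by
    rw [ex_mul, aw_add, hk, add_neg_cancel]
  rw [h8, hpsi]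
  ring

end H391.KR.P_gK
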