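import Pool.Agent.H391.KR.GC

noncomputable section

namespace H391.KR.P_gX

open Finset H391.KR

variable {n : ℕ}

theorem al_none {S : GD n} {D : RDat (Option (Fin n)) (Option (Fin n))} (hD : S.AffDat D)
    (j : Option (Fin n)) : (D.al j) none = 0 := by
  rw [hD.al]
  cases j with
  | none => rfl
  | some j => rfl

theorem s_none {S : GD n} {D : RDat (Option (Fin n)) (Option (Fin n))} (hD : S.AffDat D)
    (j : Option (Fin n)) (x : Option (Fin n) → ℤ) : (D.s j x) none = x none := by
  unfold RDat.s
  rw [Pi.sub_apply, Pi.smul_apply, al_none hD, smul_zero, sub_zero]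

theorem dot_neg_om (a : Fin n → ℤ) (c : ℤ) (i : Fin n) : dot a (-(c • om i)) = -(c * a i) := by
  unfold dot om
  simp [mul_comm]

theorem xi_pair (S : GD n) {D : RDat (Option (Fin n)) (Option (Fin n))}
    (i : Fin n) (a : Fin n → ℤ) (m : ℤ) (b : D.R)
    (hb : ∀ x, D.ev b x = dot a (fp x) + m * x none) : D.ev b (S.xi i) = m - S.t i * a i := by
  rw [hb]
  have h1 : fp (S.xi i) = -(S.t i • om i) := rfl
  have h2 : (S.xi i) none = 1 := rfl
  rw [h1, h2, dot_neg_om]
  ring

/-- a positive coroot other than the `i`-th simple one stays positive under `s_i` -/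
theorem pos_le {S : GD n} (hS : S.OK) {a : Fin n → ℤ} (ha : S.Cor a) (h0 : ∀ j, 0 ≤ a j)
    (i : Fin n) (hne : a ≠ om i) : dot a (S.rtw i) ≤ a i := by
  obtain ⟨k, hk, hk0⟩ : ∃ k, k ≠ i ∧ a k ≠ 0 := by
    by_contra h
    push Not at h
    rcases hS.prop a ha i h with h1 | h1
    · exact hne h1
    · have h2 := h0 i
      rw [h1] at h2
      have h3 : (-om i : Fin n → ℤ) i = -1 := by simp [om]
      rw [h3] at h2
      omega
  have h1 := GD.Cor.refl a i ha
  have h2 : (a - dot a (S.rtw i) • om i) k = a k := by
    simp [om, hk]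
  have h3 : (a - dot a (S.rtw i) • om i) i = a i - dot a (S.rtw i) := by
    simp [om]
  rcases (hS.sgn _ h1).2 with h | h
  · have := h i
    rw [h3] at this
    omega
  · have := h k
    rw [h2] at this
    have := h0 k
    omega

theorem X_apply {S : GD n} {D : RDat (Option (Fin n)) (Option (Fin n))} {i : Fin n}
    (X : S.XW D i) (f : GR (Option (Fin n))) : X.X f = D.demL (some i :: X.w) f := rfl

theorem main : RDat.N_desc → RDat.N_demw → RDat.N_op → RDat.N_adj → GD.G_hd → GD.G_X := by
  intro hdesc hdemw _ hadj _ n S hS D hD hOK i X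
  obtain ⟨hd1, hd2, hd3, hd4, hd5, hd6, hd7, hd8, hd9, hd10, hd11⟩ := hdesc _ _ D
  obtain ⟨ha1, ha2, ha3, ha4⟩ := hadj _ _ D (fun _ => 0) (fun y j => by simp)
  have hT : ∀ x, x ∈ D.T ↔ 1 ≤ x none := by
    intro x
    rw [hD.T]
    rfl
  have key : ∀ y ∈ D.T, (∀ b, D.ev b (S.xi i) < 0 → D.ev b (S.tr i y) ≤ 0) →
      ∀ m, X.X (D.Dem y m) = D.Dem (S.tr i y) m := by
    intro y hy hb m
    rw [X_apply]
    have h1 := hdemw _ _ D hOK (some i :: X.w) (S.tr i y) m
      (by rw [hT] at hy ⊢; exact hy) (hd1 (some i :: X.w) (S.xi i) (S.tr i y) X.desc hb)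
    rw [h1, X.eq]
  -- the coroots negative on xi
  have hneg : ∀ b, D.ev b (S.xi i) < 0 → ∃ (a : Fin n → ℤ) (m : ℤ), S.Cor a ∧ S.tt a ∣ m ∧
      0 ≤ m ∧ m < S.t i * a i ∧ (∀ j, 0 ≤ a j) ∧ ∀ x, D.ev b x = dot a (fp x) + m * x none := by
    intro b hb
    obtain ⟨a, m, hP, hev, -⟩ := hD.ev b
    have h1 := xi_pair S i a m b hev
    rw [h1] at hb
    have hm : 0 ≤ m := by
      rcases hP.2.2 with h | h
      · omega
      · omega
    refine ⟨a, m, hP.1, hP.2.1, hm, by omega, ?_, hev⟩
    rcases (hS.sgn a hP.1).2 with h | h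
    · exact h
    · exfalso
      have h2 := h i
      have h3 := hS.t_pos i
      nlinarith
  refine ⟨?_, ?_, ?_, ?_⟩
  · intro phi f hphi
    rw [X_apply, X_apply]
    exact ha3 _ _ _ fun j _ => hphi.1 j
  · intro m
    have hy : aw 1 (0 : Fin n → ℤ) ∈ D.T := by
      rw [hT]
      exact le_refl (1 : ℤ)
    have htr : S.tr i (aw 1 (0 : Fin n → ℤ)) = S.xi i := by
      funext o
      cases o with
      | none => rfl
      | some j =>
        have h1 : S.tr i (aw 1 (0 : Fin n → ℤ)) (some j) = 0 - (1 * S.t i) * om i j := rfl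
        have h2 : S.xi i (some j) = - (S.t i * om i j) := rfl
        rw [h1, h2]
        ring
    have hdom : D.Dom (aw 1 (0 : Fin n → ℤ)) := by
      intro j
      rw [hD.co]
      cases j with
      | none =>
        change 0 ≤ (1 : ℤ) - dot S.th (0 : Fin n → ℤ)
        simp [dot]
      | some j => exact le_refl (0 : ℤ)
    have h3 := key _ hy (by rw [htr]; exact fun b hb => hb.le) m
    rw [htr, hOK.d3 _ hy m hdom] at h3
    have h4 : (m : ℤ) • aw 1 (0 : Fin n → ℤ) = aw (m : ℤ) 0 := by
      funext o
      cases o with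
      | none =>
        have h1 : ((m : ℤ) • aw 1 (0 : Fin n → ℤ)) none = (m : ℤ) * 1 := rfl
        rw [h1, mul_one]
        rfl
      | some j =>
        have h1 : ((m : ℤ) • aw 1 (0 : Fin n → ℤ)) (some j) = (m : ℤ) * 0 := rfl
        rw [h1, mul_zero]
        rfl
    rw [h4] at h3
    exact h3
  · intro la hla m
    have hy : aw 1 (fun j => -(la j * S.t j)) ∈ D.T := by
      rw [hT]
      exact le_refl (1 : ℤ)
    have htr : S.tr i (aw 1 (fun j => -(la j * S.t j))) =
        aw 1 (fun j => -(la j * S.t j) - S.t i * om i j) := by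
      funext o
      cases o with
      | none => rfl
      | some j =>
        have h1 : S.tr i (aw 1 (fun j => -(la j * S.t j))) (some j) =
            -(la j * S.t j) - (1 * S.t i) * om i j := rfl
        have h2 : aw 1 (fun j => -(la j * S.t j) - S.t i * om i j) (some j) =
            -(la j * S.t j) - S.t i * om i j := rfl
        rw [h1, h2]
        ring
    have h3 := key _ hy (by
      intro b hb
      obtain ⟨a, q, ha, hdv, hq0, hq1, ha0, hev⟩ := hneg b hb
      rw [htr, hev]
      have h1 : fp (aw 1 (fun j => -(la j * S.t j) - S.t i * om i j)) =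
          fun j => -(la j * S.t j) - S.t i * om i j := rfl
      have h2 : (aw 1 (fun j => -(la j * S.t j) - S.t i * om i j)) none = 1 := rfl
      rw [h1, h2]
      have h4 : dot a (fun j => -(la j * S.t j) - S.t i * om i j) =
          - (∑ j, a j * (la j * S.t j)) - S.t i * a i := by
        have h5 := dot_neg_om a (S.t i) i
        unfold dot at h5 ⊢
        rw [← Finset.sum_neg_distrib]
        have h6 : ∑ j, a j * (-(la j * S.t j) - S.t i * om i j) =
            ∑ j, (-(a j * (la j * S.t j))) + ∑ j, a j * (-(S.t i • om i)) j := by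
          rw [← Finset.sum_add_distrib]
          refine Finset.sum_congr rfl fun j _ => ?_
          simp only [Pi.neg_apply, Pi.smul_apply, smul_eq_mul]
          ring
        rw [h6, h5]
        ring
      have h7 : 0 ≤ ∑ j, a j * (la j * S.t j) := Finset.sum_nonneg fun j _ =>
        mul_nonneg (ha0 j) (mul_nonneg (hla j) (by have := hS.t_pos j; omega))
      rw [h4]
      omega) m
    rw [htr] at h3
    exact h3
  · intro m
    have hco : D.co (some i) (S.xi i) = -S.t i := by
      rw [hD.co]
      change -(S.t i * om i i) = - S.t i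
      simp [om]
    have hs : ∀ o, D.s (some i) (S.xi i) o = S.xi i o + S.t i * aw 0 (S.rtw i) o := by
      intro o
      unfold RDat.s
      rw [hco, hD.al]
      have h1 : S.al (some i) = aw 0 (S.rtw i) := rfl
      rw [h1]
      simp
    have hy : D.s (some i) (S.xi i) ∈ D.T := by
      rw [hT, s_none hD]
      exact le_refl (1 : ℤ)
    have htr : S.tr i (D.s (some i) (S.xi i)) =
        aw 1 (fun j => -(S.t i * (2 * om i j - S.C j i))) := by
      funext o
      cases o with
      | none =>
        have h1 : S.tr i (D.s (some i) (S.xi i)) none = D.s (some i) (S.xi i) none := rfl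
        rw [h1, s_none hD]
        rfl
      | some j =>
        have h1 : S.tr i (D.s (some i) (S.xi i)) (some j) =
            D.s (some i) (S.xi i) (some j) - (D.s (some i) (S.xi i) none * S.t i) * om i j := rfl
        have h2 : aw 1 (fun j => -(S.t i * (2 * om i j - S.C j i))) (some j) =
            -(S.t i * (2 * om i j - S.C j i)) := rfl
        have h3 : S.xi i (some j) = - (S.t i * om i j) := rfl
        have h4 : aw 0 (S.rtw i) (some j) = S.C j i := rfl
        have h5 : (S.xi i) none = 1 := rfl
        rw [h1, h2, s_none hD, hs, h3, h4, h5]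
        ring
    have h3 := key _ hy (by
      intro b hb
      obtain ⟨a, q, ha, hdv, hq0, hq1, ha0, hev⟩ := hneg b hb
      rw [htr, hev]
      have h1 : fp (aw 1 (fun j => -(S.t i * (2 * om i j - S.C j i)))) =
          fun j => -(S.t i * (2 * om i j - S.C j i)) := rfl
      have h2 : (aw 1 (fun j => -(S.t i * (2 * om i j - S.C j i)))) none = 1 := rfl
      rw [h1, h2]
      have h4 : dot a (fun j => -(S.t i * (2 * om i j - S.C j i))) =
          - (2 * (S.t i * a i)) + S.t i * dot a (S.rtw i) := by
        have h5 := dot_neg_om a (S.t i) i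
        unfold dot at h5 ⊢
        have h6 : ∑ j, a j * -(S.t i * (2 * om i j - S.C j i)) =
            2 * ∑ j, a j * (-(S.t i • om i)) j + S.t i * ∑ j, a j * S.rtw i j := by
          rw [Finset.mul_sum, Finset.mul_sum, ← Finset.sum_add_distrib]
          refine Finset.sum_congr rfl fun j _ => ?_
          have h7 : S.rtw i j = S.C j i := rfl
          rw [h7]
          simp only [Pi.neg_apply, Pi.smul_apply, smul_eq_mul]
          ring
        rw [h6, h5]
        ring
      rw [h4]
      have ht := hS.t_pos i
      by_cases hai : a = om i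
      · have h8 : a i = 1 := by rw [hai]; simp [om]
        have h9 : dot a (S.rtw i) = 2 := by
          rw [hai, ← hS.diag i]
          unfold dot om GD.rtw
          simp
        rw [hai, (hS.om i).1] at hdv
        rw [h8] at hq1 ⊢
        rw [h9]
        have h10 : q = 0 := by
          obtain ⟨c, hc⟩ := hdv
          have h11 : c < 1 := by
            by_contra h
            push Not at h
            nlinarith
          have h12 : 0 ≤ c := by
            by_contra h
            push Not at h
            nlinarith
          have h13 : c = 0 := by omega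
          rw [hc, h13, mul_zero]
        rw [h10]
        omega
      · have h8 := pos_le hS ha ha0 i hai
        nlinarith) m
    rw [htr] at h3
    exact h3

end H391.KR.P_gX
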