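import Pool.Agent.H391.KR.GC

noncomputable section

namespace H391.KR.P_gcov

open Finset

theorem dot_smul_left {n : ℕ} (t : ℤ) (a mu : Fin n → ℤ) : dot (t • a) mu = t * dot a mu := by
  unfold dot
  rw [Finset.mul_sum]
  exact Finset.sum_congr rfl fun i _ => by simp only [Pi.smul_apply, smul_eq_mul]; ring

theorem dot_sub_left {n : ℕ} (a b mu : Fin n → ℤ) : dot (a - b) mu = dot a mu - dot b mu := by
  unfold dot
  rw [← Finset.sum_sub_distrib]
  exact Finset.sum_congr rfl fun i _ => by simp only [Pi.sub_apply]; ring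

theorem dot_smul_right {n : ℕ} (t : ℤ) (a mu : Fin n → ℤ) : dot a (t • mu) = t * dot a mu := by
  unfold dot
  rw [Finset.mul_sum]
  exact Finset.sum_congr rfl fun i _ => by simp only [Pi.smul_apply, smul_eq_mul]; ring

theorem dot_sub_right {n : ℕ} (a mu nu : Fin n → ℤ) : dot a (mu - nu) = dot a mu - dot a nu := by
  unfold dot
  rw [← Finset.sum_sub_distrib]
  exact Finset.sum_congr rfl fun i _ => by simp only [Pi.sub_apply]; ring

theorem dot_neg_right {n : ℕ} (a mu : Fin n → ℤ) : dot a (-mu) = - dot a mu := by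
  unfold dot
  rw [← Finset.sum_neg_distrib]
  exact Finset.sum_congr rfl fun i _ => by simp only [Pi.neg_apply]; ring

theorem dot_om {n : ℕ} (a : Fin n → ℤ) (j : Fin n) : dot a (om j) = a j := by
  unfold dot om
  simp

theorem dot_comm {n : ℕ} (a mu : Fin n → ℤ) : dot a mu = dot mu a := by
  unfold dot
  exact Finset.sum_congr rfl fun i _ => mul_comm _ _

theorem om_dot {n : ℕ} (a : Fin n → ℤ) (j : Fin n) : dot (om j) a = a j := by
  rw [dot_comm, dot_om]

theorem dot_nonneg {n : ℕ} {a mu : Fin n → ℤ} (ha : ∀ i, 0 ≤ a i) (hm : ∀ i, 0 ≤ mu i) :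
    0 ≤ dot a mu := Finset.sum_nonneg fun i _ => mul_nonneg (ha i) (hm i)

section

variable {n : ℕ} {S : GD n} (hS : S.OK)

include hS in
/-- a positive coroot other than `om j` has another positive coefficient -/
theorem other {a : Fin n → ℤ} (ha : S.Cor a) (hp : ∀ i, 0 ≤ a i) {j : Fin n} (hj : a ≠ om j) :
    ∃ k, k ≠ j ∧ 0 < a k := by
  by_contra hcon
  push Not at hcon
  have h0 : ∀ k, k ≠ j → a k = 0 := fun k hk => le_antisymm (hcon k hk) (hp k)
  rcases hS.prop a ha j h0 with h | h
  · exact hj h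
  · have h1 := hp j
    rw [h] at h1
    simp [om] at h1

include hS in
theorem rtw_self (j : Fin n) : S.rtw j j = 2 := hS.diag j

include hS in
theorem pair_om {a : Fin n → ℤ} (ha : S.Cor a) (j : Fin n) :
    S.t j * dot a (S.rtw j) = S.tt a * S.rt a j := by
  have h1 := (hS.pairs a (om j) ha (GD.Cor.simple j)).1
  rw [(hS.om j).1, (hS.om j).2, om_dot] at h1
  exact h1

include hS in
theorem sum_rt (P : Finset (Fin n → ℤ)) (hP : ∀ a, a ∈ P ↔ S.Cor a ∧ ∀ i, 0 ≤ a i)
    (j : Fin n) : ∑ a ∈ P, S.rt a j = 2 := by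
  classical
  have hom : om j ∈ P := by
    rw [hP]
    refine ⟨GD.Cor.simple j, fun i => ?_⟩
    unfold om; split_ifs <;> norm_num
  have h2 : S.rt (om j) j = 2 := by
    rw [(hS.om j).2]
    exact rtw_self hS j
  rw [← Finset.add_sum_erase P _ hom, h2]
  have hdd : ∀ a : Fin n → ℤ, dot (a - dot a (S.rtw j) • om j) (S.rtw j) = - dot a (S.rtw j) := by
    intro a
    rw [dot_sub_left, dot_smul_left, om_dot, rtw_self hS j]
    ring
  have h0 : ∑ a ∈ P.erase (om j), S.rt a j = 0 := by
    apply Finset.sum_involution (fun a _ => a - dot a (S.rtw j) • om j)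
    · intro a ha
      rw [Finset.mem_erase, hP] at ha
      have h3 := (hS.refl (om j) a (GD.Cor.simple j) ha.2.1).2.2
      rw [(hS.om j).2, om_dot] at h3
      rw [h3]
      simp only [Pi.sub_apply, Pi.smul_apply, smul_eq_mul]
      rw [rtw_self hS j]
      ring
    · intro a ha hne heq
      apply hne
      rw [Finset.mem_erase, hP] at ha
      have h3 : dot a (S.rtw j) • om j = 0 := sub_eq_self.1 heq
      have h4 : dot a (S.rtw j) = 0 := by
        have h5 := congrFun h3 j
        simpa [om] using h5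
      have h5 := pair_om hS ha.2.1 j
      rw [h4, mul_zero] at h5
      have h6 := hS.tt_pos a ha.2.1
      rcases mul_eq_zero.1 h5.symm with h7 | h7
      · omega
      · exact h7
    · intro a ha
      rw [Finset.mem_erase, hP] at ha ⊢
      obtain ⟨hne, hroot, hp⟩ := ha
      obtain ⟨k, hk, hak⟩ := other hS hroot hp hne
      have hr : S.Cor (a - dot a (S.rtw j) • om j) := GD.Cor.refl a j hroot
      have hkv : (a - dot a (S.rtw j) • om j) k = a k := by
        simp [om, hk]
      refine ⟨?_, hr, ?_⟩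
      · intro he
        have := congrFun he k
        rw [hkv] at this
        simp [om, hk] at this
        omega
      · rcases (hS.sgn _ hr).2 with h | h
        · exact h
        · exfalso
          have := h k
          rw [hkv] at this
          omega
    · intro a _
      rw [hdd]
      simp
  rw [h0, add_zero]

include hS in
theorem sum_dot (P : Finset (Fin n → ℤ)) (hP : ∀ a, a ∈ P ↔ S.Cor a ∧ ∀ i, 0 ≤ a i)
    (b : Fin n → ℤ) : ∑ a ∈ P, dot b (S.rt a) = 2 * ∑ j, b j := by
  unfold dot
  rw [Finset.sum_comm, Finset.mul_sum]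
  refine Finset.sum_congr rfl fun j _ => ?_
  rw [← Finset.mul_sum, sum_rt hS P hP j]
  ring

include hS in
/-- the length of a translation -/
theorem len_formula (P : Finset (Fin n → ℤ)) (hP : ∀ a, a ∈ P ↔ S.Cor a ∧ ∀ i, 0 ≤ a i)
    (D : RDat (Option (Fin n)) (Option (Fin n))) (hD : S.AffDat D) (nu : Fin n → ℤ)
    (hnu : ∀ i, 0 ≤ nu i) (hdv : ∀ a ∈ P, S.tt a ∣ dot a nu) :
    (D.len (aw 1 (-nu)) : ℤ) = ∑ a ∈ P, dot a nu / S.tt a := by
  classical
  have hex : ∀ p : (_ : Fin n → ℤ) × ℕ, ∃ b : D.R, S.APos p.1 (p.2 * S.tt p.1) →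
      ∀ x, D.ev b x = dot p.1 (fp x) + (p.2 * S.tt p.1) * x none := by
    intro p
    by_cases h : S.APos p.1 (p.2 * S.tt p.1)
    · obtain ⟨b, hb, _⟩ := hD.exi p.1 (p.2 * S.tt p.1) h
      exact ⟨b, fun _ => hb⟩
    · exact ⟨D.sim none, fun h' => absurd h' h⟩
  choose g hg using hex
  set T : Finset ((_ : Fin n → ℤ) × ℕ) :=
    P.sigma fun a => Finset.range (dot a nu / S.tt a).toNat with hT
  have hTpos : ∀ p ∈ T, S.APos p.1 (p.2 * S.tt p.1) := by
    intro p hp
    rw [hT, Finset.mem_sigma] at hp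
    obtain ⟨h1, h2⟩ := (hP _).1 hp.1
    have h3 := hS.tt_pos _ h1
    refine ⟨h1, dvd_mul_left _ _, ?_⟩
    rcases Nat.eq_zero_or_pos p.2 with h | h
    · right
      rw [h]
      exact ⟨by simp, h2⟩
    · left
      have h4 : (1 : ℤ) ≤ p.2 := by exact_mod_cast h
      nlinarith
  have hset : {b | D.ev b (aw 1 (-nu)) < 0} = g '' (T : Set ((_ : Fin n → ℤ) × ℕ)) := by
    ext b
    constructor
    · intro hb
      obtain ⟨a, m, hpos, hev, _⟩ := hD.ev b
      have hb' : D.ev b (aw 1 (-nu)) < 0 := hb
      rw [hev] at hb'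
      have e1 : fp (aw 1 (-nu)) = -nu := rfl
      have e2 : (aw 1 (-nu) : Option (Fin n) → ℤ) none = 1 := rfl
      rw [e1, e2, dot_neg_right, mul_one] at hb'
      have htt := hS.tt_pos a hpos.1
      have hm : 0 ≤ m := by
        rcases hpos.2.2 with h | h
        · omega
        · omega
      have ha : ∀ i, 0 ≤ a i := by
        rcases (hS.sgn a hpos.1).2 with h | h
        · exact h
        · exfalso
          have h3 : 0 ≤ dot (-nu) a := by
            have h5 : 0 ≤ dot nu (-a) := dot_nonneg hnu (fun i => by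
              have := h i
              simp only [Pi.neg_apply]; omega)
            rw [dot_neg_right] at h5
            rw [dot_comm, dot_neg_right, dot_comm]
            exact h5
          rw [dot_comm, dot_neg_right] at h3
          omega
      obtain ⟨r, hr⟩ := hpos.2.1
      have hr0 : 0 ≤ r := by
        by_contra h
        push Not at h
        nlinarith
      have haP : a ∈ P := (hP a).2 ⟨hpos.1, ha⟩
      obtain ⟨u, hu⟩ := hdv a haP
      have hdu : dot a nu / S.tt a = u := by
        rw [hu]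
        exact Int.mul_ediv_cancel_left u (by omega)
      have hru : r < u := by
        have h5 : S.tt a * r < S.tt a * u := by omega
        exact lt_of_mul_lt_mul_left h5 (by omega)
      have hmm : ((r.toNat : ℕ) : ℤ) = r := Int.toNat_of_nonneg hr0
      refine ⟨⟨a, r.toNat⟩, ?_, ?_⟩
      · rw [Finset.mem_coe, hT, Finset.mem_sigma, Finset.mem_range]
        refine ⟨haP, ?_⟩
        show r.toNat < (dot a nu / S.tt a).toNat
        rw [hdu]
        omega
      · apply D.inj
        intro x
        have hpos' : S.APos (⟨a, r.toNat⟩ : (_ : Fin n → ℤ) × ℕ).1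
            (((⟨a, r.toNat⟩ : (_ : Fin n → ℤ) × ℕ).2 : ℤ) *
              S.tt (⟨a, r.toNat⟩ : (_ : Fin n → ℤ) × ℕ).1) := by
          show S.APos a (((r.toNat : ℕ) : ℤ) * S.tt a)
          rw [hmm, mul_comm, ← hr]; exact hpos
        rw [hg _ hpos', hev]
        show dot a (fp x) + (((r.toNat : ℕ) : ℤ) * S.tt a) * x none = _
        rw [hmm, mul_comm r, ← hr]
    · rintro ⟨p, hp, rfl⟩
      have hp' := hp
      rw [Finset.mem_coe] at hp
      show D.ev (g p) (aw 1 (-nu)) < 0
      rw [hg p (hTpos p hp)]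
      have e1 : fp (aw 1 (-nu)) = -nu := rfl
      have e2 : (aw 1 (-nu) : Option (Fin n) → ℤ) none = 1 := rfl
      rw [e1, e2, dot_neg_right, mul_one]
      rw [hT, Finset.mem_sigma, Finset.mem_range] at hp
      obtain ⟨hp1, hp2⟩ := hp
      have htt := hS.tt_pos p.1 ((hP _).1 hp1).1
      obtain ⟨u, hu⟩ := hdv p.1 hp1
      have hdu : dot p.1 nu / S.tt p.1 = u := by
        rw [hu]
        exact Int.mul_ediv_cancel_left u (by omega)
      rw [hdu] at hp2
      have h5 : (p.2 : ℤ) < u := by omega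
      have h6 : (p.2 : ℤ) * S.tt p.1 < S.tt p.1 * u := by nlinarith
      omega
  have hinj : Set.InjOn g (T : Set ((_ : Fin n → ℤ) × ℕ)) := by
    intro p hp q hq hpq
    have h1 := hg p (hTpos p hp)
    have h2 := hg q (hTpos q hq)
    rw [hpq] at h1
    have h3 : ∀ x, dot p.1 (fp x) + (p.2 * S.tt p.1) * x none =
        dot q.1 (fp x) + (q.2 * S.tt q.1) * x none := fun x => by
      rw [← h1, ← h2]
    have h4 : p.1 = q.1 := by
      funext j
      have h5 := h3 (aw 0 (om j))
      have e1 : fp (aw 0 (om j)) = om j := rfl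
      have e2 : (aw 0 (om j) : Option (Fin n) → ℤ) none = 0 := rfl
      rw [e1, e2, dot_om, dot_om, mul_zero, mul_zero, add_zero, add_zero] at h5
      exact h5
    have htt := hS.tt_pos p.1 (hTpos p hp).1
    have h6 : (p.2 : ℤ) = q.2 := by
      have h5 := h3 (aw 1 0)
      have e1 : fp (aw 1 0 : Option (Fin n) → ℤ) = 0 := rfl
      have e2 : (aw 1 0 : Option (Fin n) → ℤ) none = 1 := rfl
      rw [e1, e2, mul_one, mul_one, ← h4] at h5
      have h6 : (p.2 : ℤ) * S.tt p.1 = q.2 * S.tt p.1 := by omega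
      exact mul_right_cancel₀ (by omega : S.tt p.1 ≠ 0) h6
    obtain ⟨p1, p2⟩ := p
    obtain ⟨q1, q2⟩ := q
    simp only at h4 h6
    have h7 : p2 = q2 := by exact_mod_cast h6
    rw [h4, h7]
  have hlen : D.len (aw 1 (-nu)) = T.card := by
    unfold RDat.len
    rw [hset, Set.InjOn.ncard_image hinj, Set.ncard_coe_finset]
  rw [hlen, hT, Finset.card_sigma]
  push_cast
  refine Finset.sum_congr rfl fun a ha => ?_
  rw [Finset.card_range]
  have htt := hS.tt_pos a ((hP a).1 ha).1
  exact Int.toNat_of_nonneg (Int.ediv_nonneg (dot_nonneg ((hP a).1 ha).2 hnu) (by omega))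

end

theorem common {n : ℕ} {S : GD n} (hS : S.OK) (hcov : RDat.S_cov)
    (D : RDat (Option (Fin n)) (Option (Fin n))) (hD : S.AffDat D) (i : Fin n) (N c : ℤ)
    (hN : 1 ≤ N) (hc1 : 1 ≤ c) (y : Option (Fin n) → ℤ) (hy : D.Step 1 0 (aw N (-(c • om i))) y)
    (hne : y ≠ D.s (some i) (aw N (-(c • om i)))) :
    ∃ (a : Fin n → ℤ) (m : ℤ), S.APos a m ∧ (∀ k, 0 ≤ a k) ∧ 0 ≤ m ∧ m * N < c * a i ∧
      y = aw N (-(c • om i) + (c * a i - m * N) • S.rt a) ∧ (∀ k, y (some k) ≤ 0) ∧
      y (some i) < 0 ∧ D.len y + 1 = D.len (aw N (-(c • om i))) := by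
  have hT : aw N (-(c • om i)) ∈ D.T := by
    rw [hD.T]; exact hN
  have hc := fun j => hcov _ _ D 1 0 (aw N (-(c • om i))) y hT hy j
  have hcof : ∀ (j : Fin n) x, D.co (some j) x = x (some j) := fun j x => by
    rw [hD.co]
    rfl
  obtain ⟨b, hb, hyb, hlen, _⟩ := hy
  obtain ⟨a, m, hpos, hev, hrt⟩ := hD.ev b
  have e1 : fp (aw N (-(c • om i))) = -(c • om i) := rfl
  have e2 : (aw N (-(c • om i)) : Option (Fin n) → ℤ) none = N := rfl
  have hval : D.ev b (aw N (-(c • om i))) = m * N - c * a i := by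
    rw [hev, e1, e2, dot_neg_right, dot_smul_right, dot_om]; ring
  rw [hval] at hb hyb
  have hm : 0 ≤ m := by
    rcases hpos.2.2 with h | h
    · omega
    · omega
  have hmN : 0 ≤ m * N := mul_nonneg hm (by omega)
  have hcai : 0 < c * a i := by omega
  have hai : 0 < a i := by
    by_contra h
    push Not at h
    nlinarith
  have ha : ∀ k, 0 ≤ a k := by
    rcases (hS.sgn a hpos.1).2 with h | h
    · exact h
    · exfalso
      have := h i
      omega
  have hy2 : y = aw N (-(c • om i) + (c * a i - m * N) • S.rt a) := by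
    rw [hyb, hrt]
    funext o
    rcases o with _ | k
    · simp [aw]
    · simp [aw]; ring
  have hxi : (aw N (-(c • om i)) : Option (Fin n) → ℤ) (some i) = -c := by simp [aw, om]
  have hk : ∀ k, y (some k) ≤ 0 := by
    intro k
    by_cases hki : k = i
    · subst hki
      rcases hc (some k) with h | h
      · exact absurd h.1 hne
      · have h1 := h.1
        rw [hcof, hcof, hxi] at h1
        have := h1 (by omega)
        omega
    · have h2 : (aw N (-(c • om i)) : Option (Fin n) → ℤ) (some k) = 0 := by simp [aw, om, hki]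
      rcases hc (some k) with h | h
      · exfalso
        have h1 := h.2.1
        rw [hcof, h2] at h1
        exact lt_irrefl _ h1
      · by_contra h3
        have h1 := h.2.1
        rw [hcof, hcof, h2] at h1
        exact lt_irrefl _ (h1 (by omega))
  have hi : y (some i) < 0 := by
    rcases hc (some i) with h | h
    · exact absurd h.1 hne
    · have h1 := h.1
      rw [hcof, hcof, hxi] at h1
      exact h1 (by omega)
  exact ⟨a, m, hpos, ha, hm, by omega, hy2, hk, hi, hlen⟩

theorem main : RDat.S_cov → GD.G_cov := by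
  intro hcov n S hS D hD i
  constructor
  · intro y hy
    by_contra hne
    have hxi : S.xi i = aw 1 (-(S.t i • om i)) := rfl
    rw [hxi] at hy hne
    have hti := hS.t_pos i
    obtain ⟨a, m, hroot, ha, hm, hmN, hy2, hk, hi, hlen⟩ :=
      common hS hcov D hD i 1 (S.t i) le_rfl hti y hy hne
    classical
    set P : Finset (Fin n → ℤ) := hS.fin.toFinset.filter (fun a => ∀ i, 0 ≤ a i) with hPd
    have hP : ∀ a, a ∈ P ↔ S.Cor a ∧ ∀ i, 0 ≤ a i := by
      intro a
      rw [hPd, Finset.mem_filter, Set.Finite.mem_toFinset]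
      rfl
    have htt := hS.tt_pos a hroot.1
    rw [mul_one] at hmN hy2
    obtain ⟨e', he'⟩ : S.tt a ∣ S.t i * a i - m := dvd_sub (hS.tdvd a hroot.1 i) hroot.2.1
    have he1 : 1 ≤ e' := by
      by_contra h
      push Not at h
      nlinarith
    rw [he'] at hy2
    set nu : Fin n → ℤ := S.t i • om i - (S.tt a * e') • S.rt a with hnu
    have hy3 : y = aw 1 (-nu) := by
      rw [hy2, hnu]; congr 1; abel
    have hdx : ∀ b ∈ P, S.tt b ∣ dot b (S.t i • om i) := by
      intro b hb
      rw [dot_smul_right, dot_om]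
      exact hS.tdvd b ((hP b).1 hb).1 i
    have hpr : ∀ b ∈ P, (S.tt a * e') * dot b (S.rt a) = S.tt b * (e' * dot a (S.rt b)) := by
      intro b hb
      have := (hS.pairs b a ((hP b).1 hb).1 hroot.1).1
      linear_combination e' * this
    have hdy : ∀ b ∈ P, S.tt b ∣ dot b nu := by
      intro b hb
      rw [hnu, dot_sub_right, dot_smul_right _ b (S.rt a), hpr b hb]
      exact dvd_sub (hdx b hb) (dvd_mul_right _ _)
    have h1 := len_formula hS P hP D hD (S.t i • om i) (fun k => by
      simp only [Pi.smul_apply, smul_eq_mul]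
      unfold om
      split_ifs
      · omega
      · omega) hdx
    have h2 := len_formula hS P hP D hD nu (fun k => by
      have h3 := hk k
      rw [hy3] at h3
      have h4 : (aw 1 (-nu) : Option (Fin n) → ℤ) (some k) = - nu k := rfl
      rw [h4] at h3
      omega) hdy
    rw [← hy3] at h2
    have h5 : ∑ b ∈ P, dot b nu / S.tt b =
        ∑ b ∈ P, dot b (S.t i • om i) / S.tt b - e' * (2 * ∑ j, a j) := by
      rw [← sum_dot hS P hP a, Finset.mul_sum, ← Finset.sum_sub_distrib]
      refine Finset.sum_congr rfl fun b hb => ?_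
      have h6 := hS.tt_pos b ((hP b).1 hb).1
      rw [hnu, dot_sub_right, dot_smul_right _ b (S.rt a), hpr b hb,
        Int.sub_ediv_of_dvd _ (dvd_mul_right _ _), Int.mul_ediv_cancel_left _ (by omega)]
    rw [h5, ← h1] at h2
    have hai : 0 < a i := by
      by_contra h
      push Not at h
      nlinarith
    have h6 : a i ≤ ∑ j, a j := Finset.single_le_sum (fun j _ => ha j) (Finset.mem_univ i)
    have h8 : 1 ≤ ∑ j, a j := by omega
    have h9 : (D.len y : ℤ) + 1 = D.len (aw 1 (-(S.t i • om i))) := by exact_mod_cast hlen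
    nlinarith
  · refine ⟨1 + ∑ a ∈ hS.fin.toFinset, |a i|, ?_⟩
    intro N hN y hy
    by_contra hne
    have hbd : ∀ a, S.Cor a → a i < N := by
      intro a ha
      have h1 : |a i| ≤ ∑ a ∈ hS.fin.toFinset, |a i| :=
        Finset.single_le_sum (f := fun a : Fin n → ℤ => |a i|) (fun j _ => abs_nonneg _)
          (hS.fin.mem_toFinset.2 ha)
      have h2 := le_abs_self (a i)
      omega
    have hN1 : 1 ≤ N := by
      have : 0 ≤ ∑ a ∈ hS.fin.toFinset, |a i| := Finset.sum_nonneg fun _ _ => abs_nonneg _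
      omega
    have e1 : (aw N (-om i) : Option (Fin n) → ℤ) = aw N (-((1 : ℤ) • om i)) := by rw [one_smul]
    rw [e1] at hy hne
    obtain ⟨a, m, hroot, ha, hm, hmN, hy2, hk, hi, hlen⟩ :=
      common hS hcov D hD i N 1 hN1 le_rfl y hy hne
    rw [one_mul] at hmN
    have h1 := hbd a hroot.1
    have hm0 : m = 0 := by
      by_contra h
      have : 1 ≤ m := by omega
      nlinarith
    subst hm0
    rw [zero_mul] at hmN
    have h2 : dot a (fp y) = a i := by
      rw [hy2]
      show dot a (-((1 : ℤ) • om i) + (1 * a i - 0 * N) • S.rt a) = a i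
      have h3 : -((1 : ℤ) • om i) + (1 * a i - 0 * N) • S.rt a = (a i • S.rt a) - om i := by
        rw [zero_mul, sub_zero, one_mul, one_smul]; abel
      rw [h3, dot_sub_right, dot_smul_right, dot_om, hS.two a hroot.1]
      ring
    have h3 : 0 ≤ dot a (-(fp y)) := dot_nonneg ha (fun k => by
      have := hk k
      show 0 ≤ -(y (some k))
      omega)
    rw [dot_neg_right, h2] at h3
    omega

end H391.KR.P_gcov
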