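import Pool.Agent.H391.KR.GC

set_option autoImplicit false

noncomputable section

namespace H391.KR.P_gdat

open Finset H391.KR

/-! ### Linearity -/

section lin

variable {n : ℕ}

theorem dot_add_left (a b mu : Fin n → ℤ) : dot (a + b) mu = dot a mu + dot b mu := by
  unfold dot
  rw [← Finset.sum_add_distrib]
  exact Finset.sum_congr rfl fun i _ => by rw [Pi.add_apply]; ring

theorem dot_sub_left (a b mu : Fin n → ℤ) : dot (a - b) mu = dot a mu - dot b mu := by
  unfold dot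
  rw [← Finset.sum_sub_distrib]
  exact Finset.sum_congr rfl fun i _ => by rw [Pi.sub_apply]; ring

theorem dot_smul_left (c : ℤ) (a mu : Fin n → ℤ) : dot (c • a) mu = c * dot a mu := by
  unfold dot
  rw [Finset.mul_sum]
  exact Finset.sum_congr rfl fun i _ => by rw [Pi.smul_apply, smul_eq_mul]; ring

theorem dot_neg_left (a mu : Fin n → ℤ) : dot (-a) mu = - dot a mu := by
  unfold dot
  rw [← Finset.sum_neg_distrib]
  exact Finset.sum_congr rfl fun i _ => by rw [Pi.neg_apply]; ring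

theorem dot_comm (a mu : Fin n → ℤ) : dot a mu = dot mu a := by
  unfold dot
  exact Finset.sum_congr rfl fun i _ => mul_comm _ _

theorem dot_add_right (a b mu : Fin n → ℤ) : dot mu (a + b) = dot mu a + dot mu b := by
  rw [dot_comm, dot_add_left, dot_comm a, dot_comm b]

theorem dot_sub_right (a b mu : Fin n → ℤ) : dot mu (a - b) = dot mu a - dot mu b := by
  rw [dot_comm, dot_sub_left, dot_comm a, dot_comm b]

theorem dot_smul_right (c : ℤ) (a mu : Fin n → ℤ) : dot mu (c • a) = c * dot mu a := by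
  rw [dot_comm, dot_smul_left, dot_comm a]

theorem dot_neg_right (a mu : Fin n → ℤ) : dot mu (-a) = - dot mu a := by
  rw [dot_comm, dot_neg_left, dot_comm a]

theorem dot_om (a : Fin n → ℤ) (i : Fin n) : dot a (om i) = a i := by
  unfold dot om
  rw [Finset.sum_eq_single i]
  · rw [if_pos rfl, mul_one]
  · intro j _ hj
    rw [if_neg hj, mul_zero]
  · intro h
    exact absurd (Finset.mem_univ i) h

end lin

/-! ### The datum -/

section

variable {n : ℕ} (S : GD n)

/-- the value of a coroot -/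
def evF (a : Fin n → ℤ) (m : ℤ) : (Option (Fin n) → ℤ) →+ ℤ where
  toFun x := dot a (fp x) + m * x none
  map_zero' := by
    have h : fp (0 : Option (Fin n) → ℤ) = (0 : ℤ) • (0 : Fin n → ℤ) := by
      rw [zero_smul]
      rfl
    rw [h, dot_smul_right, Pi.zero_apply]
    ring
  map_add' x y := by
    have h : fp (x + y) = fp x + fp y := rfl
    rw [h, dot_add_right, Pi.add_apply]
    ring

theorem evF_apply (a : Fin n → ℤ) (m : ℤ) (x : Option (Fin n) → ℤ) :
    evF a m x = dot a (fp x) + m * x none := rfl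

theorem evF_refl (a a0 : Fin n → ℤ) (m m0 : ℤ) (x : Option (Fin n) → ℤ) :
    evF a m (x - evF a0 m0 x • aw 0 (S.rt a0)) =
      evF (a - dot a (S.rt a0) • a0) (m - dot a (S.rt a0) * m0) x := by
  rw [evF_apply a m, evF_apply (a - dot a (S.rt a0) • a0)]
  have h1 : fp (x - evF a0 m0 x • aw 0 (S.rt a0)) = fp x - evF a0 m0 x • S.rt a0 := rfl
  have h2 : (x - evF a0 m0 x • aw 0 (S.rt a0)) none = x none - evF a0 m0 x * 0 := rfl
  rw [h1, h2, dot_sub_right, dot_smul_right, dot_sub_left, dot_smul_left, evF_apply]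
  ring

theorem evF_neg (a : Fin n → ℤ) (m : ℤ) (x : Option (Fin n) → ℤ) :
    evF (-a) (-m) x = - evF a m x := by
  rw [evF_apply, evF_apply, dot_neg_left]
  ring

theorem evF_root (a b : Fin n → ℤ) (m : ℤ) : evF a m (aw 0 b) = dot a b := by
  rw [evF_apply]
  show dot a b + m * 0 = _
  rw [mul_zero, add_zero]

theorem evF_inj {a a' : Fin n → ℤ} {m m' : ℤ} (h : ∀ x, evF a m x = evF a' m' x) :
    a = a' ∧ m = m' := by
  constructor
  · funext i
    have h1 := h (aw 0 (om i))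
    rw [evF_root, evF_root, dot_om, dot_om] at h1
    exact h1
  · have h1 := h (aw 1 ((0 : ℤ) • (0 : Fin n → ℤ)))
    rw [evF_apply, evF_apply] at h1
    have h2 : fp (aw 1 ((0 : ℤ) • (0 : Fin n → ℤ)) : Option (Fin n) → ℤ) =
      (0 : ℤ) • (0 : Fin n → ℤ) := rfl
    have h3 : (aw 1 ((0 : ℤ) • (0 : Fin n → ℤ)) : Option (Fin n) → ℤ) none = 1 := rfl
    rw [h2, h3, dot_smul_right, dot_smul_right] at h1
    linarith

variable {S}

theorem neg_facts (ok : S.OK) {a : Fin n → ℤ} (h : S.Cor a) :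
    S.Cor (-a) ∧ S.tt (-a) = S.tt a ∧ S.rt (-a) = - S.rt a := by
  have h1 := ok.refl a a h h
  rw [ok.two a h] at h1
  have e : a - (2 : ℤ) • a = -a := by
    funext i
    simp only [Pi.sub_apply, Pi.smul_apply, Pi.neg_apply, smul_eq_mul]
    ring
  have e2 : S.rt a - (2 : ℤ) • S.rt a = - S.rt a := by
    funext i
    simp only [Pi.sub_apply, Pi.smul_apply, Pi.neg_apply, smul_eq_mul]
    ring
  rw [e, e2] at h1
  exact h1

theorem not_pos_neg (ok : S.OK) {a : Fin n → ℤ} {m : ℤ} (h : S.APos a m) : ¬ S.APos (-a) (-m) := by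
  intro h'
  obtain ⟨r, -, h1 | ⟨h1, h2⟩⟩ := h
  · rcases h'.2.2 with h3 | ⟨h3, -⟩ <;> linarith
  · rcases h'.2.2 with h3 | ⟨-, h3⟩
    · linarith
    · apply (ok.sgn a r).1
      funext i
      have h4 := h3 i
      rw [Pi.neg_apply] at h4
      have h5 := h2 i
      show a i = 0
      linarith

theorem m_nonneg {a : Fin n → ℤ} {m : ℤ} (h : S.APos a m) : 0 ≤ m := by
  rcases h.2.2 with h1 | ⟨h1, -⟩ <;> linarith

/-- the reflected coroot is different from the reflecting one -/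
theorem refl_ne (ok : S.OK) {a a0 : Fin n → ℤ} {m m0 : ℤ} (h : S.APos a m) (h0 : S.APos a0 m0) :
    ¬ (a - dot a (S.rt a0) • a0 = a0 ∧ m - dot a (S.rt a0) * m0 = m0) := by
  rintro ⟨h1, h2⟩
  have h3 : dot (a - dot a (S.rt a0) • a0) (S.rt a0) = dot a0 (S.rt a0) := by rw [h1]
  have h4 : dot a0 (S.rt a0) = 2 := ok.two a0 h0.1
  rw [dot_sub_left, dot_smul_left, h4] at h3
  have h5 : dot a (S.rt a0) = -2 := by linarith
  rw [h5] at h1 h2
  have h6 : a = - a0 := by
    have : a = a0 + (-2 : ℤ) • a0 := by rw [← sub_eq_iff_eq_add.1 h1]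
    rw [this]
    funext i
    simp only [Pi.add_apply, Pi.smul_apply, Pi.neg_apply, smul_eq_mul]
    ring
  have h7 : m = - m0 := by linarith
  rw [h6, h7] at h
  exact not_pos_neg ok h0 h

theorem refl_cor (ok : S.OK) {a a0 : Fin n → ℤ} (h : S.Cor a) (h0 : S.Cor a0) :
    S.Cor (a - dot a (S.rt a0) • a0) ∧ S.tt (a - dot a (S.rt a0) • a0) = S.tt a ∧
      S.rt (a - dot a (S.rt a0) • a0) = S.rt a - dot a0 (S.rt a) • S.rt a0 :=
  ok.refl a0 a h0 h

/-- the simple reflections -/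
theorem perm_some (ok : S.OK) {a : Fin n → ℤ} {m : ℤ} (h : S.APos a m) (i : Fin n)
    (hne : ¬ (a = om i ∧ m = 0)) :
    S.APos (a - dot a (S.rt (om i)) • om i) (m - dot a (S.rt (om i)) * 0) := by
  obtain ⟨r1, r2, -⟩ := refl_cor ok h.1 (GD.Cor.simple i : S.Cor (om i))
  refine ⟨r1, ?_, ?_⟩
  · rw [r2, mul_zero, sub_zero]
    exact h.2.1
  rw [mul_zero, sub_zero]
  rcases h.2.2 with h1 | ⟨h1, h2⟩
  · exact Or.inl h1
  · refine Or.inr ⟨h1, ?_⟩
    rcases (ok.sgn _ r1).2 with h3 | h3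
    · exact h3
    · exfalso
      have h4 : ∀ k, k ≠ i → a k = 0 := by
        intro k hk
        have h5 := h3 k
        rw [Pi.sub_apply, Pi.smul_apply] at h5
        unfold om at h5
        rw [if_neg hk, smul_zero, sub_zero] at h5
        exact le_antisymm h5 (h2 k)
      rcases ok.prop a h.1 i h4 with h6 | h6
      · exact hne ⟨h6, h1⟩
      · have h7 := h2 i
        rw [h6, Pi.neg_apply] at h7
        have h8 : om i i = 1 := by
          unfold om
          rw [if_pos rfl]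
        rw [h8] at h7
        linarith

theorem dom_nonneg (ok : S.OK) {a : Fin n → ℤ} (h : ∀ i, 0 ≤ a i) : 0 ≤ dot a (S.rt S.th) := by
  unfold dot
  exact Finset.sum_nonneg fun i _ => mul_nonneg (h i) (ok.th_dom i)

theorem pos_th (ok : S.OK) : S.APos (-S.th) 1 := by
  obtain ⟨h1, h2, -⟩ := neg_facts ok ok.th_cor.1
  refine ⟨h1, ?_, Or.inl le_rfl⟩
  rw [h2, ok.th_cor.2]

theorem perm_none (ok : S.OK) {a : Fin n → ℤ} {m : ℤ} (h : S.APos a m)
    (hne : ¬ (a = - S.th ∧ m = 1)) :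
    S.APos (a - dot a (S.rt (-S.th)) • (-S.th)) (m - dot a (S.rt (-S.th)) * 1) := by
  obtain ⟨n1, n2, n3⟩ := neg_facts ok ok.th_cor.1
  obtain ⟨r1, r2, -⟩ := refl_cor ok h.1 n1
  refine ⟨r1, ?_⟩
  rw [r2]
  have hm := m_nonneg h
  have htt := ok.tt_pos a h.1
  have ec : dot a (S.rt (-S.th)) = - dot a (S.rt S.th) := by rw [n3, dot_neg_right]
  rw [ec]
  have e1 : a - (- dot a (S.rt S.th)) • (-S.th) = a - dot a (S.rt S.th) • S.th := by
    rw [neg_smul_neg]
  rw [e1]
  obtain ⟨e, he⟩ : ∃ e, e = dot a (S.rt S.th) := ⟨_, rfl⟩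
  rw [← he]
  have e2 : m - -e * 1 = m + e := by ring
  rw [e2]
  by_cases ha1 : a = S.th
  · have h2 : e = 2 := by rw [he, ha1]; exact ok.two _ ok.th_cor.1
    refine ⟨?_, Or.inl (by linarith)⟩
    rw [ha1, ok.th_cor.2]
    exact one_dvd _
  by_cases ha2 : a = -S.th
  · have h2 : e = -2 := by
      rw [he, ha2, dot_neg_left, ok.two _ ok.th_cor.1]
    refine ⟨?_, ?_⟩
    · rw [ha2, n2, ok.th_cor.2]
      exact one_dvd _
    have hm1 : 1 ≤ m := by
      rcases h.2.2 with h3 | ⟨-, h3⟩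
      · exact h3
      · exfalso
        apply (ok.sgn a h.1).1
        funext i
        have h4 := h3 i
        rw [ha2, Pi.neg_apply] at h4
        have h5 := ok.th_pos i
        linarith
    have hm2 : m ≠ 1 := fun h3 => hne ⟨ha2, h3⟩
    rcases eq_or_ne m 2 with h3 | h3
    · refine Or.inr ⟨by rw [h3, h2]; norm_num, fun i => ?_⟩
      rw [h2, ha2]
      simp only [Pi.sub_apply, Pi.smul_apply, Pi.neg_apply, smul_eq_mul]
      have h5 := ok.th_pos i
      linarith
    · left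
      omega
  obtain ⟨p1, p2⟩ := ok.th_pair a h.1 ha1 ha2
  rw [← he] at p1 p2
  refine ⟨dvd_add h.2.1 p1, ?_⟩
  rcases h.2.2 with h3 | ⟨h3, h4⟩
  · have h5 : S.tt a ≤ m := Int.le_of_dvd (by linarith) h.2.1
    have h6 := neg_le_of_abs_le p2
    rcases lt_or_eq_of_le (show 0 ≤ m + e by linarith) with h7 | h7
    · left
      omega
    · right
      refine ⟨h7.symm, fun i => ?_⟩
      have h8 : e = - S.tt a := by linarith
      obtain ⟨c1, c2, -⟩ := neg_facts ok h.1
      have h9 := ok.bnd (-a) c1 i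
      rw [c2, Pi.neg_apply] at h9
      rw [h8]
      simp only [Pi.sub_apply, Pi.smul_apply, smul_eq_mul]
      linarith
  · have h5 := dom_nonneg ok h4
    rw [← he] at h5
    rcases lt_or_eq_of_le h5 with h6 | h6
    · left
      omega
    · right
      refine ⟨by rw [h3, ← h6]; norm_num, fun i => ?_⟩
      rw [← h6, zero_smul, sub_zero]
      exact h4 i

theorem dich_aux (ok : S.OK) {a a' : Fin n → ℤ} {m m' : ℤ} (h : S.APos a m)
    (h' : S.APos a' m') :
    S.APos (a' - dot a' (S.rt a) • a) (m' - dot a' (S.rt a) * m) ∨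
      (0 < dot a' (S.rt a) ∧ S.APos (-(a' - dot a' (S.rt a) • a)) (-(m' - dot a' (S.rt a) * m))) := by
  obtain ⟨r1, r2, -⟩ := refl_cor ok h'.1 h.1
  have hd : S.tt a' ∣ m' - dot a' (S.rt a) * m := by
    refine dvd_sub h'.2.1 ?_
    obtain ⟨q, hq⟩ := h.2.1
    have h1 := (ok.pairs a' a h'.1 h.1).1
    refine ⟨dot a (S.rt a') * q, ?_⟩
    rw [hq]
    linear_combination q * h1
  by_cases hp : S.APos (a' - dot a' (S.rt a) • a) (m' - dot a' (S.rt a) * m)
  · exact Or.inl hp
  right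
  have hm := m_nonneg h
  have hm' := m_nonneg h'
  have hd2 : S.tt (a' - dot a' (S.rt a) • a) ∣ m' - dot a' (S.rt a) * m := by rw [r2]; exact hd
  have hnot1 : ¬ 1 ≤ m' - dot a' (S.rt a) * m := fun h1 => hp ⟨r1, hd2, Or.inl h1⟩
  have hnot2 : ¬ (m' - dot a' (S.rt a) * m = 0 ∧ ∀ i, 0 ≤ (a' - dot a' (S.rt a) • a) i) :=
    fun h1 => hp ⟨r1, hd2, Or.inr h1⟩
  constructor
  · by_contra hb
    push Not at hb
    have h1 : dot a' (S.rt a) * m ≤ 0 := mul_nonpos_of_nonpos_of_nonneg hb hm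
    have h2 : m' = 0 := by omega
    have h3 : dot a' (S.rt a) * m = 0 := by omega
    apply hnot2
    refine ⟨by rw [h2, h3]; norm_num, fun i => ?_⟩
    have h4 : ∀ i, 0 ≤ a' i := by
      rcases h'.2.2 with h5 | ⟨-, h5⟩
      · omega
      · exact h5
    rw [Pi.sub_apply, Pi.smul_apply, smul_eq_mul]
    rcases mul_eq_zero.1 h3 with h5 | h5
    · rw [h5, zero_mul, sub_zero]
      exact h4 i
    · have h6 : ∀ i, 0 ≤ a i := by
        rcases h.2.2 with h7 | ⟨-, h7⟩
        · omega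
        · exact h7
      have := mul_nonpos_of_nonpos_of_nonneg hb (h6 i)
      linarith [h4 i]
  · obtain ⟨c1, c2, -⟩ := neg_facts ok r1
    refine ⟨c1, ?_, ?_⟩
    · rw [c2]
      exact (dvd_neg).2 hd2
    rcases lt_or_eq_of_le (show m' - dot a' (S.rt a) * m ≤ 0 by omega) with h1 | h1
    · left
      omega
    · right
      refine ⟨by rw [h1]; norm_num, fun i => ?_⟩
      rcases (ok.sgn _ r1).2 with h2 | h2
      · exact absurd ⟨h1, h2⟩ hnot2
      · rw [Pi.neg_apply]
        linarith [h2 i]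

theorem pos_om (i : Fin n) : S.APos (om i) 0 := by
  refine ⟨GD.Cor.simple i, dvd_zero _, Or.inr ⟨rfl, fun k => ?_⟩⟩
  unfold om
  split_ifs <;> norm_num

/-- the coroots -/
def simP (ok : S.OK) : Option (Fin n) → {p : (Fin n → ℤ) × ℤ // S.APos p.1 p.2}
  | none => ⟨(-S.th, 1), pos_th ok⟩
  | some i => ⟨(om i, 0), pos_om i⟩

theorem perm_aux (ok : S.OK) (j : Option (Fin n))
    (b : {p : (Fin n → ℤ) × ℤ // S.APos p.1 p.2}) (hb : b ≠ simP ok j) :
    S.APos (b.1.1 - dot b.1.1 (S.rt (simP ok j).1.1) • (simP ok j).1.1)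
      (b.1.2 - dot b.1.1 (S.rt (simP ok j).1.1) * (simP ok j).1.2) := by
  cases j with
  | none =>
    exact perm_none ok b.2 fun h => hb (Subtype.ext (Prod.ext h.1 h.2))
  | some i =>
    exact perm_some ok b.2 i fun h => hb (Subtype.ext (Prod.ext h.1 h.2))

/-- the reflection datum -/
def datum (ok : S.OK) : RDat (Option (Fin n)) (Option (Fin n)) where
  R := {p : (Fin n → ℤ) × ℤ // S.APos p.1 p.2}
  ev b := evF b.1.1 b.1.2
  rt b := aw 0 (S.rt b.1.1)
  sim := simP ok
  ev_rt b := by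
    rw [evF_root]
    exact ok.two _ b.2.1
  inj b c h := by
    obtain ⟨h1, h2⟩ := evF_inj h
    exact Subtype.ext (Prod.ext h1 h2)
  pos b c h := by
    have h1 : ∀ x, evF b.1.1 b.1.2 x = evF (-c.1.1) (-c.1.2) x := fun x => by
      rw [evF_neg]
      exact h x
    obtain ⟨h2, h3⟩ := evF_inj h1
    have h4 := b.2
    rw [h2, h3] at h4
    exact not_pos_neg ok c.2 h4
  perm j b hb := by
    refine ⟨⟨(b.1.1 - dot b.1.1 (S.rt (simP ok j).1.1) • (simP ok j).1.1,
      b.1.2 - dot b.1.1 (S.rt (simP ok j).1.1) * (simP ok j).1.2), perm_aux ok j b hb⟩, ?_, ?_, ?_⟩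
    · intro h
      have h1 := congrArg Subtype.val h
      exact refl_ne ok b.2 (simP ok j).2 ⟨congrArg Prod.fst h1, congrArg Prod.snd h1⟩
    · intro x
      exact (evF_refl S _ _ _ _ x).symm
    · show aw 0 (S.rt (b.1.1 - dot b.1.1 (S.rt (simP ok j).1.1) • (simP ok j).1.1)) =
        aw 0 (S.rt b.1.1) - evF (simP ok j).1.1 (simP ok j).1.2 (aw 0 (S.rt b.1.1)) •
          aw 0 (S.rt (simP ok j).1.1)
      rw [evF_root, (refl_cor ok b.2.1 (simP ok j).2.1).2.2]
      funext o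
      cases o with
      | none =>
        show (0 : ℤ) = 0 - dot (simP ok j).1.1 (S.rt b.1.1) * 0
        ring
      | some i => rfl
  dich b c := by
    rcases dich_aux ok b.2 c.2 with h | ⟨h0, h⟩
    · exact Or.inl ⟨⟨(_, _), h⟩, fun x => (evF_refl S _ _ _ _ x).symm⟩
    · refine Or.inr ⟨?_, ⟨⟨(_, _), h⟩, fun x => ?_⟩⟩
      · show 0 < evF c.1.1 c.1.2 (aw 0 (S.rt b.1.1))
        rw [evF_root]
        exact h0
      · show evF _ _ x = _
        rw [evF_neg, ← evF_refl S]
  T := {x | 1 ≤ x none}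
  T_refl x hx b := by
    show 1 ≤ x none - evF b.1.1 b.1.2 x * 0
    rw [mul_zero, sub_zero]
    exact hx
  fin x hx := by
    have hfin : (⋃ a ∈ {a | S.Cor a}, ({a} : Set (Fin n → ℤ)) ×ˢ Set.Icc (0 : ℤ) (-dot a (fp x))).Finite :=
      Set.Finite.biUnion ok.fin fun a _ =>
        (Set.finite_singleton a).prod (Set.finite_Icc _ _)
    refine Set.Finite.subset (hfin.preimage (Subtype.val_injective.injOn)) fun b hb => ?_
    have hb' : dot b.1.1 (fp x) + b.1.2 * x none < 0 := hb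
    have hx' : 1 ≤ x none := hx
    have hm := m_nonneg b.2
    rw [Set.mem_preimage, Set.mem_iUnion₂]
    refine ⟨b.1.1, b.2.1, Set.mk_mem_prod rfl ⟨hm, ?_⟩⟩
    nlinarith

end

theorem main : GD.G_dat := by
  intro n S ok
  refine ⟨datum ok, ?_⟩
  refine ⟨?_, ?_, ?_, ?_, rfl⟩
  · intro b
    exact ⟨b.1.1, b.1.2, b.2, fun x => rfl, rfl⟩
  · intro a m h
    exact ⟨⟨(a, m), h⟩, fun x => rfl, rfl⟩
  · intro j x
    cases j with
    | none =>
      show dot (-S.th) (fp x) + 1 * x none = x none - dot S.th (fp x)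
      rw [dot_neg_left]
      ring
    | some j =>
      show dot (om j) (fp x) + 0 * x none = x (some j)
      rw [dot_comm, dot_om, zero_mul, add_zero]
      rfl
  · intro j
    cases j with
    | none =>
      show aw 0 (S.rt (-S.th)) = aw 0 (-(S.rt S.th))
      rw [(neg_facts ok ok.th_cor.1).2.2]
    | some j =>
      show aw 0 (S.rt (om j)) = aw 0 (S.rtw j)
      rw [(ok.om j).2]

end H391.KR.P_gdat
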