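import Pool.Agent.H391.KR.GC

/-!
# G_dem9 (H391/KR)
-/

noncomputable section

namespace H391.KR.P_gdem9

open Finset H391.KR H391.KR.RDat

variable {ι I : Type}

theorem good_mono (D : RDat ι I) {M : ℕ} {x y : ι → ℤ} (h : D.Good M x) (hy : D.Le y x) :
    D.Good M y :=
  ⟨h.1, fun z hz j hj => h.2 z (Relation.ReflTransGen.trans hy hz) j hj⟩

theorem len_dom (D : RDat ι I) {rho : ι → ℤ} (hD : D.HD rho) {x : ι → ℤ} (hx : D.Dom x) :
    D.len x = 0 := by
  have : {b | D.ev b x < 0} = ∅ := by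
    ext b
    simp only [Set.mem_ofPred_eq, Set.mem_empty_iff_false, iff_false, not_lt]
    exact hD.dom x hx b
  unfold RDat.len
  rw [this, Set.ncard_empty]

theorem dom_of_not (D : RDat ι I) {x : ι → ℤ} (h : ¬ ∃ j, D.co j x < 0) : D.Dom x := by
  intro j
  by_contra hj
  exact h ⟨j, not_le.mp hj⟩

theorem le_s (D : RDat ι I) (hbru : S_bru) {x : ι → ℤ} (hx : x ∈ D.T) {j : I}
    (hj : D.co j x < 0) : D.Le (D.s j x) x :=
  (hbru ι I D x x hx Relation.ReflTransGen.refl j).2.2 hj

theorem indep (hlen : S_len) (hbru : S_bru) (h1 : S_main1) (h3 : S_main3) (D : RDat ι I)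
    {rho : ι → ℤ} (hD : D.HD rho) : ∀ n x, x ∈ D.T → D.len x = n → ∀ m M M', D.Good M x →
    D.Good M' x → D.ch M (m * M) x = D.ch M' (m * M') x := by
  intro n
  induction n using Nat.strong_induction_on with
  | _ n ih =>
    intro x hx hn m M M' hM hM'
    by_cases hj : ∃ j, D.co j x < 0
    · obtain ⟨j, hj⟩ := hj
      have hl := (hlen ι I D x hx j).1 hj
      have hT := (hlen ι I D x hx j).2.2.2.1
      have hle := le_s D hbru hx hj
      rw [← (h1 ι I D M m x j hx hM).1 hj, ← (h1 ι I D M' m x j hx hM').1 hj]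
      rw [ih (D.len (D.s j x)) (by omega) (D.s j x) hT rfl m M M' (good_mono D hM hle)
        (good_mono D hM' hle)]
    · have h0 := len_dom D hD (dom_of_not D hj)
      rw [h3 ι I D M m x hx hM.1 h0, h3 ι I D M' m x hx hM'.1 h0]

theorem Dem_eq (hlen : S_len) (hbru : S_bru) (h1 : S_main1) (h3 : S_main3) (D : RDat ι I)
    {rho : ι → ℤ} (hD : D.HD rho) {x : ι → ℤ} (hx : x ∈ D.T) {M : ℕ} (hM : D.Good M x) (m : ℕ) :
    D.Dem x m = D.ch M (m * M) x := by
  have h : ∃ M, D.Good M x := ⟨M, hM⟩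
  unfold RDat.Dem
  rw [dif_pos h]
  exact indep hlen hbru h1 h3 D hD (D.len x) x hx rfl m _ M h.choose_spec hM

theorem ex_mul (x y : ι → ℤ) : (ex x * ex y : GR ι) = ex (x + y) := by
  unfold ex
  rw [AddMonoidAlgebra.single_mul_single, one_mul]

theorem pair_ex (p : (ι → ℤ) → ℤ) (x : ι → ℤ) : pair p (ex x) = p x := by
  unfold pair ex
  simp

theorem single_sum {α : Type} (S : Finset α) (w : α → ι → ℤ) (p : (ι → ℤ) → ℤ) :
    (∑ a ∈ S, Finsupp.single (w a) 1 : (ι → ℤ) →₀ ℕ).sum (fun nu a => (a : ℤ) * p nu) =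
      ∑ a ∈ S, p (w a) := by
  classical
  induction S using Finset.induction_on with
  | empty => simp
  | insert a S ha ih =>
    rw [Finset.sum_insert ha, Finset.sum_insert ha, Finsupp.sum_add_index', ih,
      Finsupp.sum_single_index]
    · simp
    · simp
    · intro nu; simp
    · intro nu b1 b2; push_cast; ring

theorem paths_zero (D : RDat ι I) (M : ℕ) (x : ι → ℤ) : D.Paths M 0 x = {0} := by
  ext τ
  unfold RDat.Paths RDat.Tails
  simp only [Set.mem_ofPred_eq, Set.mem_singleton_iff]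
  constructor
  · rintro ⟨-, -, h⟩
    funext l
    exact h l (Or.inr (Nat.zero_le _))
  · rintro rfl
    exact ⟨fun h => absurd h (lt_irrefl _), fun l _ h => absurd h (Nat.not_lt_zero _),
      fun l _ => rfl⟩

/-- antisymmetric functions form a group -/
def antiG (D : RDat ι I) : AddSubgroup ((ι → ℤ) → ℤ) where
  carrier := {p | D.Anti p}
  zero_mem' := fun y j => by simp
  add_mem' := fun {a b} ha hb y j => by
    have h1 := ha y j
    have h2 := hb y j
    simp only [Pi.add_apply] at *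
    rw [h1, h2]
    ring
  neg_mem' := fun {a} ha y j => by
    have h1 := ha y j
    simp only [Pi.neg_apply] at *
    rw [h1]

/-- evaluation at a weight -/
def evH (D : RDat ι I) (x : ι → ℤ) : antiG D →+ ℤ where
  toFun := fun p => p.1 x
  map_zero' := rfl
  map_add' := fun _ _ => rfl

open scoped Pointwise in
/-- one of finitely many additive functionals which together vanish everywhere is zero -/
theorem cover {G α : Type} [AddCommGroup G] (S : Finset α) (φ : α → G →+ ℤ)
    (h : ∀ g, ∃ a ∈ S, φ a g = 0) : ∃ a ∈ S, ∀ g, φ a g = 0 := by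
  classical
  have hc : ⋃ a ∈ S, (0 : G) +ᵥ (((φ a).ker : AddSubgroup G) : Set G) = Set.univ := by
    apply Set.eq_univ_of_forall
    intro g
    obtain ⟨a, ha, hg⟩ := h g
    refine Set.mem_iUnion₂.mpr ⟨a, ha, ?_⟩
    rw [zero_vadd]
    exact (AddMonoidHom.mem_ker).mpr hg
  obtain ⟨a, ha, hfin⟩ := AddSubgroup.exists_finiteIndex_of_leftCoset_cover
    (g := fun _ : α => (0 : G)) (H := fun a => (φ a).ker) hc
  refine ⟨a, ha, fun g => ?_⟩
  have hn : (φ a).ker.index ≠ 0 := hfin.index_ne_zero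
  have hmem : (φ a).ker.index • g ∈ (φ a).ker := AddSubgroup.nsmul_index_mem _ g
  rw [AddMonoidHom.mem_ker, map_nsmul, nsmul_eq_mul] at hmem
  rcases mul_eq_zero.mp hmem with h0 | h0
  · exact absurd (by exact_mod_cast h0) hn
  · exact h0

theorem main : RDat.S_len → RDat.S_fin → RDat.S_good → RDat.S_bru →
    RDat.S_main1 → RDat.S_main3 → GD.G_main5 → GD.G_dem9 := by
  classical
  intro hlen hfin hgood hbru h1 h3 hG ι I _ D rho hD x hx m lam i hi hcov hlam
  obtain ⟨M, hM⟩ := hgood ι I D x hx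
  have hT := (hlen ι I D x hx i).2.2.2.1
  have hMs := good_mono D hM (le_s D hbru hx hi)
  have hE1 := Dem_eq hlen hbru h1 h3 D hD hx hM m
  have hE2 := Dem_eq hlen hbru h1 h3 D hD hT hMs m
  rcases Nat.eq_zero_or_pos m with hm | hm
  · subst hm
    refine ⟨0, fun nu h => absurd rfl h, fun p _ => ?_⟩
    rw [hE1, hE2]
    unfold RDat.ch
    rw [Nat.zero_mul, paths_zero, paths_zero, sub_self, mul_zero, map_zero,
      Finsupp.sum_zero_index]
  · set w : (ℕ → ι → ℤ) → ι → ℤ := fun τ => lam + wt M (m * M) τ with hw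
    have hf : (D.Paths M (m * M) x).Finite := (hfin ι I D x hx).2 M 0 (m * M)
    have hf' : (D.Paths M (m * M) (D.s i x)).Finite := (hfin ι I D _ hT).2 M 0 (m * M)
    have hsub : D.Paths M (m * M) (D.s i x) ⊆ D.Paths M (m * M) x :=
      (hG ι I D M m x lam i hx hM hi hcov hm hlam 0 (fun y j => by simp)).1
    have hfd : (D.Paths M (m * M) x \ D.Paths M (m * M) (D.s i x)).Finite :=
      hf.subset Set.sdiff_subset
    -- the functional of a set of paths
    let φ : Finset (ℕ → ι → ℤ) → (antiG D →+ ℤ) := fun A =>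
      (∑ τ ∈ hfd.toFinset, evH D (w τ)) - ∑ τ ∈ A, evH D (w τ)
    have hφ : ∀ A (p : antiG D), φ A p = ∑ τ ∈ hfd.toFinset, p.1 (w τ) - ∑ τ ∈ A, p.1 (w τ) := by
      intro A p
      simp only [φ, AddMonoidHom.sub_apply, AddMonoidHom.finsetSum_apply]
      rfl
    obtain ⟨A, hA, hAp⟩ := cover
      ((hf.toFinset.powerset).filter fun A => ∀ τ ∈ A, D.Dom (w τ)) φ (by
        intro p
        obtain ⟨-, A, hA1, hA2, hA3⟩ := hG ι I D M m x lam i hx hM hi hcov hm hlam p.1 p.2
        have hfA : A.Finite := hf.subset hA1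
        refine ⟨hfA.toFinset, ?_, ?_⟩
        · rw [Finset.mem_filter, Finset.mem_powerset]
          refine ⟨?_, ?_⟩
          · intro τ hτ
            rw [Set.Finite.mem_toFinset] at hτ ⊢
            exact hA1 hτ
          · intro τ hτ
            rw [Set.Finite.mem_toFinset] at hτ
            exact hA2 τ hτ
        · rw [hφ, ← finsum_mem_eq_finite_toFinset_sum _ hfd,
            ← finsum_mem_eq_finite_toFinset_sum _ hfA, sub_eq_zero]
          exact hA3)
    rw [Finset.mem_filter] at hA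
    refine ⟨∑ τ ∈ A, Finsupp.single (w τ) 1, ?_, ?_⟩
    · intro nu hnu
      rw [Finsupp.finsetSum_apply] at hnu
      obtain ⟨τ, hτ, hc⟩ := Finset.exists_ne_zero_of_sum_ne_zero hnu
      have hnu' : nu = w τ := by
        by_contra hne
        apply hc
        rw [Finsupp.single_apply, if_neg (fun h => hne h.symm)]
      rw [hnu']
      exact hA.2 τ hτ
    · intro p hp
      rw [single_sum]
      have hz := hAp ⟨p, hp⟩
      rw [hφ, sub_eq_zero] at hz
      rw [← hz, hE1, hE2]
      unfold RDat.ch chS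
      rw [finsum_mem_eq_finite_toFinset_sum _ hf, finsum_mem_eq_finite_toFinset_sum _ hf']
      have hss : hf'.toFinset ⊆ hf.toFinset := by
        intro τ hτ
        rw [Set.Finite.mem_toFinset] at hτ ⊢
        exact hsub hτ
      have hdd : hfd.toFinset = hf.toFinset \ hf'.toFinset := by
        ext τ
        simp
      rw [hdd, ← Finset.sum_sdiff hss, add_sub_cancel_right, Finset.mul_sum, map_sum]
      exact Finset.sum_congr rfl fun τ _ => by rw [ex_mul, pair_ex]

end H391.KR.P_gdem9
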