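import Pool.Agent.H391.KR.GC

/-!
# KR-gmain5: restriction rule for the paths with the first direction `x`
-/

set_option autoImplicit false

noncomputable section

namespace H391.KR.P_gmain5

open Finset H391.KR

variable {ι I : Type} (D : RDat ι I)

theorem co_add (j : I) (x y : ι → ℤ) : D.co j (x + y) = D.co j x + D.co j y := map_add _ _ _

theorem co_zero (j : I) : D.co j 0 = 0 := map_zero _

theorem co_smul (j : I) (n : ℤ) (x : ι → ℤ) : D.co j (n • x) = n * D.co j x := by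
  unfold RDat.co
  rw [map_zsmul, smul_eq_mul]

theorem co_tot (j : I) (L : ℕ) (τ : ℕ → ι → ℤ) : D.co j (tot L τ) = D.H j τ L := by
  have h : tot L τ = ∑ l ∈ range L, τ l := by
    funext i
    unfold tot
    rw [Finset.sum_apply]
  rw [h]
  unfold RDat.co RDat.H
  rw [map_sum]
  rfl

theorem H_congr {j : I} {τ σ : ℕ → ι → ℤ} {l : ℕ} (h : ∀ i, i < l → τ i = σ i) :
    D.H j τ l = D.H j σ l :=
  Finset.sum_congr rfl (fun i hi => by rw [h i (mem_range.1 hi)])

/-- some height is too small -/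
def Bd (M a0 : ℕ) (lam : ι → ℤ) (τ : ℕ → ι → ℤ) (l : ℕ) : Prop :=
  a0 ≤ l ∧ ∃ j, (M : ℤ) * D.co j lam + D.H j τ l ≤ -(M : ℤ)

/-- the heights from `a0` on are nonnegative -/
def DF (M a0 L : ℕ) (lam : ι → ℤ) (τ : ℕ → ι → ℤ) : Prop :=
  ∀ l, a0 ≤ l → l ≤ L → ∀ j, 0 ≤ (M : ℤ) * D.co j lam + D.H j τ l

/-- the paths whose first `a0` steps are `x` -/
def P0 (M a0 L : ℕ) (x : ι → ℤ) : Set (ℕ → ι → ℤ) :=
  {τ | τ ∈ D.Paths M L x ∧ ∀ l, l < a0 → τ l = x}

theorem H_a0 {M a0 L : ℕ} {x : ι → ℤ} {τ : ℕ → ι → ℤ} (hτ : τ ∈ P0 D M a0 L x) (j : I) :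
    D.H j τ a0 = a0 * D.co j x := by
  unfold RDat.H
  rw [Finset.sum_congr rfl (fun l hl => by rw [hτ.2 l (mem_range.1 hl)])]
  rw [Finset.sum_const, card_range, nsmul_eq_mul]

theorem Bd_congr {M a0 : ℕ} {lam : ι → ℤ} {τ σ : ℕ → ι → ℤ} {l : ℕ}
    (h : ∀ i, i < l → τ i = σ i) : Bd D M a0 lam τ l ↔ Bd D M a0 lam σ l := by
  unfold Bd
  refine and_congr_right (fun _ => exists_congr (fun j => ?_))
  rw [H_congr D h]

/-- the beginning -/
def trunc (n : ℕ) (τ : ℕ → ι → ℤ) : ℕ → ι → ℤ := fun l => if l < n then τ l else 0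

/-- the end -/
def tl (n : ℕ) (τ : ℕ → ι → ℤ) : ℕ → ι → ℤ := fun l => if l < n then 0 else τ l

/-- gluing -/
def gl (n : ℕ) (τ t : ℕ → ι → ℤ) : ℕ → ι → ℤ := fun l => if l < n then τ l else t l

/-- the first bad position -/
def ls (M a0 : ℕ) (lam : ι → ℤ) (τ : ℕ → ι → ℤ) : ℕ := sInf {l | Bd D M a0 lam τ l}

/-- the key of a path -/
def key (M a0 : ℕ) (lam : ι → ℤ) (τ : ℕ → ι → ℤ) : ℕ × (ℕ → ι → ℤ) :=
  (ls D M a0 lam τ, trunc (ls D M a0 lam τ) τ)

theorem ls_spec {M a0 : ℕ} {lam : ι → ℤ} {τ : ℕ → ι → ℤ} {l : ℕ} (h : Bd D M a0 lam τ l) :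
    Bd D M a0 lam τ (ls D M a0 lam τ) ∧ ls D M a0 lam τ ≤ l ∧
      ∀ i, i < ls D M a0 lam τ → ¬ Bd D M a0 lam τ i := by
  refine ⟨Nat.sInf_mem (s := {l | Bd D M a0 lam τ l}) ⟨l, h⟩, Nat.sInf_le h, fun i hi hb => ?_⟩
  have : ls D M a0 lam τ ≤ i := Nat.sInf_le hb
  omega

theorem ls_eq {M a0 : ℕ} {lam : ι → ℤ} {τ : ℕ → ι → ℤ} {n : ℕ} (h : Bd D M a0 lam τ n)
    (h' : ∀ i, i < n → ¬ Bd D M a0 lam τ i) : ls D M a0 lam τ = n := by
  obtain ⟨h1, h2, h3⟩ := ls_spec D h
  by_contra hne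
  exact h' _ (by omega) h1

theorem ctx0 {M L : ℕ} {x : ι → ℤ} (hx : x ∈ D.T) (hg : D.Good M x) (hL : M ∣ L) (j : I) :
    D.Ctx0 M 0 L x j := by
  refine ⟨hx, hg, hL, Nat.zero_le _, ?_⟩
  rw [Nat.cast_zero, zero_mul]
  exact dvd_zero _

theorem exists_bd (hint : RDat.S_int) {M a0 L : ℕ} {x lam : ι → ℤ} (hx : x ∈ D.T)
    (hg : D.Good M x) (hL : M ∣ L) (h0 : ∀ j, 0 ≤ (M : ℤ) * D.co j lam + a0 * D.co j x)
    {τ : ℕ → ι → ℤ} (hτ : τ ∈ P0 D M a0 L x)
    (hd : ¬ DF D M a0 L lam τ) : ∃ l, l ≤ L ∧ Bd D M a0 lam τ l := by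
  classical
  unfold DF at hd
  push Not at hd
  obtain ⟨l, hla, hl, j, hj⟩ := hd
  obtain ⟨l2, hl2, hmin⟩ := Finset.exists_min_image (Icc a0 L) (fun l => D.H j τ l)
    ⟨l, mem_Icc.2 ⟨hla, hl⟩⟩
  rw [mem_Icc] at hl2
  set Q : ℤ := D.H j τ l2 with hQ
  have hex : ∃ l, a0 ≤ l ∧ l ≤ L ∧ D.H j τ l = Q := ⟨l2, hl2.1, hl2.2, rfl⟩
  obtain ⟨f1, f2, f3⟩ := Nat.find_spec hex
  have f4 : ∀ i, i < Nat.find hex → ¬ (a0 ≤ i ∧ i ≤ L ∧ D.H j τ i = Q) :=
    fun i hi => Nat.find_min hex hi
  set l0 := Nat.find hex with hl0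
  have hM : (0 : ℤ) < M := by exact_mod_cast hg.1
  have hQl : Q ≤ D.H j τ l := hmin l (mem_Icc.2 ⟨hla, hl⟩)
  have hQneg : (M : ℤ) * D.co j lam + Q < 0 := by linarith
  have hgt : a0 < l0 := by
    rcases Nat.lt_or_ge a0 l0 with h | h
    · exact h
    · exfalso
      have h1 : l0 = a0 := by omega
      rw [h1, H_a0 D hτ j] at f3
      have := h0 j
      linarith
  have hI := hint ι I D M 0 L x j (ctx0 D hx hg hL j) τ hτ.1
  obtain ⟨-, -, -, hIL, -, hIm, -, -, -⟩ := hI
  have hs : ∀ i, D.H j τ (i + 1) = D.H j τ i + D.co j (τ i) := by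
    intro i
    unfold RDat.H
    rw [Finset.sum_range_succ]
  have hdvd : (M : ℤ) ∣ Q := by
    rcases Nat.lt_or_ge l0 L with h | h
    · have h1 : D.co j (τ (l0 - 1)) < 0 := by
        have h2 := hs (l0 - 1)
        rw [show l0 - 1 + 1 = l0 by omega, f3] at h2
        have h3 : Q ≤ D.H j τ (l0 - 1) := hmin _ (mem_Icc.2 ⟨by omega, by omega⟩)
        have h4 : D.H j τ (l0 - 1) ≠ Q := fun h5 =>
          f4 (l0 - 1) (by omega) ⟨by omega, by omega, h5⟩
        have h5 : Q < D.H j τ (l0 - 1) := lt_of_le_of_ne h3 (Ne.symm h4)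
        linarith
      have h2 : 0 ≤ D.co j (τ l0) := by
        have h3 := hs l0
        have h4 : Q ≤ D.H j τ (l0 + 1) := hmin _ (mem_Icc.2 ⟨by omega, by omega⟩)
        linarith
      have h3 := hIm l0 (by omega) h h1 h2
      rwa [f3] at h3
    · have h1 : l0 = L := by omega
      rw [← f3, h1]
      exact hIL
  obtain ⟨c, hc⟩ := hdvd
  refine ⟨l0, f2, hgt.le, j, ?_⟩
  rw [f3, hc]
  have h2 : (M : ℤ) * (D.co j lam + c) < 0 := by
    rw [mul_add, ← hc]
    linarith
  have h3 : D.co j lam + c < 0 := by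
    by_contra h
    push Not at h
    have := mul_nonneg hM.le h
    linarith
  nlinarith

theorem tot_gl (L n : ℕ) (τ t : ℕ → ι → ℤ) (ht : ∀ l, l < n → t l = 0) :
    tot L (gl n τ t) = tot L (trunc n τ) + tot L t := by
  funext i
  simp only [tot, Pi.add_apply]
  rw [← Finset.sum_add_distrib]
  refine Finset.sum_congr rfl (fun l _ => ?_)
  unfold gl trunc
  split_ifs with h
  · rw [ht l h]
    simp
  · simp

theorem class_sum (hint : RDat.S_int) (hfin : RDat.S_fin) (hstr : RDat.S_str) (hinv : RDat.S_inv)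
    (hwt : RDat.S_wt) {M a0 L : ℕ} {x lam : ι → ℤ} (hx : x ∈ D.T)
    (hg : D.Good M x) (hL : M ∣ L) (h0 : ∀ j, 0 ≤ (M : ℤ) * D.co j lam + a0 * D.co j x)
    (p : (ι → ℤ) → ℤ)
    (hp : ∀ y j, p (y - (D.co j y + 1) • D.al j) = - p y)
    {τ : ℕ → ι → ℤ} (hτ0 : τ ∈ P0 D M a0 L x)
    (hd : ¬ DF D M a0 L lam τ) :
    ∑ᶠ a ∈ {a | (a ∈ P0 D M a0 L x ∧ ¬ DF D M a0 L lam a) ∧
        key D M a0 lam a = key D M a0 lam τ}, p (lam + wt M L a) = 0 := by
  have hM : (0 : ℤ) < M := by exact_mod_cast hg.1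
  have hτ : τ ∈ D.Paths M L x := hτ0.1
  obtain ⟨l1, hl1, hb1⟩ := exists_bd D hint hx hg hL h0 hτ0 hd
  obtain ⟨hbn, hnl, hmin⟩ := ls_spec D hb1
  set n := ls D M a0 lam τ with hn
  have hnL : n ≤ L := hnl.trans hl1
  obtain ⟨hna, j, hj⟩ := hbn
  have hna0 : a0 < n := by
    rcases Nat.lt_or_ge a0 n with h | h
    · exact h
    · exfalso
      have h1 : n = a0 := by omega
      rw [h1, H_a0 D hτ0 j] at hj
      have := h0 j
      linarith
  have hn0 : 0 < n := by omega
  have hI := hint ι I D M 0 L x j (ctx0 D hx hg hL j) τ hτ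
  obtain ⟨hA, hB, hC, -, -, -, -, hcross, -⟩ := hI
  have hHn : D.H j τ (n - 1 + 1) = D.H j τ (n - 1) + D.co j (τ (n - 1)) := by
    unfold RDat.H
    rw [Finset.sum_range_succ]
  have hn1 : n - 1 + 1 = n := by omega
  rw [hn1] at hHn
  have hprev : -(M : ℤ) < (M : ℤ) * D.co j lam + D.H j τ (n - 1) := by
    by_contra h
    push Not at h
    exact hmin (n - 1) (by omega) ⟨by omega, j, h⟩
  have hHeq : D.H j τ n = (-(D.co j lam) - 1) * M := by
    have h1 := (hcross (n - 1) (Nat.zero_le _) (by omega) (-(D.co j lam) - 1)).2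
    rw [hn1] at h1
    by_contra hne
    apply h1
    constructor
    · rcases lt_or_gt_of_ne hne with h | h
      · exact h
      · exfalso
        nlinarith
    · nlinarith
  have hκ : D.co j (τ (n - 1)) < 0 := by
    have : (-(D.co j lam) - 1) * (M : ℤ) = -(M : ℤ) - M * D.co j lam := by ring
    linarith
  obtain ⟨hκT, hκle, -⟩ := hA (n - 1) (Nat.zero_le _) (by omega)
  set κ := τ (n - 1) with hκdef
  have hctx : D.Ctx M n L κ j := by
    refine ⟨⟨hκT, ⟨hg.1, fun y hy i hi => ?_⟩, hL, hnL, ?_⟩, hκ.le⟩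
    · exact hg.2 y (Relation.ReflTransGen.trans hκle hy) i hi
    · have h1 := hC n hn0 hnL
      have h2 : (M : ℤ) ∣ D.H j τ n := by
        rw [hHeq]
        exact dvd_mul_left _ _
      have h3 := dvd_sub h2 h1
      rwa [sub_sub_cancel] at h3
  set TS := D.Tails M n L κ with hTS
  have hTSfin : TS.Finite := (hfin ι I D κ hκT).2 M n L
  -- membership of glued paths
  have hglmem : ∀ t ∈ TS, gl n τ t ∈ D.Paths M L x := by
    intro t ht
    obtain ⟨t1, t2, t3⟩ := ht
    obtain ⟨p1, p2, p3⟩ := hτ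
    refine ⟨?_, ?_, ?_⟩
    · intro h0L
      have : gl n τ t 0 = τ 0 := by
        unfold gl
        rw [if_pos hn0]
      rw [this]
      exact p1 h0L
    · intro l hl0 hlL
      rcases lt_trichotomy l n with h | h | h
      · have e1 : gl n τ t l = τ l := by
          unfold gl
          rw [if_pos h]
        have e2 : gl n τ t (l - 1) = τ (l - 1) := by
          unfold gl
          rw [if_pos (by omega)]
        rw [e1, e2]
        exact p2 l hl0 hlL
      · have e1 : gl n τ t l = t l := by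
          unfold gl
          rw [if_neg (by omega)]
        have e2 : gl n τ t (l - 1) = τ (l - 1) := by
          unfold gl
          rw [if_pos (by omega)]
        rw [e1, e2, h]
        exact t1 (by omega)
      · have e1 : gl n τ t l = t l := by
          unfold gl
          rw [if_neg (by omega)]
        have e2 : gl n τ t (l - 1) = t (l - 1) := by
          unfold gl
          rw [if_neg (by omega)]
        rw [e1, e2]
        exact t2 l h hlL
    · intro l hl
      have hl' : L ≤ l := by omega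
      have e1 : gl n τ t l = t l := by
        unfold gl
        rw [if_neg (by omega)]
      rw [e1]
      exact t3 l (Or.inr hl')
  have hglP0 : ∀ t ∈ TS, gl n τ t ∈ P0 D M a0 L x := by
    intro t ht
    refine ⟨hglmem t ht, fun l hl => ?_⟩
    unfold gl
    rw [if_pos (by omega)]
    exact hτ0.2 l hl
  have hglBd : ∀ t : ℕ → ι → ℤ, ∀ i, i ≤ n → (Bd D M a0 lam (gl n τ t) i ↔ Bd D M a0 lam τ i) := by
    intro t i hi
    apply Bd_congr
    intro l hl
    unfold gl
    rw [if_pos (by omega)]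
  have hgls : ∀ t : ℕ → ι → ℤ, ls D M a0 lam (gl n τ t) = n := by
    intro t
    apply ls_eq
    · exact (hglBd t n (le_refl _)).2 ⟨hna, j, hj⟩
    · intro i hi hb
      exact hmin i hi ((hglBd t i hi.le).1 hb)
  have hgltr : ∀ t : ℕ → ι → ℤ, trunc n (gl n τ t) = trunc n τ := by
    intro t
    funext l
    unfold trunc gl
    split_ifs <;> rfl
  -- the class is the image of the tails
  have hclass : {a | (a ∈ P0 D M a0 L x ∧ ¬ DF D M a0 L lam a) ∧
      key D M a0 lam a = key D M a0 lam τ} = (fun t => gl n τ t) '' TS := by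
    ext a
    constructor
    · rintro ⟨⟨ha, hda⟩, hkey⟩
      unfold key at hkey
      rw [Prod.mk.injEq] at hkey
      obtain ⟨k1, k2⟩ := hkey
      rw [k1, ← hn] at k2
      have hag : ∀ l, l < n → a l = τ l := by
        intro l hl
        have := congrFun k2 l
        unfold trunc at this
        rwa [if_pos hl, if_pos hl] at this
      obtain ⟨p1, p2, p3⟩ := ha.1
      refine ⟨tl n a, ⟨?_, ?_, ?_⟩, ?_⟩
      · intro hnL'
        have e1 : tl n a n = a n := by
          unfold tl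
          rw [if_neg (by omega)]
        rw [e1, hκdef, ← hag (n - 1) (by omega)]
        exact p2 n hn0 hnL'
      · intro l hl hlL
        have e1 : tl n a l = a l := by
          unfold tl
          rw [if_neg (by omega)]
        have e2 : tl n a (l - 1) = a (l - 1) := by
          unfold tl
          rw [if_neg (by omega)]
        rw [e1, e2]
        exact p2 l (by omega) hlL
      · intro l hl
        unfold tl
        split_ifs with h
        · rfl
        · exact p3 l (Or.inr (by omega))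
      · funext l
        show gl n τ (tl n a) l = a l
        unfold gl tl
        split_ifs with h
        · exact (hag l h).symm
        · rfl
    · rintro ⟨t, ht, rfl⟩
      refine ⟨⟨hglP0 t ht, ?_⟩, ?_⟩
      · intro hdom
        obtain ⟨-, i, hi⟩ := (hglBd t n (le_refl _)).2 ⟨hna, j, hj⟩
        have := hdom n hna hnL i
        linarith
      · unfold key
        show (ls D M a0 lam (gl n τ t), trunc (ls D M a0 lam (gl n τ t)) (gl n τ t)) = _
        rw [hgls t, hgltr t]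
  have hinj : Set.InjOn (fun t => gl n τ t) TS := by
    intro t ht t' ht' h
    funext l
    by_cases hl : l < n
    · rw [ht.2.2 l (Or.inl hl), ht'.2.2 l (Or.inl hl)]
    · have h1 : gl n τ t l = gl n τ t' l := congrFun h l
      unfold gl at h1
      rwa [if_neg hl, if_neg hl] at h1
  rw [hclass, finsum_mem_image hinj]
  -- the sum over the tails
  set g : (ι → ℤ) → ℤ := fun v => p (lam + fun i => (tot L (trunc n τ) i + v i) / (M : ℤ)) with hgdef
  have e1 : ∀ t ∈ TS, p (lam + wt M L (gl n τ t)) = g (tot L t) := by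
    intro t ht
    have h0 : ∀ l, l < n → t l = 0 := fun l hl => ht.2.2 l (Or.inl hl)
    rw [hgdef]
    show p (lam + wt M L (gl n τ t)) = p (lam + fun i => (tot L (trunc n τ) i + tot L t i) / (M : ℤ))
    congr 2
    funext i
    unfold wt
    rw [tot_gl L n τ t h0]
    rfl
  have e2 : ∀ t ∈ TS, g (D.s j (tot L t)) = - g (tot L t) := by
    intro t ht
    have h0 : ∀ l, l < n → t l = 0 := fun l hl => ht.2.2 l (Or.inl hl)
    rw [← e1 t ht]
    have hw := hwt ι I D M L x hx hg.1 hL _ (hglmem t ht)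
    rw [tot_gl L n τ t h0] at hw
    set w := wt M L (gl n τ t) with hwdef
    -- the coordinate
    have hc1 : D.co j (tot L (trunc n τ)) = (-(D.co j lam) - 1) * M := by
      rw [co_tot, ← hHeq]
      unfold RDat.H
      rw [← Finset.sum_subset (Finset.range_subset_range.2 hnL)]
      · refine Finset.sum_congr rfl (fun l hl => ?_)
        unfold trunc
        rw [if_pos (mem_range.1 hl)]
      · intro l _ hl
        rw [mem_range] at hl
        unfold trunc
        rw [if_neg hl, co_zero]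
    have hc2 : D.co j (tot L t) = M * (D.co j (lam + w) + 1) := by
      have h1 := congrArg (D.co j) hw
      rw [co_add, co_smul, hc1] at h1
      rw [co_add]
      linear_combination h1
    rw [hgdef, ← hp (lam + w) j]
    show p (lam + fun i => (tot L (trunc n τ) i + (D.s j (tot L t)) i) / (M : ℤ)) = _
    congr 1
    funext i
    have h1 : tot L (trunc n τ) i + tot L t i = M * w i := by
      have := congrFun hw i
      simpa using this
    have h2 : (D.s j (tot L t)) i = tot L t i - M * (D.co j (lam + w) + 1) * D.al j i := by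
      unfold RDat.s
      rw [hc2]
      simp
    show lam i + (tot L (trunc n τ) i + (D.s j (tot L t)) i) / (M : ℤ) =
      (lam + w) i - ((D.co j (lam + w) + 1) • D.al j) i
    rw [h2]
    have h3 : tot L (trunc n τ) i + (tot L t i - M * (D.co j (lam + w) + 1) * D.al j i) =
        M * (w i - (D.co j (lam + w) + 1) * D.al j i) := by
      linear_combination h1
    rw [h3, Int.mul_ediv_cancel_left _ hM.ne']
    simp only [Pi.add_apply, Pi.smul_apply, smul_eq_mul]
    ring
  have e3 : ∑ᶠ t ∈ TS, g (tot L t) = ∑ᶠ t ∈ TS, g (D.s j (tot L t)) :=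
    hinv ι I D M n L j TS hg.1 hTSfin (hstr ι I D M n L κ j hctx) g
  have e4 : ∑ᶠ t ∈ TS, g (D.s j (tot L t)) = - ∑ᶠ t ∈ TS, g (tot L t) := by
    rw [finsum_mem_congr rfl e2, finsum_mem_neg_distrib _ hTSfin]
  rw [finsum_mem_congr rfl e1]
  linarith

/-- the first step of a nontrivial chain from `x` -/
theorem first_step {M l : ℕ} {x y : ι → ℤ} {i : I}
    (hc : ∀ y, D.Step 1 0 x y → y = D.s i x) (h : D.Rel M l x y) (hne : y ≠ x) :
    D.Step M l x (D.s i x) ∧ D.Rel M l (D.s i x) y := by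
  rcases Relation.ReflTransGen.cases_head h with h1 | ⟨z, hz, hzy⟩
  · exact absurd h1.symm hne
  · have h2 : D.Step 1 0 x z := by
      obtain ⟨b, b1, b2, b3, -⟩ := hz
      exact ⟨b, b1, b2, b3, by simp⟩
    have h3 := hc z h2
    rw [h3] at hz hzy
    exact ⟨hz, hzy⟩

theorem sum_zero (hint : RDat.S_int) (hfin : RDat.S_fin) (hstr : RDat.S_str) (hinv : RDat.S_inv)
    (hwt : RDat.S_wt) {M a0 L : ℕ} {x lam : ι → ℤ} (hx : x ∈ D.T)
    (hg : D.Good M x) (hL : M ∣ L) (h0 : ∀ j, 0 ≤ (M : ℤ) * D.co j lam + a0 * D.co j x)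
    (p : (ι → ℤ) → ℤ) (hp : ∀ y j, p (y - (D.co j y + 1) • D.al j) = - p y) :
    ∑ᶠ τ ∈ P0 D M a0 L x, p (lam + wt M L τ) =
      ∑ᶠ τ ∈ {τ | τ ∈ P0 D M a0 L x ∧ DF D M a0 L lam τ}, p (lam + wt M L τ) := by
  classical
  set B := P0 D M a0 L x with hB
  have hBfin : B.Finite := ((hfin ι I D x hx).2 M 0 L).subset (fun τ hτ => hτ.1)
  have hsplit : B = {τ | τ ∈ B ∧ DF D M a0 L lam τ} ∪ {τ | τ ∈ B ∧ ¬ DF D M a0 L lam τ} := by
    ext τ
    constructor
    · intro h
      by_cases h' : DF D M a0 L lam τ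
      · exact Or.inl ⟨h, h'⟩
      · exact Or.inr ⟨h, h'⟩
    · rintro (h | h)
      · exact h.1
      · exact h.1
  have hdisj : Disjoint {τ | τ ∈ B ∧ DF D M a0 L lam τ} {τ | τ ∈ B ∧ ¬ DF D M a0 L lam τ} := by
    rw [Set.disjoint_left]
    rintro τ ⟨-, h1⟩ ⟨-, h2⟩
    exact h2 h1
  have hf1 : {τ | τ ∈ B ∧ DF D M a0 L lam τ}.Finite := hBfin.subset (fun τ h => h.1)
  have hf2 : {τ | τ ∈ B ∧ ¬ DF D M a0 L lam τ}.Finite := hBfin.subset (fun τ h => h.1)
  have hzero : ∑ᶠ τ ∈ {τ | τ ∈ B ∧ ¬ DF D M a0 L lam τ}, p (lam + wt M L τ) = 0 := by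
    rw [finsum_mem_eq_finite_toFinset_sum _ hf2]
    set R : Setoid (ℕ → ι → ℤ) := Setoid.ker (key D M a0 lam) with hR
    refine Finset.sum_cancels_of_partition_cancels R (fun τ hτ => ?_)
    rw [Set.Finite.mem_toFinset] at hτ
    have h1 := class_sum D hint hfin hstr hinv hwt hx hg hL h0 p hp hτ.1 hτ.2
    have hf3 : {a | (a ∈ P0 D M a0 L x ∧ ¬ DF D M a0 L lam a) ∧
        key D M a0 lam a = key D M a0 lam τ}.Finite := hBfin.subset (fun τ h => h.1.1)
    rw [finsum_mem_eq_finite_toFinset_sum _ hf3] at h1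
    rw [← h1]
    refine Finset.sum_congr ?_ (fun _ _ => rfl)
    ext a
    simp only [Finset.mem_filter, Set.Finite.mem_toFinset, Set.mem_ofPred_eq]
    rfl
  conv_lhs => rw [hsplit]
  rw [finsum_mem_union hdisj hf1 hf2, hzero, add_zero]

theorem main : RDat.S_len → RDat.S_cov → RDat.S_cong → RDat.S_chain → RDat.S_fin → RDat.S_bru →
    RDat.S_int → RDat.S_str → RDat.S_inv → RDat.S_wt → GD.G_main5 := by
  intro hlen _ hcong hchain hfin _ hint hstr hinv hwt ι I D M m x lam i hx hg hi hcov hm hlam p hp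
  classical
  have hL : M ∣ m * M := Dvd.intro_left m rfl
  set L := m * M with hLdef
  have hMpos : 0 < M := hg.1
  have hM : (0 : ℤ) < M := by exact_mod_cast hMpos
  have hML : M ≤ L := by
    rw [hLdef]
    exact Nat.le_mul_of_pos_left M hm
  have hL0 : 0 < L := by omega
  -- the length of the first segment
  obtain ⟨q, hq⟩ : D.co i x ∣ (M : ℤ) := hg.2 x Relation.ReflTransGen.refl i hi.ne
  set t : ℤ := -(D.co i x) with ht
  have ht0 : 0 < t := by omega
  have hqneg : q < 0 := by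
    by_contra h
    push Not at h
    have := mul_nonpos_of_nonpos_of_nonneg hi.le h
    omega
  obtain ⟨a0, ha0⟩ : ∃ a0 : ℕ, (a0 : ℤ) = -q := ⟨(-q).toNat, by omega⟩
  have hMt : (M : ℤ) = a0 * t := by
    rw [ha0, ht, hq]
    ring
  have ha0pos : 0 < a0 := by omega
  have ha0M : a0 ≤ M := by
    have : (a0 : ℤ) ≤ M := by
      rw [hMt]
      nlinarith
    exact_mod_cast this
  have h0 : ∀ j, 0 ≤ (M : ℤ) * D.co j lam + a0 * D.co j x := by
    intro j
    have h1 : (M : ℤ) * D.co j lam + a0 * D.co j x = a0 * (t * D.co j lam + D.co j x) := by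
      rw [hMt]
      ring
    rw [h1]
    exact mul_nonneg (by omega) (hlam j)
  obtain ⟨l1, -, -, hsT, hco, -⟩ := hlen ι I D x hx i
  have hlt := l1 hi
  -- the step at the beginning
  have hstep0 : D.Step M 0 x (D.s i x) := by
    have h1 := (hchain ι I D M 0 x x hx Relation.ReflTransGen.refl i).2.2.2.2.1 hi
    exact h1 (by simp)
  have hsub : D.Paths M L (D.s i x) ⊆ D.Paths M L x := by
    intro τ hτ
    exact ⟨fun h => Relation.ReflTransGen.head hstep0 (hτ.1 h), hτ.2.1, hτ.2.2⟩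
  have hdiff : D.Paths M L x \ D.Paths M L (D.s i x) = P0 D M a0 L x := by
    ext τ
    constructor
    · rintro ⟨hτ, hnτ⟩
      refine ⟨hτ, ?_⟩
      intro l
      induction l with
      | zero =>
        intro _
        by_contra hne
        obtain ⟨-, h2⟩ := first_step D hcov (hτ.1 hL0) hne
        exact hnτ ⟨fun _ => h2, hτ.2.1, hτ.2.2⟩
      | succ l ih =>
        intro hl
        have hxl := ih (by omega)
        by_contra hne
        have h1 := hτ.2.1 (l + 1) (by omega) (by omega)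
        rw [Nat.add_sub_cancel, hxl] at h1
        obtain ⟨h2, -⟩ := first_step D hcov h1 hne
        have h3 := (hchain ι I D M (l + 1) x (D.s i x) hx
          (Relation.ReflTransGen.single h2) i).1 hi (by rw [hco]; omega)
        have h4 : (M : ℤ) ∣ ((l + 1 : ℕ) : ℤ) * t := by
          have h5 := h3.2
          rw [ht, mul_neg]
          exact (dvd_neg).2 h5
        rw [hMt] at h4
        have h5 : (a0 : ℤ) ∣ ((l + 1 : ℕ) : ℤ) := Int.dvd_of_mul_dvd_mul_right ht0.ne' h4
        have h6 : a0 ∣ l + 1 := by exact_mod_cast h5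
        have h7 := Nat.le_of_dvd (by omega) h6
        omega
    · rintro ⟨hτ, hpre⟩
      refine ⟨hτ, fun h => ?_⟩
      have h1 := h.1 hL0
      rw [hpre 0 ha0pos] at h1
      have h2 := (hcong ι I D M 0 (D.s i x) x hsT h1).2.1
      omega
  refine ⟨hsub, {τ | τ ∈ P0 D M a0 L x ∧ DF D M a0 L lam τ}, fun τ hτ => hτ.1.1, ?_, ?_⟩
  · rintro τ ⟨hτ, hd⟩ j
    have h1 := hd L (by omega) le_rfl j
    have h2 := hwt ι I D M L x hx hMpos hL τ hτ.1
    have h3 : D.H j τ L = M * D.co j (wt M L τ) := by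
      rw [← co_tot, h2, co_smul]
    rw [h3, ← mul_add, ← co_add] at h1
    by_contra h
    push Not at h
    have := mul_neg_of_pos_of_neg hM h
    omega
  · rw [hdiff]
    exact sum_zero D hint hfin hstr hinv hwt hx hg hL h0 p hp

end H391.KR.P_gmain5

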