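import Pool.Agent.H391.KR.GC

noncomputable section

namespace H391.KR.P_gsig

open H391.KR Finset

variable {n : ℕ}

theorem dot_sub (a x y : Fin n → ℤ) : dot a (x - y) = dot a x - dot a y := by
  simp [dot, mul_sub, Finset.sum_sub_distrib]

theorem dot_smul (a : Fin n → ℤ) (c : ℤ) (x : Fin n → ℤ) : dot a (c • x) = c * dot a x := by
  simp only [dot, Pi.smul_apply, smul_eq_mul, Finset.mul_sum]
  exact Finset.sum_congr rfl fun i _ => by ring

theorem dot_neg (a x : Fin n → ℤ) : dot a (-x) = - dot a x := by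
  simp [dot]

theorem dot_om (a : Fin n → ℤ) (i : Fin n) : dot a (om i) = a i := by
  simp [dot, om]

theorem dot_one (a : Fin n → ℤ) : dot a (fun _ => (1 : ℤ)) = ∑ i, a i := by
  simp [dot]

theorem main : RDat.N_red → RDat.N_desc → RDat.N_del → GD.G_hd → GD.G_sig := by
  intro hNr hNd hNl hH n S hS D hD i
  have hd := hH n S hS D hD
  obtain ⟨u, hu⟩ := hS.trw i
  have hs : ∀ j x, D.s j x = S.rf j x := by
    intro j x
    unfold RDat.s GD.rf
    rw [hD.co, hD.al]
  have hfold : ∀ (u : List (Option (Fin n))) x, D.sR u x = u.foldl (fun y j => S.rf j y) x := by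
    intro u
    induction u with
    | nil => intro x; rfl
    | cons j u ih =>
      intro x
      show D.sR u (D.s j x) = _
      rw [ih, hs]
      rfl
  have hu' : ∀ x, D.sR u (S.tr i x) = x := fun x => by rw [hfold]; exact hu x
  obtain ⟨d1, d2, d3, d4, drev, dadd, dsm, dng, dapp, ddem, dT⟩ := hNd _ _ D
  have hur : ∀ x, D.sR u.reverse x = S.tr i x := by
    intro x
    have h1 := (drev u (S.tr i x)).1
    rw [hu'] at h1
    exact h1
  have hneg : ∀ a, S.Cor a → S.Cor (-a) ∧ S.tt (-a) = S.tt a := by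
    intro a ha
    have h := hS.refl a a ha ha
    rw [hS.two a ha] at h
    have e : a - (2 : ℤ) • a = -a := by
      rw [two_smul]
      abel
    rw [e] at h
    exact ⟨h.1, h.2.1⟩
  -- the level
  have hth : ∀ j ∈ (Finset.univ : Finset (Fin n)), 0 ≤ S.th j := fun j _ =>
    le_trans zero_le_one (hS.th_pos j)
  have hsum : 1 ≤ ∑ j, S.th j :=
    le_trans (hS.th_pos i) (Finset.single_le_sum hth (Finset.mem_univ i))
  have hhv : 2 ≤ S.hv := by
    unfold GD.hv
    linarith
  have hyT : S.tr i S.rho ∈ D.T := by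
    rw [hD.T]
    show 1 ≤ S.hv
    linarith
  have hyi : D.co (some i) (S.tr i S.rho) < 0 := by
    rw [hD.co]
    have h1 : S.co (some i) (S.tr i S.rho) = 1 - (S.hv * S.t i) * 1 := by
      show (1 : ℤ) - (S.hv * S.t i) * (if i = i then 1 else 0) = _
      rw [if_pos rfl]
    rw [h1]
    nlinarith [hS.t_pos i]
  obtain ⟨w, -, hdesc, hend⟩ :=
    (hNr _ _ D Set.univ (S.tr i S.rho) hyT).2 (some i) (Set.mem_univ _) hyi
  have hdomend : D.Dom (D.sR (some i :: w) (S.tr i S.rho)) := fun j => hend j (Set.mem_univ _)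
  have hid : ∀ x, D.sR (u.reverse ++ (some i :: w)) x = x := by
    refine ((hNl _ _ D S.rho hd).2.2 _ S.rho ?_ ?_).1
    · intro j
      rw [hd.one]
      exact zero_lt_one
    · rw [dapp, hur]
      exact hdomend
  refine ⟨{ w := w, desc := ?_, eq := ?_ }⟩
  · refine d2 _ _ _ hdesc ?_
    intro b hb
    obtain ⟨a, m, hP, hev, -⟩ := hD.ev b
    rw [hev] at hb ⊢
    obtain ⟨hC, hdvd, hpos⟩ := hP
    have e1 : dot a (fp (S.tr i S.rho)) + m * (S.tr i S.rho) none =
        (∑ j, a j) + S.hv * (m - S.t i * a i) := by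
      have h1 : dot a (fp (S.tr i S.rho)) + m * (S.tr i S.rho) none =
          dot a ((fun _ => (1 : ℤ)) - (S.hv * S.t i) • om i) + m * S.hv := rfl
      rw [h1, dot_sub, dot_smul, dot_om, dot_one]
      ring
    have e2 : dot a (fp (S.xi i)) + m * (S.xi i) none = m - S.t i * a i := by
      have h1 : dot a (fp (S.xi i)) + m * (S.xi i) none =
          dot a (-(S.t i • om i)) + m * 1 := rfl
      rw [h1, dot_neg, dot_smul, dot_om]
      ring
    rw [e1] at hb
    rw [e2]
    by_contra hcon
    push Not at hcon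
    obtain ⟨d, hdd⟩ : S.tt a ∣ m - S.t i * a i := dvd_sub hdvd (hS.tdvd a hC i)
    have htt := hS.tt_pos a hC
    have hd0 : 0 ≤ d := by
      by_contra h
      push Not at h
      nlinarith
    have hnn : (∀ j, 0 ≤ a j) → 0 ≤ ∑ j, a j := fun h => Finset.sum_nonneg fun j _ => h j
    rcases eq_or_lt_of_le hd0 with h | h
    · rw [← h, mul_zero] at hdd
      rw [hdd, mul_zero, add_zero] at hb
      rcases (hS.sgn a hC).2 with h1 | h1
      · have := hnn h1
        linarith
      · rcases hpos with h2 | h2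
        · have h3 := h1 i
          have h4 := hS.t_pos i
          nlinarith
        · have := hnn h2.2
          linarith
    · have h1 : S.tt a ≤ m - S.t i * a i := by
        rw [hdd]
        nlinarith
      obtain ⟨hn1, hn2⟩ := hneg a hC
      have h2 : ∑ j, -a j ≤ ∑ j, S.tt a * S.th j := by
        refine Finset.sum_le_sum fun j _ => ?_
        have h3 := hS.bnd (-a) hn1 j
        rw [hn2] at h3
        exact h3
      rw [← Finset.mul_sum, Finset.sum_neg_distrib] at h2
      have h3 : S.hv = 1 + ∑ j, S.th j := rfl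
      have h4 : S.hv * S.tt a ≤ S.hv * (m - S.t i * a i) :=
        mul_le_mul_of_nonneg_left h1 (by linarith)
      rw [h3] at h4 hb
      nlinarith
  · intro x
    have h1 := hid x
    rw [dapp, hur] at h1
    exact h1

end H391.KR.P_gsig
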