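import Pool.Agent.H391.KR.GV

noncomputable section

namespace H391.KR.P_hab

open Finset H391.KR

/-! ### the group ring -/

section gr

variable {ι κ : Type}

theorem pair_apply (p : (ι → ℤ) → ℤ) (f : GR ι) : pair p f = f.coeff.sum fun x c => c * p x := by
  rfl

theorem coeff_ex_mul (x : ι → ℤ) (f : GR ι) (y : ι → ℤ) :
    (ex x * f).coeff y = f.coeff (y - x) := by
  unfold ex
  rw [AddMonoidAlgebra.coeff_single_mul_apply, one_mul]
  congr 1
  abel

theorem ex_mul_ex (x y : ι → ℤ) : ex x * ex y = ex (x + y) := by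
  unfold ex
  rw [AddMonoidAlgebra.single_mul_single, one_mul]

theorem ex_zero : (ex 0 : GR ι) = 1 := rfl

theorem push_ex (g : (ι → ℤ) →+ (κ → ℤ)) (x : ι → ℤ) : push g (ex x) = ex (g x) := by
  have h0 : push g (ex x) = AddMonoidAlgebra.mapDomain g (ex x) := rfl
  rw [h0]
  unfold ex
  rw [AddMonoidAlgebra.mapDomain_single]

theorem coeff_push (g : (ι → ℤ) →+ (κ → ℤ)) (hg : Function.Injective g) (f : GR ι) (x : ι → ℤ) :
    (push g f).coeff (g x) = f.coeff x := by
  have h0 : push g f = AddMonoidAlgebra.mapDomain g f := rfl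
  rw [h0, AddMonoidAlgebra.coeff_mapDomain, Finsupp.mapDomain_apply hg]

/-- pairing with values in a ring -/
def pairK {K : Type} [CommRing K] (p : (ι → ℤ) → K) : GR ι →+ K :=
  (Finsupp.liftAddHom (fun x : ι → ℤ => (AddMonoidHom.mulRight (p x)).comp
    (Int.castAddHom K))).comp
    (AddMonoidAlgebra.coeffAddEquiv (R := ℤ) (M := ι → ℤ)).toAddMonoidHom

theorem pairK_apply {K : Type} [CommRing K] (p : (ι → ℤ) → K) (f : GR ι) :
    pairK p f = f.coeff.sum fun x c => (c : K) * p x := by
  rfl

theorem pairK_single {K : Type} [CommRing K] (p : (ι → ℤ) → K) (x : ι → ℤ) (c : ℤ) :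
    pairK p (AddMonoidAlgebra.single x c) = (c : K) * p x := by
  rw [pairK_apply, AddMonoidAlgebra.coeff_single, Finsupp.sum_single_index (by simp)]

theorem pairK_mul {K : Type} [CommRing K] (p : (ι → ℤ) → K) (f g : GR ι) : pairK p (f * g) =
    ∑ x ∈ f.coeff.support, ∑ y ∈ g.coeff.support,
      ((f.coeff x * g.coeff y : ℤ) : K) * p (x + y) := by
  rw [AddMonoidAlgebra.mul_def, Finsupp.sum, map_sum]
  refine sum_congr rfl fun x _ => ?_
  rw [Finsupp.sum, map_sum]
  refine sum_congr rfl fun y _ => ?_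
  rw [pairK_single]

end gr

/-! ### roots -/

section roots

variable {n : ℕ} (S : GD n)

theorem dot_om (i : Fin n) (x : Fin n → ℤ) : dot (om i) x = x i := by
  unfold dot om
  simp

theorem dot_add_left (a b x : Fin n → ℤ) : dot (a + b) x = dot a x + dot b x := by
  unfold dot
  simp only [Pi.add_apply, add_mul, sum_add_distrib]

theorem dot_smul_left (c : ℤ) (a x : Fin n → ℤ) : dot (c • a) x = c * dot a x := by
  unfold dot
  simp only [Pi.smul_apply, smul_eq_mul, mul_sum]
  refine sum_congr rfl fun j _ => by ring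

theorem dot_neg_left (a x : Fin n → ℤ) : dot (-a) x = - dot a x := by
  have h := dot_smul_left (-1) a x
  rw [neg_one_smul] at h
  rw [h]
  ring

theorem dot_sub_smul_left (a b x : Fin n → ℤ) (c : ℤ) :
    dot (a - c • b) x = dot a x - c * dot b x := by
  rw [sub_eq_add_neg, dot_add_left, dot_neg_left, dot_smul_left]
  ring

/-- reflection of a coroot -/
def rf (i : Fin n) (a : Fin n → ℤ) : Fin n → ℤ := a - dot a (S.rtw i) • om i

variable (hS : S.OK)
include hS

theorem rt_rf (i : Fin n) (a : Fin n → ℤ) (ha : S.Cor a) :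
    S.Cor (rf S i a) ∧ S.rt (rf S i a) = S.refl i (S.rt a) := by
  obtain ⟨h1, -, h3⟩ := hS.refl (om i) a (GD.Cor.simple i) ha
  rw [(hS.om i).2] at h1 h3
  rw [dot_om] at h3
  exact ⟨h1, h3⟩

theorem refl_self (i : Fin n) (x : Fin n → ℤ) : S.refl i x i = - x i := by
  have h : S.refl i x i = x i - x i * S.C i i := rfl
  rw [h, hS.diag i]
  ring

theorem refl_refl (i : Fin n) (x : Fin n → ℤ) : S.refl i (S.refl i x) = x := by
  have h : S.refl i (S.refl i x) = S.refl i x - S.refl i x i • S.rtw i := rfl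
  have h2 : S.refl i x = x - x i • S.rtw i := rfl
  rw [h, refl_self S hS, h2, neg_smul]
  abel

theorem refl_inj (i : Fin n) : Function.Injective (S.refl i) := by
  intro x y h
  rw [← refl_refl S hS i x, h, refl_refl S hS]

theorem rf_rf (i : Fin n) (a : Fin n → ℤ) : rf S i (rf S i a) = a := by
  have h : rf S i (rf S i a) = rf S i a - dot (rf S i a) (S.rtw i) • om i := rfl
  have h2 : rf S i a = a - dot a (S.rtw i) • om i := rfl
  have h3 : dot (rf S i a) (S.rtw i) = - dot a (S.rtw i) := by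
    rw [h2, dot_sub_smul_left, dot_om]
    have h4 : S.rtw i i = 2 := hS.diag i
    rw [h4]
    ring
  rw [h, h3, h2, neg_smul]
  abel

theorem rf_mem (i : Fin n) {a : Fin n → ℤ} (ha : a ∈ S.pos) (hai : a ≠ om i) :
    rf S i a ∈ S.pos ∧ rf S i a ≠ om i := by
  obtain ⟨ha1, ha2⟩ := ha
  have hroot : S.Cor (rf S i a) := (rt_rf S hS i a ha1).1
  constructor
  · refine ⟨hroot, ?_⟩
    obtain ⟨k, hk, hak⟩ : ∃ k, k ≠ i ∧ a k ≠ 0 := by
      by_contra hcon
      push Not at hcon
      rcases hS.prop a ha1 i hcon with h | h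
      · exact hai h
      · have h2 := ha2 i
        rw [h] at h2
        simp [om] at h2
    rcases (hS.sgn _ hroot).2 with h | h
    · exact h
    · exfalso
      have h1 := h k
      have h2 : rf S i a k = a k - dot a (S.rtw i) * om i k := rfl
      have h3 : om i k = 0 := by simp [om, hk]
      rw [h2, h3, mul_zero, sub_zero] at h1
      exact hak (le_antisymm h1 (ha2 k))
  · intro h
    have h1 : a = rf S i (om i) := by rw [← h, rf_rf S hS]
    have h2 : a i = -1 := by
      rw [h1]
      have h3 : rf S i (om i) i = om i i - dot (om i) (S.rtw i) * om i i := rfl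
      have h4 : dot (om i) (S.rtw i) = 2 := by rw [dot_om]; exact hS.diag i
      have h5 : (om i : Fin n → ℤ) i = 1 := by simp [om]
      rw [h3, h4, h5]
      ring
    have := ha2 i
    omega

theorem pos_finite : S.pos.Finite := hS.fin.subset fun _ ha => ha.1

omit hS in
theorem om_mem (i : Fin n) : om i ∈ S.pos := by
  refine ⟨GD.Cor.simple i, fun j => ?_⟩
  unfold om
  split_ifs <;> norm_num

theorem push_delta (i : Fin n) : push (S.refl i) S.Delta = - (ex (S.rtw i) * S.Delta) := by
  have hfin := pos_finite S hS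
  have hD : S.Delta = ∏ a ∈ hfin.toFinset, (1 - ex (-(S.rt a))) := by
    unfold GD.Delta
    rw [finprod_mem_eq_finite_toFinset_prod _ hfin]
  have hmem : om i ∈ hfin.toFinset := by
    rw [Set.Finite.mem_toFinset]
    exact om_mem S i
  have hrt : S.refl i (S.rtw i) = - S.rtw i := by
    have h2 : S.refl i (S.rtw i) = S.rtw i - S.rtw i i • S.rtw i := rfl
    have h3 : S.rtw i i = 2 := hS.diag i
    rw [h2, h3, two_smul]
    abel
  rw [hD, ← mul_prod_erase _ _ hmem, map_mul]
  have h1 : push (S.refl i) (∏ a ∈ hfin.toFinset.erase (om i), (1 - ex (-(S.rt a)))) =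
      ∏ a ∈ hfin.toFinset.erase (om i), (1 - ex (-(S.rt a))) := by
    rw [map_prod]
    refine prod_nbij' (rf S i) (rf S i) ?_ ?_ ?_ ?_ ?_
    · intro a ha
      rw [mem_erase, Set.Finite.mem_toFinset] at ha ⊢
      have := rf_mem S hS i ha.2 ha.1
      exact ⟨this.2, this.1⟩
    · intro a ha
      rw [mem_erase, Set.Finite.mem_toFinset] at ha ⊢
      have := rf_mem S hS i ha.2 ha.1
      exact ⟨this.2, this.1⟩
    · intro a _
      exact rf_rf S hS i a
    · intro a _
      exact rf_rf S hS i a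
    · intro a ha
      rw [mem_erase, Set.Finite.mem_toFinset] at ha
      rw [map_sub, map_one, push_ex, map_neg, (rt_rf S hS i a ha.2.1).2]
  rw [h1, map_sub, map_one, push_ex, map_neg, (hS.om i).2, hrt, neg_neg, ← mul_assoc, ← neg_mul]
  congr 1
  rw [mul_sub, mul_one, ex_mul_ex, add_neg_cancel, ex_zero]
  ring

theorem delta_coeff (i : Fin n) (x : Fin n → ℤ) :
    S.Delta.coeff (x - (x i + 1) • S.rtw i) = - S.Delta.coeff x := by
  have h1 := coeff_push (S.refl i) (refl_inj S hS i) S.Delta x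
  rw [push_delta S hS i, AddMonoidAlgebra.coeff_neg, Finsupp.neg_apply, coeff_ex_mul] at h1
  have h2 : S.refl i x - S.rtw i = x - (x i + 1) • S.rtw i := by
    have h3 : S.refl i x = x - x i • S.rtw i := rfl
    rw [h3, add_smul, one_smul]
    abel
  rw [h2] at h1
  rw [← h1, neg_neg]

/-- the root of a positive coroot is a non-negative combination of simple roots -/
theorem rt_pos (a : Fin n → ℤ) (ha : a ∈ S.pos) : ∃ g : Fin n → ℤ, (∀ j, 0 ≤ g j) ∧ g ≠ 0 ∧
    S.rt a = ∑ j, g j • S.rtw j := by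
  obtain ⟨g, hg1, hg2⟩ := hS.rtc a ha.1
  have htt := hS.tt_pos a ha.1
  refine ⟨g, fun j => ?_, ?_, hg1⟩
  · have h1 := hg2 j
    have h2 : 0 ≤ S.t j * a j := mul_nonneg (by have := hS.t_pos j; omega) (ha.2 j)
    by_contra hcon
    have h3 : S.tt a * g j < 0 := mul_neg_of_pos_of_neg (by omega) (by omega)
    omega
  · intro h0
    refine (hS.sgn a ha.1).1 ?_
    funext j
    have h1 := hg2 j
    rw [h0, Pi.zero_apply, mul_zero] at h1
    have h2 := hS.t_pos j
    rcases mul_eq_zero.1 h1.symm with h | h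
    · omega
    · exact h

theorem prod_supp (A : Finset (Fin n → ℤ)) (hA : ∀ a ∈ A, a ∈ S.pos) :
    (∀ mu, (∏ a ∈ A, (1 - ex (-(S.rt a))) : GR (Fin n)).coeff mu ≠ 0 →
      ∃ g : Fin n → ℤ, (∀ i, 0 ≤ g i) ∧ mu = - ∑ j, g j • S.rtw j) ∧
    (∏ a ∈ A, (1 - ex (-(S.rt a))) : GR (Fin n)).coeff 0 = 1 := by
  classical
  induction A using Finset.induction_on with
  | empty =>
    rw [prod_empty, AddMonoidAlgebra.one_def]
    constructor
    · intro mu hmu
      rw [AddMonoidAlgebra.coeff_single, Finsupp.single_apply] at hmu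
      have : (0 : Fin n → ℤ) = mu := by
        by_contra h
        rw [if_neg h] at hmu
        exact hmu rfl
      exact ⟨0, fun i => le_rfl, by rw [← this]; simp⟩
    · rw [AddMonoidAlgebra.coeff_single, Finsupp.single_eq_same]
  | insert a A haA ih =>
    obtain ⟨ih1, ih2⟩ := ih fun b hb => hA b (mem_insert_of_mem hb)
    have ha := hA a (mem_insert_self _ _)
    obtain ⟨ga, hga1, hga2, hga3⟩ := rt_pos S hS a ha
    rw [prod_insert haA]
    have hc : ∀ mu, ((1 - ex (-(S.rt a))) * ∏ a ∈ A, (1 - ex (-(S.rt a))) : GR (Fin n)).coeff mu =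
        (∏ a ∈ A, (1 - ex (-(S.rt a))) : GR (Fin n)).coeff mu -
        (∏ a ∈ A, (1 - ex (-(S.rt a))) : GR (Fin n)).coeff (mu + S.rt a) := by
      intro mu
      rw [sub_mul, one_mul, AddMonoidAlgebra.coeff_sub, Finsupp.sub_apply, coeff_ex_mul,
        sub_neg_eq_add]
    constructor
    · intro mu hmu
      rw [hc] at hmu
      by_cases h1 : (∏ a ∈ A, (1 - ex (-(S.rt a))) : GR (Fin n)).coeff mu = 0
      · have h2 : (∏ a ∈ A, (1 - ex (-(S.rt a))) : GR (Fin n)).coeff (mu + S.rt a) ≠ 0 := by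
          intro h
          rw [h1, h, sub_zero] at hmu
          exact hmu rfl
        obtain ⟨g, hg, hmg⟩ := ih1 _ h2
        refine ⟨g + ga, fun i => ?_, ?_⟩
        · have := hg i
          have := hga1 i
          rw [Pi.add_apply]
          omega
        · have h3 : ∑ j, (g + ga) j • S.rtw j = ∑ j, g j • S.rtw j + ∑ j, ga j • S.rtw j := by
            rw [← sum_add_distrib]
            exact sum_congr rfl fun j _ => by rw [Pi.add_apply, add_smul]
          rw [h3, ← hga3, neg_add, ← hmg]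
          abel
      · exact ih1 _ h1
    · rw [hc, ih2]
      have h2 : (∏ a ∈ A, (1 - ex (-(S.rt a))) : GR (Fin n)).coeff (0 + S.rt a) = 0 := by
        by_contra h
        obtain ⟨g, hg, hmg⟩ := ih1 _ h
        rw [zero_add, hga3] at hmg
        have h3 : (∑ j, (ga + g) j • S.rtw j) = 0 := by
          have h4 : ∑ j, (ga + g) j • S.rtw j = ∑ j, ga j • S.rtw j + ∑ j, g j • S.rtw j := by
            rw [← sum_add_distrib]
            exact sum_congr rfl fun j _ => by rw [Pi.add_apply, add_smul]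
          rw [h4, hmg]
          abel
        have h5 := hS.nd' _ h3
        apply hga2
        funext j
        have h6 := congrFun h5 j
        rw [Pi.add_apply, Pi.zero_apply] at h6
        have := hga1 j
        have := hg j
        rw [Pi.zero_apply]
        omega
      rw [h2, sub_zero]

theorem delta_supp : (∀ mu : Fin n → ℤ, (∀ i, 0 ≤ mu i) → S.Delta.coeff mu ≠ 0 → mu = 0) ∧
    S.Delta.coeff 0 = 1 := by
  have hfin := pos_finite S hS
  have hD : S.Delta = ∏ a ∈ hfin.toFinset, (1 - ex (-(S.rt a))) := by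
    unfold GD.Delta
    rw [finprod_mem_eq_finite_toFinset_prod _ hfin]
  obtain ⟨h1, h2⟩ := prod_supp S hS hfin.toFinset (fun a ha => (Set.Finite.mem_toFinset hfin).1 ha)
  rw [← hD] at h1 h2
  refine ⟨?_, h2⟩
  intro mu hmu hc
  obtain ⟨g, hg, hmg⟩ := h1 mu hc
  -- a common multiple of the `t j`
  obtain ⟨N, hN⟩ : ∃ N : ℤ, N = ∏ j, S.t j := ⟨_, rfl⟩
  have hN0 : 0 < N := by
    rw [hN]
    exact prod_pos fun j _ => by have := hS.t_pos j; omega
  have hdv : ∀ j, S.t j * (N / S.t j) = N := fun j =>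
    Int.mul_ediv_cancel' (by rw [hN]; exact dvd_prod_of_mem _ (mem_univ j))
  have hq0 : ∀ j, 0 < N / S.t j := by
    intro j
    have h3 := hdv j
    have h4 := hS.t_pos j
    by_contra hcon
    have h5 : S.t j * (N / S.t j) ≤ 0 := mul_nonpos_of_nonneg_of_nonpos (by omega) (by omega)
    omega
  have hmi : ∀ i, mu i = - ∑ j, g j * S.C i j := by
    intro i
    have h3 := congrFun hmg i
    rw [h3, Pi.neg_apply, Finset.sum_apply]
    rfl
  obtain ⟨a, ha⟩ : ∃ a : Fin n → ℤ, a = fun j => (N / S.t j) * g j := ⟨_, rfl⟩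
  have h5 : a = 0 := by
    by_contra h
    have h6 := hS.pd a h
    have h7 : ∑ i, ∑ j, a i * S.C i j * S.t j * a j = ∑ i, a i * (N * (- mu i)) := by
      refine sum_congr rfl fun i _ => ?_
      rw [hmi i, neg_neg, mul_sum, mul_sum]
      refine sum_congr rfl fun j _ => ?_
      have h8 := hdv j
      rw [ha]
      simp only
      calc N / S.t i * g i * S.C i j * S.t j * (N / S.t j * g j) =
          N / S.t i * g i * (S.t j * (N / S.t j) * (g j * S.C i j)) := by ring
        _ = _ := by rw [h8]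
    rw [h7] at h6
    have h9 : ∑ i, a i * (N * (- mu i)) ≤ 0 := by
      refine sum_nonpos fun i _ => ?_
      have h10 : 0 ≤ a i := by
        rw [ha]
        exact mul_nonneg (hq0 i).le (hg i)
      have h11 : N * (- mu i) ≤ 0 :=
        mul_nonpos_of_nonneg_of_nonpos hN0.le (by have := hmu i; omega)
      exact mul_nonpos_of_nonneg_of_nonpos h10 h11
    omega
  have h6 : g = 0 := by
    funext j
    have h7 := congrFun h5 j
    rw [ha] at h7
    simp only [Pi.zero_apply] at h7
    rcases mul_eq_zero.1 h7 with h | h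
    · have := hq0 j
      omega
    · exact h
  rw [hmg, h6]
  simp

end roots

/-! ### words -/

section words

variable {n : ℕ} {D : RDat (Fin n) (Fin n)} {K : Type} [CommRing K]

theorem anti_sR {q : (Fin n → ℤ) → K} (hq : ∀ j z, q (D.s j z) = - q z) (w : List (Fin n)) :
    ∀ z, q (D.sR w z) = (-1) ^ w.length * q z := by
  induction w with
  | nil => intro z; simp [RDat.sR]
  | cons j w ih =>
    intro z
    have h1 : D.sR (j :: w) z = D.sR w (D.s j z) := rfl
    rw [h1, ih, hq, List.length_cons, pow_succ]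
    ring

omit [CommRing K] in
theorem inv_sR {q : (Fin n → ℤ) → K} (hq : ∀ j z, q (D.s j z) = q z) (w : List (Fin n)) :
    ∀ z, q (D.sR w z) = q z := by
  induction w with
  | nil => intro z; rfl
  | cons j w ih =>
    intro z
    have h1 : D.sR (j :: w) z = D.sR w (D.s j z) := rfl
    rw [h1, ih, hq]

theorem negone_pow_ne [NoZeroDivisors K] [Nontrivial K] (k : ℕ) : ((-1 : K)) ^ k ≠ 0 :=
  pow_ne_zero _ (neg_ne_zero.2 one_ne_zero)

theorem exists_word [NoZeroDivisors K] [CharZero K] (hco : ∀ j x, D.co j x = x j)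
    (hT : D.T = Set.univ) (hred : RDat.N_red)
    {q : (Fin n → ℤ) → K} (hq : ∀ j z, q (D.s j z) = - q z) (z : Fin n → ℤ) (hz : q z ≠ 0) :
    ∃ w : List (Fin n), ∀ j, 1 ≤ D.sR w z j := by
  obtain ⟨⟨w, -, -, hw⟩, -⟩ := hred _ _ D Set.univ z (by rw [hT]; trivial)
  refine ⟨w, fun j => ?_⟩
  have h1 := hw j trivial
  rw [hco] at h1
  rcases lt_or_eq_of_le h1 with h | h
  · omega
  · exfalso
    have h2 : D.s j (D.sR w z) = D.sR w z := by
      unfold RDat.s
      rw [hco, ← h, zero_smul, sub_zero]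
    have h3 := hq j (D.sR w z)
    rw [h2] at h3
    have h4 : q (D.sR w z) = 0 := by
      have h5 : (2 : K) * q (D.sR w z) = 0 := by
        rw [two_mul]
        nth_rewrite 1 [h3]
        exact neg_add_cancel _
      rcases mul_eq_zero.1 h5 with h6 | h6
      · exact absurd h6 two_ne_zero
      · exact h6
    rw [anti_sR hq] at h4
    rcases mul_eq_zero.1 h4 with h5 | h5
    · exact absurd h5 (negone_pow_ne _)
    · exact hz h5

theorem sR_foldl (S : GD n) (hs : ∀ j x, D.s j x = x - x j • S.rtw j) (w : List (Fin n)) :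
    ∀ x, w.foldl (fun y j => y - y j • S.rtw j) x = D.sR w x := by
  induction w with
  | nil => intro x; rfl
  | cons j w ih =>
    intro x
    have h1 : D.sR (j :: w) x = D.sR w (D.s j x) := rfl
    rw [h1, List.foldl_cons, ih, hs]

end words

/-! ### the main identity -/

open Classical in
theorem core {K : Type} [CommRing K] [NoZeroDivisors K] [CharZero K]
    (hred : RDat.N_red) (hdesc : RDat.N_desc) (hdel : RDat.N_del) (hfin : GD.H_fin)
    (n : ℕ) (S : GD n) (hS : S.OK) :
    (∀ (f : S.Rep) (p : (Fin n → ℤ) → K), (∀ mu i, p (mu - (mu i + 1) • S.rtw i) = - p mu) →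
      ((f : GR (Fin n)) * S.Delta).coeff.sum
        (fun mu c => if ∀ i, 0 ≤ mu i then (c : K) * p mu else 0) =
      (f : GR (Fin n)).coeff.sum fun mu c => (c : K) * p mu) ∧
    (∀ ka, S.Delta.coeff ka ≠ 0 → ∃ w : List (Fin n),
      w.foldl (fun y j => y - y j • S.rtw j) (fun _ => 1) = ka + fun _ => 1) := by
  obtain ⟨D, hco, hal, hT, hHD, -, -⟩ := hfin n S hS
  obtain ⟨hd1, hd2, hd3, hd4, hd5, hd6, hd7, hd8, hd9, hd10, hd11⟩ := hdesc _ _ D
  obtain ⟨-, -, hdel3⟩ := hdel _ _ D _ hHD
  obtain ⟨hD1, hD2⟩ := delta_supp S hS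
  have hs : ∀ j x, D.s j x = S.refl j x := by
    intro j x
    unfold RDat.s
    rw [hco, hal]
    rfl
  have hs' : ∀ j x, D.s j x = x - x j • S.rtw j := by
    intro j x
    rw [hs]
    rfl
  obtain ⟨A, hA⟩ : ∃ A : (Fin n → ℤ) → ℤ, A = fun z => S.Delta.coeff (z - 1) := ⟨_, rfl⟩
  have hAa : ∀ j z, A (D.s j z) = - A z := by
    intro j z
    rw [hA, hs']
    have h1 := delta_coeff S hS j (z - 1)
    have h2 : z - 1 - ((z - 1) j + 1) • S.rtw j = z - z j • S.rtw j - 1 := by
      have h3 : (z - 1) j + 1 = z j := by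
        rw [Pi.sub_apply, Pi.one_apply]
        ring
      rw [h3]
      abel
    rw [h2] at h1
    exact h1
  have hA1 : A 1 = 1 := by
    rw [hA]
    have : (1 : Fin n → ℤ) - 1 = 0 := sub_self _
    simp only [this]
    exact hD2
  -- words for the support of Delta
  have hw : ∀ ka : Fin n → ℤ, ∃ w : List (Fin n), S.Delta.coeff ka ≠ 0 → D.sR w (ka + 1) = 1 := by
    intro ka
    by_cases hk : S.Delta.coeff ka = 0
    · exact ⟨[], fun h => absurd hk h⟩
    · have h1 : A (ka + 1) = S.Delta.coeff ka := by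
        rw [hA]
        simp only [add_sub_cancel_right]
      obtain ⟨w, hw⟩ := exists_word hco hT hred hAa (ka + 1) (by rw [h1]; exact hk)
      refine ⟨w, fun _ => ?_⟩
      have h2 : A (D.sR w (ka + 1)) ≠ 0 := by
        rw [anti_sR hAa, h1]
        exact mul_ne_zero (negone_pow_ne _) hk
      rw [hA] at h2
      have h3 := hD1 (D.sR w (ka + 1) - 1) (fun i => by
        rw [Pi.sub_apply, Pi.one_apply]
        have := hw i
        omega) h2
      exact sub_eq_zero.1 h3
  choose U hU using hw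
  refine ⟨?_, ?_⟩
  swap
  · intro ka hk
    refine ⟨(U ka).reverse, ?_⟩
    rw [sR_foldl S hs' (U ka).reverse]
    have h1 := (hd5 (U ka) (ka + 1)).1
    rw [hU ka hk] at h1
    exact h1
  intro f p hp
  -- invariance
  have hfinv : ∀ j z, (f : GR (Fin n)).coeff (D.s j z) = (f : GR (Fin n)).coeff z := by
    intro j z
    have h1 : (f : GR (Fin n)) ∈ ⨅ i, (push (S.refl i)).eqLocus (RingHom.id (GR (Fin n))) := f.2
    rw [Subring.mem_iInf] at h1
    have h2 : push (S.refl j) (f : GR (Fin n)) = (f : GR (Fin n)) := h1 j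
    rw [hs]
    have h3 := coeff_push (S.refl j) (refl_inj S hS j) (f : GR (Fin n)) z
    rw [h2] at h3
    exact h3
  obtain ⟨P, hP⟩ : ∃ P : (Fin n → ℤ) → K, P = fun z => p (z - 1) := ⟨_, rfl⟩
  have hPa : ∀ j z, P (D.s j z) = - P z := by
    intro j z
    rw [hP, hs']
    have h1 := hp (z - 1) j
    have h2 : z - 1 - ((z - 1) j + 1) • S.rtw j = z - z j • S.rtw j - 1 := by
      have h3 : (z - 1) j + 1 = z j := by
        rw [Pi.sub_apply, Pi.one_apply]
        ring
      rw [h3]
      abel
    rw [h2] at h1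
    exact h1
  have hUsgn : ∀ ka, S.Delta.coeff ka ≠ 0 → S.Delta.coeff ka = (-1) ^ (U ka).length := by
    intro ka hk
    have h1 : A (ka + 1) = S.Delta.coeff ka := by
      rw [hA]
      simp only [add_sub_cancel_right]
    have h2 := anti_sR hAa (U ka) (ka + 1)
    rw [hU ka hk, hA1, h1] at h2
    have h3 : ((-1 : ℤ) ^ (U ka).length) * (-1) ^ (U ka).length = 1 := by
      rw [← mul_pow]
      norm_num
    calc S.Delta.coeff ka = ((-1) ^ (U ka).length * (-1) ^ (U ka).length) * S.Delta.coeff ka := by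
          rw [h3, one_mul]
      _ = (-1) ^ (U ka).length * ((-1) ^ (U ka).length * S.Delta.coeff ka) := by ring
      _ = _ := by rw [← h2, mul_one]
  -- regularity
  have hreg : ∀ (w : List (Fin n)) (y : Fin n → ℤ), (∀ j, 1 ≤ y j) → (∀ j, 1 ≤ D.sR w y j) →
      ∀ x, D.sR w x = x := by
    intro w y hy hy'
    refine (hdel3 w y ?_ ?_).1
    · intro j
      rw [hco]
      have := hy j
      omega
    · intro j
      rw [hco]
      have := hy' j
      omega
  -- the left side
  have hL : ((f : GR (Fin n)) * S.Delta).coeff.sum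
      (fun mu c => if ∀ i, 0 ≤ mu i then (c : K) * p mu else 0) =
      pairK (fun mu => if ∀ i, 0 ≤ mu i then p mu else 0) ((f : GR (Fin n)) * S.Delta) := by
    rw [pairK_apply]
    refine Finsupp.sum_congr fun mu _ => ?_
    split_ifs
    · rfl
    · rw [mul_zero]
  have hcz : ∀ m : ℤ, (m : K) ≠ 0 ↔ m ≠ 0 := fun m => Int.cast_ne_zero
  rw [hL, pairK_mul, ← sum_product', Finsupp.sum]
  refine sum_bij_ne_zero (fun a _ _ => D.sR (U a.2) a.1) ?_ ?_ ?_ ?_
  · intro a ha _
    rw [mem_product] at ha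
    rw [Finsupp.mem_support_iff, inv_sR hfinv]
    exact Finsupp.mem_support_iff.1 ha.1
  · rintro ⟨mu, ka⟩ h1 h2 ⟨mu', ka'⟩ h1' h2' heq
    rw [mem_product, Finsupp.mem_support_iff, Finsupp.mem_support_iff] at h1 h1'
    dsimp only at h1 h1' h2 h2' heq ⊢
    have hd : ∀ i, 0 ≤ (mu + ka) i := by
      by_contra h
      rw [if_neg h, mul_zero] at h2
      exact h2 rfl
    have hd' : ∀ i, 0 ≤ (mu' + ka') i := by
      by_contra h
      rw [if_neg h, mul_zero] at h2'
      exact h2' rfl
    have e1 : D.sR (U ka) (mu + (ka + 1)) = D.sR (U ka') (mu' + (ka' + 1)) := by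
      rw [hd6 (U ka) mu (ka + 1), hd6 (U ka') mu' (ka' + 1), heq, hU ka h1.2, hU ka' h1'.2]
    have e2 : D.sR (U ka ++ (U ka').reverse) (mu + (ka + 1)) = mu' + (ka' + 1) := by
      rw [hd9, e1, (hd5 _ _).1]
    have e3 := hreg (U ka ++ (U ka').reverse) (mu + (ka + 1)) (by
      intro j
      have := hd j
      simp only [Pi.add_apply, Pi.one_apply] at this ⊢
      omega) (by
      intro j
      rw [e2]
      have := hd' j
      simp only [Pi.add_apply, Pi.one_apply] at this ⊢
      omega)
    have e4 : mu' = mu := by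
      have h3 := e3 mu
      rw [hd9, heq, (hd5 _ _).1] at h3
      exact h3
    have e5 : ka' + 1 = ka + 1 := by
      have h3 := e3 (ka + 1)
      rw [hd9, hU ka h1.2] at h3
      have e6 : D.sR (U ka').reverse (D.sR (U ka') (ka' + 1)) = ka' + 1 := (hd5 _ _).1
      rw [hU ka' h1'.2] at e6
      exact e6.symm.trans h3
    rw [e4, add_right_cancel e5]
  · intro m hm hne
    rw [Finsupp.mem_support_iff] at hm
    have hpm : p m ≠ 0 := fun h => hne (by rw [h, mul_zero])
    have hPm : P (m + 1) ≠ 0 := by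
      rw [hP]
      simp only [add_sub_cancel_right]
      exact hpm
    obtain ⟨v, hv⟩ := exists_word hco hT hred hPa (m + 1) hPm
    have hka : S.Delta.coeff (D.sR v 1 - 1) ≠ 0 := by
      have h1 := anti_sR hAa v 1
      rw [hA1, mul_one] at h1
      rw [hA] at h1
      have h2 : S.Delta.coeff (D.sR v 1 - 1) = (-1) ^ v.length := h1
      rw [h2]
      exact negone_pow_ne _
    have hfm : (f : GR (Fin n)).coeff (D.sR v m) ≠ 0 := by
      rw [inv_sR hfinv]
      exact hm
    have hsum : D.sR v m + (D.sR v 1 - 1) = D.sR v (m + 1) - 1 := by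
      rw [hd6]
      abel
    have hp' : p (D.sR v (m + 1) - 1) ≠ 0 := by
      have h1 := anti_sR hPa v (m + 1)
      have h2 : p (D.sR v (m + 1) - 1) = P (D.sR v (m + 1)) := by rw [hP]
      rw [h2, h1]
      exact mul_ne_zero (negone_pow_ne _) hPm
    refine ⟨(D.sR v m, D.sR v 1 - 1), ?_, ?_, ?_⟩
    · rw [mem_product, Finsupp.mem_support_iff, Finsupp.mem_support_iff]
      exact ⟨hfm, hka⟩
    · dsimp only
      rw [hsum, if_pos]
      · exact mul_ne_zero ((hcz _).2 (mul_ne_zero hfm hka)) hp'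
      · intro i
        rw [Pi.sub_apply, Pi.one_apply]
        have := hv i
        omega
    · dsimp only
      have h1 := hU _ hka
      rw [sub_add_cancel] at h1
      have h2 := hreg (v ++ U (D.sR v 1 - 1)) 1 (fun j => le_rfl) (by
        intro j
        rw [hd9, h1]
        exact le_rfl) m
      rw [hd9] at h2
      exact h2
  · rintro ⟨mu, ka⟩ h1 h2
    rw [mem_product, Finsupp.mem_support_iff, Finsupp.mem_support_iff] at h1
    dsimp only at h1 h2 ⊢
    have hd : ∀ i, 0 ≤ (mu + ka) i := by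
      by_contra h
      rw [if_neg h, mul_zero] at h2
      exact h2 rfl
    rw [if_pos hd, inv_sR hfinv]
    have e1 : p (D.sR (U ka) mu) = (-1) ^ (U ka).length * p (mu + ka) := by
      have h3 := anti_sR hPa (U ka) (mu + (ka + 1))
      rw [hd6, hU ka h1.2, hP] at h3
      simp only at h3
      rw [add_sub_cancel_right, ← add_assoc, add_sub_cancel_right] at h3
      exact h3
    rw [e1, hUsgn ka h1.2]
    push_cast
    ring

theorem main : RDat.S_len → RDat.N_red → RDat.N_desc → RDat.N_del → RDat.N_link → GD.H_fin →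
    GD.H_AB := by
  intro _ hred hdesc hdel _ hfin n S hS
  obtain ⟨h1, h2⟩ := core (K := ℤ) hred hdesc hdel hfin n S hS
  obtain ⟨h3, -⟩ := core (K := ℝ) hred hdesc hdel hfin n S hS
  refine ⟨?_, ?_, h2, fun ka i => delta_coeff S hS i ka⟩
  · intro f p hp
    have h := h1 f p hp
    simp only [Int.cast_id] at h
    rw [pair_apply]
    exact h
  · intro f p hp
    exact h3 f p hp

end H391.KR.P_hab
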