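import Pool.Agent.H391.KR.GV

/-!
# KR-hmem: the representation ring as the ring of invariant elements of level zero
-/

noncomputable section

namespace H391.KR.P_hmem

open Finset H391.KR H391.KR.GD

theorem aw0_inj {n : ℕ} : Function.Injective (aw0 : (Fin n → ℤ) →+ (Option (Fin n) → ℤ)) := by
  intro x y h
  funext i
  exact congrFun h (some i)

theorem push_coeff {ι κ : Type} (g : (ι → ℤ) →+ (κ → ℤ)) (hg : Function.Injective g) (f : GR ι)
    (x : ι → ℤ) : (push g f).coeff (g x) = f.coeff x :=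
  Finsupp.mapDomain_apply hg f.coeff x

theorem push_coeff0 {n : ℕ} (f : GR (Fin n)) (x : Option (Fin n) → ℤ) (hx : x none ≠ 0) :
    (push aw0 f).coeff x = 0 := by
  refine Finsupp.mapDomain_of_notMem_range f.coeff x ?_
  rintro ⟨y, rfl⟩
  exact hx rfl

theorem eq_aw0 {n : ℕ} {x : Option (Fin n) → ℤ} (hx : x none = 0) : x = aw0 (fp x) := by
  funext o
  cases o with
  | none => exact hx
  | some i => rfl

theorem refl_refl {n : ℕ} (S : GD n) (hS : S.OK) (i : Fin n) (mu : Fin n → ℤ) :
    S.refl i (S.refl i mu) = mu := by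
  have h1 : S.refl i mu i = - mu i := by
    show mu i - mu i * S.C i i = - mu i
    rw [hS.diag]
    ring
  show S.refl i mu - (S.refl i mu i) • S.rtw i = mu
  rw [h1]
  show mu - mu i • S.rtw i - (- mu i) • S.rtw i = mu
  rw [neg_smul]
  abel

theorem refl_inj {n : ℕ} (S : GD n) (hS : S.OK) (i : Fin n) : Function.Injective (S.refl i) :=
  (Function.LeftInverse.injective (refl_refl S hS i))

theorem mem_Rep {n : ℕ} (S : GD n) (hS : S.OK) (f : GR (Fin n)) :
    f ∈ S.Rep ↔ ∀ i mu, f.coeff (S.refl i mu) = f.coeff mu := by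
  unfold GD.Rep
  rw [Subring.mem_iInf]
  refine forall_congr' fun i => ?_
  have h0 : f ∈ (push (S.refl i)).eqLocus (RingHom.id (GR (Fin n))) ↔ push (S.refl i) f = f :=
    Iff.rfl
  rw [h0]
  constructor
  · intro h mu
    have h1 := push_coeff (S.refl i) (refl_inj S hS i) f mu
    rwa [h] at h1
  · intro h
    ext nu
    have h1 := push_coeff (S.refl i) (refl_inj S hS i) f (S.refl i nu)
    rw [refl_refl S hS] at h1
    rw [h1, h nu]

theorem s_aw0 {n : ℕ} (S : GD n) {D : RDat (Option (Fin n)) (Option (Fin n))} (hD : S.AffDat D)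
    (j : Fin n) (mu : Fin n → ℤ) : D.s (some j) (aw0 mu) = aw0 (S.refl j mu) := by
  unfold RDat.s
  rw [hD.co, hD.al]
  funext o
  cases o with
  | none =>
    show (0 : ℤ) - mu j * 0 = 0
    ring
  | some i => rfl

theorem s_none {n : ℕ} (S : GD n) {D : RDat (Option (Fin n)) (Option (Fin n))} (hD : S.AffDat D)
    (j : Fin n) (x : Option (Fin n) → ℤ) : (D.s (some j) x) none = x none := by
  unfold RDat.s
  rw [hD.al]
  show x none - D.co (some j) x * 0 = x none
  ring

theorem main : GD.G_inv0 → GD.H_mem := by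
  intro hC n S hS D hD
  refine ⟨?_, ?_, ?_⟩
  · intro f
    have hf := (mem_Rep S hS (f : GR (Fin n))).1 f.2
    refine hC n S hS D hD _ (fun j x => ?_) (fun x hx => ?_)
    · by_cases h : x none = 0
      · rw [eq_aw0 h, s_aw0 S hD, push_coeff aw0 aw0_inj, push_coeff aw0 aw0_inj]
        exact hf j _
      · rw [push_coeff0 _ x h, push_coeff0 _ _ (by rw [s_none S hD]; exact h)]
    · by_contra h
      exact hx (push_coeff0 _ x h)
  · intro g hg
    obtain ⟨f, hf⟩ : ∃ f : GR (Fin n), ∀ mu, f.coeff mu = g.coeff (aw0 mu) :=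
      ⟨AddMonoidAlgebra.comapDomain aw0 aw0_inj g, fun mu => rfl⟩
    have hpf : push aw0 f = g := by
      ext x
      by_cases h : x none = 0
      · rw [eq_aw0 h, push_coeff aw0 aw0_inj, hf]
      · rw [push_coeff0 _ x h]
        by_contra h2
        exact h (hg.2 x (Ne.symm h2))
    refine ⟨⟨f, (mem_Rep S hS f).2 fun i mu => ?_⟩, hpf⟩
    rw [hf, hf, ← s_aw0 S hD]
    exact hg.1 (some i) _
  · intro f g h
    ext mu
    rw [← push_coeff aw0 aw0_inj f, h, push_coeff aw0 aw0_inj g]

end H391.KR.P_hmem
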