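import Pool.Agent.H391.KR.GV

/-!
# The quantum dimension is a continuous family of ring homomorphisms (H391/KR, task hmul)
-/

noncomputable section

namespace H391.KR.P_hmul

open Finset H391.KR

variable {n : ℕ} (S : GD n)

theorem pos_fin (h : S.OK) : S.pos.Finite := h.fin.subset fun _ ha => ha.1

theorem cc_add (h : S.OK) (mu nu : Fin n → ℤ) : S.cc (mu + nu) = S.cc mu + S.cc nu := by
  unfold GD.cc
  rw [← finsum_mem_add_distrib (pos_fin S h)]
  refine finsum_mem_congr rfl fun a _ => ?_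
  have e : dot a (mu + nu) = dot a mu + dot a nu := by
    unfold dot
    rw [← Finset.sum_add_distrib]
    exact sum_congr rfl fun i _ => by rw [Pi.add_apply, mul_add]
  rw [e, Int.cast_add, add_div]

theorem cc_zero (h : S.OK) : S.cc 0 = 0 := by
  have := cc_add S h 0 0
  rw [add_zero] at this
  linarith

/-- the character -/
def ch (h : S.OK) (τ : ℝ) : Multiplicative (Fin n → ℤ) →* ℂ where
  toFun mu := Complex.exp (Complex.I * (τ * S.cc mu.toAdd : ℝ))
  map_one' := by
    rw [toAdd_one, cc_zero S h, mul_zero, Complex.ofReal_zero, mul_zero, Complex.exp_zero]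
  map_mul' := by
    intro x y
    rw [toAdd_mul, cc_add S h, ← Complex.exp_add]
    congr 1
    push_cast
    ring

/-- evaluation -/
def V (h : S.OK) (τ : ℝ) : GR (Fin n) →+* ℂ :=
  (AddMonoidAlgebra.lift ℤ ℂ (Fin n → ℤ) (ch S h τ)).toRingHom

theorem V_eq (h : S.OK) (τ : ℝ) (f : GR (Fin n)) : V S h τ f =
    f.coeff.sum fun mu c => (c : ℂ) * Complex.exp (Complex.I * (τ * S.cc mu : ℝ)) := by
  have e := AddMonoidAlgebra.lift_apply (ch S h τ) f
  refine e.trans ?_
  refine Finsupp.sum_congr fun mu _ => ?_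
  rw [zsmul_eq_mul]
  rfl

theorem main : GD.H_AB → GD.H_sin → GD.H_ev → GD.H_mul := by
  intro _ hsin hev n S h
  refine ⟨fun τ h1 h2 => ?_, fun f => ?_, fun f la hla hne hnn => ?_⟩
  · have key : ∀ f : S.Rep, ((S.qdimR τ (f : GR (Fin n)) : ℝ) : ℂ) = V S h τ f := fun f => by
      rw [hev n S h τ h1 h2 f, V_eq]
    have k1 : S.qdimR τ ((1 : S.Rep) : GR (Fin n)) = 1 := by
      apply Complex.ofReal_injective
      rw [key, Subring.coe_one, map_one, Complex.ofReal_one]
    have k2 : ∀ f g : S.Rep, S.qdimR τ ((f * g : S.Rep) : GR (Fin n))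
        = S.qdimR τ (f : GR (Fin n)) * S.qdimR τ (g : GR (Fin n)) := by
      intro f g
      apply Complex.ofReal_injective
      rw [key, Subring.coe_mul, map_mul, Complex.ofReal_mul, key, key]
    have k3 : S.qdimR τ ((0 : S.Rep) : GR (Fin n)) = 0 := by
      apply Complex.ofReal_injective
      rw [key, Subring.coe_zero, map_zero, Complex.ofReal_zero]
    have k4 : ∀ f g : S.Rep, S.qdimR τ ((f + g : S.Rep) : GR (Fin n))
        = S.qdimR τ (f : GR (Fin n)) + S.qdimR τ (g : GR (Fin n)) := by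
      intro f g
      apply Complex.ofReal_injective
      rw [key, Subring.coe_add, map_add, Complex.ofReal_add, key, key]
    exact ⟨⟨⟨⟨fun f => S.qdimR τ (f : GR (Fin n)), k1⟩, k2⟩, k3, k4⟩, fun f => rfl⟩
  · have hc : Continuous fun τ : ℝ => ((f : GR (Fin n)).coeff.sum fun mu c =>
        (c : ℂ) * Complex.exp (Complex.I * (τ * S.cc mu : ℝ))).re := by
      refine Complex.continuous_re.comp ?_
      unfold Finsupp.sum
      refine continuous_finsetSum _ fun mu _ => ?_
      fun_prop
    refine hc.continuousOn.congr fun τ hτ => ?_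
    simp only
    rw [← hev n S h τ hτ.1 hτ.2 f, Complex.ofReal_re]
  · obtain ⟨-, -, -, -, h5⟩ := hsin n S h
    have hlim : ∀ a b : ℝ, ∀ᶠ τ in nhds (0 : ℝ), τ * a / b < Real.pi := by
      intro a b
      have hc : Filter.Tendsto (fun τ : ℝ => τ * a / b) (nhds 0) (nhds (0 * a / b)) :=
        Continuous.tendsto (by fun_prop) 0
      rw [zero_mul, zero_div] at hc
      exact hc.eventually_lt_const Real.pi_pos
    have hall : ∀ᶠ τ in nhds (0 : ℝ), τ * (S.hv : ℝ) / 1 < Real.pi ∧
        ∀ mu ∈ ((f : GR (Fin n)) * S.Delta).coeff.support, ∀ a ∈ S.pos,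
          τ * (∑ i, a i * (mu i + 1) : ℤ) / (S.tt a : ℤ) < Real.pi := by
      refine (hlim _ _).and ?_
      refine (Filter.eventually_all_finset _).2 fun mu _ => ?_
      exact (Filter.eventually_all_finite (pos_fin S h)).2 fun a _ => hlim _ _
    obtain ⟨e, he, hb⟩ := Metric.eventually_nhds_iff.1 hall
    refine ⟨e, he, fun τ t1 t2 => ?_⟩
    obtain ⟨b1, b2⟩ := hb (show dist τ 0 < e by rw [Real.dist_eq, sub_zero, abs_of_pos t1]; exact t2)
    rw [div_one] at b1
    have hq : ∀ mu ∈ ((f : GR (Fin n)) * S.Delta).coeff.support, (∀ i, 0 ≤ mu i) →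
        0 < S.qdR τ mu := fun mu hmu hd => h5 τ t1 b1.le mu hd (b2 mu hmu)
    unfold GD.qdimR Finsupp.sum
    refine Finset.sum_pos' (fun mu hmu => ?_) ⟨la, Finsupp.mem_support_iff.2 hne, ?_⟩
    · beta_reduce
      split_ifs with hd
      · exact mul_nonneg (by exact_mod_cast hnn mu hd) (hq mu hmu hd).le
      · exact le_rfl
    · beta_reduce
      rw [if_pos hla]
      have h0 : (0 : ℝ) < (((f : GR (Fin n)) * S.Delta).coeff la : ℤ) := by
        exact_mod_cast lt_of_le_of_ne (hnn la hla) (Ne.symm hne)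
      exact mul_pos h0 (hq la (Finsupp.mem_support_iff.2 hne) hla)

end H391.KR.P_hmul
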