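import Pool.Agent.H391.KR.GT

namespace H391.KR.P_tf4fin

open Finset
open H391.KR

theorem t0 : (F4.t 0).toNat = 1 := rfl
theorem t1 : (F4.t 1).toNat = 1 := rfl
theorem t2 : (F4.t 2).toNat = 2 := rfl
theorem t3 : (F4.t 3).toNat = 2 := rfl

theorem nb2 (Q : Fin 4 → ℕ → F4.RepR) (m : ℕ) :
    F4.qnb Q 2 m = Q 1 (m / 2) * Q 1 ((m + 1) / 2) * Q 3 m := by
  unfold GD.qnb
  rw [Fin.prod_univ_four]
  have c20 : (-(F4.C 2 0)).toNat = 0 := rfl
  have c21 : (-(F4.C 2 1)).toNat = 2 := rfl
  have c22 : (-(F4.C 2 2)).toNat = 0 := rfl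
  have c23 : (-(F4.C 2 3)).toNat = 1 := rfl
  have c12 : (-(F4.C 1 2)).toNat = 1 := rfl
  have c32 : (-(F4.C 3 2)).toNat = 1 := rfl
  rw [c20, c21, c22, c23, c12, c32]
  simp only [Finset.range_zero, Finset.prod_empty, one_mul, mul_one, Finset.prod_range_succ,
    Nat.div_one, add_zero]

theorem nb3 (Q : Fin 4 → ℕ → F4.RepR) (m : ℕ) : F4.qnb Q 3 m = Q 2 m := by
  unfold GD.qnb
  rw [Fin.prod_univ_four]
  have c20 : (-(F4.C 3 0)).toNat = 0 := rfl
  have c21 : (-(F4.C 3 1)).toNat = 0 := rfl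
  have c22 : (-(F4.C 3 2)).toNat = 1 := rfl
  have c23 : (-(F4.C 3 3)).toNat = 0 := rfl
  have c32 : (-(F4.C 2 3)).toNat = 1 := rfl
  rw [c20, c21, c22, c23, c32]
  simp only [Finset.range_zero, Finset.prod_empty, one_mul, mul_one, Finset.prod_range_succ,
    Nat.div_one, add_zero]

theorem main : GD.T_F4 → GD.T_lev → GD.T_F4fin := by
  intro hF hlev Q hQ k hk i
  obtain ⟨h1, h2, h3, h4, h5, e, he⟩ := hlev 4 F4 hF Q hQ k (by omega)
  have hzero : ∀ i, F4.qdim k (Q i 0) = 1 := by
    intro i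
    rw [hQ.zero i, ← he, map_one]
  -- the numbers
  set p : ℕ → ℝ := fun m => F4.qdim k (Q 0 m) with hp
  set r : ℕ → ℝ := fun m => F4.qdim k (Q 1 m) with hr
  set x : ℕ → ℝ := fun m => F4.qdim k (Q 2 m) with hx
  set y : ℕ → ℝ := fun m => F4.qdim k (Q 3 m) with hy
  have p1 : ∀ m, m ≤ k → 0 < p m := fun m hm => by
    have h := h1 0 m hm
    rw [t0, one_mul] at h
    exact h
  have r1 : ∀ m, m ≤ k → 0 < r m := fun m hm => by
    have h := h1 1 m hm
    rw [t1, one_mul] at h
    exact h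
  have x1 : ∀ m, m ≤ k → 0 < x (2 * m) := fun m hm => by
    have h := h1 2 m hm
    rw [t2] at h
    exact h
  have y1 : ∀ m, m ≤ k → 0 < y (2 * m) := fun m hm => by
    have h := h1 3 m hm
    rw [t3] at h
    exact h
  have p2 : p k = 1 := by
    have h := h2 0
    rw [t0, one_mul] at h
    exact h
  have r2 : r k = 1 := by
    have h := h2 1
    rw [t1, one_mul] at h
    exact h
  have x2 : x (2 * k) = 1 := by
    have h := h2 2
    rw [t2] at h
    exact h
  have y2 : y (2 * k) = 1 := by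
    have h := h2 3
    rw [t3] at h
    exact h
  have p3 : p (k + 1) = 0 := by
    have h := h3 0
    rw [t0, one_mul] at h
    exact h
  have r3 : r (k + 1) = 0 := by
    have h := h3 1
    rw [t1, one_mul] at h
    exact h
  have x4 : ∀ m, m ≤ k → 0 ≤ x (2 * m) ^ 2 - r m ^ 2 * y (2 * m) := fun m hm => by
    have h := h4 2 m hm
    rw [Fin.prod_univ_four] at h
    have c20 : (-(F4.C 2 0)).toNat = 0 := rfl
    have c21 : (-(F4.C 2 1)).toNat = 2 := rfl
    have c22 : (-(F4.C 2 2)).toNat = 0 := rfl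
    have c23 : (-(F4.C 2 3)).toNat = 1 := rfl
    rw [c20, c21, c22, c23, t0, t1, t2, t3, pow_zero, pow_zero, pow_one, one_mul, one_mul,
      mul_one] at h
    exact h
  have y4 : ∀ m, m ≤ k → 0 ≤ y (2 * m) ^ 2 - x (2 * m) := fun m hm => by
    have h := h4 3 m hm
    rw [Fin.prod_univ_four] at h
    have c20 : (-(F4.C 3 0)).toNat = 0 := rfl
    have c21 : (-(F4.C 3 1)).toNat = 0 := rfl
    have c22 : (-(F4.C 3 2)).toNat = 1 := rfl
    have c23 : (-(F4.C 3 3)).toNat = 0 := rfl
    rw [c20, c21, c22, c23, t0, t1, t2, t3, pow_zero, pow_zero, pow_zero, pow_one, one_mul, one_mul,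
      mul_one] at h
    exact h
  -- the Q-system
  have xq : ∀ m, x (m + 1) ^ 2 = x (m + 2) * x m + r ((m + 1) / 2) * r ((m + 2) / 2) * y (m + 1) := by
    intro m
    have h := hQ.qsys 2 m
    rw [nb2] at h
    have h' := congrArg e h
    rw [map_mul, map_add, map_mul, map_mul, map_mul, he, he, he, he, he, he] at h'
    rw [pow_two]
    exact h'
  have yq : ∀ m, y (m + 1) ^ 2 = y (m + 2) * y m + x (m + 1) := by
    intro m
    have h := hQ.qsys 3 m
    rw [nb3] at h
    have h' := congrArg e h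
    rw [map_mul, map_add, map_mul, he, he, he, he] at h'
    rw [pow_two]
    exact h'
  have xe : ∀ m, 1 ≤ m → x (2 * m + 1) * x (2 * m - 1) = x (2 * m) ^ 2 - r m ^ 2 * y (2 * m) := by
    intro m hm
    obtain ⟨j, rfl⟩ : ∃ j, m = j + 1 := ⟨m - 1, by omega⟩
    have h := xq (2 * j + 1)
    rw [show (2 * j + 1 + 1) / 2 = j + 1 by omega, show (2 * j + 1 + 2) / 2 = j + 1 by omega,
      show 2 * j + 1 + 1 = 2 * (j + 1) by ring, show 2 * j + 1 + 2 = 2 * (j + 1) + 1 by ring] at h
    rw [show 2 * (j + 1) - 1 = 2 * j + 1 by omega, h]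
    ring
  have ye : ∀ m, 1 ≤ m → y (2 * m + 1) * y (2 * m - 1) = y (2 * m) ^ 2 - x (2 * m) := by
    intro m hm
    obtain ⟨j, rfl⟩ : ∃ j, m = j + 1 := ⟨m - 1, by omega⟩
    have h := yq (2 * j + 1)
    rw [show 2 * j + 1 + 1 = 2 * (j + 1) by ring, show 2 * j + 1 + 2 = 2 * (j + 1) + 1 by ring] at h
    rw [show 2 * (j + 1) - 1 = 2 * j + 1 by omega, h]
    ring
  have xo : ∀ m, x (2 * m + 1) ^ 2 = x (2 * (m + 1)) * x (2 * m) + r m * r (m + 1) * y (2 * m + 1) := by
    intro m
    have h := xq (2 * m)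
    rw [show (2 * m + 1) / 2 = m by omega, show (2 * m + 2) / 2 = m + 1 by omega,
      show 2 * m + 2 = 2 * (m + 1) by ring] at h
    exact h
  have yo : ∀ m, y (2 * m + 1) ^ 2 = y (2 * (m + 1)) * y (2 * m) + x (2 * m + 1) := by
    intro m
    have h := yq (2 * m)
    rw [show 2 * m + 2 = 2 * (m + 1) by ring] at h
    exact h
  -- the odd indices
  have key : ∀ m, m < k → 0 < x (2 * m + 1) ∧ 0 < y (2 * m + 1) := by
    intro m
    induction m with
    | zero =>
      intro _
      constructor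
      · refine h5 2 1 ?_
        have : F4.th 2 = 2 := rfl
        rw [this]
        push_cast
        omega
      · refine h5 3 1 ?_
        have : F4.th 3 = 1 := rfl
        rw [this]
        push_cast
        omega
    | succ m ih =>
      intro hm
      obtain ⟨i1, i2⟩ := ih (by omega)
      have a1 := xe (m + 1) (by omega)
      have a2 := ye (m + 1) (by omega)
      rw [show 2 * (m + 1) - 1 = 2 * m + 1 by omega] at a1 a2
      have b1 := x4 (m + 1) (by omega)
      have b2 := y4 (m + 1) (by omega)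
      have c1 : 0 ≤ x (2 * (m + 1) + 1) := by
        by_contra hneg
        push Not at hneg
        have := mul_neg_of_neg_of_pos hneg i1
        linarith
      have c2 : 0 ≤ y (2 * (m + 1) + 1) := by
        by_contra hneg
        push Not at hneg
        have := mul_neg_of_neg_of_pos hneg i2
        linarith
      have d1 := xo (m + 1)
      have d2 := yo (m + 1)
      have e1 : 0 < x (2 * (m + 1 + 1)) * x (2 * (m + 1)) :=
        mul_pos (x1 _ (by omega)) (x1 _ (by omega))
      have e2 : 0 < y (2 * (m + 1 + 1)) * y (2 * (m + 1)) :=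
        mul_pos (y1 _ (by omega)) (y1 _ (by omega))
      have e3 : 0 ≤ r (m + 1) * r (m + 1 + 1) * y (2 * (m + 1) + 1) :=
        mul_nonneg (mul_nonneg (r1 _ (by omega)).le (r1 _ (by omega)).le) c2
      constructor
      · refine lt_of_le_of_ne c1 (fun h => ?_)
        rw [← h] at d1
        norm_num at d1
        linarith
      · refine lt_of_le_of_ne c2 (fun h => ?_)
        rw [← h] at d2
        norm_num at d2
        linarith
  have xlast : x (2 * k + 1) = 0 := by
    have a1 := xe k (by omega)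
    rw [x2, y2, r2] at a1
    norm_num at a1
    rcases a1 with h | h
    · exact h
    · have h6 := (key (k - 1) (by omega)).1
      rw [show 2 * (k - 1) + 1 = 2 * k - 1 by omega] at h6
      exact absurd h h6.ne'
  have ylast : y (2 * k + 1) = 0 := by
    have a1 := ye k (by omega)
    rw [x2, y2] at a1
    norm_num at a1
    rcases a1 with h | h
    · exact h
    · have h6 := (key (k - 1) (by omega)).2
      rw [show 2 * (k - 1) + 1 = 2 * k - 1 by omega] at h6
      exact absurd h h6.ne'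
  have xpos : ∀ m, m ≤ 2 * k → 0 < x m := by
    intro m hm
    rcases Nat.even_or_odd' m with ⟨j, hj | hj⟩
    · rw [hj]
      exact x1 j (by omega)
    · rw [hj]
      exact (key j (by omega)).1
  have ypos : ∀ m, m ≤ 2 * k → 0 < y m := by
    intro m hm
    rcases Nat.even_or_odd' m with ⟨j, hj | hj⟩
    · rw [hj]
      exact y1 j (by omega)
    · rw [hj]
      exact (key j (by omega)).2
  have q0 : F4.QD Q k 0 := by
    unfold GD.QD
    rw [t0, one_mul]
    exact ⟨p1, hzero 0, p2, p3⟩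
  have q1 : F4.QD Q k 1 := by
    unfold GD.QD
    rw [t1, one_mul]
    exact ⟨r1, hzero 1, r2, r3⟩
  have q2 : F4.QD Q k 2 := by
    unfold GD.QD
    rw [t2]
    exact ⟨xpos, hzero 2, x2, xlast⟩
  have q3 : F4.QD Q k 3 := by
    unfold GD.QD
    rw [t3]
    exact ⟨ypos, hzero 3, y2, ylast⟩
  fin_cases i
  · exact q0
  · exact q1
  · exact q2
  · exact q3

end H391.KR.P_tf4fin
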