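import Pool.Agent.H391.KR.GT

noncomputable section

namespace H391.KR.P_tg2a

open Real Finset H391.KR

/-- `R` -/
def RR (τ : ℝ) : ℝ := sin (3 * τ) * cos (τ / 3) / sin (2 * τ) - 1 / 2

def DD (τ : ℝ) : ℝ :=
  sin τ * sin (2 * τ) * sin (3 * τ) * sin (4 * τ / 3) * sin (5 * τ / 3)

def PP (τ y : ℝ) : ℝ :=
  sin (y - τ) * sin (y + τ) * sin y ^ 2 * (RR τ - cos (2 * y)) / (2 * DD τ * sin (3 * τ))

theorem key (τ y : ℝ) (h : sin (2 * τ) ≠ 0) :
    sin (y + τ) * sin y * (RR τ - cos (2 * y)) -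
      sin (y - 2 * τ) * sin (y - τ) * (RR τ - cos (2 * y - 2 * τ)) =
    2 * sin (3 * τ) * (sin (2 * y - τ) * (sin (y - 2 * τ / 3) * sin (y - τ / 3))) := by
  have hR : RR τ * sin (2 * τ) = sin (3 * τ) * cos (τ / 3) - sin (2 * τ) / 2 := by
    unfold RR
    have hi : sin (2 * τ) * (sin (2 * τ))⁻¹ = 1 := mul_inv_cancel₀ h
    rw [div_eq_mul_inv]
    linear_combination (sin (3 * τ) * cos (τ / 3)) * hi
  have e1 : sin (y + τ) * sin y = (cos τ - cos (2 * y - τ + 2 * τ)) / 2 := by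
    have a := Real.cos_sub (y + τ) y
    have b := Real.cos_add (y + τ) y
    have c : y + τ - y = τ := by ring
    have d : y + τ + y = 2 * y - τ + 2 * τ := by ring
    rw [c] at a; rw [d] at b; linarith
  have e2 : sin (y - 2 * τ) * sin (y - τ) = (cos τ - cos (2 * y - τ - 2 * τ)) / 2 := by
    have a := Real.cos_sub (y - τ) (y - 2 * τ)
    have b := Real.cos_add (y - τ) (y - 2 * τ)
    have c : y - τ - (y - 2 * τ) = τ := by ring
    have d : y - τ + (y - 2 * τ) = 2 * y - τ - 2 * τ := by ring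
    rw [c] at a; rw [d] at b; linarith
  have e3 : sin (y - 2 * τ / 3) * sin (y - τ / 3) = (cos (τ / 3) - cos (2 * y - τ)) / 2 := by
    have a := Real.cos_sub (y - τ / 3) (y - 2 * τ / 3)
    have b := Real.cos_add (y - τ / 3) (y - 2 * τ / 3)
    have c : y - τ / 3 - (y - 2 * τ / 3) = τ / 3 := by ring
    have d : y - τ / 3 + (y - 2 * τ / 3) = 2 * y - τ := by ring
    rw [c] at a; rw [d] at b; linarith
  have e4 : cos (2 * y) = cos (2 * y - τ + τ) := by congr 1; ring
  have e5 : cos (2 * y - 2 * τ) = cos (2 * y - τ - τ) := by congr 1; ring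
  rw [e1, e2, e3, e4, e5]
  have s3 : sin (3 * τ) = sin (2 * τ) * cos τ + cos (2 * τ) * sin τ := by
    rw [← Real.sin_add]; congr 1; ring
  have s2 : sin (2 * τ) = 2 * sin τ * cos τ := Real.sin_two_mul τ
  rw [Real.cos_add (2 * y - τ) (2 * τ), Real.cos_sub (2 * y - τ) (2 * τ),
    Real.cos_add (2 * y - τ) τ, Real.cos_sub (2 * y - τ) τ]
  set w := 2 * y - τ
  linear_combination (sin w) * hR + (sin w * cos w) * s3 - (sin w / 2) * s2

theorem step (τ y : ℝ) (h2 : sin (2 * τ) ≠ 0) (h3 : sin (3 * τ) ≠ 0) :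
    PP τ y - PP τ (y - τ) = sin (y - τ) * sin y * sin (2 * y - τ) * sin (y - 2 * τ / 3) *
      sin (y - τ / 3) / DD τ := by
  have k := key τ y h2
  have e1 : y - τ - τ = y - 2 * τ := by ring
  have e2 : y - τ + τ = y := by ring
  have e3 : 2 * (y - τ) = 2 * y - 2 * τ := by ring
  have hS : sin (3 * τ) * (sin (3 * τ))⁻¹ = 1 := mul_inv_cancel₀ h3
  unfold PP
  rw [e1, e2, e3]
  simp only [div_eq_mul_inv (sin (y - τ) * _ * _ * _), div_eq_mul_inv (sin (y - 2 * τ) * _ * _ * _),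
    div_eq_mul_inv _ (DD τ)]
  linear_combination (sin (y - τ) * sin y * (2 * DD τ * sin (3 * τ))⁻¹) * k +
    (sin (y - τ) * sin y * sin (2 * y - τ) * sin (y - 2 * τ / 3) *
      sin (y - τ / 3) * (DD τ)⁻¹) * hS

theorem range_facts (τ : ℝ) (h0 : 0 < τ) (h4 : τ * 4 ≤ π) :
    0 < sin τ ∧ 0 < sin (2 * τ) ∧ 0 < sin (3 * τ) ∧ 0 < DD τ := by
  have hpi := Real.pi_pos
  have a1 : 0 < sin τ := Real.sin_pos_of_pos_of_lt_pi h0 (by linarith)
  have a2 : 0 < sin (2 * τ) := Real.sin_pos_of_pos_of_lt_pi (by linarith) (by linarith)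
  have a3 : 0 < sin (3 * τ) := Real.sin_pos_of_pos_of_lt_pi (by linarith) (by linarith)
  have a4 : 0 < sin (4 * τ / 3) := Real.sin_pos_of_pos_of_lt_pi (by linarith) (by linarith)
  have a5 : 0 < sin (5 * τ / 3) := Real.sin_pos_of_pos_of_lt_pi (by linarith) (by linarith)
  refine ⟨a1, a2, a3, ?_⟩
  unfold DD; positivity

theorem PP_self (τ : ℝ) : PP τ τ = 0 := by
  unfold PP; simp

theorem pG_eq (τ : ℝ) (h0 : 0 < τ) (h4 : τ * 4 ≤ π) (m : ℕ) :
    GD.pG τ m = PP τ ((m + 2) * τ) := by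
  obtain ⟨_, a2, a3, a6⟩ := range_facts τ h0 h4
  have term : ∀ j : ℕ, sin ((j + 1) * τ) * sin ((j + 2) * τ) * sin ((2 * j + 3) * τ) *
      sin ((3 * j + 4) * τ / 3) * sin ((3 * j + 5) * τ / 3) /
      (sin τ * sin (2 * τ) * sin (3 * τ) * sin (4 * τ / 3) * sin (5 * τ / 3)) =
      PP τ ((j + 2) * τ) - PP τ ((j + 1) * τ) := by
    intro j
    have s := step τ (((j : ℝ) + 2) * τ) a2.ne' a3.ne'
    have e1 : ((j : ℝ) + 2) * τ - τ = (j + 1) * τ := by ring
    have e2 : 2 * (((j : ℝ) + 2) * τ) - τ = (2 * j + 3) * τ := by ring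
    have e3 : ((j : ℝ) + 2) * τ - 2 * τ / 3 = (3 * j + 4) * τ / 3 := by ring
    have e4 : ((j : ℝ) + 2) * τ - τ / 3 = (3 * j + 5) * τ / 3 := by ring
    rw [e1, e2, e3, e4] at s
    rw [s]; rfl
  induction m with
  | zero =>
    have := term 0
    unfold GD.pG
    rw [Finset.sum_range_succ, Finset.sum_range_zero, zero_add, this]
    have : ((((0 : ℕ) : ℝ)) + 1) * τ = τ := by push_cast; ring
    rw [this, PP_self, sub_zero]
  | succ m ih =>
    have := term (m + 1)
    unfold GD.pG at ih ⊢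
    rw [Finset.sum_range_succ, ih, this]
    have e : (((m + 1 : ℕ) : ℝ) + 1) * τ = ((m : ℝ) + 2) * τ := by push_cast; ring
    rw [e]; ring

theorem R_gt (τ : ℝ) (h0 : 0 < τ) (h4 : τ * 4 ≤ π) : cos (2 * τ) < RR τ := by
  have hpi := Real.pi_pos
  obtain ⟨_, a2, a3, _⟩ := range_facts τ h0 h4
  have hc : cos τ < cos (τ / 3) :=
    Real.cos_lt_cos_of_nonneg_of_le_pi (by linarith) (by linarith) (by linarith)
  have h1 : sin (3 * τ) * cos τ = sin (2 * τ) * cos (2 * τ) + sin (2 * τ) / 2 := by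
    have s3 : sin (3 * τ) = sin (2 * τ) * cos τ + cos (2 * τ) * sin τ := by
      rw [← Real.sin_add]; congr 1; ring
    have s2 : sin (2 * τ) = 2 * sin τ * cos τ := Real.sin_two_mul τ
    have c2 : cos (2 * τ) = 2 * cos τ ^ 2 - 1 := Real.cos_two_mul τ
    rw [s3]
    linear_combination (-(cos (2 * τ)) / 2) * s2 - (sin (2 * τ) / 2) * c2
  have h2 : sin (3 * τ) * cos τ < sin (3 * τ) * cos (τ / 3) := mul_lt_mul_of_pos_left hc a3
  unfold RR
  rw [lt_sub_iff_add_lt, lt_div_iff₀ a2]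
  nlinarith

theorem R_le (τ : ℝ) (h0 : 0 < τ) (h4 : τ * 4 ≤ π) : RR τ ≤ 1 := by
  have hpi := Real.pi_pos
  obtain ⟨a1, a2, a3, _⟩ := range_facts τ h0 h4
  set c := cos (τ / 3) with hc
  have hc0 : 0 < c := Real.cos_pos_of_mem_Ioo ⟨by linarith, by linarith⟩
  have hc1 : c ≤ 1 := Real.cos_le_one _
  have hcos : cos τ = 4 * c ^ 3 - 3 * c := by
    rw [hc, ← Real.cos_three_mul]; congr 1; ring
  have hs : 3 / 4 ≤ c ^ 2 := by
    have : cos (π / 6) ≤ c := Real.cos_le_cos_of_nonneg_of_le_pi (by linarith) (by linarith)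
      (by linarith)
    rw [Real.cos_pi_div_six] at this
    have h3 : (Real.sqrt 3) ^ 2 = 3 := Real.sq_sqrt (by norm_num)
    have h30 : 0 ≤ Real.sqrt 3 := Real.sqrt_nonneg 3
    nlinarith
  have hs1 : c ^ 2 ≤ 1 := by nlinarith
  have h3 : sin (3 * τ) = sin τ * (4 * cos τ ^ 2 - 1) := by
    rw [Real.sin_three_mul]
    have := Real.sin_sq_add_cos_sq τ
    linear_combination (-4 * sin τ) * this
  have s2 : sin (2 * τ) = 2 * sin τ * cos τ := Real.sin_two_mul τ
  unfold RR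
  rw [sub_le_iff_le_add, div_le_iff₀ a2, h3, s2, hcos]
  have key : (4 * (4 * c ^ 3 - 3 * c) ^ 2 - 1) * c ≤ 3 * (4 * c ^ 3 - 3 * c) := by
    have : 3 * (4 * c ^ 3 - 3 * c) - (4 * (4 * c ^ 3 - 3 * c) ^ 2 - 1) * c =
        8 * c * ((1 - c ^ 2) * (8 * (c ^ 2) ^ 2 - 4 * c ^ 2 - 1)) := by ring
    have h5 : 0 ≤ 8 * (c ^ 2) ^ 2 - 4 * c ^ 2 - 1 := by nlinarith
    have : 0 ≤ 8 * c * ((1 - c ^ 2) * (8 * (c ^ 2) ^ 2 - 4 * c ^ 2 - 1)) := by
      have : 0 ≤ 1 - c ^ 2 := by linarith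
      positivity
    linarith
  nlinarith [mul_le_mul_of_nonneg_left key a1.le]

theorem cos_le_of (d y : ℝ) (h1 : 0 ≤ d) (h2 : d ≤ y) (h3 : y ≤ π - d) :
    cos (2 * y) ≤ cos (2 * d) := by
  by_cases h : 2 * y ≤ π
  · exact Real.cos_le_cos_of_nonneg_of_le_pi (by linarith) h (by linarith)
  · rw [not_le] at h
    have : cos (2 * y) = cos (2 * π - 2 * y) := by
      rw [Real.cos_two_pi_sub]
    rw [this]
    exact Real.cos_le_cos_of_nonneg_of_le_pi (by linarith) (by linarith) (by linarith)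

theorem main : GD.T_G2a := by
  intro τ h0 m hm
  have hpi := Real.pi_pos
  have hm0 : (0 : ℝ) ≤ m := Nat.cast_nonneg m
  have h4 : τ * 4 ≤ π := by nlinarith
  obtain ⟨a1, a2, a3, aD⟩ := range_facts τ h0 h4
  have hR1 := R_gt τ h0 h4
  have hR2 := R_le τ h0 h4
  set y : ℝ := ((m : ℝ) + 2) * τ with hy
  have y1 : 2 * τ ≤ y := by nlinarith
  have y2 : y ≤ π - 2 * τ := by nlinarith
  have hc2 : 0 ≤ cos (2 * τ) := Real.cos_nonneg_of_mem_Icc ⟨by linarith, by linarith⟩
  have hc2' : cos (2 * τ) < 1 := by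
    have := Real.sin_sq_add_cos_sq (2 * τ)
    nlinarith
  have hR0 : 0 < RR τ := by linarith
  have sm : 0 < sin (y - τ) := Real.sin_pos_of_pos_of_lt_pi (by linarith) (by linarith)
  have sp : 0 < sin (y + τ) := Real.sin_pos_of_pos_of_lt_pi (by linarith) (by linarith)
  have s0 : 0 < sin y := Real.sin_pos_of_pos_of_lt_pi (by linarith) (by linarith)
  have g0 : 0 < RR τ - cos (2 * y) := by
    have := cos_le_of τ y h0.le (by linarith) (by linarith); linarith
  have gm : 0 < RR τ - cos (2 * (y - τ)) := by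
    have := cos_le_of τ (y - τ) h0.le (by linarith) (by linarith); linarith
  have gp : 0 < RR τ - cos (2 * (y + τ)) := by
    have := cos_le_of τ (y + τ) h0.le (by linarith) (by linarith); linarith
  have c4 : cos (2 * y) ≤ cos (4 * τ) := by
    have := cos_le_of (2 * τ) y (by linarith) y1 (by linarith)
    have e : 2 * (2 * τ) = 4 * τ := by ring
    rwa [e] at this
  have hpm : GD.pG τ m = PP τ y := pG_eq τ h0 h4 m
  have hpos : 0 < PP τ y := by unfold PP; positivity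
  refine ⟨by rw [hpm]; exact hpos, ?_, ?_⟩
  · by_cases hm1 : m = 0
    · rw [if_pos hm1, hpm]; nlinarith
    · rw [if_neg hm1]
      have hpm1 : GD.pG τ (m + 1) = PP τ (y + τ) := by
        rw [pG_eq τ h0 h4 (m + 1)]; congr 1; rw [hy]; push_cast; ring
      have hpm2 : GD.pG τ (m - 1) = PP τ (y - τ) := by
        rw [pG_eq τ h0 h4 (m - 1)]; congr 1; rw [hy, Nat.cast_sub (by omega)]; push_cast; ring
      rw [hpm, hpm1, hpm2]
      -- the identity
      have e1 : y - τ - τ = y - 2 * τ := by ring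
      have e2 : y - τ + τ = y := by ring
      have e3 : y + τ - τ = y := by ring
      have e4 : y + τ + τ = y + 2 * τ := by ring
      have hprod : sin (y - 2 * τ) * sin (y + 2 * τ) = sin y ^ 2 - sin (2 * τ) ^ 2 := by
        rw [Real.sin_sub, Real.sin_add]
        have p1 := Real.sin_sq_add_cos_sq y
        have p2 := Real.sin_sq_add_cos_sq (2 * τ)
        linear_combination (sin y ^ 2) * p2 - (sin (2 * τ) ^ 2) * p1
      have hE : (RR τ - cos (2 * y)) ^ 2 -
          (RR τ - cos (2 * (y - τ))) * (RR τ - cos (2 * (y + τ))) =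
          (1 - cos (2 * τ)) * (1 + cos (2 * τ) - 2 * RR τ * cos (2 * y)) := by
        have f1 : cos (2 * (y - τ)) = cos (2 * y) * cos (2 * τ) + sin (2 * y) * sin (2 * τ) := by
          rw [← Real.cos_sub]; congr 1; ring
        have f2 : cos (2 * (y + τ)) = cos (2 * y) * cos (2 * τ) - sin (2 * y) * sin (2 * τ) := by
          rw [← Real.cos_add]; congr 1; ring
        have p1 := Real.sin_sq_add_cos_sq (2 * y)
        have p2 := Real.sin_sq_add_cos_sq (2 * τ)
        rw [f1, f2]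
        linear_combination (sin (2 * τ) ^ 2) * p1 + (1 - cos (2 * y) ^ 2) * p2
      have hEpos : 0 < (1 - cos (2 * τ)) * (1 + cos (2 * τ) - 2 * RR τ * cos (2 * y)) := by
        apply mul_pos (by linarith)
        by_cases hc : cos (2 * y) ≤ 0
        · nlinarith [mul_nonneg hR0.le (neg_nonneg.2 hc)]
        · rw [not_le] at hc
          have k4 : cos (4 * τ) = 2 * cos (2 * τ) ^ 2 - 1 := by
            rw [← Real.cos_two_mul]; congr 1; ring
          have t1 : RR τ * cos (2 * y) ≤ cos (2 * y) := by nlinarith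
          nlinarith
      have hfin : PP τ y ^ 2 - PP τ (y - τ) * PP τ (y + τ) =
          (sin (y - τ) * sin y * sin (y + τ) / (2 * DD τ * sin (3 * τ))) ^ 2 *
          (sin y ^ 2 * ((1 - cos (2 * τ)) * (1 + cos (2 * τ) - 2 * RR τ * cos (2 * y))) +
            sin (2 * τ) ^ 2 * ((RR τ - cos (2 * (y - τ))) * (RR τ - cos (2 * (y + τ))))) := by
        rw [← hE]
        unfold PP
        rw [e1, e2, e3, e4]
        generalize 2 * DD τ * sin (3 * τ) = K
        rw [div_eq_mul_inv, div_eq_mul_inv, div_eq_mul_inv, div_eq_mul_inv]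
        linear_combination (-(sin (y - τ) ^ 2 * sin y ^ 2 * sin (y + τ) ^ 2 *
          (RR τ - cos (2 * (y - τ))) * (RR τ - cos (2 * (y + τ)))) * K⁻¹ ^ 2) * hprod
      rw [hfin]
      positivity
  · intro hb
    have hyb : y = π - 2 * τ := by rw [hy]; linarith
    constructor
    · have h00 : GD.pG τ 0 = 1 := by
        unfold GD.pG
        rw [Finset.sum_range_succ, Finset.sum_range_zero, zero_add]
        have : sin τ * sin (2 * τ) * sin (3 * τ) * sin (4 * τ / 3) * sin (5 * τ / 3) ≠ 0 := aD.ne'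
        rw [div_eq_one_iff_eq this]
        norm_num
      have h01 := pG_eq τ h0 h4 0
      rw [hpm, hyb, ← h00, h01]
      unfold PP
      have q1 : π - 2 * τ - τ = π - 3 * τ := by ring
      have q2 : π - 2 * τ + τ = π - τ := by ring
      have q3 : 2 * (π - 2 * τ) = 2 * π - 4 * τ := by ring
      have q4 : (((0 : ℕ) : ℝ) + 2) * τ - τ = τ := by push_cast; ring
      have q5 : (((0 : ℕ) : ℝ) + 2) * τ + τ = 3 * τ := by push_cast; ring
      have q6 : 2 * ((((0 : ℕ) : ℝ) + 2) * τ) = 4 * τ := by push_cast; ring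
      have q7 : (((0 : ℕ) : ℝ) + 2) * τ = 2 * τ := by push_cast; ring
      rw [q1, q2, q3, q4, q5, q6, q7, Real.sin_pi_sub, Real.sin_pi_sub, Real.sin_pi_sub,
        Real.cos_two_pi_sub]
      ring
    · rw [pG_eq τ h0 h4 (m + 1)]
      have : (((m + 1 : ℕ) : ℝ) + 2) * τ = π - τ := by push_cast; linarith
      rw [this]
      unfold PP
      have : π - τ + τ = π := by ring
      rw [this, Real.sin_pi]; simp

end H391.KR.P_tg2a
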