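import Pool.Agent.H391.KR.GT

/-!
# KR-tg2p: the long node in type G_2
-/

noncomputable section

namespace H391.KR.P_tg2p

open Finset

/-- real valued pairing as an additive homomorphism -/
def pR {ι : Type} (p : (ι → ℤ) → ℝ) : GR ι →+ ℝ :=
  (Finsupp.liftAddHom (fun x : ι → ℤ => (AddMonoidHom.mulRight (p x)).comp
    (Int.castAddHom ℝ))).comp
    (AddMonoidAlgebra.coeffAddEquiv (R := ℤ) (M := ι → ℤ)).toAddMonoidHom

theorem pR_eq {ι : Type} (p : (ι → ℤ) → ℝ) (f : GR ι) : pR p f = pairR p f := rfl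

theorem pR_apply {ι : Type} (p : (ι → ℤ) → ℝ) (f : GR ι) :
    pR p f = f.coeff.sum fun x a => (a : ℝ) * p x := rfl

theorem pR_single {ι : Type} (p : (ι → ℤ) → ℝ) (x : ι → ℤ) (a : ℤ) :
    pR p (AddMonoidAlgebra.single x a) = (a : ℝ) * p x := by
  rw [pR_apply, AddMonoidAlgebra.coeff_single]
  exact Finsupp.sum_single_index (by simp)

theorem pR_ex {ι : Type} (p : (ι → ℤ) → ℝ) (x : ι → ℤ) : pR p (ex x) = p x := by
  rw [ex, pR_single]
  simp

/-- from affine weights to finite weights -/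
theorem pR_push {n : ℕ} (k : ℤ) (p : (Fin n → ℤ) → ℝ) (f : GR (Fin n)) :
    pR (fun x : Option (Fin n) → ℤ => p (fp x)) (ex (aw k 0) * push aw0 f) = pR p f := by
  have h : ((pR (fun x : Option (Fin n) → ℤ => p (fp x))).comp
      (AddMonoidHom.mulLeft (ex (aw k 0)))).comp
      (push (aw0 (n := n))).toAddMonoidHom = pR p := by
    apply AddMonoidAlgebra.addMonoidHom_ext
    intro x a
    have h1 : push aw0 (AddMonoidAlgebra.single x a) = AddMonoidAlgebra.single (aw 0 x) a := by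
      simp [push, aw0]
    have h2 : fp (aw k 0 + aw 0 x) = x := by
      funext i
      simp [fp, aw]
    show pR (fun x : Option (Fin n) → ℤ => p (fp x))
      (ex (aw k 0) * push aw0 (AddMonoidAlgebra.single x a)) = _
    rw [h1, ex, AddMonoidAlgebra.single_mul_single, one_mul, pR_single, pR_single]
    show (a : ℝ) * p (fp (aw k 0 + aw 0 x)) = _
    rw [h2]
  exact DFunLike.congr_fun h f

/-- a finite alternating sum -/
theorem sum_refl_zero (N : ℕ) (f : ℕ → ℝ) (h : ∀ c, c < N → f (N - 1 - c) = - f c) :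
    ∑ c ∈ range N, f c = 0 := by
  have h1 := Finset.sum_range_reflect f N
  have h2 : ∑ c ∈ range N, f (N - 1 - c) = ∑ c ∈ range N, - f c :=
    Finset.sum_congr rfl fun c hc => h c (Finset.mem_range.1 hc)
  rw [h2, Finset.sum_neg_distrib] at h1
  linarith

variable {n : ℕ} (S : GD n)

/-- the Demazure operator on an exponential, paired with an antisymmetric function -/
theorem pR_dmB (p : (Option (Fin n) → ℤ) → ℝ) (j : Option (Fin n))
    (hal : ∀ (x : Option (Fin n) → ℤ) (c : ℤ),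
      S.co j (x + c • S.al j) = S.co j x + 2 * c)
    (hp : ∀ x, p (x - (S.co j x + 1) • S.al j) = - p x) (x : Option (Fin n) → ℤ) :
    pR p (S.dmB j x) = p x := by
  have key : ∀ c : ℤ, p (x + (-S.co j x - 1 - c) • S.al j) = - p (x + c • S.al j) := by
    intro c
    have h1 := hp (x + c • S.al j)
    rw [hal] at h1
    rw [← h1]
    congr 1
    funext o
    simp only [Pi.add_apply, Pi.sub_apply, Pi.smul_apply, smul_eq_mul]
    ring
  unfold GD.dmB
  by_cases h0 : 0 ≤ S.co j x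
  · rw [if_pos h0, map_sum, Finset.sum_range_succ']
    have h2 : ∑ c ∈ range (S.co j x).toNat, pR p (ex (x - ((c + 1 : ℕ) : ℤ) • S.al j)) = 0 := by
      apply sum_refl_zero
      intro c hc
      rw [pR_ex, pR_ex]
      have h3 := key (-((c + 1 : ℕ) : ℤ))
      have h4 : x - ((c + 1 : ℕ) : ℤ) • S.al j = x + (-((c + 1 : ℕ) : ℤ)) • S.al j := by
        rw [neg_smul]; rfl
      have h5 : x - (((S.co j x).toNat - 1 - c + 1 : ℕ) : ℤ) • S.al j =
          x + (-S.co j x - 1 - (-((c + 1 : ℕ) : ℤ))) • S.al j := by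
        have h6 : (((S.co j x).toNat - 1 - c + 1 : ℕ) : ℤ) =
            -(-S.co j x - 1 - (-((c + 1 : ℕ) : ℤ))) := by
          omega
        rw [h6, neg_smul, sub_neg_eq_add]
      rw [h5, h3, h4]
    rw [h2, zero_add, pR_ex]
    simp
  · rw [if_neg h0, map_neg, map_sum]
    obtain ⟨N, hN⟩ : ∃ N : ℕ, (-S.co j x).toNat - 1 = N := ⟨_, rfl⟩
    have hNe : (-S.co j x) = N + 1 := by omega
    rw [hN]
    have hterm : ∀ c : ℕ, pR p (ex (x + ((c : ℤ) + 1) • S.al j)) =
        p (x + ((c : ℤ) + 1) • S.al j) := fun c => pR_ex _ _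
    simp only [hterm]
    rcases Nat.eq_zero_or_pos N with h | h
    · subst h
      have h7 := key 0
      have h8 : (-S.co j x - 1 - 0 : ℤ) = 0 := by omega
      rw [h8] at h7
      simp only [zero_smul, add_zero] at h7
      have h9 : p x = 0 := by linarith
      simp [h9]
    · obtain ⟨K, rfl⟩ : ∃ K, N = K + 1 := ⟨N - 1, by omega⟩
      rw [Finset.sum_range_succ]
      have h2 : ∑ c ∈ range K, p (x + ((c : ℤ) + 1) • S.al j) = 0 := by
        apply sum_refl_zero
        intro c hc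
        have h3 := key ((c : ℤ) + 1)
        have h6 : ((K - 1 - c : ℕ) : ℤ) + 1 = -S.co j x - 1 - ((c : ℤ) + 1) := by
          rw [hNe]
          push_cast
          omega
        rw [h6, h3]
      rw [h2, zero_add]
      have h3 := key 0
      have h6 : (-S.co j x - 1 - 0 : ℤ) = (K : ℤ) + 1 := by
        rw [hNe]
        push_cast
        ring
      rw [h6] at h3
      simp only [zero_smul, add_zero] at h3
      rw [h3]
      ring

/-- the Demazure operator, paired with an antisymmetric function -/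
theorem pR_dm (p : (Option (Fin n) → ℤ) → ℝ) (j : Option (Fin n))
    (hal : ∀ (x : Option (Fin n) → ℤ) (c : ℤ),
      S.co j (x + c • S.al j) = S.co j x + 2 * c)
    (hp : ∀ x, p (x - (S.co j x + 1) • S.al j) = - p x) (f : GR (Option (Fin n))) :
    pR p (S.dm j f) = pR p f := by
  unfold GD.dm
  rw [Finsupp.sum, map_sum, pR_apply, Finsupp.sum]
  refine Finset.sum_congr rfl fun x _ => ?_
  rw [map_zsmul, pR_dmB S p j hal hp]
  simp

theorem dm_ex (j : Option (Fin n)) (x : Option (Fin n) → ℤ) :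
    S.dm j (ex x) = S.dmB j x := by
  unfold GD.dm ex
  rw [AddMonoidAlgebra.coeff_single, Finsupp.sum_single_index (by simp)]
  simp

theorem hal_some (hS : S.OK) (j : Fin n) (x : Option (Fin n) → ℤ) (c : ℤ) :
    S.co (some j) (x + c • S.al (some j)) = S.co (some j) x + 2 * c := by
  have h := hS.diag j
  show x (some j) + c * S.C j j = x (some j) + 2 * c
  rw [h]
  ring

theorem hp_some (q : (Fin n → ℤ) → ℝ)
    (hq : ∀ mu i, q (mu - (mu i + 1) • S.rtw i) = - q mu) (j : Fin n)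
    (x : Option (Fin n) → ℤ) :
    (fun y : Option (Fin n) → ℤ => q (fp y)) (x - (S.co (some j) x + 1) • S.al (some j)) =
      - (fun y : Option (Fin n) → ℤ => q (fp y)) x := by
  have h := hq (fp x) j
  show q (fp (x - (S.co (some j) x + 1) • S.al (some j))) = - q (fp x)
  rw [← h]
  rfl

/-! ### type `G_2` -/

theorem om1 : (om 1 : Fin 2 → ℤ) = ![0, 1] := by
  funext i
  fin_cases i <;> simp [om]

theorem tt_th : G2.tt G2.th = 1 := by
  simp [GD.tt, G2, Fin.sum_univ_two]

theorem rt_th : G2.rt G2.th = om 1 := by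
  funext j
  unfold GD.rt
  rw [tt_th]
  fin_cases j <;> simp [G2, om, Fin.sum_univ_two]

theorem aw_sub_smul (l c : ℤ) (mu nu : Fin 2 → ℤ) :
    aw l mu - c • aw 0 nu = aw l (mu - c • nu) := by
  funext o
  cases o <;> simp [aw]

/-- the reduced word -/
def wd : List (Option (Fin 2)) := [some 1, some 0, some 1, some 0, some 1, none]

theorem rf_some (i : Fin 2) (l a b : ℤ) :
    G2.rf (some i) (aw l ![a, b]) =
      aw l ![a - (![a, b] : Fin 2 → ℤ) i * G2.C 0 i,
        b - (![a, b] : Fin 2 → ℤ) i * G2.C 1 i] := by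
  funext o
  rcases o with _ | k
  · simp [GD.rf, GD.al, aw]
  · fin_cases k <;> simp [GD.rf, GD.al, GD.co, GD.rtw, aw]

theorem co_some (i : Fin 2) (l a b : ℤ) :
    G2.co (some i) (aw l ![a, b]) = (![a, b] : Fin 2 → ℤ) i := rfl

theorem al_none : G2.al none = aw 0 (-(om 1)) := by
  show aw 0 (-(G2.rt G2.th)) = _
  rw [rt_th]

theorem co_none (l a b : ℤ) : G2.co none (aw l ![a, b]) = l - (a + 2 * b) := by
  simp [GD.co, dot, fp, aw, G2, Fin.sum_univ_two]

theorem rf_none (l a b : ℤ) :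
    G2.rf none (aw l ![a, b]) = aw l ![a, b + (l - (a + 2 * b))] := by
  unfold GD.rf
  rw [co_none, al_none, om1]
  funext o
  rcases o with _ | k
  · simp [aw]
  · fin_cases k
    · simp [aw]
    · simp only [aw, Pi.sub_apply, Pi.smul_apply, Pi.neg_apply, Option.elim, smul_eq_mul]
      simp
      ring

theorem red_wd : G2.Red wd (G2.xi 1) := by
  have h0 : G2.xi 1 = aw 1 ![0, -1] := by
    unfold GD.xi
    rw [om1]
    congr 1
    funext i
    fin_cases i <;> simp [G2]
  have c00 : G2.C 0 0 = 2 := rfl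
  have c01 : G2.C 0 1 = -3 := rfl
  have c10 : G2.C 1 0 = -1 := rfl
  have c11 : G2.C 1 1 = 2 := rfl
  rw [h0]
  unfold wd
  simp only [GD.Red, rf_some, co_some, c00, c01, c10, c11, rf_none, co_none]
  norm_num
  congr 1
  funext i
  fin_cases i <;> rfl

/-- **Main.** -/
theorem main : GD.T_G2 → GD.H_AB → GD.H_sin → GD.T_G2p := by
  intro hT hAB hsin Q hQ τ hτ0 hτ m
  obtain ⟨-, hAB2, -, -⟩ := hAB 2 G2 hT
  obtain ⟨hs1, -⟩ := hsin 2 G2 hT
  have hanti : ∀ mu i, G2.qdR τ (mu - (mu i + 1) • G2.rtw i) = - G2.qdR τ mu :=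
    fun mu i => hs1 τ mu i
  have h1 : G2.qdimR τ (GD.chr (Q 1 m)) = pR (G2.qdR τ) (GD.chr (Q 1 m)) :=
    hAB2 (Q 1 m) (G2.qdR τ) hanti
  have h2 := hQ.dem 1 m wd red_wd
  have ht : (G2.t 1).toNat * m = m := by
    have : (G2.t 1).toNat = 1 := rfl
    rw [this, one_mul]
  rw [ht] at h2
  set P : (Option (Fin 2) → ℤ) → ℝ := fun x => G2.qdR τ (fp x) with hP
  have h3 : pR P (ex (aw (m : ℤ) 0) * push aw0 (GD.chr (Q 1 m))) =
      pR (G2.qdR τ) (GD.chr (Q 1 m)) := pR_push _ _ _
  have hd : ∀ (i : Fin 2) (f : GR (Option (Fin 2))), pR P (G2.dm (some i) f) = pR P f :=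
    fun i f => pR_dm G2 P (some i) (hal_some G2 hT i) (hp_some G2 _ hanti i) f
  rw [h1, ← h3, h2]
  unfold wd
  simp only [List.foldr_cons, List.foldr_nil]
  rw [hd, hd, hd, hd, hd, dm_ex]
  have hco : G2.co none (aw (m : ℤ) 0) = m := by
    simp [GD.co, aw, dot, fp]
  unfold GD.dmB
  rw [hco, if_pos (Int.natCast_nonneg m), map_sum, Int.toNat_natCast]
  refine Finset.sum_congr rfl fun c _ => ?_
  rw [pR_ex]
  show G2.qdR τ (fp (aw (m : ℤ) 0 - (c : ℤ) • aw 0 (-(G2.rt G2.th)))) = _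
  rw [rt_th]
  congr 1
  funext i
  simp [fp, aw]

end H391.KR.P_tg2p
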