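import Pool.Agent.H391.KR.P.g2ok

set_option autoImplicit false

noncomputable section

namespace H391.KR.P_tg2s

open Finset H391.KR P_g2ok

def PF : Finset (Fin 2 → ℤ) := {![1, 0], ![1, 3], ![2, 3], ![0, 1], ![1, 1], ![1, 2]}

theorem pos_eq : G2.pos = (PF : Set (Fin 2 → ℤ)) := by
  ext a
  constructor
  · rintro ⟨h, hp⟩
    have h1 := mem_of h
    have h0 := hp 0
    have h2 := hp 1
    rw [eta a]
    simp only [LL, List.mem_cons, Prod.mk.injEq, List.mem_nil_iff, or_false] at h1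
    rcases h1 with h | h | h | h | h | h | h | h | h | h | h | h
    all_goals first
      | (rw [h.1, h.2]; simp [PF]; done)
      | (exfalso; omega)
  · intro h
    have h' : a ∈ PF := h
    simp only [PF, Finset.mem_insert, Finset.mem_singleton] at h'
    rcases h' with rfl | rfl | rfl | rfl | rfl | rfl
    all_goals
      refine ⟨cor_of (by decide), fun i => ?_⟩
      fin_cases i <;> decide

theorem main : GD.T_G2 → GD.T_G2s := by
  intro _ τ h0 h4 j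
  have hpi := Real.pi_pos
  have hq : G2.qdR τ ((j : ℤ) • om 1) = ∏ a ∈ PF,
      (Real.sin (τ * (∑ i, a i * (((j : ℤ) • om 1 : Fin 2 → ℤ) i + 1) : ℤ) / (G2.tt a : ℤ)) /
        Real.sin (τ * (∑ i, a i : ℤ) / (G2.tt a : ℤ))) := by
    unfold GD.qdR
    rw [pos_eq, finprod_mem_coe_finset]
  have s1 : Real.sin (τ * (1 : ℤ) / (3 : ℤ)) ≠ 0 := by
    apply ne_of_gt
    apply Real.sin_pos_of_pos_of_lt_pi
    · push_cast; positivity
    · push_cast; linarith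
  have e1 : ((j : ℤ) • om 1 : Fin 2 → ℤ) 0 = 0 := by simp [om]
  have e2 : ((j : ℤ) • om 1 : Fin 2 → ℤ) 1 = j := by simp [om]
  rw [hq]
  unfold PF
  rw [Finset.prod_insert (by decide), Finset.prod_insert (by decide), Finset.prod_insert (by decide),
    Finset.prod_insert (by decide), Finset.prod_insert (by decide), Finset.prod_singleton]
  simp only [Fin.sum_univ_two, e1, e2, tt_eq, Q]
  have v1 : (![1, 0] : Fin 2 → ℤ) 0 = 1 := rfl
  have v2 : (![1, 0] : Fin 2 → ℤ) 1 = 0 := rfl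
  have v3 : (![1, 3] : Fin 2 → ℤ) 0 = 1 := rfl
  have v4 : (![1, 3] : Fin 2 → ℤ) 1 = 3 := rfl
  have v5 : (![2, 3] : Fin 2 → ℤ) 0 = 2 := rfl
  have v6 : (![2, 3] : Fin 2 → ℤ) 1 = 3 := rfl
  have v7 : (![0, 1] : Fin 2 → ℤ) 0 = 0 := rfl
  have v8 : (![0, 1] : Fin 2 → ℤ) 1 = 1 := rfl
  have v9 : (![1, 1] : Fin 2 → ℤ) 0 = 1 := rfl
  have v10 : (![1, 1] : Fin 2 → ℤ) 1 = 1 := rfl
  have v11 : (![1, 2] : Fin 2 → ℤ) 0 = 1 := rfl
  have v12 : (![1, 2] : Fin 2 → ℤ) 1 = 2 := rfl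
  simp only [v1, v2, v3, v4, v5, v6, v7, v8, v9, v10, v11, v12]
  push_cast
  norm_num
  have s1' : Real.sin (τ / 3) ≠ 0 := by
    have : τ * ((1 : ℤ) : ℝ) / ((3 : ℤ) : ℝ) = τ / 3 := by push_cast; ring
    rw [this] at s1
    exact s1
  rw [div_self s1', one_mul]
  have c1 : τ * (1 + 3 * ((j : ℝ) + 1)) / 3 = (3 * j + 4) * τ / 3 := by ring
  have c2 : τ * (2 + 3 * ((j : ℝ) + 1)) / 3 = (3 * j + 5) * τ / 3 := by ring
  have c3 : τ * ((j : ℝ) + 1) = (j + 1) * τ := by ring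
  have c4 : τ * (1 + ((j : ℝ) + 1)) = (j + 2) * τ := by ring
  have c5 : τ * (1 + 2 * ((j : ℝ) + 1)) = (2 * j + 3) * τ := by ring
  have c6 : τ * 4 / 3 = 4 * τ / 3 := by ring
  have c7 : τ * 5 / 3 = 5 * τ / 3 := by ring
  have c8 : τ * 2 = 2 * τ := by ring
  have c9 : τ * 3 = 3 * τ := by ring
  rw [c1, c2, c3, c4, c5, c6, c7, c8, c9]
  ring

end H391.KR.P_tg2s
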