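import Pool.Agent.H391.KR.GT

/-!
# KR project (helper391), task KR-tlev (helper671)
-/

set_option autoImplicit false

noncomputable section

namespace H391.KR.P_tlev

open Finset H391.KR H391.KR.GD

theorem ex_mul {ι : Type} (x y : ι → ℤ) : ex x * ex y = ex (x + y) := by
  unfold ex
  rw [AddMonoidAlgebra.single_mul_single, one_mul]

theorem ex_zero {ι : Type} : ex (0 : ι → ℤ) = 1 := rfl

theorem ex_cancel {n : ℕ} (m : ℤ) (f g : GR (Option (Fin n)))
    (h : ex (aw m 0) * f = ex (aw m 0) * g) : f = g := by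
  have h1 : ex (aw (n := n) (-m) 0) * ex (aw m 0) = 1 := by
    rw [ex_mul, ← ex_zero]
    congr 1
    funext o
    rcases o with _ | j
    · show -m + m = 0
      ring
    · show (0 : ℤ) + 0 = 0
      rfl
  calc f = (ex (aw (n := n) (-m) 0) * ex (aw m 0)) * f := by rw [h1, one_mul]
    _ = ex (aw (n := n) (-m) 0) * (ex (aw m 0) * f) := mul_assoc _ _ _
    _ = ex (aw (n := n) (-m) 0) * (ex (aw m 0) * g) := by rw [h]
    _ = (ex (aw (n := n) (-m) 0) * ex (aw m 0)) * g := (mul_assoc _ _ _).symm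
    _ = g := by rw [h1, one_mul]

/-- evaluation of the class on the affine side -/
def psi {n : ℕ} (S : GD n) : S.RepR →+* GR (Option (Fin n)) :=
  (push aw0).comp (S.Rep.subtype : S.Rep →+* GR (Fin n))

theorem psi_eq {n : ℕ} (S : GD n) (f : S.RepR) : psi S f = push aw0 (chr f) := rfl

theorem dot_sub {n : ℕ} (a x y : Fin n → ℤ) : dot a (x - y) = dot a x - dot a y := by
  unfold dot
  rw [← Finset.sum_sub_distrib]
  exact Finset.sum_congr rfl fun i _ => by rw [Pi.sub_apply]; ring

theorem dot_sum {n : ℕ} (a : Fin n → ℤ) (g : Fin n → ℤ) (v : Fin n → Fin n → ℤ) :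
    dot a (∑ j, g j • v j) = ∑ j, g j * dot a (v j) := by
  unfold dot
  have h1 : ∀ i, a i * (∑ j, g j • v j) i = ∑ j, g j * (a i * v j i) := by
    intro i
    rw [Finset.sum_apply, Finset.mul_sum]
    exact Finset.sum_congr rfl fun j _ => by rw [Pi.smul_apply, smul_eq_mul]; ring
  rw [Finset.sum_congr rfl fun i _ => h1 i, Finset.sum_comm]
  exact Finset.sum_congr rfl fun j _ => by rw [Finset.mul_sum]

theorem dot_om {n : ℕ} (a : Fin n → ℤ) (i : Fin n) (m : ℤ) : dot a (m • om i) = m * a i := by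
  unfold dot om
  rw [Finset.sum_eq_single i]
  · rw [Pi.smul_apply, if_pos rfl, smul_eq_mul]; ring
  · intro j _ hj
    rw [Pi.smul_apply, if_neg hj, smul_eq_mul]; ring
  · intro h
    exact absurd (Finset.mem_univ i) h

theorem dot_om' {n : ℕ} (x : Fin n → ℤ) (i : Fin n) : dot (om i) x = x i := by
  unfold dot om
  rw [Finset.sum_eq_single i]
  · rw [if_pos rfl, one_mul]
  · intro j _ hj
    rw [if_neg hj, zero_mul]
  · intro h
    exact absurd (Finset.mem_univ i) h

theorem main : RDat.N_dem → RDat.N_link → GD.G_dat → GD.G_hd → GD.G_F → GD.G_K → GD.G_pos →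
    GD.H_mem → GD.H_sin → GD.H_mul → GD.H_lev → GD.T_red → GD.T_lev := by
  intro hNdem hNlink hdat hhd hGF hGK hGpos hHmem hHsin hHmul hHlev hTred
  intro n S hS Q hQ k hk
  obtain ⟨D, hD⟩ := hdat n S hS
  have hHD := hhd n S hS D hD
  have hdem : D.DemOK := hNdem _ _ D S.rho hHD
  obtain ⟨hF1, hT1, hF3, hT3, -, -, -⟩ := hGF n S hS D hD hdem
  obtain ⟨hm1, hm2, hm3⟩ := hHmem n S hS D hD
  obtain ⟨-, -, hspos, -, -⟩ := hHsin n S hS
  obtain ⟨-, -, hred3, hred4⟩ := hTred n S hS D hD
  obtain ⟨hl1, -, -, -⟩ := hNlink _ _ D S.rho hHD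
  -- the parameter
  have hhv : (1 : ℝ) ≤ (S.hv : ℤ) := by
    have h1 : (1 : ℤ) ≤ S.hv := by
      unfold GD.hv
      have h2 : 0 ≤ ∑ i, S.th i := Finset.sum_nonneg fun i _ => by
        have := hS.th_pos i
        omega
      omega
    exact_mod_cast h1
  have hk0 : (0 : ℝ) ≤ k := Nat.cast_nonneg k
  have hpar0 : 0 < S.par k := by
    unfold GD.par
    apply div_pos Real.pi_pos
    linarith
  have hparle : S.par k * S.hv ≤ Real.pi := by
    unfold GD.par
    rw [div_mul_eq_mul_div, div_le_iff₀ (by linarith)]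
    have := Real.pi_pos
    nlinarith
  obtain ⟨e0, he0⟩ := (hHmul n S hS).1 (S.par k) hpar0 hparle
  obtain ⟨e, he⟩ : ∃ e : S.RepR →+* ℝ, ∀ f : S.RepR, e f = S.qdim k f := ⟨e0, fun f => he0 f⟩
  obtain ⟨A, hA, hlev⟩ := hHlev n S hS D hD k
  have hq : ∀ f : S.RepR, S.qdim k f =
      ∑ la ∈ A, (S.lm D k la (push aw0 (chr f)) : ℝ) * S.qdR (S.par k) la := fun f => hlev f
  -- the classes with the index `t_i m`
  have hF : ∀ i (m : ℕ), push aw0 (chr (Q i ((S.t i).toNat * m))) = S.F D i m := by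
    intro i m
    obtain ⟨w, hw⟩ := hred3 i
    have h1 := hQ.dem i m w hw
    rw [hred4 i w hw m hdem, ← hF3 i m] at h1
    exact ex_cancel _ _ _ h1
  have hInv1 : SLC.Inv0 D (1 : GR (Option (Fin n))) := by
    have h := hm1 1
    rwa [OneMemClass.coe_one, map_one] at h
  have hdom : ∀ la ∈ S.alc k, D.Dom (aw k la) := by
    rintro la ⟨h1, h2⟩ j
    rw [hD.co]
    rcases j with _ | j
    · show 0 ≤ (k : ℤ) - dot S.th (fp (aw k la))
      have h3 : fp (aw (k : ℤ) la) = la := rfl
      rw [h3]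
      linarith
    · exact h1 j
  refine ⟨?_, ?_, ?_, ?_, ?_, ⟨e, he⟩⟩
  · intro i m hm
    obtain ⟨w1, la0, hla0, hne⟩ := (hGpos n S hS D hD hdem i).1 k m hm
    rw [hq, hF]
    have hnn : ∀ la ∈ A, 0 ≤ (S.lm D k la (S.F D i m) : ℝ) * S.qdR (S.par k) la := by
      intro la hla
      have hla' := (hA la).1 hla
      refine mul_nonneg ?_ (hspos k la hla').le
      exact_mod_cast w1 _ (hdom la hla')
    refine lt_of_lt_of_le ?_ (Finset.single_le_sum hnn ((hA la0).2 hla0))
    refine mul_pos ?_ (hspos k la0 hla0)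
    have h5 : 0 < S.lm D k la0 (S.F D i m) :=
      lt_of_le_of_ne (w1 _ (hdom la0 hla0)) (Ne.symm hne)
    exact_mod_cast h5
  · intro i
    rw [hq, hF]
    have h1 : S.qdim k 1 = 1 := by rw [← he, map_one]
    rw [← h1, hq]
    refine Finset.sum_congr rfl fun la hla => ?_
    have hla' := (hA la).1 hla
    have h2 := (hGpos n S hS D hD hdem i).2.2.1 k (D.pf (aw k la))
      (hl1 _ (hdom la hla')).1 1 hInv1
    rw [one_mul, one_mul] at h2
    have h3 : push aw0 (chr (1 : S.RepR)) = 1 := map_one (psi S)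
    have h4 : S.lm D k la (S.F D i k) = S.lm D k la (push aw0 (chr (1 : S.RepR))) := by
      unfold GD.lm
      rw [h2, h3, mul_one]
    rw [h4]
  · intro i
    rw [hq, hF]
    refine Finset.sum_eq_zero fun la hla => ?_
    have hla' := (hA la).1 hla
    have h2 := (hGpos n S hS D hD hdem i).2.2.2 k hk (D.pf (aw k la))
      (hl1 _ (hdom la hla')).1 1 hInv1
    rw [one_mul] at h2
    have h4 : S.lm D k la (S.F D i (k + 1)) = 0 := h2
    rw [h4, Int.cast_zero, zero_mul]
  · intro i m hm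
    -- the elements `T_m`
    have hTe : ∀ m' : ℕ, m' ≤ k → ∃ g : S.RepR, push aw0 (chr g) = S.T D i m' ∧ 0 ≤ e g := by
      intro m' hm'
      obtain ⟨g, hg⟩ := hm2 _ (hT1 i m')
      refine ⟨g, hg, ?_⟩
      rw [he, hq]
      refine Finset.sum_nonneg fun la hla => ?_
      have hla' := (hA la).1 hla
      refine mul_nonneg ?_ (hspos k la hla').le
      have h5 := (hGpos n S hS D hD hdem i).2.1 k m' hm' (aw k la) (hdom la hla')
      rw [← hg] at h5
      exact_mod_cast h5
    obtain ⟨g1, hg1, hg1'⟩ := hTe m hm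
    obtain ⟨g2, hg2, hg2'⟩ := hTe (k - m) (Nat.sub_le k m)
    have hN : e (Q i ((S.t i).toNat * m) ^ 2 -
        ∏ j, Q j ((S.t j).toNat * m) ^ (-(S.C i j)).toNat) = e (g1 * g2) := by
      rw [he, he, hq, hq]
      refine Finset.sum_congr rfl fun la hla => ?_
      have hla' := (hA la).1 hla
      have h6 : push aw0 (chr (Q i ((S.t i).toNat * m) ^ 2 -
          ∏ j, Q j ((S.t j).toNat * m) ^ (-(S.C i j)).toNat)) =
          S.F D i m ^ 2 - S.nb D i m := by
        rw [← psi_eq, map_sub, map_pow, map_prod]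
        rw [psi_eq, hF]
        congr 1
        unfold GD.nb
        refine Finset.prod_congr rfl fun j _ => ?_
        rw [map_pow, psi_eq, hF]
      have h7 : push aw0 (chr (g1 * g2)) = S.T D i m * S.T D i (k - m) := by
        rw [← psi_eq, map_mul, psi_eq, psi_eq, hg1, hg2]
      have h8 := hGK n S hS D hD hdem i m k hm (D.pf (aw k la)) (hl1 _ (hdom la hla')).1 1 hInv1
      rw [one_mul, one_mul] at h8
      have h9 : S.lm D k la (S.F D i m ^ 2 - S.nb D i m) =
          S.lm D k la (S.T D i m * S.T D i (k - m)) := h8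
      rw [h6, h7, h9]
    rw [map_sub, map_pow, map_prod, map_mul, he] at hN
    have h10 : ∏ j, e (Q j ((S.t j).toNat * m) ^ (-(S.C i j)).toNat) =
        ∏ j, S.qdim k (Q j ((S.t j).toNat * m)) ^ (-(S.C i j)).toNat := by
      refine Finset.prod_congr rfl fun j _ => ?_
      rw [map_pow, he]
    rw [h10] at hN
    rw [hN]
    exact mul_nonneg hg1' hg2'
  · intro i m hm
    have hthr : ∀ j, 0 ≤ dot S.th (S.rtw j) := by
      intro j
      have h1 := (hS.pairs S.th (om j) hS.th_cor.1 (Cor.simple j)).1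
      rw [(hS.om j).1, (hS.om j).2, hS.th_cor.2, one_mul, dot_om'] at h1
      have h2 := hS.th_dom j
      have h3 := hS.t_pos j
      by_contra h4
      push Not at h4
      nlinarith
    have hmem : ∀ mu : Fin n → ℤ, (∀ i, 0 ≤ mu i) → S.mult (Q i m) mu ≠ 0 → mu ∈ S.alc k := by
      intro mu hmu hne
      obtain ⟨g, hg⟩ := hQ.low i m mu hmu hne
      refine ⟨hmu, ?_⟩
      have h1 : dot S.th mu = m * S.th i - ∑ j, (g j : ℤ) * dot S.th (S.rtw j) := by
        rw [hg, dot_sub, dot_om, dot_sum]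
      have h2 : 0 ≤ ∑ j, (g j : ℤ) * dot S.th (S.rtw j) :=
        Finset.sum_nonneg fun j _ => mul_nonneg (Int.natCast_nonneg _) (hthr j)
      rw [h1]
      linarith
    have hnn : ∀ mu ∈ ((chr (Q i m)) * S.Delta).coeff.support, (0 : ℝ) ≤
        (if ∀ i, 0 ≤ mu i then (((chr (Q i m)) * S.Delta).coeff mu : ℝ) * S.qdR (S.par k) mu
          else 0) := by
      intro mu hmu
      split_ifs with h1
      · have h2 : S.mult (Q i m) mu ≠ 0 := Finsupp.mem_support_iff.1 hmu
        have h3 := hQ.pos i m mu h1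
        refine mul_nonneg ?_ (hspos k mu (hmem mu h1 h2)).le
        exact_mod_cast h3
      · exact le_rfl
    have htop := hQ.top i m
    have hdm : ∀ j, 0 ≤ ((m : ℤ) • om i : Fin n → ℤ) j := by
      intro j
      rw [Pi.smul_apply, smul_eq_mul]
      refine mul_nonneg (Int.natCast_nonneg _) ?_
      unfold om
      split_ifs <;> norm_num
    have hin : ((m : ℤ) • om i : Fin n → ℤ) ∈ ((chr (Q i m)) * S.Delta).coeff.support := by
      rw [Finsupp.mem_support_iff]
      intro h
      have h1 : S.mult (Q i m) ((m : ℤ) • om i) = 0 := h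
      rw [htop] at h1
      exact one_ne_zero h1
    show 0 < S.qdimR (S.par k) (chr (Q i m))
    unfold GD.qdimR Finsupp.sum
    refine lt_of_lt_of_le ?_ (Finset.single_le_sum hnn hin)
    rw [if_pos hdm]
    have h1 : ((chr (Q i m)) * S.Delta).coeff ((m : ℤ) • om i) = 1 := htop
    rw [h1, Int.cast_one, one_mul]
    refine hspos k _ (hmem _ hdm ?_)
    rw [htop]
    exact one_ne_zero

end H391.KR.P_tlev
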