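import Pool.Agent.H391.KR.GT

/-!
# T_red (helper921 for helper391)
-/

noncomputable section

namespace H391.KR.P_tred

open Finset H391.KR

variable {n : ℕ} {S : GD n} {D : RDat (Option (Fin n)) (Option (Fin n))}

theorem demB_eq (h : S.AffDat D) (j : Option (Fin n)) (x : Option (Fin n) → ℤ) :
    D.demB j x = S.dmB j x := by
  unfold RDat.demB GD.dmB
  rw [h.co, h.al]

theorem dem_eq (h : S.AffDat D) (j : Option (Fin n)) (f : GR (Option (Fin n))) :
    D.dem j f = S.dm j f := by
  have h1 : D.dem j f = f.coeff.sum fun x c => (c : GR (Option (Fin n))) * D.demB j x := rfl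
  rw [h1]
  unfold GD.dm
  refine Finsupp.sum_congr fun x _ => ?_
  rw [demB_eq h, zsmul_eq_mul]

theorem demL_eq (h : S.AffDat D) (w : List (Option (Fin n))) (f : GR (Option (Fin n))) :
    D.demL w f = w.foldr S.dm f := by
  induction w with
  | nil => rfl
  | cons j w ih =>
    rw [List.foldr_cons, ← ih, ← dem_eq h]
    rfl

theorem s_eq (h : S.AffDat D) (j : Option (Fin n)) (x : Option (Fin n) → ℤ) :
    D.s j x = S.rf j x := by
  unfold RDat.s GD.rf
  rw [h.co, h.al]

theorem red_of (h : S.AffDat D) (w : List (Option (Fin n))) :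
    ∀ x, D.Desc w x → D.sR w x = aw 1 0 → S.Red w x := by
  induction w with
  | nil => intro x _ h2; exact h2
  | cons j w ih =>
    intro x h1 h2
    refine ⟨?_, ?_⟩
    · rw [← h.co]
      exact h1.1
    · rw [← s_eq h]
      exact ih _ h1.2 h2

theorem of_red (h : S.AffDat D) (w : List (Option (Fin n))) :
    ∀ x, S.Red w x → D.Desc0 w x ∧ D.sR w x = aw 1 0 := by
  induction w with
  | nil => intro x h2; exact ⟨trivial, h2⟩
  | cons j w ih =>
    intro x h1
    have h2 : S.Red w (D.s j x) := by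
      rw [s_eq h]
      exact h1.2
    have h3 := ih _ h2
    refine ⟨⟨?_, h3.1⟩, h3.2⟩
    rw [h.co]
    exact h1.1.le

theorem tr_aw (i : Fin n) : S.tr i (aw 1 0) = S.xi i := by
  funext o
  cases o with
  | none => rfl
  | some j =>
    show (0 : ℤ) - (1 * S.t i) * om i j = -(S.t i * om i j)
    ring

theorem main : RDat.N_demw → RDat.N_desc → GD.G_sig → GD.T_red := by
  intro hw _ hsig n S hS D hD
  refine ⟨dem_eq hD, demL_eq hD, fun i => ?_, fun i w hw1 m hok => ?_⟩
  · obtain ⟨X⟩ := hsig n S hS D hD i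
    refine ⟨some i :: X.w, red_of hD _ _ X.desc ?_⟩
    rw [← tr_aw]
    exact X.eq (aw 1 0)
  · obtain ⟨h1, h2⟩ := of_red hD w _ hw1
    have hT : S.xi i ∈ D.T := by
      rw [hD.T]
      exact le_refl (1 : ℤ)
    have hT0 : (aw 1 0 : Option (Fin n) → ℤ) ∈ D.T := by
      rw [hD.T]
      exact le_refl (1 : ℤ)
    have hdom : D.Dom (aw 1 0) := by
      intro j
      rw [hD.co]
      cases j with
      | none =>
        have h3 : dot S.th (fp (aw (1 : ℤ) (0 : Fin n → ℤ))) = 0 :=
          Finset.sum_eq_zero fun k _ => mul_zero _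
        show (0 : ℤ) ≤ 1 - dot S.th (fp (aw (1 : ℤ) (0 : Fin n → ℤ)))
        rw [h3]
        norm_num
      | some k => exact le_refl (0 : ℤ)
    have h4 := hw _ _ D hok w (S.xi i) m hT h1
    rw [h4, h2, hok.d3 _ hT0 m hdom, ← demL_eq hD]
    have h5 : (m : ℤ) • (aw 1 0 : Option (Fin n) → ℤ) = aw (m : ℤ) 0 := by
      funext o
      cases o with
      | none =>
        show (m : ℤ) * 1 = m
        rw [mul_one]
      | some k =>
        show (m : ℤ) * 0 = 0
        rw [mul_zero]
    rw [h5]

end H391.KR.P_tred
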