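import Pool.Agent.H391.KR.JV

/-!
# KR-jBC: assembly for the types `B`, `C` (board task 14060 for helper391)
-/

noncomputable section

namespace H391.KR.P_jBC

open Finset H391.KR

theorem T_zero {n : ℕ} {S : GD n} {D : RDat (Option (Fin n)) (Option (Fin n))} (hA : S.AffDat D)
    (hOK : D.DemOK) (i : Fin n) : S.T D i 0 = 0 := by
  have h1 : S.xi i ∈ D.T := by
    rw [hA.T]
    show (1 : ℤ) ≤ 1
    exact le_refl _
  have h2 : D.s (some i) (S.xi i) ∈ D.T := by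
    rw [hA.T]
    show (1 : ℤ) ≤ (S.xi i - D.co (some i) (S.xi i) • D.al (some i)) none
    rw [hA.al]
    show (1 : ℤ) ≤ 1 - D.co (some i) (S.xi i) * 0
    omega
  unfold GD.T
  rw [hOK.d5 _ h1, hOK.d5 _ h2, sub_self, mul_zero]

theorem main : GD.J_mem → GD.J_F → GD.J_V1 → GD.J_kr → GD.J_lvV → GD.J_odd → GD.J_two →
    GD.J_BC := by
  intro hmem hF hV1 hkr hlvV hodd htwo n S hS hT2 D hD hDem hAV Q hQ k hk V _ R
  have hX : ∀ i, S.t i = 2 → ∃ X : S.XD D i, ∀ m : ℕ, S.T D i m ≠ 0 → X.U m = S.T D i (m + 1) :=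
    fun i ht => hV1 n S hS D hD hDem i ht (hAV i ht).1 (hAV i ht).2
  have hO := fun i ht => hodd n S hS hT2 D hD hDem Q hQ i ht (hAV i ht).1 (hX i ht)
  refine htwo n S hS hT2 D hD hDem Q hQ (fun i ht => (hO i ht).1) k hk V R ?_
  intro i ht
  obtain ⟨X, hXU⟩ := hX i ht
  obtain ⟨hodd1, hne⟩ := hO i ht
  obtain ⟨-, hm2, hm3⟩ := hmem n S hS D hD
  obtain ⟨-, hT, -⟩ := hF n S hS D hD hDem
  have hTe : ∀ m, ∃ f : S.RepR, push aw0 (GD.chr f) = S.T D i m := fun m => hm2 _ (hT i m)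
  choose Te hTe using hTe
  have hk0 : S.T D i k ≠ 0 := by
    obtain ⟨k', rfl⟩ : ∃ k', k = k' + 1 := ⟨k - 1, by omega⟩
    exact hne k'
  have hu : push aw0 (GD.chr (Q i (2 * k + 1))) = X.U k := by
    rw [hXU k hk0]
    exact hodd1 k
  obtain ⟨-, -, -, -, hl⟩ := hlvV n S hS D hD hDem i (fun m => Q i ((S.t i).toNat * m)) Te
    (fun m => (hkr n S hS D hD hDem Q hQ).1 i m) hTe k hk V R
  have h0 : Te 0 = 0 := by
    apply Subtype.ext
    apply hm3
    have h1 : push aw0 (GD.chr (Te 0)) = 0 := by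
      rw [hTe 0, T_zero hD hDem i]
    refine h1.trans ?_
    exact (map_zero (push (aw0 (n := n)))).symm
  have h2 := hl X k (Q i (2 * k + 1)) le_rfl hu
  rw [Nat.sub_self, h0, map_zero, mul_zero] at h2
  exact h2

end H391.KR.P_jBC
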