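import Pool.Agent.H391.KR.JC

/-!
# Project KR, task jBav: type `B_n`, a reduced word avoiding the short node
-/

noncomputable section

namespace H391.KR.P_jBav

open Finset H391.KR

/-- the coordinates of the weights of the spin type -/
def P (n : ℕ) (x : Option (Fin n) → ℤ) : Prop :=
  x none = 1 ∧ ∃ e : ℕ → ℤ, (∀ j, e j = 0 ∨ e j = 1) ∧
    ∀ k : Fin n, x (some k) = if (k : ℕ) + 1 = n then 2 * e k else e k - e (k + 1)

theorem sum_one {n : ℕ} (g : ℕ → ℤ) (c : ℕ) :
    (∑ i : Fin n, if (i : ℕ) = c then g i else 0) = if c < n then g c else 0 := by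
  rw [Fin.sum_univ_eq_sum_range (fun i => if i = c then g i else 0) n, Finset.sum_ite_eq' (Finset.range n) c g]
  simp only [Finset.mem_range]

/-- one at zero, two elsewhere -/
def gg (m : ℕ) : ℤ := if m = 0 then 1 else 2

/-- coefficient of the left neighbour -/
def cc (n j : ℕ) : ℤ := if j = 0 then 0 else if j + 1 = n then 2 else 1

/-- summands of the pairing with the highest root -/
def G (n : ℕ) (e : ℕ → ℤ) (k : ℕ) : ℤ :=
  (if k = 0 ∨ k + 1 = n then (1 : ℤ) else 2) * (if k + 1 = n then 2 * e k else e k - e (k + 1))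

/-- products of the lengths and the coefficients of the highest root -/
theorem tth {n : ℕ} (hn : 3 ≤ n) (i : Fin n) : (Bt n).t i * (Bt n).th i = gg i := by
  show (if (i : ℕ) + 1 = n then (2 : ℤ) else 1) * (if (i : ℕ) = 0 ∨ (i : ℕ) + 1 = n then 1 else 2) =
    if (i : ℕ) = 0 then 1 else 2
  by_cases h0 : (i : ℕ) = 0
  · have h1 : ¬ (i : ℕ) + 1 = n := by omega
    rw [if_neg h1, if_pos (Or.inl h0), if_pos h0]
    norm_num
  · by_cases h1 : (i : ℕ) + 1 = n
    · rw [if_pos h1, if_pos (Or.inr h1), if_neg h0]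
      norm_num
    · rw [if_neg h1, if_neg (not_or.2 ⟨h0, h1⟩), if_neg h0]
      norm_num

theorem Cst {n : ℕ} (j i : Fin n) : (Bt n).C j i = (if (i : ℕ) = j then 2 else 0) -
    (if (i : ℕ) = j + 1 then 1 else 0) -
    (if (i : ℕ) = (j : ℕ) - 1 then cc n j else 0) := by
  show (if j = i then (2 : ℤ) else if (j : ℕ) + 1 = i then -1 else
    if (i : ℕ) + 1 = j then (if (j : ℕ) + 1 = n then -2 else -1) else 0) = _
  have e1 : (j = i) ↔ (i : ℕ) = j := by
    rw [Fin.ext_iff]
    exact eq_comm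
  simp only [e1]
  unfold cc
  split_ifs <;> omega

/-- the coordinates of the highest root -/
theorem csum {n : ℕ} (hn : 3 ≤ n) (j : Fin n) :
    (∑ i, (Bt n).C j i * ((Bt n).t i * (Bt n).th i)) = if (j : ℕ) = 1 then 1 else 0 := by
  have h1 : ∀ i : Fin n, (Bt n).C j i * ((Bt n).t i * (Bt n).th i) =
      (if (i : ℕ) = j then 2 * gg i else 0) - (if (i : ℕ) = j + 1 then gg i else 0) -
      (if (i : ℕ) = (j : ℕ) - 1 then cc n j * gg i else 0) := by
    intro i
    rw [tth hn, Cst]
    split_ifs <;> ring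
  have s1 : (∑ i : Fin n, if (i : ℕ) = j then 2 * gg i else 0) = if (j : ℕ) < n then 2 * gg j else 0 :=
    sum_one (fun m => 2 * gg m) j
  have s2 : (∑ i : Fin n, if (i : ℕ) = (j : ℕ) + 1 then gg i else 0) = if (j : ℕ) + 1 < n then gg (j + 1) else 0 :=
    sum_one gg (j + 1)
  have s3 : (∑ i : Fin n, if (i : ℕ) = (j : ℕ) - 1 then cc n j * gg i else 0) =
      if (j : ℕ) - 1 < n then cc n j * gg (j - 1) else 0 := sum_one (fun m => cc n j * gg m) (j - 1)
  rw [Finset.sum_congr rfl fun i _ => h1 i, Finset.sum_sub_distrib, Finset.sum_sub_distrib, s1, s2, s3]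
  have hj := j.2
  unfold cc gg
  split_ifs <;> first | omega | (exfalso; assumption)

theorem tt_th {n : ℕ} (hn : 3 ≤ n) : (Bt n).tt (Bt n).th = 1 := by
  unfold GD.tt
  have h1 : ∀ i : Fin n, (∑ j, (Bt n).th i * (Bt n).C i j * (Bt n).t j * (Bt n).th j) =
      if (i : ℕ) = 1 then (2 : ℤ) else 0 := by
    intro i
    have h2 : (∑ j, (Bt n).th i * (Bt n).C i j * (Bt n).t j * (Bt n).th j) =
        (Bt n).th i * ∑ j, (Bt n).C i j * ((Bt n).t j * (Bt n).th j) := by
      rw [Finset.mul_sum]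
      exact Finset.sum_congr rfl fun j _ => by ring
    rw [h2, csum hn]
    by_cases hi : (i : ℕ) = 1
    · rw [if_pos hi, if_pos hi]
      show (if (i : ℕ) = 0 ∨ (i : ℕ) + 1 = n then (1 : ℤ) else 2) * 1 = 2
      rw [if_neg (by omega)]
      norm_num
    · rw [if_neg hi, if_neg hi, mul_zero]
  have s1 : (∑ i : Fin n, if (i : ℕ) = 1 then (2 : ℤ) else 0) = if 1 < n then (2 : ℤ) else 0 :=
    sum_one (fun _ => (2 : ℤ)) 1
  rw [Finset.sum_congr rfl fun i _ => h1 i, s1, if_pos (by omega)]
  norm_num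

theorem rt_th {n : ℕ} (hn : 3 ≤ n) (j : Fin n) : (Bt n).rt (Bt n).th j = if (j : ℕ) = 1 then 1 else 0 := by
  unfold GD.rt
  rw [tt_th hn, Int.ediv_one, ← csum hn]
  exact Finset.sum_congr rfl fun i _ => by ring

theorem tel (e : ℕ → ℤ) (m : ℕ) : (∑ k ∈ Finset.range (m + 1), (if k = 0 then (1 : ℤ) else 2) * (e k - e (k + 1))) =
    e 0 + e 1 - 2 * e (m + 1) := by
  induction m with
  | zero => simp; ring
  | succ m ih =>
    rw [Finset.sum_range_succ, ih, if_neg (by omega)]
    ring

theorem dot_th {n : ℕ} (hn : 3 ≤ n) {x : Option (Fin n) → ℤ} {e : ℕ → ℤ}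
    (hx : ∀ k : Fin n, x (some k) = if (k : ℕ) + 1 = n then 2 * e k else e k - e (k + 1)) :
    dot (Bt n).th (fp x) = e 0 + e 1 := by
  obtain ⟨m, rfl⟩ : ∃ m, n = m + 2 := ⟨n - 2, by omega⟩
  unfold dot
  have h1 : ∀ k : Fin (m + 2), (Bt (m + 2)).th k * fp x k = G (m + 2) e k := by
    intro k
    show (if (k : ℕ) = 0 ∨ (k : ℕ) + 1 = m + 2 then (1 : ℤ) else 2) * x (some k) = _
    rw [hx]
    rfl
  rw [Finset.sum_congr rfl fun k _ => h1 k, Fin.sum_univ_eq_sum_range (G (m + 2) e) (m + 2),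
    Finset.sum_range_succ]
  have h2 : ∀ k ∈ Finset.range (m + 1), G (m + 2) e k =
      (if k = 0 then (1 : ℤ) else 2) * (e k - e (k + 1)) := by
    intro k hk
    have hk' := Finset.mem_range.1 hk
    unfold G
    have e1 : ¬ k + 1 = m + 2 := by omega
    rw [if_neg e1]
    by_cases h0 : k = 0
    · rw [if_pos (Or.inl h0), if_pos h0]
    · rw [if_neg (not_or.2 ⟨h0, e1⟩), if_neg h0]
  rw [Finset.sum_congr rfl h2, tel]
  unfold G
  rw [if_pos (Or.inr rfl), if_pos rfl]
  ring

variable {n : ℕ} {D : RDat (Option (Fin n)) (Option (Fin n))}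

theorem P_none (hn : 3 ≤ n) (hD : (Bt n).AffDat D) {x : Option (Fin n) → ℤ} (hx : P n x) : P n (D.s none x) := by
  obtain ⟨h0, e, he, hx⟩ := hx
  have hco : D.co none x = 1 - e 0 - e 1 := by
    rw [hD.co]
    show x none - dot (Bt n).th (fp x) = _
    rw [h0, dot_th hn hx]
    ring
  have hs : ∀ o, D.s none x o = x o - (1 - e 0 - e 1) * aw 0 (-((Bt n).rt (Bt n).th)) o := by
    intro o
    show x o - (D.co none x • D.al none) o = _
    rw [hD.al, hco]
    rfl
  refine ⟨?_, fun k => if k = 0 then 1 - e 1 else if k = 1 then 1 - e 0 else e k, fun j => ?_, fun k => ?_⟩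
  · rw [hs, h0]
    show (1 : ℤ) - (1 - e 0 - e 1) * 0 = 1
    ring
  · have a0 := he 0
    have a1 := he 1
    have aj := he j
    dsimp only
    split_ifs <;> omega
  · have h1 : D.s none x (some k) = x (some k) + (1 - e 0 - e 1) * (if (k : ℕ) = 1 then 1 else 0) := by
      rw [hs]
      show x (some k) - (1 - e 0 - e 1) * (-((Bt n).rt (Bt n).th) k) = _
      rw [rt_th hn]
      ring
    rw [h1, hx]
    by_cases k0 : (k : ℕ) = 0
    · simp only [k0]
      have : ¬ 0 + 1 = n := by omega
      rw [if_neg this, if_neg this]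
      norm_num
    · by_cases k1 : (k : ℕ) = 1
      · simp only [k1]
        have : ¬ 1 + 1 = n := by omega
        rw [if_neg this, if_neg this]
        norm_num
      · have k2 : ¬ (k : ℕ) + 1 = 0 := by omega
        have k3 : ¬ (k : ℕ) + 1 = 1 := by omega
        simp only [if_neg k0, if_neg k1, if_neg k2, if_neg k3]
        ring

theorem P_some (hD : (Bt n).AffDat D) {x : Option (Fin n) → ℤ} (hx : P n x) (j : Fin n) (hj : (j : ℕ) + 1 ≠ n) :
    P n (D.s (some j) x) := by
  obtain ⟨h0, e, he, hx⟩ := hx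
  have hco : D.co (some j) x = e j - e (j + 1) := by
    rw [hD.co]
    show x (some j) = _
    rw [hx, if_neg hj]
  have hs : ∀ o, D.s (some j) x o = x o - (e j - e (j + 1)) * aw 0 ((Bt n).rtw j) o := by
    intro o
    show x o - (D.co (some j) x • D.al (some j)) o = _
    rw [hD.al, hco]
    rfl
  refine ⟨?_, fun k => if k = j then e (j + 1) else if k = j + 1 then e j else e k, fun k => ?_, fun k => ?_⟩
  · rw [hs, h0]
    show (1 : ℤ) - (e j - e (j + 1)) * 0 = 1
    ring
  · have a0 := he j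
    have a1 := he (j + 1)
    have aj := he k
    dsimp only
    split_ifs <;> omega
  · have h1 : D.s (some j) x (some k) = x (some k) - (e j - e (j + 1)) * (Bt n).C k j := by
      rw [hs]
      rfl
    have hC : (Bt n).C k j = if k = j then (2 : ℤ) else if (k : ℕ) + 1 = j then -1 else
        if (j : ℕ) + 1 = k then (if (k : ℕ) + 1 = n then -2 else -1) else 0 := rfl
    have hjn := j.2
    rw [h1, hx, hC]
    by_cases c1 : k = j
    · subst c1
      have c2 : ¬ (k : ℕ) + 1 = k := by omega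
      simp only [if_true, if_neg hj, if_neg c2]
      ring
    · have c1' : ¬ (k : ℕ) = j := fun h => c1 (Fin.ext h)
      rw [if_neg c1]
      by_cases c2 : (k : ℕ) + 1 = j
      · have c3 : ¬ (k : ℕ) + 1 = n := by omega
        have c4 : ¬ (k : ℕ) = j + 1 := by omega
        rw [if_pos c2, if_neg c3, if_neg c3]
        simp only [if_neg c1', if_neg c4, if_pos c2]
        rw [c2]
        ring
      · rw [if_neg c2]
        by_cases c3 : (j : ℕ) + 1 = k
        · rw [if_pos c3]
          have c4 : (k : ℕ) = j + 1 := c3.symm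
          have c5 : ¬ (k : ℕ) + 1 = j + 1 := by omega
          by_cases c6 : (k : ℕ) + 1 = n
          · rw [if_pos c6, if_pos c6, if_pos c6]
            simp only [if_neg c1', if_pos c4]
            rw [c4]
            ring
          · rw [if_neg c6, if_neg c6, if_neg c6]
            simp only [if_neg c1', if_pos c4, if_neg c2, if_neg c5]
            rw [c4]
            ring
        · rw [if_neg c3]
          have c4 : ¬ (k : ℕ) = j + 1 := fun h => c3 h.symm
          have c5 : ¬ (k : ℕ) + 1 = j + 1 := by omega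
          simp only [if_neg c1', if_neg c4, if_neg c2, if_neg c5]
          ring

theorem P_sR (hn : 3 ≤ n) (hD : (Bt n).AffDat D) {i : Fin n} (hi : (i : ℕ) + 1 = n) :
    ∀ (w : List (Option (Fin n))) (x : Option (Fin n) → ℤ), (∀ j ∈ w, j ≠ some i) → P n x → P n (D.sR w x) := by
  intro w
  induction w with
  | nil => exact fun x _ hx => hx
  | cons j w ih =>
    intro x hw hx
    show P n (D.sR w (D.s j x))
    apply ih _ (fun k hk => hw k (List.mem_cons_of_mem _ hk))
    have hj := hw j (List.mem_cons_self ..)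
    rcases j with - | j
    · exact P_none hn hD hx
    · refine P_some hD hx j fun hc => hj ?_
      have : j = i := Fin.ext (by omega)
      rw [this]

/-- **the task** -/
theorem main : RDat.N_red → GD.J_Bav := by
  intro hN n hn D hD i hi
  have hi' : (i : ℕ) + 1 = n := by
    by_contra hc
    have h1 : (Bt n).t i = 1 := if_neg hc
    rw [h1] at hi
    norm_num at hi
  refine ⟨if_pos (Or.inr hi'), ?_⟩
  have hT : aw 1 ((Bt n).t i • om i) ∈ D.T := by
    rw [hD.T]
    show (1 : ℤ) ≤ 1
    exact le_rfl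
  obtain ⟨w, hw, hd, hpos⟩ := (hN _ _ D {j | j ≠ some i} (aw 1 ((Bt n).t i • om i)) hT).1
  refine ⟨w, hw, hd, ?_⟩
  have hP : P n (aw 1 ((Bt n).t i • om i)) := by
    refine ⟨rfl, fun _ => 1, fun _ => Or.inr rfl, fun k => ?_⟩
    show (Bt n).t i * (if k = i then 1 else 0) = _
    rw [hi]
    by_cases hk : k = i
    · rw [if_pos hk, hk, if_pos hi']
    · have hk' : ¬ (k : ℕ) + 1 = n := fun hc => hk (Fin.ext (by omega))
      rw [if_neg hk, if_neg hk']
      norm_num
  obtain ⟨-, e, he, hy⟩ := P_sR hn hD hi' w _ hw hP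
  intro j
  by_cases hj : j = some i
  · rw [hj, hD.co]
    show 0 ≤ D.sR w (aw 1 ((Bt n).t i • om i)) (some i)
    rw [hy, if_pos hi']
    have := he i
    omega
  · exact hpos j hj

end H391.KR.P_jBav

end
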