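import Pool.Agent.H391.KR.JC

noncomputable section

namespace H391.KR.P_jBpre

open Finset H391.KR H391.KR.GD

/-- the Cartan matrix on the natural numbers -/
def Cn (n i j : ℕ) : ℤ := if i = j then 2 else if i + 1 = j then -1 else
    if j + 1 = i then (if i + 1 = n then -2 else -1) else 0

/-- the lengths -/
def tn (n i : ℕ) : ℤ := if i + 1 = n then 2 else 1

/-- the highest root -/
def thn (n i : ℕ) : ℤ := if i = 0 ∨ i + 1 = n then 1 else 2

theorem C_eq {n : ℕ} (i j : Fin n) : (Bt n).C i j = Cn n i j := by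
  simp only [Bt, Cn, Fin.ext_iff]

theorem t_eq {n : ℕ} (i : Fin n) : (Bt n).t i = tn n i := rfl

theorem th_eq {n : ℕ} (i : Fin n) : (Bt n).th i = thn n i := rfl

theorem sum_conv {n : ℕ} (a : Fin n → ℤ) (A : ℕ → ℤ) (hA : ∀ i : Fin n, A i = a i) :
    ∑ i, ∑ j, a i * (Bt n).C i j * (Bt n).t j * a j =
      ∑ i ∈ range n, ∑ j ∈ range n, A i * Cn n i j * tn n j * A j := by
  rw [Finset.sum_range]
  refine Finset.sum_congr rfl fun i _ => ?_
  rw [Finset.sum_range]
  refine Finset.sum_congr rfl fun j _ => ?_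
  rw [hA, hA, C_eq, t_eq]

/-- adding an index to a tridiagonal double sum -/
theorem step (G : ℕ → ℕ → ℤ) (M : ℕ) (h1 : ∀ i < M, G i (M + 1) = 0 ∧ G (M + 1) i = 0) :
    ∑ i ∈ range (M + 2), ∑ j ∈ range (M + 2), G i j =
      ∑ i ∈ range (M + 1), ∑ j ∈ range (M + 1), G i j +
        (G M (M + 1) + G (M + 1) M + G (M + 1) (M + 1)) := by
  rw [Finset.sum_range_succ]
  have e1 : ∑ i ∈ range (M + 1), ∑ j ∈ range (M + 2), G i j =
      ∑ i ∈ range (M + 1), ∑ j ∈ range (M + 1), G i j + G M (M + 1) := by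
    have e : ∑ i ∈ range (M + 1), ∑ j ∈ range (M + 2), G i j =
        ∑ i ∈ range (M + 1), (∑ j ∈ range (M + 1), G i j + G i (M + 1)) :=
      sum_congr rfl fun i _ => sum_range_succ _ _
    rw [e, sum_add_distrib]
    congr 1
    rw [sum_range_succ, sum_eq_zero, zero_add]
    intro i hi
    exact (h1 i (mem_range.1 hi)).1
  have e2 : ∑ j ∈ range (M + 2), G (M + 1) j = G (M + 1) M + G (M + 1) (M + 1) := by
    rw [sum_range_succ, sum_range_succ, sum_eq_zero, zero_add]
    intro i hi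
    exact (h1 i (mem_range.1 hi)).2
  rw [e1, e2]
  ring

theorem Cn_far {n M i : ℕ} (hi : i < M) : Cn n i (M + 1) = 0 ∧ Cn n (M + 1) i = 0 := by
  unfold Cn
  constructor
  · rw [if_neg (by omega), if_neg (by omega), if_neg (by omega)]
  · rw [if_neg (by omega), if_neg (by omega), if_neg (by omega)]

theorem far {n M : ℕ} (A : ℕ → ℤ) (i : ℕ) (hi : i < M) :
    A i * Cn n i (M + 1) * tn n (M + 1) * A (M + 1) = 0 ∧
      A (M + 1) * Cn n (M + 1) i * tn n i * A i = 0 := by
  obtain ⟨h1, h2⟩ := Cn_far (n := n) hi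
  rw [h1, h2]
  constructor <;> ring

theorem Cn_diag (n i : ℕ) : Cn n i i = 2 := by
  unfold Cn
  rw [if_pos rfl]

theorem Cn_up (n i : ℕ) : Cn n i (i + 1) = -1 := by
  unfold Cn
  rw [if_neg (by omega), if_pos rfl]

theorem Cn_dn {n i : ℕ} (h : i + 2 ≠ n) : Cn n (i + 1) i = -1 := by
  unfold Cn
  rw [if_neg (by omega), if_neg (by omega), if_pos rfl, if_neg (by omega)]

theorem Cn_dn' {n i : ℕ} (h : i + 2 = n) : Cn n (i + 1) i = -2 := by
  unfold Cn
  rw [if_neg (by omega), if_neg (by omega), if_pos rfl, if_pos (by omega)]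

theorem tn_one {n i : ℕ} (h : i + 1 ≠ n) : tn n i = 1 := by
  unfold tn
  rw [if_neg h]

theorem tn_two {n i : ℕ} (h : i + 1 = n) : tn n i = 2 := by
  unfold tn
  rw [if_pos h]

theorem chain (n : ℕ) (A : ℕ → ℤ) (M : ℕ) (hM : M + 2 ≤ n) :
    ∑ i ∈ range (M + 1), ∑ j ∈ range (M + 1), A i * Cn n i j * tn n j * A j =
      A 0 ^ 2 + ∑ k ∈ range M, (A (k + 1) - A k) ^ 2 + A M ^ 2 := by
  induction M with
  | zero =>
    rw [Finset.sum_range_one, Finset.sum_range_one, Finset.sum_range_zero, Cn_diag,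
      tn_one (by omega)]
    ring
  | succ M ih =>
    rw [step (fun i j => A i * Cn n i j * tn n j * A j) M (fun i hi => far A i hi),
      ih (by omega), sum_range_succ]
    show _ + (A M * Cn n M (M + 1) * tn n (M + 1) * A (M + 1) +
      A (M + 1) * Cn n (M + 1) M * tn n M * A M +
      A (M + 1) * Cn n (M + 1) (M + 1) * tn n (M + 1) * A (M + 1)) = _
    rw [Cn_up, Cn_dn (by omega), Cn_diag, tn_one (n := n) (i := M + 1) (by omega),
      tn_one (n := n) (i := M) (by omega)]
    ring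

theorem full {n : ℕ} (A : ℕ → ℤ) (M : ℕ) (hM : M + 2 = n) :
    ∑ i ∈ range n, ∑ j ∈ range n, A i * Cn n i j * tn n j * A j =
      A 0 ^ 2 + ∑ k ∈ range M, (A (k + 1) - A k) ^ 2 + (2 * A (M + 1) - A M) ^ 2 := by
  have h := step (fun i j => A i * Cn n i j * tn n j * A j) M (fun i hi => far A i hi)
  rw [chain n A M hM.le] at h
  rw [← hM] at h ⊢
  rw [h]
  show _ + (A M * Cn (M + 2) M (M + 1) * tn (M + 2) (M + 1) * A (M + 1) +
      A (M + 1) * Cn (M + 2) (M + 1) M * tn (M + 2) M * A M +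
      A (M + 1) * Cn (M + 2) (M + 1) (M + 1) * tn (M + 2) (M + 1) * A (M + 1)) = _
  rw [Cn_up, Cn_dn' rfl, Cn_diag, tn_two (n := M + 2) (i := M + 1) rfl,
    tn_one (n := M + 2) (i := M) (by omega)]
  ring

theorem pd {n : ℕ} (hn : 3 ≤ n) (a : Fin n → ℤ) (ha : a ≠ 0) :
    0 < ∑ i, ∑ j, a i * (Bt n).C i j * (Bt n).t j * a j := by
  obtain ⟨A, hAdef⟩ : ∃ A : ℕ → ℤ, A = fun k => if h : k < n then a ⟨k, h⟩ else 0 := ⟨_, rfl⟩
  have hA : ∀ i : Fin n, A i = a i := by
    intro i
    rw [hAdef]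
    simp
  obtain ⟨M, hM⟩ : ∃ M, M + 2 = n := ⟨n - 2, by omega⟩
  rw [sum_conv a A hA, full A M hM]
  by_contra hcon
  have hs : 0 ≤ ∑ k ∈ range M, (A (k + 1) - A k) ^ 2 := sum_nonneg fun k _ => sq_nonneg _
  have h0 : A 0 ^ 2 = 0 := by nlinarith [sq_nonneg (A 0), sq_nonneg (2 * A (M + 1) - A M)]
  have h1 : ∑ k ∈ range M, (A (k + 1) - A k) ^ 2 = 0 := by
    nlinarith [sq_nonneg (A 0), sq_nonneg (2 * A (M + 1) - A M)]
  have h2 : (2 * A (M + 1) - A M) ^ 2 = 0 := by
    nlinarith [sq_nonneg (A 0), sq_nonneg (2 * A (M + 1) - A M)]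
  have h1' := (sum_eq_zero_iff_of_nonneg fun k _ => sq_nonneg (A (k + 1) - A k)).1 h1
  have g0 : A 0 = 0 := pow_eq_zero_iff (two_ne_zero) |>.1 h0
  have g1 : ∀ k ≤ M, A k = 0 := by
    intro k
    induction k with
    | zero => intro _; exact g0
    | succ k ih =>
      intro hk
      have e1 := ih (by omega)
      have e2 := h1' k (mem_range.2 (by omega))
      have e3 : A (k + 1) - A k = 0 := pow_eq_zero_iff (two_ne_zero) |>.1 e2
      omega
  have g2 : A (M + 1) = 0 := by
    have e3 : 2 * A (M + 1) - A M = 0 := pow_eq_zero_iff (two_ne_zero) |>.1 h2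
    have e4 := g1 M le_rfl
    omega
  apply ha
  funext i
  rw [← hA i]
  show A i = 0
  rcases Nat.lt_or_ge (i : ℕ) (M + 1) with h | h
  · exact g1 i (by omega)
  · have : (i : ℕ) = M + 1 := by have := i.2; omega
    rw [this]
    exact g2

theorem thq {n : ℕ} (hn : 3 ≤ n) :
    ∑ i, ∑ j, (Bt n).th i * (Bt n).C i j * (Bt n).t j * (Bt n).th j = 2 := by
  obtain ⟨M, hM⟩ : ∃ M, M + 3 = n := ⟨n - 3, by omega⟩
  rw [sum_conv (Bt n).th (thn n) (fun i => (th_eq i).symm), full (thn n) (M + 1) (by omega),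
    sum_range_succ']
  have e0 : thn n 0 = 1 := by unfold thn; rw [if_pos (Or.inl rfl)]
  have e1 : thn n (0 + 1) = 2 := by unfold thn; rw [if_neg (by omega)]
  have e2 : thn n (M + 1) = 2 := by unfold thn; rw [if_neg (by omega)]
  have e3 : thn n (M + 1 + 1) = 1 := by unfold thn; rw [if_pos (by omega)]
  have e4 : ∑ k ∈ range M, (thn n (k + 1 + 1) - thn n (k + 1)) ^ 2 = 0 := by
    refine sum_eq_zero fun k hk => ?_
    have hk' := mem_range.1 hk
    have f1 : thn n (k + 1 + 1) = 2 := by unfold thn; rw [if_neg (by omega)]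
    have f2 : thn n (k + 1) = 2 := by unfold thn; rw [if_neg (by omega)]
    rw [f1, f2]
    norm_num
  rw [e4, e0, e1, e2, e3]
  norm_num

theorem thd {n : ℕ} (hn : 3 ≤ n) (i : Fin n) :
    0 ≤ ∑ j, (Bt n).C i j * (Bt n).t j * (Bt n).th j := by
  have e : ∑ j, (Bt n).C i j * (Bt n).t j * (Bt n).th j =
      ∑ j ∈ range n, ((if (i : ℕ) = j then 2 * (tn n j * thn n j) else 0) +
        ((if (i : ℕ) + 1 = j then -(tn n j * thn n j) else 0) +
          (if j + 1 = (i : ℕ) then (if (i : ℕ) + 1 = n then -2 else -1) * (tn n j * thn n j)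
            else 0))) := by
    rw [Finset.sum_range]
    refine Finset.sum_congr rfl fun j _ => ?_
    rw [C_eq, t_eq, th_eq, mul_assoc]
    unfold Cn
    split_ifs <;> first | omega | ring
  rw [e, sum_add_distrib, sum_add_distrib, sum_ite_eq, sum_ite_eq, if_pos (mem_range.2 i.2)]
  have hu0 : tn n 0 * thn n 0 = 1 := by
    unfold tn thn
    rw [if_neg (by omega), if_pos (Or.inl rfl)]
    norm_num
  have hu : ∀ k, 1 ≤ k → tn n k * thn n k = 2 := by
    intro k hk
    unfold tn thn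
    by_cases h : k + 1 = n
    · rw [if_pos h, if_pos (Or.inr h)]
      norm_num
    · rw [if_neg h, if_neg (by omega)]
      norm_num
  have hi := i.2
  rcases Nat.eq_zero_or_pos (i : ℕ) with h0 | h0
  · rw [h0, if_pos (mem_range.2 (by omega)), hu0, hu (0 + 1) (by omega), sum_eq_zero]
    · norm_num
    · intro j _
      rw [if_neg (by omega)]
  · obtain ⟨k, hk⟩ : ∃ k, (i : ℕ) = k + 1 := ⟨(i : ℕ) - 1, by omega⟩
    have e3 : ∑ j ∈ range n, (if j + 1 = (i : ℕ) then
        (if (i : ℕ) + 1 = n then -2 else -1) * (tn n j * thn n j) else 0) =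
        (if (i : ℕ) + 1 = n then -2 else -1) * (tn n k * thn n k) := by
      rw [sum_eq_single k]
      · rw [if_pos (by omega)]
      · intro j _ hj
        rw [if_neg (by omega)]
      · intro hk'
        exact absurd (mem_range.2 (by omega)) hk'
    rw [e3, hu i h0]
    have hk2 : tn n k * thn n k ≤ 2 := by
      rcases Nat.eq_zero_or_pos k with h1 | h1
      · rw [h1, hu0]
        norm_num
      · rw [hu k h1]
    by_cases h2 : (i : ℕ) + 1 = n
    · rw [if_pos h2, if_neg (by rw [mem_range]; omega)]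
      linarith
    · rw [if_neg h2, if_pos (mem_range.2 (by omega)), hu ((i : ℕ) + 1) (by omega)]
      linarith

theorem main : GD.J_Bpre := by
  intro n hn
  refine ⟨⟨?_, ?_, ?_, ?_, fun a ha => pd hn a ha, thq hn, thd hn, ?_⟩, ⟨?_, ?_, ?_, ?_, ?_⟩⟩
  · intro i
    rw [t_eq]
    unfold tn
    split_ifs
    · exact Or.inr rfl
    · exact Or.inl rfl
  · intro i j
    rw [t_eq, t_eq, C_eq, C_eq]
    unfold tn Cn
    have hi := i.2
    have hj := j.2
    split_ifs <;> first | omega | norm_num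
  · intro i
    rw [C_eq, Cn_diag]
  · intro i j hij
    have h : (i : ℕ) ≠ j := fun h => hij (Fin.ext h)
    rw [C_eq]
    unfold Cn
    rw [if_neg h]
    split_ifs <;> norm_num
  · intro i
    rw [th_eq]
    unfold thn
    split_ifs <;> norm_num
  · intro i
    rw [t_eq]
    unfold tn
    split_ifs
    · exact Or.inr rfl
    · exact Or.inl rfl
  · intro i _
    rw [th_eq]
    unfold thn
    split_ifs <;> norm_num
  · intro i j hi hj hij
    exfalso
    apply hij
    rw [t_eq] at hi hj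
    unfold tn at hi hj
    refine Fin.ext ?_
    split_ifs at hi hj <;> omega
  · intro i j hi hj
    rw [t_eq] at hi hj
    rw [C_eq, C_eq]
    have hi' : (i : ℕ) + 1 = n := by
      by_contra h
      rw [tn_one h] at hi
      norm_num at hi
    have hj' : (j : ℕ) + 1 ≠ n := by
      intro h
      rw [tn_two h] at hj
      norm_num at hj
    have hjn := j.2
    by_cases h : (j : ℕ) + 1 = i
    · right
      rw [← h]
      exact ⟨Cn_dn' (by omega), Cn_up _ _⟩
    · left
      unfold Cn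
      constructor
      · rw [if_neg (by omega), if_neg (by omega), if_neg (by omega)]
      · rw [if_neg (by omega), if_neg (by omega), if_neg (by omega)]
  · intro i hi
    rw [sum_eq_zero]
    · norm_num
    · intro j _
      rw [if_neg]
      rintro ⟨h1, h2⟩
      apply h2
      rw [t_eq] at hi h1
      unfold tn at hi h1
      refine Fin.ext ?_
      split_ifs at hi h1 <;> omega

end H391.KR.P_jBpre
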