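import Pool.Agent.H391.KR.JC

set_option autoImplicit false

/-!
# Type `B_n`: `-1` is a product of simple reflections
-/

noncomputable section

namespace H391.KR.P_jBw0

open Finset H391.KR

/-- simple reflection -/
def sf (n : ℕ) (y : Fin n → ℤ) (j : Fin n) : Fin n → ℤ := y - y j • (Bt n).rtw j

/-- weights from coordinates (doubled) -/
def M (n : ℕ) (X : ℕ → ℤ) : Fin n → ℤ :=
  fun j => if (j : ℕ) + 1 = n then 2 * X j else X j - X (j + 1)

/-- exchange of two coordinates -/
def ex2 (i : ℕ) (X : ℕ → ℤ) : ℕ → ℤ :=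
  fun k => if k = i then X (i + 1) else if k = i + 1 then X i else X k

/-- change of one sign -/
def ng (i : ℕ) (X : ℕ → ℤ) : ℕ → ℤ := fun k => if k = i then -X k else X k

theorem rtw_apply (n : ℕ) (i j : Fin n) : (Bt n).rtw i j = if j = i then 2 else
    if (j : ℕ) + 1 = i then -1 else
    if (i : ℕ) + 1 = j then (if (j : ℕ) + 1 = n then -2 else -1) else 0 := rfl

theorem sf_ex (n : ℕ) (i : Fin n) (hi : (i : ℕ) + 1 < n) (X : ℕ → ℤ) :
    sf n (M n X) i = M n (ex2 i X) := by
  funext j
  obtain ⟨i, hin⟩ := i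
  obtain ⟨j, hjn⟩ := j
  have hi' : i + 1 < n := hi
  have hin' : ¬ i + 1 = n := by omega
  simp only [sf, Pi.sub_apply, Pi.smul_apply, smul_eq_mul, rtw_apply, M, ex2, Fin.mk.injEq,
    if_neg hin']
  rcases eq_or_ne j i with h1 | h1
  · subst h1
    simp only [if_true, if_neg hin', if_neg (show ¬ j + 1 = j by omega)]
    ring
  · rcases eq_or_ne (j + 1) i with h2 | h2
    · subst h2
      simp only [if_neg h1, if_true, if_neg (show ¬ j + 1 = n by omega),
        if_neg (show ¬ j = j + 1 + 1 by omega)]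
      ring
    · rcases eq_or_ne j (i + 1) with h3 | h3
      · subst h3
        by_cases h4 : i + 1 + 1 = n
        · simp only [if_neg h1, if_neg h2, if_true, if_pos h4]
          ring
        · simp only [if_neg h1, if_neg h2, if_true, if_neg h4, if_neg (show ¬ i + 1 + 1 = i + 1 by omega)]
          ring
      · have h5 : ¬ i + 1 = j := fun h => h3 h.symm
        have h6 : ¬ j + 1 = i + 1 := by omega
        simp only [if_neg h1, if_neg h2, if_neg h3, if_neg h5, if_neg h6]
        ring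

theorem sf_ng (n : ℕ) (i : Fin n) (hi : (i : ℕ) + 1 = n) (X : ℕ → ℤ) :
    sf n (M n X) i = M n (ng i X) := by
  funext j
  obtain ⟨i, hin⟩ := i
  obtain ⟨j, hjn⟩ := j
  have hi' : i + 1 = n := hi
  simp only [sf, Pi.sub_apply, Pi.smul_apply, smul_eq_mul, rtw_apply, M, ng, Fin.mk.injEq,
    if_pos hi']
  rcases eq_or_ne j i with h1 | h1
  · subst h1
    simp only [if_true, if_pos hi']
    ring
  · have h3 : ¬ j + 1 = n := by omega
    rcases eq_or_ne (j + 1) i with h2 | h2
    · subst h2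
      simp only [if_neg h1, if_true, if_neg h3]
      ring
    · have h5 : ¬ i + 1 = j := by omega
      simp only [if_neg h1, if_neg h2, if_neg h3, if_neg h5]
      ring

theorem blk (n : ℕ) (d : ℕ) : ∀ j : ℕ, j + d + 1 = n → ∃ w : List (Fin n), ∀ X : ℕ → ℤ,
    w.foldl (sf n) (M n X) = M n (ng j X) := by
  induction d with
  | zero =>
    intro j hj
    have hjn : j < n := by omega
    refine ⟨[⟨j, hjn⟩], fun X => ?_⟩
    rw [List.foldl_cons, List.foldl_nil]
    exact sf_ng n ⟨j, hjn⟩ (show j + 1 = n by omega) X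
  | succ d ih =>
    intro j hj
    obtain ⟨w, hw⟩ := ih (j + 1) (by omega)
    have hjn : j < n := by omega
    have hj' : ((⟨j, hjn⟩ : Fin n) : ℕ) + 1 < n := by
      change j + 1 < n
      omega
    refine ⟨⟨j, hjn⟩ :: (w ++ [⟨j, hjn⟩]), fun X => ?_⟩
    rw [List.foldl_cons, List.foldl_append, List.foldl_cons, List.foldl_nil,
      sf_ex n ⟨j, hjn⟩ hj' X, hw, sf_ex n ⟨j, hjn⟩ hj']
    congr 1
    funext k
    simp only [ex2, ng]
    rcases eq_or_ne k j with h1 | h1
    · subst h1
      simp only [if_true, if_neg (show ¬ k + 1 = k by omega)]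
    · rcases eq_or_ne k (j + 1) with h2 | h2
      · subst h2
        simp only [if_neg h1, if_true, if_neg (show ¬ j = j + 1 by omega)]
      · simp only [if_neg h1, if_neg h2]

theorem tot (n : ℕ) (m : ℕ) : m ≤ n → ∃ w : List (Fin n), ∀ X : ℕ → ℤ,
    w.foldl (sf n) (M n X) = M n (fun k => if k < m then -X k else X k) := by
  induction m with
  | zero =>
    intro _
    refine ⟨[], fun X => ?_⟩
    simp only [List.foldl_nil, Nat.not_lt_zero, if_false]
  | succ m ih =>
    intro hm
    obtain ⟨w, hw⟩ := ih (by omega)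
    obtain ⟨w', hw'⟩ := blk n (n - 1 - m) m (by omega)
    refine ⟨w ++ w', fun X => ?_⟩
    rw [List.foldl_append, hw, hw']
    congr 1
    funext k
    simp only [ng]
    rcases lt_trichotomy k m with h | h | h
    · rw [if_neg (by omega), if_pos h, if_pos (by omega)]
    · rw [if_pos h, if_neg (by omega), if_pos (by omega)]
    · rw [if_neg (by omega), if_neg (by omega), if_neg (by omega)]

theorem M_neg (n : ℕ) (X : ℕ → ℤ) : M n (fun k => if k < n then -X k else X k) = -M n X := by
  funext j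
  have hj := j.2
  simp only [M, Pi.neg_apply]
  by_cases h : (j : ℕ) + 1 = n
  · rw [if_pos h, if_pos h, if_pos hj]
    ring
  · rw [if_neg h, if_neg h, if_pos hj, if_pos (by omega)]
    ring

theorem M_surj (n : ℕ) (x : Fin n → ℤ) : ∃ X : ℕ → ℤ, M n X = (2 : ℤ) • x := by
  obtain ⟨y, hy⟩ : ∃ y : ℕ → ℤ, ∀ (l : ℕ) (h : l < n), y l = x ⟨l, h⟩ :=
    ⟨fun l => if h : l < n then x ⟨l, h⟩ else 0, fun l h => dif_pos h⟩
  refine ⟨fun j => y (n - 1) + ∑ l ∈ Ico j (n - 1), 2 * y l, ?_⟩
  funext j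
  obtain ⟨j, hj⟩ := j
  simp only [M, Pi.smul_apply, smul_eq_mul]
  by_cases h : j + 1 = n
  · have h1 : n - 1 = j := by omega
    rw [if_pos h, h1, Ico_self, sum_empty, add_zero, hy j hj]
  · rw [if_neg h, Finset.sum_eq_sum_Ico_succ_bot (show j < n - 1 by omega), hy j hj]
    ring

theorem fold_smul (n : ℕ) (w : List (Fin n)) : ∀ x : Fin n → ℤ,
    w.foldl (sf n) ((2 : ℤ) • x) = (2 : ℤ) • w.foldl (sf n) x := by
  induction w with
  | nil => intro x; rfl
  | cons a w ih =>
    intro x
    rw [List.foldl_cons, List.foldl_cons, ← ih]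
    congr 1
    simp only [sf, Pi.smul_apply, smul_eq_mul, smul_sub, smul_smul]

theorem main : GD.J_Bw0 := by
  intro n _
  obtain ⟨w, hw⟩ := tot n n le_rfl
  refine ⟨w, fun x => ?_⟩
  change w.foldl (sf n) x = -x
  obtain ⟨X, hX⟩ := M_surj n x
  have h1 := hw X
  rw [M_neg, hX, fold_smul] at h1
  funext j
  have h2 := congrFun h1 j
  simp only [Pi.smul_apply, Pi.neg_apply, smul_eq_mul] at h2
  rw [Pi.neg_apply]
  omega

end H391.KR.P_jBw0
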