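import Pool.Agent.H391.KR.JC

/-! KR-jCav: type C_n, a reduced word which avoids a short node -/

set_option autoImplicit false

namespace H391.KR.P_jCav

open Finset GD

lemma sum_val (n m : ℕ) (c : ℤ) :
    (∑ l : Fin n, if (l : ℕ) = m then c else 0) = if m < n then c else 0 := by
  split_ifs with h
  · rw [Finset.sum_eq_single (⟨m, h⟩ : Fin n)]
    · simp
    · intro b _ hb
      rw [if_neg]
      intro hc
      exact hb (Fin.ext hc)
    · intro hc
      exact absurd (mem_univ _) hc
  · apply Finset.sum_eq_zero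
    intro l _
    rw [if_neg]
    have := l.isLt
    omega

lemma row (n : ℕ) (hn : 2 ≤ n) (k : Fin n) :
    (∑ l : Fin n, (Ct n).C k l * (Ct n).t l) = if (k : ℕ) = 0 then 2 else 0 := by
  have h1 : ∀ l : Fin n, (Ct n).C k l * (Ct n).t l =
      (if (l : ℕ) = (k : ℕ) then 2 * (Ct n).t k else 0) +
        (if (l : ℕ) = (k : ℕ) + 1 then -2 else 0) +
        (if (l : ℕ) + 1 = (k : ℕ) then -2 else 0) := by
    intro l
    have hk := k.isLt
    have hl := l.isLt
    simp only [Ct]
    by_cases e1 : k = l
    · subst e1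
      simp
    · have e1' : (k : ℕ) ≠ (l : ℕ) := fun h => e1 (Fin.ext h)
      rw [if_neg e1, if_neg e1'.symm]
      split_ifs <;> omega
  rw [Finset.sum_congr rfl (fun l _ => h1 l), sum_add_distrib, sum_add_distrib, sum_val, sum_val]
  have hk := k.isLt
  have h2 : (∑ l : Fin n, if (l : ℕ) + 1 = (k : ℕ) then (-2 : ℤ) else 0) =
      if (k : ℕ) = 0 then 0 else -2 := by
    rcases Nat.eq_zero_or_pos (k : ℕ) with h0 | h0
    · rw [if_pos h0]
      apply Finset.sum_eq_zero
      intro l _
      rw [if_neg]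
      omega
    · rw [if_neg (by omega)]
      have e : ∀ l : Fin n, (if (l : ℕ) + 1 = (k : ℕ) then (-2 : ℤ) else 0) =
          if (l : ℕ) = (k : ℕ) - 1 then (-2 : ℤ) else 0 := by
        intro l
        by_cases h : (l : ℕ) + 1 = (k : ℕ)
        · rw [if_pos h, if_pos (by omega)]
        · rw [if_neg h, if_neg (by omega)]
      rw [Finset.sum_congr rfl (fun l _ => e l), sum_val, if_pos (by omega)]
  rw [h2, if_pos hk]
  simp only [Ct]
  split_ifs <;> omega

lemma th_tt (n : ℕ) (hn : 2 ≤ n) : (Ct n).tt (Ct n).th = 1 := by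
  unfold GD.tt
  have h1 : (∑ i : Fin n, ∑ j : Fin n, (Ct n).th i * (Ct n).C i j * (Ct n).t j * (Ct n).th j) =
      2 := by
    have h2 : ∀ i : Fin n, (∑ j : Fin n, (Ct n).th i * (Ct n).C i j * (Ct n).t j * (Ct n).th j) =
        if (i : ℕ) = 0 then 2 else 0 := by
      intro i
      rw [← row n hn i]
      apply Finset.sum_congr rfl
      intro j _
      simp [Ct]
    rw [Finset.sum_congr rfl (fun i _ => h2 i), sum_val, if_pos (by omega)]
  rw [h1]
  norm_num

lemma rt_th (n : ℕ) (hn : 2 ≤ n) (j : Fin n) :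
    (Ct n).rt (Ct n).th j = if (j : ℕ) = 0 then 2 else 0 := by
  unfold GD.rt
  rw [th_tt n hn, ← row n hn j]
  have h : (∑ i : Fin n, (Ct n).C j i * (Ct n).t i * (Ct n).th i) =
      ∑ l : Fin n, (Ct n).C j l * (Ct n).t l := by
    apply Finset.sum_congr rfl
    intro l _
    simp [Ct]
  rw [h, Int.ediv_one]

/-- the invariant -/
def P (n : ℕ) (i : Fin n) (x : Option (Fin n) → ℤ) : Prop :=
  x none = 1 ∧ ∃ X : ℕ → ℤ, (∀ l : Fin n, x (some l) = X l - X (l + 1)) ∧
    (∀ k : ℕ, k ≤ i → X k = 0 ∨ X k = 2) ∧ ∀ k : ℕ, (i : ℕ) < k → X k = 0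

lemma P_s (n : ℕ) (hn : 2 ≤ n) (D : RDat (Option (Fin n)) (Option (Fin n)))
    (hD : (Ct n).AffDat D) (i : Fin n) (hi : (i : ℕ) + 1 ≠ n) (x : Option (Fin n) → ℤ)
    (hx : P n i x) (j : Option (Fin n)) (hj : j ≠ some i) : P n i (D.s j x) := by
  obtain ⟨hx0, X, hX, hX1, hX2⟩ := hx
  have hin := i.isLt
  unfold RDat.s
  rw [hD.co, hD.al]
  cases j with
  | none =>
    have hco : (Ct n).co none x = 1 - X 0 := by
      change x none - dot (Ct n).th (fp x) = 1 - X 0
      have h1 : dot (Ct n).th (fp x) = X 0 - X n := by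
        unfold dot fp
        have h2 : ∀ l : Fin n, (Ct n).th l * x (some l) = X l - X (l + 1) := by
          intro l
          rw [← hX l]
          simp [Ct]
        rw [Finset.sum_congr rfl (fun l _ => h2 l),
          Fin.sum_univ_eq_sum_range (fun k => X k - X (k + 1)) n, Finset.sum_range_sub']
      rw [h1, hx0, hX2 n (by omega)]
      ring
    rw [hco]
    refine ⟨?_, fun k => if k = 0 then 2 - X 0 else X k, ?_, ?_, ?_⟩
    · change x none - (1 - X 0) * 0 = 1
      rw [hx0]
      ring
    · intro l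
      change x (some l) - (1 - X 0) * (-((Ct n).rt (Ct n).th l)) = _
      rw [rt_th n hn, hX l]
      by_cases h : (l : ℕ) = 0
      · simp [h]
        ring
      · simp [h]
    · intro k hk
      by_cases h : k = 0
      · subst h
        rcases hX1 0 (by omega) with h1 | h1 <;> simp [h1]
      · simpa [h] using hX1 k hk
    · intro k hk
      have h : k ≠ 0 := by omega
      simpa [h] using hX2 k hk
  | some j =>
    have hco : (Ct n).co (some j) x = X j - X (j + 1) := hX j
    rw [hco]
    have hji : (j : ℕ) ≠ (i : ℕ) := by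
      intro h
      exact hj (by rw [Fin.ext h])
    have hjn := j.isLt
    by_cases hlt : (i : ℕ) < (j : ℕ)
    · have e : X j - X (j + 1) = 0 := by
        rw [hX2 j hlt, hX2 (j + 1) (by omega)]
        ring
      rw [e, zero_smul, sub_zero]
      exact ⟨hx0, X, hX, hX1, hX2⟩
    · have hlt' : (j : ℕ) < (i : ℕ) := by omega
      refine ⟨?_, fun k => if k = (j : ℕ) then X (j + 1) else if k = (j : ℕ) + 1 then X j
        else X k, ?_, ?_, ?_⟩
      · change x none - (X j - X (j + 1)) * 0 = 1
        rw [hx0]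
        ring
      · intro l
        change x (some l) - (X j - X (j + 1)) * (Ct n).C l j = _
        rw [hX l]
        have hln := l.isLt
        simp only [Ct]
        by_cases e1 : l = j
        · subst e1
          simp
          ring
        · have e1' : (l : ℕ) ≠ (j : ℕ) := fun h => e1 (Fin.ext h)
          by_cases e2 : (l : ℕ) + 1 = (j : ℕ)
          · have e3 : ¬ ((j : ℕ) + 1 = n) := by omega
            have e4 : ¬ ((l : ℕ) = (j : ℕ) + 1) := by omega
            simp only [e1, e1', e2, e3, e4, if_false, if_true]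
            ring
          · by_cases e3 : (j : ℕ) + 1 = (l : ℕ)
            · have e4 : ¬ ((l : ℕ) + 1 = (j : ℕ) + 1) := by omega
              have e5 : (l : ℕ) = (j : ℕ) + 1 := by omega
              have e6 : ¬ ((l : ℕ) + 1 = (j : ℕ)) := by omega
              simp only [e1, e2, e3, if_false, if_true]
              simp only [e5]
              simp
            · have e4 : ¬ ((l : ℕ) + 1 = (j : ℕ) + 1) := by omega
              have e5 : ¬ ((l : ℕ) = (j : ℕ) + 1) := by omega
              simp only [e1, e1', e2, e3, e4, e5, if_false]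
              ring
      · intro k hk
        dsimp only
        split_ifs
        · exact hX1 _ (by omega)
        · exact hX1 _ (by omega)
        · exact hX1 _ hk
      · intro k hk
        dsimp only
        rw [if_neg (by omega), if_neg (by omega)]
        exact hX2 k hk

lemma P_sR (n : ℕ) (hn : 2 ≤ n) (D : RDat (Option (Fin n)) (Option (Fin n)))
    (hD : (Ct n).AffDat D) (i : Fin n) (hi : (i : ℕ) + 1 ≠ n) :
    ∀ (w : List (Option (Fin n))) (x : Option (Fin n) → ℤ), P n i x → (∀ j ∈ w, j ≠ some i) →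
      P n i (D.sR w x) := by
  intro w
  induction w with
  | nil => intro x hx _; exact hx
  | cons j w ih =>
    intro x hx hw
    exact ih (D.s j x) (P_s n hn D hD i hi x hx j (hw j (List.mem_cons_self ..)))
      (fun k hk => hw k (List.mem_cons_of_mem _ hk))

theorem main : RDat.N_red → GD.J_Cav := by
  intro hred n hn D hD i hti
  have hi : (i : ℕ) + 1 ≠ n := by
    intro h
    simp [Ct, h] at hti
  refine ⟨rfl, ?_⟩
  have hT : aw 1 ((Ct n).t i • om i) ∈ D.T := by
    rw [hD.T]
    change (1 : ℤ) ≤ 1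
    exact le_rfl
  obtain ⟨⟨w, hw, hd, hp⟩, -⟩ := hred _ _ D {j | j ≠ some i} _ hT
  refine ⟨w, hw, hd, ?_⟩
  have hP : P n i (aw 1 ((Ct n).t i • om i)) := by
    refine ⟨rfl, fun k => if k ≤ (i : ℕ) then 2 else 0, ?_, ?_, ?_⟩
    · intro l
      change (Ct n).t i * (if l = i then 1 else 0) = _
      rw [hti]
      by_cases e1 : l = i
      · subst e1
        simp
      · have e1' : (l : ℕ) ≠ (i : ℕ) := fun h => e1 (Fin.ext h)
        by_cases e2 : (l : ℕ) ≤ (i : ℕ)
        · have e3 : (l : ℕ) + 1 ≤ (i : ℕ) := by omega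
          simp only [e1, e2, e3, if_true, if_false]
          norm_num
        · have e3 : ¬ ((l : ℕ) + 1 ≤ (i : ℕ)) := by omega
          simp only [e1, e2, e3, if_false]
          norm_num
    · intro k hk
      right
      simp [hk]
    · intro k hk
      dsimp only
      rw [if_neg (by omega)]
  have hPy := P_sR n hn D hD i hi w _ hP hw
  intro j
  by_cases hj : j = some i
  · subst hj
    obtain ⟨hx0, X, hX, hX1, hX2⟩ := hPy
    rw [hD.co]
    change 0 ≤ (D.sR w (aw 1 ((Ct n).t i • om i))) (some i)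
    rw [hX i, hX2 (i + 1) (by omega)]
    rcases hX1 i le_rfl with h | h <;> rw [h] <;> norm_num
  · exact hp j hj

end H391.KR.P_jCav
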