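import Pool.Agent.H391.KR.JC

/-!
# Type C: minus the identity is a product of simple reflections
-/

set_option autoImplicit false

namespace H391.KR.P_jCw0

open Finset

variable {n : ℕ}

/-- sum of the coordinates from `j` on -/
def E (j : ℕ) (x : Fin n → ℤ) : ℤ := ∑ l : Fin n, if j ≤ (l : ℕ) then x l else 0

/-- unit vectors -/
def d0 (i : ℕ) (k : Fin n) : ℤ := if (k : ℕ) = i then 1 else 0

/-- shifted unit vectors -/
def d1 (i : ℕ) (k : Fin n) : ℤ := if (k : ℕ) + 1 = i then 1 else 0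

theorem E_lin (j : ℕ) (x y : Fin n → ℤ) (c : ℤ) : E j (x - c • y) = E j x - c * E j y := by
  unfold E
  rw [mul_sum, ← sum_sub_distrib]
  refine sum_congr rfl fun l _ => ?_
  by_cases h : j ≤ (l : ℕ)
  · rw [if_pos h, if_pos h, if_pos h]
    rfl
  · rw [if_neg h, if_neg h, if_neg h]
    ring

theorem E_smul (j : ℕ) (x : Fin n → ℤ) (c : ℤ) : E j (c • x) = c * E j x := by
  unfold E
  rw [mul_sum]
  refine sum_congr rfl fun l _ => ?_
  by_cases h : j ≤ (l : ℕ)
  · rw [if_pos h, if_pos h]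
    rfl
  · rw [if_neg h, if_neg h, mul_zero]

theorem E_d0 {i : ℕ} (hi : i < n) (j : ℕ) :
    E j (d0 i : Fin n → ℤ) = if j ≤ i then 1 else 0 := by
  unfold E d0
  rw [sum_eq_single (⟨i, hi⟩ : Fin n)]
  · simp
  · intro b _ hb
    have h : (b : ℕ) ≠ i := fun h => hb (Fin.ext h)
    simp [h]
  · intro h
    exact absurd (mem_univ _) h

theorem E_d1 {i : ℕ} (hi : i ≤ n) (j : ℕ) :
    E j (d1 i : Fin n → ℤ) = if j < i then 1 else 0 := by
  cases i with
  | zero =>
    unfold E d1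
    simp
  | succ i =>
    have h : (d1 (i + 1) : Fin n → ℤ) = d0 i := by
      funext k
      unfold d1 d0
      simp
    rw [h, E_d0 (by omega)]
    simp

theorem E_succ {j : ℕ} (hj : j < n) (x : Fin n → ℤ) : E j x = x ⟨j, hj⟩ + E (j + 1) x := by
  have h : x ⟨j, hj⟩ = ∑ l : Fin n, if (l : ℕ) = j then x l else 0 := by
    rw [sum_eq_single (⟨j, hj⟩ : Fin n)]
    · simp
    · intro b _ hb
      have h : (b : ℕ) ≠ j := fun h => hb (Fin.ext h)
      simp [h]
    · intro h
      exact absurd (mem_univ _) h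
  rw [h]
  unfold E
  rw [← sum_add_distrib]
  refine sum_congr rfl fun l _ => ?_
  rcases lt_trichotomy j (l : ℕ) with h1 | h1 | h1
  · rw [if_pos h1.le, if_neg (by omega), if_pos (by omega), zero_add]
  · rw [if_pos h1.le, if_pos h1.symm, if_neg (by omega), add_zero]
  · rw [if_neg (by omega), if_neg (by omega), if_neg (by omega), add_zero]

theorem E_top (x : Fin n → ℤ) : E n x = 0 := by
  unfold E
  refine sum_eq_zero fun l _ => ?_
  have := l.2
  rw [if_neg (by omega)]

/-- the root `2 e_i` -/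
def r (i : ℕ) : Fin n → ℤ := (2 : ℤ) • d0 i - (2 : ℤ) • d1 i

theorem E_r {i : ℕ} (hi : i < n) (j : ℕ) : E j (r i : Fin n → ℤ) = if i = j then 2 else 0 := by
  unfold r
  rw [E_lin, E_smul, E_d0 hi, E_d1 hi.le]
  rcases lt_trichotomy i j with h | h | h
  · rw [if_neg (by omega), if_neg (by omega), if_neg (by omega)]
    norm_num
  · rw [if_pos (by omega), if_neg (by omega), if_pos h]
    norm_num
  · rw [if_pos (by omega), if_pos (by omega), if_neg (by omega)]
    norm_num

theorem rtw_mid {j : ℕ} (hj : j + 1 < n) (k : Fin n) :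
    (Ct n).rtw ⟨j, by omega⟩ k = 2 * d0 j k - d0 (j + 1) k - d1 j k := by
  show (if k = ⟨j, _⟩ then (2 : ℤ) else if (k : ℕ) + 1 = j then (if j + 1 = n then -2 else -1) else
    if j + 1 = (k : ℕ) then -1 else 0) = _
  unfold d0 d1
  simp only [Fin.ext_iff]
  split_ifs <;> omega

theorem rtw_top {j : ℕ} (hj : j + 1 = n) :
    (Ct n).rtw ⟨j, by omega⟩ = r j := by
  funext k
  have hk := k.2
  show (if k = ⟨j, _⟩ then (2 : ℤ) else if (k : ℕ) + 1 = j then (if j + 1 = n then -2 else -1) else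
    if j + 1 = (k : ℕ) then -1 else 0) = 2 * d0 j k - 2 * d1 j k
  unfold d0 d1
  simp only [Fin.ext_iff]
  split_ifs <;> omega

/-- products of reflections -/
def Re (T : (Fin n → ℤ) → (Fin n → ℤ)) : Prop :=
  ∃ w : List (Fin n), ∀ x : Fin n → ℤ, w.foldl (fun y j => y - y j • (Ct n).rtw j) x = T x

theorem Re.comp {T U : (Fin n → ℤ) → (Fin n → ℤ)} (hT : Re T) (hU : Re U) :
    Re fun x => U (T x) := by
  obtain ⟨w, hw⟩ := hT
  obtain ⟨w', hw'⟩ := hU
  refine ⟨w ++ w', fun x => ?_⟩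
  rw [List.foldl_append, hw, hw']

/-- a simple reflection -/
def s (j : Fin n) (x : Fin n → ℤ) : Fin n → ℤ := x - x j • (Ct n).rtw j

theorem Re_s (j : Fin n) : Re (s j) := ⟨[j], fun _ => rfl⟩

/-- change of one sign -/
def N (j : ℕ) (x : Fin n → ℤ) : Fin n → ℤ := x - E j x • r j

theorem N_step {j : ℕ} (hj : j + 1 < n) (x : Fin n → ℤ) :
    N j x = s ⟨j, by omega⟩ (N (j + 1) (s ⟨j, by omega⟩ x)) := by
  set jj : Fin n := ⟨j, by omega⟩ with hjj
  have h1 : (Ct n).rtw jj = (2 : ℤ) • d0 j - (1 : ℤ) • d0 (j + 1) - (1 : ℤ) • d1 j := by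
    funext k
    rw [rtw_mid hj k]
    show _ = 2 * d0 j k - 1 * d0 (j + 1) k - 1 * d1 j k
    ring
  have h2 : E (j + 1) ((Ct n).rtw jj) = -1 := by
    rw [h1, E_lin, E_lin, E_smul, E_d0 (by omega), E_d0 hj, E_d1 (by omega), if_neg (by omega),
      if_pos (by omega), if_neg (by omega)]
    norm_num
  have h3 : E (j + 1) (s jj x) = E j x := by
    unfold s
    rw [E_lin, h2, E_succ (by omega : j < n) x]
    ring
  have h4 : (Ct n).rtw jj jj = 2 := by
    rw [rtw_mid hj]
    unfold d0 d1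
    simp [hjj]
  have h5 : (r (j + 1) : Fin n → ℤ) jj = -2 := by
    show 2 * d0 (j + 1) jj - 2 * d1 (j + 1) jj = -2
    unfold d0 d1
    simp [hjj]
  have h6 : ∀ k, r (j + 1) k + 2 * (Ct n).rtw jj k = r j k := by
    intro k
    rw [rtw_mid hj k]
    show 2 * d0 (j + 1) k - 2 * d1 (j + 1) k + 2 * (2 * d0 j k - d0 (j + 1) k - d1 j k) =
      2 * d0 j k - 2 * d1 j k
    have h7 : (d1 (j + 1) k : ℤ) = d0 j k := by
      unfold d1 d0
      simp
    rw [h7]
    ring
  funext k
  have e1 : N j x k = x k - E j x * r j k := rfl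
  have e2 : s jj (N (j + 1) (s jj x)) k =
      (x k - x jj * (Ct n).rtw jj k - E (j + 1) (s jj x) * r (j + 1) k) -
      (x jj - x jj * (Ct n).rtw jj jj - E (j + 1) (s jj x) * r (j + 1) jj) * (Ct n).rtw jj k := rfl
  rw [e1, e2, h3, h4, h5, ← h6 k]
  ring

theorem N_top {j : ℕ} (hj : j + 1 = n) (x : Fin n → ℤ) :
    N j x = s ⟨j, by omega⟩ x := by
  unfold N s
  rw [rtw_top hj, E_succ (by omega : j < n) x]
  have h : E (j + 1) x = 0 := by
    rw [hj]
    exact E_top x
  rw [h, add_zero]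

theorem Re_N (m : ℕ) : ∀ j, j + m + 1 = n → Re (N j : (Fin n → ℤ) → (Fin n → ℤ)) := by
  induction m with
  | zero =>
    intro j hj
    have h := Re_s (⟨j, by omega⟩ : Fin n)
    have h2 : (N j : (Fin n → ℤ) → (Fin n → ℤ)) = s ⟨j, by omega⟩ :=
      funext fun x => N_top (by omega) x
    rw [h2]
    exact h
  | succ m ih =>
    intro j hj
    have h := ((Re_s (⟨j, by omega⟩ : Fin n)).comp (ih (j + 1) (by omega))).comp
      (Re_s (⟨j, by omega⟩ : Fin n))
    have h2 : (N j : (Fin n → ℤ) → (Fin n → ℤ)) =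
        fun x => s ⟨j, by omega⟩ (N (j + 1) (s ⟨j, by omega⟩ x)) :=
      funext fun x => N_step (by omega) x
    rw [h2]
    exact h

/-- change of the first `m` signs -/
def P (m : ℕ) (x : Fin n → ℤ) : Fin n → ℤ := fun k => x k - ∑ j ∈ range m, E j x * r j k

theorem E_P {m : ℕ} (hm : m ≤ n) (i : ℕ) (hi : m ≤ i) (x : Fin n → ℤ) : E i (P m x) = E i x := by
  induction m with
  | zero =>
    have h : P 0 x = x := by
      funext k
      simp [P]
    rw [h]
  | succ m ih =>
    have h : P (m + 1) x = P m x - E m x • r m := by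
      funext k
      show x k - ∑ j ∈ range (m + 1), E j x * r j k = (x k - ∑ j ∈ range m, E j x * r j k) -
        E m x * r m k
      rw [sum_range_succ]
      ring
    rw [h, E_lin, ih (by omega) (by omega), E_r (by omega), if_neg (by omega), mul_zero, sub_zero]

theorem Re_P (m : ℕ) (hm : m ≤ n) : Re (P m : (Fin n → ℤ) → (Fin n → ℤ)) := by
  induction m with
  | zero =>
    refine ⟨[], fun x => ?_⟩
    funext k
    simp [P]
  | succ m ih =>
    have h := (ih (by omega)).comp (Re_N (n := n) (n - 1 - m) m (by omega))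
    have h2 : (P (m + 1) : (Fin n → ℤ) → (Fin n → ℤ)) = fun x => N m (P m x) := by
      funext x k
      show x k - ∑ j ∈ range (m + 1), E j x * r j k = (x k - ∑ j ∈ range m, E j x * r j k) -
        E m (P m x) * r m k
      rw [sum_range_succ, E_P (by omega) m le_rfl]
      ring
    rw [h2]
    exact h

theorem P_top (x : Fin n → ℤ) : P n x = -x := by
  funext k
  have hk := k.2
  show x k - ∑ j ∈ range n, E j x * (2 * d0 j k - 2 * d1 j k) = -x k
  have h1 : ∑ j ∈ range n, E j x * (2 * d0 j k - 2 * d1 j k) =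
      2 * (∑ j ∈ range n, if (k : ℕ) = j then E j x else 0) -
      2 * (∑ j ∈ range n, if (k : ℕ) + 1 = j then E j x else 0) := by
    rw [mul_sum, mul_sum, ← sum_sub_distrib]
    refine sum_congr rfl fun j _ => ?_
    unfold d0 d1
    split_ifs <;> ring
  have h2 : (∑ j ∈ range n, if (k : ℕ) + 1 = j then E j x else 0) = E ((k : ℕ) + 1) x := by
    rw [sum_ite_eq]
    by_cases h : (k : ℕ) + 1 < n
    · rw [if_pos (mem_range.2 h)]
    · rw [if_neg (fun hh => h (mem_range.1 hh)), show (k : ℕ) + 1 = n by omega, E_top]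
  rw [h1, h2, sum_ite_eq, if_pos (mem_range.2 hk), E_succ hk]
  ring

/-- **J_Cw0** -/
theorem main : GD.J_Cw0 := by
  intro n _
  obtain ⟨w, hw⟩ := Re_P (n := n) n le_rfl
  exact ⟨w, fun x => by rw [hw, P_top]⟩

end H391.KR.P_jCw0
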