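import Pool.Agent.H391.KR.JC

/-!
# KR-jF : the elements `F_m`, `T_m` and the product formula
-/

set_option autoImplicit false
set_option linter.unusedSectionVars false

noncomputable section

namespace H391.KR.P_jF

open Finset H391.KR

namespace O

theorem hom_ext {ι : Type} {N : Type*} [AddCommGroup N] (f g : GR ι →+ N)
    (h : ∀ x, f (ex x) = g (ex x)) : f = g := by
  refine AddMonoidAlgebra.addMonoidHom_ext ?_
  intro x r
  have e : (AddMonoidAlgebra.single x r : GR ι) = r • (ex x : GR ι) := by
    unfold ex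
    rw [AddMonoidAlgebra.smul_single]
    simp
  rw [e, map_zsmul, map_zsmul, h]

theorem pair_eq {ι : Type} (p : (ι → ℤ) → ℤ) (f : GR ι) :
    pair p f = f.coeff.sum (fun x r => r * p x) := rfl

theorem pair_ex {ι : Type} (p : (ι → ℤ) → ℤ) (x : ι → ℤ) : pair p (ex x) = p x := by
  rw [pair_eq]
  unfold ex
  rw [AddMonoidAlgebra.coeff_single, Finsupp.sum_single_index (by simp)]
  simp

theorem ex_mul {ι : Type} (x y : ι → ℤ) : (ex x : GR ι) * ex y = ex (x + y) := by
  unfold ex
  rw [AddMonoidAlgebra.single_mul_single, one_mul]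

theorem ex_zero {ι : Type} : (ex (0 : ι → ℤ) : GR ι) = 1 := rfl

variable {ι I : Type} (D : RDat ι I) (j : I)

theorem dem_eq (f : GR ι) : D.dem j f = f.coeff.sum (fun x r => (r : GR ι) * D.demB j x) := rfl

theorem dem_ex (x : ι → ℤ) : D.dem j (ex x) = D.demB j x := by
  rw [dem_eq]
  unfold ex
  rw [AddMonoidAlgebra.coeff_single, Finsupp.sum_single_index (by simp)]
  simp

/-! ### the reflection as a ring homomorphism -/

theorem co_al : D.co j (D.al j) = 2 := D.ev_rt _

theorem co_add (x y : ι → ℤ) : D.co j (x + y) = D.co j x + D.co j y := map_add _ _ _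

theorem co_sub (x y : ι → ℤ) : D.co j (x - y) = D.co j x - D.co j y := map_sub _ _ _

theorem co_neg (x : ι → ℤ) : D.co j (-x) = - D.co j x := map_neg _ _

theorem co_zero : D.co j 0 = 0 := map_zero _

theorem co_smul (c : ℤ) (x : ι → ℤ) : D.co j (c • x) = c * D.co j x := by
  unfold RDat.co
  rw [map_zsmul, smul_eq_mul]

theorem co_s (x : ι → ℤ) : D.co j (D.s j x) = - D.co j x := by
  unfold RDat.s
  rw [co_sub, co_smul, co_al]
  ring

theorem s_s (x : ι → ℤ) : D.s j (D.s j x) = x := by
  have h : D.s j (D.s j x) = D.s j x - D.co j (D.s j x) • D.al j := rfl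
  rw [h, co_s]
  unfold RDat.s
  rw [neg_smul]
  abel

/-- simple reflection as an additive homomorphism -/
def sH : (ι → ℤ) →+ (ι → ℤ) where
  toFun := D.s j
  map_zero' := by
    unfold RDat.s
    rw [co_zero]
    simp
  map_add' x y := by
    unfold RDat.s
    rw [co_add, add_smul]
    abel

theorem s_neg (x : ι → ℤ) : D.s j (-x) = - D.s j x := map_neg (sH D j) x

/-- simple reflection on the group ring -/
def S : GR ι →+* GR ι := push (sH D j)

theorem S_ex (x : ι → ℤ) : S D j (ex x) = ex (D.s j x) := by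
  unfold S push ex
  exact AddMonoidAlgebra.mapDomain_single

theorem S_S (f : GR ι) : S D j (S D j f) = f := by
  have h : ((S D j).toAddMonoidHom.comp (S D j).toAddMonoidHom) = AddMonoidHom.id (GR ι) := by
    apply hom_ext
    intro x
    show S D j (S D j (ex x)) = ex x
    rw [S_ex, S_ex, s_s]
  exact DFunLike.congr_fun h f

theorem S_coeff (f : GR ι) (x : ι → ℤ) : (S D j f).coeff (D.s j x) = f.coeff x := by
  have hinj : Function.Injective (D.s j) := fun a b h => by
    have := congrArg (D.s j) h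
    rwa [s_s, s_s] at this
  have h : (S D j f).coeff = Finsupp.mapDomain (D.s j) f.coeff := rfl
  rw [h]
  exact Finsupp.mapDomain_apply hinj _ _

theorem inv_iff (f : GR ι) : D.IsInv j f ↔ S D j f = f := by
  constructor
  · intro h
    apply AddMonoidAlgebra.coeff_injective
    ext y
    have h1 := S_coeff D j f (D.s j y)
    rw [s_s] at h1
    rw [h1]
    exact h y
  · intro h x
    have h1 := S_coeff D j f x
    rwa [h] at h1

/-! ### the defining identity -/

/-- the denominator -/
def E : GR ι := 1 - ex (-(D.al j))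

theorem E_ex (x : ι → ℤ) : E D j * ex x = ex x - ex (x - D.al j) := by
  unfold E
  rw [sub_mul, one_mul, ex_mul, neg_add_eq_sub]

theorem E_demB (x : ι → ℤ) :
    E D j * D.demB j x = ex x - ex (-(D.al j)) * S D j (ex x) := by
  rw [S_ex, ex_mul]
  unfold RDat.demB
  split_ifs with h
  · rw [Finset.mul_sum]
    have h1 : ∀ c ∈ range ((D.co j x).toNat + 1), E D j * ex (x - (c : ℤ) • D.al j) =
        ex (x - (c : ℤ) • D.al j) - ex (x - ((c + 1 : ℕ) : ℤ) • D.al j) := by
      intro c _
      rw [E_ex]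
      congr 2
      push_cast
      rw [add_smul, one_smul]
      abel
    rw [Finset.sum_congr rfl h1,
      Finset.sum_range_sub' (fun c : ℕ => (ex (x - (c : ℤ) • D.al j) : GR ι))]
    have h2 : x - ((0 : ℕ) : ℤ) • D.al j = x := by simp
    have h3 : x - (((D.co j x).toNat + 1 : ℕ) : ℤ) • D.al j = -(D.al j) + D.s j x := by
      unfold RDat.s
      push_cast
      rw [Int.toNat_of_nonneg h, add_smul, one_smul]
      abel
    rw [h2, h3]
  · rw [mul_neg, Finset.mul_sum]
    have h1 : ∀ c ∈ range ((- D.co j x).toNat - 1), E D j * ex (x + ((c : ℤ) + 1) • D.al j) =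
        ex (x + ((c + 1 : ℕ) : ℤ) • D.al j) - ex (x + ((c : ℕ) : ℤ) • D.al j) := by
      intro c _
      rw [E_ex]
      have e1 : x + ((c + 1 : ℕ) : ℤ) • D.al j = x + ((c : ℤ) + 1) • D.al j := by
        push_cast
        rfl
      have e2 : x + ((c : ℕ) : ℤ) • D.al j = x + ((c : ℤ) + 1) • D.al j - D.al j := by
        rw [add_smul, one_smul]
        abel
      rw [e1, e2]
    rw [Finset.sum_congr rfl h1,
      Finset.sum_range_sub (fun c : ℕ => (ex (x + (c : ℤ) • D.al j) : GR ι))]
    have h2 : x + ((0 : ℕ) : ℤ) • D.al j = x := by simp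
    have h3 : x + (((- D.co j x).toNat - 1 : ℕ) : ℤ) • D.al j = -(D.al j) + D.s j x := by
      unfold RDat.s
      have h4 : (((- D.co j x).toNat - 1 : ℕ) : ℤ) = - D.co j x - 1 := by omega
      rw [h4, sub_smul, neg_smul, one_smul]
      abel
    rw [h2, h3]
    ring

theorem E_dem (f : GR ι) : E D j * D.dem j f = f - ex (-(D.al j)) * S D j f := by
  have h : (AddMonoidHom.mulLeft (E D j)).comp (D.dem j) =
      AddMonoidHom.id (GR ι) -
        (AddMonoidHom.mulLeft (ex (-(D.al j)))).comp (S D j).toAddMonoidHom := by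
    apply hom_ext
    intro x
    show E D j * D.dem j (ex x) = ex x - ex (-(D.al j)) * S D j (ex x)
    rw [dem_ex, E_demB]
  exact DFunLike.congr_fun h f


end O

section basic

variable {ι : Type}

theorem ex_zero : (ex (0 : ι → ℤ) : GR ι) = 1 := rfl

theorem ex_mul (x y : ι → ℤ) : ex x * ex y = ex (x + y) := by
  unfold ex
  rw [AddMonoidAlgebra.single_mul_single, mul_one]

theorem ex_mul_cancel (x : ι → ℤ) (f : GR ι) : ex x * (ex (-x) * f) = f := by
  rw [← mul_assoc, ex_mul, add_neg_cancel, ex_zero, one_mul]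

end basic

section aff

variable {n : ℕ}

theorem aw_add (l l' : ℤ) (mu mu' : Fin n → ℤ) : aw l mu + aw l' mu' = aw (l + l') (mu + mu') := by
  funext o
  cases o <;> rfl

theorem aw_neg (l : ℤ) (mu : Fin n → ℤ) : - aw l mu = aw (-l) (-mu) := by
  funext o
  cases o <;> rfl

theorem aw_smul (c l : ℤ) (mu : Fin n → ℤ) : c • aw l mu = aw (c * l) (c • mu) := by
  funext o
  cases o <;> rfl

theorem aw_zero : aw 0 (0 : Fin n → ℤ) = 0 := by
  funext o
  cases o <;> rfl

theorem aw_none (l : ℤ) (mu : Fin n → ℤ) : aw l mu none = l := rfl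

theorem aw_some (l : ℤ) (mu : Fin n → ℤ) (j : Fin n) : aw l mu (some j) = mu j := rfl

end aff

section rdat

variable {ι I : Type} (D : RDat ι I)

/-- the difference of a Demazure step, twisted by a weight with coordinate one, is invariant -/
theorem inv_diff (j : I) (h H : GR ι) (w : ι → ℤ) (hw : D.co j w = 1) (hH : D.dem j h = H)
    (hI : D.IsInv j H) : D.IsInv j (ex w * (H - h)) := by
  have hS : O.S D j H = H := (O.inv_iff D j H).1 hI
  have h1 := O.E_dem D j h
  rw [hH] at h1
  have h2 : H - h = ex (-(D.al j)) * O.S D j (H - h) := by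
    rw [map_sub, hS]
    unfold O.E at h1
    rw [sub_mul, one_mul] at h1
    rw [mul_sub]
    linear_combination h1
  rw [O.inv_iff, map_mul, O.S_ex]
  have h3 : D.s j w = w + -(D.al j) := by
    unfold RDat.s
    rw [hw, one_smul]
    abel
  rw [h3, ← ex_mul, mul_assoc, ← h2]

end rdat

section main

variable {n : ℕ} (S : GD n) (hS : S.OKs) (D : RDat (Option (Fin n)) (Option (Fin n)))
include hS

theorem co_fin (hA : S.AffDat D) (j : Fin n) (x : Option (Fin n) → ℤ) :
    D.co (some j) x = x (some j) := by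
  rw [hA.co]
  rfl

theorem co_xi (hA : S.AffDat D) (i j : Fin n) :
    D.co (some j) (S.xi i) = - (S.t i * om i j) := by
  rw [hA.co]
  rfl

theorem xi_mem (hA : S.AffDat D) (i : Fin n) : S.xi i ∈ D.T := by
  rw [hA.T]
  show (1 : ℤ) ≤ 1
  exact le_refl _

theorem al_level (hA : S.AffDat D) (j : Option (Fin n)) : D.al j none = 0 := by
  rw [hA.al]
  cases j <;> rfl

theorem s_mem (hA : S.AffDat D) (i : Fin n) : D.s (some i) (S.xi i) ∈ D.T :=
  D.T_refl _ (xi_mem S hS D hA i) _

theorem closure_level (hA : S.AffDat D) {x : Option (Fin n) → ℤ}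
    (hx : x ∈ AddSubgroup.closure (Set.range D.al)) : x none = 0 := by
  induction hx using AddSubgroup.closure_induction with
  | mem y hy =>
    obtain ⟨j, rfl⟩ := hy
    exact al_level S hS D hA j
  | zero => rfl
  | add y z _ _ hy hz =>
    rw [Pi.add_apply, hy, hz, add_zero]
  | neg y _ hy => rw [Pi.neg_apply, hy, neg_zero]

theorem dem_level (hA : S.AffDat D) (hOK : D.DemOK) (y : Option (Fin n) → ℤ) (hy : y ∈ D.T)
    (hy1 : y none = 1) (m : ℕ) {mu : Option (Fin n) → ℤ}
    (h : (D.Dem y m).coeff mu ≠ 0) : mu none = m := by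
  have h1 := closure_level S hS D hA (hOK.d8 y hy m mu h)
  have h2 : mu none - (m : ℤ) * y none = 0 := h1
  rw [hy1] at h2
  linarith

theorem s_xi_none (hA : S.AffDat D) (i : Fin n) : (D.s (some i) (S.xi i)) none = 1 := by
  show (S.xi i) none - D.co (some i) (S.xi i) * D.al (some i) none = 1
  rw [al_level S hS D hA, mul_zero, sub_zero]
  rfl

theorem F_level (hA : S.AffDat D) (hOK : D.DemOK) (i : Fin n) (m : ℕ) {x : Option (Fin n) → ℤ}
    (h : (S.F D i m).coeff x ≠ 0) : x none = 0 := by
  unfold GD.F ex at h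
  rw [AddMonoidAlgebra.coeff_single_mul_apply, one_mul] at h
  have h1 := dem_level S hS D hA hOK (S.xi i) (xi_mem S hS D hA i) rfl m h
  have h2 : -(-(m : ℤ)) + x none = m := h1
  linarith

theorem dem_inv (hop : RDat.N_op) (hA : S.AffDat D) (hOK : D.DemOK) (i j : Fin n) (m : ℕ) :
    D.IsInv (some j) (D.Dem (S.xi i) m) := by
  obtain ⟨-, o2, -⟩ := hop (Option (Fin n)) (Option (Fin n)) D (some j)
  have h3 := hOK.d2 (S.xi i) (xi_mem S hS D hA i) m (some j) (by
    rw [co_xi S hS D hA]
    have h4 := hS.t_pos i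
    unfold om
    split_ifs <;> omega)
  rw [← h3]
  exact o2 _

theorem F_inv (hop : RDat.N_op) (hinv0 : GD.J_inv0) (hA : S.AffDat D) (hOK : D.DemOK) (i : Fin n)
    (m : ℕ) : SLC.Inv0 D (S.F D i m) := by
  refine hinv0 n S hS D hA _ (fun j => ?_) fun x hx => F_level S hS D hA hOK i m hx
  obtain ⟨-, o2, -, -, -, -, -, o8, o9, -⟩ := hop (Option (Fin n)) (Option (Fin n)) D (some j)
  have h1 : D.IsInv (some j) (ex (aw (-(m : ℤ)) (0 : Fin n → ℤ))) := by
    apply o9
    rw [co_fin S hS D hA]
    rfl
  exact (o8 _ _ h1 (dem_inv S hS D hop hA hOK i j m)).2.2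

theorem T_inv (hop : RDat.N_op) (hinv0 : GD.J_inv0) (hA : S.AffDat D) (hOK : D.DemOK) (i : Fin n)
    (m : ℕ) : SLC.Inv0 D (S.T D i m) := by
  have hsT := s_mem S hS D hA i
  refine hinv0 n S hS D hA _ (fun j => ?_) fun x hx => ?_
  · obtain ⟨-, o2, -, -, -, -, -, o8, o9, -⟩ := hop (Option (Fin n)) (Option (Fin n)) D (some j)
    by_cases hj : j = i
    · subst hj
      unfold GD.T
      refine inv_diff D (some j) _ _ _ ?_ ?_ (dem_inv S hS D hop hA hOK j j m)
      · rw [co_fin S hS D hA]
        show om j j = 1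
        unfold om
        rw [if_pos rfl]
      · refine hOK.d1 (S.xi j) (xi_mem S hS D hA j) m (some j) ?_
        rw [co_xi S hS D hA]
        have h4 := hS.t_pos j
        unfold om
        rw [if_pos rfl]
        omega
    · have h1 : D.IsInv (some j) (ex (aw (-(m : ℤ)) (om i))) := by
        apply o9
        rw [co_fin S hS D hA]
        show om i j = 0
        unfold om
        rw [if_neg hj]
      have h2 : D.IsInv (some j) (D.Dem (D.s (some i) (S.xi i)) m) := by
        have h3 := hOK.d2 (D.s (some i) (S.xi i)) hsT m (some j) (by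
          rw [co_fin S hS D hA]
          show (S.xi i) (some j) - D.co (some i) (S.xi i) * D.al (some i) (some j) ≤ 0
          rw [co_xi S hS D hA, hA.al]
          show -(S.t i * om i j) - (-(S.t i * om i i)) * S.C j i ≤ 0
          have h4 := hS.t_pos i
          have h5 := hS.off j i hj
          unfold om
          rw [if_neg hj, if_pos rfl]
          nlinarith)
        rw [← h3]
        exact o2 _
      exact (o8 _ _ h1 ((o8 _ _ (dem_inv S hS D hop hA hOK i j m) h2).2.1)).2.2
  · unfold GD.T at hx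
    have h1 : (ex (aw (-(m : ℤ)) (om i)) * (D.Dem (S.xi i) m -
        D.Dem (D.s (some i) (S.xi i)) m)).coeff x =
        1 * (D.Dem (S.xi i) m - D.Dem (D.s (some i) (S.xi i)) m).coeff
          (-(aw (-(m : ℤ)) (om i)) + x) :=
      AddMonoidAlgebra.coeff_single_mul_apply _ 1 _ _
    rw [h1, one_mul] at hx
    have h2 : (D.Dem (S.xi i) m).coeff (-(aw (-(m : ℤ)) (om i)) + x) ≠ 0 ∨
        (D.Dem (D.s (some i) (S.xi i)) m).coeff (-(aw (-(m : ℤ)) (om i)) + x) ≠ 0 := by
      by_contra hcon
      push Not at hcon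
      apply hx
      rw [AddMonoidAlgebra.coeff_sub, Finsupp.sub_apply, hcon.1, hcon.2, sub_zero]
    have h3 : (-(aw (-(m : ℤ)) (om i)) + x) none = m := by
      rcases h2 with h2 | h2
      · exact dem_level S hS D hA hOK _ (xi_mem S hS D hA i) rfl m h2
      · exact dem_level S hS D hA hOK _ hsT (s_xi_none S hS D hA i) m h2
    have h4 : -(-(m : ℤ)) + x none = m := h3
    linarith

theorem F_mul (i : Fin n) (m : ℕ) :
    ex (aw (m : ℤ) (0 : Fin n → ℤ)) * S.F D i m = D.Dem (S.xi i) m := by
  have h := ex_mul_cancel (aw (m : ℤ) (0 : Fin n → ℤ)) (D.Dem (S.xi i) m)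
  rw [aw_neg, neg_zero] at h
  exact h

theorem T_mul (i : Fin n) (m : ℕ) : D.Dem (S.xi i) m - D.Dem (D.s (some i) (S.xi i)) m =
    ex (aw (m : ℤ) (-om i)) * S.T D i m := by
  have h := ex_mul_cancel (aw (m : ℤ) (-om i))
    (D.Dem (S.xi i) m - D.Dem (D.s (some i) (S.xi i)) m)
  rw [aw_neg, neg_neg] at h
  exact h.symm

theorem prod_formula (hsig : GD.J_sig) (hX : GD.J_X) (hop : RDat.N_op) (hinv0 : GD.J_inv0)
    (hA : S.AffDat D) (hOK : D.DemOK) (m : ℕ) : ∀ (N : ℕ) (la : Fin n → ℕ), ∑ j, la j = N →
    D.Dem (aw 1 (fun j => -((la j : ℤ) * S.t j))) m = ex (aw m 0) * ∏ j, S.F D j m ^ la j := by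
  intro N
  induction N with
  | zero =>
    intro la h
    have h0 : ∀ j, la j = 0 := fun j => by
      have := (Finset.sum_eq_zero_iff.1 h) j (Finset.mem_univ j)
      exact this
    have e1 : (fun j => -((la j : ℤ) * S.t j)) = (0 : Fin n → ℤ) := by
      funext j
      rw [h0 j]
      simp
    rw [e1]
    have e2 : ∏ j, S.F D j m ^ la j = 1 := by
      apply Finset.prod_eq_one
      intro j _
      rw [h0 j, pow_zero]
    rw [e2, mul_one]
    have hT : (aw 1 (0 : Fin n → ℤ)) ∈ D.T := by
      rw [hA.T]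
      show (1 : ℤ) ≤ 1
      exact le_refl _
    have hdom : D.Dom (aw 1 (0 : Fin n → ℤ)) := by
      intro j
      rw [hA.co]
      cases j with
      | none =>
        show 0 ≤ (aw 1 (0 : Fin n → ℤ)) none - dot S.th (fp (aw 1 (0 : Fin n → ℤ)))
        have : dot S.th (fp (aw 1 (0 : Fin n → ℤ))) = 0 := by
          unfold dot
          apply Finset.sum_eq_zero
          intro j _
          show S.th j * 0 = 0
          exact mul_zero _
        rw [this, aw_none]
        norm_num
      | some j =>
        exact le_refl _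
    rw [hOK.d3 _ hT m hdom, aw_smul, mul_one, smul_zero]
  | succ N ih =>
    intro la h
    obtain ⟨i, hi⟩ : ∃ i, la i ≠ 0 := by
      by_contra hcon
      push Not at hcon
      have : ∑ j, la j = 0 := Finset.sum_eq_zero fun j _ => hcon j
      omega
    -- la = la' + e_i
    set la' : Fin n → ℕ := Function.update la i (la i - 1) with hla'
    have hi' : la' i + 1 = la i := by
      rw [hla', Function.update_self]
      omega
    have hne : ∀ j, j ≠ i → la' j = la j := fun j hj => by
      rw [hla', Function.update_of_ne hj]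
    have hsum : ∑ j, la' j = N := by
      have h1 := Finset.add_sum_erase Finset.univ la (Finset.mem_univ i)
      have h2 := Finset.add_sum_erase Finset.univ la' (Finset.mem_univ i)
      have h3 : ∑ j ∈ Finset.univ.erase i, la' j = ∑ j ∈ Finset.univ.erase i, la j :=
        Finset.sum_congr rfl fun j hj => hne j (Finset.ne_of_mem_erase hj)
      rw [h3] at h2
      omega
    have ih' := ih la' hsum
    obtain ⟨-, ⟨X⟩⟩ := hsig n S hS D hA i
    obtain ⟨-, x1, x3, x4, -⟩ := hX n S hS D hA hOK i X
    have h4 := x4 (fun j => (la' j : ℤ)) (fun j => Nat.cast_nonneg _) m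
    have e2 : (fun j => -((la' j : ℤ) * S.t j) - S.t i * om i j : Fin n → ℤ) =
        fun j => -((la j : ℤ) * S.t j) := by
      funext j
      unfold om
      split_ifs with hj
      · subst hj
        have : ((la' j + 1 : ℕ) : ℤ) = la j := by rw [hi']
        push_cast at this
        rw [← this]
        ring
      · rw [hne j hj]
        ring
    rw [e2, ih'] at h4
    -- X commutes with the product
    have hcomm : ∀ f, X.X ((∏ j, S.F D j m ^ la' j) * f) = (∏ j, S.F D j m ^ la' j) * X.X f := by
      refine Finset.prod_induction (fun j => S.F D j m ^ la' j)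
        (fun phi => ∀ f, X.X (phi * f) = phi * X.X f) ?_ ?_ ?_
      · intro a b ha hb f
        rw [mul_assoc, ha, hb, mul_assoc]
      · intro f
        rw [one_mul, one_mul]
      · intro j _
        have hp : ∀ k : ℕ, ∀ f, X.X (S.F D j m ^ k * f) = S.F D j m ^ k * X.X f := by
          intro k
          induction k with
          | zero => intro f; rw [pow_zero, one_mul, one_mul]
          | succ k ihk =>
            intro f
            rw [pow_succ, mul_assoc, ihk, x1 _ _ (F_inv S hS D hop hinv0 hA hOK j m), mul_assoc]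
        exact hp _
    rw [mul_comm (ex (aw (m : ℤ) (0 : Fin n → ℤ))), hcomm, x3 m, ← F_mul S hS D i m] at h4
    rw [← h4]
    have h5 : ∏ j, S.F D j m ^ la j = (∏ j, S.F D j m ^ la' j) * S.F D i m := by
      have h6 := Finset.mul_prod_erase Finset.univ (fun j => S.F D j m ^ la j) (Finset.mem_univ i)
      have h7 := Finset.mul_prod_erase Finset.univ (fun j => S.F D j m ^ la' j) (Finset.mem_univ i)
      have h8 : ∏ j ∈ Finset.univ.erase i, S.F D j m ^ la' j =
          ∏ j ∈ Finset.univ.erase i, S.F D j m ^ la j :=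
        Finset.prod_congr rfl fun j hj => by rw [hne j (Finset.ne_of_mem_erase hj)]
      rw [← h6, ← h7, h8]
      show S.F D i m ^ la i * _ = S.F D i m ^ la' i * _ * S.F D i m
      rw [← hi', pow_succ]
      ring
    rw [h5]
    ring

end main

theorem main : RDat.S_bru → RDat.N_op → RDat.N_adj → GD.J_hd → GD.J_inv0 → GD.J_sig → GD.J_X →
    GD.J_F := by
  intro _ hop _ _ hinv0 hsig hX n S hS D hA hOK
  have h3 : ∀ (la : Fin n → ℕ) (m : ℕ), D.Dem (aw 1 (fun j => -((la j : ℤ) * S.t j))) m =
      ex (aw m 0) * ∏ j, S.F D j m ^ la j := fun la m =>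
    prod_formula S hS D hsig hX hop hinv0 hA hOK m _ la rfl
  refine ⟨fun i m => F_inv S hS D hop hinv0 hA hOK i m, fun i m => T_inv S hS D hop hinv0 hA hOK i m,
    fun i m => F_mul S hS D i m, fun i m => T_mul S hS D i m, h3, ?_, ?_⟩
  · intro i m
    have h4 := h3 (fun j => (-(S.C i j)).toNat) m
    have e1 : (fun j => -(S.t i * (2 * om i j - S.C j i))) =
        (fun j => -((((-(S.C i j)).toNat : ℕ) : ℤ) * S.t j)) := by
      funext j
      unfold om
      by_cases hj : j = i
      · subst hj
        rw [if_pos rfl, hS.diag]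
        norm_num
      · rw [if_neg hj]
        have h5 := hS.off i j (Ne.symm hj)
        rw [Int.toNat_of_nonneg (by omega)]
        have h6 := hS.symm i j
        linear_combination h6
    rw [e1, h4]
    rfl
  · intro i
    unfold GD.F
    rw [hOK.d5 (S.xi i) (xi_mem S hS D hA i), mul_one]
    have : aw (-((0 : ℕ) : ℤ)) (0 : Fin n → ℤ) = 0 := by
      rw [Nat.cast_zero, neg_zero, aw_zero]
    rw [this, ex_zero]

end H391.KR.P_jF
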