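import Pool.Agent.H391.KR.JC

/-!
# KR-jF4 : the identities in type F_4 (free module calculus)
-/

set_option autoImplicit false
set_option linter.unusedSectionVars false

noncomputable section

namespace H391.KR.P_jF4

open Finset H391.KR

namespace O

theorem hom_ext {ι : Type} {N : Type*} [AddCommGroup N] (f g : GR ι →+ N)
    (h : ∀ x, f (ex x) = g (ex x)) : f = g := by
  refine AddMonoidAlgebra.addMonoidHom_ext ?_
  intro x r
  have e : (AddMonoidAlgebra.single x r : GR ι) = r • (ex x : GR ι) := by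
    unfold ex
    rw [AddMonoidAlgebra.smul_single]
    simp
  rw [e, map_zsmul, map_zsmul, h]

theorem pair_eq {ι : Type} (p : (ι → ℤ) → ℤ) (f : GR ι) :
    pair p f = f.coeff.sum (fun x r => r * p x) := rfl

theorem pair_ex {ι : Type} (p : (ι → ℤ) → ℤ) (x : ι → ℤ) : pair p (ex x) = p x := by
  rw [pair_eq]
  unfold ex
  rw [AddMonoidAlgebra.coeff_single, Finsupp.sum_single_index (by simp)]
  simp

theorem ex_mul {ι : Type} (x y : ι → ℤ) : (ex x : GR ι) * ex y = ex (x + y) := by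
  unfold ex
  rw [AddMonoidAlgebra.single_mul_single, one_mul]

theorem ex_zero {ι : Type} : (ex (0 : ι → ℤ) : GR ι) = 1 := rfl

variable {ι I : Type} (D : RDat ι I) (j : I)

theorem dem_eq (f : GR ι) : D.dem j f = f.coeff.sum (fun x r => (r : GR ι) * D.demB j x) := rfl

theorem dem_ex (x : ι → ℤ) : D.dem j (ex x) = D.demB j x := by
  rw [dem_eq]
  unfold ex
  rw [AddMonoidAlgebra.coeff_single, Finsupp.sum_single_index (by simp)]
  simp

/-! ### the reflection as a ring homomorphism -/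

theorem co_al : D.co j (D.al j) = 2 := D.ev_rt _

theorem co_add (x y : ι → ℤ) : D.co j (x + y) = D.co j x + D.co j y := map_add _ _ _

theorem co_sub (x y : ι → ℤ) : D.co j (x - y) = D.co j x - D.co j y := map_sub _ _ _

theorem co_neg (x : ι → ℤ) : D.co j (-x) = - D.co j x := map_neg _ _

theorem co_zero : D.co j 0 = 0 := map_zero _

theorem co_smul (c : ℤ) (x : ι → ℤ) : D.co j (c • x) = c * D.co j x := by
  unfold RDat.co
  rw [map_zsmul, smul_eq_mul]

theorem co_s (x : ι → ℤ) : D.co j (D.s j x) = - D.co j x := by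
  unfold RDat.s
  rw [co_sub, co_smul, co_al]
  ring

theorem s_s (x : ι → ℤ) : D.s j (D.s j x) = x := by
  have h : D.s j (D.s j x) = D.s j x - D.co j (D.s j x) • D.al j := rfl
  rw [h, co_s]
  unfold RDat.s
  rw [neg_smul]
  abel

/-- simple reflection as an additive homomorphism -/
def sH : (ι → ℤ) →+ (ι → ℤ) where
  toFun := D.s j
  map_zero' := by
    unfold RDat.s
    rw [co_zero]
    simp
  map_add' x y := by
    unfold RDat.s
    rw [co_add, add_smul]
    abel

theorem s_neg (x : ι → ℤ) : D.s j (-x) = - D.s j x := map_neg (sH D j) x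

/-- simple reflection on the group ring -/
def S : GR ι →+* GR ι := push (sH D j)

theorem S_ex (x : ι → ℤ) : S D j (ex x) = ex (D.s j x) := by
  unfold S push ex
  exact AddMonoidAlgebra.mapDomain_single

theorem S_S (f : GR ι) : S D j (S D j f) = f := by
  have h : ((S D j).toAddMonoidHom.comp (S D j).toAddMonoidHom) = AddMonoidHom.id (GR ι) := by
    apply hom_ext
    intro x
    show S D j (S D j (ex x)) = ex x
    rw [S_ex, S_ex, s_s]
  exact DFunLike.congr_fun h f

theorem S_coeff (f : GR ι) (x : ι → ℤ) : (S D j f).coeff (D.s j x) = f.coeff x := by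
  have hinj : Function.Injective (D.s j) := fun a b h => by
    have := congrArg (D.s j) h
    rwa [s_s, s_s] at this
  have h : (S D j f).coeff = Finsupp.mapDomain (D.s j) f.coeff := rfl
  rw [h]
  exact Finsupp.mapDomain_apply hinj _ _

theorem inv_iff (f : GR ι) : D.IsInv j f ↔ S D j f = f := by
  constructor
  · intro h
    apply AddMonoidAlgebra.coeff_injective
    ext y
    have h1 := S_coeff D j f (D.s j y)
    rw [s_s] at h1
    rw [h1]
    exact h y
  · intro h x
    have h1 := S_coeff D j f x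
    rwa [h] at h1

/-! ### the defining identity -/

/-- the denominator -/
def E : GR ι := 1 - ex (-(D.al j))

theorem E_ex (x : ι → ℤ) : E D j * ex x = ex x - ex (x - D.al j) := by
  unfold E
  rw [sub_mul, one_mul, ex_mul, neg_add_eq_sub]

theorem E_demB (x : ι → ℤ) :
    E D j * D.demB j x = ex x - ex (-(D.al j)) * S D j (ex x) := by
  rw [S_ex, ex_mul]
  unfold RDat.demB
  split_ifs with h
  · rw [Finset.mul_sum]
    have h1 : ∀ c ∈ range ((D.co j x).toNat + 1), E D j * ex (x - (c : ℤ) • D.al j) =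
        ex (x - (c : ℤ) • D.al j) - ex (x - ((c + 1 : ℕ) : ℤ) • D.al j) := by
      intro c _
      rw [E_ex]
      congr 2
      push_cast
      rw [add_smul, one_smul]
      abel
    rw [Finset.sum_congr rfl h1,
      Finset.sum_range_sub' (fun c : ℕ => (ex (x - (c : ℤ) • D.al j) : GR ι))]
    have h2 : x - ((0 : ℕ) : ℤ) • D.al j = x := by simp
    have h3 : x - (((D.co j x).toNat + 1 : ℕ) : ℤ) • D.al j = -(D.al j) + D.s j x := by
      unfold RDat.s
      push_cast
      rw [Int.toNat_of_nonneg h, add_smul, one_smul]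
      abel
    rw [h2, h3]
  · rw [mul_neg, Finset.mul_sum]
    have h1 : ∀ c ∈ range ((- D.co j x).toNat - 1), E D j * ex (x + ((c : ℤ) + 1) • D.al j) =
        ex (x + ((c + 1 : ℕ) : ℤ) • D.al j) - ex (x + ((c : ℕ) : ℤ) • D.al j) := by
      intro c _
      rw [E_ex]
      have e1 : x + ((c + 1 : ℕ) : ℤ) • D.al j = x + ((c : ℤ) + 1) • D.al j := by
        push_cast
        rfl
      have e2 : x + ((c : ℕ) : ℤ) • D.al j = x + ((c : ℤ) + 1) • D.al j - D.al j := by
        rw [add_smul, one_smul]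
        abel
      rw [e1, e2]
    rw [Finset.sum_congr rfl h1,
      Finset.sum_range_sub (fun c : ℕ => (ex (x + (c : ℤ) • D.al j) : GR ι))]
    have h2 : x + ((0 : ℕ) : ℤ) • D.al j = x := by simp
    have h3 : x + (((- D.co j x).toNat - 1 : ℕ) : ℤ) • D.al j = -(D.al j) + D.s j x := by
      unfold RDat.s
      have h4 : (((- D.co j x).toNat - 1 : ℕ) : ℤ) = - D.co j x - 1 := by omega
      rw [h4, sub_smul, neg_smul, one_smul]
      abel
    rw [h2, h3]
    ring

theorem E_dem (f : GR ι) : E D j * D.dem j f = f - ex (-(D.al j)) * S D j f := by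
  have h : (AddMonoidHom.mulLeft (E D j)).comp (D.dem j) =
      AddMonoidHom.id (GR ι) -
        (AddMonoidHom.mulLeft (ex (-(D.al j)))).comp (S D j).toAddMonoidHom := by
    apply hom_ext
    intro x
    show E D j * D.dem j (ex x) = ex x - ex (-(D.al j)) * S D j (ex x)
    rw [dem_ex, E_demB]
  exact DFunLike.congr_fun h f

theorem E_zero (f : GR ι) (h : E D j * f = 0) : f = 0 := by
  have h1 : f = ex (-(D.al j)) * f := by
    unfold E at h
    rw [sub_mul, one_mul] at h
    exact sub_eq_zero.mp h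
  have h2 : ∀ y, f.coeff y = f.coeff (D.al j + y) := by
    intro y
    have h3 : (ex (-(D.al j)) * f).coeff y = 1 * f.coeff (- -(D.al j) + y) :=
      AddMonoidAlgebra.coeff_single_mul_apply f 1 (-(D.al j)) y
    rw [← h1, one_mul, neg_neg] at h3
    exact h3
  have h3 : ∀ (n : ℕ) y, f.coeff y = f.coeff ((n : ℤ) • D.al j + y) := by
    intro n
    induction n with
    | zero =>
      intro y
      simp
    | succ n ih =>
      intro y
      rw [ih y, h2]
      congr 1
      push_cast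
      rw [add_smul, one_smul]
      abel
  by_contra hne
  have h4 : ∃ y, f.coeff y ≠ 0 := by
    by_contra hcon
    push Not at hcon
    apply hne
    apply AddMonoidAlgebra.coeff_injective
    ext y
    exact hcon y
  obtain ⟨y, hy⟩ := h4
  have hinj : Function.Injective (fun n : ℕ => (n : ℤ) • D.al j + y) := by
    intro a b hab
    have := congrArg (D.co j) hab
    simp only [co_add, co_smul, co_al] at this
    omega
  have hinf := Set.infinite_range_of_injective hinj
  apply hinf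
  refine Set.Finite.subset f.coeff.support.finite_toSet ?_
  rintro _ ⟨n, rfl⟩
  rw [Finset.mem_coe, Finsupp.mem_support_iff, ← h3 n y]
  exact hy

theorem E_cancel (f g : GR ι) (h : E D j * f = E D j * g) : f = g := by
  have : E D j * (f - g) = 0 := by rw [mul_sub, h, sub_self]
  exact sub_eq_zero.mp (E_zero D j _ this)


/-- the rule for a product -/
theorem rule (f g d : GR ι) (hd : E D j * d = f - S D j f) :
    D.dem j (f * g) = d * g + S D j f * D.dem j g := by
  apply E_cancel D j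
  rw [E_dem, map_mul, mul_add]
  have h1 : E D j * (d * g) = (f - S D j f) * g := by rw [← hd]; ring
  have h2 : E D j * (S D j f * D.dem j g) = S D j f * (g - ex (-(D.al j)) * S D j g) := by
    rw [← E_dem]; ring
  rw [h1, h2]
  ring

theorem E_up (x : ι → ℤ) (k : ℕ) :
    E D j * ∑ c ∈ range k, ex (x - (c : ℤ) • D.al j) = ex x - ex (x - (k : ℤ) • D.al j) := by
  rw [Finset.mul_sum]
  have h1 : ∀ c ∈ range k, E D j * ex (x - (c : ℤ) • D.al j) =
      ex (x - (c : ℤ) • D.al j) - ex (x - ((c + 1 : ℕ) : ℤ) • D.al j) := by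
    intro c _
    rw [E_ex]
    congr 2
    push_cast
    rw [add_smul, one_smul]
    abel
  rw [Finset.sum_congr rfl h1,
    Finset.sum_range_sub' (fun c : ℕ => (ex (x - (c : ℤ) • D.al j) : GR ι))]
  have h2 : x - ((0 : ℕ) : ℤ) • D.al j = x := by simp
  rw [h2]

theorem E_down (x : ι → ℤ) (k : ℕ) :
    E D j * ∑ c ∈ range k, ex (x + ((c : ℤ) + 1) • D.al j) = ex (x + (k : ℤ) • D.al j) - ex x := by
  rw [Finset.mul_sum]
  have h1 : ∀ c ∈ range k, E D j * ex (x + ((c : ℤ) + 1) • D.al j) =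
      ex (x + ((c + 1 : ℕ) : ℤ) • D.al j) - ex (x + ((c : ℕ) : ℤ) • D.al j) := by
    intro c _
    rw [E_ex]
    have e1 : x + ((c + 1 : ℕ) : ℤ) • D.al j = x + ((c : ℤ) + 1) • D.al j := by
      push_cast
      rfl
    have e2 : x + ((c : ℕ) : ℤ) • D.al j = x + ((c : ℤ) + 1) • D.al j - D.al j := by
      rw [add_smul, one_smul]
      abel
    rw [e1, e2]
  rw [Finset.sum_congr rfl h1,
    Finset.sum_range_sub (fun c : ℕ => (ex (x + (c : ℤ) • D.al j) : GR ι))]
  have h2 : x + ((0 : ℕ) : ℤ) • D.al j = x := by simp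
  rw [h2]

end O

/-! ### coordinates -/

/-- coordinates of a weight: the values of the simple coroots `none, some 0, .., some 3` -/
abbrev W : Type := ℤ × ℤ × ℤ × ℤ × ℤ

/-- coordinate `j` -/
def cov : ℕ → W → ℤ
  | 0, x => x.1
  | 1, x => x.2.1
  | 2, x => x.2.2.1
  | 3, x => x.2.2.2.1
  | _, x => x.2.2.2.2

/-- simple roots -/
def col : ℕ → W
  | 0 => (2, -1, 0, 0, 0)
  | 1 => (-1, 2, -1, 0, 0)
  | 2 => (0, -1, 2, -2, 0)
  | 3 => (0, 0, -1, 2, -1)
  | _ => (0, 0, 0, -1, 2)

/-- `x + k v` -/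
def addm (x : W) (k : ℤ) (v : W) : W :=
  (x.1 + k * v.1, x.2.1 + k * v.2.1, x.2.2.1 + k * v.2.2.1, x.2.2.2.1 + k * v.2.2.2.1,
    x.2.2.2.2 + k * v.2.2.2.2)

/-- reflection -/
def rfc (j : ℕ) (x : W) : W := addm x (-(cov j x)) (col j)

/-- the level -/
def lev (x : W) : ℤ := x.1 + 2 * x.2.1 + 3 * x.2.2.1 + 2 * x.2.2.2.1 + x.2.2.2.2

/-- the letters -/
def dec : ℕ → Option (Fin 4)
  | 0 => none
  | 1 => some 0
  | 2 => some 1
  | 3 => some 2
  | _ => some 3

/-- the weight -/
def wt (x : W) : Option (Fin 4) → ℤ := aw (lev x) ![x.2.1, x.2.2.1, x.2.2.2.1, x.2.2.2.2]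

theorem ext5 {f g : Option (Fin 4) → ℤ} (h : f none = g none) (h0 : f (some 0) = g (some 0))
    (h1 : f (some 1) = g (some 1)) (h2 : f (some 2) = g (some 2)) (h3 : f (some 3) = g (some 3)) :
    f = g := by
  funext o
  rcases o with _ | i
  · exact h
  · fin_cases i
    · exact h0
    · exact h1
    · exact h2
    · exact h3

theorem wt_none (x : W) : wt x none = lev x := rfl
theorem wt_0 (x : W) : wt x (some 0) = x.2.1 := rfl
theorem wt_1 (x : W) : wt x (some 1) = x.2.2.1 := rfl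
theorem wt_2 (x : W) : wt x (some 2) = x.2.2.2.1 := rfl
theorem wt_3 (x : W) : wt x (some 3) = x.2.2.2.2 := rfl

theorem lev_addm (x : W) (k : ℤ) (v : W) : lev (addm x k v) = lev x + k * lev v := by
  unfold lev addm
  ring

theorem lev_col (j : ℕ) : lev (col j) = 0 := by
  rcases j with _ | _ | _ | _ | j <;> rfl

theorem wt_addm (x : W) (k : ℤ) (v : W) : wt (addm x k v) = wt x + k • wt v := by
  refine ext5 ?_ ?_ ?_ ?_ ?_
  · exact lev_addm x k v
  · rfl
  · rfl
  · rfl
  · rfl

/-- every weight has coordinates -/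
def cw (f : Option (Fin 4) → ℤ) : W :=
  (f none - (2 * f (some 0) + 3 * f (some 1) + 2 * f (some 2) + f (some 3)), f (some 0),
    f (some 1), f (some 2), f (some 3))

theorem wt_cw (f : Option (Fin 4) → ℤ) : wt (cw f) = f := by
  refine ext5 ?_ rfl rfl rfl rfl
  rw [wt_none]
  unfold lev cw
  ring

section dat

variable {D : RDat (Option (Fin 4)) (Option (Fin 4))} (hD : F4.AffDat D)

theorem dot_eq (a b : Fin 4 → ℤ) : dot a b = a 0 * b 0 + a 1 * b 1 + a 2 * b 2 + a 3 * b 3 := by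
  unfold dot
  rw [Fin.sum_univ_four]

include hD in
theorem co_wt (j : ℕ) (x : W) : D.co (dec j) (wt x) = cov j x := by
  rw [hD.co]
  rcases j with _ | _ | _ | _ | j
  · change wt x none - dot F4.th (fp (wt x)) = x.1
    rw [dot_eq, wt_none]
    change lev x - (2 * x.2.1 + 3 * x.2.2.1 + 2 * x.2.2.2.1 + 1 * x.2.2.2.2) = x.1
    unfold lev
    ring
  · rfl
  · rfl
  · rfl
  · rfl

theorem rt_th : F4.rt F4.th = ![1, 0, 0, 0] := by
  funext i
  unfold GD.rt GD.tt
  fin_cases i <;> simp [F4, Fin.sum_univ_four]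

include hD in
theorem al_wt (j : ℕ) : D.al (dec j) = wt (col j) := by
  rw [hD.al]
  rcases j with _ | _ | _ | _ | j
  · change aw 0 (-(F4.rt F4.th)) = _
    rw [rt_th]
    refine ext5 ?_ ?_ ?_ ?_ ?_ <;> decide
  · refine ext5 ?_ ?_ ?_ ?_ ?_ <;> rfl
  · refine ext5 ?_ ?_ ?_ ?_ ?_ <;> rfl
  · refine ext5 ?_ ?_ ?_ ?_ ?_ <;> rfl
  · refine ext5 ?_ ?_ ?_ ?_ ?_ <;> rfl

include hD in
theorem s_wt (j : ℕ) (x : W) : D.s (dec j) (wt x) = wt (rfc j x) := by
  unfold RDat.s rfc
  rw [co_wt hD, al_wt hD, wt_addm, neg_smul, sub_eq_add_neg]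

/-! ### words -/

/-- action of a word -/
def sRc : List ℕ → W → W
  | [], x => x
  | j :: w, x => sRc w (rfc j x)

/-- all letters act at negative coordinates -/
def descB : List ℕ → W → Bool
  | [], _ => true
  | j :: w, x => decide (cov j x < 0) && descB w (rfc j x)

include hD in
theorem sR_wt (w : List ℕ) (x : W) : D.sR (w.map dec) (wt x) = wt (sRc w x) := by
  induction w generalizing x with
  | nil => rfl
  | cons j w ih =>
    change D.sR (w.map dec) (D.s (dec j) (wt x)) = _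
    rw [s_wt hD, ih]
    rfl

include hD in
theorem desc_wt (w : List ℕ) (x : W) (h : descB w x = true) : D.Desc (w.map dec) (wt x) := by
  induction w generalizing x with
  | nil => trivial
  | cons j w ih =>
    unfold descB at h
    rw [Bool.and_eq_true, decide_eq_true_eq] at h
    refine ⟨?_, ?_⟩
    · rw [co_wt hD]; exact h.1
    · rw [s_wt hD]; exact ih _ h.2

theorem cov_addm (j : ℕ) (x : W) (k : ℤ) (v : W) : cov j (addm x k v) = cov j x + k * cov j v := by
  rcases j with _ | _ | _ | _ | j <;> rfl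

theorem rfc_addm (j : ℕ) (x : W) (k : ℤ) (v : W) :
    rfc j (addm x k v) = addm (rfc j x) k (rfc j v) := by
  unfold rfc
  rw [cov_addm]
  unfold addm
  refine Prod.ext ?_ (Prod.ext ?_ (Prod.ext ?_ (Prod.ext ?_ ?_))) <;>
    (simp only; ring)

theorem sRc_addm (w : List ℕ) (x : W) (k : ℤ) (v : W) :
    sRc w (addm x k v) = addm (sRc w x) k (sRc w v) := by
  induction w generalizing x v with
  | nil => rfl
  | cons j w ih =>
    change sRc w (rfc j (addm x k v)) = _
    rw [rfc_addm, ih]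
    rfl

/-- the translation -/
def trc (x : W) : W := (x.1 + 2 * lev x, x.2.1, x.2.2.1, x.2.2.2.1, x.2.2.2.2 - 2 * lev x)

theorem tr_wt (x : W) : F4.tr 3 (wt x) = wt (trc x) := by
  refine ext5 ?_ ?_ ?_ ?_ ?_
  · change lev x = lev (trc x)
    unfold trc
    simp only [lev]
    ring
  · change x.2.1 - lev x * 2 * 0 = x.2.1
    ring
  · change x.2.2.1 - lev x * 2 * 0 = x.2.2.1
    ring
  · change x.2.2.2.1 - lev x * 2 * 0 = x.2.2.2.1
    ring
  · change x.2.2.2.2 - lev x * 2 * 1 = x.2.2.2.2 - 2 * lev x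
    ring

theorem trc_addm (x : W) (k : ℤ) (v : W) : trc (addm x k v) = addm (trc x) k (trc v) := by
  unfold trc
  rw [lev_addm]
  unfold addm
  refine Prod.ext ?_ (Prod.ext ?_ (Prod.ext ?_ (Prod.ext ?_ ?_))) <;>
    first | (simp only; ring) | simp only

/-- the word -/
def wc : List ℕ := [4, 3, 2, 1, 3, 2, 3, 4, 3, 2, 1, 3, 2, 3, 4, 0, 1, 2, 3, 2, 1, 0]

theorem wc_eq : wc.map dec = some 3 :: GD.wF4 := rfl

theorem basis (x : W) : x = addm (addm (addm (addm (addm (0, 0, 0, 0, 0) x.1 (1, 0, 0, 0, 0))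
    x.2.1 (0, 1, 0, 0, 0)) x.2.2.1 (0, 0, 1, 0, 0)) x.2.2.2.1 (0, 0, 0, 1, 0))
    x.2.2.2.2 (0, 0, 0, 0, 1) := by
  unfold addm
  refine Prod.ext ?_ (Prod.ext ?_ (Prod.ext ?_ (Prod.ext ?_ ?_))) <;>
    (simp only; ring)

theorem full (x : W) : sRc wc (trc x) = x := by
  have h0 : sRc wc (trc (0, 0, 0, 0, 0)) = (0, 0, 0, 0, 0) := by decide +kernel
  have h1 : sRc wc (trc (1, 0, 0, 0, 0)) = (1, 0, 0, 0, 0) := by decide +kernel
  have h2 : sRc wc (trc (0, 1, 0, 0, 0)) = (0, 1, 0, 0, 0) := by decide +kernel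
  have h3 : sRc wc (trc (0, 0, 1, 0, 0)) = (0, 0, 1, 0, 0) := by decide +kernel
  have h4 : sRc wc (trc (0, 0, 0, 1, 0)) = (0, 0, 0, 1, 0) := by decide +kernel
  have h5 : sRc wc (trc (0, 0, 0, 0, 1)) = (0, 0, 0, 0, 1) := by decide +kernel
  conv_lhs => rw [basis x]
  rw [trc_addm, trc_addm, trc_addm, trc_addm, trc_addm, sRc_addm, sRc_addm, sRc_addm, sRc_addm,
    sRc_addm, h0, h1, h2, h3, h4, h5, ← basis]

include hD in
theorem first : D.Desc (some 3 :: GD.wF4) (F4.xi 3) := by
  have h1 : F4.xi 3 = wt (3, 0, 0, 0, -2) := by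
    refine ext5 ?_ ?_ ?_ ?_ ?_ <;> decide
  rw [h1, ← wc_eq]
  exact desc_wt hD wc _ (by decide +kernel)

include hD in
theorem second (x : Option (Fin 4) → ℤ) : D.sR (some 3 :: GD.wF4) (F4.tr 3 x) = x := by
  rw [← wt_cw x, tr_wt, ← wc_eq, sR_wt hD, full]

/-! ### the calculus -/

/-- terms: coefficient, weight, index -/
abbrev Tm : Type := ℤ × W × W

/-- one letter on one term -/
def stepT (j : ℕ) (t : Tm) : List Tm :=
  (t.1, rfc j t.2.1, (if 0 < cov j t.2.2 then rfc j t.2.2 else t.2.2)) ::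
    (if 0 ≤ cov j t.2.1 then
      (List.range (cov j t.2.1).toNat).map fun c : ℕ => (t.1, addm t.2.1 (-(c : ℤ)) (col j), t.2.2)
    else (List.range (-(cov j t.2.1)).toNat).map fun c : ℕ =>
      (-t.1, addm t.2.1 ((c : ℤ) + 1) (col j), t.2.2))

/-- equality of the keys -/
def keq (a b : W × W) : Bool :=
  decide (a.1.1 = b.1.1) && (decide (a.1.2.1 = b.1.2.1) && (decide (a.1.2.2.1 = b.1.2.2.1) &&
    (decide (a.1.2.2.2.1 = b.1.2.2.2.1) && (decide (a.1.2.2.2.2 = b.1.2.2.2.2) &&
    (decide (a.2.1 = b.2.1) && (decide (a.2.2.1 = b.2.2.1) && (decide (a.2.2.2.1 = b.2.2.2.1) &&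
    (decide (a.2.2.2.2.1 = b.2.2.2.2.1) && decide (a.2.2.2.2.2 = b.2.2.2.2.2)))))))))

theorem keq_eq {a b : W × W} (h : keq a b = true) : a = b := by
  unfold keq at h
  simp only [Bool.and_eq_true, decide_eq_true_eq] at h
  obtain ⟨h1, h2, h3, h4, h5, h6, h7, h8, h9, h10⟩ := h
  exact Prod.ext (Prod.ext h1 (Prod.ext h2 (Prod.ext h3 (Prod.ext h4 h5))))
    (Prod.ext h6 (Prod.ext h7 (Prod.ext h8 (Prod.ext h9 h10))))

/-- insertion with collection -/
def ins (t : Tm) : List Tm → List Tm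
  | [] => [t]
  | u :: L => bif keq t.2 u.2 then
      (bif decide (t.1 + u.1 = 0) then L else (t.1 + u.1, u.2) :: L)
    else u :: ins t L

/-- collection -/
def norm : List Tm → List Tm
  | [] => []
  | t :: L => ins t (norm L)

/-- one letter -/
def step (j : ℕ) (L : List Tm) : List Tm := norm (L.flatMap (stepT j))

/-- a word, the last letter acts first -/
def run : List ℕ → List Tm → List Tm
  | [], L => L
  | j :: w, L => step j (run w L)

variable (D) in
/-- value of a term -/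
def tv (M : ℕ) (t : Tm) : GR (Option (Fin 4)) := t.1 • (ex (wt t.2.1) * D.Dem (wt t.2.2) M)

variable (D) in
/-- value of a list -/
def lv (M : ℕ) (L : List Tm) : GR (Option (Fin 4)) := (L.map (tv D M)).sum

variable (M : ℕ)

theorem lv_nil : lv D M [] = 0 := rfl

theorem lv_cons (t : Tm) (L : List Tm) : lv D M (t :: L) = tv D M t + lv D M L := by
  unfold lv
  rw [List.map_cons, List.sum_cons]

theorem lv_append (L L' : List Tm) : lv D M (L ++ L') = lv D M L + lv D M L' := by
  unfold lv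
  rw [List.map_append, List.sum_append]

theorem lv_ins (t : Tm) (L : List Tm) : lv D M (ins t L) = tv D M t + lv D M L := by
  induction L with
  | nil => exact lv_cons M t []
  | cons u L ih =>
    unfold ins
    cases hk : keq t.2 u.2
    · rw [cond_false, lv_cons, lv_cons, ih]
      abel
    · rw [cond_true]
      have h1 := keq_eq hk
      have h2 : tv D M t + tv D M u = (t.1 + u.1) • (ex (wt u.2.1) * D.Dem (wt u.2.2) M) := by
        unfold tv
        rw [h1, add_smul]
      rw [lv_cons, ← add_assoc, h2]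
      cases h3 : decide (t.1 + u.1 = 0)
      · rw [cond_false, lv_cons]
        rfl
      · rw [cond_true, of_decide_eq_true h3, zero_smul, zero_add]

theorem lv_norm (L : List Tm) : lv D M (norm L) = lv D M L := by
  induction L with
  | nil => rfl
  | cons t L ih =>
    unfold norm
    rw [lv_ins, ih, lv_cons]

/-- all indices have level one -/
def LO (L : List Tm) : Prop := ∀ t ∈ L, lev t.2.2 = 1

theorem lev_rfc (j : ℕ) (x : W) : lev (rfc j x) = lev x := by
  unfold rfc
  rw [lev_addm, lev_col, mul_zero, add_zero]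

theorem LO_stepT (j : ℕ) (t : Tm) (h : lev t.2.2 = 1) : LO (stepT j t) := by
  intro u hu
  unfold stepT at hu
  rcases List.mem_cons.1 hu with rfl | hu
  · simp only
    split_ifs
    · rw [lev_rfc]; exact h
    · exact h
  · split_ifs at hu
    · obtain ⟨c, -, rfl⟩ := List.mem_map.1 hu
      exact h
    · obtain ⟨c, -, rfl⟩ := List.mem_map.1 hu
      exact h

theorem LO_ins (t : Tm) (L : List Tm) (h : lev t.2.2 = 1) (hL : LO L) : LO (ins t L) := by
  induction L with
  | nil =>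
    intro u hu
    rw [List.mem_singleton.1 hu]
    exact h
  | cons v L ih =>
    have hL' : LO L := fun u hu => hL u (List.mem_cons_of_mem _ hu)
    have hv : lev v.2.2 = 1 := hL v List.mem_cons_self
    intro u hu
    unfold ins at hu
    cases hk : keq t.2 v.2
    · rw [hk, cond_false] at hu
      rcases List.mem_cons.1 hu with rfl | hu
      · exact hv
      · exact ih hL' u hu
    · rw [hk, cond_true] at hu
      cases h3 : decide (t.1 + v.1 = 0)
      · rw [h3, cond_false] at hu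
        rcases List.mem_cons.1 hu with rfl | hu
        · exact hv
        · exact hL' u hu
      · rw [h3, cond_true] at hu
        exact hL' u hu

theorem LO_norm (L : List Tm) (hL : LO L) : LO (norm L) := by
  induction L with
  | nil => exact hL
  | cons t L ih =>
    exact LO_ins t _ (hL t List.mem_cons_self) (ih fun u hu => hL u (List.mem_cons_of_mem _ hu))

theorem LO_step (j : ℕ) (L : List Tm) (hL : LO L) : LO (step j L) := by
  refine LO_norm _ fun u hu => ?_
  obtain ⟨t, ht, hu⟩ := List.mem_flatMap.1 hu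
  exact LO_stepT j t (hL t ht) u hu

include hD in
theorem mem_T {x : W} (h : lev x = 1) : wt x ∈ D.T := by
  rw [hD.T]
  change 1 ≤ lev x
  rw [h]

theorem rfc_rfc (j : ℕ) (x : W) : rfc j (rfc j x) = x := by
  have h : cov j (col j) = 2 := by rcases j with _ | _ | _ | _ | j <;> rfl
  have h2 : cov j (rfc j x) = -cov j x := by
    unfold rfc
    rw [cov_addm, h]; ring
  have h3 : rfc j (rfc j x) = addm (rfc j x) (-(cov j (rfc j x))) (col j) := rfl
  rw [h3, h2]
  unfold rfc addm
  refine Prod.ext ?_ (Prod.ext ?_ (Prod.ext ?_ (Prod.ext ?_ ?_))) <;>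
    (simp only; ring)

include hD in
theorem dem_Dem (hOK : D.DemOK) (j : ℕ) {y : W} (hy : lev y = 1) :
    D.dem (dec j) (D.Dem (wt y) M) =
      D.Dem (wt (if 0 < cov j y then rfc j y else y)) M := by
  split_ifs with h
  · have h1 : D.co (dec j) (wt (rfc j y)) < 0 := by
      rw [co_wt hD]
      have h2 : cov j (col j) = 2 := by rcases j with _ | _ | _ | _ | j <;> rfl
      unfold rfc
      rw [cov_addm, h2]
      linarith
    have h3 := hOK.d1 _ (mem_T hD (x := rfc j y) (by rw [lev_rfc]; exact hy)) M (dec j) h1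
    rw [s_wt hD, rfc_rfc] at h3
    exact h3
  · exact hOK.d2 _ (mem_T hD hy) M (dec j) (by rw [co_wt hD]; linarith)

theorem sum_list (n : ℕ) (f : ℕ → GR (Option (Fin 4))) :
    ∑ i ∈ range n, f i = ((List.range n).map f).sum := by
  induction n with
  | zero => rfl
  | succ n ih =>
    rw [Finset.sum_range_succ, ih, List.range_succ, List.map_append, List.sum_append]
    simp

include hD in
theorem dem_tv (hOK : D.DemOK) (j : ℕ) (t : Tm) (h : lev t.2.2 = 1) :
    D.dem (dec j) (tv D M t) = lv D M (stepT j t) := by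
  obtain ⟨c, x, y⟩ := t
  simp only at h
  unfold tv
  simp only
  rw [map_zsmul]
  unfold stepT
  simp only
  rw [lv_cons]
  by_cases hk : 0 ≤ cov j x
  · rw [if_pos hk]
    have hd : O.E D (dec j) * ∑ i ∈ range (cov j x).toNat, ex (wt x - (i : ℤ) • D.al (dec j)) =
        ex (wt x) - O.S D (dec j) (ex (wt x)) := by
      rw [O.E_up, O.S_ex]
      congr 2
      unfold RDat.s
      rw [co_wt hD, Int.toNat_of_nonneg hk]
    rw [O.rule D (dec j) _ _ _ hd, dem_Dem hD M hOK j h, O.S_ex, s_wt hD, smul_add, add_comm]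
    congr 1
    unfold lv
    rw [List.map_map, Finset.sum_mul, Finset.smul_sum, sum_list]
    congr 1
    refine List.map_congr_left fun i _ => ?_
    simp only [Function.comp_apply, tv]
    rw [wt_addm, al_wt hD, neg_smul, ← sub_eq_add_neg]
  · rw [if_neg hk]
    push Not at hk
    have hd : O.E D (dec j) *
        (-∑ i ∈ range (-(cov j x)).toNat, ex (wt x + ((i : ℤ) + 1) • D.al (dec j))) =
        ex (wt x) - O.S D (dec j) (ex (wt x)) := by
      rw [mul_neg, O.E_down, O.S_ex, neg_sub]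
      congr 2
      unfold RDat.s
      rw [co_wt hD, Int.toNat_of_nonneg (by linarith), neg_smul, sub_eq_add_neg]
    rw [O.rule D (dec j) _ _ _ hd, dem_Dem hD M hOK j h, O.S_ex, s_wt hD, smul_add, add_comm]
    congr 1
    unfold lv
    rw [List.map_map, neg_mul, smul_neg, ← neg_smul, Finset.sum_mul, Finset.smul_sum,
      sum_list]
    congr 1
    refine List.map_congr_left fun i _ => ?_
    simp only [Function.comp_apply, tv]
    rw [wt_addm, al_wt hD]

include hD in
theorem dem_lv (hOK : D.DemOK) (j : ℕ) (L : List Tm) (h : LO L) :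
    D.dem (dec j) (lv D M L) = lv D M (step j L) := by
  unfold step
  rw [lv_norm]
  induction L with
  | nil => exact map_zero _
  | cons t L ih =>
    rw [lv_cons, map_add, dem_tv hD M hOK j t (h t List.mem_cons_self),
      ih fun u hu => h u (List.mem_cons_of_mem _ hu), List.flatMap_cons, lv_append]

include hD in
theorem demL_lv (hOK : D.DemOK) (w : List ℕ) (L : List Tm) (h : LO L) :
    D.demL (w.map dec) (lv D M L) = lv D M (run w L) ∧ LO (run w L) := by
  induction w with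
  | nil => exact ⟨rfl, h⟩
  | cons j w ih =>
    refine ⟨?_, LO_step j _ ih.2⟩
    change D.dem (dec j) (D.demL (w.map dec) (lv D M L)) = _
    rw [ih.1, dem_lv hD M hOK j _ ih.2]
    rfl

/-- negative of a list -/
def neg (L : List Tm) : List Tm := L.map fun t => (-t.1, t.2)

theorem lv_neg (L : List Tm) : lv D M (neg L) = - lv D M L := by
  induction L with
  | nil => exact (neg_zero).symm
  | cons t L ih =>
    have h : neg (t :: L) = (-t.1, t.2) :: neg L := rfl
    rw [h, lv_cons, lv_cons, ih, neg_add]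
    congr 1
    unfold tv
    rw [neg_smul]

theorem lv_eq {L L' : List Tm} (h : norm (L ++ neg L') = []) : lv D M L = lv D M L' := by
  have h1 : lv D M (norm (L ++ neg L')) = 0 := by rw [h]; rfl
  rw [lv_norm, lv_append, lv_neg] at h1
  exact sub_eq_zero.1 (by rw [sub_eq_add_neg]; exact h1)

/-- first computation -/
def La : List Tm := [(1, (0, 0, 0, 0, -1), (1, 0, 0, 0, 0))]
def La' : List Tm := [(-1, (-2, 0, 0, 0, 1), (3, 0, 0, -2, 2)), (1, (-2, 0, 0, 0, 1), (3, 0, 0, 0, -2))]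

/-- second computation -/
def Lb : List Tm := [(1, (-1, 0, 0, 0, 0), (3, 0, 0, -2, 2))]
def Lb' : List Tm := [(1, (-3, 0, 0, 1, 0), (5, 0, -2, 2, -2)), (-1, (-3, 0, 0, 1, 0), (5, 0, 0, -2, 0))]

theorem compA : norm (run wc La ++ neg La') = [] := by decide +kernel

theorem compB : norm (run wc Lb ++ neg Lb') = [] := by decide +kernel

include hD in
theorem lamA (hOK : D.DemOK) (m : ℕ) :
    D.demL (some 3 :: GD.wF4) (ex (aw (m : ℤ) (-om 3))) =
      ex (aw (-1) (om 3)) * (D.Dem (F4.xi 3) (m + 1) - D.Dem (D.s (some 3) (F4.xi 3)) (m + 1)) := by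
  have hxi : F4.xi 3 = wt (3, 0, 0, 0, -2) := by
    refine ext5 ?_ ?_ ?_ ?_ ?_ <;> decide
  have hs : D.s (some 3) (F4.xi 3) = wt (3, 0, 0, -2, 2) := by
    rw [hxi]
    exact s_wt hD 4 (3, 0, 0, 0, -2)
  have hL0 : D.Dem (wt (1, 0, 0, 0, 0)) (m + 1) = ex (aw ((m : ℤ) + 1) 0) := by
    rw [hOK.d3 _ (mem_T hD rfl) (m + 1) (by
      intro j
      have h1 : ∃ k : ℕ, dec k = j := by
        rcases j with _ | i
        · exact ⟨0, rfl⟩
        · fin_cases i
          · exact ⟨1, rfl⟩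
          · exact ⟨2, rfl⟩
          · exact ⟨3, rfl⟩
          · exact ⟨4, rfl⟩
      obtain ⟨k, rfl⟩ := h1
      rw [co_wt hD]
      rcases k with _ | _ | _ | _ | k
      · exact zero_le_one (α := ℤ)
      · exact le_refl (0 : ℤ)
      · exact le_refl (0 : ℤ)
      · exact le_refl (0 : ℤ)
      · exact le_refl (0 : ℤ))]
    congr 1
    refine ext5 ?_ ?_ ?_ ?_ ?_
    · change ((m + 1 : ℕ) : ℤ) * 1 = (m : ℤ) + 1
      push_cast; ring
    · change ((m + 1 : ℕ) : ℤ) * 0 = 0
      ring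
    · change ((m + 1 : ℕ) : ℤ) * 0 = 0
      ring
    · change ((m + 1 : ℕ) : ℤ) * 0 = 0
      ring
    · change ((m + 1 : ℕ) : ℤ) * 0 = 0
      ring
  have h1 : ex (aw (m : ℤ) (-om 3)) = lv D (m + 1) La := by
    unfold La
    rw [lv_cons, lv_nil, add_zero]
    unfold tv
    simp only
    rw [one_smul, hL0, O.ex_mul]
    congr 1
    refine ext5 ?_ ?_ ?_ ?_ ?_
    · change (m : ℤ) = lev (0, 0, 0, 0, -1) + ((m : ℤ) + 1)
      have : lev (0, 0, 0, 0, -1) = -1 := by decide
      rw [this]; ring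
    · change (-(om 3 : Fin 4 → ℤ)) 0 = (0 : ℤ) + 0
      decide
    · change (-(om 3 : Fin 4 → ℤ)) 1 = (0 : ℤ) + 0
      decide
    · change (-(om 3 : Fin 4 → ℤ)) 2 = (0 : ℤ) + 0
      decide
    · change (-(om 3 : Fin 4 → ℤ)) 3 = (-1 : ℤ) + 0
      decide
  rw [h1, ← wc_eq, (demL_lv hD (m + 1) hOK wc La (by
    intro t ht
    rw [List.mem_singleton.1 ht]
    decide)).1, lv_eq (m + 1) compA]
  unfold La'
  rw [lv_cons, lv_cons, lv_nil, add_zero, hs, hxi]
  unfold tv
  simp only
  have h2 : wt (-2, 0, 0, 0, 1) = aw (-1) (om 3) := by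
    refine ext5 ?_ ?_ ?_ ?_ ?_ <;> decide
  rw [h2, neg_smul, one_smul, one_smul]
  ring

include hD in
theorem lamB (hOK : D.DemOK) (m : ℕ) :
    D.demL (some 3 :: GD.wF4) (ex (aw (-1) 0) * D.Dem (D.s (some 3) (F4.xi 3)) (m + 1)) =
      -(ex (aw (-1) (om 2)) *
        (D.Dem (F4.xi 2) (m + 1) - D.Dem (D.s (some 2) (F4.xi 2)) (m + 1))) := by
  have hxi : F4.xi 3 = wt (3, 0, 0, 0, -2) := by
    refine ext5 ?_ ?_ ?_ ?_ ?_ <;> decide
  have hs : D.s (some 3) (F4.xi 3) = wt (3, 0, 0, -2, 2) := by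
    rw [hxi]
    exact s_wt hD 4 (3, 0, 0, 0, -2)
  have hxi2 : F4.xi 2 = wt (5, 0, 0, -2, 0) := by
    refine ext5 ?_ ?_ ?_ ?_ ?_ <;> decide
  have hs2 : D.s (some 2) (F4.xi 2) = wt (5, 0, -2, 2, -2) := by
    rw [hxi2]
    exact s_wt hD 3 (5, 0, 0, -2, 0)
  have h0 : wt (-1, 0, 0, 0, 0) = aw (-1) 0 := by
    refine ext5 ?_ ?_ ?_ ?_ ?_ <;> decide
  have h1 : ex (aw (-1) 0) * D.Dem (D.s (some 3) (F4.xi 3)) (m + 1) = lv D (m + 1) Lb := by
    unfold Lb
    rw [lv_cons, lv_nil, add_zero]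
    unfold tv
    simp only
    rw [one_smul, hs, h0]
  rw [h1, ← wc_eq, (demL_lv hD (m + 1) hOK wc Lb (by
    intro t ht
    rw [List.mem_singleton.1 ht]
    decide)).1, lv_eq (m + 1) compB]
  unfold Lb'
  rw [lv_cons, lv_cons, lv_nil, add_zero, hs2, hxi2]
  unfold tv
  simp only
  have h2 : wt (-3, 0, 0, 1, 0) = aw (-1) (om 2) := by
    refine ext5 ?_ ?_ ?_ ?_ ?_ <;> decide
  rw [h2, neg_smul, one_smul, one_smul]
  ring

end dat

theorem aw_add (l l' : ℤ) (mu mu' : Fin 4 → ℤ) : aw l mu + aw l' mu' = aw (l + l') (mu + mu') := by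
  funext o
  cases o <;> rfl

theorem ex_aw (l l' : ℤ) (mu mu' : Fin 4 → ℤ) :
    (ex (aw l mu) : GR (Option (Fin 4))) * ex (aw l' mu') = ex (aw (l + l') (mu + mu')) := by
  rw [O.ex_mul, aw_add]

theorem aw_zero : aw 0 (0 : Fin 4 → ℤ) = 0 := by
  funext o
  cases o <;> rfl

theorem desc0 {ι I : Type} {D : RDat ι I} (w : List I) (x : ι → ℤ) (h : D.Desc w x) :
    D.Desc0 w x := by
  induction w generalizing x with
  | nil => trivial
  | cons j w ih => exact ⟨h.1.le, ih _ h.2⟩

theorem main : RDat.N_demw → RDat.N_adj → GD.T_F4 → GD.J_F → GD.J_F4 := by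
  intro hdemw hadj hF4 hJF D hD hOK
  have hS : F4.OKs := GD.OK.toOKs hF4
  obtain ⟨f1, f2, f3, f4, -, -, -⟩ := hJF 4 F4 hS D hD hOK
  have third : ∀ m : ℕ, ex (aw (-(m : ℤ)) 0) *
      D.demL (some 3 :: GD.wF4) (ex (aw (m : ℤ) (-om 3))) = F4.T D 3 (m + 1) := by
    intro m
    rw [lamA hD hOK m, ← mul_assoc, ex_aw]
    unfold GD.T
    congr 3
    · push_cast; ring
    · exact zero_add _
  refine ⟨first hD, second hD, third, fun m => ?_⟩
  -- invariance
  have hT := f2 3 (m + 1)
  have hF := f1 3 (m + 1)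
  have hanti : D.Anti (fun _ => (0 : ℤ)) := fun _ _ => (neg_zero).symm
  have hinv : ∀ f, SLC.Inv0 D f → ∀ g, D.demL (some 3 :: GD.wF4) (f * g) =
      f * D.demL (some 3 :: GD.wF4) g := fun f hf g =>
    (hadj _ _ D _ hanti).2.2.1 (some 3 :: GD.wF4) f g fun j _ => hf.1 j
  have hdom : D.Dom (aw 1 0) := by
    intro j
    rw [hD.co]
    rcases j with _ | i
    · change 0 ≤ (1 : ℤ) - dot F4.th (fp (aw 1 (0 : Fin 4 → ℤ)))
      have h1 : dot F4.th (fp (aw 1 (0 : Fin 4 → ℤ))) = 0 := by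
        unfold dot
        exact Finset.sum_eq_zero fun i _ => mul_zero _
      rw [h1]
      norm_num
    · exact le_refl (0 : ℤ)
  have hTm : aw 1 (0 : Fin 4 → ℤ) ∈ D.T := by
    rw [hD.T]
    exact le_refl (1 : ℤ)
  have hxiT : F4.xi 3 ∈ D.T := by
    rw [hD.T]
    exact le_refl (1 : ℤ)
  have hsR : D.sR (some 3 :: GD.wF4) (F4.xi 3) = aw 1 0 := by
    have h1 := second hD (aw 1 0)
    have h2 : F4.tr 3 (aw 1 0) = F4.xi 3 := by
      refine ext5 ?_ ?_ ?_ ?_ ?_ <;> decide
    rw [h2] at h1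
    exact h1
  have hma : (m : ℤ) • aw 1 (0 : Fin 4 → ℤ) = aw (m : ℤ) 0 := by
    funext o
    cases o with
    | none => exact mul_one (m : ℤ)
    | some i => exact mul_zero (m : ℤ)
  have hc1 : -1 + ((m + 1 : ℕ) : ℤ) = (m : ℤ) := by push_cast; ring
  have hc2 : -(m : ℤ) + -1 = -((m + 1 : ℕ) : ℤ) := by push_cast; ring
  have hdm : D.demL (some 3 :: GD.wF4) (ex (aw (m : ℤ) 0)) = D.Dem (F4.xi 3) m := by
    rw [hdemw _ _ D hOK (some 3 :: GD.wF4) (F4.xi 3) m hxiT (desc0 _ _ (first hD)), hsR,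
      hOK.d3 _ hTm m hdom]
    rw [hma]
  have e1 : ex (aw (m : ℤ) (-om 3)) * F4.T D 3 (m + 1) =
      ex (aw (-1) 0) * (D.Dem (F4.xi 3) (m + 1) - D.Dem (D.s (some 3) (F4.xi 3)) (m + 1)) := by
    rw [f4 3 (m + 1), ← mul_assoc, ex_aw, hc1, zero_add]
  have e2 : ex (aw (-1) 0) * D.Dem (F4.xi 3) (m + 1) = F4.F D 3 (m + 1) * ex (aw (m : ℤ) 0) := by
    rw [← f3 3 (m + 1), ← mul_assoc, ex_aw, mul_comm, hc1, zero_add]
  have e3 : ex (aw (-(m : ℤ)) 0) * ex (aw (m : ℤ) 0) = (1 : GR (Option (Fin 4))) := by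
    rw [ex_aw, neg_add_cancel, zero_add, aw_zero]
    rfl
  have e4 : F4.T D 2 (m + 1) = ex (aw (-(m : ℤ)) 0) * (ex (aw (-1) (om 2)) *
        (D.Dem (F4.xi 2) (m + 1) - D.Dem (D.s (some 2) (F4.xi 2)) (m + 1))) := by
    rw [← mul_assoc, ex_aw, hc2, zero_add]
    unfold GD.T
    rfl
  have e5 : F4.T D 3 (m + 1) ^ 2 = ex (aw (-(m : ℤ)) 0) *
      D.demL (some 3 :: GD.wF4) (ex (aw (m : ℤ) (-om 3)) * F4.T D 3 (m + 1)) := by
    rw [mul_comm (ex (aw (m : ℤ) (-om 3))), hinv _ hT]
    nth_rewrite 1 [sq, ← third m]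
    ring
  rw [e5, e1, mul_sub, map_sub, e2, hinv _ hF, hdm, lamB hD hOK m, ← f3 3 m, e4]
  linear_combination (F4.F D 3 (m + 1) * F4.F D 3 m) * e3

end H391.KR.P_jF4
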