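import Pool.Agent.H391.KR.JV

/-!
# KR-jF4fin: type `F_4`
-/

noncomputable section

namespace H391.KR.P_jF4fin

open Finset H391.KR H391.KR.GD

/-- evaluation of the class on the affine side -/
def psi {n : ℕ} (S : GD n) : S.RepR →+* GR (Option (Fin n)) :=
  (push aw0).comp (S.Rep.subtype : S.Rep →+* GR (Fin n))

theorem psi_eq {n : ℕ} (S : GD n) (f : S.RepR) : psi S f = push aw0 (chr f) := rfl

theorem t0 : (F4.t 0).toNat = 1 := rfl
theorem t1 : (F4.t 1).toNat = 1 := rfl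
theorem t2 : (F4.t 2).toNat = 2 := rfl
theorem t3 : (F4.t 3).toNat = 2 := rfl

theorem nb3 (Q : Fin 4 → ℕ → F4.RepR) (m : ℕ) : F4.qnb Q 3 m = Q 2 m := by
  unfold GD.qnb
  rw [Fin.prod_univ_four]
  have c20 : (-(F4.C 3 0)).toNat = 0 := rfl
  have c21 : (-(F4.C 3 1)).toNat = 0 := rfl
  have c22 : (-(F4.C 3 2)).toNat = 1 := rfl
  have c23 : (-(F4.C 3 3)).toNat = 0 := rfl
  have c32 : (-(F4.C 2 3)).toNat = 1 := rfl
  rw [c20, c21, c22, c23, c32]
  simp only [Finset.range_zero, Finset.prod_empty, one_mul, mul_one, Finset.prod_range_succ,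
    Nat.div_one, add_zero]

theorem isT2 : F4.T2 where
  t2 := by decide
  th2 := by decide
  ss := by decide
  sl := by decide
  nb2 := by decide

theorem push_ex {ι κ : Type} (g : (ι → ℤ) →+ (κ → ℤ)) (x : ι → ℤ) : push g (ex x) = ex (g x) := by
  unfold push ex
  exact AddMonoidAlgebra.mapDomain_single

theorem tr_zero : F4.tr 3 (aw 1 0) = F4.xi 3 := by
  funext o
  rcases o with _ | j
  · rfl
  · unfold GD.tr GD.xi aw fp
    simp

theorem main : RDat.N_dem → RDat.N_desc → GD.J_dat → GD.J_hd → GD.T_F4 → GD.J_sig → GD.J_mem →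
    GD.J_F → GD.J_K → GD.J_F4 → GD.J_kr → GD.J_lvV → GD.J_odd → GD.J_two → GD.J_F4fin := by
  intro hNdem hNdesc hdat hhd hOK hsig hmem hF hK hF4 hkr hlv hodd htwo
  intro Q hQ k hk V _ R i
  have hS : F4.OKs := GD.OK.toOKs hOK
  obtain ⟨D, hD⟩ := hdat 4 F4 hS
  have hHD := hhd 4 F4 hS D hD
  have hdem : D.DemOK := hNdem _ _ D F4.rho hHD
  obtain ⟨hdesc, htr, hc, hfq⟩ := hF4 D hD hdem
  -- the end of the word
  have hend : D.sR (some 3 :: wF4) (F4.xi 3) = aw 1 0 := by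
    rw [← tr_zero]
    exact htr _
  have hdom : D.Dom (D.sR (some 3 :: wF4) (F4.xi 3)) := by
    rw [hend]
    intro j
    rw [hD.co]
    rcases j with _ | j
    · show 0 ≤ (1 : ℤ) - dot F4.th (fp (aw 1 0))
      have : dot F4.th (fp (aw 1 (0 : Fin 4 → ℤ))) = 0 := by
        unfold dot fp aw
        simp
      rw [this]
      norm_num
    · exact le_refl (0 : ℤ)
  obtain ⟨X, hX⟩ := (hsig 4 F4 hS D hD 3).1 wF4 hdesc hdom
  have hsg : ∀ x, X.sg x = x := by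
    intro x
    rw [X.eq, hX]
    exact htr x
  have hU : ∀ m : ℕ, X.U m = F4.T D 3 (m + 1) := by
    intro m
    rw [← hc m]
    unfold XD.U XD.X
    rw [hX]
    have h1 : push (X.sg : (Option (Fin 4) → ℤ) →+ (Option (Fin 4) → ℤ)) (ex (aw (m : ℤ) (-om 3))) =
        ex (aw (m : ℤ) (-om 3)) := by
      rw [push_ex]
      exact congrArg ex (hsg _)
    have h2 : (push (X.sg : (Option (Fin 4) → ℤ) →+ (Option (Fin 4) → ℤ))).toAddMonoidHom
        (ex (aw (m : ℤ) (-om 3))) = ex (aw (m : ℤ) (-om 3)) := h1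
    rw [AddMonoidHom.comp_apply, h2]
  obtain ⟨ho1, ho2⟩ := hodd 4 F4 hS isT2 D hD hdem Q hQ 3 rfl rfl ⟨X, fun m _ => hU m⟩
  obtain ⟨hk1, hk2, hk3⟩ := hkr 4 F4 hS D hD hdem Q hQ
  obtain ⟨hm1, hm2, hm3⟩ := hmem 4 F4 hS D hD
  obtain ⟨hF1, hT1, hF3, hT3, -, -, -⟩ := hF 4 F4 hS D hD hdem
  -- the recursion at the node 3
  have hrec : ∀ m : ℕ, Q 3 (2 * m + 1) * Q 3 (2 * m + 1) =
      Q 3 (2 * (m + 1)) * Q 3 (2 * m) + Q 2 (2 * m + 1) := by
    intro m
    have h := hQ.qsys 3 (2 * m)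
    rw [nb3] at h
    exact h
  have hF3' : ∀ m : ℕ, push aw0 (chr (Q 3 (2 * m))) = F4.F D 3 m := by
    intro m
    have h := hk1 3 m
    rw [t3] at h
    exact h
  -- node 2
  have ho2' : ∀ m : ℕ, push aw0 (chr (Q 2 (2 * m + 1))) = F4.T D 2 (m + 1) := by
    intro m
    have h := congrArg (psi F4) (hrec m)
    rw [map_mul, map_add, map_mul] at h
    rw [psi_eq, psi_eq, psi_eq, psi_eq, ho1, hF3', hF3'] at h
    have h2 := hfq m
    have h3 : F4.T D 3 (m + 1) ^ 2 = F4.F D 3 (m + 1) * F4.F D 3 m +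
        push aw0 (chr (Q 2 (2 * m + 1))) := by
      rw [pow_two]
      exact h
    rw [h2, mul_comm (F4.F D 3 (m + 1))] at h3
    exact (add_left_cancel h3).symm
  -- vanishing
  have hxiT : F4.xi 3 ∈ D.T := by
    rw [hD.T]
    exact le_refl (1 : ℤ)
  have hsT : D.s (some 3) (F4.xi 3) ∈ D.T := by
    rw [hD.T]
    show 1 ≤ (F4.xi 3 - D.co (some 3) (F4.xi 3) • D.al (some 3)) none
    rw [hD.al]
    have h1 : (F4.xi 3 - D.co (some 3) (F4.xi 3) • F4.al (some 3)) none = 1 := by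
      rw [Pi.sub_apply, Pi.smul_apply]
      show (1 : ℤ) - D.co (some 3) (F4.xi 3) * 0 = 1
      ring
    exact h1.ge
  have hT0 : F4.T D 3 0 = 0 := by
    unfold GD.T
    rw [hdem.d5 _ hxiT, hdem.d5 _ hsT, sub_self, mul_zero]
  have hTe : ∀ m : ℕ, ∃ f : F4.RepR, push aw0 (chr f) = F4.T D 3 m := fun m => hm2 _ (hT1 3 m)
  obtain ⟨Te, hTe⟩ : ∃ Te : ℕ → F4.RepR, ∀ m, push aw0 (chr (Te m)) = F4.T D 3 m :=
    ⟨fun m => (hTe m).choose, fun m => (hTe m).choose_spec⟩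
  have hTe0 : Te 0 = 0 := by
    apply Subtype.ext
    apply hm3
    have h1 := hTe 0
    rw [hT0] at h1
    exact h1.trans (map_zero (push aw0)).symm
  obtain ⟨hl1, hl2, hl3, hl4, hl5⟩ := hlv 4 F4 hS D hD hdem 3 (fun m => Q 3 (2 * m)) Te hF3' hTe k hk
    V R
  have hv3 : R.pi (Q 3 (2 * k + 1)) = 0 := by
    have h := hl5 X k (Q 3 (2 * k + 1)) le_rfl ((ho1 k).trans (hU k).symm)
    rw [h, Nat.sub_self, hTe0, map_zero, mul_zero]
  have hv2 : R.pi (Q 2 (2 * k + 1)) = 0 := by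
    have h := congrArg R.pi (hrec k)
    rw [map_mul, map_add, map_mul, hv3, mul_zero] at h
    have h4 : R.pi (Q 3 (2 * (k + 1))) = 0 := hl4
    rw [h4, zero_mul, zero_add] at h
    exact h.symm
  have hi : ∀ i : Fin 4, F4.t i = 2 → i = 2 ∨ i = 3 := by decide
  refine htwo 4 F4 hS isT2 D hD hdem Q hQ ?_ k hk V R ?_ i
  · intro i hi2 m
    rcases hi i hi2 with h | h
    · subst h
      exact ho2' m
    · subst h
      exact ho1 m
  · intro i hi2
    rcases hi i hi2 with h | h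
    · subst h
      exact hv2
    · subst h
      exact hv3

end H391.KR.P_jF4fin
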