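import Pool.Agent.H391.KR.JC

/-!
# The identities in type `G_2` (J_G2), by calculations in a free module
-/

noncomputable section

namespace H391.KR.P_jG2

open Finset H391.KR

theorem hom_ext {ι : Type} {N : Type*} [AddCommGroup N] (f g : GR ι →+ N)
    (h : ∀ x, f (ex x) = g (ex x)) : f = g := by
  refine AddMonoidAlgebra.addMonoidHom_ext ?_
  intro x r
  have e : (AddMonoidAlgebra.single x r : GR ι) = r • (ex x : GR ι) := by
    unfold ex
    rw [AddMonoidAlgebra.smul_single]
    simp
  rw [e, map_zsmul, map_zsmul, h]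

theorem pair_eq {ι : Type} (p : (ι → ℤ) → ℤ) (f : GR ι) :
    pair p f = f.coeff.sum (fun x r => r * p x) := rfl

theorem pair_ex {ι : Type} (p : (ι → ℤ) → ℤ) (x : ι → ℤ) : pair p (ex x) = p x := by
  rw [pair_eq]
  unfold ex
  rw [AddMonoidAlgebra.coeff_single, Finsupp.sum_single_index (by simp)]
  simp

theorem ex_mul {ι : Type} (x y : ι → ℤ) : (ex x : GR ι) * ex y = ex (x + y) := by
  unfold ex
  rw [AddMonoidAlgebra.single_mul_single, one_mul]

theorem ex_zero {ι : Type} : (ex (0 : ι → ℤ) : GR ι) = 1 := rfl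

variable {ι I : Type} (D : RDat ι I) (j : I)

theorem dem_eq (f : GR ι) : D.dem j f = f.coeff.sum (fun x r => (r : GR ι) * D.demB j x) := rfl

theorem dem_ex (x : ι → ℤ) : D.dem j (ex x) = D.demB j x := by
  rw [dem_eq]
  unfold ex
  rw [AddMonoidAlgebra.coeff_single, Finsupp.sum_single_index (by simp)]
  simp

/-! ### the reflection as a ring homomorphism -/

theorem co_al : D.co j (D.al j) = 2 := D.ev_rt _

theorem co_add (x y : ι → ℤ) : D.co j (x + y) = D.co j x + D.co j y := map_add _ _ _

theorem co_sub (x y : ι → ℤ) : D.co j (x - y) = D.co j x - D.co j y := map_sub _ _ _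

theorem co_neg (x : ι → ℤ) : D.co j (-x) = - D.co j x := map_neg _ _

theorem co_zero : D.co j 0 = 0 := map_zero _

theorem co_smul (c : ℤ) (x : ι → ℤ) : D.co j (c • x) = c * D.co j x := by
  unfold RDat.co
  rw [map_zsmul, smul_eq_mul]

theorem co_s (x : ι → ℤ) : D.co j (D.s j x) = - D.co j x := by
  unfold RDat.s
  rw [co_sub, co_smul, co_al]
  ring

theorem s_s (x : ι → ℤ) : D.s j (D.s j x) = x := by
  have h : D.s j (D.s j x) = D.s j x - D.co j (D.s j x) • D.al j := rfl
  rw [h, co_s]
  unfold RDat.s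
  rw [neg_smul]
  abel

/-- simple reflection as an additive homomorphism -/
def sH : (ι → ℤ) →+ (ι → ℤ) where
  toFun := D.s j
  map_zero' := by
    unfold RDat.s
    rw [co_zero]
    simp
  map_add' x y := by
    unfold RDat.s
    rw [co_add, add_smul]
    abel

theorem s_neg (x : ι → ℤ) : D.s j (-x) = - D.s j x := map_neg (sH D j) x

/-- simple reflection on the group ring -/
def S : GR ι →+* GR ι := push (sH D j)

theorem S_ex (x : ι → ℤ) : S D j (ex x) = ex (D.s j x) := by
  unfold S push ex
  exact AddMonoidAlgebra.mapDomain_single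

theorem S_S (f : GR ι) : S D j (S D j f) = f := by
  have h : ((S D j).toAddMonoidHom.comp (S D j).toAddMonoidHom) = AddMonoidHom.id (GR ι) := by
    apply hom_ext
    intro x
    show S D j (S D j (ex x)) = ex x
    rw [S_ex, S_ex, s_s]
  exact DFunLike.congr_fun h f

theorem S_coeff (f : GR ι) (x : ι → ℤ) : (S D j f).coeff (D.s j x) = f.coeff x := by
  have hinj : Function.Injective (D.s j) := fun a b h => by
    have := congrArg (D.s j) h
    rwa [s_s, s_s] at this
  have h : (S D j f).coeff = Finsupp.mapDomain (D.s j) f.coeff := rfl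
  rw [h]
  exact Finsupp.mapDomain_apply hinj _ _

theorem inv_iff (f : GR ι) : D.IsInv j f ↔ S D j f = f := by
  constructor
  · intro h
    apply AddMonoidAlgebra.coeff_injective
    ext y
    have h1 := S_coeff D j f (D.s j y)
    rw [s_s] at h1
    rw [h1]
    exact h y
  · intro h x
    have h1 := S_coeff D j f x
    rwa [h] at h1

/-! ### the defining identity -/

/-- the denominator -/
def E : GR ι := 1 - ex (-(D.al j))

theorem E_ex (x : ι → ℤ) : E D j * ex x = ex x - ex (x - D.al j) := by
  unfold E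
  rw [sub_mul, one_mul, ex_mul, neg_add_eq_sub]

theorem E_demB (x : ι → ℤ) :
    E D j * D.demB j x = ex x - ex (-(D.al j)) * S D j (ex x) := by
  rw [S_ex, ex_mul]
  unfold RDat.demB
  split_ifs with h
  · rw [Finset.mul_sum]
    have h1 : ∀ c ∈ range ((D.co j x).toNat + 1), E D j * ex (x - (c : ℤ) • D.al j) =
        ex (x - (c : ℤ) • D.al j) - ex (x - ((c + 1 : ℕ) : ℤ) • D.al j) := by
      intro c _
      rw [E_ex]
      congr 2
      push_cast
      rw [add_smul, one_smul]
      abel
    rw [Finset.sum_congr rfl h1,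
      Finset.sum_range_sub' (fun c : ℕ => (ex (x - (c : ℤ) • D.al j) : GR ι))]
    have h2 : x - ((0 : ℕ) : ℤ) • D.al j = x := by simp
    have h3 : x - (((D.co j x).toNat + 1 : ℕ) : ℤ) • D.al j = -(D.al j) + D.s j x := by
      unfold RDat.s
      push_cast
      rw [Int.toNat_of_nonneg h, add_smul, one_smul]
      abel
    rw [h2, h3]
  · rw [mul_neg, Finset.mul_sum]
    have h1 : ∀ c ∈ range ((- D.co j x).toNat - 1), E D j * ex (x + ((c : ℤ) + 1) • D.al j) =
        ex (x + ((c + 1 : ℕ) : ℤ) • D.al j) - ex (x + ((c : ℕ) : ℤ) • D.al j) := by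
      intro c _
      rw [E_ex]
      have e1 : x + ((c + 1 : ℕ) : ℤ) • D.al j = x + ((c : ℤ) + 1) • D.al j := by
        push_cast
        rfl
      have e2 : x + ((c : ℕ) : ℤ) • D.al j = x + ((c : ℤ) + 1) • D.al j - D.al j := by
        rw [add_smul, one_smul]
        abel
      rw [e1, e2]
    rw [Finset.sum_congr rfl h1,
      Finset.sum_range_sub (fun c : ℕ => (ex (x + (c : ℤ) • D.al j) : GR ι))]
    have h2 : x + ((0 : ℕ) : ℤ) • D.al j = x := by simp
    have h3 : x + (((- D.co j x).toNat - 1 : ℕ) : ℤ) • D.al j = -(D.al j) + D.s j x := by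
      unfold RDat.s
      have h4 : (((- D.co j x).toNat - 1 : ℕ) : ℤ) = - D.co j x - 1 := by omega
      rw [h4, sub_smul, neg_smul, one_smul]
      abel
    rw [h2, h3]
    ring

theorem E_dem (f : GR ι) : E D j * D.dem j f = f - ex (-(D.al j)) * S D j f := by
  have h : (AddMonoidHom.mulLeft (E D j)).comp (D.dem j) =
      AddMonoidHom.id (GR ι) -
        (AddMonoidHom.mulLeft (ex (-(D.al j)))).comp (S D j).toAddMonoidHom := by
    apply hom_ext
    intro x
    show E D j * D.dem j (ex x) = ex x - ex (-(D.al j)) * S D j (ex x)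
    rw [dem_ex, E_demB]
  exact DFunLike.congr_fun h f

theorem E_zero (f : GR ι) (h : E D j * f = 0) : f = 0 := by
  have h1 : f = ex (-(D.al j)) * f := by
    unfold E at h
    rw [sub_mul, one_mul] at h
    exact sub_eq_zero.mp h
  have h2 : ∀ y, f.coeff y = f.coeff (D.al j + y) := by
    intro y
    have h3 : (ex (-(D.al j)) * f).coeff y = 1 * f.coeff (- -(D.al j) + y) :=
      AddMonoidAlgebra.coeff_single_mul_apply f 1 (-(D.al j)) y
    rw [← h1, one_mul, neg_neg] at h3
    exact h3
  have h3 : ∀ (n : ℕ) y, f.coeff y = f.coeff ((n : ℤ) • D.al j + y) := by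
    intro n
    induction n with
    | zero =>
      intro y
      simp
    | succ n ih =>
      intro y
      rw [ih y, h2]
      congr 1
      push_cast
      rw [add_smul, one_smul]
      abel
  by_contra hne
  have h4 : ∃ y, f.coeff y ≠ 0 := by
    by_contra hcon
    push Not at hcon
    apply hne
    apply AddMonoidAlgebra.coeff_injective
    ext y
    exact hcon y
  obtain ⟨y, hy⟩ := h4
  have hinj : Function.Injective (fun n : ℕ => (n : ℤ) • D.al j + y) := by
    intro a b hab
    have := congrArg (D.co j) hab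
    simp only [co_add, co_smul, co_al] at this
    omega
  have hinf := Set.infinite_range_of_injective hinj
  apply hinf
  refine Set.Finite.subset f.coeff.support.finite_toSet ?_
  rintro _ ⟨n, rfl⟩
  rw [Finset.mem_coe, Finsupp.mem_support_iff, ← h3 n y]
  exact hy


/-! ### the twisted Leibniz rule -/

/-- geometric sum -/
def gG (al x : ι → ℤ) (n : ℤ) : GR ι :=
  ∑ c ∈ range n.toNat, ex (x - (c : ℤ) • al) - ∑ c ∈ range (-n).toNat, ex (x + ((c : ℤ) + 1) • al)

theorem E_gG (x : ι → ℤ) : E D j * gG (D.al j) x (D.co j x) = ex x - ex (D.s j x) := by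
  unfold gG
  rw [mul_sub, Finset.mul_sum, Finset.mul_sum]
  have h1 : ∀ c ∈ range (D.co j x).toNat, E D j * ex (x - (c : ℤ) • D.al j) =
      ex (x - (c : ℤ) • D.al j) - ex (x - ((c + 1 : ℕ) : ℤ) • D.al j) := by
    intro c _
    rw [E_ex]
    congr 2
    push_cast
    rw [add_smul, one_smul]
    abel
  have h2 : ∀ c ∈ range (-(D.co j x)).toNat, E D j * ex (x + ((c : ℤ) + 1) • D.al j) =
      ex (x + ((c + 1 : ℕ) : ℤ) • D.al j) - ex (x + ((c : ℕ) : ℤ) • D.al j) := by
    intro c _
    rw [E_ex]
    have e1 : x + ((c + 1 : ℕ) : ℤ) • D.al j = x + ((c : ℤ) + 1) • D.al j := by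
      push_cast
      rfl
    have e2 : x + ((c : ℕ) : ℤ) • D.al j = x + ((c : ℤ) + 1) • D.al j - D.al j := by
      rw [add_smul, one_smul]
      abel
    rw [e1, e2]
  rw [Finset.sum_congr rfl h1, Finset.sum_congr rfl h2,
    Finset.sum_range_sub' (fun c : ℕ => (ex (x - (c : ℤ) • D.al j) : GR ι)),
    Finset.sum_range_sub (fun c : ℕ => (ex (x + (c : ℤ) • D.al j) : GR ι))]
  have z1 : x - ((0 : ℕ) : ℤ) • D.al j = x := by simp
  have z2 : x + ((0 : ℕ) : ℤ) • D.al j = x := by simp
  rcases le_total 0 (D.co j x) with h | h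
  · have e1 : (-(D.co j x)).toNat = 0 := by omega
    have e2 : x - (((D.co j x).toNat : ℕ) : ℤ) • D.al j = D.s j x := by
      unfold RDat.s
      rw [Int.toNat_of_nonneg h]
    rw [e1, e2, z1, z2]
    ring
  · have e1 : (D.co j x).toNat = 0 := by omega
    have e2 : x + (((-(D.co j x)).toNat : ℕ) : ℤ) • D.al j = D.s j x := by
      unfold RDat.s
      rw [Int.toNat_of_nonneg (by omega), neg_smul]
      abel
    rw [e1, e2, z1, z2]
    ring

theorem dem_exm (x : ι → ℤ) (g : GR ι) : D.dem j (ex x * g) =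
    gG (D.al j) x (D.co j x) * g + ex (D.s j x) * D.dem j g := by
  apply sub_eq_zero.1
  apply E_zero D j
  have h1 := E_dem D j (ex x * g)
  rw [(S D j).map_mul, S_ex] at h1
  have h2 := E_gG D j x
  have h3 := E_dem D j g
  linear_combination h1 - g * h2 - ex (D.s j x) * h3

/-! ### computable weights -/

/-- letters -/
inductive Lt
  | z
  | a
  | b

/-- the node of a letter -/
def lt : Lt → Option (Fin 2)
  | .z => none
  | .a => some 0
  | .b => some 1

/-- weights in the coordinates given by the simple coroots -/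
abbrev T3 := ℤ × ℤ × ℤ

/-- terms: coefficient, weight, shape -/
abbrev Tm := ℤ × T3 × T3

/-- coordinate -/
def cj : Lt → T3 → ℤ
  | .z, x => x.1
  | .a, x => x.2.1
  | .b, x => x.2.2

/-- simple root -/
def aj : Lt → T3
  | .z => (2, 0, -1)
  | .a => (0, 2, -1)
  | .b => (-1, -3, 2)

/-- `x - c y` -/
def sb (x : T3) (c : ℤ) (y : T3) : T3 := (x.1 - c * y.1, x.2.1 - c * y.2.1, x.2.2 - c * y.2.2)

/-- sum -/
def ad (x y : T3) : T3 := (x.1 + y.1, x.2.1 + y.2.1, x.2.2 + y.2.2)

/-- simple reflection -/
def sj (j : Lt) (x : T3) : T3 := sb x (cj j x) (aj j)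

/-- level -/
def lv (x : T3) : ℤ := x.1 + x.2.1 + 2 * x.2.2

/-- the weight -/
def W3 (x : T3) : Option (Fin 2) → ℤ := aw (lv x) ![x.2.1, x.2.2]

theorem W3_sb (x : T3) (c : ℤ) (y : T3) : W3 (sb x c y) = W3 x - c • W3 y := by
  funext o
  match o with
  | none =>
    show lv (sb x c y) = lv x - c * lv y
    simp only [lv, sb]
    ring
  | some 0 => rfl
  | some 1 => rfl

theorem W3_ad (x y : T3) : W3 (ad x y) = W3 x + W3 y := by
  funext o
  match o with
  | none =>
    show lv (ad x y) = lv x + lv y
    simp only [lv, ad]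
    ring
  | some 0 => rfl
  | some 1 => rfl

theorem lv_sb (x : T3) (c : ℤ) (j : Lt) : lv (sb x c (aj j)) = lv x := by
  cases j <;> simp only [lv, sb, aj] <;> ring

section G

variable {D : RDat (Option (Fin 2)) (Option (Fin 2))} (hA : G2.AffDat D)
include hA

theorem co_W (k : Lt) (x : T3) : D.co (lt k) (W3 x) = cj k x := by
  rw [hA.co]
  cases k with
  | z =>
    show lv x - dot G2.th (fp (W3 x)) = x.1
    have h : dot G2.th (fp (W3 x)) = 1 * x.2.1 + 2 * x.2.2 := by
      unfold dot
      rw [Fin.sum_univ_two]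
      rfl
    rw [h]
    simp only [lv]
    ring
  | a => rfl
  | b => rfl

theorem al_W (k : Lt) : D.al (lt k) = W3 (aj k) := by
  rw [hA.al]
  cases k with
  | z =>
    funext o
    match o with
    | none => rfl
    | some 0 => decide
    | some 1 => decide
  | a =>
    funext o
    match o with
    | none => rfl
    | some 0 => rfl
    | some 1 => rfl
  | b =>
    funext o
    match o with
    | none => rfl
    | some 0 => rfl
    | some 1 => rfl

theorem s_W (k : Lt) (x : T3) : D.s (lt k) (W3 x) = W3 (sj k x) := by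
  unfold RDat.s
  rw [co_W hA, al_W hA, sj, W3_sb]

theorem T_W (x : T3) (h : lv x = 1) : W3 x ∈ D.T := by
  rw [hA.T]
  show (1 : ℤ) ≤ lv x
  omega

end G

/-! ### evaluation -/

variable {D : RDat (Option (Fin 2)) (Option (Fin 2))}

/-- value of a term -/
def evT (D : RDat (Option (Fin 2)) (Option (Fin 2))) (m : ℕ) (t : Tm) : GR (Option (Fin 2)) :=
  t.1 • (ex (W3 t.2.1) * D.Dem (W3 t.2.2) m)

/-- value of a list of terms -/
def ev (D : RDat (Option (Fin 2)) (Option (Fin 2))) (m : ℕ) (L : List Tm) : GR (Option (Fin 2)) :=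
  (L.map (evT D m)).sum

theorem ev_nil (m : ℕ) : ev D m [] = 0 := rfl

theorem ev_cons (m : ℕ) (t : Tm) (L : List Tm) : ev D m (t :: L) = evT D m t + ev D m L := by
  unfold ev
  rw [List.map_cons, List.sum_cons]

theorem ev_append (m : ℕ) (L L' : List Tm) : ev D m (L ++ L') = ev D m L + ev D m L' := by
  unfold ev
  rw [List.map_append, List.sum_append]

theorem ev_range (m : ℕ) (F : ℕ → Tm) (n : ℕ) :
    ev D m ((List.range n).map F) = ∑ c ∈ range n, evT D m (F c) := by
  induction n with
  | zero => rfl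
  | succ n ih =>
    rw [List.range_succ, List.map_append, ev_append, ih, Finset.sum_range_succ]
    congr 1
    show ev D m [F n] = _
    rw [ev_cons, ev_nil, add_zero]

/-- one operator on one term -/
def stT (j : Lt) (t : Tm) : List Tm :=
  (t.1, sj j t.2.1, if 0 < cj j t.2.2 then sj j t.2.2 else t.2.2) ::
    ((List.range (cj j t.2.1).toNat).map (fun c : ℕ => (t.1, sb t.2.1 (c : ℤ) (aj j), t.2.2)) ++
      (List.range (-(cj j t.2.1)).toNat).map
        (fun c : ℕ => (-t.1, sb t.2.1 (-((c : ℤ) + 1)) (aj j), t.2.2)))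

theorem dem_T (hA : G2.AffDat D) (hD : D.DemOK) (m : ℕ) (k : Lt) (t : Tm) (ht : lv t.2.2 = 1) :
    D.dem (lt k) (evT D m t) = ev D m (stT k t) := by
  obtain ⟨c0, x, y⟩ := t
  have hy : W3 y ∈ D.T := T_W hA y ht
  have hT : ∀ z : T3, lv z = 1 → W3 z ∈ D.T := fun z h => T_W hA z h
  have h1 : D.dem (lt k) (D.Dem (W3 y) m) = D.Dem (W3 (if 0 < cj k y then sj k y else y)) m := by
    split_ifs with h
    · have hs : lv (sj k y) = 1 := by rw [sj, lv_sb]; exact ht
      have h2 := hD.d1 (W3 (sj k y)) (hT _ hs) m (lt k) (by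
        rw [← s_W hA, co_s, co_W hA]
        omega)
      rw [← s_W hA, s_s] at h2
      rw [h2, s_W hA]
    · exact hD.d2 (W3 y) hy m (lt k) (by rw [co_W hA]; omega)
  unfold stT
  rw [ev_cons, ev_append, ev_range, ev_range]
  unfold evT
  simp only []
  rw [map_zsmul, dem_exm, h1, co_W hA, s_W hA, al_W hA]
  unfold gG
  have e1 : ∀ c : ℕ, W3 (sb x c (aj k)) = W3 x - (c : ℤ) • W3 (aj k) := fun c => W3_sb _ _ _
  have e2 : ∀ c : ℕ, W3 (sb x (-((c : ℤ) + 1)) (aj k)) = W3 x + ((c : ℤ) + 1) • W3 (aj k) := by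
    intro c
    rw [W3_sb, neg_smul, sub_neg_eq_add]
  simp only [e1, e2]
  rw [sub_mul, Finset.sum_mul, Finset.sum_mul, smul_add, smul_sub, Finset.smul_sum,
    Finset.smul_sum]
  simp only [neg_smul, Finset.sum_neg_distrib]
  ring

/-- insertion -/
def add1 : Tm → List Tm → List Tm
  | t, [] => if t.1 = 0 then [] else [t]
  | t, u :: L => if t.2 = u.2 then (if t.1 + u.1 = 0 then L else (t.1 + u.1, u.2) :: L)
      else u :: add1 t L

/-- collection of equal terms -/
def col (L : List Tm) : List Tm := L.foldr add1 []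

theorem evT_zero (m : ℕ) (t : Tm) (h : t.1 = 0) : evT D m t = 0 := by
  unfold evT
  rw [h, zero_smul]

theorem evT_add (m : ℕ) (c d : ℤ) (x : T3 × T3) : evT D m (c + d, x) = evT D m (c, x) + evT D m (d, x) := by
  unfold evT
  rw [add_smul]

theorem ev_add1 (m : ℕ) (t : Tm) (L : List Tm) : ev D m (add1 t L) = evT D m t + ev D m L := by
  induction L with
  | nil =>
    unfold add1
    split_ifs with h
    · rw [evT_zero m t h, ev_nil, add_zero]
    · rw [ev_cons]
  | cons u L ih =>
    unfold add1
    split_ifs with h h'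
    · obtain ⟨c, x⟩ := t
      obtain ⟨d, y⟩ := u
      simp only at h h'
      subst h
      rw [ev_cons, ← add_assoc, ← evT_add, evT_zero m _ h', zero_add]
    · obtain ⟨c, x⟩ := t
      obtain ⟨d, y⟩ := u
      simp only at h h'
      subst h
      rw [ev_cons, ev_cons, ← add_assoc, ← evT_add]
    · rw [ev_cons, ev_cons, ih]
      ring

theorem ev_col (m : ℕ) (L : List Tm) : ev D m (col L) = ev D m L := by
  induction L with
  | nil => rfl
  | cons t L ih =>
    show ev D m (add1 t (col L)) = _
    rw [ev_add1, ih, ev_cons]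

/-- all shapes have level one -/
def lvl (L : List Tm) : Prop := ∀ t ∈ L, lv t.2.2 = 1

theorem lvl_add1 (t : Tm) (L : List Tm) (ht : lv t.2.2 = 1) (hL : lvl L) : lvl (add1 t L) := by
  induction L with
  | nil =>
    unfold add1
    split_ifs with h
    · intro u hu
      simp at hu
    · intro u hu
      rw [List.mem_singleton] at hu
      rw [hu]
      exact ht
  | cons u L ih =>
    have hu : lv u.2.2 = 1 := hL u (List.mem_cons_self ..)
    have hL' : lvl L := fun v hv => hL v (List.mem_cons_of_mem _ hv)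
    unfold add1
    split_ifs with h h'
    · exact hL'
    · intro v hv
      rcases List.mem_cons.1 hv with hv | hv
      · rw [hv]
        exact hu
      · exact hL' v hv
    · intro v hv
      rcases List.mem_cons.1 hv with hv | hv
      · rw [hv]
        exact hu
      · exact ih hL' v hv

theorem lvl_col (L : List Tm) (hL : lvl L) : lvl (col L) := by
  induction L with
  | nil =>
    intro u hu
    simp [col] at hu
  | cons t L ih =>
    show lvl (add1 t (col L))
    exact lvl_add1 t _ (hL t (List.mem_cons_self ..)) (ih fun v hv => hL v (List.mem_cons_of_mem _ hv))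

theorem lvl_stT (k : Lt) (t : Tm) (ht : lv t.2.2 = 1) : lvl (stT k t) := by
  intro u hu
  unfold stT at hu
  rcases List.mem_cons.1 hu with hu | hu
  · rw [hu]
    simp only []
    split_ifs with h
    · rw [sj, lv_sb]
      exact ht
    · exact ht
  · rcases List.mem_append.1 hu with hu | hu
    · obtain ⟨c, -, rfl⟩ := List.mem_map.1 hu
      exact ht
    · obtain ⟨c, -, rfl⟩ := List.mem_map.1 hu
      exact ht

/-- the operator on lists -/
def st (j : Lt) (L : List Tm) : List Tm := col (L.flatMap (stT j))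

theorem ev_st (hA : G2.AffDat D) (hD : D.DemOK) (m : ℕ) (k : Lt) (L : List Tm) (hL : lvl L) :
    D.dem (lt k) (ev D m L) = ev D m (st k L) ∧ lvl (st k L) := by
  constructor
  · unfold st
    rw [ev_col]
    induction L with
    | nil => rw [ev_nil, map_zero]; rfl
    | cons t L ih =>
      rw [ev_cons, map_add, List.flatMap_cons, ev_append, dem_T hA hD m k t (hL t (List.mem_cons_self ..)),
        ih fun v hv => hL v (List.mem_cons_of_mem _ hv)]
  · apply lvl_col
    intro u hu
    obtain ⟨t, ht, hu⟩ := List.mem_flatMap.1 hu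
    exact lvl_stT k t (hL t ht) u hu

/-- words, the last letter acts first -/
def run : List Lt → List Tm → List Tm
  | [], L => L
  | j :: w, L => st j (run w L)

theorem ev_run (hA : G2.AffDat D) (hD : D.DemOK) (m : ℕ) (w : List Lt) (L : List Tm) (hL : lvl L) :
    D.demL (w.map lt) (ev D m L) = ev D m (run w L) ∧ lvl (run w L) := by
  induction w with
  | nil => exact ⟨rfl, hL⟩
  | cons j w ih =>
    have h := ev_st hA hD m j (run w L) ih.2
    refine ⟨?_, h.2⟩
    show D.dem (lt j) (D.demL (w.map lt) (ev D m L)) = _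
    rw [ih.1]
    exact h.1

/-- negative -/
def ng (t : Tm) : Tm := (-t.1, t.2)

theorem ev_ng (m : ℕ) (L : List Tm) : ev D m (L.map ng) = - ev D m L := by
  induction L with
  | nil => rw [List.map_nil, ev_nil, neg_zero]
  | cons t L ih =>
    rw [List.map_cons, ev_cons, ev_cons, ih, neg_add]
    congr 1
    unfold evT ng
    rw [neg_smul]

theorem ev_eq (m : ℕ) (L L' : List Tm) (h : col (L ++ L'.map ng) = []) : ev D m L = ev D m L' := by
  have h1 := ev_col (D := D) m (L ++ L'.map ng)
  rw [h, ev_nil, ev_append, ev_ng] at h1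
  exact (sub_eq_zero.1 (by rw [sub_eq_add_neg]; exact h1.symm))

/-- multiplication by an exponential -/
def sh (x : T3) (L : List Tm) : List Tm := L.map fun t => (t.1, ad x t.2.1, t.2.2)

theorem ev_sh (m : ℕ) (x : T3) (L : List Tm) : ev D m (sh x L) = ex (W3 x) * ev D m L := by
  induction L with
  | nil => rw [ev_nil, mul_zero]; rfl
  | cons t L ih =>
    show ev D m ((t.1, ad x t.2.1, t.2.2) :: sh x L) = _
    rw [ev_cons, ev_cons, ih, mul_add]
    congr 1
    unfold evT
    simp only []
    rw [W3_ad, ← ex_mul, mul_smul_comm, mul_assoc]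

/-! ### the calculations -/

/-- the word -/
def wG : List Lt := [.a, .b, .a, .b, .a, .z, .b, .a, .b, .z]

/-- the second word -/
def wH : List Lt := [.b, .a, .b, .a, .b, .z]

theorem wG_eq : (some 0 :: GD.wG2 : List (Option (Fin 2))) = wG.map lt := rfl

/-- start -/
def L0 : List Tm := [(1, (1, -1, 0), (1, 0, 0))]

/-- the seven terms -/
def L7 : List Tm := [(1, (-1, -1, 1), (-2, -3, 3)), (1, (-1, 1, 0), (-2, 3, 0)),
  (1, (0, -2, 1), (1, -6, 3)), (1, (0, 0, 0), (1, 6, -3)), (1, (0, 2, -1), (1, 6, -3)),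
  (1, (1, -1, 0), (4, -3, 0)), (1, (1, 1, -1), (4, 3, -3))]

/-- the top term, shifted -/
def Lt1 : List Tm := [(1, (2, -2, 0), (4, -3, 0))]

/-- the other terms, shifted -/
def Lr : List Tm := [(1, (0, -2, 1), (-2, -3, 3)), (1, (0, 0, 0), (-2, 3, 0)),
  (1, (1, -3, 1), (1, -6, 3)), (1, (1, -1, 0), (1, 6, -3)), (1, (1, 1, -1), (1, 6, -3)),
  (1, (2, 0, -1), (4, 3, -3))]

theorem c1 : col (run wG L0 ++ L7.map ng) = [] := by decide +kernel

theorem c2 : col (st .a L7 ++ L7.map ng) = [] := by decide +kernel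

theorem c3 : col (st .b L7 ++ L7.map ng) = [] := by decide +kernel

theorem c4 : col (sh (1, -1, 0) L7 ++ (Lt1 ++ Lr).map ng) = [] := by decide +kernel

theorem c5 : col (run wG Lr ++ (sh (-1, 0, 0) (run wH [(1, (1, 0, 0), (5, 0, -2))])).map ng) = [] := by
  decide +kernel

theorem c6 : col (run wG [(1, (1, -2, 0), (1, 0, 0))] ++
    ([(1, (-2, 1, 0), (4, -3, 0)), (-1, (-2, 1, 0), (4, 3, -3))] : List Tm).map ng) = [] := by
  decide +kernel

/-! ### assembly -/

theorem ex_neg_cancel {ι : Type} (x : ι → ℤ) (f : GR ι) : ex (-x) * (ex x * f) = f := by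
  rw [← mul_assoc, ex_mul, neg_add_cancel, ex_zero, one_mul]

/-- descents -/
def dsc : List Lt → T3 → Bool
  | [], _ => true
  | j :: w, x => decide (cj j x < 0) && dsc w (sj j x)

/-- action of words -/
def sRw : List Lt → T3 → T3
  | [], x => x
  | j :: w, x => sRw w (sj j x)

theorem desc_W (hA : G2.AffDat D) (w : List Lt) (x : T3) (h : dsc w x = true) :
    D.Desc (w.map lt) (W3 x) := by
  induction w generalizing x with
  | nil => trivial
  | cons j w ih =>
    have h' : (decide (cj j x < 0) && dsc w (sj j x)) = true := h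
    rw [Bool.and_eq_true, decide_eq_true_eq] at h'
    refine ⟨?_, ?_⟩
    · rw [co_W hA]
      exact h'.1
    · rw [s_W hA]
      exact ih _ h'.2

theorem sR_W (hA : G2.AffDat D) (w : List Lt) (x : T3) :
    D.sR (w.map lt) (W3 x) = W3 (sRw w x) := by
  induction w generalizing x with
  | nil => rfl
  | cons j w ih =>
    show D.sR (w.map lt) (D.s (lt j) (W3 x)) = _
    rw [s_W hA, ih]
    rfl

theorem desc0_of_desc {ι I : Type} (D : RDat ι I) (w : List I) (x : ι → ℤ) (h : D.Desc w x) :
    D.Desc0 w x := by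
  induction w generalizing x with
  | nil => trivial
  | cons j w ih => exact ⟨h.1.le, ih _ h.2⟩

theorem lt_surj (j : Option (Fin 2)) : ∃ k, j = lt k := by
  match j with
  | none => exact ⟨.z, rfl⟩
  | some 0 => exact ⟨.a, rfl⟩
  | some 1 => exact ⟨.b, rfl⟩

theorem xi0 : G2.xi 0 = W3 (4, -3, 0) := by
  funext o
  match o with
  | none => rfl
  | some 0 => rfl
  | some 1 => rfl

theorem xi1 : G2.xi 1 = W3 (3, 0, -1) := by
  funext o
  match o with
  | none => rfl
  | some 0 => rfl
  | some 1 => rfl

theorem sRw_id (l p q : ℤ) :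
    sRw wG (4 * l - p - 2 * q, p - 3 * l, q) = (l - p - 2 * q, p, q) := by
  simp only [wG, sRw, sj, sb, cj, aj]
  refine Prod.ext ?_ (Prod.ext ?_ ?_)
  · simp only []
    ring
  · simp only []
    ring
  · simp only []
    ring

theorem W3_self (x : Option (Fin 2) → ℤ) :
    x = W3 (x none - x (some 0) - 2 * x (some 1), x (some 0), x (some 1)) := by
  funext o
  match o with
  | none =>
    show x none = lv _
    simp only [lv]
    ring
  | some 0 => rfl
  | some 1 => rfl

theorem tr_W (x : Option (Fin 2) → ℤ) : G2.tr 0 x =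
    W3 (4 * x none - x (some 0) - 2 * x (some 1), x (some 0) - 3 * x none, x (some 1)) := by
  funext o
  match o with
  | none =>
    show x none = lv _
    simp only [lv]
    ring
  | some 0 =>
    show x (some 0) - (x none * 3) * 1 = x (some 0) - 3 * x none
    ring
  | some 1 =>
    show x (some 1) - (x none * 3) * 0 = x (some 1)
    ring

/-- all weights have the level `l` -/
def HL (l : ℤ) (f : GR (Option (Fin 2))) : Prop := ∀ x, f.coeff x ≠ 0 → x none = l

theorem HL_zero (l : ℤ) : HL l 0 := fun _ h => absurd rfl h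

theorem HL_add {l : ℤ} {f g : GR (Option (Fin 2))} (hf : HL l f) (hg : HL l g) : HL l (f + g) := by
  intro x hx
  by_cases h : f.coeff x = 0
  · apply hg
    intro h'
    apply hx
    show f.coeff x + g.coeff x = 0
    rw [h, h', add_zero]
  · exact hf x h

theorem HL_smul {l : ℤ} {f : GR (Option (Fin 2))} (c : ℤ) (hf : HL l f) : HL l (c • f) := by
  intro x hx
  apply hf
  intro h
  apply hx
  show c • f.coeff x = 0
  rw [h, smul_zero]

theorem HL_ex {l l' : ℤ} {f : GR (Option (Fin 2))} (y : Option (Fin 2) → ℤ) (hy : y none = l')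
    (hf : HL l f) : HL (l' + l) (ex y * f) := by
  intro x hx
  unfold ex at hx
  rw [AddMonoidAlgebra.coeff_single_mul_apply, one_mul] at hx
  have h := hf _ hx
  have h2 : -(y none) + x none = l := h
  rw [hy] at h2
  linarith

theorem closure_level (hA : G2.AffDat D) {x : Option (Fin 2) → ℤ}
    (hx : x ∈ AddSubgroup.closure (Set.range D.al)) : x none = 0 := by
  induction hx using AddSubgroup.closure_induction with
  | mem y hy =>
    obtain ⟨j, rfl⟩ := hy
    rw [hA.al]
    cases j <;> rfl
  | zero => rfl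
  | add y z _ _ hy hz =>
    rw [Pi.add_apply, hy, hz, add_zero]
  | neg y _ hy => rw [Pi.neg_apply, hy, neg_zero]

theorem HL_dem (hA : G2.AffDat D) (hD : D.DemOK) (y : T3) (hy : lv y = 1) (m : ℕ) :
    HL m (D.Dem (W3 y) m) := by
  intro x hx
  have h1 := closure_level hA (hD.d8 _ (T_W hA y hy) m x hx)
  have h2 : x none - (m : ℤ) * lv y = 0 := h1
  rw [hy] at h2
  linarith

theorem HL_ev (hA : G2.AffDat D) (hD : D.DemOK) (m : ℕ) (L : List Tm)
    (hL : ∀ t ∈ L, lv t.2.1 = 0 ∧ lv t.2.2 = 1) : HL m (ev D m L) := by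
  induction L with
  | nil => exact HL_zero _
  | cons t L ih =>
    rw [ev_cons]
    apply HL_add
    · have h := hL t (List.mem_cons_self ..)
      have h1 := HL_ex (W3 t.2.1) (l' := 0) h.1 (HL_dem hA hD t.2.2 h.2 m)
      rw [zero_add] at h1
      exact HL_smul _ h1
    · exact ih fun v hv => hL v (List.mem_cons_of_mem _ hv)

theorem d_base (hA : G2.AffDat D) (hD : D.DemOK) (m : ℕ) :
    D.Dem (W3 (1, 0, 0)) m = ex ((m : ℤ) • W3 (1, 0, 0)) := by
  apply hD.d3 _ (T_W hA _ rfl)
  intro j
  obtain ⟨k, rfl⟩ := lt_surj j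
  rw [co_W hA]
  cases k
  · exact Int.one_nonneg
  · exact le_refl _
  · exact le_refl _

theorem ev_one (m : ℕ) (x y : T3) : ev D m [(1, x, y)] = ex (W3 x) * D.Dem (W3 y) m := by
  rw [ev_cons, ev_nil, add_zero]
  unfold evT
  rw [one_smul]

theorem wt_eq (m : ℤ) (p : T3) (l : ℤ) (mu : Fin 2 → ℤ) (h1 : lv p + m = l) (h2 : p.2.1 = mu 0)
    (h3 : p.2.2 = mu 1) : W3 p + m • W3 (1, 0, 0) = aw l mu := by
  funext o
  match o with
  | none =>
    show lv p + m * 1 = l
    rw [mul_one]
    exact h1
  | some 0 =>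
    show p.2.1 + m * 0 = mu 0
    rw [mul_zero, add_zero]
    exact h2
  | some 1 =>
    show p.2.2 + m * 0 = mu 1
    rw [mul_zero, add_zero]
    exact h3

theorem ev_two (m : ℕ) (x y y' : T3) : ev D m [(1, x, y), (-1, x, y')] =
    ex (W3 x) * (D.Dem (W3 y) m - D.Dem (W3 y') m) := by
  rw [ev_cons, ev_cons, ev_nil, add_zero]
  unfold evT
  simp only []
  rw [one_smul, neg_smul, one_smul]
  ring

theorem W3_0 (p : T3) (mu : Fin 2 → ℤ) (h1 : lv p = 0) (h2 : p.2.1 = mu 0) (h3 : p.2.2 = mu 1) :
    W3 p = aw 0 mu := by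
  funext o
  match o with
  | none => exact h1
  | some 0 => exact h2
  | some 1 => exact h3

theorem main : RDat.N_desc → RDat.N_demw → RDat.N_op → RDat.N_adj → GD.T_G2 → GD.J_inv0 →
    GD.J_F → GD.J_G2 := by
  intro _ hdemw hop hadj hG2 hinv0 hJF D hA hD
  have hOK : G2.OKs := GD.OK.toOKs hG2
  obtain ⟨jF1, -, jF3, jF4, jF5, -, -⟩ := hJF 2 G2 hOK D hA hD
  have hmulL : ∀ (w : List (Option (Fin 2))) (f g : GR (Option (Fin 2))), SLC.Inv0 D f →
      D.demL w (f * g) = f * D.demL w g := by
    intro w f g hf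
    exact (hadj _ _ D (fun _ => 0) (fun _ _ => neg_zero.symm)).2.2.1 w f g (fun j _ => hf.1 j)
  refine ⟨?_, ?_, ?_⟩
  · rw [wG_eq, xi0]
    exact desc_W hA _ _ (by decide +kernel)
  · intro x
    rw [wG_eq, tr_W, sR_W hA, sRw_id]
    exact (W3_self x).symm
  · intro U hU
    have hL0 : lvl L0 := by
      intro t ht
      unfold L0 at ht
      rw [List.mem_singleton] at ht
      rw [ht]
      rfl
    have hL7 : ∀ t ∈ L7, lv t.2.1 = 0 ∧ lv t.2.2 = 1 := by decide +kernel
    have hLr : ∀ t ∈ Lr, lv t.2.2 = 1 := by decide +kernel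
    -- the start
    have hs : ∀ m : ℕ, ex (aw (m : ℤ) (-om 0)) = ev D m L0 := by
      intro m
      unfold L0
      rw [ev_one, d_base hA hD, ex_mul]
      congr 1
      symm
      apply wt_eq
      · show (1 + -1 + 2 * 0 : ℤ) + m = m
        ring
      · rfl
      · rfl
    have h7 : ∀ m : ℕ, D.demL (some 0 :: GD.wG2) (ex (aw (m : ℤ) (-om 0))) = ev D m L7 := by
      intro m
      rw [hs, wG_eq, (ev_run hA hD m wG L0 hL0).1]
      exact ev_eq m _ _ c1
    have hU7 : ∀ m : ℕ, U m = ex (aw (-(m : ℤ)) 0) * ev D m L7 := by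
      intro m
      rw [hU, h7]
    have hinv : ∀ m, SLC.Inv0 D (U m) := by
      intro m
      refine hinv0 2 G2 hOK D hA (U m) ?_ ?_
      · intro j
        obtain ⟨-, o2, -, -, -, -, -, o8, o9, -⟩ := hop (Option (Fin 2)) (Option (Fin 2)) D (some j)
        rw [hU7]
        have h1 : D.IsInv (some j) (ex (aw (-(m : ℤ)) (0 : Fin 2 → ℤ))) := by
          apply o9
          rw [hA.co]
          rfl
        have h2 : D.IsInv (some j) (ev D m L7) := by
          have hl : lvl L7 := fun t ht => (hL7 t ht).2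
          match j with
          | 0 =>
            have h3 := (ev_st hA hD m .a L7 hl).1
            rw [ev_eq m _ _ c2] at h3
            rw [← h3]
            exact o2 _
          | 1 =>
            have h3 := (ev_st hA hD m .b L7 hl).1
            rw [ev_eq m _ _ c3] at h3
            rw [← h3]
            exact o2 _
        exact (o8 _ _ h1 h2).2.2
      · intro x hx
        rw [hU7] at hx
        have h1 := HL_ex (aw (-(m : ℤ)) (0 : Fin 2 → ℤ)) (l' := -(m : ℤ)) rfl (HL_ev hA hD m L7 hL7) x hx
        rw [h1]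
        ring
    refine ⟨hinv, ?_, ?_⟩
    · intro m
      set P : GR (Option (Fin 2)) := ex (aw (m : ℤ) 0) with hP
      have hPU : P * U m = ev D m L7 := by
        rw [hU7, hP]
        have e : (aw (-(m : ℤ)) 0 : Option (Fin 2) → ℤ) = -(aw (m : ℤ) 0) := by
          funext o
          cases o
          · rfl
          · show (0 : ℤ) = -0
            rw [neg_zero]
        rw [e, ← mul_assoc, ex_mul, add_neg_cancel, ex_zero, one_mul]
      have hPw : ∀ p : T3, ex (W3 p) * P = ex (W3 p + (m : ℤ) • W3 (1, 0, 0)) := by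
        intro p
        rw [hP, ex_mul]
        congr 2
        funext o
        match o with
        | none =>
          show (m : ℤ) = (m : ℤ) * 1
          ring
        | some 0 =>
          show (0 : ℤ) = (m : ℤ) * 0
          ring
        | some 1 =>
          show (0 : ℤ) = (m : ℤ) * 0
          ring
      have hst : ev D m L0 = ex (W3 (1, -1, 0)) * P := by
        unfold L0
        rw [ev_one, d_base hA hD, hPw, ex_mul]
      have hmain : U m * (P * U m) = D.demL (wG.map lt) (ev D m Lt1) + D.demL (wG.map lt) (ev D m Lr) := by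
        have e1 : P * U m = D.demL (wG.map lt) (ev D m L0) := by
          rw [hPU, (ev_run hA hD m wG L0 hL0).1]
          exact (ev_eq m _ _ c1).symm
        calc U m * (P * U m) = U m * D.demL (wG.map lt) (ev D m L0) := by rw [← e1]
          _ = D.demL (wG.map lt) (U m * ev D m L0) := (hmulL _ _ _ (hinv m)).symm
          _ = D.demL (wG.map lt) (ex (W3 (1, -1, 0)) * ev D m L7) := by
            rw [hst, ← hPU]
            congr 1
            ring
          _ = D.demL (wG.map lt) (ev D m (Lt1 ++ Lr)) := by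
            rw [← ev_sh, ev_eq m _ _ c4]
          _ = _ := by rw [ev_append, map_add]
      -- first part
      have hfst : D.demL (wG.map lt) (ev D m Lt1) = P * (G2.F D 0 m * G2.T D 0 (m + 1)) := by
        have e1 : ev D m Lt1 = G2.F D 0 m * ev D (m + 1) [(1, (1, -2, 0), (1, 0, 0))] := by
          unfold Lt1
          rw [ev_one, ev_one, d_base hA hD, ← xi0, ← jF3 0 m, ← hP, ex_mul]
          have e2 : ex (W3 (1, -2, 0) + ((m + 1 : ℕ) : ℤ) • W3 (1, 0, 0)) = ex (W3 (2, -2, 0)) * P := by
            rw [hPw]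
            congr 1
            push_cast
            rw [add_smul, one_smul]
            have e0 : ad (1, -2, 0) (1, 0, 0) = (2, -2, 0) := by decide +kernel
            have e3 : W3 (2, -2, 0) = W3 (1, -2, 0) + W3 (1, 0, 0) := by
              rw [← W3_ad, e0]
            rw [e3]
            abel
          rw [e2]
          ring
        have hl : lvl [(1, (1, -2, 0), (1, 0, 0))] := by
          intro t ht
          rw [List.mem_singleton] at ht
          rw [ht]
          rfl
        rw [e1, hmulL _ _ _ (jF1 0 m), (ev_run hA hD (m + 1) wG _ hl).1, ev_eq (m + 1) _ _ c6,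
          ev_two]
        have e4 : D.s (some 0) (G2.xi 0) = W3 (4, 3, -3) := by
          rw [xi0]
          have h := s_W hA .a (4, -3, 0)
          have e0 : sj .a (4, -3, 0) = (4, 3, -3) := by decide +kernel
          rw [e0] at h
          exact h
        have e5 := jF4 0 (m + 1)
        rw [e4, xi0] at e5
        have e6 : ex (W3 (-2, 1, 0)) * ex (aw ((m + 1 : ℕ) : ℤ) (-om 0)) = P := by
          rw [hP, ex_mul]
          congr 1
          funext o
          match o with
          | none =>
            show lv (-2, 1, 0) + ((m + 1 : ℕ) : ℤ) = m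
            have : lv (-2, 1, 0) = -1 := by decide +kernel
            rw [this]
            push_cast
            ring
          | some 0 => rfl
          | some 1 => rfl
        rw [e5, ← mul_assoc (ex (W3 (-2, 1, 0))), e6]
        ring
      -- second part
      have hsnd : D.demL (wG.map lt) (ev D m Lr) = P * (G2.F D 1 m ^ 2 * G2.F D 1 (m + 1)) := by
        have hl : lvl [(1, (1, 0, 0), (5, 0, -2))] := by
          intro t ht
          rw [List.mem_singleton] at ht
          rw [ht]
          rfl
        rw [(ev_run hA hD m wG Lr hLr).1, ev_eq m _ _ c5, ev_sh, ← (ev_run hA hD m wH _ hl).1, ev_one]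
        have e1 : (aw 1 fun j => -(((![0, 2] : Fin 2 → ℕ) j : ℤ) * G2.t j)) = W3 (5, 0, -2) := by
          funext o
          match o with
          | none => rfl
          | some 0 => rfl
          | some 1 => rfl
        have e2 := jF5 ![0, 2] m
        rw [e1, Fin.prod_univ_two, ← hP] at e2
        have e3 : (![0, 2] : Fin 2 → ℕ) 0 = 0 := rfl
        have e4 : (![0, 2] : Fin 2 → ℕ) 1 = 2 := rfl
        rw [e3, e4, pow_zero, one_mul] at e2
        have e5 : D.Dem (W3 (1, 0, 0)) (m + 1) = ex (W3 (1, 0, 0)) * P := by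
          rw [d_base hA hD, hPw]
          congr 1
          push_cast
          rw [add_smul, one_smul]
          abel
        have e6 : ex (W3 (1, 0, 0)) * D.Dem (W3 (5, 0, -2)) m =
            G2.F D 1 m * (G2.F D 1 m * D.Dem (W3 (1, 0, 0)) (m + 1)) := by
          rw [e2, e5]
          ring
        have e7 := hdemw _ _ D hD (wH.map lt) (W3 (3, 0, -1)) (m + 1) (T_W hA _ (by decide +kernel))
          (desc0_of_desc D _ _ (desc_W hA _ _ (by decide +kernel)))
        have e8 : sRw wH (3, 0, -1) = (1, 0, 0) := by decide +kernel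
        rw [sR_W hA, e8, ← xi1, ← jF3 1 (m + 1)] at e7
        rw [e6, hmulL _ _ _ (jF1 1 m), hmulL _ _ _ (jF1 1 m), ← e7]
        have e9 : ex (W3 (-1, 0, 0)) * ex (aw ((m + 1 : ℕ) : ℤ) 0) = P := by
          rw [hP, ex_mul]
          congr 1
          funext o
          match o with
          | none =>
            show lv (-1, 0, 0) + ((m + 1 : ℕ) : ℤ) = m
            have : lv (-1, 0, 0) = -1 := by decide +kernel
            rw [this]
            push_cast
            ring
          | some 0 => rfl
          | some 1 => rfl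
        rw [← e9]
        ring
      rw [hfst, hsnd] at hmain
      have e1 : ∀ X : GR (Option (Fin 2)), ex (-(aw (m : ℤ) 0)) * (P * X) = X := fun X =>
        ex_neg_cancel _ _
      rw [← e1 (U m ^ 2), ← e1 (G2.F D 0 m * G2.T D 0 (m + 1) + G2.F D 1 m ^ 2 * G2.F D 1 (m + 1))]
      congr 1
      linear_combination hmain
    · have e0 : ex (aw (-((0 : ℕ) : ℤ)) (0 : Fin 2 → ℤ)) = (1 : GR (Option (Fin 2))) := by
        rw [← ex_zero]
        congr 1
        funext o
        cases o <;> rfl
      have e1 : ∀ t ∈ L7, evT D 0 t = ex (W3 t.2.1) := by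
        intro t ht
        have h1 : ∀ t ∈ L7, t.1 = 1 := by decide +kernel
        unfold evT
        rw [h1 t ht, hD.d5 _ (T_W hA _ (hL7 t ht).2), one_smul, mul_one]
      have e2 : ev D 0 L7 = (L7.map fun t => ex (W3 t.2.1)).sum := by
        unfold ev
        rw [List.map_congr_left e1]
      rw [hU7, e0, one_mul, e2]
      unfold L7
      simp only [List.map_cons, List.map_nil, List.sum_cons, List.sum_nil]
      rw [W3_0 (-1, -1, 1) ![-1, 1] rfl rfl rfl, W3_0 (-1, 1, 0) ![1, 0] rfl rfl rfl,
        W3_0 (0, -2, 1) ![-2, 1] rfl rfl rfl, W3_0 (0, 0, 0) ![0, 0] rfl rfl rfl,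
        W3_0 (0, 2, -1) ![2, -1] rfl rfl rfl, W3_0 (1, -1, 0) ![-1, 0] rfl rfl rfl,
        W3_0 (1, 1, -1) ![1, -1] rfl rfl rfl]
      ring

end H391.KR.P_jG2
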