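import Pool.Agent.H391.KR.JV

namespace H391.KR.P_jG2b

open Finset H391.KR

theorem pair_ex {ι : Type} (p : (ι → ℤ) → ℤ) (x : ι → ℤ) : pair p (ex x) = p x := by
  have h : pair p (ex x) = (ex x : GR ι).coeff.sum (fun x r => r * p x) := rfl
  rw [h]
  unfold ex
  rw [AddMonoidAlgebra.coeff_single, Finsupp.sum_single_index (by simp)]
  simp

theorem rtw0 : G2.rtw 0 = ![2, -1] := by
  funext j; fin_cases j <;> rfl

theorem rtw1 : G2.rtw 1 = ![-3, 2] := by
  funext j; fin_cases j <;> rfl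

theorem main : RDat.N_red → RDat.N_link → GD.T_G2 → GD.J_fin → GD.J_AB → GD.J_G2b := by
  intro _ hlink hG2 hfin hAB f hf
  have hOK : G2.OKs := GD.OK.toOKs hG2
  obtain ⟨D, hco, hal, hT, hHD, -, -⟩ := hfin 2 G2 hOK
  obtain ⟨hAB1, -, -, -⟩ := hAB 2 G2 hOK
  obtain ⟨hl1, -, -, -⟩ := hlink (Fin 2) (Fin 2) D (fun _ => 1) hHD
  have hdom : ∀ la : Fin 2 → ℤ, D.Dom la ↔ ∀ i, 0 ≤ la i := by
    intro la
    constructor
    · intro h i
      have := h i
      rwa [hco] at this
    · intro h i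
      rw [hco]; exact h i
  -- key formula
  have key : ∀ la : Fin 2 → ℤ, (∀ i, 0 ≤ la i) → G2.mult f la = D.pf la (om 0) := by
    intro la hla
    obtain ⟨hanti, hone, hzero⟩ := hl1 la ((hdom la).2 hla)
    have hp : ∀ mu i, D.pf la (mu - (mu i + 1) • G2.rtw i) = - D.pf la mu := by
      intro mu i
      have := hanti mu i
      rwa [hco, hal] at this
    have h1 := hAB1 f (D.pf la) hp
    have h2 : (GD.chr f * G2.Delta).coeff.sum (fun mu c => if ∀ i, 0 ≤ mu i then c * D.pf la mu else 0)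
        = G2.mult f la := by
      unfold GD.mult
      rw [Finsupp.sum, Finset.sum_eq_single la]
      · rw [if_pos hla, hone, mul_one]
      · intro mu _ hmu
        split_ifs with h
        · rw [hzero mu ((hdom mu).2 h) hmu, mul_zero]
        · rfl
      · intro h
        rw [if_pos hla, hone, mul_one]
        exact Finsupp.notMem_support_iff.1 h
    have h3 : G2.mult f la = pair (D.pf la) (GD.chr f) := by
      rw [← h2]; exact h1
    rw [h3, hf]
    simp only [map_add, pair_ex]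
    set p := D.pf la with hpdef
    have z1 : p ![-1, 1] = 0 := by
      have := hp ![-1, 1] 0
      have e : (![-1, 1] : Fin 2 → ℤ) - ((![-1, 1] : Fin 2 → ℤ) 0 + 1) • G2.rtw 0 = ![-1, 1] := by
        rw [rtw0]; funext j; fin_cases j <;> simp
      rw [e] at this; omega
    have z2 : p ![2, -1] = 0 := by
      have := hp ![2, -1] 1
      have e : (![2, -1] : Fin 2 → ℤ) - ((![2, -1] : Fin 2 → ℤ) 1 + 1) • G2.rtw 1 = ![2, -1] := by
        rw [rtw1]; funext j; fin_cases j <;> simp
      rw [e] at this; omega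
    have z3 : p ![1, -1] = 0 := by
      have := hp ![1, -1] 1
      have e : (![1, -1] : Fin 2 → ℤ) - ((![1, -1] : Fin 2 → ℤ) 1 + 1) • G2.rtw 1 = ![1, -1] := by
        rw [rtw1]; funext j; fin_cases j <;> simp
      rw [e] at this; omega
    have z4 : p ![-1, 0] = 0 := by
      have := hp ![-1, 0] 0
      have e : (![-1, 0] : Fin 2 → ℤ) - ((![-1, 0] : Fin 2 → ℤ) 0 + 1) • G2.rtw 0 = ![-1, 0] := by
        rw [rtw0]; funext j; fin_cases j <;> simp
      rw [e] at this; omega
    have z5 : p ![0, 0] = - p ![-2, 1] := by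
      have := hp ![-2, 1] 0
      have e : (![-2, 1] : Fin 2 → ℤ) - ((![-2, 1] : Fin 2 → ℤ) 0 + 1) • G2.rtw 0 = ![0, 0] := by
        rw [rtw0]; funext j; fin_cases j <;> simp
      rw [e] at this; exact this
    have z6 : (om 0 : Fin 2 → ℤ) = ![1, 0] := by
      funext j; fin_cases j <;> rfl
    rw [z1, z2, z3, z4, z5, z6]
    ring
  have hom : ∀ i, 0 ≤ (om 0 : Fin 2 → ℤ) i := by
    intro i; fin_cases i <;> simp [om]
  refine ⟨?_, ?_⟩
  · rw [key _ hom]
    exact (hl1 _ ((hdom _).2 hom)).2.1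
  · intro mu hmu hne
    rw [key mu hmu]
    exact (hl1 mu ((hdom mu).2 hmu)).2.2 _ ((hdom _).2 hom) (Ne.symm hne)

end H391.KR.P_jG2b
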