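import Pool.Agent.H391.KR.JV

/-!
# Type G_2, assembly (H391/KR, task jG2fin), by helper23
-/

noncomputable section

namespace H391.KR.P_jG2fin

open H391.KR Finset

theorem push_ex {ι κ : Type} (g : (ι → ℤ) →+ (κ → ℤ)) (x : ι → ℤ) :
    push g (ex x) = ex (g x) := by
  unfold push ex
  simp

/-- the character in level zero -/
abbrev Ph (f : G2.RepR) : GR (Option (Fin 2)) := push aw0 (GD.chr f)

theorem Ph_mul (f g : G2.RepR) : Ph (f * g) = Ph f * Ph g := map_mul (push aw0) (GD.chr f) (GD.chr g)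

theorem Ph_add (f g : G2.RepR) : Ph (f + g) = Ph f + Ph g := map_add (push aw0) (GD.chr f) (GD.chr g)

theorem Ph_sub (f g : G2.RepR) : Ph (f - g) = Ph f - Ph g := map_sub (push aw0) (GD.chr f) (GD.chr g)

theorem Ph_one : Ph 1 = 1 := map_one (push aw0)

theorem Ph_zero : Ph 0 = 0 := map_zero (push aw0)

theorem chr_mul (f g : G2.RepR) : GD.chr (f * g) = GD.chr f * GD.chr g := rfl

theorem chr_inj {f g : G2.RepR} (h : GD.chr f = GD.chr g) : f = g := Subtype.ext h

theorem cancel {a b c : G2.RepR} (ha : GD.chr a ≠ 0) (h : a * b = a * c) : b = c := by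
  have h1 := congrArg GD.chr h
  rw [chr_mul, chr_mul] at h1
  exact chr_inj (mul_left_cancel₀ ha h1)

theorem t0 : (G2.t 0).toNat = 3 := rfl

theorem t1 : (G2.t 1).toNat = 1 := rfl

theorem qnb0 (Q : Fin 2 → ℕ → G2.RepR) (m : ℕ) :
    G2.qnb Q 0 m = Q 1 (m / 3) * Q 1 ((m + 1) / 3) * Q 1 ((m + 2) / 3) := by
  unfold GD.qnb
  rw [Fin.prod_univ_two]
  have c00 : (-(G2.C 0 0)).toNat = 0 := rfl
  have c01 : (-(G2.C 0 1)).toNat = 3 := rfl
  have c10 : (-(G2.C 1 0)).toNat = 1 := rfl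
  rw [c00, c01, c10]
  simp only [Finset.range_zero, Finset.prod_empty, one_mul, Finset.prod_range_succ, add_zero]

theorem mult_sub (f g : G2.RepR) (mu : Fin 2 → ℤ) :
    G2.mult (f - g) mu = G2.mult f mu - G2.mult g mu := by
  unfold GD.mult
  have h : GD.chr (f - g) = GD.chr f - GD.chr g := rfl
  rw [h, sub_mul]
  rfl

theorem main : RDat.N_dem → RDat.N_link → GD.J_dat → GD.J_hd → GD.T_G2 → GD.J_sig →
    GD.J_mem → GD.J_F → GD.J_K → GD.J_pos → GD.J_pik → GD.J_G2 → GD.J_G2b → GD.J_kr →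
    GD.J_lvV → GD.J_lvq → GD.J_qk → GD.J_mz → GD.J_G2fin := by
  intro Ndem Nlink Jdat Jhd TG2 Jsig Jmem JF JK Jpos Jpik JG2 JG2b Jkr JlvV Jlvq Jqk Jmz
    Q hQ k hk V _ R i
  have hS : G2.OKs := GD.OK.toOKs TG2
  obtain ⟨D, hD⟩ := Jdat 2 G2 hS
  have hHD := Jhd 2 G2 hS D hD
  have hDem : D.DemOK := Ndem (Option (Fin 2)) (Option (Fin 2)) D G2.rho hHD
  obtain ⟨K1, K2, K3⟩ := Jkr 2 G2 hS D hD hDem Q hQ
  obtain ⟨F1, F2, F3, F4, F5, F6, F7⟩ := JF 2 G2 hS D hD hDem
  obtain ⟨M1, M2, M3⟩ := Jmem 2 G2 hS D hD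
  have inj : ∀ f g : G2.RepR, Ph f = Ph g → f = g := fun f g h => chr_inj (M3 _ _ h)
  have lift : ∀ g, SLC.Inv0 D g → ∃ f : G2.RepR, Ph f = g := fun g hg => M2 g hg
  -- the operator
  obtain ⟨G1, G2', G3⟩ := JG2 D hD hDem
  have hxi : G2.xi 0 = G2.tr 0 (aw 1 0) := by
    funext o
    cases o with
    | none => rfl
    | some j => simp [GD.xi, GD.tr, aw, fp]
  have hdom : D.Dom (D.sR (some 0 :: GD.wG2) (G2.xi 0)) := by
    rw [hxi, G2']
    intro j
    rw [hD.co]
    cases j with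
    | none =>
      have : G2.co none (aw 1 0) = 1 := by
        simp [GD.co, aw, fp, dot]
      rw [this]
      norm_num
    | some j =>
      have : G2.co (some j) (aw 1 0) = 0 := rfl
      rw [this]
  obtain ⟨X, hX⟩ := (Jsig 2 G2 hS D hD 0).1 GD.wG2 G1 hdom
  have hsg : ∀ x, X.sg x = x := by
    intro x
    rw [X.eq, hX]
    exact G2' x
  have hU : ∀ m : ℕ, X.U m =
      ex (aw (-(m : ℤ)) 0) * D.demL (some 0 :: GD.wG2) (ex (aw (m : ℤ) (-om 0))) := by
    intro m
    have h1 : X.X (ex (aw (m : ℤ) (-om 0))) =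
        D.demL (some 0 :: X.w) (push (X.sg : (Option (Fin 2) → ℤ) →+ (Option (Fin 2) → ℤ))
          (ex (aw (m : ℤ) (-om 0)))) := rfl
    have h2 : (X.sg : (Option (Fin 2) → ℤ) →+ (Option (Fin 2) → ℤ)) (aw (m : ℤ) (-om 0)) =
        aw (m : ℤ) (-om 0) := hsg _
    unfold GD.XD.U
    rw [h1, push_ex, h2, hX]
  obtain ⟨U1, U2, U3⟩ := G3 X.U hU
  choose u hu using fun m => lift (X.U m) (U1 m)
  choose Te hTe using fun m => lift (G2.T D 0 m) (F2 0 m)
  have hF0 : ∀ m, Ph (Q 0 (3 * m)) = G2.F D 0 m := fun m => K1 0 m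
  have hF1 : ∀ m, Ph (Q 1 m) = G2.F D 1 m := fun m => by
    have h := K1 1 m
    rw [t1, one_mul] at h
    exact h
  have hnb : ∀ m, Ph (G2.qnb Q 0 (3 * m)) = G2.nb D 0 m := fun m => K2 0 m
  -- the first element
  have hbase : Q 0 1 = u 0 := by
    have h1 : GD.chr (u 0) = ex ![1, 0] + ex ![-1, 1] + ex ![2, -1] + ex ![0, 0] +
        ex ![-2, 1] + ex ![1, -1] + ex ![-1, 0] := by
      apply M3
      refine ((hu 0).trans U3).trans ?_
      simp only [map_add, push_ex]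
      rfl
    obtain ⟨b1, b2⟩ := JG2b (u 0) h1
    have h3 : Q 0 1 - u 0 = 0 := by
      apply Jmz 2 G2 hS
      intro mu hmu
      rw [mult_sub]
      by_cases hmo : mu = om 0
      · rw [hmo, b1]
        have h4 := hQ.top 0 1
        rw [Nat.cast_one, one_smul] at h4
        rw [h4]
        norm_num
      · rw [b2 mu hmu hmo, hQ.fund 0 (by decide) (by decide) mu hmu hmo, sub_zero]
    exact sub_eq_zero.1 h3
  have hA : ∀ m, Q 0 (3 * m + 1) = u m → Q 0 (3 * m + 2) = Te (m + 1) := by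
    intro m hm
    have h1 := hQ.qsys 0 (3 * m)
    rw [qnb0, hm] at h1
    have e1 : (3 * m + 1) / 3 = m := by omega
    have e2 : (3 * m + 1 + 1) / 3 = m := by omega
    have e3 : (3 * m + 1 + 2) / 3 = m + 1 := by omega
    rw [e1, e2, e3] at h1
    have h2 : u m * u m = Q 0 (3 * m) * Te (m + 1) + Q 1 m * Q 1 m * Q 1 (m + 1) := by
      apply inj
      rw [Ph_mul, Ph_add, Ph_mul, Ph_mul, Ph_mul, hu, hTe, hF0, hF1, hF1]
      have h3 := U2 m
      rw [pow_two, pow_two] at h3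
      exact h3
    rw [h2] at h1
    have h4 : Q 0 (3 * m) * Te (m + 1) = Q 0 (3 * m + 2) * Q 0 (3 * m) := add_right_cancel h1
    rw [mul_comm (Q 0 (3 * m + 2))] at h4
    exact (cancel (K3 0 (3 * m)) h4).symm
  have hB : ∀ m, Q 0 (3 * m + 2) = Te (m + 1) → Q 0 (3 * (m + 1) + 1) = u (m + 1) := by
    intro m hm
    have h1 := hQ.qsys 0 (3 * m + 2)
    have e1 : 3 * m + 2 + 1 = 3 * (m + 1) := by ring
    have e2 : 3 * m + 2 + 2 = 3 * (m + 1) + 1 := by ring
    rw [e1, e2] at h1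
    have h2 : Q 0 (3 * (m + 1)) * Q 0 (3 * (m + 1)) - G2.qnb Q 0 (3 * (m + 1)) =
        Te (m + 1) * u (m + 1) := by
      apply inj
      rw [Ph_sub, Ph_mul, Ph_mul, hu, hTe, hF0, hnb]
      have h3 := (JK 2 G2 hS D hD hDem 0 X).1 (m + 1)
      rw [pow_two] at h3
      exact h3
    rw [h1, add_sub_cancel_right, ← hm, mul_comm] at h2
    exact cancel (K3 0 (3 * m + 2)) h2
  have hQ1 : ∀ m, Q 0 (3 * m + 1) = u m := by
    intro m
    induction m with
    | zero => exact hbase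
    | succ m ih => exact hB m (hA m ih)
  have hQ2 : ∀ m, Q 0 (3 * m + 2) = Te (m + 1) := fun m => hA m (hQ1 m)
  -- level k
  obtain ⟨P1, P2, P3⟩ := Jpik 2 G2 hS D hD k
  obtain ⟨N1, N2, N3, N4⟩ := Nlink (Option (Fin 2)) (Option (Fin 2)) D G2.rho hHD
  have hco : ∀ (f : G2.RepR) (la : G2.alc k), R.co (R.pi f) la =
      pair (D.pf (aw k la)) (ex (aw k 0) * Ph f) := by
    intro f la
    rw [R.pi_eq]
    exact P3 f la la.2
  have heqV : ∀ f g : G2.RepR, (∀ p, D.Anti p → pair p (ex (aw k 0) * Ph f) =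
      pair p (ex (aw k 0) * Ph g)) → R.pi f = R.pi g := by
    intro f g h
    apply R.co.injective
    funext la
    rw [hco, hco]
    exact h _ (N1 _ ((P2 la).1 la.2)).1
  -- long node
  obtain ⟨L1, L2, L3, L4, L5⟩ := JlvV 2 G2 hS D hD hDem 0 (fun m => Q 0 (3 * m)) Te hF0 hTe k hk V R
  choose Te1 hTe1 using fun m => lift (G2.T D 1 m) (F2 1 m)
  obtain ⟨L1', -, L3', L4', -⟩ := JlvV 2 G2 hS D hD hDem 1 (fun m => Q 1 m) Te1 hF1 hTe1 k hk V R
  obtain ⟨q1, -, q3, -, q5⟩ := Jlvq 2 G2 hS D hD hDem 0 (fun m => Q 0 (3 * m)) Te hF0 hTe k hk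
  obtain ⟨q1', -, -, -, -⟩ := Jlvq 2 G2 hS D hD hDem 1 (fun m => Q 1 m) Te1 hF1 hTe1 k hk
  obtain ⟨⟨e, he⟩, hz, -⟩ := Jqk 2 G2 hS k hk
  have hinv1 : SLC.Inv0 D (1 : GR (Option (Fin 2))) := by
    have h := M1 (1 : G2.Rep)
    have h1 : push aw0 ((1 : G2.Rep) : GR (Fin 2)) = (1 : GR (Option (Fin 2))) := Ph_one
    rw [h1] at h
    exact h
  have hFk : R.pi (Q 0 (3 * k)) = 1 := by
    rw [← map_one R.pi]
    apply heqV
    intro p hp
    have h1 := (Jpos 2 G2 hS D hD hDem 0).2.2.1 X k p hp 1 hinv1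
    have h2 : (fun x => p (X.sg x)) = p := by
      funext x
      rw [hsg]
    rw [h2, one_mul, one_mul] at h1
    rw [hF0, Ph_one, mul_one]
    exact h1
  have huV : ∀ m ≤ k, R.pi (u m) = R.pi (Te (k - m)) := by
    intro m hm
    have h1 := L5 X m (u m) hm (hu m)
    rw [h1, hFk, one_mul]
  have huq : ∀ m ≤ k, G2.qdim k (u m) = G2.qdim k (Te (k - m)) :=
    fun m hm => q5 X m (u m) hm (hu m)
  have hTe0 : Te 0 = 0 := by
    apply inj
    rw [hTe, Ph_zero]
    unfold GD.T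
    have hT1 : G2.xi 0 ∈ D.T := by
      rw [hD.T]
      show (1 : ℤ) ≤ 1
      exact le_rfl
    have hT2 : D.s (some 0) (G2.xi 0) ∈ D.T := by
      unfold RDat.s RDat.co RDat.al
      exact D.T_refl _ hT1 _
    rw [hDem.d5 _ hT1, hDem.d5 _ hT2, sub_self, mul_zero]
  -- nonvanishing
  have hne : ∀ f : G2.RepR, 0 < G2.qdim k f → R.pi f ≠ 0 := by
    intro f hf h0
    have h1 : G2.qdim k f = 0 := by
      apply hz
      intro la hla
      have h2 := R.pi_eq f ⟨la, hla⟩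
      rw [h0, map_zero] at h2
      exact h2.symm
    linarith
  have e3 : ∀ m, m ≤ k → 0 < e (Q 0 (3 * m)) := fun m hm => by
    rw [he]
    exact q1 m hm
  have eP : ∀ m, m ≤ k → 0 < e (Q 1 m) := fun m hm => by
    rw [he]
    exact q1' m hm
  have eT : ∀ m, m ≤ k → 0 ≤ e (Te m) := fun m hm => by
    rw [he]
    exact q3 m hm
  have s1 : ∀ m, m < k → 0 < e (u m) := by
    intro m hm
    have h1 := congrArg e (hQ.qsys 0 (3 * m))
    rw [qnb0] at h1
    have e1 : (3 * m + 1) / 3 = m := by omega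
    have e2 : (3 * m + 1 + 1) / 3 = m := by omega
    have e3' : (3 * m + 1 + 2) / 3 = m + 1 := by omega
    rw [e1, e2, e3', hQ1, hQ2] at h1
    simp only [map_mul, map_add] at h1
    have h2 := eT (m + 1) (by omega)
    have h3 := e3 m (by omega)
    have h4 := eP m (by omega)
    have h5 := eP (m + 1) (by omega)
    have h6 : 0 ≤ e (u m) := by
      rw [he, huq m (by omega), ← he]
      exact eT _ (by omega)
    have h7 : 0 < e (u m) * e (u m) := by
      rw [h1]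
      have := mul_nonneg h2 h3.le
      have := mul_pos (mul_pos h4 h4) h5
      linarith
    rcases h6.eq_or_lt with h8 | h8
    · rw [← h8] at h7
      norm_num at h7
    · exact h8
  have s2 : ∀ m, m < k → 0 < e (Te (m + 1)) := by
    intro m hm
    have h1 := congrArg e (hQ.qsys 0 (3 * m + 1))
    rw [qnb0] at h1
    have e1 : 3 * m + 1 + 1 = 3 * m + 2 := by ring
    have e2 : 3 * m + 1 + 2 = 3 * (m + 1) := by ring
    have e4 : (3 * m + 2) / 3 = m := by omega
    have e5 : 3 * (m + 1) / 3 = m + 1 := by omega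
    have e6 : (3 * m + 2 + 2) / 3 = m + 1 := by omega
    rw [e1, e2, e4, e5, e6, hQ1, hQ2] at h1
    simp only [map_mul, map_add] at h1
    have h2 := s1 m hm
    have h3 := e3 (m + 1) (by omega)
    have h4 := eP m (by omega)
    have h5 := eP (m + 1) (by omega)
    have h6 := eT (m + 1) (by omega)
    have h7 : 0 < e (Te (m + 1)) * e (Te (m + 1)) := by
      rw [h1]
      have := mul_pos h3 h2
      have := mul_pos (mul_pos h4 h5) h5
      linarith
    rcases h6.eq_or_lt with h8 | h8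
    · rw [← h8] at h7
      norm_num at h7
    · exact h8
  have node0 : G2.Q1 R Q 0 := by
    unfold GD.Q1
    rw [t0]
    refine ⟨?_, ?_, L3, ?_⟩
    · intro m hm
      obtain ⟨j, hj⟩ : ∃ j, m = 3 * j ∨ m = 3 * j + 1 ∨ m = 3 * j + 2 := ⟨m / 3, by omega⟩
      rcases hj with hj | hj | hj
      · rw [hj]
        exact L1 j (by omega)
      · have hjk : j < k := by omega
        rw [hj, hQ1]
        refine ⟨fun la => ?_, hne _ ?_⟩
        · rw [huV j hjk.le]
          exact L2 _ (by omega) la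
        · rw [← he]
          exact s1 j hjk
      · have hjk : j < k := by omega
        rw [hj, hQ2]
        refine ⟨fun la => L2 _ (by omega) la, hne _ ?_⟩
        rw [← he]
        exact s2 j hjk
    · rw [hQ.zero, map_one]
      exact isUnit_one
    · rw [hQ1, huV k le_rfl, Nat.sub_self, hTe0, map_zero]
  have node1 : G2.Q1 R Q 1 := by
    unfold GD.Q1
    rw [t1, one_mul]
    refine ⟨L1', ?_, L3', L4'⟩
    rw [hQ.zero, map_one]
    exact isUnit_one
  fin_cases i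
  · exact node0
  · exact node1

end H391.KR.P_jG2fin
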