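import Pool.Agent.H391.KR.JC

/-!
# The exact relation, and the elements `U_m` at level `k` (task KR-jK)
-/

set_option autoImplicit false

noncomputable section

namespace H391.KR.P_jK

open Finset H391.KR

lemma ex_mul {ι : Type} (x y : ι → ℤ) : ex x * ex y = ex (x + y) := by
  unfold ex
  rw [AddMonoidAlgebra.single_mul_single, one_mul]

lemma aw_add {n : ℕ} (a b : ℤ) (x y : Fin n → ℤ) : aw a x + aw b y = aw (a + b) (x + y) := by
  funext o
  cases o with
  | none => rfl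
  | some j => rfl

lemma ex_neg_mul {n : ℕ} (m : ℤ) :
    (ex (aw (-m) 0) : GR (Option (Fin n))) * ex (aw m 0) = 1 := by
  rw [ex_mul, aw_add, neg_add_cancel, add_zero]
  have h : (aw 0 0 : Option (Fin n) → ℤ) = 0 := by
    funext o
    cases o with
    | none => rfl
    | some j => rfl
  rw [h]
  rfl

theorem main : RDat.N_op → RDat.N_adj → RDat.N_tw → GD.J_hd → GD.J_sd → GD.J_X → GD.J_adj →
    GD.J_F → GD.J_K := by
  intro _ hadj htw hhd hsd hX hA hF n S hS D hD hOK i X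
  obtain ⟨x0, x1, x2, -, x4⟩ := hX n S hS D hD hOK i X
  obtain ⟨f1, f2, f3, f4, -, f6, -⟩ := hF n S hS D hD hOK
  refine ⟨fun m => ?_, fun m k hmk p hp phi hphi => ?_⟩
  · -- the exact relation
    have h1 : ex (aw (m : ℤ) 0) * (S.F D i m ^ 2 - S.nb D i m) =
        S.T D i m * X.X (ex (aw (m : ℤ) (-om i))) := by
      have h2 : X.X (D.Dem (S.xi i) m) = S.F D i m * (ex (aw (m : ℤ) 0) * S.F D i m) := by
        rw [← f3 i m, mul_comm (ex (aw (m : ℤ) 0)) (S.F D i m), x1 _ _ (f1 i m), x2, ← f3 i m]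
        rw [mul_comm (S.F D i m) (ex (aw (m : ℤ) 0))]
      have h3 : X.X (D.Dem (D.s (some i) (S.xi i)) m) = ex (aw (m : ℤ) 0) * S.nb D i m := by
        rw [x4, f6]
      have h4 : X.X (D.Dem (S.xi i) m - D.Dem (D.s (some i) (S.xi i)) m) =
          S.T D i m * X.X (ex (aw (m : ℤ) (-om i))) := by
        rw [f4, mul_comm, x1 _ _ (f2 i m)]
      rw [map_sub, h2, h3] at h4
      rw [← h4]
      ring
    have h2 : S.F D i m ^ 2 - S.nb D i m = (ex (aw (-(m : ℤ)) 0) * ex (aw (m : ℤ) 0)) *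
        (S.F D i m ^ 2 - S.nb D i m) := by
      rw [ex_neg_mul, one_mul]
    rw [h2, mul_assoc, h1, GD.XD.U]
    ring
  · -- the pairing at level `k`
    obtain ⟨c, -, sd1, sd2, sd3⟩ := hsd n S hS D hD hOK i
    have a1 := hA n S hS D hD hOK i X (k - m)
    obtain ⟨-, n2, n3, -⟩ := hadj _ _ D p hp
    obtain ⟨-, -, -, -, t5, t6, -⟩ := htw _ _ D S.rho (hhd n S hS D hD) hOK X.sg X.ta X.tw
    obtain ⟨-, m2, m3, -⟩ := hadj _ _ D _ (t5 p hp)
    have hinv : ∀ j, D.IsInv j phi := hphi.1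
    have hk : (m : ℤ) + ((k - m : ℕ) : ℤ) = k := by omega
    have h6 : (ex (aw (k : ℤ) 0) : GR (Option (Fin n))) * ex (aw (-(m : ℤ)) 0) =
        ex (aw ((k - m : ℕ) : ℤ) 0) := by
      rw [ex_mul, aw_add, add_zero]
      congr 2
      omega
    have h7 : phi * (ex (aw (k : ℤ) 0) * X.U m) =
        D.demL (some i :: X.w) (push (X.sg : (Option (Fin n) → ℤ) →+ (Option (Fin n) → ℤ))
          (ex (aw (m : ℤ) (-om i)))) * (phi * ex (aw ((k - m : ℕ) : ℤ) 0)) := by
      rw [← h6]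
      show phi * (ex (aw (k : ℤ) 0) * (ex (aw (-(m : ℤ)) 0) *
        D.demL (some i :: X.w) (push (X.sg : (Option (Fin n) → ℤ) →+ (Option (Fin n) → ℤ))
          (ex (aw (m : ℤ) (-om i)))))) = _
      ring
    have h8 : push (X.sg : (Option (Fin n) → ℤ) →+ (Option (Fin n) → ℤ))
          (ex (aw (m : ℤ) (-om i))) *
          (phi * push (X.sg : (Option (Fin n) → ℤ) →+ (Option (Fin n) → ℤ))
            (D.Dem (aw 1 (S.t i • om i)) (k - m))) =
        push (X.sg : (Option (Fin n) → ℤ) →+ (Option (Fin n) → ℤ))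
          (ex (aw (m : ℤ) (-om i)) * (phi * D.Dem (aw 1 (S.t i • om i)) (k - m))) := by
      rw [map_mul, map_mul, x0 phi hphi]
    rw [h7, n2, n3 _ _ _ (fun j _ => hinv j), a1, h8, t6, sd3 (m : ℤ), sub_mul, map_sub, m2, m2,
      List.reverse_reverse, List.reverse_reverse, m3 _ _ _ (fun j _ => hinv j),
      m3 _ _ _ (fun j _ => hinv j), ← sd1, ← sd2, ← map_sub, ← mul_sub, ← mul_sub, f4]
    congr 1
    have h9 : (ex (aw (k : ℤ) 0) : GR (Option (Fin n))) =
        ex (aw (m : ℤ) (om i)) * ex (aw ((k - m : ℕ) : ℤ) (-om i)) := by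
      rw [ex_mul, aw_add, hk, add_neg_cancel]
    rw [h9]
    ring

end H391.KR.P_jK
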