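import Pool.Agent.H391.KR.JC

/-!
# `U_m = T_{m+1}` (H391/KR, task jV1), by helper787
-/

noncomputable section

namespace H391.KR.P_jV1

open H391.KR Finset

/-! ### Exponentials (from P/cQ.lean) -/

theorem ex_mul {ι : Type} (x y : ι → ℤ) : ex x * ex y = ex (x + y) := by
  unfold ex
  rw [AddMonoidAlgebra.single_mul_single, mul_one]

theorem push_ex {ι κ : Type} (g : (ι → ℤ) →+ (κ → ℤ)) (x : ι → ℤ) :
    push g (ex x) = ex (g x) := by
  unfold push ex
  simp

variable {n : ℕ}

theorem aw_add (a b : ℤ) (u v : Fin n → ℤ) : aw a u + aw b v = aw (a + b) (u + v) := by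
  funext o
  cases o <;> rfl

theorem aw_neg (a : ℤ) (u : Fin n → ℤ) : -(aw a u) = aw (-a) (-u) := by
  funext o
  cases o <;> rfl

theorem aw_smul (c a : ℤ) (u : Fin n → ℤ) : c • (aw a u) = aw (c * a) (c • u) := by
  funext o
  cases o <;> rfl

/-! ### Elements of level zero -/

/-- level zero -/
def Lv (f : GR (Option (Fin n))) : Prop := ∀ x, f.coeff x ≠ 0 → x none = 0

theorem exists_of_mul {ι : Type} {f g : GR ι} {x : ι → ℤ} (h : (f * g).coeff x ≠ 0) :
    ∃ a b, f.coeff a ≠ 0 ∧ g.coeff b ≠ 0 ∧ a + b = x := by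
  classical
  have h1 := AddMonoidAlgebra.support_coeff_mul_subset f g (Finsupp.mem_support_iff.2 h)
  obtain ⟨a, ha, b, hb, hab⟩ := Finset.mem_add.1 h1
  exact ⟨a, b, Finsupp.mem_support_iff.1 ha, Finsupp.mem_support_iff.1 hb, hab⟩

theorem Lv.mul {f g : GR (Option (Fin n))} (hf : Lv f) (hg : Lv g) : Lv (f * g) := by
  intro x hx
  obtain ⟨a, b, ha, hb, hab⟩ := exists_of_mul hx
  rw [← hab, Pi.add_apply, hf a ha, hg b hb, add_zero]

theorem Lv.sub {f g : GR (Option (Fin n))} (hf : Lv f) (hg : Lv g) : Lv (f - g) := by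
  intro x hx
  by_contra h
  have h1 : f.coeff x = 0 := by
    by_contra h2
    exact h (hf x h2)
  have h3 : g.coeff x = 0 := by
    by_contra h2
    exact h (hg x h2)
  apply hx
  have h4 : (f - g).coeff x = f.coeff x - g.coeff x := rfl
  rw [h4, h1, h3, sub_zero]

theorem Lv.one : Lv (1 : GR (Option (Fin n))) := by
  classical
  intro x hx
  rw [AddMonoidAlgebra.one_def, AddMonoidAlgebra.coeff_single, Finsupp.single_apply] at hx
  by_cases h : (0 : Option (Fin n) → ℤ) = x
  · rw [← h]
    rfl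
  · rw [if_neg h] at hx
    exact absurd rfl hx

theorem Lv.pow {f : GR (Option (Fin n))} (hf : Lv f) (k : ℕ) : Lv (f ^ k) := by
  induction k with
  | zero => rw [pow_zero]; exact Lv.one
  | succ k ih => rw [pow_succ]; exact ih.mul hf

/-- a factor of a level zero element is of level zero, if the other factor is nonzero of
level zero -/
theorem Lv.of_mul {f g : GR (Option (Fin n))} (hf : Lv f) (hf0 : f ≠ 0) (h : Lv (f * g)) :
    Lv g := by
  classical
  obtain ⟨g0, hg0⟩ : ∃ g0 : GR (Option (Fin n)),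
    g0 = AddMonoidAlgebra.ofCoeff (g.coeff.filter fun x => x none = 0) := ⟨_, rfl⟩
  obtain ⟨g1, hg1⟩ : ∃ g1 : GR (Option (Fin n)),
    g1 = AddMonoidAlgebra.ofCoeff (g.coeff.filter fun x => ¬ x none = 0) := ⟨_, rfl⟩
  have hs : g0 + g1 = g := by
    apply AddMonoidAlgebra.ext
    rw [AddMonoidAlgebra.coeff_add, hg0, hg1]
    exact Finsupp.filter_add_filter_not g.coeff fun x => x none = 0
  have h0 : Lv g0 := by
    intro x hx
    rw [hg0] at hx
    by_contra h1
    exact hx (Finsupp.filter_apply_neg (fun x : Option (Fin n) → ℤ => x none = 0) g.coeff h1)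
  have h1 : ∀ x, g1.coeff x ≠ 0 → x none ≠ 0 := by
    intro x hx
    rw [hg1] at hx
    by_contra h1
    exact hx (Finsupp.filter_apply_neg (fun x : Option (Fin n) → ℤ => ¬ x none = 0) g.coeff
      (not_not.2 h1))
  have h2 : f * g1 = 0 := by
    apply AddMonoidAlgebra.ext
    ext x
    by_contra h3
    have h4 : (f * g1).coeff x ≠ 0 := h3
    obtain ⟨a, b, ha, hb, hab⟩ := exists_of_mul h4
    have h5 : x none ≠ 0 := by
      rw [← hab, Pi.add_apply, hf a ha, zero_add]
      exact h1 b hb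
    have h6 : (f * g).coeff x = (f * g0).coeff x + (f * g1).coeff x := by
      rw [← hs, mul_add]
      rfl
    have h7 : (f * g).coeff x = 0 := by
      by_contra h8
      exact h5 (h x h8)
    have h9 : (f * g0).coeff x = 0 := by
      by_contra h8
      exact h5 (hf.mul h0 x h8)
    rw [h7, h9, zero_add] at h6
    exact h4 h6.symm
  have h3 : g1 = 0 := (mul_eq_zero.1 h2).resolve_left hf0
  rw [h3, add_zero] at hs
  rw [← hs]
  exact h0

/-! ### Invariance -/

section refl

variable {ι I : Type} (D : RDat ι I)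

theorem co_al (j : I) : D.co j (D.al j) = 2 := D.ev_rt _

theorem s_add (j : I) (x y : ι → ℤ) : D.s j (x + y) = D.s j x + D.s j y := by
  unfold RDat.s
  have h : D.co j (x + y) = D.co j x + D.co j y := map_add _ _ _
  rw [h, add_smul]
  abel

theorem s_s (j : I) (x : ι → ℤ) : D.s j (D.s j x) = x := by
  have h : D.co j (D.s j x) = - D.co j x := by
    have h1 : D.co j (D.s j x) = D.co j x - D.co j x * 2 := by
      unfold RDat.s
      have h2 : D.co j (x - D.co j x • D.al j) = D.co j x - D.co j (D.co j x • D.al j) :=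
        map_sub _ _ _
      have h3 : D.co j (D.co j x • D.al j) = D.co j x • D.co j (D.al j) := map_zsmul _ _ _
      rw [h2, h3, co_al, smul_eq_mul]
    rw [h1]
    ring
  have h4 : D.s j (D.s j x) = D.s j x - D.co j (D.s j x) • D.al j := rfl
  rw [h4, h]
  unfold RDat.s
  rw [neg_smul]
  abel

/-- the simple reflection as a homomorphism -/
def sH (j : I) : (ι → ℤ) →+ (ι → ℤ) := AddMonoidHom.mk' (D.s j) (s_add D j)

theorem coeff_push (j : I) (f : GR ι) (x : ι → ℤ) :
    (push (sH D j) f).coeff (D.s j x) = f.coeff x := by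
  have h : Function.Injective (D.s j) := fun a b hab => by
    rw [← s_s D j a, hab, s_s]
  exact Finsupp.mapDomain_apply h f.coeff x

theorem isInv_iff (j : I) (f : GR ι) : D.IsInv j f ↔ push (sH D j) f = f := by
  refine ⟨fun h => ?_, fun h x => ?_⟩
  · apply AddMonoidAlgebra.ext
    ext x
    have h1 := coeff_push D j f (D.s j x)
    rw [s_s] at h1
    rw [h1]
    exact h x
  · have h1 := coeff_push D j f x
    rwa [h] at h1

theorem isInv_of_mul (j : I) {f g : GR ι} (hf : D.IsInv j f) (hf0 : f ≠ 0)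
    (h : D.IsInv j (f * g)) : D.IsInv j g := by
  rw [isInv_iff] at hf h ⊢
  rw [map_mul, hf] at h
  exact mul_left_cancel₀ hf0 h

theorem isInv_pow (j : I) {f : GR ι} (hf : D.IsInv j f) (k : ℕ) : D.IsInv j (f ^ k) := by
  rw [isInv_iff] at hf ⊢
  rw [map_pow, hf]

/-! ### Words -/

theorem s_fix (j : I) (x : ι → ℤ) (h : D.co j x = 0) : D.s j x = x := by
  unfold RDat.s
  rw [h, zero_smul, sub_zero]

theorem sR_fix (w : List I) (x : ι → ℤ) (h : ∀ j ∈ w, D.co j x = 0) : D.sR w x = x := by
  induction w with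
  | nil => rfl
  | cons j w ih =>
    have h1 : D.sR (j :: w) x = D.sR w (D.s j x) := rfl
    rw [h1, s_fix D j x (h j List.mem_cons_self)]
    exact ih fun a ha => h a (List.mem_cons_of_mem _ ha)

theorem desc_append (w v : List I) (x : ι → ℤ) (h1 : D.Desc w x) (h2 : D.Desc v (D.sR w x)) :
    D.Desc (w ++ v) x := by
  induction w generalizing x with
  | nil => exact h2
  | cons j w ih => exact ⟨h1.1, ih _ h1.2 h2⟩

theorem desc0_of_desc (w : List I) (x : ι → ℤ) (h : D.Desc w x) : D.Desc0 w x := by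
  induction w generalizing x with
  | nil => trivial
  | cons j w ih => exact ⟨h.1.le, ih _ h.2⟩

end refl

/-! ### The main result -/

section aff

variable {S : GD n} {D : RDat (Option (Fin n)) (Option (Fin n))}

theorem co_some (hA : S.AffDat D) (k : Fin n) (l : ℤ) (mu : Fin n → ℤ) :
    D.co (some k) (aw l mu) = mu k := by
  rw [hA.co]
  rfl

theorem co_none (hA : S.AffDat D) (l : ℤ) (mu : Fin n → ℤ) :
    D.co none (aw l mu) = l - dot S.th mu := by
  rw [hA.co]
  rfl

theorem mem_T (hA : S.AffDat D) (l : ℤ) (mu : Fin n → ℤ) (h : 1 ≤ l) : aw l mu ∈ D.T := by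
  rw [hA.T]
  exact h

theorem dot_smul_om (a : Fin n → ℤ) (c : ℤ) (i : Fin n) : dot a (c • om i) = c * a i := by
  unfold dot
  rw [Finset.sum_eq_single i]
  · simp [om]
    ring
  · intro b _ hb
    simp [om, hb]
  · intro h
    exact absurd (Finset.mem_univ i) h

/-- the finite part: the end of a reduced word -/
theorem end_eq (Ndesc : RDat.N_desc) (Ndel : RDat.N_del) (Jhd : GD.J_hd) (Jstar : GD.J_star)
    (hS : S.OKs) (hA : S.AffDat D) (i : Fin n) (c' : List (Option (Fin n)))
    (c1 : ∀ j ∈ c', ∃ k : Fin n, j = some k)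
    (c3 : ∀ k : Fin n, 0 ≤ D.co (some k) (D.sR (some i :: c') (S.xi i))) :
    D.sR (some i :: c') (S.xi i) = aw 1 (S.t i • om i) := by
  obtain ⟨-, -, -, -, n5, n6, -, -, n9, -, -⟩ := Ndesc _ _ D
  obtain ⟨c, e1, -, e3⟩ := Jstar n S hS D hA i
  obtain ⟨z', hz'⟩ : ∃ z', z' = D.sR (some i :: c') (S.xi i) := ⟨_, rfl⟩
  obtain ⟨u, hu⟩ : ∃ u, u = (some i :: c).reverse ++ (some i :: c') := ⟨_, rfl⟩
  have hum : ∀ j ∈ u, ∃ k : Fin n, j = some k := by
    intro j hj
    rw [hu, List.mem_append, List.mem_reverse, List.mem_cons, List.mem_cons] at hj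
    rcases hj with (hj | hj) | (hj | hj)
    · exact ⟨i, hj⟩
    · exact e1 j hj
    · exact ⟨i, hj⟩
    · exact c1 j hj
  have hz : D.sR (some i :: c) (S.xi i) = aw 1 (S.t i • om i) := by
    rw [e3]
    have h1 : (S.xi i) none = 1 := rfl
    have h2 : fp (S.xi i) = -(S.t i • om i) := rfl
    rw [h1, h2, neg_neg]
  have h1 : D.sR u (aw 1 (S.t i • om i)) = z' := by
    rw [hu, n9, ← hz, (n5 _ _).1, hz']
  obtain ⟨N, hN⟩ : ∃ N : ℤ, N = |z' none| + |dot S.th (fp z')| + |S.t i * S.th i| := ⟨_, rfl⟩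
  have h2 : D.sR u (aw N 0) = aw N 0 := by
    apply sR_fix
    intro j hj
    obtain ⟨k, rfl⟩ := hum j hj
    rw [co_some hA]
    rfl
  have h3 : D.sR u (aw 1 (S.t i • om i) + aw N 0) = z' + aw N 0 := by
    rw [n6, h1, h2]
  have a1 := abs_nonneg (z' none)
  have a2 := abs_nonneg (dot S.th (fp z'))
  have a3 := abs_nonneg (S.t i * S.th i)
  have a4 := neg_abs_le (z' none)
  have a5 := le_abs_self (dot S.th (fp z'))
  have a6 := le_abs_self (S.t i * S.th i)
  have h4 : D.Dom (aw 1 (S.t i • om i) + aw N 0) := by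
    intro j
    rw [aw_add, add_zero]
    cases j with
    | none =>
      rw [co_none hA, dot_smul_om]
      omega
    | some k =>
      rw [co_some hA]
      have h5 := hS.t_pos i
      show (0 : ℤ) ≤ S.t i * om i k
      unfold om
      split_ifs <;> omega
  have h5 : D.Dom (z' + aw N 0) := by
    intro j
    have h6 : D.co j (z' + aw N 0) = D.co j z' + D.co j (aw N 0) := map_add _ _ _
    rw [h6]
    cases j with
    | none =>
      have h7 : D.co none z' = z' none - dot S.th (fp z') := by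
        rw [hA.co]
        rfl
      have h8 : dot S.th (0 : Fin n → ℤ) = 0 := by
        unfold dot
        simp
      rw [co_none hA, h7, h8]
      omega
    | some k =>
      have h7 : D.co (some k) (aw N 0) = 0 := by
        rw [co_some hA]
        rfl
      rw [h7, add_zero, hz']
      exact c3 k
  have h6 := (Ndel _ _ D S.rho (Jhd n S hS D hA)).2.1 u _ h4 (by rw [h3]; exact h5)
  rw [h3] at h6
  rw [← hz']
  exact add_right_cancel h6

end aff

theorem main : RDat.N_red → RDat.N_desc → RDat.N_del → RDat.N_demw → RDat.N_op → RDat.N_adj →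
    RDat.N_tw → GD.J_hd → GD.J_star → GD.J_sd → GD.J_sig → GD.J_X → GD.J_F → GD.J_K → GD.J_inj →
    GD.J_V1 := by
  intro Nred Ndesc Ndel Ndemw Nop Nadj _ Jhd Jstar Jsd Jsig _ JF JK Jinj n S hS D hA hD i hti hth hAV
  obtain ⟨v, v1, v2, v3⟩ := hAV
  have hnd := Ndesc _ _ D
  obtain ⟨-, -, -, -, -, n6, n7, n8, n9, n10, n11⟩ := hnd
  -- the finite word
  have hxT : S.xi i ∈ D.T := mem_T hA _ _ le_rfl
  have hneg : D.co (some i) (S.xi i) < 0 := by
    have h : D.co (some i) (S.xi i) = (-(S.t i • om i)) i := co_some hA i 1 _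
    rw [h, hti]
    simp [om]
  obtain ⟨c', c1, c2, c3⟩ := (Nred _ _ D {j | ∃ k : Fin n, j = some k} (S.xi i) hxT).2 (some i)
    ⟨i, rfl⟩ hneg
  have hend : D.sR (some i :: c') (S.xi i) = aw 1 (S.t i • om i) :=
    end_eq Ndesc Ndel Jhd Jstar hS hA i c' c1 fun k => c3 (some k) ⟨k, rfl⟩
  -- the operator
  have hdesc : D.Desc (some i :: (c' ++ v)) (S.xi i) :=
    desc_append D (some i :: c') v (S.xi i) c2 (by rw [hend]; exact v2)
  have hsR : ∀ x, D.sR (some i :: (c' ++ v)) x = D.sR v (D.sR (some i :: c') x) :=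
    fun x => n9 (some i :: c') v x
  obtain ⟨X, hX⟩ := (Jsig n S hS D hA i).1 (c' ++ v) hdesc (by rw [hsR, hend]; exact v3)
  refine ⟨X, fun m hTm => ?_⟩
  obtain ⟨F1, F2, -, F4, -, -, -⟩ := JF n S hS D hA hD
  -- finite letters fix level elements
  have hfin : ∀ j ∈ (some i :: c'), ∃ k : Fin n, j = some k := by
    intro j hj
    rw [List.mem_cons] at hj
    rcases hj with hj | hj
    · exact ⟨i, hj⟩
    · exact c1 j hj
  have hfix : ∀ l : ℤ, D.sR (some i :: c') (aw l 0) = aw l 0 := by
    intro l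
    apply sR_fix
    intro j hj
    obtain ⟨k, rfl⟩ := hfin j hj
    rw [co_some hA]
    rfl
  -- images under `sg`
  have hg0 : X.sg (aw 1 0) = D.sR v (aw 1 (S.t i • om i)) := by
    have h1 : S.tr i (aw 1 0) = S.xi i := by
      funext o
      cases o with
      | none => rfl
      | some k =>
        show (0 : ℤ) - (1 * S.t i) * om i k = -(S.t i * om i k)
        ring
    rw [X.eq, hX, h1, hsR, hend]
  have hg1 : X.sg (aw 1 (om i)) = aw 1 (om i) := by
    have h1 : S.tr i (aw 1 (om i)) = aw 1 (-(om i)) := by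
      funext o
      cases o with
      | none => rfl
      | some k =>
        show om i k - (1 * S.t i) * om i k = -(om i k)
        rw [hti]
        ring
    have h2 : D.sR (some i :: c') (aw 1 (-(om i))) = aw 1 (om i) := by
      have h3 : (2 : ℤ) • (aw 1 (-(om i)) : Option (Fin n) → ℤ) = S.xi i + aw 1 0 := by
        funext o
        cases o with
        | none => rfl
        | some k =>
          show (2 : ℤ) * -(om i k) = -(S.t i * om i k) + 0
          rw [hti]
          ring
      have h4 : (2 : ℤ) • D.sR (some i :: c') (aw 1 (-(om i))) =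
          (2 : ℤ) • (aw 1 (om i) : Option (Fin n) → ℤ) := by
        rw [← n7, h3, n6, hend, hfix, hti]
        funext o
        cases o with
        | none => rfl
        | some k =>
          show (2 : ℤ) * om i k + 0 = 2 * om i k
          ring
      funext o
      have h5 := congrFun h4 o
      have h6 : (2 : ℤ) * D.sR (some i :: c') (aw 1 (-(om i))) o = 2 * aw 1 (om i) o := h5
      omega
    rw [X.eq, hX, h1, hsR, h2]
    apply sR_fix
    intro j hj
    cases j with
    | none =>
      rw [co_none hA]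
      have h3 := dot_smul_om S.th 1 i
      rw [one_smul, one_mul, hth] at h3
      rw [h3]
      norm_num
    | some k =>
      rw [co_some hA]
      have h3 : k ≠ i := by
        rintro rfl
        exact v1 _ hj rfl
      simp [om, h3]
  -- `e^m U_m`
  obtain ⟨h, hh⟩ : ∃ h, h = D.Dem (aw 1 (S.t i • om i)) (m + 1) := ⟨_, rfl⟩
  have hXval : X.X (ex (aw (m : ℤ) (-om i))) =
      D.demL (some i :: c') (ex (aw (-1) (-om i)) * h) := by
    have e1 : X.X (ex (aw (m : ℤ) (-om i))) = D.demL (some i :: X.w)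
        (push (X.sg : (Option (Fin n) → ℤ) →+ (Option (Fin n) → ℤ)) (ex (aw (m : ℤ) (-om i)))) :=
      rfl
    have e2 : (X.sg : (Option (Fin n) → ℤ) →+ (Option (Fin n) → ℤ)) (aw (m : ℤ) (-om i)) =
        aw (-1) (-om i) + ((m + 1 : ℕ) : ℤ) • D.sR v (aw 1 (S.t i • om i)) := by
      have e3 : (aw (m : ℤ) (-om i) : Option (Fin n) → ℤ) =
          -(aw 1 (om i)) + ((m + 1 : ℕ) : ℤ) • aw 1 0 := by
        rw [aw_neg, aw_smul, aw_add, smul_zero, add_zero]
        congr 1
        push_cast
        ring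
      show X.sg (aw (m : ℤ) (-om i)) = _
      rw [e3, map_add, map_neg, map_zsmul, hg1, hg0, aw_neg]
    have e4 : D.demL v (ex (((m + 1 : ℕ) : ℤ) • D.sR v (aw 1 (S.t i • om i)))) = h := by
      have e5 := Ndemw _ _ D hD v (aw 1 (S.t i • om i)) (m + 1) (mem_T hA _ _ le_rfl)
        (desc0_of_desc D v _ v2)
      rw [hh, e5, hD.d3 _ (n11 v _ (mem_T hA _ _ le_rfl)) (m + 1) v3]
    have e6 : ∀ j ∈ v, D.IsInv j (ex (aw (-1) (-om i))) := by
      intro j hj
      obtain ⟨-, -, -, -, -, -, -, -, o9, -⟩ := Nop _ _ D j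
      apply o9
      cases j with
      | none =>
        rw [co_none hA]
        have h3 := dot_smul_om S.th (-1) i
        rw [hth] at h3
        have h4 : (-om i : Fin n → ℤ) = (-1 : ℤ) • om i := by
          rw [neg_smul, one_smul]
        rw [h4, h3]
        norm_num
      | some k =>
        rw [co_some hA]
        have h3 : k ≠ i := by
          rintro rfl
          exact v1 _ hj rfl
        simp [om, h3]
    have hn10 : ∀ f, D.demL (some i :: (c' ++ v)) f = D.demL (some i :: c') (D.demL v f) :=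
      fun f => n10 (some i :: c') v f
    have hadj := fun p hp => (Nadj _ _ D p hp).2.2.1 v (ex (aw (-1) (-om i)))
      (ex (((m + 1 : ℕ) : ℤ) • D.sR v (aw 1 (S.t i • om i)))) e6
    rw [e1, push_ex, e2, ← ex_mul, hX, hn10, hadj (fun _ => 0) (fun y j => by simp), e4]
  -- invariance of `U_m`
  have hK := (JK n S hS D hA hD i X).1 m
  have hnb : SLC.Inv0 D (S.nb D i m) := by
    unfold GD.nb
    refine ⟨fun a => ?_, ?_⟩
    · obtain ⟨-, -, -, -, -, -, -, o8, -, o10⟩ := Nop _ _ D a
      refine Finset.prod_induction _ (D.IsInv a) (fun a b ha hb => (o8 a b ha hb).2.2) o10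
        fun j _ => isInv_pow D a ((F1 j m).1 a) _
    · exact Finset.prod_induction _ Lv (fun a b => Lv.mul) Lv.one
        fun j _ => Lv.pow (F1 j m).2 _
  have hUlv : Lv (X.U m) := by
    refine Lv.of_mul (F2 i m).2 hTm ?_
    rw [← hK, sq]
    exact (Lv.mul (F1 i m).2 (F1 i m).2).sub hnb.2
  have hUinv : ∀ a, D.IsInv a (X.U m) := by
    intro a
    refine isInv_of_mul D a ((F2 i m).1 a) hTm ?_
    rw [← hK, sq]
    obtain ⟨-, -, -, -, -, -, -, o8, -, -⟩ := Nop _ _ D a
    exact (o8 _ _ (o8 _ _ ((F1 i m).1 a) ((F1 i m).1 a)).2.2 (hnb.1 a)).2.1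
  have hA0 : SLC.Inv0 D (X.U m - S.T D i (m + 1)) := by
    refine ⟨fun a => ?_, Lv.sub hUlv (F2 i (m + 1)).2⟩
    obtain ⟨-, -, -, -, -, -, -, o8, -, -⟩ := Nop _ _ D a
    exact (o8 _ _ (hUinv a) ((F2 i (m + 1)).1 a)).2.1
  -- the pairings
  obtain ⟨c, -, s2, s3, s4⟩ := Jsd n S hS D hA hD i
  have hmain : X.U m - S.T D i (m + 1) = 0 := by
    refine Jinj n S hS D hA _ hA0 0 fun k _ p hp => ?_
    obtain ⟨a1, a2, a3, -⟩ := Nadj _ _ D p hp
    have e1 : ex (aw k 0) * X.U m =
        D.demL (some i :: c') (ex (aw (k - m) 0) * (ex (aw (-1) (-om i)) * h)) := by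
      have e2 : (ex (aw k 0) : GR (Option (Fin n))) * ex (aw (-(m : ℤ)) 0) =
          ex (aw (k - m) 0) := by
        rw [ex_mul, aw_add, add_zero, sub_eq_add_neg]
      rw [a3 (some i :: c') (ex (aw (k - m) 0))]
      · unfold GD.XD.U
        rw [← mul_assoc, e2, hXval]
      · intro j hj
        obtain ⟨l, rfl⟩ := hfin j hj
        obtain ⟨-, -, -, -, -, -, -, -, o9, -⟩ := Nop _ _ D (some l)
        apply o9
        rw [co_some hA]
        rfl
    have e3 : ex (aw (k - m) 0) * (ex (aw (-1) (-om i)) * h) = ex (aw (k - m - 1) (-om i)) * h := by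
      rw [← mul_assoc, ex_mul, aw_add, zero_add, sub_eq_add_neg (k - (m : ℤ)) 1]
    have e4 : pair p (ex (aw (k - m - 1) (-om i)) * h) = pair p (ex (aw k 0) * S.T D i (m + 1)) := by
      rw [s4, sub_mul, map_sub, a2, a2, List.reverse_reverse, List.reverse_reverse, hh, ← s2, ← s3,
        ← map_sub, ← mul_sub, F4, ← mul_assoc, ex_mul, aw_add]
      congr 3
      · congr 1
        · push_cast
          ring
        · exact add_neg_cancel _
    rw [mul_sub, map_sub, e1, a1, e3, e4, sub_self]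
  exact sub_eq_zero.1 hmain

end H391.KR.P_jV1
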