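import Pool.Agent.H391.KR.JC

set_option autoImplicit false

noncomputable section

namespace H391.KR.P_jadj

open Finset

/-- pull-back of a positive coroot along a word -/
theorem pull {ι I : Type} (D : RDat ι I) (w : List I) : ∀ b : D.R, ∃ c : D.R,
    (∀ x, D.ev b (D.sR w x) = D.ev c x) ∨ (∀ x, D.ev b (D.sR w x) = - D.ev c x) := by
  induction w with
  | nil => intro b; exact ⟨b, Or.inl fun x => rfl⟩
  | cons j w ih =>
    intro b
    obtain ⟨c, hc⟩ := ih b
    have key : ∃ d : D.R, (∀ x, D.ev c (D.s j x) = D.ev d x) ∨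
        (∀ x, D.ev c (D.s j x) = - D.ev d x) := by
      by_cases hcj : c = D.sim j
      · refine ⟨D.sim j, Or.inr fun x => ?_⟩
        subst hcj
        unfold RDat.s RDat.co RDat.al
        rw [map_sub, map_zsmul, D.ev_rt]
        simp only [smul_eq_mul]
        ring
      · obtain ⟨d, -, hd, -⟩ := D.perm j c hcj
        exact ⟨d, Or.inl fun x => (hd x).symm⟩
    obtain ⟨d, hd⟩ := key
    refine ⟨d, ?_⟩
    rcases hc with hc | hc <;> rcases hd with hd | hd
    · left; intro x; show D.ev b (D.sR w (D.s j x)) = _; rw [hc, hd]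
    · right; intro x; show D.ev b (D.sR w (D.s j x)) = _; rw [hc, hd]
    · right; intro x; show D.ev b (D.sR w (D.s j x)) = _; rw [hc, hd]
    · left; intro x; show D.ev b (D.sR w (D.s j x)) = _; rw [hc, hd, neg_neg]

theorem dot_add {n : ℕ} (a x y : Fin n → ℤ) : dot a (x + y) = dot a x + dot a y := by
  unfold dot; rw [← Finset.sum_add_distrib]
  exact Finset.sum_congr rfl fun i _ => by simp only [Pi.add_apply]; ring

theorem dot_smul {n : ℕ} (a x : Fin n → ℤ) (c : ℤ) : dot a (c • x) = c * dot a x := by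
  unfold dot; rw [Finset.mul_sum]
  exact Finset.sum_congr rfl fun i _ => by simp only [Pi.smul_apply, smul_eq_mul]; ring

theorem dot_om {n : ℕ} (a : Fin n → ℤ) (i : Fin n) : dot a (om i) = a i := by
  unfold dot om
  rw [Finset.sum_eq_single i]
  · simp
  · intro j _ hj; simp [hj]
  · intro h; exact absurd (Finset.mem_univ _) h

/-- The negative of a coroot. -/
theorem cor_neg {n : ℕ} {S : GD n} (hS : S.OKs) {a : Fin n → ℤ} (ha : S.Cor a) :
    S.Cor (-a) ∧ S.tt (-a) = S.tt a := by
  have h := (hS.refl a a ha ha).1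
  rw [hS.two a ha] at h
  have e : a - (2 : ℤ) • a = -a := by
    funext j
    simp only [Pi.sub_apply, Pi.smul_apply, smul_eq_mul, Pi.neg_apply]
    ring
  rw [e] at h
  refine ⟨h, ?_⟩
  unfold GD.tt
  congr 1
  refine Finset.sum_congr rfl fun i _ => Finset.sum_congr rfl fun j _ => ?_
  simp only [Pi.neg_apply]
  ring

/-- The height of a coroot. -/
theorem ht_ge {n : ℕ} {S : GD n} (hS : S.OKs) {a : Fin n → ℤ} (ha : S.Cor a) :
    -(S.tt a * (S.hv - 1)) ≤ ∑ j, a j := by
  obtain ⟨h1, h2⟩ := cor_neg hS ha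
  have h3 : ∑ j, (-a) j ≤ ∑ j, S.tt a * S.th j := Finset.sum_le_sum fun j _ => by
    rw [← h2]
    exact hS.bnd (-a) h1 j
  rw [← Finset.mul_sum] at h3
  simp only [Pi.neg_apply, Finset.sum_neg_distrib] at h3
  have h4 : S.hv - 1 = ∑ j, S.th j := by unfold GD.hv; ring
  rw [h4]
  linarith

theorem main : RDat.N_desc → RDat.N_demw → RDat.N_tw → GD.J_hd → GD.J_adj := by
  intro hdesc hdemw htw hhd n S hS D hD hOK i X m
  have HD := hhd n S hS D hD
  obtain ⟨e1, e2, -, e4, e5, -⟩ := hdesc _ _ D
  obtain ⟨-, -, -, t4, -, -, -⟩ := htw _ _ D S.rho HD hOK X.sg X.ta X.tw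
  set W : List (Option (Fin n)) := some i :: X.w with hW
  -- descents
  have d1 : D.Desc W (-S.rho) := by
    refine e2 W (S.xi i) (-S.rho) X.desc ?_
    intro b _
    have := HD.pos b
    rw [map_neg]; omega
  have d2 : D.Desc W.reverse (D.sR W S.rho) := e4 W S.rho d1
  -- the inverse translate
  set z : Option (Fin n) → ℤ := aw S.hv (fp S.rho + (S.hv * S.t i) • om i) with hz
  have htz : S.tr i z = S.rho := by
    funext o
    cases o with
    | none => rfl
    | some j =>
      show (fp S.rho + (S.hv * S.t i) • om i) j - ((S.hv * S.t i) • om i) j = S.rho (some j)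
      simp only [Pi.add_apply]
      show S.rho (some j) + _ - _ = _
      ring
  have hsz : D.sR W S.rho = X.sg z := by rw [X.eq z, htz]
  set y0 : Option (Fin n) → ℤ := aw 1 (S.t i • om i) with hy0
  have hty : S.tr i y0 = aw 1 0 := by
    funext o
    cases o with
    | none => rfl
    | some j =>
      show (S.t i • om i) j - (((1 : ℤ) * S.t i) • om i) j = 0
      rw [one_mul, sub_self]
  have hT : y0 ∈ D.T := by
    rw [hD.T]; show (1 : ℤ) ≤ 1; exact le_refl _
  have hTs : X.sg y0 ∈ D.T := (X.tw.T y0).1 hT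
  -- criterion
  have crit : ∀ b, D.ev b (D.sR W S.rho) < 0 → D.ev b (X.sg y0) ≤ 0 := by
    intro b hb
    rw [hsz, X.eq z] at hb
    rw [X.eq y0]
    obtain ⟨c, hc⟩ := pull D W b
    obtain ⟨a, q, hpos, hev, -⟩ := hD.ev c
    have hval : ∀ x, D.ev c (S.tr i x) = dot a (fp x) + (q - S.t i * a i) * x none := by
      intro x
      rw [hev]
      have h1 : fp (S.tr i x) = fp x + (-(x none * S.t i)) • om i := by
        funext j
        show fp x j - ((x none * S.t i) • om i) j = _
        simp only [Pi.add_apply, Pi.smul_apply, smul_eq_mul]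
        ring
      rw [h1, dot_add, dot_smul, dot_om]
      show _ + q * x none = _
      ring
    have hdiv : S.tt a ∣ q - S.t i * a i := dvd_sub hpos.2.1 (hS.tdvd a hpos.1 i)
    -- a coroot with sign
    have hex : ∃ (a' : Fin n → ℤ) (q' : ℤ), S.Cor a' ∧ S.tt a' ∣ q' ∧
        ∀ x, D.ev b (D.sR W (S.tr i x)) = dot a' (fp x) + q' * x none := by
      rcases hc with hc | hc
      · exact ⟨a, q - S.t i * a i, hpos.1, hdiv, fun x => by rw [hc, hval]⟩
      · obtain ⟨hn1, hn2⟩ := cor_neg hS hpos.1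
        refine ⟨-a, -(q - S.t i * a i), hn1, ?_, fun x => ?_⟩
        · rw [hn2]
          exact (dvd_neg).2 hdiv
        · rw [hc, hval]
          have h2 : dot (-a) (fp x) = - dot a (fp x) := by
            unfold dot
            simp only [Pi.neg_apply, neg_mul, Finset.sum_neg_distrib]
          rw [h2]; ring
    obtain ⟨a', q', hr, hdq, hx⟩ := hex
    rw [hx] at hb ⊢
    have hht := ht_ge hS hr
    have htt := hS.tt_pos a' hr
    have hfz : dot a' (fp z) = ∑ j, a' j + S.hv * S.t i * a' i := by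
      have h3 : fp z = fp S.rho + (S.hv * S.t i) • om i := rfl
      rw [h3, dot_add, dot_smul, dot_om]
      congr 1
      unfold dot
      refine Finset.sum_congr rfl fun j _ => ?_
      show a' j * 1 = a' j
      rw [mul_one]
    have hzn : z none = S.hv := rfl
    have hfy : dot a' (fp y0) = S.t i * a' i := by
      have h3 : fp y0 = S.t i • om i := rfl
      rw [h3, dot_smul, dot_om]
    have hyn : y0 none = 1 := rfl
    rw [hfz, hzn] at hb
    rw [hfy, hyn]
    by_contra hcon
    push Not at hcon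
    have hd : S.tt a' ∣ S.t i * a' i + q' * 1 := by
      rw [mul_one]
      exact dvd_add (hS.tdvd a' hr i) hdq
    have h5 : S.tt a' ≤ S.t i * a' i + q' * 1 := Int.le_of_dvd hcon hd
    have hhv : 0 ≤ S.hv - 1 := by
      have h4 : S.hv - 1 = ∑ j, S.th j := by unfold GD.hv; ring
      rw [h4]
      exact Finset.sum_nonneg fun j _ => by have := hS.th_pos j; omega
    have h6 : S.tt a' * S.hv ≤ (S.t i * a' i + q' * 1) * S.hv :=
      mul_le_mul_of_nonneg_right h5 (by omega)
    linarith
  have d3 : D.Desc0 W.reverse (X.sg y0) := e1 W.reverse (D.sR W S.rho) (X.sg y0) d2 crit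
  have h6 := hdemw _ _ D hOK W.reverse (X.sg y0) m hTs d3
  have h7 : D.sR W.reverse (X.sg y0) = aw 1 0 := by
    rw [X.eq y0, (e5 W (S.tr i y0)).1, hty]
  have hdom : D.Dom (aw 1 0) := by
    intro j
    rw [hD.co]
    cases j with
    | none =>
      show (0 : ℤ) ≤ 1 - dot S.th (fp (aw (1 : ℤ) (0 : Fin n → ℤ)))
      have h8 : dot S.th (fp (aw (1 : ℤ) (0 : Fin n → ℤ))) = 0 := by
        unfold dot
        refine Finset.sum_eq_zero fun j _ => ?_
        show S.th j * 0 = 0
        ring
      rw [h8]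
      norm_num
    | some j => exact le_refl _
  have hT1 : (aw 1 0 : Option (Fin n) → ℤ) ∈ D.T := by
    rw [hD.T]; show (1 : ℤ) ≤ 1; exact le_refl _
  have h9 : D.Dem (aw 1 0) m = ex (aw m 0) := by
    rw [hOK.d3 _ hT1 m hdom]
    congr 1
    funext o
    cases o with
    | none => show (m : ℤ) • (1 : ℤ) = m; simp
    | some j => show (m : ℤ) • (0 : ℤ) = 0; simp
  rw [h7, h9] at h6
  rw [← h6]
  exact t4 y0 hT m

end H391.KR.P_jadj
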