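import Pool.Agent.H391.KR.JV

/-!
# KR project (helper391), task KR-jbase (helper370)
-/

set_option autoImplicit false

noncomputable section

namespace H391.KR.P_jbase

open Finset H391.KR H391.KR.GD

/-! ### the group ring -/

section gr

variable {ι κ : Type}

theorem coeff_ex_mul (x : ι → ℤ) (f : GR ι) (y : ι → ℤ) :
    (ex x * f).coeff y = f.coeff (y - x) := by
  unfold ex
  rw [AddMonoidAlgebra.coeff_single_mul_apply, one_mul]
  congr 1
  abel

theorem push_coeff (g : (ι → ℤ) →+ (κ → ℤ)) (hg : Function.Injective g) (f : GR ι)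
    (x : ι → ℤ) : (push g f).coeff (g x) = f.coeff x :=
  Finsupp.mapDomain_apply hg f.coeff x

theorem aw0_inj {n : ℕ} : Function.Injective (aw0 : (Fin n → ℤ) →+ (Option (Fin n) → ℤ)) := by
  intro x y h
  funext i
  exact congrFun h (some i)

end gr

/-! ### supports -/

section cone

variable {n : ℕ} (S : GD n)

/-- the combination of the simple roots -/
def cb (g : Fin n → ℤ) : Fin n → ℤ := ∑ j, g j • S.rtw j

theorem cb_add (g h : Fin n → ℤ) : cb S (g + h) = cb S g + cb S h := by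
  unfold cb
  rw [← sum_add_distrib]
  exact sum_congr rfl fun j _ => by rw [Pi.add_apply, add_smul]

theorem cb_zero : cb S 0 = 0 := by
  unfold cb
  simp

theorem cb_om (c : ℤ) (i : Fin n) : cb S (c • om i) = c • S.rtw i := by
  unfold cb
  rw [sum_eq_single i]
  · simp [om]
  · intro j _ hj
    simp [om, hj]
  · intro h
    exact absurd (mem_univ i) h

theorem cb_cone (hS : S.OKs) {g h : Fin n → ℤ} (hg : ∀ j, 0 ≤ g j) (hh : ∀ j, 0 ≤ h j)
    (h0 : cb S g + cb S h = 0) : g = 0 ∧ h = 0 := by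
  rw [← cb_add] at h0
  have h2 := hS.nd' _ h0
  constructor
  · funext j
    have h3 := congrFun h2 j
    rw [Pi.add_apply, Pi.zero_apply] at h3
    have := hg j
    have := hh j
    rw [Pi.zero_apply]
    omega
  · funext j
    have h3 := congrFun h2 j
    rw [Pi.add_apply, Pi.zero_apply] at h3
    have := hg j
    have := hh j
    rw [Pi.zero_apply]
    omega

theorem cb_inj (hS : S.OKs) {g h : Fin n → ℤ} (hg : cb S g = cb S h) : g = h := by
  have h1 : cb S (g - h) + cb S h = cb S h := by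
    rw [← cb_add, sub_add_cancel, hg]
  have h2 : cb S (g - h) = 0 := by
    have h3 := congrArg (fun z => z - cb S h) h1
    simpa using h3
  exact sub_eq_zero.1 (hS.nd' _ h2)

/-- the root of a positive coroot is a non-negative combination of simple roots -/
theorem rt_pos (hS : S.OKs) (a : Fin n → ℤ) (ha : a ∈ S.pos) : ∃ g : Fin n → ℤ,
    (∀ j, 0 ≤ g j) ∧ g ≠ 0 ∧ S.rt a = cb S g := by
  obtain ⟨g, hg1, hg2⟩ := hS.rtc a ha.1
  have htt := hS.tt_pos a ha.1
  refine ⟨g, fun j => ?_, ?_, hg1⟩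
  · have h1 := hg2 j
    have h2 : 0 ≤ S.t j * a j := mul_nonneg (by have := hS.t_pos j; omega) (ha.2 j)
    by_contra hcon
    have h3 : S.tt a * g j < 0 := mul_neg_of_pos_of_neg (by omega) (by omega)
    omega
  · intro h0
    refine (hS.sgn a ha.1).1 ?_
    funext j
    have h1 := hg2 j
    rw [h0, Pi.zero_apply, mul_zero] at h1
    have h2 := hS.t_pos j
    rcases mul_eq_zero.1 h1.symm with h | h
    · omega
    · exact h

theorem prodB (hS : S.OKs) (f : GR (Fin n)) (M : Fin n → ℤ)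
    (hf : ∀ g : Fin n → ℤ, (∀ j, 0 ≤ g j) → g ≠ 0 → f.coeff (M + cb S g) = 0)
    (A : Finset (Fin n → ℤ)) (hA : ∀ a ∈ A, a ∈ S.pos) :
    ((∏ a ∈ A, (1 - ex (-(S.rt a))) : GR (Fin n)) * f).coeff M = f.coeff M ∧
    ∀ g : Fin n → ℤ, (∀ j, 0 ≤ g j) → g ≠ 0 →
      ((∏ a ∈ A, (1 - ex (-(S.rt a))) : GR (Fin n)) * f).coeff (M + cb S g) = 0 := by
  classical
  induction A using Finset.induction_on with
  | empty =>
    rw [prod_empty, one_mul]
    exact ⟨rfl, hf⟩
  | insert a A haA ih =>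
    obtain ⟨ih1, ih2⟩ := ih fun b hb => hA b (mem_insert_of_mem hb)
    obtain ⟨ga, hga1, hga2, hga3⟩ := rt_pos S hS a (hA a (mem_insert_self _ _))
    rw [prod_insert haA, mul_assoc]
    generalize (∏ a ∈ A, (1 - ex (-(S.rt a))) : GR (Fin n)) * f = h at ih1 ih2 ⊢
    have hc : ∀ mu, ((1 - ex (-(S.rt a))) * h : GR (Fin n)).coeff mu =
        h.coeff mu - h.coeff (mu + cb S ga) := by
      intro mu
      rw [sub_mul, one_mul, AddMonoidAlgebra.coeff_sub, Finsupp.sub_apply, coeff_ex_mul,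
        sub_neg_eq_add, hga3]
    constructor
    · rw [hc, ih2 ga hga1 hga2, sub_zero, ih1]
    · intro g hg hg0
      have h1 : g + ga ≠ 0 := by
        intro h0
        apply hg0
        funext j
        have h2 := congrFun h0 j
        rw [Pi.add_apply, Pi.zero_apply] at h2
        have := hg j
        have := hga1 j
        rw [Pi.zero_apply]
        omega
      rw [hc, ih2 g hg hg0, add_assoc, ← cb_add,
        ih2 (g + ga) (fun j => add_nonneg (hg j) (hga1 j)) h1, sub_zero]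

theorem deltaB (hS : S.OKs) (f : GR (Fin n)) (M : Fin n → ℤ)
    (hf : ∀ g : Fin n → ℤ, (∀ j, 0 ≤ g j) → g ≠ 0 → f.coeff (M + cb S g) = 0) :
    (f * S.Delta).coeff M = f.coeff M := by
  have hfin : S.pos.Finite := hS.fin.subset fun _ ha => ha.1
  have hD : S.Delta = ∏ a ∈ hfin.toFinset, (1 - ex (-(S.rt a))) := by
    unfold GD.Delta
    rw [finprod_mem_eq_finite_toFinset_prod _ hfin]
  rw [hD, mul_comm]
  exact (prodB S hS f M hf hfin.toFinset (fun a ha => (Set.Finite.mem_toFinset hfin).1 ha)).1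

theorem refl_refl (hS : S.OKs) (i : Fin n) (mu : Fin n → ℤ) :
    S.refl i (S.refl i mu) = mu := by
  have h1 : S.refl i mu i = - mu i := by
    show mu i - mu i * S.C i i = - mu i
    rw [hS.diag]
    ring
  show S.refl i mu - (S.refl i mu i) • S.rtw i = mu
  rw [h1]
  show mu - mu i • S.rtw i - (- mu i) • S.rtw i = mu
  rw [neg_smul]
  abel

theorem mem_Rep (hS : S.OKs) (f : GR (Fin n)) (hf : f ∈ S.Rep) (i : Fin n) (mu : Fin n → ℤ) :
    f.coeff (S.refl i mu) = f.coeff mu := by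
  unfold GD.Rep at hf
  rw [Subring.mem_iInf] at hf
  have h0 : push (S.refl i) f = f := hf i
  have h1 := push_coeff (S.refl i)
    (Function.LeftInverse.injective (refl_refl S hS i)) f mu
  rwa [h0] at h1

theorem maxB (hS : S.OKs) (f : GR (Fin n)) (hf : f ∈ S.Rep) (x : Fin n → ℤ)
    (hx : f.coeff x ≠ 0) : ∃ g : Fin n → ℤ, (∀ j, 0 ≤ g j) ∧ (∀ j, 0 ≤ (x + cb S g) j) ∧
      f.coeff (x + cb S g) ≠ 0 ∧
      ∀ h : Fin n → ℤ, (∀ j, 0 ≤ h j) → h ≠ 0 → f.coeff (x + cb S g + cb S h) = 0 := by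
  have hfin : {g : Fin n → ℤ | (∀ j, 0 ≤ g j) ∧ f.coeff (x + cb S g) ≠ 0}.Finite := by
    have h1 : (↑f.coeff.support : Set (Fin n → ℤ)).Finite := Finset.finite_toSet _
    refine Set.Finite.of_injOn (f := fun g => x + cb S g) (t := ↑f.coeff.support) ?_ ?_ h1
    · intro g hg
      exact Finsupp.mem_support_iff.2 hg.2
    · intro g _ h _ hgh
      exact cb_inj S hS (add_left_cancel hgh)
  obtain ⟨g, hg, hmax⟩ := Set.exists_max_image _ (fun g : Fin n → ℤ => ∑ j, g j) hfin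
    ⟨0, fun j => le_rfl, by rw [cb_zero, add_zero]; exact hx⟩
  have key : ∀ h : Fin n → ℤ, (∀ j, 0 ≤ h j) → h ≠ 0 →
      f.coeff (x + cb S g + cb S h) = 0 := by
    intro h hh hh0
    by_contra hc
    have h1 := hmax (g + h) ⟨fun j => add_nonneg (hg.1 j) (hh j), by
      rw [cb_add, ← add_assoc]
      exact hc⟩
    have h2 : 0 < ∑ j, h j := by
      rcases (sum_nonneg fun j (_ : j ∈ univ) => hh j).lt_or_eq with h3 | h3
      · exact h3
      · exfalso
        apply hh0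
        funext j
        exact (sum_eq_zero_iff_of_nonneg fun j _ => hh j).1 h3.symm j (mem_univ j)
    simp only [Pi.add_apply, sum_add_distrib] at h1
    omega
  refine ⟨g, hg.1, fun j => ?_, hg.2, key⟩
  by_contra hneg
  push Not at hneg
  have h1 := mem_Rep S hS f hf j (x + cb S g)
  have h2 : S.refl j (x + cb S g) = x + cb S g + cb S ((-(x + cb S g) j) • om j) := by
    rw [cb_om]
    have h3 : S.refl j (x + cb S g) = (x + cb S g) - (x + cb S g) j • S.rtw j := rfl
    rw [h3, neg_smul, sub_eq_add_neg]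
  have h4 := key ((-(x + cb S g) j) • om j) (fun k => by
    rw [Pi.smul_apply, smul_eq_mul]
    refine mul_nonneg (by omega) ?_
    unfold om
    split_ifs <;> norm_num) (fun h0 => by
    have h5 := congrFun h0 j
    rw [Pi.smul_apply, smul_eq_mul, Pi.zero_apply] at h5
    have h6 : (om j : Fin n → ℤ) j = 1 := by simp [om]
    rw [h6] at h5
    omega)
  rw [h2, h4] at h1
  exact hg.2 h1.symm

/-- the support is in `top` minus the cone -/
def Lw (f : GR (Fin n)) (top : Fin n → ℤ) : Prop :=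
  ∀ x, f.coeff x ≠ 0 → ∃ g : Fin n → ℤ, (∀ j, 0 ≤ g j) ∧ x = top - cb S g

theorem lowB (hS : S.OKs) (f : GR (Fin n)) (hf : f ∈ S.Rep) (top : Fin n → ℤ)
    (hl : ∀ mu, (∀ j, 0 ≤ mu j) → (f * S.Delta).coeff mu ≠ 0 →
      ∃ g : Fin n → ℤ, (∀ j, 0 ≤ g j) ∧ mu = top - cb S g) : Lw S f top := by
  intro x hx
  obtain ⟨g, hg, hdom, hne, hmax⟩ := maxB S hS f hf x hx
  obtain ⟨h, hh, he⟩ := hl _ hdom (by rw [deltaB S hS f _ hmax]; exact hne)
  refine ⟨h + g, fun j => add_nonneg (hh j) (hg j), ?_⟩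
  rw [cb_add, ← sub_sub, ← he]
  abel

theorem topB (hS : S.OKs) (f : GR (Fin n)) (top : Fin n → ℤ) (hl : Lw S f top) :
    (f * S.Delta).coeff top = f.coeff top := by
  refine deltaB S hS f top fun g hg hg0 => ?_
  by_contra hc
  obtain ⟨h, hh, he⟩ := hl _ hc
  refine hg0 (cb_cone S hS hg hh ?_).1
  have h1 : cb S g + cb S h = (top + cb S g) - (top - cb S h) := by abel
  rw [h1, he, sub_self]

theorem mulB (hS : S.OKs) (f1 f2 : GR (Fin n)) (t1 t2 : Fin n → ℤ) (h1 : Lw S f1 t1)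
    (h2 : Lw S f2 t2) : (f1 * f2).coeff (t1 + t2) = f1.coeff t1 * f2.coeff t2 := by
  rw [AddMonoidAlgebra.coeff_mul_apply_left, Finsupp.sum, sum_eq_single t1]
  · congr 2
    abel
  · intro x hx hne
    have hx0 := Finsupp.mem_support_iff.1 hx
    obtain ⟨g, hg, hxe⟩ := h1 x hx0
    by_contra hc
    have h3 : f2.coeff (-x + (t1 + t2)) ≠ 0 := right_ne_zero_of_mul hc
    obtain ⟨h, hh, hye⟩ := h2 _ h3
    have h4 : cb S g + cb S h = 0 := by
      have h5 : cb S g = t1 - x := by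
        rw [hxe]
        abel
      have h6 : cb S h = t2 - (-x + (t1 + t2)) := by
        rw [hye]
        abel
      rw [h5, h6]
      abel
    have h5 := (cb_cone S hS hg hh h4).1
    apply hne
    rw [hxe, h5, cb_zero, sub_zero]
  · intro h
    rw [Finsupp.notMem_support_iff.1 h, zero_mul]

end cone

/-! ### quantum dimensions -/

section qd

variable {n : ℕ} (S : GD n)

/-- the character as a ring homomorphism -/
def chrH : S.RepR →+* GR (Fin n) := (S.Rep.subtype : S.Rep →+* GR (Fin n))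

theorem chrH_eq (f : S.RepR) : chrH S f = chr f := rfl

/-- evaluation of the class on the affine side -/
def psi : S.RepR →+* GR (Option (Fin n)) := (push aw0).comp (chrH S)

theorem psi_eq (f : S.RepR) : psi S f = push aw0 (chr f) := rfl

theorem chr_mem (f : S.RepR) : chr f ∈ S.Rep := f.2

theorem mult_sub (f g : S.RepR) (mu : Fin n → ℤ) :
    S.mult (f - g) mu = S.mult f mu - S.mult g mu := by
  unfold GD.mult
  rw [← chrH_eq, map_sub, chrH_eq, chrH_eq, sub_mul, AddMonoidAlgebra.coeff_sub,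
    Finsupp.sub_apply]

theorem qd_single (k : ℕ) (f : S.RepR) (M : Fin n → ℤ) (hM : ∀ j, 0 ≤ M j)
    (h1 : S.mult f M = 1) (h0 : ∀ mu, (∀ j, 0 ≤ mu j) → mu ≠ M → S.mult f mu = 0) :
    S.qdim k f = S.qdR (S.par k) M := by
  classical
  show S.qdimR (S.par k) (chr f) = S.qdR (S.par k) M
  unfold GD.qdimR
  rw [Finsupp.sum, sum_eq_single M]
  · rw [if_pos hM]
    have h2 : ((chr f) * S.Delta).coeff M = 1 := h1
    rw [h2, Int.cast_one, one_mul]
  · intro mu _ hne
    split_ifs with h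
    · have h2 : ((chr f) * S.Delta).coeff mu = 0 := h0 mu h hne
      rw [h2, Int.cast_zero, zero_mul]
    · rfl
  · intro h
    exfalso
    have h2 : S.mult f M = 0 := Finsupp.notMem_support_iff.1 h
    rw [h1] at h2
    exact one_ne_zero h2

theorem qd_unique (k : ℕ) (hsp : ∀ la ∈ S.alc k, 0 < S.qdR (S.par k) la) (f : S.RepR)
    (hpos : ∀ mu, (∀ j, 0 ≤ mu j) → 0 ≤ S.mult f mu)
    (hsup : ∀ mu, (∀ j, 0 ≤ mu j) → S.mult f mu ≠ 0 → mu ∈ S.alc k)
    (M : Fin n → ℤ) (hM : ∀ j, 0 ≤ M j) (h1 : S.mult f M = 1)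
    (hq : S.qdim k f = S.qdR (S.par k) M) :
    ∀ mu, (∀ j, 0 ≤ mu j) → mu ≠ M → S.mult f mu = 0 := by
  classical
  intro mu hmu hne
  by_contra hc
  have hq' : S.qdimR (S.par k) (chr f) = S.qdR (S.par k) M := hq
  have hnn : ∀ nu ∈ ((chr f) * S.Delta).coeff.support, (0 : ℝ) ≤
      (if ∀ i, 0 ≤ nu i then (((chr f) * S.Delta).coeff nu : ℝ) * S.qdR (S.par k) nu
        else 0) := by
    intro nu hnu
    split_ifs with h2
    · have h3 : S.mult f nu ≠ 0 := Finsupp.mem_support_iff.1 hnu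
      have h4 := hpos nu h2
      refine mul_nonneg ?_ (hsp nu (hsup nu h2 h3)).le
      exact_mod_cast h4
    · exact le_rfl
  have hMs : M ∈ ((chr f) * S.Delta).coeff.support := by
    rw [Finsupp.mem_support_iff]
    intro h
    have h2 : S.mult f M = 0 := h
    rw [h1] at h2
    exact one_ne_zero h2
  have hms : mu ∈ ((chr f) * S.Delta).coeff.support := Finsupp.mem_support_iff.2 hc
  unfold GD.qdimR at hq'
  rw [Finsupp.sum, ← add_sum_erase _ _ hMs] at hq'
  have h2 := single_le_sum (fun nu hnu => hnn nu (mem_of_mem_erase hnu))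
    (mem_erase.2 ⟨hne, hms⟩)
  have h3 : (if ∀ i, 0 ≤ M i then (((chr f) * S.Delta).coeff M : ℝ) * S.qdR (S.par k) M
        else 0) = S.qdR (S.par k) M := by
    rw [if_pos hM]
    have h4 : ((chr f) * S.Delta).coeff M = 1 := h1
    rw [h4, Int.cast_one, one_mul]
  rw [h3] at hq'
  rw [if_pos hmu] at h2
  have h5 : 0 < (((chr f) * S.Delta).coeff mu : ℝ) * S.qdR (S.par k) mu := by
    refine mul_pos ?_ (hsp mu (hsup mu hmu hc))
    have h6 : 0 < S.mult f mu := lt_of_le_of_ne (hpos mu hmu) (Ne.symm hc)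
    exact_mod_cast h6
  linarith

theorem dot_sub (a x y : Fin n → ℤ) : dot a (x - y) = dot a x - dot a y := by
  unfold dot
  rw [← Finset.sum_sub_distrib]
  exact Finset.sum_congr rfl fun i _ => by rw [Pi.sub_apply]; ring

theorem dot_sum (a : Fin n → ℤ) (g : Fin n → ℤ) (v : Fin n → Fin n → ℤ) :
    dot a (∑ j, g j • v j) = ∑ j, g j * dot a (v j) := by
  unfold dot
  have h1 : ∀ i, a i * (∑ j, g j • v j) i = ∑ j, g j * (a i * v j i) := by
    intro i
    rw [Finset.sum_apply, Finset.mul_sum]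
    exact Finset.sum_congr rfl fun j _ => by rw [Pi.smul_apply, smul_eq_mul]; ring
  rw [Finset.sum_congr rfl fun i _ => h1 i, Finset.sum_comm]
  exact Finset.sum_congr rfl fun j _ => by rw [Finset.mul_sum]

theorem dot_om (a : Fin n → ℤ) (i : Fin n) (m : ℤ) : dot a (m • om i) = m * a i := by
  unfold dot om
  rw [Finset.sum_eq_single i]
  · rw [Pi.smul_apply, if_pos rfl, smul_eq_mul]; ring
  · intro j _ hj
    rw [Pi.smul_apply, if_neg hj, smul_eq_mul]; ring
  · intro h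
    exact absurd (Finset.mem_univ i) h

theorem dot_om' (x : Fin n → ℤ) (i : Fin n) : dot (om i) x = x i := by
  unfold dot om
  rw [Finset.sum_eq_single i]
  · rw [if_pos rfl, one_mul]
  · intro j _ hj
    rw [if_neg hj, zero_mul]
  · intro h
    exact absurd (Finset.mem_univ i) h

theorem th_le (hS : S.OKs) (i : Fin n) (m : ℤ) (g : Fin n → ℕ) :
    dot S.th (m • om i - ∑ j, (g j : ℤ) • S.rtw j) ≤ m * S.th i := by
  have hthr : ∀ j, 0 ≤ dot S.th (S.rtw j) := by
    intro j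
    have h1 := (hS.pairs S.th (om j) hS.th_cor.1 (Cor.simple j)).1
    rw [(hS.om j).1, (hS.om j).2, hS.th_cor.2, one_mul, dot_om'] at h1
    have h2 := hS.th_dom j
    have h3 := hS.t_pos j
    by_contra h4
    push Not at h4
    nlinarith
  rw [dot_sub, dot_om, dot_sum]
  have h2 : 0 ≤ ∑ j, (g j : ℤ) * dot S.th (S.rtw j) :=
    Finset.sum_nonneg fun j _ => mul_nonneg (Int.natCast_nonneg _) (hthr j)
  linarith

end qd

/-! ### neighbours -/

section nbr

variable {n : ℕ} (S : GD n)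

theorem nbr_term (hS : S.OKs) (hT2 : S.T2) (q : Fin n → ℕ → ℝ) (h0 : ∀ l, q l 0 = 1)
    (h2 : ∀ l, S.t l = 1 → q l 2 = 1) (j : Fin n) (hj : S.t j = 2) (m : ℕ) (hm : m = 1 ∨ m = 3)
    (l : Fin n) : ∏ c ∈ range (-(S.C j l)).toNat,
      q l (((-(S.C l j)).toNat * m + c) / (-(S.C j l)).toNat) =
    (if S.t l = 1 ∧ S.C j l = -2 then q l 1 else 1) *
      (if S.t l = 2 then q l m ^ (-(S.C j l)).toNat else 1) := by
  rcases hT2.t2 l with ht | ht
  · rw [if_neg (show ¬ S.t l = 2 by omega), mul_one]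
    rcases hT2.sl j l hj ht with ⟨h3, h4⟩ | ⟨h3, h4⟩
    · rw [h3, if_neg (by omega)]
      simp
    · rw [h3, h4, if_pos ⟨ht, rfl⟩]
      have e1 : (-(-2 : ℤ)).toNat = 2 := rfl
      have e2 : (-(-1 : ℤ)).toNat = 1 := rfl
      rw [e1, e2, prod_range_succ, prod_range_succ, prod_range_zero, one_mul]
      rcases hm with rfl | rfl
      · have e3 : (1 * 1 + 0) / 2 = 0 := rfl
        have e4 : (1 * 1 + 1) / 2 = 1 := rfl
        rw [e3, e4, h0, one_mul]
      · have e3 : (1 * 3 + 0) / 2 = 1 := rfl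
        have e4 : (1 * 3 + 1) / 2 = 2 := rfl
        rw [e3, e4, h2 l ht, mul_one]
  · rw [if_neg (show ¬ (S.t l = 1 ∧ S.C j l = -2) by omega), one_mul, if_pos ht]
    by_cases hlj : l = j
    · subst hlj
      rw [hS.diag]
      have e1 : (-(2 : ℤ)).toNat = 0 := rfl
      rw [e1, range_zero, prod_empty, pow_zero]
    · rcases hT2.ss j l hj ht (Ne.symm hlj) with h3 | h3
      · rw [h3]
        simp
      · have h4 : S.C l j = -1 := by
          have h5 := hS.symm j l
          rw [hj, ht, h3] at h5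
          omega
        rw [h3, h4]
        have e2 : (-(-1 : ℤ)).toNat = 1 := rfl
        rw [e2, prod_range_one, pow_one]
        congr 1
        omega

end nbr

theorem main : GD.J_mem → GD.J_sin → GD.J_F → GD.J_low → GD.J_kr → GD.J_lvq → GD.J_qk →
    GD.J_mz → GD.J_num → GD.J_t1 → GD.J_base := by
  classical
  intro hmem hsin hF hlow hkr hlvq hqk hmz hnum ht1 n S hS hT2 D hD hdem Q hQ i hti hthi hTT _
  obtain ⟨-, hT1, -, -, -, -, -⟩ := hF n S hS D hD hdem
  obtain ⟨-, hm2, hm3⟩ := hmem n S hS D hD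
  obtain ⟨-, -, hspos, -, -⟩ := hsin n S hS
  obtain ⟨hk1, hk2, -⟩ := hkr n S hS D hD hdem Q hQ
  obtain ⟨⟨e, he⟩, -, hqpos⟩ := hqk n S hS 2 (by norm_num)
  have hte0 : ∀ (j : Fin n) (m : ℕ), ∃ f : S.RepR, push aw0 (chr f) = S.T D j m :=
    fun j m => hm2 _ (hT1 j m)
  choose te hte using hte0
  have hL := fun j => hlvq n S hS D hD hdem j (fun m => Q j ((S.t j).toNat * m)) (te j)
    (hk1 j) (hte j) 2 (by norm_num)
  simp only [← he] at hL hqpos
  have hz : ∀ j, e (Q j 0) = 1 := fun j => by rw [hQ.zero, map_one]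
  have tn2 : (2 : ℤ).toNat = 2 := rfl
  have tn1 : (1 : ℤ).toNat = 1 := rfl
  -- short nodes
  have hs2 : ∀ j, S.t j = 2 → 0 < e (Q j 2) := by
    intro j hj
    have h := (hL j).1 1 (by norm_num)
    rw [hj, tn2] at h
    exact h
  have hs4 : ∀ j, S.t j = 2 → e (Q j 4) = 1 := by
    intro j hj
    have h := (hL j).2.1
    rw [hj, tn2] at h
    exact h
  have hl1 : ∀ l, S.t l = 1 → 0 < e (Q l 1) := by
    intro j hj
    have h := (hL j).1 1 (by norm_num)
    rw [hj, tn1] at h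
    exact h
  have hl2 : ∀ l, S.t l = 1 → e (Q l 2) = 1 := by
    intro j hj
    have h := (hL j).2.1
    rw [hj, tn1] at h
    exact h
  have hx : ∀ j, S.t j = 2 → 0 < e (Q j 1) := by
    intro j hj
    refine hqpos Q hQ j 1 ?_
    have := hT2.th2 j hj
    push_cast
    omega
  -- neighbours
  obtain ⟨B, hB⟩ : ∃ B : {j // S.t j = 2} → ℝ, B = fun j =>
    ∏ l, (if S.t l = 1 ∧ S.C j.1 l = -2 then e (Q l 1) else 1) := ⟨_, rfl⟩
  have hB0 : ∀ j, 0 ≤ B j := by
    intro j
    rw [hB]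
    refine prod_nonneg fun l _ => ?_
    split_ifs with h
    · exact (hl1 l h.1).le
    · exact zero_le_one
  have hqnb : ∀ (j : {j // S.t j = 2}) (m : ℕ), m = 1 ∨ m = 3 → e (S.qnb Q j.1 m) =
      B j * ∏ s : {j // S.t j = 2}, e (Q s.1 m) ^ (-(S.C j.1 s.1)).toNat := by
    intro j m hm
    unfold GD.qnb
    rw [map_prod]
    have h1 : ∀ l ∈ (univ : Finset (Fin n)), e (∏ c ∈ range (-(S.C j.1 l)).toNat,
        Q l (((-(S.C l j.1)).toNat * m + c) / (-(S.C j.1 l)).toNat)) =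
        (if S.t l = 1 ∧ S.C j.1 l = -2 then e (Q l 1) else 1) *
        (if S.t l = 2 then e (Q l m) ^ (-(S.C j.1 l)).toNat else 1) := by
      intro l _
      rw [map_prod]
      exact nbr_term S hS hT2 (fun l m => e (Q l m)) hz hl2 j.1 j.2 m hm l
    rw [prod_congr rfl h1, prod_mul_distrib, hB]
    congr 1
    rw [← prod_filter]
    exact prod_subtype _ (fun x => by simp) _
  have hq1 : ∀ j : {j // S.t j = 2}, e (Q j.1 1) ^ 2 = e (Q j.1 2) +
      B j * ∏ s : {j // S.t j = 2}, e (Q s.1 1) ^ (-(S.C j.1 s.1)).toNat := by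
    intro j
    rw [← hqnb j 1 (Or.inl rfl)]
    have h1 := congrArg e (hQ.qsys j.1 0)
    rw [map_mul, map_add, map_mul, hz, mul_one] at h1
    rw [sq]
    exact h1
  have hq3 : ∀ j : {j // S.t j = 2}, e (Q j.1 3) ^ 2 = e (Q j.1 2) +
      B j * ∏ s : {j // S.t j = 2}, e (Q s.1 3) ^ (-(S.C j.1 s.1)).toNat := by
    intro j
    rw [← hqnb j 3 (Or.inr rfl)]
    have h1 := congrArg e (hQ.qsys j.1 2)
    rw [map_mul, map_add, map_mul] at h1
    have h2 : e (Q j.1 (2 + 2)) = 1 := hs4 j.1 j.2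
    rw [h2, one_mul] at h1
    rw [sq]
    exact h1
  -- index 2
  have hpsi : ∀ j, S.t j = 2 → push aw0 (chr (Q j 3 * Q j 1)) = S.F D j 1 ^ 2 - S.nb D j 1 := by
    intro j hj
    have h1 := congrArg (psi S) (hQ.qsys j 1)
    rw [map_mul, map_add, psi_eq, psi_eq S (S.qnb Q j (1 + 1))] at h1
    have h2 := hk1 j 1
    have h3 := hk2 j 1
    rw [hj, tn2] at h2 h3
    have h2' : push aw0 (chr (Q j (1 + 1))) = S.F D j 1 := h2
    have h3' : push aw0 (chr (S.qnb Q j (1 + 1))) = S.nb D j 1 := h3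
    rw [h2', h3'] at h1
    rw [← psi_eq, sq, h1]
    exact (add_sub_cancel_right _ _).symm
  have hq2 : ∀ j, S.t j = 2 → e (Q j 3) * e (Q j 1) = e (te j 1) ^ 2 := by
    intro j hj
    have h1 := (hL j).2.2.2.1 1 (by norm_num) (Q j 3 * Q j 1) (hpsi j hj)
    rw [map_mul] at h1
    rw [h1, sq]
  have hy0 : ∀ j, S.t j = 2 → 0 ≤ e (Q j 3) := by
    intro j hj
    have h1 := hq2 j hj
    have h2 := hx j hj
    by_contra h3
    push Not at h3
    have h4 := mul_neg_of_neg_of_pos h3 h2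
    have h5 := sq_nonneg (e (te j 1))
    linarith
  have hy : ∀ j, S.t j = 2 → 0 < e (Q j 3) := by
    intro j hj
    have h1 := hq3 ⟨j, hj⟩
    have h2 : 0 ≤ B ⟨j, hj⟩ * ∏ s : {j // S.t j = 2}, e (Q s.1 3) ^ (-(S.C j s.1)).toNat :=
      mul_nonneg (hB0 _) (prod_nonneg fun s _ => pow_nonneg (hy0 s.1 s.2) _)
    have h3 := hs2 j hj
    refine lt_of_le_of_ne (hy0 j hj) fun h4 => ?_
    rw [← h4] at h1
    simp only at h1 h2
    nlinarith
  -- the sums of the exponents
  have hsum : ∀ j : {j // S.t j = 2},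
      ∑ s : {j // S.t j = 2}, (-(S.C j.1 s.1)).toNat ≤ 2 := by
    intro j
    have h1 := hT2.nb2 j.1 j.2
    have h2 : ((∑ s : {j // S.t j = 2}, (-(S.C j.1 s.1)).toNat : ℕ) : ℤ) =
        ∑ l, if S.t l = 2 ∧ l ≠ j.1 then -S.C j.1 l else 0 := by
      rw [Nat.cast_sum]
      have h3 : ∑ s : {j // S.t j = 2}, (((-(S.C j.1 s.1)).toNat : ℕ) : ℤ) =
          ∑ l ∈ univ.filter (fun l => S.t l = 2), (((-(S.C j.1 l)).toNat : ℕ) : ℤ) :=
        (sum_subtype (univ.filter (fun l => S.t l = 2)) (fun x => by simp)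
          (fun l => (((-(S.C j.1 l)).toNat : ℕ) : ℤ))).symm
      rw [h3, sum_filter]
      refine sum_congr rfl fun l _ => ?_
      by_cases h4 : S.t l = 2
      · by_cases h5 : l = j.1
        · rw [if_pos h4, if_neg (by tauto), h5, hS.diag]
          rfl
        · rw [if_pos h4, if_pos ⟨h4, h5⟩]
          have := hS.off j.1 l (Ne.symm h5)
          exact Int.toNat_of_nonneg (by omega)
      · rw [if_neg h4, if_neg (by tauto)]
    have h6 : ((∑ s : {j // S.t j = 2}, (-(S.C j.1 s.1)).toNat : ℕ) : ℤ) ≤ 2 := by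
      rw [h2]
      exact h1
    exact_mod_cast h6
  have hxy := hnum {j // S.t j = 2} (fun j => e (Q j.1 2)) B (fun j => e (Q j.1 1))
    (fun j => e (Q j.1 3)) (fun j s => (-(S.C j.1 s.1)).toNat) hsum (fun j => hs2 j.1 j.2) hB0
    (fun j => hx j.1 j.2) (fun j => hy j.1 j.2) hq1 hq3
  have hxi : e (Q i 1) = e (Q i 3) := congrFun hxy ⟨i, hti⟩
  have hTe : e (te i 1) = e (Q i 1) := by
    have h1 := hq2 i hti
    rw [← hxi, ← sq] at h1
    have h2 := (hL i).2.2.1 1 (by norm_num)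
    exact ((pow_left_inj₀ (hx i hti).le h2 two_ne_zero).1 h1).symm
  -- supports
  have hlT : ∀ m : ℕ, Lw S (chr (te i m)) ((S.t i * m - 1) • om i) := by
    intro m x hx0
    have h1 : (S.T D i m).coeff (aw 0 x) ≠ 0 := by
      rw [← hte i m]
      have h2 := push_coeff aw0 aw0_inj (chr (te i m)) x
      have h3 : (aw0 x : Option (Fin n) → ℤ) = aw 0 x := rfl
      rw [h3] at h2
      rw [h2]
      exact hx0
    obtain ⟨g, hg⟩ := hlow n S hS D hD hdem i m x h1
    exact ⟨fun j => (g j : ℤ), fun j => Int.natCast_nonneg _, hg⟩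
  have hlQ : ∀ m : ℕ, Lw S (chr (Q i m)) ((m : ℤ) • om i) := by
    intro m
    refine lowB S hS _ (chr_mem S _) _ fun mu hmu hne => ?_
    obtain ⟨g, hg⟩ := hQ.low i m mu hmu hne
    exact ⟨fun j => (g j : ℤ), fun j => Int.natCast_nonneg _, hg⟩
  have hcQ : ∀ m : ℕ, (chr (Q i m)).coeff ((m : ℤ) • om i) = 1 := by
    intro m
    rw [← topB S hS _ _ (hlQ m)]
    exact hQ.top i m
  have hprod : chr (Q i 3) * chr (Q i 1) = chr (te i 1) * chr (te i 2) := by
    have h1 : psi S (Q i 3 * Q i 1) = psi S (te i 1 * te i 2) := by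
      rw [psi_eq, hpsi i hti, hTT 1, map_mul, psi_eq, psi_eq, hte, hte]
    have h2 := hm3 _ _ h1
    have h3 : chrH S (Q i 3 * Q i 1) = chrH S (te i 1 * te i 2) := h2
    rw [map_mul, map_mul] at h3
    exact h3
  have e1 : ((S.t i * (1 : ℕ) - 1) • om i : Fin n → ℤ) = om i := by
    rw [hti]
    have : ((2 : ℤ) * ((1 : ℕ) : ℤ) - 1) = 1 := by norm_num
    rw [this, one_smul]
  have e2 : ((S.t i * (2 : ℕ) - 1) • om i : Fin n → ℤ) = (3 : ℤ) • om i := by
    rw [hti]
    have : ((2 : ℤ) * ((2 : ℕ) : ℤ) - 1) = 3 := by norm_num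
    rw [this]
  have e3 : (((1 : ℕ) : ℤ) • om i : Fin n → ℤ) = om i := by
    rw [Nat.cast_one, one_smul]
  have hl1' := hlT 1
  have hl2' := hlT 2
  rw [e1] at hl1'
  rw [e2] at hl2'
  have hab : (chr (te i 1)).coeff (om i) * (chr (te i 2)).coeff ((3 : ℤ) • om i) = 1 := by
    rw [← mulB S hS _ _ _ _ hl1' hl2', ← hprod]
    have h1 := mulB S hS _ _ _ _ (hlQ 3) (hlQ 1)
    rw [hcQ, hcQ, mul_one] at h1
    rw [← h1]
    congr 1
    rw [e3, add_comm]
    rfl
  have hcT : S.mult (te i 1) (om i) = (chr (te i 1)).coeff (om i) := topB S hS _ _ hl1'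
  have hom : ∀ j, 0 ≤ (om i : Fin n → ℤ) j := by
    intro j
    unfold om
    split_ifs <;> norm_num
  have hone : S.mult (te i 1) (om i) = 1 := by
    have h1 := (ht1 n S hS D hD hdem i 1 (te i 1) (hte i 1) (om i) hom).1
    rw [← hcT] at hab
    rcases Int.eq_one_or_neg_one_of_mul_eq_one hab with h2 | h2
    · exact h2
    · omega
  -- the multiplicities
  have hQ1 : ∀ mu, (∀ j, 0 ≤ mu j) → mu ≠ om i → S.mult (Q i 1) mu = 0 :=
    hQ.fund i (by omega) hthi
  have hQt : S.mult (Q i 1) (om i) = 1 := by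
    have h1 := hQ.top i 1
    rw [e3] at h1
    exact h1
  have hT0 := qd_unique S 2 (hspos 2) (te i 1)
    (fun mu hmu => (ht1 n S hS D hD hdem i 1 (te i 1) (hte i 1) mu hmu).1)
    (fun mu hmu hne => by
      obtain ⟨g, hg⟩ := (ht1 n S hS D hD hdem i 1 (te i 1) (hte i 1) mu hmu).2 hne
      refine ⟨hmu, ?_⟩
      rw [hg]
      refine (th_le S hS i _ g).trans ?_
      rw [hti, hthi]
      norm_num)
    (om i) hom hone (by
      rw [← qd_single S 2 (Q i 1) (om i) hom hQt hQ1, ← he, ← he]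
      exact hTe)
  have hfin : te i 1 - Q i 1 = 0 := by
    refine hmz n S hS _ fun mu hmu => ?_
    rw [mult_sub]
    by_cases h1 : mu = om i
    · rw [h1, hone, hQt, sub_self]
    · rw [hT0 mu hmu h1, hQ1 mu hmu h1, sub_self]
  rw [← sub_eq_zero.1 hfin]
  exact hte i 1

end H391.KR.P_jbase
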