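import Pool.Agent.H391.KR.JV

/-!
# The quantum dimension is the value of the character at a point (H391/KR, J_ev)
-/

noncomputable section

namespace H391.KR.P_jev

open Finset

/-- exponential -/
def E (y : ℝ) : ℂ := Complex.exp (Complex.I * ((y : ℝ) : ℂ))

lemma E_zero : E 0 = 1 := by
  unfold E
  rw [Complex.ofReal_zero, mul_zero, Complex.exp_zero]

lemma E_add (x y : ℝ) : E (x + y) = E x * E y := by
  unfold E
  rw [← Complex.exp_add, Complex.ofReal_add, mul_add]

lemma E_sum {α : Type} (A : Finset α) (f : α → ℝ) : E (∑ a ∈ A, f a) = ∏ a ∈ A, E (f a) := by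
  classical
  induction A using Finset.induction_on with
  | empty => rw [sum_empty, prod_empty, E_zero]
  | insert a A ha ih => rw [sum_insert ha, prod_insert ha, E_add, ih]

lemma two_sin (y : ℝ) : 2 * Complex.I * ((Real.sin y : ℝ) : ℂ) = E y * (1 - E (-(2 * y))) := by
  rw [mul_sub, mul_one, ← E_add]
  have e1 : y + -(2 * y) = -y := by ring
  rw [e1, Complex.ofReal_sin, Complex.sin]
  unfold E
  have e2 : -(y : ℂ) * Complex.I = Complex.I * ((-y : ℝ) : ℂ) := by push_cast; ring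
  have e3 : (y : ℂ) * Complex.I = Complex.I * ((y : ℝ) : ℂ) := by ring
  rw [e2, e3]
  linear_combination (Complex.exp (Complex.I * ((-y : ℝ) : ℂ)) -
    Complex.exp (Complex.I * ((y : ℝ) : ℂ))) * Complex.I_sq

variable {n : ℕ}

lemma dot_add (a mu nu : Fin n → ℤ) : dot a (mu + nu) = dot a mu + dot a nu := by
  unfold dot
  rw [← sum_add_distrib]
  exact sum_congr rfl fun i _ => by rw [Pi.add_apply]; ring

lemma dot_sub_smul (a mu nu : Fin n → ℤ) (c : ℤ) :
    dot a (mu - c • nu) = dot a mu - c * dot a nu := by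
  unfold dot
  rw [mul_sum, ← sum_sub_distrib]
  exact sum_congr rfl fun i _ => by rw [Pi.sub_apply, Pi.smul_apply, smul_eq_mul]; ring

lemma sub_smul_dot (a b mu : Fin n → ℤ) (c : ℤ) :
    dot (a - c • b) mu = dot a mu - c * dot b mu := by
  unfold dot
  rw [mul_sum, ← sum_sub_distrib]
  exact sum_congr rfl fun i _ => by rw [Pi.sub_apply, Pi.smul_apply, smul_eq_mul]; ring

lemma dot_om (j : Fin n) (mu : Fin n → ℤ) : dot (om j) mu = mu j := by
  unfold dot om
  simp

variable (S : GD n)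

/-- pairing of a vector of the root lattice and a weight -/
def Bf (g nu : Fin n → ℤ) : ℝ := ∑ j, (g j : ℝ) * (nu j : ℝ) / (S.t j : ℝ)

lemma Bf_zero (nu : Fin n → ℤ) : Bf S 0 nu = 0 := by
  unfold Bf
  simp

lemma Bf_add (g h nu : Fin n → ℤ) : Bf S (g + h) nu = Bf S g nu + Bf S h nu := by
  unfold Bf
  rw [← sum_add_distrib]
  refine sum_congr rfl fun j _ => ?_
  rw [Pi.add_apply]
  push_cast
  ring

lemma Bf_neg (g nu : Fin n → ℤ) : Bf S (-g) nu = - Bf S g nu := by
  unfold Bf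
  rw [← sum_neg_distrib]
  refine sum_congr rfl fun j _ => ?_
  rw [Pi.neg_apply]
  push_cast
  ring

lemma Bf_add' (g mu nu : Fin n → ℤ) : Bf S g (mu + nu) = Bf S g mu + Bf S g nu := by
  unfold Bf
  rw [← sum_add_distrib]
  refine sum_congr rfl fun j _ => ?_
  rw [Pi.add_apply]
  push_cast
  ring

lemma Bf_sub_om (g nu : Fin n → ℤ) (c : ℤ) (j : Fin n) :
    Bf S (g - c • om j) nu = Bf S g nu - c * (nu j : ℝ) / (S.t j : ℝ) := by
  unfold Bf
  have h1 : ∑ i, ((c : ℝ) * (if i = j then 1 else 0) * (nu i : ℝ) / (S.t i : ℝ)) =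
      c * (nu j : ℝ) / (S.t j : ℝ) := by
    rw [sum_eq_single j]
    · rw [if_pos rfl, mul_one]
    · intro i _ hi
      rw [if_neg hi]
      ring
    · intro h
      exact absurd (mem_univ j) h
  rw [← h1, ← sum_sub_distrib]
  refine sum_congr rfl fun i _ => ?_
  rw [Pi.sub_apply, Pi.smul_apply, smul_eq_mul]
  unfold om
  split_ifs
  · push_cast
    ring
  · push_cast
    ring

lemma Bf_sub_smul (g mu nu : Fin n → ℤ) (c : ℤ) :
    Bf S g (mu - c • nu) = Bf S g mu - c * Bf S g nu := by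
  unfold Bf
  rw [mul_sum, ← sum_sub_distrib]
  refine sum_congr rfl fun j _ => ?_
  rw [Pi.sub_apply, Pi.smul_apply, smul_eq_mul]
  push_cast
  ring

/-- the root lattice -/
def phi : (Fin n → ℤ) →+ (Fin n → ℤ) where
  toFun g := ∑ j, g j • S.rtw j
  map_zero' := by simp
  map_add' := by
    intro x y
    simp only [Pi.add_apply, add_smul, sum_add_distrib]

lemma phi_inj (hS : S.OKs) : Function.Injective (phi S) := by
  rw [injective_iff_map_eq_zero]
  exact fun g hg => hS.nd' g hg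

lemma phi_apply (g : Fin n → ℤ) (j : Fin n) : phi S g j = ∑ k, g k * S.C j k := by
  change (∑ k, g k • S.rtw k) j = _
  rw [Finset.sum_apply]
  rfl

lemma phi_om (j : Fin n) : phi S (om j) = S.rtw j := by
  change ∑ k, (om j) k • S.rtw k = _
  rw [sum_eq_single j]
  · unfold om
    rw [if_pos rfl, one_smul]
  · intro i _ hi
    unfold om
    rw [if_neg hi, zero_smul]
  · intro h
    exact absurd (mem_univ j) h

lemma Bf_rtw (hS : S.OKs) (g : Fin n → ℤ) (j : Fin n) :
    Bf S g (S.rtw j) = (phi S g j : ℝ) / (S.t j : ℝ) := by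
  rw [phi_apply]
  unfold Bf
  push_cast
  rw [sum_div]
  refine sum_congr rfl fun k _ => ?_
  have h1 : ((S.t j : ℤ) : ℝ) ≠ 0 := by
    have := hS.t_pos j
    have h : S.t j ≠ 0 := by omega
    exact_mod_cast h
  have h2 : ((S.t k : ℤ) : ℝ) ≠ 0 := by
    have := hS.t_pos k
    have h : S.t k ≠ 0 := by omega
    exact_mod_cast h
  have h3 : ((S.t j : ℤ) : ℝ) * (S.C k j : ℤ) = (S.t k : ℤ) * (S.C j k : ℤ) := by
    exact_mod_cast hS.symm j k
  change (g k : ℝ) * ((S.C k j : ℤ) : ℝ) / (S.t k : ℝ) = _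
  rw [div_eq_div_iff h2 h1]
  linear_combination (g k : ℝ) * h3

/-- coordinates of a root -/
def gv (a : Fin n → ℤ) : Fin n → ℤ := fun j => S.t j * a j / S.tt a

lemma gv_spec (hS : S.OKs) {a : Fin n → ℤ} (ha : S.Cor a) : phi S (gv S a) = S.rt a ∧
    ∀ nu, Bf S (gv S a) nu = ((dot a nu : ℤ) : ℝ) / ((S.tt a : ℤ) : ℝ) := by
  obtain ⟨g, hg1, hg2⟩ := hS.rtc a ha
  have htt := hS.tt_pos a ha
  have e : gv S a = g := by
    funext j
    unfold gv
    rw [← hg2 j]
    exact Int.mul_ediv_cancel_left _ (by omega)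
  rw [e]
  refine ⟨hg1.symm, fun nu => ?_⟩
  have h0 : ((S.tt a : ℤ) : ℝ) ≠ 0 := by
    have h : S.tt a ≠ 0 := by omega
    exact_mod_cast h
  unfold Bf dot
  push_cast
  rw [sum_div]
  refine sum_congr rfl fun j _ => ?_
  have ht : ((S.t j : ℤ) : ℝ) ≠ 0 := by
    have := hS.t_pos j
    have h : S.t j ≠ 0 := by omega
    exact_mod_cast h
  have h1 : ((S.tt a : ℤ) : ℝ) * (g j : ℤ) = (S.t j : ℤ) * (a j : ℤ) := by exact_mod_cast hg2 j
  rw [div_eq_div_iff ht h0]
  linear_combination (nu j : ℝ) * h1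

lemma posFin (hS : S.OKs) : S.pos.Finite := hS.fin.subset fun _ ha => ha.1

/-- the positive coroots -/
def A (hS : S.OKs) : Finset (Fin n → ℤ) := (posFin S hS).toFinset

lemma mem_A (hS : S.OKs) {a : Fin n → ℤ} : a ∈ A S hS ↔ a ∈ S.pos := Set.Finite.mem_toFinset _

lemma cc_eq (hS : S.OKs) (mu : Fin n → ℤ) :
    S.cc mu = ∑ a ∈ A S hS, ((dot a mu : ℤ) : ℝ) / ((S.tt a : ℤ) : ℝ) :=
  finsum_mem_eq_finite_toFinset_sum _ (posFin S hS)

lemma Delta_eq (hS : S.OKs) : S.Delta = ∏ a ∈ A S hS, (1 - ex (-(S.rt a))) :=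
  finprod_mem_eq_finite_toFinset_prod _ (posFin S hS)

lemma cc_add (hS : S.OKs) (mu nu : Fin n → ℤ) : S.cc (mu + nu) = S.cc mu + S.cc nu := by
  rw [cc_eq S hS, cc_eq S hS, cc_eq S hS, ← sum_add_distrib]
  refine sum_congr rfl fun a _ => ?_
  rw [dot_add]
  push_cast
  ring

/-- the value at the reflected weight -/
lemma cc_refl (hS : S.OKs) (j : Fin n) (nu : Fin n → ℤ) :
    S.cc (nu - nu j • S.rtw j) = S.cc nu - 2 * (nu j : ℝ) / (S.t j : ℝ) := by
  classical
  have hom : om j ∈ A S hS := by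
    rw [mem_A]
    refine ⟨GD.Cor.simple j, fun i => ?_⟩
    unfold om
    split_ifs <;> norm_num
  obtain ⟨ht1, hr1⟩ := hS.om j
  have hdj : dot (om j) (S.rtw j) = 2 := by
    rw [dot_om]
    exact hS.diag j
  rw [cc_eq S hS, cc_eq S hS, ← add_sum_erase _ _ hom, ← add_sum_erase _ _ hom]
  have hrest : ∑ a ∈ (A S hS).erase (om j),
      ((dot a (nu - nu j • S.rtw j) : ℤ) : ℝ) / ((S.tt a : ℤ) : ℝ) =
      ∑ a ∈ (A S hS).erase (om j), ((dot a nu : ℤ) : ℝ) / ((S.tt a : ℤ) : ℝ) := by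
    have hmem : ∀ a ∈ (A S hS).erase (om j),
        a - dot a (S.rtw j) • om j ∈ (A S hS).erase (om j) := by
      intro a ha
      rw [mem_erase, mem_A] at ha
      obtain ⟨hne, hc, hp⟩ := ha
      obtain ⟨k, hkj, hk0⟩ : ∃ k, k ≠ j ∧ a k ≠ 0 := by
        by_contra hcon
        push Not at hcon
        rcases hS.prop a hc j hcon with h | h
        · exact hne h
        · have h1 := hp j
          rw [h, Pi.neg_apply] at h1
          unfold om at h1
          rw [if_pos rfl] at h1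
          omega
      have hkp : 0 < a k := lt_of_le_of_ne (hp k) (Ne.symm hk0)
      have hval : (a - dot a (S.rtw j) • om j) k = a k := by
        rw [Pi.sub_apply, Pi.smul_apply]
        unfold om
        rw [if_neg hkj, smul_zero, sub_zero]
      have hc' := GD.Cor.refl a j hc
      rw [mem_erase, mem_A]
      refine ⟨?_, hc', ?_⟩
      · intro h
        rw [h] at hval
        unfold om at hval
        rw [if_neg hkj] at hval
        omega
      · rcases (hS.sgn _ hc').2 with h | h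
        · exact h
        · have := h k
          omega
    have hinv : ∀ a : Fin n → ℤ, (a - dot a (S.rtw j) • om j) -
        dot (a - dot a (S.rtw j) • om j) (S.rtw j) • om j = a := by
      intro a
      rw [sub_smul_dot, hdj]
      have e : dot a (S.rtw j) - dot a (S.rtw j) * 2 = - dot a (S.rtw j) := by ring
      rw [e, neg_smul, sub_neg_eq_add, sub_add_cancel]
    refine sum_nbij' (fun a => a - dot a (S.rtw j) • om j) (fun a => a - dot a (S.rtw j) • om j)
      hmem hmem (fun a _ => hinv a) (fun a _ => hinv a) ?_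
    intro a ha
    rw [mem_erase, mem_A] at ha
    have h1 := (hS.refl (om j) a (GD.Cor.simple j) ha.2.1).2.1
    rw [hr1] at h1
    rw [h1, dot_sub_smul, sub_smul_dot, dot_om]
    congr 2
    ring
  rw [hrest, dot_om, dot_om, ht1]
  have e1 : (nu - nu j • S.rtw j) j = - nu j := by
    rw [Pi.sub_apply, Pi.smul_apply, smul_eq_mul]
    change nu j - nu j * S.C j j = _
    rw [hS.diag j]
    ring
  rw [e1]
  push_cast
  ring

/-- the denominator, in terms of the coordinates of the roots -/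
def Dt (hS : S.OKs) : GR (Fin n) := ∏ a ∈ A S hS, (1 - ex (-(gv S a)))

lemma push_ex (g : (Fin n → ℤ) →+ (Fin n → ℤ)) (x : Fin n → ℤ) : push g (ex x) = ex (g x) :=
  AddMonoidAlgebra.mapDomain_single

lemma push_Dt (hS : S.OKs) : push (phi S) (Dt S hS) = S.Delta := by
  rw [Delta_eq S hS, Dt, map_prod]
  refine prod_congr rfl fun a ha => ?_
  rw [map_sub, map_one, push_ex, map_neg, (gv_spec S hS ((mem_A S hS).1 ha).1).1]

lemma Delta_coeff (hS : S.OKs) (g : Fin n → ℤ) : S.Delta.coeff (phi S g) = (Dt S hS).coeff g := by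
  rw [← push_Dt S hS]
  exact Finsupp.mapDomain_apply (phi_inj S hS) (Dt S hS).coeff g

/-- a character of the root lattice -/
def chi (τ : ℝ) (lam : Fin n → ℤ) : Multiplicative (Fin n → ℤ) →* ℂ where
  toFun g := E (2 * τ * Bf S g.toAdd lam)
  map_one' := by
    change E (2 * τ * Bf S 0 lam) = 1
    rw [Bf_zero, mul_zero, E_zero]
  map_mul' := by
    intro x y
    change E (2 * τ * Bf S (x.toAdd + y.toAdd) lam) = _
    rw [Bf_add, mul_add, E_add]

lemma ev_Dt (hS : S.OKs) (τ : ℝ) (lam : Fin n → ℤ) :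
    (Dt S hS).coeff.sum (fun g c => (c : ℂ) * E (2 * τ * Bf S g lam)) =
      ∏ a ∈ A S hS, (1 - E (-(2 * (τ * ((dot a lam : ℤ) : ℝ) / ((S.tt a : ℤ) : ℝ))))) := by
  have h1 : (Dt S hS).coeff.sum (fun g c => (c : ℂ) * E (2 * τ * Bf S g lam)) =
      AddMonoidAlgebra.lift ℤ ℂ (Fin n → ℤ) (chi S τ lam) (Dt S hS) := by
    rw [AddMonoidAlgebra.lift_apply']
    rfl
  rw [h1, Dt, map_prod]
  refine prod_congr rfl fun a ha => ?_
  rw [map_sub, map_one]
  congr 1
  have h2 : AddMonoidAlgebra.lift ℤ ℂ (Fin n → ℤ) (chi S τ lam) (ex (-(gv S a))) =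
      E (2 * τ * Bf S (-(gv S a)) lam) := by
    unfold ex
    rw [AddMonoidAlgebra.lift_single, one_smul]
    rfl
  rw [h2, Bf_neg, (gv_spec S hS ((mem_A S hS).1 ha).1).2]
  congr 1
  ring

/-- product of the sines -/
def S0 (hS : S.OKs) (τ : ℝ) (lam : Fin n → ℤ) : ℝ :=
  ∏ a ∈ A S hS, Real.sin (τ * ((dot a lam : ℤ) : ℝ) / ((S.tt a : ℤ) : ℝ))

lemma S0_eq (hS : S.OKs) (τ : ℝ) (lam : Fin n → ℤ) :
    (2 * Complex.I) ^ (#(A S hS)) * ((S0 S hS τ lam : ℝ) : ℂ) = E (τ * S.cc lam) *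
      (Dt S hS).coeff.sum (fun g c => (c : ℂ) * E (2 * τ * Bf S g lam)) := by
  rw [ev_Dt, cc_eq S hS, mul_sum, E_sum, ← prod_mul_distrib, S0, Complex.ofReal_prod,
    ← prod_const, ← prod_mul_distrib]
  refine prod_congr rfl fun a _ => ?_
  rw [two_sin, mul_div_assoc]

lemma qdR_eq (hS : S.OKs) (τ : ℝ) (mu : Fin n → ℤ) :
    S.qdR τ mu = S0 S hS τ (mu + fun _ => 1) / S0 S hS τ (fun _ => 1) := by
  have h1 : S.qdR τ mu = ∏ a ∈ A S hS,
      (Real.sin (τ * (∑ i, a i * (mu i + 1) : ℤ) / (S.tt a : ℤ)) /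
        Real.sin (τ * (∑ i, a i : ℤ) / (S.tt a : ℤ))) :=
    finprod_mem_eq_finite_toFinset_prod _ (posFin S hS)
  rw [h1, prod_div_distrib]
  unfold S0
  congr 1
  refine prod_congr rfl fun a _ => ?_
  have e : dot a (fun _ => 1) = ∑ i, a i := by
    unfold dot
    exact sum_congr rfl fun i _ => mul_one _
  rw [e]

/-- invariance of sums over the weights of an invariant element -/
lemma inv_sum (f : S.Rep) (j : Fin n) (G : (Fin n → ℤ) → ℂ) :
    (f : GR (Fin n)).coeff.sum (fun nu c => (c : ℂ) * G (nu - nu j • S.rtw j)) =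
      (f : GR (Fin n)).coeff.sum (fun nu c => (c : ℂ) * G nu) := by
  have h1 : push (S.refl j) (f : GR (Fin n)) = (f : GR (Fin n)) := (Subring.mem_iInf.1 f.2) j
  have h4 : (push (S.refl j) (f : GR (Fin n))).coeff =
      Finsupp.mapDomain (S.refl j) (f : GR (Fin n)).coeff := rfl
  have h5 : (f : GR (Fin n)).coeff.sum (fun nu c => (c : ℂ) * G nu) =
      (Finsupp.mapDomain (S.refl j) (f : GR (Fin n)).coeff).sum (fun nu c => (c : ℂ) * G nu) := by
    rw [← h4, h1]
  rw [h5, Finsupp.sum_mapDomain_index]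
  · rfl
  · intro b
    rw [Int.cast_zero, zero_mul]
  · intro b m1 m2
    rw [Int.cast_add, add_mul]

/-- the sums with a twist -/
def Pg (τ : ℝ) (g : Fin n → ℤ) : Prop := ∀ f : S.Rep,
  (f : GR (Fin n)).coeff.sum (fun nu c => (c : ℂ) * E (τ * (S.cc nu + 2 * Bf S g nu))) =
    (f : GR (Fin n)).coeff.sum (fun nu c => (c : ℂ) * E (τ * S.cc nu))

lemma Pg_zero (τ : ℝ) : Pg S τ 0 := by
  intro f
  simp only [Bf_zero, mul_zero, add_zero]

lemma Pg_step (hS : S.OKs) (τ : ℝ) (g : Fin n → ℤ) (j : Fin n) (h : Pg S τ g) :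
    Pg S τ (g - (1 + phi S g j) • om j) := by
  intro f
  have key : ∀ nu : Fin n → ℤ, S.cc nu + 2 * Bf S (g - (1 + phi S g j) • om j) nu =
      S.cc (nu - nu j • S.rtw j) + 2 * Bf S g (nu - nu j • S.rtw j) := by
    intro nu
    rw [cc_refl S hS, Bf_sub_smul, Bf_rtw S hS, Bf_sub_om]
    push_cast
    ring
  simp only [key]
  rw [inv_sum S f j (fun nu => E (τ * (S.cc nu + 2 * Bf S g nu)))]
  exact h f

lemma word (hS : S.OKs) (τ : ℝ) (w : List (Fin n)) : ∃ g,
    w.foldl (fun y j => y - y j • S.rtw j) (fun _ => (1 : ℤ)) = phi S g + (fun _ => 1) ∧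
      Pg S τ g := by
  induction w using List.reverseRecOn with
  | nil =>
    refine ⟨0, ?_, Pg_zero S τ⟩
    rw [map_zero, zero_add]
    rfl
  | append_singleton w j ih =>
    obtain ⟨g, h1, h2⟩ := ih
    refine ⟨g - (1 + phi S g j) • om j, ?_, Pg_step S hS τ g j h2⟩
    rw [List.foldl_append, h1, map_sub, map_zsmul, phi_om]
    simp only [List.foldl_cons, List.foldl_nil]
    funext k
    simp only [Pi.add_apply, Pi.sub_apply, Pi.smul_apply, smul_eq_mul]
    ring

theorem main : GD.J_AB → GD.J_sin → GD.J_ev := by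
  intro hAB hsin n S hS τ hτ hτπ f
  classical
  obtain ⟨-, hAB2, hAB3, -⟩ := hAB n S hS
  obtain ⟨hs1, -, -, hs4, -⟩ := hsin n S hS
  have hq : S.qdimR τ (f : GR (Fin n)) = pairR (S.qdR τ) (f : GR (Fin n)) :=
    hAB2 f (S.qdR τ) (fun mu i => hs1 τ mu i)
  have hS1 : S0 S hS τ (fun _ => 1) ≠ 0 := by
    intro h
    have h1 := hs4 τ hτ hτπ
    rw [qdR_eq S hS, h, div_zero] at h1
    exact zero_ne_one h1
  obtain ⟨K, hK⟩ : ∃ K : ℂ, K = (2 * Complex.I) ^ (#(A S hS)) * ((S0 S hS τ fun _ => 1 : ℝ) : ℂ) :=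
    ⟨_, rfl⟩
  have hK0 : K ≠ 0 := by
    rw [hK]
    refine mul_ne_zero (pow_ne_zero _ (mul_ne_zero two_ne_zero Complex.I_ne_zero)) ?_
    exact_mod_cast hS1
  obtain ⟨V, hV⟩ : ∃ V : ℂ, V = (f : GR (Fin n)).coeff.sum
      (fun nu c => (c : ℂ) * E (τ * S.cc nu)) := ⟨_, rfl⟩
  -- the claim
  have hclaim : ∀ g, (Dt S hS).coeff g ≠ 0 → (f : GR (Fin n)).coeff.sum
      (fun nu c => (c : ℂ) * E (τ * (S.cc nu + 2 * Bf S g nu))) = V := by
    intro g hg
    rw [← Delta_coeff S hS] at hg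
    obtain ⟨w, hw⟩ := hAB3 _ hg
    obtain ⟨g', h1, h2⟩ := word S hS τ w
    have h3 : phi S g' = phi S g := by
      have h4 : phi S g' + (fun _ => (1 : ℤ)) = phi S g + fun _ => 1 := by rw [← h1, ← hw]
      exact add_right_cancel h4
    have h5 := phi_inj S hS h3
    rw [h5] at h2
    rw [hV]
    exact h2 f
  have hgoal : K * ((S.qdimR τ (f : GR (Fin n)) : ℝ) : ℂ) = K * V := by
    rw [hq]
    unfold pairR
    rw [Finsupp.sum, Complex.ofReal_sum, mul_sum]
    have e1 : ∀ mu ∈ (f : GR (Fin n)).coeff.support,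
        K * (((((f : GR (Fin n)).coeff mu : ℤ) : ℝ) * S.qdR τ mu : ℝ) : ℂ) =
        ∑ g ∈ (Dt S hS).coeff.support, (((Dt S hS).coeff g : ℤ) : ℂ) *
          (E (τ * S.cc fun _ => 1) * E (2 * τ * Bf S g fun _ => 1)) *
          ((((f : GR (Fin n)).coeff mu : ℤ) : ℂ) * E (τ * (S.cc mu + 2 * Bf S g mu))) := by
      intro mu _
      have h1 : (((S0 S hS τ fun _ => 1 : ℝ)) : ℂ) ≠ 0 := by exact_mod_cast hS1
      have h2 : K * ((S.qdR τ mu : ℝ) : ℂ) = E (τ * S.cc (mu + fun _ => 1)) *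
          (Dt S hS).coeff.sum (fun g c => (c : ℂ) * E (2 * τ * Bf S g (mu + fun _ => 1))) := by
        rw [← S0_eq, hK, qdR_eq S hS, Complex.ofReal_div]
        field_simp
      rw [Complex.ofReal_mul, mul_left_comm, h2, Finsupp.sum, mul_sum, mul_sum]
      refine sum_congr rfl fun g _ => ?_
      rw [cc_add S hS, Bf_add', mul_add, mul_add, mul_add, E_add, E_add, E_add]
      have e2 : τ * (2 * Bf S g mu) = 2 * τ * Bf S g mu := by ring
      rw [e2]
      push_cast
      ring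
    rw [sum_congr rfl e1, sum_comm]
    have e3 : ∀ g ∈ (Dt S hS).coeff.support,
        ∑ mu ∈ (f : GR (Fin n)).coeff.support, (((Dt S hS).coeff g : ℤ) : ℂ) *
          (E (τ * S.cc fun _ => 1) * E (2 * τ * Bf S g fun _ => 1)) *
          ((((f : GR (Fin n)).coeff mu : ℤ) : ℂ) * E (τ * (S.cc mu + 2 * Bf S g mu))) =
        (((Dt S hS).coeff g : ℤ) : ℂ) *
          (E (τ * S.cc fun _ => 1) * E (2 * τ * Bf S g fun _ => 1)) * V := by
      intro g hg
      rw [← mul_sum]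
      congr 1
      exact hclaim g (Finsupp.mem_support_iff.1 hg)
    rw [sum_congr rfl e3, hK, S0_eq, Finsupp.sum, mul_sum, sum_mul]
    refine sum_congr rfl fun g _ => ?_
    ring
  have hfin := mul_left_cancel₀ hK0 hgoal
  rw [hfin, hV]
  rfl

end H391.KR.P_jev
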