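import Pool.Agent.H391.KR.JC

/-!
# Root systems with two lengths: elementary facts (task KR-jgen1)
-/

noncomputable section

namespace H391.KR.P_jgen1

open Finset H391.KR

variable {n : ℕ} (S : GD n)

/-- values of the form at the basis vectors -/
def cv (b : Fin n → ℤ) : Fin n → ℤ := fun i => ∑ j, S.C i j * S.t j * b j

/-- the bilinear form -/
def bf (a b : Fin n → ℤ) : ℤ := dot a (cv S b)

lemma cv_add (a b : Fin n → ℤ) : cv S (a + b) = cv S a + cv S b := by
  funext i
  simp [cv, mul_add, sum_add_distrib]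

lemma cv_smul (c : ℤ) (a : Fin n → ℤ) : cv S (c • a) = c • cv S a := by
  funext i
  simp only [cv, Pi.smul_apply, smul_eq_mul, mul_sum]
  exact sum_congr rfl fun j _ => by ring

lemma dot_add_left (a b mu : Fin n → ℤ) : dot (a + b) mu = dot a mu + dot b mu := by
  simp [dot, add_mul, sum_add_distrib]

lemma dot_add_right (a mu nu : Fin n → ℤ) : dot a (mu + nu) = dot a mu + dot a nu := by
  simp [dot, mul_add, sum_add_distrib]

lemma dot_smul_left (c : ℤ) (a mu : Fin n → ℤ) : dot (c • a) mu = c * dot a mu := by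
  simp only [dot, Pi.smul_apply, smul_eq_mul, mul_sum]
  exact sum_congr rfl fun j _ => by ring

lemma dot_smul_right (c : ℤ) (a mu : Fin n → ℤ) : dot a (c • mu) = c * dot a mu := by
  simp only [dot, Pi.smul_apply, smul_eq_mul, mul_sum]
  exact sum_congr rfl fun j _ => by ring

lemma dot_neg_left (a mu : Fin n → ℤ) : dot (-a) mu = -dot a mu := by
  simp [dot]

lemma dot_sub_left (a b mu : Fin n → ℤ) : dot (a - b) mu = dot a mu - dot b mu := by
  rw [sub_eq_add_neg, dot_add_left, dot_neg_left, ← sub_eq_add_neg]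

lemma bf_eq (a b : Fin n → ℤ) : bf S a b = ∑ i, ∑ j, a i * S.C i j * S.t j * b j := by
  simp only [bf, dot, cv, mul_sum]
  exact sum_congr rfl fun i _ => sum_congr rfl fun j _ => by ring

lemma qf_eq (a : Fin n → ℤ) : S.qf a = bf S a a := (bf_eq S a a).symm

lemma bf_add_left (a b c : Fin n → ℤ) : bf S (a + b) c = bf S a c + bf S b c :=
  dot_add_left a b _

lemma bf_add_right (a b c : Fin n → ℤ) : bf S a (b + c) = bf S a b + bf S a c := by
  rw [bf, cv_add, dot_add_right]
  rfl

lemma bf_smul_left (c : ℤ) (a b : Fin n → ℤ) : bf S (c • a) b = c * bf S a b :=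
  dot_smul_left c a _

lemma bf_smul_right (c : ℤ) (a b : Fin n → ℤ) : bf S a (c • b) = c * bf S a b := by
  rw [bf, cv_smul, dot_smul_right]
  rfl

lemma bf_neg_left (a b : Fin n → ℤ) : bf S (-a) b = - bf S a b := by
  have h := bf_smul_left S (-1) a b
  rw [neg_smul, one_smul] at h
  rw [h]
  ring

lemma bf_neg_right (a b : Fin n → ℤ) : bf S a (-b) = - bf S a b := by
  have h := bf_smul_right S (-1) a b
  rw [neg_smul, one_smul] at h
  rw [h]
  ring

lemma bf_sub_left (a b c : Fin n → ℤ) : bf S (a - b) c = bf S a c - bf S b c := by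
  rw [sub_eq_add_neg, bf_add_left, bf_neg_left, ← sub_eq_add_neg]

lemma bf_sub_right (a b c : Fin n → ℤ) : bf S a (b - c) = bf S a b - bf S a c := by
  rw [sub_eq_add_neg, bf_add_right, bf_neg_right, ← sub_eq_add_neg]

lemma bf_zero (a : Fin n → ℤ) : bf S a 0 = 0 := by
  have h := bf_smul_right S 0 a 0
  rw [zero_smul, zero_mul] at h
  exact h

lemma bf_om (i : Fin n) (b : Fin n → ℤ) : bf S (om i) b = cv S b i := by
  simp only [bf, dot, om]
  rw [sum_eq_single i]
  · simp
  · intro j _ hj
    simp [hj]
  · intro h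
    exact absurd (mem_univ _) h

lemma cv_om (i j : Fin n) : cv S (om i) j = S.C j i * S.t i := by
  simp only [cv, om]
  rw [sum_eq_single i]
  · simp
  · intro k _ hk
    simp [hk]
  · intro h
    exact absurd (mem_univ _) h

lemma expand (a : Fin n → ℤ) : a = ∑ i, a i • om i := by
  funext j
  rw [Finset.sum_apply, sum_eq_single j]
  · simp [om]
  · intro k _ hk
    simp [om, hk.symm]
  · intro h
    exact absurd (mem_univ _) h

variable {S} (h : S.Pre)

include h in
lemma t_pos (i : Fin n) : 1 ≤ S.t i := by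
  rcases h.t12 i with h1 | h1 <;> omega

include h in
lemma bf_symm (a b : Fin n → ℤ) : bf S a b = bf S b a := by
  rw [bf_eq, bf_eq, sum_comm]
  refine sum_congr rfl fun i _ => sum_congr rfl fun j _ => ?_
  have := h.symm i j
  linear_combination (a j * b i) * this

include h in
lemma q_add (a b : Fin n → ℤ) :
    bf S (a + b) (a + b) = bf S a a + 2 * bf S a b + bf S b b := by
  rw [bf_add_left, bf_add_right, bf_add_right, bf_symm h b a]
  ring

include h in
lemma q_sub (a b : Fin n → ℤ) :
    bf S (a - b) (a - b) = bf S a a - 2 * bf S a b + bf S b b := by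
  rw [bf_sub_left, bf_sub_right, bf_sub_right, bf_symm h b a]
  ring

include h in
lemma q_om (i : Fin n) : bf S (om i) (om i) = 2 * S.t i := by
  rw [bf_om, cv_om, h.diag]

include h in
lemma q_smul_om (c : ℤ) (i : Fin n) : bf S (c • om i) (c • om i) = 2 * c ^ 2 * S.t i := by
  rw [bf_smul_left, bf_smul_right, q_om h]
  ring

include h in
/-- the value of the form in terms of the root coordinates -/
lemma bf_om_rtw (i : Fin n) (a : Fin n → ℤ) : bf S (om i) a = S.t i * dot a (S.rtw i) := by
  rw [bf_om]
  simp only [cv, dot, GD.rtw, mul_sum]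
  refine sum_congr rfl fun j _ => ?_
  have := h.symm i j
  linear_combination (-(a j)) * this

include h in
lemma even_q (a : Fin n → ℤ) : Even (bf S a a) := by
  rw [expand a]
  refine Finset.sum_induction (fun i => a i • om i) (fun b => Even (bf S b b)) ?_ ?_ ?_
  · intro b c hb hc
    rw [q_add h]
    exact (hb.add (even_two_mul _)).add hc
  · rw [bf_zero]
    exact Even.zero
  · intro i _
    rw [q_smul_om h]
    exact ⟨a i ^ 2 * S.t i, by ring⟩

include h in
lemma q_ge (a : Fin n → ℤ) (ha : a ≠ 0) : 2 ≤ bf S a a := by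
  have h1 := h.pd a ha
  rw [← bf_eq] at h1
  obtain ⟨k, hk⟩ := even_q h a
  omega

include h in
lemma q_nonneg (a : Fin n → ℤ) : 0 ≤ bf S a a := by
  by_cases h0 : a = 0
  · rw [h0, bf_zero]
  · have := q_ge h a h0
    omega

include h in
lemma eq_zero_of_q (a : Fin n → ℤ) (h0 : bf S a a ≤ 1) : a = 0 := by
  by_contra hne
  have := q_ge h a hne
  omega

/-- the lattice of the divisible vectors -/
def LL (S : GD n) (a : Fin n → ℤ) : Prop := ∀ i, 2 ∣ S.t i * a i

lemma even_cv {a : Fin n → ℤ} (ha : LL S a) (i : Fin n) : 2 ∣ cv S a i := by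
  refine dvd_sum fun j _ => ?_
  have := (ha j).mul_left (S.C i j)
  rwa [← mul_assoc] at this

lemma even_bf {a : Fin n → ℤ} (ha : LL S a) (b : Fin n → ℤ) : 2 ∣ bf S b a := by
  change 2 ∣ ∑ i, b i * cv S a i
  exact dvd_sum fun i _ => (even_cv ha i).mul_left (b i)

include h in
lemma four_q {a : Fin n → ℤ} (ha : LL S a) : 4 ∣ bf S a a := by
  have key : LL S (∑ i, a i • om i) ∧ 4 ∣ bf S (∑ i, a i • om i) (∑ i, a i • om i) := by
    refine Finset.sum_induction (fun i => a i • om i)
      (fun b => LL S b ∧ 4 ∣ bf S b b) ?_ ?_ ?_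
    · rintro b c ⟨hb, hb4⟩ ⟨hc, hc4⟩
      refine ⟨fun i => ?_, ?_⟩
      · rw [Pi.add_apply, mul_add]
        exact dvd_add (hb i) (hc i)
      · rw [q_add h]
        obtain ⟨k, hk⟩ := even_bf hc b
        rw [hk]
        omega
    · refine ⟨fun i => ?_, ?_⟩
      · rw [Pi.zero_apply, mul_zero]
        exact dvd_zero _
      · rw [bf_zero]
        exact dvd_zero _
    · intro i _
      refine ⟨fun j => ?_, ?_⟩
      · simp only [Pi.smul_apply, smul_eq_mul, om]
        by_cases hij : j = i
        · rw [if_pos hij, mul_one, hij]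
          exact ha i
        · rw [if_neg hij, mul_zero, mul_zero]
          exact dvd_zero _
      · rw [q_smul_om h]
        obtain ⟨k, hk⟩ := ha i
        refine ⟨a i * k, ?_⟩
        linear_combination (2 * a i) * hk
  rw [← expand a] at key
  exact key.2

include h in
lemma q_ge4 {a : Fin n → ℤ} (ha : LL S a) (h0 : a ≠ 0) : 4 ≤ bf S a a := by
  have h1 := q_ge h a h0
  obtain ⟨k, hk⟩ := four_q h ha
  omega

lemma Rr_iff (a : Fin n → ℤ) : S.Rr a ↔ bf S a a = 2 ∨ (bf S a a = 4 ∧ LL S a) := by
  unfold GD.Rr LL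
  rw [qf_eq]

lemma Rr_ne {a : Fin n → ℤ} (ha : S.Rr a) : a ≠ 0 := by
  rintro rfl
  rw [Rr_iff, bf_zero] at ha
  rcases ha with h1 | ⟨h1, _⟩ <;> omega

include h in
lemma sign (a : Fin n → ℤ) (ha : S.Rr a) : (∀ i, 0 ≤ a i) ∨ ∀ i, a i ≤ 0 := by
  set p : Fin n → ℤ := fun i => max (a i) 0 with hp
  set m : Fin n → ℤ := fun i => max (-(a i)) 0 with hm
  have h1 : a = p - m := by
    funext i
    show a i = max (a i) 0 - max (-(a i)) 0
    omega
  have h2 : bf S p m ≤ 0 := by
    rw [bf_eq]
    refine sum_nonpos fun i _ => sum_nonpos fun j _ => ?_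
    have hp0 : 0 ≤ p i := le_max_right _ _
    have hm0 : 0 ≤ m j := le_max_right _ _
    by_cases hij : i = j
    · subst hij
      have : p i * m i = 0 := by
        rcases le_total (a i) 0 with h | h
        · have : p i = 0 := max_eq_right h
          rw [this, zero_mul]
        · have : m i = 0 := max_eq_right (by omega)
          rw [this, mul_zero]
      have h3 : p i * S.C i i * S.t i * m i = S.C i i * S.t i * (p i * m i) := by ring
      rw [h3, this, mul_zero]
    · have h3 := h.off i j hij
      have h4 := mul_nonneg hp0 hm0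
      have h5 : p i * S.C i j * S.t j * m j = S.C i j * (S.t j * (p i * m j)) := by ring
      rw [h5]
      have h6 := t_pos h j
      exact mul_nonpos_of_nonpos_of_nonneg h3 (mul_nonneg (by omega) h4)
  have h3 := q_sub h p m
  rw [← h1] at h3
  by_cases hpz : p = 0
  · right
    intro i
    have h4 : max (a i) 0 = 0 := congrFun hpz i
    omega
  · by_cases hmz : m = 0
    · left
      intro i
      have h4 : max (-(a i)) 0 = 0 := congrFun hmz i
      omega
    · exfalso
      have h4 := q_ge h p hpz
      have h5 := q_ge h m hmz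
      rw [Rr_iff] at ha
      rcases ha with ha | ⟨ha, hL⟩
      · omega
      · have hLp : LL S p := by
          intro i
          rcases le_total (a i) 0 with h | h
          · have : p i = 0 := max_eq_right h
            rw [this, mul_zero]
            exact dvd_zero _
          · have : p i = a i := max_eq_left h
            rw [this]
            exact hL i
        have hLm : LL S m := by
          intro i
          rcases le_total (a i) 0 with h | h
          · have : m i = -(a i) := max_eq_left (by omega)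
            rw [this, mul_neg]
            exact (dvd_neg).2 (hL i)
          · have : m i = 0 := max_eq_right (by omega)
            rw [this, mul_zero]
            exact dvd_zero _
        have h6 := q_ge4 h hLp hpz
        have h7 := q_ge4 h hLm hmz
        omega

include h in
/-- the simple reflections preserve the set -/
lemma Rr_refl {a : Fin n → ℤ} (ha : S.Rr a) (i : Fin n) :
    S.Rr (a - dot a (S.rtw i) • om i) := by
  have hB := bf_om_rtw h i a
  have hq : bf S (a - dot a (S.rtw i) • om i) (a - dot a (S.rtw i) • om i) = bf S a a := by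
    rw [q_sub h, bf_smul_right, q_smul_om h, bf_symm h a (om i), hB]
    ring
  rw [Rr_iff] at ha ⊢
  rw [hq]
  rcases ha with ha | ⟨ha, hL⟩
  · exact Or.inl ha
  · refine Or.inr ⟨ha, fun j => ?_⟩
    simp only [Pi.sub_apply, Pi.smul_apply, smul_eq_mul, om]
    by_cases hij : j = i
    · rw [if_pos hij, mul_one, hij, mul_sub, ← hB, bf_om]
      exact dvd_sub (hL i) (even_cv hL i)
    · rw [if_neg hij, mul_zero, sub_zero]
      exact hL j

include h in
lemma Rr_om (i : Fin n) : S.Rr (om i) := by
  rw [Rr_iff, q_om h]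
  rcases h.t12 i with h1 | h1
  · left
    rw [h1]
    rfl
  · right
    refine ⟨by rw [h1]; rfl, fun j => ?_⟩
    simp only [om]
    by_cases hij : j = i
    · rw [if_pos hij, mul_one, hij, h1]
    · rw [if_neg hij, mul_zero]
      exact dvd_zero _

include h in
lemma Rr_of_Cor {a : Fin n → ℤ} (ha : S.Cor a) : S.Rr a := by
  induction ha with
  | simple i => exact Rr_om h i
  | refl a i _ ih => exact Rr_refl h ih i

include h in
/-- multiples of the basis vectors -/
lemma prop1 {a : Fin n → ℤ} (ha : S.Rr a) (i : Fin n) (h0 : ∀ k, k ≠ i → a k = 0) :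
    a = om i ∨ a = -om i := by
  have h1 : a = a i • om i := by
    funext j
    simp only [Pi.smul_apply, smul_eq_mul, om]
    by_cases hij : j = i
    · rw [if_pos hij, mul_one, hij]
    · rw [if_neg hij, mul_zero]
      exact h0 j hij
  have h2 : bf S a a = 2 * a i ^ 2 * S.t i := by
    rw [h1, q_smul_om h]
    simp [om]
  have h3 : a i ^ 2 = 1 := by
    rw [Rr_iff, h2] at ha
    rcases h.t12 i with ht | ht
    · rw [ht] at ha
      rcases ha with ha | ⟨ha, _⟩
      · linarith
      · exfalso
        have h4 : a i ^ 2 = 2 := by linarith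
        rcases lt_or_ge (a i) 2 with h5 | h5
        · rcases lt_or_ge (-2) (a i) with h6 | h6
          · have h7 : a i = -1 ∨ a i = 0 ∨ a i = 1 := by omega
            rcases h7 with h7 | h7 | h7 <;> rw [h7] at h4 <;> omega
          · nlinarith
        · nlinarith
    · rw [ht] at ha
      rcases ha with ha | ⟨ha, _⟩
      · exfalso
        omega
      · linarith
  rw [sq, mul_self_eq_one_iff] at h3
  rcases h3 with h4 | h4
  · left
    rw [h1, h4, one_smul]
  · right
    rw [h1, h4, neg_smul, one_smul]

lemma dot_om_rtw (i : Fin n) : dot (om i) (S.rtw i) = S.C i i := by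
  simp only [dot, om, GD.rtw]
  rw [sum_eq_single i]
  · simp
  · intro j _ hj
    simp [hj]
  · intro h
    exact absurd (mem_univ _) h

include h in
/-- nonnegative vectors: induction on the height -/
lemma Cor_of_nonneg (N : ℕ) : ∀ a : Fin n → ℤ, S.Rr a → (∀ i, 0 ≤ a i) → ∑ i, a i ≤ N →
    S.Cor a := by
  induction N with
  | zero =>
    intro a ha hp hs
    exfalso
    apply Rr_ne ha
    funext i
    have h1 := single_le_sum (f := a) (fun i _ => hp i) (mem_univ i)
    have h2 := hp i
    push_cast at hs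
    change a i = 0
    omega
  | succ N ih =>
    intro a ha hp hs
    have hq : 0 < bf S a a := by
      have := q_ge h a (Rr_ne ha)
      omega
    obtain ⟨i, hi⟩ : ∃ i, 0 < a i * cv S a i := by
      by_contra hcon
      have h1 : bf S a a ≤ 0 := by
        change ∑ i, a i * cv S a i ≤ 0
        exact sum_nonpos fun i _ => not_lt.1 fun h2 => hcon ⟨i, h2⟩
      omega
    have hai : 0 < a i := by
      rcases (hp i).lt_or_eq with h1 | h1
      · exact h1
      · rw [← h1, zero_mul] at hi
        exact absurd hi (lt_irrefl 0)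
    have hcv : 0 < cv S a i := (mul_pos_iff_of_pos_left hai).1 hi
    rw [← bf_om, bf_om_rtw h] at hcv
    have hc : 0 < dot a (S.rtw i) := by
      have := t_pos h i
      exact (mul_pos_iff_of_pos_left (by omega)).1 hcv
    have ha' := Rr_refl h ha i
    obtain ⟨c, hcd⟩ : ∃ c, c = dot a (S.rtw i) := ⟨_, rfl⟩
    rw [← hcd] at ha' hc
    rcases sign h _ ha' with h1 | h1
    · have hs' : ∑ j, (a - c • om i) j ≤ N := by
        have e : ∑ j, (a - c • om i) j = ∑ j, a j - c := by
          simp only [Pi.sub_apply, Pi.smul_apply, smul_eq_mul, om, sum_sub_distrib, mul_ite,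
            mul_one, mul_zero, sum_ite_eq', mem_univ, if_true]
        rw [e]
        push_cast at hs
        omega
      have h2 := ih _ ha' h1 hs'
      have h3 := GD.Cor.refl (a - c • om i) i h2
      have h4 : dot (a - c • om i) (S.rtw i) = -c := by
        rw [dot_sub_left, dot_smul_left, dot_om_rtw, h.diag, ← hcd]
        ring
      rw [h4, neg_smul, sub_neg_eq_add, sub_add_cancel] at h3
      exact h3
    · have h2 : ∀ k, k ≠ i → a k = 0 := by
        intro k hk
        have h3 := h1 k
        simp only [Pi.sub_apply, Pi.smul_apply, smul_eq_mul, om, if_neg hk, mul_zero,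
          sub_zero] at h3
        exact le_antisymm h3 (hp k)
      rcases prop1 h ha i h2 with h3 | h3
      · rw [h3]
        exact GD.Cor.simple i
      · exfalso
        have h4 := congrFun h3 i
        simp only [Pi.neg_apply, om, if_true] at h4
        omega

include h in
lemma Cor_neg {a : Fin n → ℤ} (ha : S.Cor a) : S.Cor (-a) := by
  induction ha with
  | simple i =>
    have h1 := GD.Cor.refl (om i) i (GD.Cor.simple (S := S) i)
    rw [dot_om_rtw, h.diag, two_smul] at h1
    have h2 : om i - (om i + om i) = -(om i : Fin n → ℤ) := by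
      rw [sub_add_cancel_left]
    rw [h2] at h1
    exact h1
  | refl a i _ ih =>
    have h1 := GD.Cor.refl (-a) i ih
    rw [dot_neg_left, neg_smul, sub_neg_eq_add] at h1
    rw [neg_sub]
    rw [add_comm, ← sub_eq_add_neg] at h1
    exact h1

lemma Rr_neg {a : Fin n → ℤ} (ha : S.Rr a) : S.Rr (-a) := by
  rw [Rr_iff] at ha ⊢
  rw [bf_neg_left, bf_neg_right, neg_neg]
  rcases ha with ha | ⟨ha, hL⟩
  · exact Or.inl ha
  · refine Or.inr ⟨ha, fun i => ?_⟩
    rw [Pi.neg_apply, mul_neg]
    exact (dvd_neg).2 (hL i)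

include h in
lemma Cor_of_Rr {a : Fin n → ℤ} (ha : S.Rr a) : S.Cor a := by
  rcases sign h a ha with h1 | h1
  · obtain ⟨N, hN⟩ : ∃ N : ℕ, ∑ i, a i ≤ N := ⟨(∑ i, a i).toNat, Int.self_le_toNat _⟩
    exact Cor_of_nonneg h N a ha h1 hN
  · obtain ⟨N, hN⟩ : ∃ N : ℕ, ∑ i, (-a) i ≤ N := ⟨(∑ i, (-a) i).toNat, Int.self_le_toNat _⟩
    have h2 := Cor_of_nonneg h N (-a) (Rr_neg ha)
      (fun i => by rw [Pi.neg_apply]; have := h1 i; omega) hN
    have h3 := Cor_neg h h2
    rwa [neg_neg] at h3

lemma q_le {a : Fin n → ℤ} (ha : S.Rr a) : bf S a a ≤ 4 := by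
  rw [Rr_iff] at ha
  rcases ha with ha | ⟨ha, _⟩ <;> omega

include h in
lemma cv_inj {a b : Fin n → ℤ} (hab : cv S a = cv S b) : a = b := by
  apply sub_eq_zero.1
  apply eq_zero_of_q h
  have h1 : cv S (a - b) = 0 := by
    rw [sub_eq_add_neg, cv_add, hab, show (-b : Fin n → ℤ) = (-1 : ℤ) • b by rw [neg_smul, one_smul],
      cv_smul, neg_smul, one_smul, add_neg_cancel]
  rw [bf, h1]
  simp [dot]

include h in
lemma finite_roots : {a | S.Rr a}.Finite := by
  have h1 : {a | S.Rr a} ⊆ cv S ⁻¹' (Set.Icc (fun _ => (-4 : ℤ)) (fun _ => 4)) := by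
    intro a ha
    have h2 : ∀ i, -4 ≤ cv S a i ∧ cv S a i ≤ 4 := by
      intro i
      have h3 := q_le ha
      have h4 := q_nonneg h (om i + a)
      have h5 := q_nonneg h (om i - a)
      rw [q_add h, q_om h, bf_om] at h4
      rw [q_sub h, q_om h, bf_om] at h5
      have h6 : S.t i ≤ 2 := by
        rcases h.t12 i with h7 | h7 <;> omega
      constructor <;> omega
    exact ⟨fun i => (h2 i).1, fun i => (h2 i).2⟩
  refine Set.Finite.subset (Set.Finite.preimage ?_ (Set.finite_Icc _ _)) h1
  exact fun a _ b _ hab => cv_inj h hab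

theorem main : GD.J_gen1 := fun _ _ h =>
  ⟨fun _ => ⟨fun ha => Rr_of_Cor h ha, fun ha => Cor_of_Rr h ha⟩,
    fun a ha => ⟨Rr_ne ha, sign h a ha⟩, finite_roots h,
    fun _ ha i h0 => prop1 h ha i h0⟩

end H391.KR.P_jgen1
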