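import Pool.Agent.H391.KR.JC

/-!
# J_gen2: the root data facts from the elementary conditions (H391/KR, part J)
-/

noncomputable section

namespace H391.KR.P_jgen2

open Finset H391.KR

variable {n : ℕ} (S : GD n)

/-- the bilinear form -/
def B (a b : Fin n → ℤ) : ℤ := ∑ i, ∑ j, a i * S.C i j * S.t j * b j

theorem qf_eq (a : Fin n → ℤ) : S.qf a = B S a a := rfl

theorem B_add_left (a b c : Fin n → ℤ) : B S (a + b) c = B S a c + B S b c := by
  unfold B
  rw [← Finset.sum_add_distrib]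
  refine Finset.sum_congr rfl fun i _ => ?_
  rw [← Finset.sum_add_distrib]
  refine Finset.sum_congr rfl fun j _ => ?_
  simp only [Pi.add_apply]
  ring

theorem B_smul_left (k : ℤ) (a c : Fin n → ℤ) : B S (k • a) c = k * B S a c := by
  unfold B
  rw [Finset.mul_sum]
  refine Finset.sum_congr rfl fun i _ => ?_
  rw [Finset.mul_sum]
  refine Finset.sum_congr rfl fun j _ => ?_
  simp only [Pi.smul_apply, smul_eq_mul]
  ring

theorem B_neg_left (a c : Fin n → ℤ) : B S (-a) c = -B S a c := by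
  have h := B_smul_left S (-1) a c
  rw [neg_one_smul] at h
  rw [h]; ring

theorem B_sub_left (a b c : Fin n → ℤ) : B S (a - b) c = B S a c - B S b c := by
  rw [sub_eq_add_neg, B_add_left, B_neg_left]; ring

theorem B_comm (P : S.Pre) (a b : Fin n → ℤ) : B S a b = B S b a := by
  unfold B
  rw [Finset.sum_comm]
  refine Finset.sum_congr rfl fun i _ => ?_
  refine Finset.sum_congr rfl fun j _ => ?_
  have h := P.symm i j
  calc a j * S.C j i * S.t i * b i = a j * b i * (S.t i * S.C j i) := by ring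
    _ = a j * b i * (S.t j * S.C i j) := by rw [h]
    _ = b i * S.C i j * S.t j * a j := by ring

theorem B_sub_right (P : S.Pre) (a b c : Fin n → ℤ) : B S a (b - c) = B S a b - B S a c := by
  rw [B_comm S P a, B_sub_left, B_comm S P b, B_comm S P c]

theorem B_smul_right (P : S.Pre) (k : ℤ) (a b : Fin n → ℤ) : B S a (k • b) = k * B S a b := by
  rw [B_comm S P a, B_smul_left, B_comm S P b]

theorem B_eq_sum (a b : Fin n → ℤ) : B S a b = ∑ i, a i * ∑ j, S.C i j * S.t j * b j := by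
  unfold B
  refine Finset.sum_congr rfl fun i _ => ?_
  rw [Finset.mul_sum]
  refine Finset.sum_congr rfl fun j _ => ?_
  ring

theorem B_om_left (j : Fin n) (b : Fin n → ℤ) : B S (om j) b = ∑ q, S.C j q * S.t q * b q := by
  rw [B_eq_sum]
  simp [om]

theorem B_eq_sum' (a b : Fin n → ℤ) : B S a b = ∑ i, a i * B S (om i) b := by
  rw [B_eq_sum]
  refine Finset.sum_congr rfl fun i _ => ?_
  rw [B_om_left]

theorem B_om_right (b : Fin n → ℤ) (j : Fin n) : B S b (om j) = S.t j * dot b (S.rtw j) := by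
  unfold B dot GD.rtw
  rw [Finset.mul_sum]
  refine Finset.sum_congr rfl fun i _ => ?_
  simp only [om]
  simp
  ring

theorem qf_sub_smul (P : S.Pre) (k : ℤ) (a b : Fin n → ℤ) :
    S.qf (a - k • b) = S.qf a - 2 * k * B S a b + k ^ 2 * S.qf b := by
  simp only [qf_eq]
  rw [B_sub_left, B_sub_right S P, B_sub_right S P, B_smul_left, B_smul_left, B_smul_right S P,
    B_smul_right S P, B_comm S P b a]
  ring

theorem qf_nonneg (P : S.Pre) (a : Fin n → ℤ) : 0 ≤ S.qf a := by
  by_cases h : a = 0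
  · subst h
    simp [GD.qf]
  · exact (P.pd a h).le

theorem qf_zero (P : S.Pre) {a : Fin n → ℤ} (h : S.qf a = 0) : a = 0 := by
  by_contra h'
  have := P.pd a h'
  unfold GD.qf at h
  omega

theorem dvd_B {a : Fin n → ℤ} {d : ℤ} (h : ∀ i, d ∣ S.t i * a i) (b : Fin n → ℤ) :
    d ∣ B S b a := by
  unfold B
  refine Finset.dvd_sum fun i _ => Finset.dvd_sum fun j _ => ?_
  have : b i * S.C i j * S.t j * a j = b i * S.C i j * (S.t j * a j) := by ring
  rw [this]
  exact Dvd.dvd.mul_left (h j) _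

theorem tt_spec {a : Fin n → ℤ} (h : S.Rr a) :
    ((S.tt a = 1 ∧ S.qf a = 2) ∨ (S.tt a = 2 ∧ S.qf a = 4)) ∧ (∀ i, S.tt a ∣ S.t i * a i) := by
  have htt : S.tt a = S.qf a / 2 := rfl
  rcases h with h | ⟨h, h2⟩
  · have : S.tt a = 1 := by rw [htt, h]; norm_num
    refine ⟨Or.inl ⟨this, h⟩, fun i => ?_⟩
    rw [this]; exact one_dvd _
  · have : S.tt a = 2 := by rw [htt, h]; norm_num
    refine ⟨Or.inr ⟨this, h⟩, fun i => ?_⟩
    rw [this]; exact h2 i

theorem qf_tt {a : Fin n → ℤ} (h : S.Rr a) : S.qf a = 2 * S.tt a := by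
  rcases (tt_spec S h).1 with ⟨h1, h2⟩ | ⟨h1, h2⟩ <;> rw [h1, h2] <;> norm_num

theorem tt_pos {a : Fin n → ℤ} (h : S.Rr a) : 1 ≤ S.tt a := by
  rcases (tt_spec S h).1 with ⟨h1, h2⟩ | ⟨h1, h2⟩ <;> omega

theorem tt_rt {a : Fin n → ℤ} (h : S.Rr a) (j : Fin n) : S.tt a * S.rt a j = B S (om j) a := by
  have hd : S.tt a ∣ B S (om j) a := dvd_B S (tt_spec S h).2 _
  have h1 : S.rt a j = B S (om j) a / S.tt a := by
    rw [B_om_left]; rfl
  rw [h1]
  exact Int.mul_ediv_cancel' hd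

theorem tt_dot {a : Fin n → ℤ} (h : S.Rr a) (b : Fin n → ℤ) :
    S.tt a * dot b (S.rt a) = B S b a := by
  rw [B_eq_sum']
  unfold dot
  rw [Finset.mul_sum]
  refine Finset.sum_congr rfl fun i _ => ?_
  rw [← tt_rt S h]; ring

theorem B_le (P : S.Pre) {a b : Fin n → ℤ} (ha : S.Rr a) (hb : S.Rr b) :
    B S a b ≤ S.tt a + S.tt b ∧ -(S.tt a + S.tt b) ≤ B S a b := by
  have h1 := qf_nonneg S P (a - (1 : ℤ) • b)
  have h2 := qf_nonneg S P (a - (-1 : ℤ) • b)
  rw [qf_sub_smul S P, qf_tt S ha, qf_tt S hb] at h1 h2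
  constructor <;> linarith

theorem eq_of_B (P : S.Pre) {a b : Fin n → ℤ} (ha : S.Rr a) (hb : S.Rr b)
    (h : B S a b = S.tt a + S.tt b) : a = b := by
  have h1 : S.qf (a - (1 : ℤ) • b) = 0 := by
    rw [qf_sub_smul S P, qf_tt S ha, qf_tt S hb, h]; ring
  have h2 := qf_zero S P h1
  rw [one_smul] at h2
  exact sub_eq_zero.mp h2

theorem eq_neg_of_B (P : S.Pre) {a b : Fin n → ℤ} (ha : S.Rr a) (hb : S.Rr b)
    (h : B S a b = -(S.tt a + S.tt b)) : a = -b := by
  have h1 : S.qf (a - (-1 : ℤ) • b) = 0 := by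
    rw [qf_sub_smul S P, qf_tt S ha, qf_tt S hb, h]; ring
  have h2 := qf_zero S P h1
  rw [neg_one_smul] at h2
  exact sub_eq_zero.mp h2

theorem Rr_th (P : S.Pre) : S.Rr S.th := Or.inl P.thq

theorem tt_th (P : S.Pre) : S.tt S.th = 1 := by
  have h : S.qf S.th = 2 := P.thq
  have htt : S.tt S.th = S.qf S.th / 2 := rfl
  rw [htt, h]; norm_num

theorem B_th_nonneg (P : S.Pre) (i : Fin n) : 0 ≤ B S (om i) S.th := by
  rw [B_om_left]; exact P.thd i

theorem sum_nonneg' {d b : Fin n → ℤ} (hd : ∀ i, 0 ≤ d i) (hb : ∀ i, 0 ≤ B S (om i) b) :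
    0 ≤ B S d b := by
  rw [B_eq_sum']
  exact Finset.sum_nonneg fun i _ => mul_nonneg (hd i) (hb i)

theorem sum_nonpos' {d b : Fin n → ℤ} (hd : ∀ i, d i ≤ 0) (hb : ∀ i, 0 ≤ B S (om i) b) :
    B S d b ≤ 0 := by
  rw [B_eq_sum']
  exact Finset.sum_nonpos fun i _ => mul_nonpos_of_nonpos_of_nonneg (hd i) (hb i)

theorem qf_om (P : S.Pre) (i : Fin n) : S.qf (om i) = 2 * S.t i := by
  rw [qf_eq, B_om_right]
  have : dot (om i) (S.rtw i) = 2 := by
    unfold dot GD.rtw om
    simp [P.diag]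
  rw [this]; ring

theorem Rr_om (P : S.Pre) (i : Fin n) : S.Rr (om i) := by
  have h := qf_om S P i
  rcases P.t12 i with h1 | h1
  · left; rw [h, h1]; norm_num
  · right
    refine ⟨by rw [h, h1]; norm_num, fun j => ?_⟩
    unfold om
    by_cases hj : j = i
    · subst hj; simp [h1]
    · simp [hj]

theorem tt_om (P : S.Pre) (i : Fin n) : S.tt (om i) = S.t i := by
  have h := qf_om S P i
  have htt : S.tt (om i) = S.qf (om i) / 2 := rfl
  rw [htt, h]; omega

theorem rt_om (P : S.Pre) (i : Fin n) : S.rt (om i) = S.rtw i := by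
  funext j
  have h := tt_rt S (Rr_om S P i) j
  rw [tt_om S P, B_om_right] at h
  have h0 : S.t i ≠ 0 := by rcases P.t12 i with h1 | h1 <;> omega
  have h2 := mul_left_cancel₀ h0 h
  rw [h2]
  unfold dot GD.rtw om
  simp

theorem dom_max (P : S.Pre) (hR : ∀ a, S.Cor a ↔ S.Rr a) (hf : {a | S.Rr a}.Finite)
    {a : Fin n → ℤ} (ha : S.Rr a) :
    ∃ b, S.Rr b ∧ S.qf b = S.qf a ∧ (∀ i, a i ≤ b i) ∧ ∀ i, 0 ≤ B S (om i) b := by
  have hfin : {b | S.Rr b ∧ S.qf b = S.qf a ∧ ∀ i, a i ≤ b i}.Finite :=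
    hf.subset fun b hb => hb.1
  obtain ⟨b, hb, hmax⟩ := Set.exists_max_image _ (fun b : Fin n → ℤ => ∑ i, b i) hfin
    ⟨a, ha, rfl, fun i => le_rfl⟩
  obtain ⟨hb1, hb2, hb3⟩ := hb
  refine ⟨b, hb1, hb2, hb3, fun i => ?_⟩
  by_contra hneg
  push Not at hneg
  have h0 : B S b (om i) = S.t i * dot b (S.rtw i) := B_om_right S b i
  rw [B_comm S P] at hneg
  have ht : 1 ≤ S.t i := by rcases P.t12 i with h1 | h1 <;> omega
  have hd : dot b (S.rtw i) < 0 := by
    by_contra hd
    push Not at hd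
    have : 0 ≤ S.t i * dot b (S.rtw i) := mul_nonneg (by omega) hd
    omega
  set c := dot b (S.rtw i) with hc
  have hcor : S.Rr (b - c • om i) := (hR _).1 (GD.Cor.refl b i ((hR _).2 hb1))
  have hq : S.qf (b - c • om i) = S.qf a := by
    rw [qf_sub_smul S P, h0, qf_om S P, hb2]; ring
  have hge : ∀ j, b j ≤ (b - c • om i) j := by
    intro j
    simp only [Pi.sub_apply, Pi.smul_apply, smul_eq_mul]
    unfold om
    by_cases hj : j = i
    · rw [if_pos hj]; omega
    · rw [if_neg hj]; omega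
  have h3 := hmax (b - c • om i) ⟨hcor, hq, fun j => le_trans (hb3 j) (hge j)⟩
  have h4 : ∑ j, (b - c • om i) j = ∑ j, b j - c := by
    simp only [Pi.sub_apply, Pi.smul_apply, smul_eq_mul]
    rw [Finset.sum_sub_distrib]
    unfold om
    simp
  simp only [h4] at h3
  omega

theorem B_th_pos (P : S.Pre) {b : Fin n → ℤ} (hb : S.Rr b) (hd : ∀ i, 0 ≤ B S (om i) b) :
    0 < B S S.th b := by
  have h0 := sum_nonneg' S (fun i => le_trans zero_le_one (P.thp i)) hd
  rcases h0.lt_or_eq with h | h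
  · exact h
  · exfalso
    rw [B_eq_sum'] at h
    have h1 := (Finset.sum_eq_zero_iff_of_nonneg (fun i _ =>
      mul_nonneg (le_trans zero_le_one (P.thp i)) (hd i))).1 h.symm
    have h2 : ∀ i, B S (om i) b = 0 := by
      intro i
      have h3 := h1 i (Finset.mem_univ i)
      rcases mul_eq_zero.1 h3 with h4 | h4
      · have := P.thp i; omega
      · exact h4
    have h5 : S.qf b = 0 := by
      rw [qf_eq, B_eq_sum']
      simp [h2]
    have h6 := qf_tt S hb
    have h7 := tt_pos S hb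
    omega

theorem bnd (P : S.Pre) (hR : ∀ a, S.Cor a ↔ S.Rr a) (hf : {a | S.Rr a}.Finite)
    (hs : ∀ a, S.Rr a → a ≠ 0 ∧ ((∀ i, 0 ≤ a i) ∨ ∀ i, a i ≤ 0)) {a : Fin n → ℤ} (ha : S.Rr a)
    (i : Fin n) : a i ≤ S.tt a * S.th i := by
  obtain ⟨b, hb, hq, hab, hdom⟩ := dom_max S P hR hf ha
  have hpos := B_th_pos S P hb hdom
  have hth := Rr_th S P
  have htt := tt_th S P
  have hqth : S.qf S.th = 2 := P.thq
  have hBle := (B_le S P hth hb).1
  have hqa := qf_tt S ha
  have hqb := qf_tt S hb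
  have htab : S.tt b = S.tt a := by omega
  rcases (tt_spec S ha).1 with ⟨h1, h2⟩ | ⟨h1, h2⟩
  · rw [h1, one_mul]
    by_cases h3 : B S S.th b = 2
    · have h4 := eq_of_B S P hth hb (by omega)
      rw [h4]; exact hab i
    · exfalso
      have h4 : B S S.th b = 1 := by omega
      have h5 : S.qf (b - (1 : ℤ) • S.th) = 2 := by
        rw [qf_sub_smul S P, B_comm S P, h4, hqth]; omega
      have h6 : S.Rr (b - (1 : ℤ) • S.th) := Or.inl h5
      rw [one_smul] at h6
      rcases (hs _ h6).2 with h7 | h7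
      · have h8 := sum_nonneg' S h7 (B_th_nonneg S P)
        rw [B_sub_left, ← qf_eq, hqth, B_comm S P, h4] at h8
        omega
      · have h8 := sum_nonpos' S h7 hdom
        rw [B_sub_left, ← qf_eq, h4] at h8
        omega
  · rw [h1]
    have hev : (2 : ℤ) ∣ B S S.th b := by
      have h3 := dvd_B S (tt_spec S hb).2 S.th
      rwa [htab, h1] at h3
    have h3 := qf_nonneg S P (b - (2 : ℤ) • S.th)
    rw [qf_sub_smul S P, B_comm S P, hqth] at h3
    have h4 : B S S.th b = 2 := by omega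
    have h5 : S.qf ((2 : ℤ) • S.th - (1 : ℤ) • b) = 4 := by
      rw [qf_sub_smul S P, B_smul_left, h4]
      have h6 : S.qf ((2 : ℤ) • S.th) = 8 := by
        rw [qf_eq, B_smul_left, B_smul_right S P, ← qf_eq, hqth]; norm_num
      rw [h6]; omega
    rw [one_smul] at h5
    have h6 : S.Rr ((2 : ℤ) • S.th - b) := by
      right
      refine ⟨h5, fun j => ?_⟩
      have h7 := (tt_spec S hb).2 j
      rw [htab, h1] at h7
      have h8 : S.t j * ((2 : ℤ) • S.th - b) j = 2 * (S.t j * S.th j) - S.t j * b j := by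
        simp only [Pi.sub_apply, Pi.smul_apply, smul_eq_mul]; ring
      rw [h8]
      exact dvd_sub (Dvd.intro _ rfl) h7
    rcases (hs _ h6).2 with h7 | h7
    · have h8 := h7 i
      simp only [Pi.sub_apply, Pi.smul_apply, smul_eq_mul] at h8
      have h9 := hab i
      omega
    · exfalso
      have h8 := sum_nonpos' S h7 (B_th_nonneg S P)
      rw [B_sub_left, B_smul_left, ← qf_eq, hqth, B_comm S P, h4] at h8
      omega

theorem nd' (P : S.Pre) (g : Fin n → ℤ) (h : (∑ j, g j • S.rtw j) = 0) : g = 0 := by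
  have h1 : ∀ i, ∑ j, S.C i j * g j = 0 := by
    intro i
    have h2 := congrFun h i
    rw [Finset.sum_apply] at h2
    simp only [Pi.smul_apply, smul_eq_mul, Pi.zero_apply] at h2
    rw [← h2]
    refine Finset.sum_congr rfl fun j _ => ?_
    unfold GD.rtw
    ring
  have h3 : ∀ j, S.t j * ((if S.t j = 1 then 2 else 1) * g j) = 2 * g j := by
    intro j
    rcases P.t12 j with h4 | h4
    · rw [h4]; norm_num
    · rw [h4]; norm_num
  have h5 : S.qf (fun j => (if S.t j = 1 then 2 else 1) * g j) = 0 := by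
    rw [qf_eq, B_eq_sum]
    refine Finset.sum_eq_zero fun i _ => ?_
    have h6 : ∑ j, S.C i j * S.t j * ((if S.t j = 1 then 2 else 1) * g j) = 0 := by
      have h7 : ∑ j, S.C i j * S.t j * ((if S.t j = 1 then 2 else 1) * g j) =
          2 * ∑ j, S.C i j * g j := by
        rw [Finset.mul_sum]
        refine Finset.sum_congr rfl fun j _ => ?_
        rw [mul_assoc, h3]; ring
      rw [h7, h1]; norm_num
    rw [h6]; ring
  have h8 := qf_zero S P h5
  funext j
  have h9 := congrFun h8 j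
  simp only [Pi.zero_apply] at h9 ⊢
  rcases mul_eq_zero.1 h9 with h10 | h10
  · exfalso
    split_ifs at h10 <;> omega
  · exact h10

theorem nd (P : S.Pre) (a : Fin n → ℤ) (h : ∀ j, dot a (S.rtw j) = 0) : a = 0 := by
  apply qf_zero S P
  rw [qf_eq, B_comm S P, B_eq_sum']
  refine Finset.sum_eq_zero fun i _ => ?_
  rw [B_comm S P, B_om_right, h]; ring

theorem refl (P : S.Pre) (hR : ∀ a, S.Cor a ↔ S.Rr a) {a b : Fin n → ℤ} (ha : S.Rr a)
    (hb : S.Rr b) : S.Cor (b - dot b (S.rt a) • a) ∧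
    S.tt (b - dot b (S.rt a) • a) = S.tt b ∧
    S.rt (b - dot b (S.rt a) • a) = S.rt b - dot a (S.rt b) • S.rt a := by
  have hc := tt_dot S ha b
  have hd := tt_dot S hb a
  rw [B_comm S P] at hd
  set c := dot b (S.rt a) with hcdef
  set d := dot a (S.rt b) with hddef
  have hq : S.qf (b - c • a) = S.qf b := by
    rw [qf_sub_smul S P, ← hc, qf_tt S ha]; ring
  have htt : S.tt (b - c • a) = S.tt b := by
    have h1 : S.tt (b - c • a) = S.qf (b - c • a) / 2 := rfl
    have h2 : S.tt b = S.qf b / 2 := rfl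
    rw [h1, h2, hq]
  have hRr : S.Rr (b - c • a) := by
    rcases hb with h | ⟨h, h2⟩
    · left; rw [hq, h]
    · right
      refine ⟨by rw [hq, h], fun i => ?_⟩
      have h3 : S.t i * (b - c • a) i = S.t i * b i - c * (S.t i * a i) := by
        simp only [Pi.sub_apply, Pi.smul_apply, smul_eq_mul]; ring
      rw [h3]
      refine dvd_sub (h2 i) ?_
      rcases (tt_spec S ha).1 with ⟨h4, h5⟩ | ⟨h4, h5⟩
      · have h6 : (2 : ℤ) ∣ c := by
          rw [h4, one_mul] at hc
          rw [hc, B_comm S P]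
          exact dvd_B S h2 a
        exact Dvd.dvd.mul_right h6 _
      · have h6 := (tt_spec S ha).2 i
        rw [h4] at h6
        exact Dvd.dvd.mul_left h6 _
  refine ⟨(hR _).2 hRr, htt, ?_⟩
  funext j
  have h1 := tt_rt S hRr j
  rw [htt, B_sub_right S P, B_smul_right S P, ← tt_rt S ha, ← tt_rt S hb] at h1
  have h0 : S.tt b ≠ 0 := by have := tt_pos S hb; omega
  apply mul_left_cancel₀ h0
  rw [h1]
  simp only [Pi.sub_apply, Pi.smul_apply, smul_eq_mul]
  have h2 : S.tt a * c = S.tt b * d := by rw [hc, hd]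
  calc S.tt b * S.rt b j - c * (S.tt a * S.rt a j)
      = S.tt b * S.rt b j - (S.tt a * c) * S.rt a j := by ring
    _ = S.tt b * S.rt b j - (S.tt b * d) * S.rt a j := by rw [h2]
    _ = S.tt b * (S.rt b j - d * S.rt a j) := by ring

theorem pairs (P : S.Pre) {a b : Fin n → ℤ} (ha : S.Rr a) (hb : S.Rr b) :
    S.tt b * dot a (S.rt b) = S.tt a * dot b (S.rt a) ∧
    (S.tt a = S.tt b → dot a (S.rt b) = 2 → a = b) ∧ |dot a (S.rt b)| ≤ 3 := by
  have h1 := tt_dot S ha b
  have h2 := tt_dot S hb a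
  refine ⟨by rw [h1, h2, B_comm S P], fun h3 h4 => ?_, ?_⟩
  · apply eq_of_B S P ha hb
    rw [← h2, h3, h4]; ring
  · obtain ⟨h3, h4⟩ := B_le S P ha hb
    rw [← h2] at h3 h4
    rw [abs_le]
    rcases (tt_spec S ha).1 with ⟨h5, _⟩ | ⟨h5, _⟩ <;>
      rcases (tt_spec S hb).1 with ⟨h6, _⟩ | ⟨h6, _⟩ <;> rw [h5, h6] at h3 h4 <;>
      constructor <;> omega

theorem rtc {a : Fin n → ℤ} (ha : S.Rr a) :
    ∃ g : Fin n → ℤ, S.rt a = ∑ j, g j • S.rtw j ∧ ∀ j, S.tt a * g j = S.t j * a j := by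
  have hg : ∀ j, S.tt a * (S.t j * a j / S.tt a) = S.t j * a j := fun j =>
    Int.mul_ediv_cancel' ((tt_spec S ha).2 j)
  refine ⟨fun j => S.t j * a j / S.tt a, ?_, hg⟩
  funext i
  have h0 : S.tt a ≠ 0 := by have := tt_pos S ha; omega
  apply mul_left_cancel₀ h0
  rw [tt_rt S ha, B_om_left, Finset.sum_apply, Finset.mul_sum]
  refine Finset.sum_congr rfl fun j _ => ?_
  simp only [Pi.smul_apply, smul_eq_mul]
  unfold GD.rtw
  calc S.C i j * S.t j * a j = S.C i j * (S.t j * a j) := by ring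
    _ = S.C i j * (S.tt a * (S.t j * a j / S.tt a)) := by rw [hg]
    _ = S.tt a * (S.t j * a j / S.tt a * S.C i j) := by ring

theorem dot_th (P : S.Pre) (a : Fin n → ℤ) : dot a (S.rt S.th) = B S a S.th := by
  have h := tt_dot S (Rr_th S P) a
  rwa [tt_th S P, one_mul] at h

theorem th_pair (P : S.Pre) {a : Fin n → ℤ} (ha : S.Rr a) (h1 : a ≠ S.th) (h2 : a ≠ -S.th) :
    S.tt a ∣ dot a (S.rt S.th) ∧ |dot a (S.rt S.th)| ≤ S.tt a := by
  rw [dot_th S P]
  have hd : S.tt a ∣ B S a S.th := by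
    rw [B_comm S P]
    exact dvd_B S (tt_spec S ha).2 _
  refine ⟨hd, ?_⟩
  obtain ⟨h3, h4⟩ := B_le S P ha (Rr_th S P)
  have h5 : B S a S.th ≠ S.tt a + S.tt S.th := fun h => h1 (eq_of_B S P ha (Rr_th S P) h)
  have h6 : B S a S.th ≠ -(S.tt a + S.tt S.th) := fun h => h2 (eq_neg_of_B S P ha (Rr_th S P) h)
  rw [tt_th S P] at h3 h4 h5 h6
  rw [abs_le]
  rcases (tt_spec S ha).1 with ⟨h7, _⟩ | ⟨h7, _⟩ <;> rw [h7] at h3 h4 h5 h6 hd ⊢ <;>
    constructor <;> omega

theorem main : H391.KR.GD.J_gen1 → H391.KR.GD.J_gen2 := by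
  intro hg n S P hw
  obtain ⟨hR, hs, hf, hp⟩ := hg n S P
  have hset : {a | S.Cor a} = {a | S.Rr a} := by
    ext a; exact hR a
  refine
    { t_pos := fun i => by rcases P.t12 i with h | h <;> omega
      symm := P.symm
      diag := P.diag
      off := P.off
      pd := P.pd
      nd := nd S P
      nd' := nd' S P
      fin := by rw [hset]; exact hf
      sgn := fun a ha => hs a ((hR a).1 ha)
      om := fun i => ⟨tt_om S P i, rt_om S P i⟩
      two := fun a ha => ?_
      refl := fun a b ha hb => refl S P hR ((hR a).1 ha) ((hR b).1 hb)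
      pairs := fun a b ha hb => pairs S P ((hR a).1 ha) ((hR b).1 hb)
      prop := fun a ha => hp a ((hR a).1 ha)
      tt_pos := fun a ha => tt_pos S ((hR a).1 ha)
      tdvd := fun a ha => (tt_spec S ((hR a).1 ha)).2
      rtc := fun a ha => rtc S ((hR a).1 ha)
      th_cor := ⟨(hR _).2 (Rr_th S P), tt_th S P⟩
      th_pos := P.thp
      th_dom := fun i => ?_
      th_pair := fun a ha h1 h2 => th_pair S P ((hR a).1 ha) h1 h2
      bnd := fun a ha i => bnd S P hR hf hs ((hR a).1 ha) i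
      w0 := hw }
  · have ha' := (hR a).1 ha
    have h1 := tt_dot S ha' a
    have h2 := qf_tt S ha'
    have h0 : S.tt a ≠ 0 := by have := tt_pos S ha'; omega
    apply mul_left_cancel₀ h0
    rw [h1, ← qf_eq, h2]; ring
  · have h1 := tt_rt S (Rr_th S P) i
    rw [tt_th S P, one_mul] at h1
    rw [h1]
    exact B_th_nonneg S P i

end H391.KR.P_jgen2
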