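import Pool.Agent.H391.KR.JV

/-!
# KR-ghd : dominant coroots and invariance under the affine reflection at level zero
-/

noncomputable section

namespace H391.KR.P_jhd

open Finset H391.KR

variable {n : ℕ} (S : GD n)

theorem dot_nonneg {a u : Fin n → ℤ} (ha : ∀ i, 0 ≤ a i) (hu : ∀ i, 0 ≤ u i) :
    0 ≤ dot a u := Finset.sum_nonneg fun i _ => mul_nonneg (ha i) (hu i)

theorem dot_mono {a b u : Fin n → ℤ} (h : ∀ i, a i ≤ b i) (hu : ∀ i, 0 ≤ u i) :
    dot a u ≤ dot b u :=
  Finset.sum_le_sum fun i _ => mul_le_mul_of_nonneg_right (h i) (hu i)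

theorem dot_neg_left (a u : Fin n → ℤ) : dot (-a) u = - dot a u := by
  simp [dot, Finset.sum_neg_distrib]

theorem dot_smul_left (a u : Fin n → ℤ) (c : ℤ) : dot (c • a) u = c * dot a u := by
  simp only [dot, Pi.smul_apply, smul_eq_mul, Finset.mul_sum]
  exact Finset.sum_congr rfl fun i _ => by ring

theorem dot_add_left (a b u : Fin n → ℤ) : dot (a + b) u = dot a u + dot b u := by
  simp [dot, add_mul, Finset.sum_add_distrib]

theorem dot_sub_smul_left (a b u : Fin n → ℤ) (c : ℤ) :
    dot (a - c • b) u = dot a u - c * dot b u := by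
  have : a - c • b = a + (-c) • b := by module
  rw [this, dot_add_left, dot_smul_left]; ring

theorem dot_add_right (a u v : Fin n → ℤ) : dot a (u + v) = dot a u + dot a v := by
  simp [dot, mul_add, Finset.sum_add_distrib]

theorem dot_smul_right (a u : Fin n → ℤ) (c : ℤ) : dot a (c • u) = c * dot a u := by
  simp only [dot, Pi.smul_apply, smul_eq_mul, Finset.mul_sum]
  exact Finset.sum_congr rfl fun i _ => by ring

theorem dot_sub_smul (a u v : Fin n → ℤ) (c : ℤ) :
    dot a (u - c • v) = dot a u - c * dot a v := by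
  have : u - c • v = u + (-c) • v := by module
  rw [this, dot_add_right, dot_smul_right]; ring

theorem fp_sub_smul (x : Option (Fin n) → ℤ) (c : ℤ) (v : Fin n → ℤ) (l : ℤ) :
    fp (x - c • aw l v) = fp x - c • v := by
  funext i; simp [fp, aw]

theorem aw_sub_smul (u v : Fin n → ℤ) (c : ℤ) : aw 0 (u - c • v) = aw 0 u - c • aw 0 v := by
  funext o; cases o <;> simp [aw]

theorem dot_one (a : Fin n → ℤ) : dot a (fun _ => 1) = ∑ i, a i := by simp [dot]

theorem dot_om (i : Fin n) (u : Fin n → ℤ) : dot (om i) u = u i := by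
  simp [dot, om]

/-- the negative of a coroot -/
theorem cor_neg (hS : S.OKs) {a : Fin n → ℤ} (ha : S.Cor a) : S.Cor (-a) ∧ S.tt (-a) = S.tt a := by
  have h := hS.refl a a ha ha
  have h2 : a - dot a (S.rt a) • a = -a := by
    rw [hS.two a ha]; module
  rw [h2] at h
  exact ⟨h.1, h.2.1⟩

/-- lower bound for the coordinates of a coroot -/
theorem low (hS : S.OKs) {a : Fin n → ℤ} (ha : S.Cor a) (i : Fin n) :
    (-(S.tt a • S.th)) i ≤ a i := by
  obtain ⟨h1, h2⟩ := cor_neg S hS ha
  have h3 := hS.bnd (-a) h1 i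
  rw [h2] at h3
  simp only [Pi.neg_apply, Pi.smul_apply, smul_eq_mul] at *
  linarith

theorem hd : GD.J_hd := by
  intro n S hS D hD
  have hthn : ∀ i, 0 ≤ S.th i := fun i => by have := hS.th_pos i; linarith
  have hsum : 0 ≤ ∑ i, S.th i := Finset.sum_nonneg fun i _ => hthn i
  refine ⟨?_, ?_, ?_, ?_⟩
  · intro x hx b
    obtain ⟨a, m, ⟨ha, hdv, hm⟩, hev, -⟩ := hD.ev b
    have hu : ∀ i, 0 ≤ fp x i := by
      intro i
      have := hx (some i)
      rw [hD.co] at this
      exact this
    have h0 := hx none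
    rw [hD.co] at h0
    have h0' : 0 ≤ x none - dot S.th (fp x) := h0
    have hd : 0 ≤ dot S.th (fp x) := dot_nonneg hthn hu
    rw [hev]
    rcases hm with hm | ⟨rfl, hpos⟩
    · have h3 := dot_mono (low S hS ha) hu
      rw [dot_neg_left, dot_smul_left] at h3
      have htt := hS.tt_pos a ha
      have hle : S.tt a ≤ m := Int.le_of_dvd (by linarith) hdv
      have h4 : 0 ≤ S.tt a * (x none - dot S.th (fp x)) := mul_nonneg (by linarith) h0'
      have h5 : 0 ≤ (m - S.tt a) * x none := mul_nonneg (by linarith) (by linarith)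
      nlinarith
    · have := dot_nonneg hpos hu
      simpa using this
  · intro j
    rw [hD.co]
    cases j with
    | none =>
      show (1 + ∑ i, S.th i) - dot S.th (fun _ => 1) = 1
      rw [dot_one]; ring
    | some j => rfl
  · intro b
    obtain ⟨a, m, ⟨ha, hdv, hm⟩, hev, -⟩ := hD.ev b
    rw [hev]
    show 1 ≤ dot a (fun _ => 1) + m * (1 + ∑ i, S.th i)
    rcases hm with hm | ⟨rfl, hpos⟩
    · have h3 := dot_mono (u := fun _ => 1) (low S hS ha) (fun _ => zero_le_one)
      rw [dot_neg_left, dot_smul_left, dot_one, dot_one] at h3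
      rw [dot_one]
      have htt := hS.tt_pos a ha
      have hle : S.tt a ≤ m := Int.le_of_dvd (by linarith) hdv
      have h5 : 0 ≤ (m - S.tt a) * (1 + ∑ i, S.th i) := mul_nonneg (by linarith) (by linarith)
      nlinarith
    · rw [dot_one]
      have hne := (hS.sgn a ha).1
      have : 0 < ∑ i, a i := by
        rcases (Finset.sum_nonneg fun i (_ : i ∈ Finset.univ) => hpos i).lt_or_eq with h | h
        · exact h
        · exfalso
          apply hne
          funext i
          exact (Finset.sum_eq_zero_iff_of_nonneg fun i _ => hpos i).mp h.symm i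
            (Finset.mem_univ i)
      linarith
  · rw [hD.T]
    show 1 ≤ 1 + ∑ i, S.th i
    linarith

/-- reflection in the finite coroot `a` -/
def sa (a : Fin n → ℤ) (x : Option (Fin n) → ℤ) : Option (Fin n) → ℤ :=
  x - dot a (fp x) • aw 0 (S.rt a)

theorem s_eq (hS : S.OKs) {D : RDat (Option (Fin n)) (Option (Fin n))} (hD : S.AffDat D)
    (i : Fin n) (x : Option (Fin n) → ℤ) : D.s (some i) x = sa S (om i) x := by
  unfold RDat.s sa
  rw [hD.co, hD.al, (hS.om i).2, dot_om]
  rfl

theorem sa_comp (hS : S.OKs) (i : Fin n) (a : Fin n → ℤ) (ha : S.Cor a)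
    (x : Option (Fin n) → ℤ) :
    sa S (om i) (sa S a (sa S (om i) x)) = sa S (a - dot a (S.rtw i) • om i) x := by
  have hr := (hS.refl (om i) a (GD.Cor.simple i) ha).2.2
  have h2 := hS.two (om i) (GD.Cor.simple i)
  rw [(hS.om i).2] at hr h2
  unfold sa
  rw [hr, (hS.om i).2]
  simp only [fp_sub_smul, dot_sub_smul, dot_sub_smul_left, aw_sub_smul, h2]
  module

theorem inv_root (hS : S.OKs) {D : RDat (Option (Fin n)) (Option (Fin n))}
    (hD : S.AffDat D) (f : GR (Option (Fin n))) (hf : ∀ j : Fin n, D.IsInv (some j) f)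
    (a : Fin n → ℤ) (ha : S.Cor a) : ∀ x, f.coeff (sa S a x) = f.coeff x := by
  have hbase : ∀ i x, f.coeff (sa S (om i) x) = f.coeff x := by
    intro i x
    rw [← s_eq S hS hD]
    exact hf i x
  induction ha with
  | simple i => exact hbase i
  | refl a i ha ih =>
    intro x
    rw [← sa_comp S hS i a ha, hbase, ih, hbase]

theorem inv0 : GD.J_inv0 := by
  intro n S hS D hD f hf hlev
  refine ⟨?_, hlev⟩
  intro j
  cases j with
  | some j => exact hf j
  | none =>
    intro x
    have hs : (D.s none x) none = x none := by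
      unfold RDat.s
      rw [hD.al]
      show x none - (D.co none x) * 0 = x none
      ring
    by_cases hx : x none = 0
    · have e : D.s none x = sa S S.th x := by
        unfold RDat.s sa
        rw [hD.al, hD.co]
        show x - (x none - dot S.th (fp x)) • aw 0 (-(S.rt S.th)) =
          x - dot S.th (fp x) • aw 0 (S.rt S.th)
        rw [hx]
        funext o
        cases o <;> simp [aw]
      rw [e]
      exact inv_root S hS hD f hf S.th hS.th_cor.1 x
    · have h1 : f.coeff x = 0 := by
        by_contra h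
        exact hx (hlev x h)
      have h2 : f.coeff (D.s none x) = 0 := by
        by_contra h
        have := hlev _ h
        rw [hs] at this
        exact hx this
      rw [h1, h2]

theorem main : GD.J_hd ∧ GD.J_inv0 := ⟨hd, inv0⟩

end H391.KR.P_jhd
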