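import Pool.Agent.H391.KR.JC

/-!
# Invariant elements are determined by the antisymmetric functionals of large level
-/

noncomputable section

namespace H391.KR.P_jinj

open Finset Matrix

variable {n : ℕ}

/-! ### The pairing -/

lemma pair_apply {ι : Type} (p : (ι → ℤ) → ℤ) (f : GR ι) :
    pair p f = f.coeff.sum fun x a => a * p x := rfl

lemma pair_single {ι : Type} (p : (ι → ℤ) → ℤ) (x : ι → ℤ) (a : ℤ) :
    pair p (AddMonoidAlgebra.single x a) = a * p x := by
  rw [pair_apply]
  exact Finsupp.sum_single_index (by simp)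

lemma pair_ex_mul {ι : Type} (p : (ι → ℤ) → ℤ) (x0 : ι → ℤ) (f : GR ι) :
    pair p (ex x0 * f) = pair (fun x => p (x0 + x)) f := by
  have h : (pair p).comp (AddMonoidHom.mulLeft (ex x0)) = pair (fun x => p (x0 + x)) := by
    apply AddMonoidAlgebra.addMonoidHom_ext
    intro x a
    show pair p (ex x0 * AddMonoidAlgebra.single x a) = _
    rw [ex, AddMonoidAlgebra.single_mul_single, one_mul, pair_single, pair_single]
  exact DFunLike.congr_fun h f

/-! ### The quadratic form -/

/-- finite reflection -/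
def fs (S : GD n) (j : Fin n) (mu : Fin n → ℤ) : Fin n → ℤ := fun i => mu i - mu j * S.C i j

/-- action of finite words -/
def fa (S : GD n) : List (Fin n) → (Fin n → ℤ) → (Fin n → ℤ)
  | [], mu => mu
  | j :: w, mu => fa S w (fs S j mu)

/-- the symmetrised Cartan matrix -/
def cm (S : GD n) : Matrix (Fin n) (Fin n) ℤ := Matrix.of fun i j => S.C i j * S.t j

/-- bilinear form -/
def Bf (S : GD n) (x y : Fin n → ℤ) : ℤ := x ⬝ᵥ ((cm S).adjugate *ᵥ y)

lemma Bf_symm (S : GD n) (hS : S.OKs) (x y : Fin n → ℤ) : Bf S x y = Bf S y x := by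
  unfold Bf
  have h : (cm S)ᵀ = cm S := by
    ext i j
    show S.C j i * S.t i = S.C i j * S.t j
    have := hS.symm i j
    linarith
  have h2 : ((cm S).adjugate)ᵀ = (cm S).adjugate := by
    rw [Matrix.adjugate_transpose, h]
  rw [Matrix.dotProduct_mulVec, ← Matrix.mulVec_transpose, h2, dotProduct_comm]

lemma Bf_sub_left (S : GD n) (x y z : Fin n → ℤ) : Bf S (x - y) z = Bf S x z - Bf S y z := by
  unfold Bf
  rw [sub_dotProduct]

lemma Bf_smul_left (S : GD n) (c : ℤ) (x z : Fin n → ℤ) : Bf S (c • x) z = c * Bf S x z := by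
  unfold Bf
  rw [smul_dotProduct, smul_eq_mul]

lemma Bf_smul_right (S : GD n) (c : ℤ) (x z : Fin n → ℤ) : Bf S x (c • z) = c * Bf S x z := by
  unfold Bf
  rw [Matrix.mulVec_smul, dotProduct_smul, smul_eq_mul]

lemma Bf_col (S : GD n) (x : Fin n → ℤ) (j : Fin n) :
    S.t j * Bf S x (S.rtw j) = (cm S).det * x j := by
  rw [← Bf_smul_right]
  unfold Bf
  have h : (cm S).adjugate *ᵥ (S.t j • S.rtw j) = fun i => if i = j then (cm S).det else 0 := by
    have h1 := Matrix.adjugate_mul (cm S)
    funext i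
    have h2 := congrFun (congrFun h1 i) j
    rw [Matrix.smul_apply, Matrix.one_apply, smul_eq_mul, mul_ite, mul_one, mul_zero] at h2
    rw [← h2, Matrix.mul_apply]
    have h3 : ∀ k : Fin n, (S.t j • S.rtw j) k = cm S k j := by
      intro k
      show S.t j * S.C k j = S.C k j * S.t j
      ring
    show ∑ k, (cm S).adjugate i k * (S.t j • S.rtw j) k = _
    refine Finset.sum_congr rfl fun k _ => ?_
    rw [h3]
  rw [h]
  unfold dotProduct
  rw [Finset.sum_eq_single j]
  · simp [mul_comm]
  · intro b _ hb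
    simp [hb]
  · intro hj
    exact absurd (Finset.mem_univ j) hj

/-- quadratic form -/
def QN (S : GD n) (x : Fin n → ℤ) : ℤ := (cm S).det * Bf S x x

lemma QN_sub (S : GD n) (hS : S.OKs) (x : Fin n → ℤ) (j : Fin n) (c : ℤ) :
    S.t j * QN S (fun i => x i - c * S.C i j) =
      S.t j * QN S x - 2 * (cm S).det ^ 2 * c * x j + 2 * (cm S).det ^ 2 * c ^ 2 := by
  have h : (fun i => x i - c * S.C i j) = x - c • S.rtw j := by
    funext i
    rfl
  have h1 := Bf_col S x j
  have h2 := Bf_col S (S.rtw j) j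
  have h3 : S.rtw j j = 2 := hS.diag j
  rw [h3] at h2
  unfold QN
  rw [h, Bf_sub_left, Bf_smul_left, Bf_symm S hS x (x - _), Bf_symm S hS (S.rtw j) (x - _),
    Bf_sub_left, Bf_sub_left, Bf_smul_left, Bf_smul_left, Bf_symm S hS (S.rtw j) x]
  linear_combination (-2 * (cm S).det * c) * h1 + (cm S).det * c ^ 2 * h2

lemma QN_fs (S : GD n) (hS : S.OKs) (x : Fin n → ℤ) (j : Fin n) : QN S (fs S j x) = QN S x := by
  have h := QN_sub S hS x j (x j)
  have h1 := hS.t_pos j
  have h2 : S.t j * QN S (fs S j x) = S.t j * QN S x := by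
    unfold fs
    rw [h]
    ring
  exact mul_left_cancel₀ (by omega) h2

lemma QN_fa (S : GD n) (hS : S.OKs) (w : List (Fin n)) :
    ∀ x : Fin n → ℤ, QN S (fa S w x) = QN S x := by
  induction w with
  | nil => intro x; rfl
  | cons j w ih =>
    intro x
    show QN S (fa S w (fs S j x)) = _
    rw [ih, QN_fs S hS]

lemma QN_lt (S : GD n) (hS : S.OKs) (hd : (cm S).det ≠ 0) (mu : Fin n → ℤ) (j : Fin n)
    (h : mu j < 0) : QN S (mu + 1) < QN S (fs S j mu + 1) := by
  have h1 : fs S j mu + 1 = fun i => (mu + 1) i - mu j * S.C i j := by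
    funext i
    simp only [fs, Pi.add_apply, Pi.one_apply]
    ring
  have h0 := QN_sub S hS (mu + 1) j (mu j)
  rw [← h1, Pi.add_apply, Pi.one_apply] at h0
  have h2 : 0 < (cm S).det ^ 2 := by positivity
  have h3 := hS.t_pos j
  have h4 : 0 < S.t j * (QN S (fs S j mu + 1) - QN S (mu + 1)) := by
    have h5 : S.t j * (QN S (fs S j mu + 1) - QN S (mu + 1)) = 2 * ((cm S).det ^ 2 * (-mu j)) := by
      rw [mul_sub, h0]
      ring
    rw [h5]
    have h6 : 0 < (cm S).det ^ 2 * (-mu j) := mul_pos h2 (by omega)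
    linarith
  have h7 : 0 < QN S (fs S j mu + 1) - QN S (mu + 1) := (pos_iff_pos_of_mul_pos h4).1 (by omega)
  linarith

lemma det_ne (S : GD n) (hS : S.OKs) : (cm S).det ≠ 0 := by
  intro h
  obtain ⟨v, hv, hv2⟩ := Matrix.exists_mulVec_eq_zero_iff.2 h
  have h1 := hS.pd v hv
  have h2 : ∑ i, ∑ j, v i * S.C i j * S.t j * v j = 0 := by
    refine Finset.sum_eq_zero fun i _ => ?_
    have h3 := congrFun hv2 i
    have h4 : ((cm S) *ᵥ v) i = ∑ j, S.C i j * S.t j * v j := rfl
    rw [h4] at h3
    have h5 : ∑ j, v i * S.C i j * S.t j * v j = v i * ∑ j, S.C i j * S.t j * v j := by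
      rw [Finset.mul_sum]
      refine Finset.sum_congr rfl fun j _ => ?_
      ring
    rw [h5, h3]
    exact mul_zero _
  omega

/-! ### Finite words -/

section

variable (S : GD n) {D : RDat (Option (Fin n)) (Option (Fin n))}

lemma cof (hD : S.AffDat D) (j : Fin n) (x : Option (Fin n) → ℤ) :
    D.co (some j) x = x (some j) := hD.co (some j) x

lemma alf (hD : S.AffDat D) (j : Fin n) : D.al (some j) = aw 0 (S.rtw j) := hD.al (some j)

lemma co0 (hD : S.AffDat D) (x : Option (Fin n) → ℤ) :
    D.co none x = x none - dot S.th (fp x) := hD.co none x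

lemma s_aw (hD : S.AffDat D) (j : Fin n) (l : ℤ) (mu : Fin n → ℤ) :
    D.s (some j) (aw l mu) = aw l (fs S j mu) := by
  unfold RDat.s
  rw [cof S hD, alf S hD]
  funext o
  cases o with
  | none => simp [aw]
  | some i => simp [aw, fs, GD.rtw]

lemma sR_aw (hD : S.AffDat D) (l : ℤ) (w : List (Fin n)) : ∀ mu : Fin n → ℤ,
    D.sR (w.map some) (aw l mu) = aw l (fa S w mu) := by
  induction w with
  | nil => intro mu; rfl
  | cons j w ih =>
    intro mu
    show D.sR (w.map some) (D.s (some j) (aw l mu)) = _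
    rw [s_aw S hD, ih]
    rfl

lemma anti_fs (hD : S.AffDat D) {p : (Option (Fin n) → ℤ) → ℤ} (hp : D.Anti p) (j : Fin n)
    (l : ℤ) (mu : Fin n → ℤ) : p (aw l (fs S j mu - 1)) = - p (aw l (mu - 1)) := by
  have h := hp (aw l (mu - 1)) (some j)
  rw [cof S hD, alf S hD] at h
  rw [← h]
  congr 1
  funext o
  cases o with
  | none => simp [aw]
  | some i =>
    simp [aw, fs, GD.rtw]
    ring

lemma anti_fa (hD : S.AffDat D) {p : (Option (Fin n) → ℤ) → ℤ} (hp : D.Anti p) (l : ℤ)
    (w : List (Fin n)) : ∀ mu : Fin n → ℤ, p (aw l (fa S w mu - 1)) = 0 →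
      p (aw l (mu - 1)) = 0 := by
  induction w with
  | nil => intro mu h; exact h
  | cons j w ih =>
    intro mu h
    have h1 := ih (fs S j mu) h
    rw [anti_fs S hD hp, neg_eq_zero] at h1
    exact h1

lemma anti_zero (hD : S.AffDat D) {p : (Option (Fin n) → ℤ) → ℤ} (hp : D.Anti p) (j : Fin n)
    (l : ℤ) (mu : Fin n → ℤ) (h : mu j = 0) : p (aw l (mu - 1)) = 0 := by
  have h1 := anti_fs S hD hp j l mu
  have h2 : fs S j mu = mu := by
    funext i
    simp [fs, h]
  rw [h2] at h1
  omega

lemma dom_aw (hD : S.AffDat D) (l : ℤ) (mu : Fin n → ℤ) (h : ∀ j, 0 ≤ mu j)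
    (hl : dot S.th mu ≤ l) : D.Dom (aw l mu) := by
  intro o
  cases o with
  | none =>
    rw [co0 S hD]
    show 0 ≤ l - dot S.th mu
    linarith
  | some j =>
    rw [cof S hD]
    exact h j

lemma exists_word (hD : S.AffDat D) (hred : RDat.N_red) (mu : Fin n → ℤ) :
    ∃ w : List (Fin n), ∀ j, 0 ≤ fa S w mu j := by
  have hT : aw 1 mu ∈ D.T := by
    rw [hD.T]
    exact le_refl (1 : ℤ)
  obtain ⟨w, hw, -, h3⟩ := (hred _ _ D (Set.range some) (aw 1 mu) hT).1
  obtain ⟨w', hw'⟩ : ∃ w' : List (Fin n), w'.map some = w := by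
    clear h3
    induction w with
    | nil => exact ⟨[], rfl⟩
    | cons a w ih =>
      obtain ⟨w', hw'⟩ := ih fun j hj => hw j (List.mem_cons_of_mem _ hj)
      obtain ⟨b, hb⟩ := hw a List.mem_cons_self
      exact ⟨b :: w', by rw [List.map_cons, hb, hw']⟩
  refine ⟨w', fun j => ?_⟩
  have h4 := h3 (some j) ⟨j, rfl⟩
  rw [← hw', sR_aw S hD, cof S hD] at h4
  exact h4

end

/-- **J_inj.** -/
theorem main : RDat.S_len → RDat.N_red → RDat.N_link → GD.J_hd → GD.J_inj := by
  intro _ hred hlink hhd n S hS D hD f hf k0 hp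
  classical
  obtain ⟨hinv, hlev⟩ := hf
  have hd : (cm S).det ≠ 0 := det_ne S hS
  by_contra hne
  have hsupp : f.coeff.support.Nonempty := by
    rw [Finset.nonempty_iff_ne_empty]
    intro h
    apply hne
    rw [Finsupp.support_eq_empty] at h
    exact AddMonoidAlgebra.coeff_injective h
  obtain ⟨y, hy, hmax⟩ := Finset.exists_max_image f.coeff.support (fun x => QN S (fp x + 1)) hsupp
  have haw : ∀ x ∈ f.coeff.support, x = aw 0 (fp x) := by
    intro x hx
    funext o
    cases o with
    | none => exact hlev x (Finsupp.mem_support_iff.1 hx)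
    | some i => rfl
  -- maximal weights are dominant
  have hdom : ∀ x ∈ f.coeff.support, QN S (fp x + 1) = QN S (fp y + 1) → ∀ j, 0 ≤ fp x j := by
    intro x hx he j
    by_contra hcon
    push Not at hcon
    have h1 := QN_lt S hS hd (fp x) j hcon
    have h2 : D.s (some j) x ∈ f.coeff.support := by
      rw [Finsupp.mem_support_iff, hinv (some j) x]
      exact Finsupp.mem_support_iff.1 hx
    have h3 : fp (D.s (some j) x) = fs S j (fp x) := by
      rw [haw x hx, s_aw S hD]
      rfl
    have h4 := hmax _ h2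
    rw [h3] at h4
    omega
  -- words
  choose w hw using fun x : Option (Fin n) → ℤ => exists_word S hD hred (fp x + 1)
  obtain ⟨K1, hK1⟩ := Finset.exists_le (f.coeff.support.image fun x => dot S.th (fp x))
  obtain ⟨K2, hK2⟩ := Finset.exists_le
    (f.coeff.support.image fun x => dot S.th (fa S (w x) (fp x + 1) - 1))
  obtain ⟨k, hk⟩ : ∃ k : ℤ, k = max k0 (max K1 K2) := ⟨_, rfl⟩
  have hk0 : k0 ≤ k := by rw [hk]; exact le_max_left _ _
  have hk1 : ∀ x ∈ f.coeff.support, dot S.th (fp x) ≤ k := fun x hx =>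
    (hK1 _ (Finset.mem_image_of_mem _ hx)).trans (by
      rw [hk]; exact (le_max_left _ _).trans (le_max_right _ _))
  have hk2 : ∀ x ∈ f.coeff.support, dot S.th (fa S (w x) (fp x + 1) - 1) ≤ k := fun x hx =>
    (hK2 _ (Finset.mem_image_of_mem (fun x => dot S.th (fa S (w x) (fp x + 1) - 1)) hx)).trans (by
      rw [hk]; exact (le_max_right _ _).trans (le_max_right _ _))
  have hnu : D.Dom (aw k (fp y)) := dom_aw S hD k _ (hdom y hy rfl) (hk1 y hy)
  obtain ⟨hl1, hl2, hl3⟩ := (hlink _ _ D S.rho (hhd n S hS D hD)).1 _ hnu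
  have hval : ∀ x ∈ f.coeff.support, x ≠ y → D.pf (aw k (fp y)) (aw k (fp x)) = 0 := by
    intro x hx hxy
    have hxy' : fp x ≠ fp y := by
      intro h
      apply hxy
      rw [haw x hx, haw y hy, h]
    have e1 : fp x = fp x + 1 - 1 := by simp
    have key : D.pf (aw k (fp y)) (aw k (fp x + 1 - 1)) = 0 := by
      by_cases hz : ∃ j, fa S (w x) (fp x + 1) j = 0
      · obtain ⟨j, hj⟩ := hz
        exact anti_fa S hD hl1 k (w x) _ (anti_zero S hD hl1 j k _ hj)
      · push Not at hz
        have h1 : D.Dom (aw k (fa S (w x) (fp x + 1) - 1)) := by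
          refine dom_aw S hD k _ (fun j => ?_) (hk2 x hx)
          have h2 := hw x j
          have h3 := hz j
          have h4 : (fa S (w x) (fp x + 1) - 1) j = fa S (w x) (fp x + 1) j - 1 := rfl
          rw [h4]
          omega
        by_cases heq : aw k (fa S (w x) (fp x + 1) - 1) = aw k (fp y)
        · have h5 : fa S (w x) (fp x + 1) = fp y + 1 := by
            have h6 : fa S (w x) (fp x + 1) - 1 = fp y := by
              funext j
              exact congrFun heq (some j)
            rw [← h6]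
            simp
          have h7 : QN S (fp x + 1) = QN S (fp y + 1) := by
            rw [← h5, QN_fa S hS]
          have h8 : D.Dom (aw k (fp x)) := dom_aw S hD k _ (hdom x hx h7) (hk1 x hx)
          rw [← e1]
          refine hl3 _ h8 fun h => hxy' ?_
          funext j
          exact congrFun h (some j)
        · exact anti_fa S hD hl1 k (w x) _ (hl3 _ h1 heq)
    rwa [← e1] at key
  have hfin := hp k hk0 _ hl1
  rw [pair_ex_mul, pair_apply, Finsupp.sum, Finset.sum_eq_single y] at hfin
  · have h1 : aw k 0 + y = aw k (fp y) := by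
      funext o
      cases o with
      | none =>
        show k + y none = k
        rw [hlev y (Finsupp.mem_support_iff.1 hy), add_zero]
      | some i =>
        show (0 : ℤ) + y (some i) = y (some i)
        rw [zero_add]
    rw [h1, hl2, mul_one] at hfin
    exact Finsupp.mem_support_iff.1 hy hfin
  · intro x hx hxy
    have h1 : aw k 0 + x = aw k (fp x) := by
      funext o
      cases o with
      | none =>
        show k + x none = k
        rw [hlev x (Finsupp.mem_support_iff.1 hx), add_zero]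
      | some i =>
        show (0 : ℤ) + x (some i) = x (some i)
        rw [zero_add]
    rw [h1, hval x hx hxy, mul_zero]
  · intro h
    exact absurd hy h

end H391.KR.P_jinj
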