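import Pool.Agent.H391.KR.JV

/-! # H391/KR, J_ker -/

noncomputable section

namespace H391.KR.P_jker

open Finset H391.KR

theorem pair_single {ι : Type} (p : (ι → ℤ) → ℤ) (x : ι → ℤ) (c : ℤ) :
    pair p (AddMonoidAlgebra.single x c) = c * p x := by
  simp [pair]

theorem pair_ex {ι : Type} (p : (ι → ℤ) → ℤ) (x : ι → ℤ) : pair p (ex x) = p x := by
  rw [ex, pair_single, one_mul]

theorem pair_ex_mul {ι : Type} (p : (ι → ℤ) → ℤ) (x : ι → ℤ) (g : GR ι) :
    pair p (ex x * g) = pair (fun z => p (x + z)) g := by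
  induction g using AddMonoidAlgebra.induction_linear with
  | zero => rw [mul_zero, map_zero, map_zero]
  | add a b ha hb => rw [mul_add, map_add, map_add, ha, hb]
  | single z c =>
    rw [ex, AddMonoidAlgebra.single_mul_single, one_mul, pair_single, pair_single]

theorem pair_mul {ι : Type} (p : (ι → ℤ) → ℤ) (h g : GR ι) :
    pair p (h * g) = pair (fun x => pair p (ex x * g)) h := by
  induction h using AddMonoidAlgebra.induction_linear with
  | zero => rw [zero_mul, map_zero, map_zero]
  | add a b ha hb => rw [add_mul, map_add, map_add, ha, hb]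
  | single x c =>
    rw [pair_single]
    have e : (AddMonoidAlgebra.single x c : GR ι) = c • ex x := by
      rw [ex, AddMonoidAlgebra.smul_single, smul_eq_mul, mul_one]
    rw [e, smul_mul_assoc, map_zsmul, smul_eq_mul]

theorem pair_eq_sum {ι : Type} (p : (ι → ℤ) → ℤ) (g : GR ι) :
    pair p g = ∑ z ∈ g.coeff.support, g.coeff z * p z := rfl

theorem s_s {ι I : Type} (D : RDat ι I) (j : I) (x : ι → ℤ) : D.s j (D.s j x) = x := by
  have h2 : D.co j (D.al j) = 2 := D.ev_rt (D.sim j)
  have h1 : D.co j (x - D.co j x • D.al j) = - D.co j x := by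
    have e : D.co j (x - D.co j x • D.al j) = D.co j x - D.co j x • D.co j (D.al j) := by
      unfold RDat.co
      rw [map_sub, map_zsmul]
    rw [e, h2, smul_eq_mul]
    ring
  unfold RDat.s
  rw [h1, neg_smul, sub_neg_eq_add, sub_add_cancel]

theorem pair_inv {ι I : Type} (D : RDat ι I) (j : I) (g : GR ι) (hg : D.IsInv j g)
    (q : (ι → ℤ) → ℤ) : pair q g = pair (fun z => q (D.s j z)) g := by
  rw [pair_eq_sum, pair_eq_sum]
  refine Finset.sum_nbij' (fun z => D.s j z) (fun z => D.s j z) ?_ ?_ ?_ ?_ ?_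
  · intro z hz
    rw [Finsupp.mem_support_iff] at hz ⊢
    rw [hg z]
    exact hz
  · intro z hz
    rw [Finsupp.mem_support_iff] at hz ⊢
    rw [hg z]
    exact hz
  · intro z _
    exact s_s D j z
  · intro z _
    exact s_s D j z
  · intro z _
    rw [hg z, s_s D j z]

theorem anti_mul {ι I : Type} (D : RDat ι I) (g : GR ι) (hg : ∀ j, D.IsInv j g)
    (p : (ι → ℤ) → ℤ) (hp : D.Anti p) : D.Anti (fun x => pair p (ex x * g)) := by
  intro y j
  simp only
  rw [pair_ex_mul, pair_ex_mul, pair_inv D j g (hg j)]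
  rw [pair_eq_sum, pair_eq_sum, ← Finset.sum_neg_distrib]
  refine Finset.sum_congr rfl fun z _ => ?_
  have e : y - (D.co j y + 1) • D.al j + D.s j z =
      (y + z) - (D.co j (y + z) + 1) • D.al j := by
    have e1 : D.co j (y + z) = D.co j y + D.co j z := by
      unfold RDat.co
      rw [map_add]
    rw [e1]
    unfold RDat.s
    rw [add_smul, add_smul, add_smul]
    abel
  rw [e, hp (y + z) j, mul_neg]

theorem main : RDat.N_link → GD.J_exp → GD.J_ker := by
  intro _ hV n S hS D hD k f g hf hg h0 p hp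
  obtain ⟨hfin, hA⟩ := hV n S hS D hD k
  have e : ex (aw k 0) * (g * f) = (ex (aw k 0) * f) * g := by ring
  rw [e, pair_mul, hA hfin.toFinset (fun la => hfin.mem_toFinset) _
    (anti_mul D g hg.1 p hp) f hf.2]
  refine Finset.sum_eq_zero fun la hla => ?_
  rw [h0 la (hfin.mem_toFinset.1 hla), mul_zero]

end H391.KR.P_jker
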