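import Pool.Agent.H391.KR.JV

/-!
# KR project (helper391), task KR-jkr (helper94)
-/

set_option autoImplicit false

noncomputable section

namespace H391.KR.P_jkr

open Finset H391.KR H391.KR.GD

theorem ex_mul {ι : Type} (x y : ι → ℤ) : ex x * ex y = ex (x + y) := by
  unfold ex
  rw [AddMonoidAlgebra.single_mul_single, one_mul]

theorem ex_zero {ι : Type} : ex (0 : ι → ℤ) = 1 := rfl

theorem ex_cancel {n : ℕ} (m : ℤ) (f g : GR (Option (Fin n)))
    (h : ex (aw m 0) * f = ex (aw m 0) * g) : f = g := by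
  have h1 : ex (aw (n := n) (-m) 0) * ex (aw m 0) = 1 := by
    rw [ex_mul, ← ex_zero]
    apply congrArg
    funext o
    rcases o with _ | j
    · show -m + m = 0
      ring
    · show (0 : ℤ) + 0 = 0
      rfl
  calc f = (ex (aw (n := n) (-m) 0) * ex (aw m 0)) * f := by rw [h1, one_mul]
    _ = ex (aw (n := n) (-m) 0) * (ex (aw m 0) * f) := mul_assoc _ _ _
    _ = ex (aw (n := n) (-m) 0) * (ex (aw m 0) * g) := by rw [h]
    _ = (ex (aw (n := n) (-m) 0) * ex (aw m 0)) * g := (mul_assoc _ _ _).symm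
    _ = g := by rw [h1, one_mul]

/-- evaluation of the class on the affine side -/
def psi {n : ℕ} (S : GD n) : S.RepR →+* GR (Option (Fin n)) :=
  (push aw0).comp (S.Rep.subtype : S.Rep →+* GR (Fin n))

theorem psi_eq {n : ℕ} (S : GD n) (f : S.RepR) : psi S f = push aw0 (chr f) := rfl

/-- the index of the neighbour product -/
theorem idx {n : ℕ} {S : GD n} (hS : S.OKs) (i j : Fin n) (m l : ℕ) (hl : l < (-(S.C i j)).toNat) :
    ((-(S.C j i)).toNat * ((S.t i).toNat * m) + l) / (-(S.C i j)).toNat = (S.t j).toNat * m := by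
  have ha : 0 < (-(S.C i j)).toNat := by omega
  have hC : S.C i j < 0 := by omega
  have hs := hS.symm i j
  have hti := hS.t_pos i
  have htj := hS.t_pos j
  have hC' : S.C j i < 0 := by
    by_contra hneg
    push Not at hneg
    have h1 : 0 ≤ S.t i * S.C j i := mul_nonneg (by omega) hneg
    have h2 : S.t j * S.C i j < 0 := mul_neg_of_pos_of_neg (by omega) hC
    omega
  have e1 : (((S.t i).toNat : ℕ) : ℤ) = S.t i := Int.toNat_of_nonneg (by omega)
  have e2 : (((S.t j).toNat : ℕ) : ℤ) = S.t j := Int.toNat_of_nonneg (by omega)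
  have e3 : (((-(S.C i j)).toNat : ℕ) : ℤ) = -(S.C i j) := Int.toNat_of_nonneg (by omega)
  have e4 : (((-(S.C j i)).toNat : ℕ) : ℤ) = -(S.C j i) := Int.toNat_of_nonneg (by omega)
  have h3 : (-(S.C j i)).toNat * ((S.t i).toNat * m) = (-(S.C i j)).toNat * ((S.t j).toNat * m) := by
    have h4 : (((-(S.C j i)).toNat * ((S.t i).toNat * m) : ℕ) : ℤ) =
        (((-(S.C i j)).toNat * ((S.t j).toNat * m) : ℕ) : ℤ) := by
      rw [Nat.cast_mul, Nat.cast_mul, Nat.cast_mul, Nat.cast_mul, e1, e2, e3, e4]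
      linear_combination (-(m : ℤ)) * hs
    exact_mod_cast h4
  rw [h3, Nat.mul_add_div ha, Nat.div_eq_of_lt hl, add_zero]

theorem main : GD.J_F → GD.J_mem → GD.J_red → GD.J_kr := by
  intro hF _ hred n S hS D hD hdem Q hQ
  obtain ⟨-, -, hF3, -, -, -, -⟩ := hF n S hS D hD hdem
  obtain ⟨-, hred2, hred3⟩ := hred n S hS D hD
  have h1 : ∀ i (m : ℕ), push aw0 (chr (Q i ((S.t i).toNat * m))) = S.F D i m := by
    intro i m
    obtain ⟨w, y, hw, hy⟩ := hred2 i
    have h := hQ.dem i m w y hw hy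
    rw [hred3 i w y hw hy m hdem, ← hF3 i m] at h
    exact ex_cancel _ _ _ h
  refine ⟨h1, ?_, ?_⟩
  · intro i m
    unfold GD.qnb GD.nb
    rw [← psi_eq, map_prod]
    apply Finset.prod_congr rfl
    intro j _
    rw [map_prod]
    have h2 : ∀ l ∈ range (-(S.C i j)).toNat,
        psi S (Q j (((-(S.C j i)).toNat * ((S.t i).toNat * m) + l) / (-(S.C i j)).toNat)) =
          S.F D j m := by
      intro l hl
      rw [idx hS i j m l (Finset.mem_range.1 hl), psi_eq, h1]
    rw [Finset.prod_congr rfl h2, Finset.prod_const, Finset.card_range]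
  · intro i m h0
    have htop := hQ.top i m
    unfold GD.mult at htop
    rw [h0, zero_mul] at htop
    have h2 : (0 : GR (Fin n)).coeff ((m : ℤ) • om i) = 0 := rfl
    rw [h2] at htop
    exact zero_ne_one htop

end H391.KR.P_jkr
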