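import Pool.Agent.H391.KR.JC

/-!
# Supports of the elements `T_m` (task KR-jlow)
-/

set_option autoImplicit false

noncomputable section

namespace H391.KR.P_jlow

open Finset H391.KR

section basic

variable {n : ℕ} (S : GD n)

/-- combination of the simple roots -/
def rc (g : Fin n → ℤ) : Fin n → ℤ := ∑ j, g j • S.rtw j

lemma rc_add (a b : Fin n → ℤ) : rc S (a + b) = rc S a + rc S b := by
  simp only [rc, Pi.add_apply, add_smul, Finset.sum_add_distrib]

lemma rc_smul (c : ℤ) (a : Fin n → ℤ) : rc S (c • a) = c • rc S a := by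
  simp only [rc, Pi.smul_apply, smul_eq_mul, mul_smul, Finset.smul_sum]

lemma rc_zero : rc S 0 = 0 := by
  simp [rc]

lemma rc_neg (a : Fin n → ℤ) : rc S (-a) = -rc S a := by
  have := rc_smul S (-1) a
  simpa using this

lemma rc_sub (a b : Fin n → ℤ) : rc S (a - b) = rc S a - rc S b := by
  rw [sub_eq_add_neg, rc_add, rc_neg, ← sub_eq_add_neg]

lemma rc_om (j : Fin n) : rc S (om j) = S.rtw j := by
  simp [rc, om]

lemma rc_inj (hS : S.OKs) {a b : Fin n → ℤ} (h : rc S a = rc S b) : a = b := by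
  have h1 : rc S (a - b) = 0 := by rw [rc_sub, h, sub_self]
  exact sub_eq_zero.1 (hS.nd' _ h1)

lemma dot_add_right (a x y : Fin n → ℤ) : dot a (x + y) = dot a x + dot a y := by
  simp only [dot, Pi.add_apply, mul_add, Finset.sum_add_distrib]

lemma dot_smul_right (c : ℤ) (a x : Fin n → ℤ) : dot a (c • x) = c * dot a x := by
  simp only [dot, Pi.smul_apply, smul_eq_mul, Finset.mul_sum]
  exact Finset.sum_congr rfl fun j _ => by ring

lemma dot_neg_right (a x : Fin n → ℤ) : dot a (-x) = -dot a x := by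
  simp only [dot, Pi.neg_apply, mul_neg, Finset.sum_neg_distrib]

lemma dot_sub_right (a x y : Fin n → ℤ) : dot a (x - y) = dot a x - dot a y := by
  rw [sub_eq_add_neg, dot_add_right, dot_neg_right, ← sub_eq_add_neg]

lemma dot_add_left (a b x : Fin n → ℤ) : dot (a + b) x = dot a x + dot b x := by
  simp only [dot, Pi.add_apply, add_mul, Finset.sum_add_distrib]

lemma dot_smul_left (c : ℤ) (a x : Fin n → ℤ) : dot (c • a) x = c * dot a x := by
  simp only [dot, Pi.smul_apply, smul_eq_mul, Finset.mul_sum]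
  exact Finset.sum_congr rfl fun j _ => by ring

lemma dot_neg_left (a x : Fin n → ℤ) : dot (-a) x = -dot a x := by
  simp only [dot, Pi.neg_apply, neg_mul, Finset.sum_neg_distrib]

lemma dot_sub_left (a b x : Fin n → ℤ) : dot (a - b) x = dot a x - dot b x := by
  rw [sub_eq_add_neg, dot_add_left, dot_neg_left, ← sub_eq_add_neg]

lemma dot_om_left (i : Fin n) (x : Fin n → ℤ) : dot (om i) x = x i := by
  simp [dot, om]

lemma fp_aw (l : ℤ) (x : Fin n → ℤ) : fp (aw l x) = x := rfl

lemma aw_none (l : ℤ) (x : Fin n → ℤ) : aw l x none = l := rfl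

lemma aw_add (a b : ℤ) (x y : Fin n → ℤ) : aw a x + aw b y = aw (a + b) (x + y) := by
  funext o
  cases o <;> rfl

lemma aw_sub (a b : ℤ) (x y : Fin n → ℤ) : aw a x - aw b y = aw (a - b) (x - y) := by
  funext o
  cases o <;> rfl

lemma aw_smul (c a : ℤ) (x : Fin n → ℤ) : c • aw a x = aw (c * a) (c • x) := by
  funext o
  cases o <;> rfl

lemma aw_inj {l l' : ℤ} {x y : Fin n → ℤ} (h : aw l x = aw l' y) : x = y :=
  funext fun i => congrFun h (some i)

/-- finite reflection -/
def sf (a mu : Fin n → ℤ) : Fin n → ℤ := mu - dot a mu • S.rt a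

end basic

section main

variable {n : ℕ} {S : GD n} {D : RDat (Option (Fin n)) (Option (Fin n))}

lemma xi_T (hD : S.AffDat D) (i : Fin n) : S.xi i ∈ D.T := by
  rw [hD.T]
  show (1 : ℤ) ≤ 1
  exact le_refl _

lemma xi_eq (i : Fin n) : (S.xi i : Option (Fin n) → ℤ) = aw 1 (-(S.t i • om i) + rc S 0) := by
  rw [rc_zero, add_zero]
  rfl

lemma s_some (hD : S.AffDat D) (j : Fin n) (l : ℤ) (mu : Fin n → ℤ) :
    D.s (some j) (aw l mu) = aw l (mu - mu j • S.rtw j) := by
  unfold RDat.s
  rw [hD.co, hD.al]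
  show aw l mu - (mu j) • aw 0 (S.rtw j) = _
  rw [aw_smul, aw_sub]
  simp

/-- negatives of coroots -/
lemma cor_neg (hS : S.OKs) {a : Fin n → ℤ} (ha : S.Cor a) :
    S.Cor (-a) ∧ S.rt (-a) = -S.rt a := by
  have h1 := hS.refl a a ha ha
  have h2 := hS.two a ha
  rw [h2] at h1
  have h3 : a - (2 : ℤ) • a = -a := by
    rw [two_smul]
    abel
  have h4 : S.rt a - (2 : ℤ) • S.rt a = -S.rt a := by
    rw [two_smul]
    abel
  rw [h3, h4] at h1
  exact ⟨h1.1, h1.2.2⟩

/-- the root of a coroot as a combination of the simple roots, with signs -/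
lemma rtg (hS : S.OKs) {a : Fin n → ℤ} (ha : S.Cor a) :
    ∃ g : Fin n → ℤ, S.rt a = rc S g ∧ ((∀ j, 0 ≤ a j) → ∀ j, 0 ≤ g j) ∧
      ((∀ j, a j ≤ 0) → ∀ j, g j ≤ 0) := by
  obtain ⟨g, hg, hg2⟩ := hS.rtc a ha
  have h1 := hS.tt_pos a ha
  refine ⟨g, hg, fun h j => ?_, fun h j => ?_⟩
  · have h2 := hg2 j
    have h3 := mul_nonneg (show 0 ≤ S.t j by have := hS.t_pos j; omega) (h j)
    rw [← h2] at h3
    exact nonneg_of_mul_nonneg_right h3 (by omega)
  · have h2 := hg2 j
    have h3 := mul_nonpos_of_nonneg_of_nonpos (show 0 ≤ S.t j by have := hS.t_pos j; omega) (h j)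
    rw [← h2] at h3
    by_contra hcon
    push Not at hcon
    have := mul_pos (show 0 < S.tt a by omega) hcon
    omega

/-- the form of the weights below `xi i` -/
lemma form (hS : S.OKs) (hD : S.AffDat D) (i : Fin n)
    (y : Option (Fin n) → ℤ) (h : D.Le y (S.xi i)) :
    ∃ g, y = aw 1 (-(S.t i • om i) + rc S g) := by
  unfold RDat.Le RDat.Rel at h
  induction h with
  | refl => exact ⟨0, xi_eq i⟩
  | tail hz hstep ih =>
    rename_i z y
    obtain ⟨b, hneg, hy, -, -⟩ := hstep
    obtain ⟨g, hzg⟩ := ih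
    obtain ⟨a, m, hpos, hev, hrt⟩ := hD.ev b
    obtain ⟨ga, hga, -, -⟩ := rtg hS hpos.1
    refine ⟨g - D.ev b z • ga, ?_⟩
    rw [hy, hrt, hga]
    generalize D.ev b z = c
    rw [hzg, aw_smul, aw_sub, rc_sub, rc_smul, mul_zero, sub_zero]
    congr 1
    abel

/-- the lower set of `xi i` is stable under finite reflections -/
lemma stab (hbru : RDat.S_bru) (hS : S.OKs) (hD : S.AffDat D) (i : Fin n) (a : Fin n → ℤ)
    (ha : S.Cor a) : ∀ mu, D.Le (aw 1 mu) (S.xi i) → D.Le (aw 1 (sf S a mu)) (S.xi i) := by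
  have simple : ∀ (j : Fin n) mu, D.Le (aw 1 mu) (S.xi i) →
      D.Le (aw 1 (mu - mu j • S.rtw j)) (S.xi i) := by
    intro j mu hmu
    have h1 : D.co (some j) (S.xi i) ≤ 0 := by
      rw [hD.co]
      show (-(S.t i • om i)) j ≤ 0
      have := hS.t_pos i
      simp only [om, Pi.neg_apply, Pi.smul_apply, smul_eq_mul]
      split_ifs <;> omega
    have h2 := (hbru _ _ D (S.xi i) (aw 1 mu) (xi_T hD i) hmu (some j)).1 h1
    rwa [s_some hD] at h2
  induction ha with
  | simple j =>
    intro mu hmu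
    have h1 : sf S (om j) mu = mu - mu j • S.rtw j := by
      unfold sf
      rw [(hS.om j).2, dot_om_left]
    rw [h1]
    exact simple j mu hmu
  | refl a j ha ih =>
    intro mu hmu
    have h1 := simple j _ (ih _ (simple j mu hmu))
    have h2 := (hS.refl (om j) a (GD.Cor.simple j) ha).2.2
    rw [(hS.om j).2, dot_om_left] at h2
    have h3 : dot (om j) (S.rtw j) = 2 := by
      have := hS.two (om j) (GD.Cor.simple j)
      rwa [(hS.om j).2] at this
    rw [dot_om_left] at h3
    convert h1 using 2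
    unfold sf
    rw [h2]
    funext k
    simp only [Pi.sub_apply, Pi.smul_apply, smul_eq_mul, dot_sub_left, dot_sub_right,
      dot_smul_left, dot_smul_right, dot_om_left, h3]
    ring

/-- the weights below `xi i` have nonnegative coordinates -/
lemma nonneg (hrf : RDat.S_refl) (hcg : RDat.S_cong) (hbru : RDat.S_bru) (hS : S.OKs)
    (hD : S.AffDat D) (i : Fin n) : ∀ (N : ℕ) (g : Fin n → ℤ),
      D.Le (aw 1 (-(S.t i • om i) + rc S g)) (S.xi i) →
      D.len (S.xi i) ≤ D.len (aw 1 (-(S.t i • om i) + rc S g)) + N → ∀ j, 0 ≤ g j := by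
  intro N
  induction N with
  | zero =>
    intro g hle hlen
    rcases Relation.ReflTransGen.cases_tail hle with h | ⟨z, hz, b, -, -, hl, -⟩
    · have h1 : g = 0 := by
        apply rc_inj S hS
        rw [xi_eq (S := S)] at h
        exact add_left_cancel (aw_inj h)
      intro j
      rw [h1]
      rfl
    · exfalso
      have h1 := (hcg _ _ D 1 0 (S.xi i) z (xi_T hD i) hz).2.1
      omega
  | succ N ih =>
    intro g hle hlen
    rcases Relation.ReflTransGen.cases_tail hle with h | ⟨z, hz, b, hbneg, hy, hl, -⟩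
    · have h1 : g = 0 := by
        apply rc_inj S hS
        rw [xi_eq (S := S)] at h
        exact add_left_cancel (aw_inj h)
      intro j
      rw [h1]
      rfl
    · obtain ⟨gz, hzg⟩ := form hS hD i z hz
      obtain ⟨a, m, hpos, hev, hrt⟩ := hD.ev b
      obtain ⟨ga, hga, hga1, hga2⟩ := rtg hS hpos.1
      have hzT : z ∈ D.T := (hcg _ _ D 1 0 (S.xi i) z (xi_T hD i) hz).1
      set d : ℤ := dot a (-(S.t i • om i) + rc S gz) with hd
      have e1 : D.ev b z = d + m := by
        rw [hev, hzg, fp_aw, aw_none, mul_one]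
      have e2 : g = gz - (d + m) • ga := by
        apply rc_inj S hS
        rw [e1, hrt, hzg, aw_smul, aw_sub] at hy
        have h1 := aw_inj hy
        rw [rc_sub, rc_smul, ← hga]
        have h2 : -(S.t i • om i) + rc S gz - (d + m) • S.rt a =
            -(S.t i • om i) + (rc S gz - (d + m) • S.rt a) := by
          abel
        rw [h2] at h1
        exact add_left_cancel h1
      rw [e1] at hbneg
      by_cases ha : ∀ j, 0 ≤ a j
      · have h1 := ih gz (by rw [← hzg]; exact hz) (by rw [← hzg]; omega)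
        intro j
        rw [e2]
        simp only [Pi.sub_apply, Pi.smul_apply, smul_eq_mul]
        have h2 := mul_nonneg (show 0 ≤ -(d + m) by omega) (hga1 ha j)
        have h3 := h1 j
        linarith
      · have hm : 1 ≤ m := by
          rcases hpos.2.2 with h | h
          · exact h
          · exact absurd h.2 ha
        have ha' : ∀ j, a j ≤ 0 := (hS.sgn a hpos.1).2.resolve_left ha
        have hna : ∀ j, 0 ≤ (-a) j := fun j => by
          have := ha' j
          simp only [Pi.neg_apply]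
          omega
        obtain ⟨hcn, hrn⟩ := cor_neg hS hpos.1
        have hzle : D.Le (aw 1 (-(S.t i • om i) + rc S gz)) (S.xi i) := by
          rw [← hzg]
          exact hz
        have h1 := stab hbru hS hD i (-a) hcn _ hzle
        have e3 : sf S (-a) (-(S.t i • om i) + rc S gz) =
            -(S.t i • om i) + rc S (gz - d • ga) := by
          unfold sf
          rw [dot_neg_left, hrn, ← hd, rc_sub, rc_smul, ← hga, neg_smul, smul_neg, neg_neg]
          abel
        rw [e3] at h1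
        obtain ⟨b', hb'1, hb'2⟩ := hD.exi (-a) 0 ⟨hcn, dvd_zero _, Or.inr ⟨rfl, hna⟩⟩
        have hz'T : aw 1 (-(S.t i • om i) + rc S (gz - d • ga)) ∈ D.T :=
          (hcg _ _ D 1 0 (S.xi i) _ (xi_T hD i) h1).1
        have haa : dot a (S.rt a) = 2 := hS.two a hpos.1
        have e4 : D.ev b' (aw 1 (-(S.t i • om i) + rc S (gz - d • ga))) = d := by
          rw [hb'1, fp_aw, dot_neg_left, rc_sub, rc_smul, ← hga, zero_mul, add_zero]
          have h2 : -(S.t i • om i) + (rc S gz - d • S.rt a) =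
              (-(S.t i • om i) + rc S gz) - d • S.rt a := by abel
          rw [h2, dot_sub_right, dot_smul_right, ← hd, haa]
          ring
        have h2 := hrf _ _ D _ hz'T b' (by rw [e4]; omega)
        have e5 : aw 1 (-(S.t i • om i) + rc S (gz - d • ga)) -
            D.ev b' (aw 1 (-(S.t i • om i) + rc S (gz - d • ga))) • D.rt b' = z := by
          rw [e4, hb'2, aw_smul, aw_sub, hzg, hrn, rc_sub, rc_smul, ← hga, mul_zero, sub_zero]
          congr 1
          rw [smul_neg]
          abel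
        rw [e5] at h2
        have h3 := ih _ h1 (by omega)
        intro j
        have h4 := h3 j
        rw [e2]
        simp only [Pi.sub_apply, Pi.smul_apply, smul_eq_mul] at h4 ⊢
        have h5 := mul_nonneg (show 0 ≤ m by omega) (show 0 ≤ -ga j by
          have := hga2 ha' j
          omega)
        linarith

lemma clos (hS : S.OKs) (hD : S.AffDat D) (x : Option (Fin n) → ℤ)
    (hx : x ∈ AddSubgroup.closure (Set.range D.al)) : ∃ g, x = aw 0 (rc S g) := by
  induction hx using AddSubgroup.closure_induction with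
  | mem x hx =>
    obtain ⟨j, rfl⟩ := hx
    cases j with
    | none =>
      obtain ⟨g, hg, -, -⟩ := rtg hS hS.th_cor.1
      refine ⟨-g, ?_⟩
      rw [hD.al, rc_neg, ← hg]
      rfl
    | some j =>
      refine ⟨om j, ?_⟩
      rw [hD.al, rc_om]
      rfl
  | zero => exact ⟨0, by rw [rc_zero]; funext o; cases o <;> rfl⟩
  | add x y _ _ hx hy =>
    obtain ⟨g, rfl⟩ := hx
    obtain ⟨g', rfl⟩ := hy
    exact ⟨g + g', by rw [aw_add, rc_add, add_zero]⟩
  | neg x _ hx =>
    obtain ⟨g, rfl⟩ := hx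
    refine ⟨-g, ?_⟩
    rw [rc_neg]
    funext o
    cases o <;> rfl

lemma sum_aw (i : Fin n) (G : ℕ → Fin n → ℤ) (N : ℕ) :
    ∑ l ∈ range N, (aw 1 (-(S.t i • om i) + rc S (G l)) : Option (Fin n) → ℤ) =
      aw N (-((N : ℤ) • (S.t i • om i)) + rc S (∑ l ∈ range N, G l)) := by
  induction N with
  | zero =>
    simp only [Finset.range_zero, Finset.sum_empty, rc_zero, Nat.cast_zero, zero_smul, neg_zero,
      add_zero]
    funext o
    cases o <;> rfl
  | succ N ih =>
    rw [Finset.sum_range_succ, Finset.sum_range_succ, ih, aw_add, rc_add]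
    congr 1
    push_cast
    rw [add_smul, one_smul]
    abel

/-- the support of a Demazure character -/
lemma supp (hrf : RDat.S_refl) (hcg : RDat.S_cong) (hbru : RDat.S_bru) (hS : S.OKs)
    (hD : S.AffDat D) (hOK : D.DemOK) (i : Fin n)
    (x : Option (Fin n) → ℤ) (hx : D.Le x (S.xi i)) (m : ℕ) (mu : Option (Fin n) → ℤ)
    (hmu : (D.Dem x m).coeff mu ≠ 0) :
    ∃ (g : Fin n → ℤ), mu = aw m (-((m : ℤ) • (S.t i • om i)) + rc S g) ∧ ∀ j, 0 ≤ g j := by
  have hxT : x ∈ D.T := (hcg _ _ D 1 0 (S.xi i) x (xi_T hD i) hx).1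
  obtain ⟨gx, hgx⟩ := form hS hD i x hx
  obtain ⟨M, y, hM, hy, hsum⟩ := hOK.d6 x hxT m mu hmu
  obtain ⟨g0, hg0⟩ := clos hS hD _ (hOK.d8 x hxT m mu hmu)
  have hG : ∀ l, ∃ g : Fin n → ℤ, l < m * M → y l = aw 1 (-(S.t i • om i) + rc S g) ∧
      ∀ j, 0 ≤ g j := by
    intro l
    by_cases hl : l < m * M
    · have h1 : D.Le (y l) (S.xi i) := Relation.ReflTransGen.trans hx (hy l hl)
      obtain ⟨g, hg⟩ := form hS hD i _ h1
      refine ⟨g, fun _ => ⟨hg, ?_⟩⟩
      rw [hg] at h1
      exact nonneg hrf hcg hbru hS hD i (D.len (S.xi i)) g h1 (Nat.le_add_left _ _)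
    · exact ⟨0, fun h => absurd h hl⟩
  choose G hG using hG
  have hmu' : mu = aw m (-((m : ℤ) • (S.t i • om i)) + rc S ((m : ℤ) • gx + g0)) := by
    have h1 : mu = (m : ℤ) • x + aw 0 (rc S g0) := by
      rw [← hg0]
      abel
    rw [h1, hgx, aw_smul, aw_add, mul_one, add_zero, rc_add, rc_smul, smul_add, smul_neg,
      add_assoc]
  refine ⟨(m : ℤ) • gx + g0, hmu', ?_⟩
  have h2 : (M : ℤ) • ((m : ℤ) • gx + g0) = ∑ l ∈ range (m * M), G l := by
    apply rc_inj S hS
    have h1 : ∑ l ∈ range (m * M), y l = ∑ l ∈ range (m * M),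
        (aw 1 (-(S.t i • om i) + rc S (G l)) : Option (Fin n) → ℤ) :=
      Finset.sum_congr rfl fun l hl => (hG l (Finset.mem_range.1 hl)).1
    rw [h1, sum_aw, hmu', aw_smul] at hsum
    have h2 := aw_inj hsum
    rw [smul_add, smul_neg, smul_smul (M : ℤ) (m : ℤ), ← rc_smul] at h2
    push_cast at h2
    rw [mul_comm (M : ℤ)] at h2
    exact add_left_cancel h2
  intro j
  have h5 : 0 ≤ ∑ l ∈ range (m * M), G l j :=
    Finset.sum_nonneg fun l hl => (hG l (Finset.mem_range.1 hl)).2 j
  have h6 := congrFun h2 j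
  rw [Finset.sum_apply, Pi.smul_apply, smul_eq_mul] at h6
  rw [← h6] at h5
  exact nonneg_of_mul_nonneg_right h5 (by exact_mod_cast hM)

lemma coeffT (i : Fin n) (m : ℕ) (mu : Fin n → ℤ) :
    (S.T D i m).coeff (aw 0 mu) = (D.Dem (S.xi i) m).coeff (aw m (mu - om i)) -
      (D.Dem (D.s (some i) (S.xi i)) m).coeff (aw m (mu - om i)) := by
  have h1 : (aw 0 mu : Option (Fin n) → ℤ) = aw (-(m : ℤ)) (om i) + aw m (mu - om i) := by
    rw [aw_add, neg_add_cancel]
    congr 1
    abel
  unfold GD.T ex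
  rw [h1, AddMonoidAlgebra.coeff_single_mul_add, one_mul]
  rfl

lemma fold_coeff (hD : S.AffDat D) (f : GR (Option (Fin n))) (hf : ∀ j, D.IsInv j f)
    (w : List (Fin n)) : ∀ mu : Fin n → ℤ,
    f.coeff (aw 0 (w.foldl (fun y j => y - y j • S.rtw j) mu)) = f.coeff (aw 0 mu) := by
  induction w with
  | nil => intro mu; rfl
  | cons j w ih =>
    intro mu
    rw [List.foldl_cons, ih, ← s_some hD]
    exact hf (some j) _

end main

theorem main : RDat.S_len → RDat.S_refl → RDat.S_cong → RDat.S_bru → GD.J_F → GD.J_low := by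
  intro hlen hrf hcg hbru hJF n S hS D hD hOK i m mu hmu
  obtain ⟨-, f2, -, -, -, -, -⟩ := hJF n S hS D hD hOK
  have hco : D.co (some i) (S.xi i) < 0 := by
    rw [hD.co]
    show (-(S.t i • om i)) i < 0
    have := hS.t_pos i
    simp only [om, Pi.neg_apply, Pi.smul_apply, smul_eq_mul, if_true]
    omega
  have hle : D.Le (D.s (some i) (S.xi i)) (S.xi i) :=
    (hbru _ _ D (S.xi i) (S.xi i) (xi_T hD i) Relation.ReflTransGen.refl (some i)).2.2 hco
  obtain ⟨w, hw⟩ := hS.w0
  have h1 := fold_coeff hD (S.T D i m) (f2 i m).1 w mu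
  rw [hw] at h1
  rw [← h1, coeffT] at hmu
  have h2 : ∃ (g : Fin n → ℤ), (aw m (-mu - om i) : Option (Fin n) → ℤ) =
      aw m (-((m : ℤ) • (S.t i • om i)) + rc S g) ∧ ∀ j, 0 ≤ g j := by
    by_cases h3 : (D.Dem (S.xi i) m).coeff (aw m (-mu - om i)) = 0
    · rw [h3, zero_sub] at hmu
      exact supp hrf hcg hbru hS hD hOK i _ hle m _ (neg_ne_zero.1 hmu)
    · exact supp hrf hcg hbru hS hD hOK i _ Relation.ReflTransGen.refl m _ h3
  obtain ⟨g, hg, hg0⟩ := h2
  have h4 := aw_inj hg
  refine ⟨fun j => (g j).toNat, ?_⟩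
  have h5 : (∑ j, (((g j).toNat : ℕ) : ℤ) • S.rtw j) = rc S g := by
    unfold rc
    exact Finset.sum_congr rfl fun j _ => by rw [Int.toNat_of_nonneg (hg0 j)]
  rw [h5]
  have h6 : mu = -(-mu - om i) - om i := by abel
  rw [h6, h4, sub_smul, one_smul, mul_comm, mul_smul]
  abel

end H391.KR.P_jlow
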