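import Pool.Agent.H391.KR.JV

/-!
# KR project (helper391), task KR-jlvV (helper344)
-/

set_option autoImplicit false

noncomputable section

namespace H391.KR.P_jlvV

open Finset H391.KR H391.KR.GD

/-- evaluation of the class on the affine side -/
def psi {n : ℕ} (S : GD n) : S.RepR →+* GR (Option (Fin n)) :=
  (push aw0).comp (S.Rep.subtype : S.Rep →+* GR (Fin n))

theorem psi_eq {n : ℕ} (S : GD n) (f : S.RepR) : psi S f = push aw0 (chr f) := rfl

theorem main : RDat.N_link → GD.J_hd → GD.J_pik → GD.J_mem → GD.J_F → GD.J_K → GD.J_pos →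
    GD.J_lvV := by
  intro hNlink hhd hpik hmem hF hK hpos
  intro n S hS D hD hdem i Fe Te hFe hTe k hk V _ R
  have hHD := hhd n S hS D hD
  obtain ⟨hl1, -, -, -⟩ := hNlink _ _ D S.rho hHD
  obtain ⟨-, halc, hpiK⟩ := hpik n S hS D hD k
  obtain ⟨hm1, -, -⟩ := hmem n S hS D hD
  obtain ⟨-, hT1, -, -, -, -, -⟩ := hF n S hS D hD hdem
  obtain ⟨hv1, hv2, hv3, hv4, hv5⟩ := hpos n S hS D hD hdem i
  have hInv1 : SLC.Inv0 D (1 : GR (Option (Fin n))) := by
    have h := hm1 1
    rwa [OneMemClass.coe_one, map_one] at h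
  have key : ∀ (f : S.RepR) (la : S.alc k), R.co (R.pi f) la =
      pair (D.pf (aw k la)) (ex (aw k 0) * psi S f) := fun f la => by
    rw [R.pi_eq, psi_eq]
    exact hpiK f la la.2
  have hanti : ∀ la : S.alc k, D.Anti (D.pf (aw k la)) := fun la =>
    (hl1 _ ((halc la).1 la.2)).1
  have hFe' : ∀ m, psi S (Fe m) = S.F D i m := fun m => by rw [psi_eq, hFe]
  have hTe' : ∀ m, psi S (Te m) = S.T D i m := fun m => by rw [psi_eq, hTe]
  refine ⟨?_, ?_, ?_, ?_, ?_⟩
  · intro m hm
    obtain ⟨h1, la, hla, h2⟩ := hv1 k m hm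
    refine ⟨?_, ?_⟩
    · intro la
      rw [key, hFe']
      exact h1 _ ((halc la).1 la.2)
    · intro h0
      apply h2
      have h3 := key (Fe m) ⟨la, hla⟩
      rw [h0, hFe', map_zero] at h3
      exact h3.symm
  · intro m hm la
    rw [key, hTe']
    exact hv2 k m hm _ ((halc la).1 la.2)
  · obtain ⟨N, hN, h3⟩ := hv4 k
    have h4 : R.pi (Fe k ^ N) = R.pi 1 := by
      apply R.co.injective
      funext la
      rw [key, key]
      have h5 := h3 _ (hanti la) 1 hInv1
      rw [one_mul, one_mul, ← hFe'] at h5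
      rw [map_pow, h5, map_one, mul_one]
    rw [map_pow, map_one] at h4
    exact IsUnit.of_pow_eq_one h4 hN.ne'
  · apply R.co.injective
    funext la
    rw [key, hFe']
    have h5 := hv5 k hk _ (hanti la) 1 hInv1
    rw [one_mul] at h5
    rw [h5, map_zero]
    rfl
  · intro X m u hm hu
    rw [← map_mul]
    apply R.co.injective
    funext la
    have h0 : psi S (Fe k * Te (k - m)) = S.F D i k * S.T D i (k - m) := by
      rw [map_mul, hFe', hTe']
    have h0' : psi S u = X.U m := hu
    rw [key, key, h0, h0']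
    obtain ⟨-, hK2⟩ := hK n S hS D hD hdem i X
    have h1 := hK2 m k hm _ (hanti la) 1 hInv1
    have h2 := hv3 X k _ (hanti la) (S.T D i (k - m)) (hT1 i (k - m))
    rw [one_mul, one_mul] at h1
    rw [h1]
    have h3 : ex (aw k 0) * (S.F D i k * S.T D i (k - m)) =
        S.T D i (k - m) * (ex (aw k 0) * S.F D i k) := by ring
    rw [h3, h2, mul_comm]

end H391.KR.P_jlvV
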