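import Pool.Agent.H391.KR.JV

/-!
# KR project (helper391), task KR-jlvq (helper795)
-/

set_option autoImplicit false

noncomputable section

namespace H391.KR.P_jlvq

open Finset H391.KR H391.KR.GD

/-- evaluation of the class on the affine side -/
def psi {n : ℕ} (S : GD n) : S.RepR →+* GR (Option (Fin n)) :=
  (push aw0).comp (S.Rep.subtype : S.Rep →+* GR (Fin n))

theorem psi_eq {n : ℕ} (S : GD n) (f : S.RepR) : psi S f = push aw0 (chr f) := rfl

theorem main : RDat.N_link → GD.J_hd → GD.J_sig → GD.J_mem → GD.J_sin → GD.J_mul → GD.J_lev →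
    GD.J_F → GD.J_K → GD.J_pos → GD.J_lvq := by
  intro hNlink hhd hsig hmem hsin hmul hlev hJF hJK hJpos
  intro n S hS D hD hdem i Fe Te hFe hTe k hk
  have hHD := hhd n S hS D hD
  obtain ⟨hF1, hT1, -, -, -, -, -⟩ := hJF n S hS D hD hdem
  obtain ⟨hm1, hm2, hm3⟩ := hmem n S hS D hD
  obtain ⟨-, -, hspos, -, -⟩ := hsin n S hS
  obtain ⟨hl1, -, -, -⟩ := hNlink _ _ D S.rho hHD
  obtain ⟨hp1, hp2, hp3, hp4, -⟩ := hJpos n S hS D hD hdem i
  -- the parameter
  have hhv : (1 : ℝ) ≤ (S.hv : ℤ) := by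
    have h1 : (1 : ℤ) ≤ S.hv := by
      unfold GD.hv
      have h2 : 0 ≤ ∑ i, S.th i := Finset.sum_nonneg fun i _ => by
        have := hS.th_pos i
        omega
      omega
    exact_mod_cast h1
  have hk0 : (0 : ℝ) ≤ k := Nat.cast_nonneg k
  have hpar0 : 0 < S.par k := by
    unfold GD.par
    apply div_pos Real.pi_pos
    linarith
  have hparle : S.par k * S.hv ≤ Real.pi := by
    unfold GD.par
    rw [div_mul_eq_mul_div, div_le_iff₀ (by linarith)]
    have := Real.pi_pos
    nlinarith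
  obtain ⟨e0, he0⟩ := (hmul n S hS).1 (S.par k) hpar0 hparle
  obtain ⟨e, he⟩ : ∃ e : S.RepR →+* ℝ, ∀ f : S.RepR, e f = S.qdim k f := ⟨e0, fun f => he0 f⟩
  obtain ⟨A, hA, hlev⟩ := hlev n S hS D hD k
  have hq : ∀ f : S.RepR, S.qdim k f =
      ∑ la ∈ A, (S.lm D k la (push aw0 (chr f)) : ℝ) * S.qdR (S.par k) la := fun f => hlev f
  have hdom : ∀ la ∈ S.alc k, D.Dom (aw k la) := by
    rintro la ⟨h1, h2⟩ j
    rw [hD.co]
    rcases j with _ | j
    · show 0 ≤ (k : ℤ) - dot S.th (fp (aw k la))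
      have h3 : fp (aw (k : ℤ) la) = la := rfl
      rw [h3]
      linarith
    · exact h1 j
  -- elements with the same pairings have the same quantum dimension
  have hqq : ∀ f g : S.RepR, (∀ p, D.Anti p →
      pair p (ex (aw k 0) * psi S f) = pair p (ex (aw k 0) * psi S g)) →
      S.qdim k f = S.qdim k g := by
    intro f g h
    rw [hq, hq]
    refine Finset.sum_congr rfl fun la hla => ?_
    have hla' := (hA la).1 hla
    have h1 : S.lm D k la (push aw0 (chr f)) = S.lm D k la (push aw0 (chr g)) :=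
      h (D.pf (aw k la)) (hl1 _ (hdom la hla')).1
    rw [h1]
  have hInv : ∀ f : S.RepR, SLC.Inv0 D (psi S f) := fun f => hm1 f
  have hpF : ∀ m, psi S (Fe m) = S.F D i m := hFe
  have hpT : ∀ m, psi S (Te m) = S.T D i m := hTe
  -- positivity
  have c1 : ∀ m ≤ k, 0 < S.qdim k (Fe m) := by
    intro m hm
    obtain ⟨w1, la0, hla0, hne⟩ := hp1 k m hm
    rw [hq, hFe]
    have hnn : ∀ la ∈ A, 0 ≤ (S.lm D k la (S.F D i m) : ℝ) * S.qdR (S.par k) la := by
      intro la hla
      have hla' := (hA la).1 hla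
      refine mul_nonneg ?_ (hspos k la hla').le
      exact_mod_cast w1 _ (hdom la hla')
    refine lt_of_lt_of_le ?_ (Finset.single_le_sum hnn ((hA la0).2 hla0))
    refine mul_pos ?_ (hspos k la0 hla0)
    have h5 : 0 < S.lm D k la0 (S.F D i m) :=
      lt_of_le_of_ne (w1 _ (hdom la0 hla0)) (Ne.symm hne)
    exact_mod_cast h5
  have c2 : S.qdim k (Fe k) = 1 := by
    obtain ⟨N, hN, hpN⟩ := hp4 k
    have h1 : S.qdim k (Fe k ^ N) = S.qdim k 1 := by
      refine hqq _ _ fun p hp => ?_
      have h2 := hpN p hp 1 (by have h := hInv 1; rwa [map_one] at h)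
      rw [one_mul, one_mul] at h2
      rw [map_pow, map_one, hpF, mul_one]
      exact h2
    rw [← he, ← he, map_pow, map_one, he] at h1
    exact (pow_eq_one_iff_of_nonneg (c1 k le_rfl).le hN.ne').1 h1
  have c3 : ∀ m ≤ k, 0 ≤ S.qdim k (Te m) := by
    intro m hm
    rw [hq]
    refine Finset.sum_nonneg fun la hla => ?_
    have hla' := (hA la).1 hla
    refine mul_nonneg ?_ (hspos k la hla').le
    have h5 := hp2 k m hm (aw k la) (hdom la hla')
    rw [← hTe] at h5
    exact_mod_cast h5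
  -- the relation for products with `U_m`
  have key : ∀ (X : S.XD D i) (m : ℕ) (a u : S.RepR), m ≤ k →
      psi S u = psi S a * X.U m → S.qdim k u = S.qdim k a * S.qdim k (Te (k - m)) := by
    intro X m a u hm hu
    have h1 : S.qdim k u = S.qdim k (Fe k * (a * Te (k - m))) := by
      refine hqq _ _ fun p hp => ?_
      have h2 := (hJK n S hS D hD hdem i X).2 m k hm p hp (psi S a) (hInv a)
      have h3 := hp3 X k p hp (psi S (a * Te (k - m))) (hInv _)
      have h4 : ex (aw (k : ℤ) 0) * psi S u = psi S a * (ex (aw (k : ℤ) 0) * X.U m) := by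
        rw [hu]
        ring
      have h5 : psi S a * (ex (aw (k : ℤ) 0) * S.T D i (k - m)) =
          psi S (a * Te (k - m)) * ex (aw (k : ℤ) 0) := by
        rw [map_mul, hpT]
        ring
      have h6 : ex (aw (k : ℤ) 0) * psi S (Fe k * (a * Te (k - m))) =
          psi S (a * Te (k - m)) * (ex (aw (k : ℤ) 0) * S.F D i k) := by
        rw [map_mul (psi S) (Fe k), hpF]
        ring
      rw [h4, h2, h5, h6, h3]
    rw [h1, ← he, map_mul, map_mul, he, he, he, c2, one_mul]
  refine ⟨c1, c2, c3, ?_, ?_⟩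
  · intro m hm g hg
    obtain ⟨X⟩ := (hsig n S hS D hD i).2
    refine key X m (Te m) g hm ?_
    rw [hpT, psi_eq, hg]
    exact (hJK n S hS D hD hdem i X).1 m
  · intro X m u hm hu
    have h1 := key X m 1 u hm (by rw [psi_eq, hu, map_one, one_mul])
    rw [h1, ← he 1, map_one, one_mul]

end H391.KR.P_jlvq
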