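import Pool.Agent.H391.KR.JV

namespace H391.KR.P_jnum

open H391.KR

theorem le_of {I : Type} [Fintype I] (A B x y : I → ℝ) (c : I → I → ℕ)
    (hc : ∀ i, ∑ j, c i j ≤ 2) (hA : ∀ i, 0 < A i) (hB : ∀ i, 0 ≤ B i) (hx : ∀ i, 0 < x i)
    (hy : ∀ i, 0 < y i) (h1 : ∀ i, x i ^ 2 = A i + B i * ∏ j, x j ^ c i j)
    (h2 : ∀ i, y i ^ 2 = A i + B i * ∏ j, y j ^ c i j) : ∀ i, y i ≤ x i := by
  by_contra hcon
  push Not at hcon
  obtain ⟨i0, hi0⟩ := hcon
  have : Nonempty I := ⟨i0⟩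
  obtain ⟨i, hi⟩ := Finite.exists_max (fun i => y i / x i)
  set d : ℝ := y i / x i with hd
  have hd1 : 1 < d := by
    have h3 : 1 < y i0 / x i0 := by
      rw [lt_div_iff₀ (hx i0), one_mul]
      exact hi0
    exact lt_of_lt_of_le h3 (hi i0)
  have hle : ∀ j, y j ≤ d * x j := by
    intro j
    have h3 : y j / x j ≤ d := hi j
    rwa [div_le_iff₀ (hx j)] at h3
  have heq : y i = d * x i := by
    rw [hd, div_mul_cancel₀ _ (hx i).ne']
  have hprod : ∏ j, y j ^ c i j ≤ d ^ 2 * ∏ j, x j ^ c i j := by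
    calc ∏ j, y j ^ c i j ≤ ∏ j, (d * x j) ^ c i j :=
          Finset.prod_le_prod (fun j _ => pow_nonneg (hy j).le _)
            (fun j _ => pow_le_pow_left₀ (hy j).le (hle j) _)
      _ = d ^ (∑ j, c i j) * ∏ j, x j ^ c i j := by
          rw [← Finset.prod_pow_eq_pow_sum, ← Finset.prod_mul_distrib]
          exact Finset.prod_congr rfl fun j _ => mul_pow _ _ _
      _ ≤ d ^ 2 * ∏ j, x j ^ c i j := by
          refine mul_le_mul_of_nonneg_right (pow_le_pow_right₀ hd1.le (hc i)) ?_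
          exact Finset.prod_nonneg fun j _ => pow_nonneg (hx j).le _
  have h3 : B i * ∏ j, y j ^ c i j ≤ B i * (d ^ 2 * ∏ j, x j ^ c i j) :=
    mul_le_mul_of_nonneg_left hprod (hB i)
  have h4 := h2 i
  rw [heq, mul_pow, h1 i] at h4
  have h5 : A i < d ^ 2 * A i := by
    have h6 : 1 < d ^ 2 := by nlinarith
    nlinarith [hA i]
  nlinarith

theorem main : GD.J_num := by
  intro I _ A B x y c hc hA hB hx hy h1 h2
  funext i
  exact le_antisymm (le_of A B y x c hc hA hB hy hx h2 h1 i) (le_of A B x y c hc hA hB hx hy h1 h2 i)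

end H391.KR.P_jnum
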