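import Pool.Agent.H391.KR.JV

/-!
# Odd elements of the short nodes (H391/KR, part J, task jodd), by helper594
-/

noncomputable section

namespace H391.KR.P_jodd

open H391.KR Finset

theorem main : GD.J_mem → GD.J_F → GD.J_K → GD.J_kr → GD.J_base → GD.J_odd := by
  intro hmem _ hK hkr hbase n S hS h2 D hD hdem Q hQ i hi hth hX
  obtain ⟨X, hXU⟩ := hX
  obtain ⟨-, -, hinj⟩ := hmem n S hS D hD
  obtain ⟨hkF, hknb, hne⟩ := hkr n S hS D hD hdem Q hQ
  obtain ⟨hK1, -⟩ := hK n S hS D hD hdem i X
  have hrel : ∀ m : ℕ, S.F D i m ^ 2 - S.nb D i m = S.T D i m * S.T D i (m + 1) := by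
    intro m
    rw [hK1 m]
    by_cases h0 : S.T D i m = 0
    · rw [h0, zero_mul, zero_mul]
    · rw [hXU m h0]
  have hb := hbase n S hS h2 D hD hdem Q hQ i hi hth hrel ⟨X, hXU⟩
  have hnz : ∀ m, push aw0 (GD.chr (Q i m)) ≠ 0 := by
    intro m h
    apply hne i m
    apply hinj
    rw [h, map_zero]
  have hmain : ∀ m : ℕ, push aw0 (GD.chr (Q i (2 * m + 1))) = S.T D i (m + 1) := by
    intro m
    induction m with
    | zero => exact hb
    | succ m ih =>
      have hq := hQ.qsys i (2 * m + 1)
      have hT : S.T D i (m + 1) ≠ 0 := by rw [← ih]; exact hnz _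
      have hq2 : push aw0 (GD.chr (Q i (2 * m + 2))) * push aw0 (GD.chr (Q i (2 * m + 2))) =
          push aw0 (GD.chr (Q i (2 * m + 3))) * push aw0 (GD.chr (Q i (2 * m + 1))) +
            push aw0 (GD.chr (S.qnb Q i (2 * m + 2))) := by
        rw [← map_mul, ← map_mul, ← map_add]
        exact congrArg (fun f => push aw0 (GD.chr f)) hq
      have hi2 : (S.t i).toNat * (m + 1) = 2 * m + 2 := by
        rw [hi]
        have : (2 : ℤ).toNat = 2 := rfl
        rw [this]
        ring
      have h3 := hkF i (m + 1)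
      have h4 := hknb i (m + 1)
      rw [hi2] at h3 h4
      rw [h3, h4, ih] at hq2
      have h5 := hrel (m + 1)
      have h6 : S.T D i (m + 1) * push aw0 (GD.chr (Q i (2 * m + 3))) =
          S.T D i (m + 1) * S.T D i (m + 1 + 1) := by
        rw [← h5]
        linear_combination -hq2
      exact mul_left_cancel₀ hT h6
  exact ⟨hmain, fun m => by rw [← hmain m]; exact hnz _⟩

end H391.KR.P_jodd
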