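import Pool.Agent.H391.KR.JV

/-! # KR-jpik -/

noncomputable section

namespace H391.KR.P_jpik

open Finset H391.KR

variable {n : ℕ}

theorem aw_fin (k : ℤ) (mu r : Fin n → ℤ) (c : ℤ) : aw k mu - c • aw 0 r = aw k (mu - c • r) := by
  funext o
  cases o <;> simp [aw]

theorem aw_fin' (k : ℤ) (mu r : Fin n → ℤ) (c d : ℤ) (h : c = - d) :
    aw k mu - c • aw 0 (fun i => - r i) = aw k (mu - d • r) := by
  subst h
  funext o
  cases o <;> simp [aw]

theorem aw_inj {k : ℤ} {mu nu : Fin n → ℤ} (h : aw k mu = aw k nu) : mu = nu := by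
  funext i
  exact congrFun h (some i)

theorem aw_fp {k : ℤ} (x : Option (Fin n) → ℤ) (h : x none = k) : x = aw k (fp x) := by
  funext o
  cases o
  · exact h
  · rfl

variable (S : GD n) (D : RDat (Option (Fin n)) (Option (Fin n)))

theorem stepS (hD : S.AffDat D) (k : ℤ) (mu : Fin n → ℤ) (i : Fin n) :
    aw k mu - (D.co (some i) (aw k mu) + 1) • D.al (some i) =
      aw k (mu - (mu i + 1) • S.rtw i) := by
  rw [hD.co, hD.al]
  exact aw_fin k mu (S.rtw i) _

theorem stepN (hD : S.AffDat D) (k : ℤ) (mu : Fin n → ℤ) :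
    aw k mu - (D.co none (aw k mu) + 1) • D.al none =
      aw k (mu - (dot S.th mu - k - 1) • S.rt S.th) := by
  rw [hD.co, hD.al]
  refine aw_fin' k mu (S.rt S.th) _ _ ?_
  show k - dot S.th mu + 1 = _
  ring

theorem al_none (hD : S.AffDat D) (j : Option (Fin n)) : D.al j none = 0 := by
  cases j
  · rw [hD.al]; rfl
  · rw [hD.al]; rfl

theorem lk_link (hD : S.AffDat D) (k : ℕ) (e : ℤ) (mu nu : Fin n → ℤ) (h : S.Lk k e mu nu) :
    D.Link e (aw k mu) (aw k nu) := by
  induction h with
  | refl nu => exact RDat.Link.refl _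
  | fin e mu nu i _ ih =>
    have := RDat.Link.step e _ _ (some i) ih
    rwa [stepS S D hD] at this
  | aff e mu nu _ ih =>
    have := RDat.Link.step e _ _ none ih
    rwa [stepN S D hD] at this

theorem link_lk (hD : S.AffDat D) (k : ℕ) (e : ℤ) (x y : Option (Fin n) → ℤ) (h : D.Link e x y) :
    ∀ mu nu, x = aw k mu → y = aw k nu → S.Lk k e mu nu := by
  induction h with
  | refl nu =>
    intro mu nu h1 h2
    have := aw_inj (h1.symm.trans h2)
    rw [this]
    exact GD.Lk.refl _
  | step e x y j _ ih =>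
    intro mu nu h1 h2
    have hx : x none = k := by
      have := congrFun h1 none
      simp only [Pi.sub_apply, Pi.smul_apply, al_none S D hD, smul_zero, sub_zero] at this
      exact this
    have hx' := aw_fp x hx
    have h3 := ih (fp x) nu hx' h2
    cases j with
    | none =>
      have h4 := GD.Lk.aff e _ _ h3
      rw [hx', stepN S D hD] at h1
      rw [← aw_inj h1]
      exact h4
    | some i =>
      have h4 := GD.Lk.fin e _ _ i h3
      rw [hx', stepS S D hD] at h1
      rw [← aw_inj h1]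
      exact h4

theorem lk_iff (hD : S.AffDat D) (k : ℕ) (e : ℤ) (mu nu : Fin n → ℤ) :
    S.Lk k e mu nu ↔ D.Link e (aw k mu) (aw k nu) :=
  ⟨lk_link S D hD k e mu nu, fun h => link_lk S D hD k e _ _ h mu nu rfl rfl⟩

theorem sgn_eq (hD : S.AffDat D) (k : ℕ) (mu la : Fin n → ℤ) :
    S.sgnk k mu la = D.pf (aw k la) (aw k mu) := by
  have h1 := lk_iff S D hD k 1 mu la
  have h2 := lk_iff S D hD k (-1) mu la
  unfold GD.sgnk RDat.pf
  by_cases c1 : S.Lk k 1 mu la
  · rw [if_pos c1, if_pos (h1.1 c1)]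
  · rw [if_neg c1, if_neg (fun h => c1 (h1.2 h))]
    by_cases c2 : S.Lk k (-1) mu la
    · rw [if_pos c2, if_pos (h2.1 c2)]
    · rw [if_neg c2, if_neg (fun h => c2 (h2.2 h))]

theorem dom_iff (hD : S.AffDat D) (k : ℕ) (la : Fin n → ℤ) :
    la ∈ S.alc k ↔ D.Dom (aw k la) := by
  constructor
  · rintro ⟨h1, h2⟩ j
    cases j with
    | none =>
      rw [hD.co]
      show 0 ≤ (k : ℤ) - dot S.th la
      linarith
    | some j =>
      rw [hD.co]
      exact h1 j
  · intro h
    refine ⟨fun i => ?_, ?_⟩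
    · have := h (some i)
      rw [hD.co] at this
      exact this
    · have := h none
      rw [hD.co] at this
      have : 0 ≤ (k : ℤ) - dot S.th la := this
      linarith

theorem pair_single {ι : Type} (p : (ι → ℤ) → ℤ) (x : ι → ℤ) (c : ℤ) :
    pair p (AddMonoidAlgebra.single x c) = c * p x := by
  unfold pair
  rw [AddMonoidHom.comp_apply]
  have : (AddMonoidAlgebra.coeffAddEquiv (R := ℤ) (M := ι → ℤ)).toAddMonoidHom
      (AddMonoidAlgebra.single x c) = Finsupp.single x c := by
    simp
  rw [this, Finsupp.liftAddHom_apply_single]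
  rfl

theorem pair_push (k : ℤ) (p : (Option (Fin n) → ℤ) → ℤ) (f : GR (Fin n)) :
    pair (fun mu => p (aw k mu)) f = pair p (ex (aw k 0) * push aw0 f) := by
  induction f using AddMonoidAlgebra.induction_linear with
  | zero => simp
  | add f g hf hg => rw [map_add, hf, hg, map_add, mul_add, map_add]
  | single x c =>
    rw [pair_single]
    have h1 : push aw0 (AddMonoidAlgebra.single x c) = AddMonoidAlgebra.single (aw 0 x) c := by
      simp [push, aw0]
    rw [h1, ex, AddMonoidAlgebra.single_mul_single, one_mul, pair_single]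
    congr 2
    funext o
    cases o <;> simp [aw]

theorem main : RDat.N_link → GD.J_hd → GD.J_AB → GD.J_pik := by
  intro hN hhd hAB n S hS D hD k
  refine ⟨sgn_eq S D hD k, dom_iff S D hD k, ?_⟩
  intro f la hla
  have hanti := ((hN _ _ D S.rho (hhd n S hS D hD)).1 _ ((dom_iff S D hD k la).1 hla)).1
  rw [← pair_push]
  rw [← (hAB n S hS).1 f (fun mu => D.pf (aw k la) (aw k mu)) ?_]
  · unfold GD.piK
    simp only [sgn_eq S D hD]
  · intro mu i
    have := hanti (aw k mu) (some i)
    rw [stepS S D hD] at this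
    exact this

end H391.KR.P_jpik
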