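import Pool.Agent.H391.KR.JV

/-!
# KR project (helper391), task KR-jqk (helper871)
-/

set_option autoImplicit false

noncomputable section

namespace H391.KR.P_jqk

open Finset H391.KR H391.KR.GD

theorem dot_sub {n : ℕ} (a x y : Fin n → ℤ) : dot a (x - y) = dot a x - dot a y := by
  unfold dot
  rw [← Finset.sum_sub_distrib]
  exact Finset.sum_congr rfl fun i _ => by rw [Pi.sub_apply]; ring

theorem dot_sum {n : ℕ} (a : Fin n → ℤ) (g : Fin n → ℤ) (v : Fin n → Fin n → ℤ) :
    dot a (∑ j, g j • v j) = ∑ j, g j * dot a (v j) := by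
  unfold dot
  have h1 : ∀ i, a i * (∑ j, g j • v j) i = ∑ j, g j * (a i * v j i) := by
    intro i
    rw [Finset.sum_apply, Finset.mul_sum]
    exact Finset.sum_congr rfl fun j _ => by rw [Pi.smul_apply, smul_eq_mul]; ring
  rw [Finset.sum_congr rfl fun i _ => h1 i, Finset.sum_comm]
  exact Finset.sum_congr rfl fun j _ => by rw [Finset.mul_sum]

theorem dot_om {n : ℕ} (a : Fin n → ℤ) (i : Fin n) (m : ℤ) : dot a (m • om i) = m * a i := by
  unfold dot om
  rw [Finset.sum_eq_single i]
  · rw [Pi.smul_apply, if_pos rfl, smul_eq_mul]; ring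
  · intro j _ hj
    rw [Pi.smul_apply, if_neg hj, smul_eq_mul]; ring
  · intro h
    exact absurd (Finset.mem_univ i) h

theorem dot_om' {n : ℕ} (x : Fin n → ℤ) (i : Fin n) : dot (om i) x = x i := by
  unfold dot om
  rw [Finset.sum_eq_single i]
  · rw [if_pos rfl, one_mul]
  · intro j _ hj
    rw [if_neg hj, zero_mul]
  · intro h
    exact absurd (Finset.mem_univ i) h

theorem main : GD.J_dat → GD.J_hd → GD.J_pik → GD.J_mem → GD.J_sin → GD.J_mul → GD.J_lev →
    GD.J_qk := by
  intro hdat hhd hpik hmem' hsin hmul hlev'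
  intro n S hS k hk
  obtain ⟨D, hD⟩ := hdat n S hS
  obtain ⟨-, -, hspos, -, -⟩ := hsin n S hS
  obtain ⟨hp1, hp2, hp3⟩ := hpik n S hS D hD k
  -- the parameter
  have hhv : (1 : ℝ) ≤ (S.hv : ℤ) := by
    have h1 : (1 : ℤ) ≤ S.hv := by
      unfold GD.hv
      have h2 : 0 ≤ ∑ i, S.th i := Finset.sum_nonneg fun i _ => by
        have := hS.th_pos i
        omega
      omega
    exact_mod_cast h1
  have hk0 : (0 : ℝ) ≤ k := Nat.cast_nonneg k
  have hpar0 : 0 < S.par k := by
    unfold GD.par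
    apply div_pos Real.pi_pos
    linarith
  have hparle : S.par k * S.hv ≤ Real.pi := by
    unfold GD.par
    rw [div_mul_eq_mul_div, div_le_iff₀ (by linarith)]
    have := Real.pi_pos
    nlinarith
  obtain ⟨e0, he0⟩ := (hmul n S hS).1 (S.par k) hpar0 hparle
  obtain ⟨e, he⟩ : ∃ e : S.RepR →+* ℝ, ∀ f : S.RepR, e f = S.qdim k f := ⟨e0, fun f => he0 f⟩
  obtain ⟨A, hA, hlev⟩ := hlev' n S hS D hD k
  have hq : ∀ f : S.RepR, S.qdim k f =
      ∑ la ∈ A, (S.lm D k la (push aw0 (chr f)) : ℝ) * S.qdR (S.par k) la := fun f => hlev f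
  refine ⟨⟨e, he⟩, ?_, ?_⟩
  · intro f hf
    rw [hq]
    refine Finset.sum_eq_zero fun la hla => ?_
    have hla' := (hA la).1 hla
    have h1 := hp3 f la hla'
    have h2 : S.lm D k la (push aw0 (chr f)) = 0 := by
      have h3 := hf la hla'
      have h4 : S.piK k (chr f) la =
        pair (D.pf (aw k la)) (ex (aw k 0) * push aw0 (chr f)) := h1
      rw [h3] at h4
      exact h4.symm
    rw [h2, Int.cast_zero, zero_mul]
  · intro Q hQ i m hm
    have hthr : ∀ j, 0 ≤ dot S.th (S.rtw j) := by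
      intro j
      have h1 := (hS.pairs S.th (om j) hS.th_cor.1 (Cor.simple j)).1
      rw [(hS.om j).1, (hS.om j).2, hS.th_cor.2, one_mul, dot_om'] at h1
      have h2 := hS.th_dom j
      have h3 := hS.t_pos j
      by_contra h4
      push Not at h4
      nlinarith
    have hmem : ∀ mu : Fin n → ℤ, (∀ i, 0 ≤ mu i) → S.mult (Q i m) mu ≠ 0 → mu ∈ S.alc k := by
      intro mu hmu hne
      obtain ⟨g, hg⟩ := hQ.low i m mu hmu hne
      refine ⟨hmu, ?_⟩
      have h1 : dot S.th mu = m * S.th i - ∑ j, (g j : ℤ) * dot S.th (S.rtw j) := by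
        rw [hg, dot_sub, dot_om, dot_sum]
      have h2 : 0 ≤ ∑ j, (g j : ℤ) * dot S.th (S.rtw j) :=
        Finset.sum_nonneg fun j _ => mul_nonneg (Int.natCast_nonneg _) (hthr j)
      rw [h1]
      linarith
    have hnn : ∀ mu ∈ ((chr (Q i m)) * S.Delta).coeff.support, (0 : ℝ) ≤
        (if ∀ i, 0 ≤ mu i then (((chr (Q i m)) * S.Delta).coeff mu : ℝ) * S.qdR (S.par k) mu
          else 0) := by
      intro mu hmu
      split_ifs with h1
      · have h2 : S.mult (Q i m) mu ≠ 0 := Finsupp.mem_support_iff.1 hmu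
        have h3 := hQ.pos i m mu h1
        refine mul_nonneg ?_ (hspos k mu (hmem mu h1 h2)).le
        exact_mod_cast h3
      · exact le_rfl
    have htop := hQ.top i m
    have hdm : ∀ j, 0 ≤ ((m : ℤ) • om i : Fin n → ℤ) j := by
      intro j
      rw [Pi.smul_apply, smul_eq_mul]
      refine mul_nonneg (Int.natCast_nonneg _) ?_
      unfold om
      split_ifs <;> norm_num
    have hin : ((m : ℤ) • om i : Fin n → ℤ) ∈ ((chr (Q i m)) * S.Delta).coeff.support := by
      rw [Finsupp.mem_support_iff]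
      intro h
      have h1 : S.mult (Q i m) ((m : ℤ) • om i) = 0 := h
      rw [htop] at h1
      exact one_ne_zero h1
    show 0 < S.qdimR (S.par k) (chr (Q i m))
    unfold GD.qdimR Finsupp.sum
    refine lt_of_lt_of_le ?_ (Finset.single_le_sum hnn hin)
    rw [if_pos hdm]
    have h1 : ((chr (Q i m)) * S.Delta).coeff ((m : ℤ) • om i) = 1 := htop
    rw [h1, Int.cast_one, one_mul]
    refine hspos k _ (hmem _ hdm ?_)
    rw [htop]
    exact one_ne_zero


end H391.KR.P_jqk
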