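import Pool.Agent.H391.KR.JV

/-!
# J_red (helper703 for helper391; adapted from T_red by helper921)
-/

noncomputable section

namespace H391.KR.P_jred

open Finset H391.KR

variable {n : ℕ} {S : GD n} {D : RDat (Option (Fin n)) (Option (Fin n))}

theorem demB_eq (h : S.AffDat D) (j : Option (Fin n)) (x : Option (Fin n) → ℤ) :
    D.demB j x = S.dmB j x := by
  unfold RDat.demB GD.dmB
  rw [h.co, h.al]

theorem dem_eq (h : S.AffDat D) (j : Option (Fin n)) (f : GR (Option (Fin n))) :
    D.dem j f = S.dm j f := by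
  have h1 : D.dem j f = f.coeff.sum fun x c => (c : GR (Option (Fin n))) * D.demB j x := rfl
  rw [h1]
  unfold GD.dm
  refine Finsupp.sum_congr fun x _ => ?_
  rw [demB_eq h, zsmul_eq_mul]

theorem demL_eq (h : S.AffDat D) (w : List (Option (Fin n))) (f : GR (Option (Fin n))) :
    D.demL w f = w.foldr S.dm f := by
  induction w with
  | nil => rfl
  | cons j w ih =>
    rw [List.foldr_cons, ← ih, ← dem_eq h]
    rfl

theorem s_eq (h : S.AffDat D) (j : Option (Fin n)) (x : Option (Fin n) → ℤ) :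
    D.s j x = S.rf j x := by
  unfold RDat.s GD.rf
  rw [h.co, h.al]

theorem redd_of (h : S.AffDat D) (w : List (Option (Fin n))) :
    ∀ x, D.Desc w x → S.Redd w x (D.sR w x) := by
  induction w with
  | nil => intro x _; exact rfl
  | cons j w ih =>
    intro x h1
    refine ⟨?_, ?_⟩
    · rw [← h.co]
      exact h1.1
    · rw [← s_eq h]
      exact ih _ h1.2

theorem of_redd (h : S.AffDat D) (w : List (Option (Fin n))) :
    ∀ x y, S.Redd w x y → D.Desc0 w x ∧ D.sR w x = y := by
  induction w with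
  | nil => intro x y h2; exact ⟨trivial, h2⟩
  | cons j w ih =>
    intro x y h1
    have h2 : S.Redd w (D.s j x) y := by
      rw [s_eq h]
      exact h1.2
    have h3 := ih _ _ h2
    refine ⟨⟨?_, h3.1⟩, h3.2⟩
    rw [h.co]
    exact h1.1.le

theorem main : RDat.N_red → RDat.N_demw → RDat.N_desc → GD.J_hd → GD.J_red := by
  intro hr hw hds _ n S hS D hD
  have hT : ∀ i, S.xi i ∈ D.T := by
    intro i
    rw [hD.T]
    exact le_refl (1 : ℤ)
  refine ⟨demL_eq hD, fun i => ?_, fun i w y hwy hy m hok => ?_⟩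
  · obtain ⟨⟨w, -, h1, h2⟩, -⟩ := hr _ _ D Set.univ (S.xi i) (hT i)
    refine ⟨w, D.sR w (S.xi i), redd_of hD w _ h1, fun j => ?_⟩
    rw [← hD.co]
    exact h2 j (Set.mem_univ j)
  · obtain ⟨h1, h2⟩ := of_redd hD w _ _ hwy
    have hTy : y ∈ D.T := by
      rw [← h2]
      exact (hds _ _ D).2.2.2.2.2.2.2.2.2.2 w _ (hT i)
    have hdom : D.Dom y := by
      intro j
      rw [hD.co]
      exact hy j
    have h4 := hw _ _ D hok w (S.xi i) m (hT i) h1
    rw [h4, h2, hok.d3 _ hTy m hdom, ← demL_eq hD]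

end H391.KR.P_jred
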