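import Pool.Agent.H391.KR.JV

/-!
# Existence of the Verlinde ring, non simply laced types (H391/KR, J_ring)
-/

noncomputable section

namespace H391.KR.P_jring

open Finset

/-- the coefficients `piK` as an additive map -/
def phi {n : ℕ} (S : GD n) (k : ℕ)
    (hadd : ∀ f g : S.Rep, ∀ la ∈ S.alc k,
      S.piK k (f + g : S.Rep) la = S.piK k f la + S.piK k g la) :
    S.Rep →+ (S.alc k → ℤ) :=
  AddMonoidHom.mk' (fun f la => S.piK k f la) (fun f g => by
    funext la
    exact hadd f g la la.2)

/-- the kernel of `phi` as an ideal -/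
def ker {n : ℕ} (S : GD n) (k : ℕ)
    (hadd : ∀ f g : S.Rep, ∀ la ∈ S.alc k,
      S.piK k (f + g : S.Rep) la = S.piK k f la + S.piK k g la)
    (hmul : ∀ f g : S.Rep, (∀ la ∈ S.alc k, S.piK k f la = 0) →
      ∀ la ∈ S.alc k, S.piK k (g * f : S.Rep) la = 0) : Ideal S.Rep where
  carrier := {f | ∀ la ∈ S.alc k, S.piK k f la = 0}
  add_mem' := by
    intro a b ha hb la hla
    rw [hadd a b la hla, ha la hla, hb la hla, add_zero]
  zero_mem' := by
    intro la hla
    have h := (phi S k hadd).map_zero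
    exact congrFun h ⟨la, hla⟩
  smul_mem' := by
    intro g f hf la hla
    exact hmul f g hf la hla

theorem main : RDat.N_dem → RDat.N_link → GD.J_dat → GD.J_hd → GD.J_pik → GD.J_mem →
    GD.J_exp → GD.J_ker → GD.J_surj → GD.J_ring := by
  intro hNdem hNlink hCdat hChd hpik hmem hexp hker hsurj n S hS k
  classical
  obtain ⟨D, hD⟩ := hCdat n S hS
  have hHD := hChd n S hS D hD
  have hOK : D.DemOK := hNdem _ _ D S.rho hHD
  obtain ⟨-, hdom, hpi⟩ := hpik n S hS D hD k
  obtain ⟨m1, m2, -⟩ := hmem n S hS D hD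
  have hfin : (S.alc k).Finite := (hexp n S hS D hD k).1
  have hpf := (hNlink _ _ D S.rho hHD).1
  have hadd : ∀ f g : S.Rep, ∀ la ∈ S.alc k,
      S.piK k (f + g : S.Rep) la = S.piK k f la + S.piK k g la := by
    intro f g la hla
    rw [hpi _ la hla, hpi _ la hla, hpi _ la hla, ← map_add, ← mul_add, ← map_add]
    rfl
  have hmul : ∀ f g : S.Rep, (∀ la ∈ S.alc k, S.piK k f la = 0) →
      ∀ la ∈ S.alc k, S.piK k (g * f : S.Rep) la = 0 := by
    intro f g hf la hla
    have hA : D.Anti (D.pf (aw k la)) := (hpf _ ((hdom la).mp hla)).1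
    have h0 := hker n S hS D hD k (push aw0 (f : GR (Fin n))) (push aw0 (g : GR (Fin n)))
      (m1 f) (m1 g) (fun la' hla' => by rw [← hpi f la' hla']; exact hf la' hla') _ hA
    rw [hpi _ la hla]
    have e : ((g * f : S.Rep) : GR (Fin n)) = (g : GR (Fin n)) * (f : GR (Fin n)) := rfl
    have e2 : push aw0 ((g : GR (Fin n)) * (f : GR (Fin n))) =
        push aw0 (g : GR (Fin n)) * push aw0 (f : GR (Fin n)) := map_mul _ _ _
    rw [e, e2]
    exact h0
  set I : Ideal S.Rep := ker S k hadd hmul with hI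
  -- the induced additive map on the quotient
  have hle : I.toAddSubgroup ≤ (phi S k hadd).ker := by
    intro f hf
    funext la
    exact hf la la.2
  let psi : (S.Rep ⧸ I) →+ (S.alc k → ℤ) :=
    QuotientAddGroup.lift I.toAddSubgroup (phi S k hadd) hle
  have hpsi : ∀ f : S.Rep, psi (Ideal.Quotient.mk I f) =
      fun la : S.alc k => S.piK k (f : GR (Fin n)) (la : Fin n → ℤ) := fun f => rfl
  have hinj : Function.Injective psi := by
    rw [injective_iff_map_eq_zero]
    intro x hx
    obtain ⟨f, rfl⟩ := Ideal.Quotient.mk_surjective x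
    rw [hpsi] at hx
    rw [Ideal.Quotient.eq_zero_iff_mem]
    intro la hla
    exact congrFun hx ⟨la, hla⟩
  have hsur : Function.Surjective psi := by
    have : Fintype (S.alc k) := hfin.fintype
    have key : ∀ la : S.alc k, ∃ x, psi x = Pi.single la 1 := by
      intro la
      obtain ⟨f, hf, hf2⟩ := hsurj n S hS D hD hOK k la la.2
      obtain ⟨f', hf'⟩ := m2 f hf
      refine ⟨Ideal.Quotient.mk I f', ?_⟩
      rw [hpsi]
      funext la'
      have hd := (hdom la').mp la'.2
      rw [hpi _ _ la'.2, hf', hf2 _ (hpf _ hd).1]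
      by_cases h : la' = la
      · subst h
        rw [Pi.single_eq_same]
        exact (hpf _ hd).2.1
      · rw [Pi.single_eq_of_ne h]
        refine (hpf _ hd).2.2 _ ((hdom la).mp la.2) ?_
        intro e
        apply h
        have := congrArg fp e
        exact Subtype.ext this.symm
    intro v
    choose x hx using key
    refine ⟨∑ la, v la • x la, ?_⟩
    rw [map_sum]
    simp_rw [map_zsmul, hx]
    funext la
    rw [Finset.sum_apply]
    simp [Pi.single_apply]
  have : Fintype (S.alc k) := hfin.fintype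
  let E : (S.Rep ⧸ I) ≃+ (S.alc k → ℤ) := AddEquiv.ofBijective psi ⟨hinj, hsur⟩
  exact ⟨S.Rep ⧸ I, inferInstance, ⟨{
    co := E
    pi := (Ideal.Quotient.mk I : S.Rep →+* S.Rep ⧸ I)
    pi_eq := fun f la => rfl }⟩⟩

end H391.KR.P_jring
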