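import Pool.Agent.H391.KR.JV

noncomputable section

namespace H391.KR.P_jsd

open Finset H391.KR

variable {n : ℕ}

theorem dot_add (a mu nu : Fin n → ℤ) : dot a (mu + nu) = dot a mu + dot a nu := by
  unfold dot
  rw [← Finset.sum_add_distrib]
  exact Finset.sum_congr rfl fun i _ => by simp [mul_add]

theorem dot_neg (a mu : Fin n → ℤ) : dot a (-mu) = - dot a mu := by
  unfold dot
  rw [← Finset.sum_neg_distrib]
  exact Finset.sum_congr rfl fun i _ => by simp

theorem dot_one (a : Fin n → ℤ) : dot a (fun _ => 1) = ∑ k, a k := by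
  unfold dot
  simp

theorem dot_om (a : Fin n → ℤ) (i : Fin n) : dot a (om i) = a i := by
  unfold dot om
  simp

theorem dot_smul (a mu : Fin n → ℤ) (c : ℤ) : dot a (c • mu) = c * dot a mu := by
  unfold dot
  rw [Finset.mul_sum]
  exact Finset.sum_congr rfl fun i _ => by simp; ring

theorem aw_add (l l' : ℤ) (a b : Fin n → ℤ) : aw l a + aw l' b = aw (l + l') (a + b) := by
  funext o
  rcases o with _ | o <;> rfl

theorem aw_neg (l : ℤ) (a : Fin n → ℤ) : - aw l a = aw (-l) (-a) := by
  funext o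
  rcases o with _ | o <;> rfl

theorem aw_ext {x y : Option (Fin n) → ℤ} (h0 : x none = y none)
    (h1 : ∀ k, x (some k) = y (some k)) : x = y := by
  funext o
  rcases o with _ | o
  · exact h0
  · exact h1 o

theorem neg_form {S : GD n} {D : RDat (Option (Fin n)) (Option (Fin n))} (hA : S.AffDat D)
    {N : ℤ} {mu : Fin n → ℤ} (hN0 : 0 ≤ N) (hN : ∀ a, S.Cor a → - N < dot a mu) (b : D.R)
    (hb : D.ev b (aw N mu) < 0) :
    ∃ a, S.Cor a ∧ (∀ k, 0 ≤ a k) ∧ ∀ x, D.ev b x = dot a (fp x) := by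
  obtain ⟨a, m, ⟨ha, -, hm⟩, hev, -⟩ := hA.ev b
  rcases hm with hm | ⟨hm, hp⟩
  · exfalso
    rw [hev] at hb
    have h1 := hN a ha
    have h2 : N ≤ m * N := by nlinarith
    have h3 : dot a (fp (aw N mu)) = dot a mu := rfl
    have h4 : (aw N mu) none = N := rfl
    rw [h3, h4] at hb
    omega
  · exact ⟨a, ha, hp, fun x => by rw [hev, hm]; ring⟩

theorem main : RDat.N_desc → RDat.N_demw → RDat.N_op → RDat.N_adj → GD.J_hd → GD.J_cov →
    GD.J_star → GD.J_sd := by
  intro hdesc hdemw hop hadj _ hcov hstar n S hS D hA hOK i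
  obtain ⟨c, hc, hcD, hcu⟩ := hstar n S hS D hA i
  obtain ⟨e1, e2, e3, e4, e5, e6, e7, e8, e9, e10, e11⟩ := hdesc _ _ D
  obtain ⟨N0, hcovN⟩ := (hcov n S hS D hA i).2
  obtain ⟨H, hH⟩ := (hS.fin.image (fun a : Fin n → ℤ => ∑ k, a k)).bddAbove
  have hht : ∀ a, S.Cor a → ∑ k, a k ≤ H := fun a ha => hH ⟨a, ha, rfl⟩
  have hrtw : ∀ k, S.rt (om k) = S.rtw k := fun k => (hS.om k).2
  have hbd : ∀ a, S.Cor a → ∀ k, |dot a (S.rtw k)| ≤ 3 := by
    intro a ha k
    have h1 := (hS.pairs a (om k) ha (GD.Cor.simple k)).2.2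
    rw [hrtw] at h1
    exact h1
  have hdotm1 : ∀ a : Fin n → ℤ, dot a (fun _ => -1) = - ∑ k, a k := by
    intro a
    have : (fun _ : Fin n => (-1 : ℤ)) = -(fun _ => 1) := by funext k; rfl
    rw [this, dot_neg, dot_one]
  -- positivity of nonnegative coroots
  have hpos : ∀ a, S.Cor a → (∀ k, 0 ≤ a k) → 0 < ∑ k, a k := by
    intro a ha hp
    rcases (Finset.sum_nonneg fun k (_ : k ∈ univ) => hp k).lt_or_eq with h | h
    · exact h
    · exfalso
      have h0 : ∀ k ∈ univ, a k = 0 :=
        (Finset.sum_eq_zero_iff_of_nonneg fun k _ => hp k).mp h.symm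
      exact (hS.sgn a ha).1 (funext fun k => h0 k (Finset.mem_univ k))
  obtain ⟨N, hNd⟩ : ∃ N : ℤ, N = |N0| + |H| + |S.th i| + 5 := ⟨_, rfl⟩
  have a1 := abs_nonneg N0
  have a2 := abs_nonneg H
  have a3 := abs_nonneg (S.th i)
  have a4 := le_abs_self N0
  have a5 := le_abs_self H
  have a6 := le_abs_self (S.th i)
  have hN1 : ∀ a, S.Cor a → -N < dot a (fun _ => -1) := by
    intro a ha
    rw [hdotm1]
    have := hht a ha
    omega
  have hsplit : ∀ (a : Fin n → ℤ), dot a (fun j => -1 + S.rtw i j) =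
      - ∑ j, a j + dot a (S.rtw i) := by
    intro a
    have : (fun j : Fin n => -1 + S.rtw i j) = (fun _ => -1) + (S.rtw i) := rfl
    rw [this, dot_add, hdotm1]
  have hN2 : ∀ a, S.Cor a → -N < dot a (fun j => -1 + S.rtw i j) := by
    intro a ha
    rw [hsplit]
    have h1 := hht a ha
    have h2 := (abs_le.1 (hbd a ha i)).1
    omega
  -- simple reflections
  have hs1 : ∀ k x, D.s (some k) x = x - x (some k) • aw 0 (S.rtw k) := by
    intro k x
    unfold RDat.s
    rw [hA.co, hA.al]
    rfl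
  have hss : ∀ j x, D.s j (D.s j x) = x := by
    intro j x
    exact (e5 [j] x).1
  have hsT : ∀ j x, x ∈ D.T → D.s j x ∈ D.T := fun j x hx => e11 [j] x hx
  have hTT : ∀ l mu, 1 ≤ l → (aw l mu : Option (Fin n) → ℤ) ∈ D.T := by
    intro l mu hl
    rw [hA.T]; exact hl
  -- action of the longest word
  have hW : ∀ (l : ℤ) (mu nu : Fin n → ℤ), (∀ j, nu j = - mu j) →
      D.sR (some i :: c) (aw l mu) = aw l nu := by
    intro l mu nu h
    rw [hcu (aw l mu)]
    apply aw_ext
    · rfl
    · intro k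
      show - mu k = nu k
      rw [h]
  have hc1 : ∀ x, D.sR (some i :: c) (D.s (some i) x) = D.sR c x := by
    intro x
    show D.sR c (D.s (some i) (D.s (some i) x)) = D.sR c x
    rw [hss]
  -- part (1)
  have hcrit1 : ∀ (l u : ℤ), 0 ≤ u → ∀ b, D.ev b (aw N fun _ => -1) < 0 →
      D.ev b (aw l (-(u • om i))) ≤ 0 := by
    intro l u hu b hb
    obtain ⟨a, ha, hp, hev⟩ := neg_form hA (by omega) hN1 b hb
    rw [hev]
    show dot a (-(u • om i)) ≤ 0
    rw [dot_neg, dot_smul, dot_om]
    have := mul_nonneg hu (hp i)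
    omega
  have hone : ∀ l : ℤ, (aw l (-om i) : Option (Fin n) → ℤ) = aw l (-((1 : ℤ) • om i)) := by
    intro l
    rw [one_smul]
  have hti : 0 ≤ S.t i := by have := hS.t_pos i; omega
  have hD0 : D.Desc0 (some i :: c) (S.xi i) :=
    e1 _ _ _ (hcD N) (hcrit1 1 (S.t i) hti)
  have huxi : D.sR (some i :: c) (S.xi i) = aw 1 (S.t i • om i) := by
    apply hW
    intro j
    simp
  refine ⟨c, hc, ?_, ?_, ?_⟩
  · intro m
    rw [hdemw _ _ D hOK (some i :: c) (S.xi i) m (hTT _ _ le_rfl) hD0, huxi]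
  · intro m
    rw [hdemw _ _ D hOK c (D.s (some i) (S.xi i)) m (hsT _ _ (hTT _ _ le_rfl)) hD0.2]
    have : D.sR c (D.s (some i) (S.xi i)) = aw 1 (S.t i • om i) := huxi
    rw [this]
  -- part (3)
  have hNT : (aw N (-om i) : Option (Fin n) → ℤ) ∈ D.T := hTT _ _ (by omega)
  have hdom : D.Dom (aw N (om i)) := by
    intro j
    rcases j with _ | j
    · rw [hA.co]
      show 0 ≤ N - dot S.th (om i)
      rw [dot_om]
      omega
    · rw [hA.co]
      show 0 ≤ om i j
      unfold om
      split_ifs <;> omega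
  have hex : D.Dem (aw N (om i)) 1 = ex (aw N (om i)) := by
    rw [hOK.d3 _ (hTT _ _ (by omega)) 1 hdom]
    simp
  have hneg : ∀ l : ℤ, -(aw l (fun _ => 1) : Option (Fin n) → ℤ) = aw (-l) (fun _ => -1) := by
    intro l
    rw [aw_neg]; rfl
  have hWr : D.Desc (some i :: c).reverse (aw N fun _ => -1) := by
    have h1 := e4 (some i :: c) (aw N fun _ => 1) (by rw [hneg]; exact hcD _)
    rw [hW N (fun _ => 1) (fun _ => -1) (fun _ => rfl)] at h1
    exact h1
  have h3 : D.Dem (aw N (-om i)) 1 = D.demL (some i :: c).reverse (ex (aw N (om i))) := by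
    rw [hdemw _ _ D hOK (some i :: c).reverse (aw N (-om i)) 1 hNT
      (e1 _ _ _ hWr (by rw [hone]; exact hcrit1 N 1 (by norm_num)))]
    have h1 : D.sR (some i :: c) (aw N (om i)) = aw N (-om i) := by
      apply hW
      intro j
      simp
    rw [← h1, (e5 _ _).1, hex]
  -- part (4)
  have hs2 : ∀ (l : ℤ) (k : Fin n) (mu : Fin n → ℤ), D.s (some k) (aw l mu) =
      aw l (fun j => mu j - mu k * S.rtw k j) := by
    intro l k mu
    rw [hs1]
    apply aw_ext
    · show l - mu k • (0 : ℤ) = l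
      simp
    · intro j
      show mu j - mu k • S.rtw k j = mu j - mu k * S.rtw k j
      simp
  have hcm : ∀ M : ℤ, D.Desc c (aw M fun _ => -1) := by
    intro M
    refine e2 c (D.s (some i) (aw N fun _ => -1)) _ (hcD N).2 ?_
    intro b hb
    have h5 : D.s (some i) (aw N fun _ => -1) = aw N (fun j => -1 + S.rtw i j) := by
      rw [hs2]
      congr 1
      funext j
      ring
    rw [h5] at hb
    obtain ⟨a, ha, hp, hev⟩ := neg_form hA (by omega) hN2 b hb
    rw [hev]
    show dot a (fun _ => -1) < 0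
    rw [hdotm1]
    have := hpos a ha hp
    omega
  have hcr : D.Desc c.reverse (aw N fun j => -1 + S.rtw i j) := by
    have h5 := e4 c (aw N fun _ => 1) (by rw [hneg]; exact hcm _)
    have h6 : D.sR c (aw N fun _ => 1) = aw N fun j => -1 + S.rtw i j := by
      rw [← hc1, hs2]
      apply hW
      intro j
      ring
    rw [h6] at h5
    exact h5
  have hy4 : D.s (some i) (aw N (-om i)) = aw N (fun j => - om i j + S.rtw i j) := by
    rw [hs2]
    congr 1
    funext j
    have : (-om i : Fin n → ℤ) i = -1 := by simp [om]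
    rw [this]
    simp
  have hcrit4 : ∀ b, D.ev b (aw N fun j => -1 + S.rtw i j) < 0 →
      D.ev b (aw N (fun j => - om i j + S.rtw i j)) ≤ 0 := by
    intro b hb
    obtain ⟨a, ha, hp, hev⟩ := neg_form hA (by omega) hN2 b hb
    rw [hev] at hb ⊢
    have hb' : dot a (fun j => -1 + S.rtw i j) < 0 := hb
    rw [hsplit] at hb'
    have e : dot a (fp (aw N fun j => - om i j + S.rtw i j)) = - a i + dot a (S.rtw i) := by
      show dot a (fun j => - om i j + S.rtw i j) = _
      have : (fun j : Fin n => - om i j + S.rtw i j) = -(om i) + (S.rtw i) := rfl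
      rw [this, dot_add, dot_neg, dot_om]
    rw [e]
    have hne : a ≠ om i := by
      intro h7
      have h8 := hS.two (om i) (GD.Cor.simple i)
      rw [hrtw] at h8
      rw [h7, h8] at hb'
      have h9 : ∑ j, (om i : Fin n → ℤ) j = 1 := by unfold om; simp
      rw [h9] at hb'
      omega
    have h6 : S.Cor (a - dot a (S.rtw i) • om i) := GD.Cor.refl a i ha
    rcases (hS.sgn _ h6).2 with h7 | h7
    · have h8 := h7 i
      have h9 : (a - dot a (S.rtw i) • om i) i = a i - dot a (S.rtw i) := by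
        simp [om]
      rw [h9] at h8
      omega
    · exfalso
      have h8 : ∀ k, k ≠ i → a k = 0 := by
        intro k hk
        have h9 := h7 k
        have h10 : (a - dot a (S.rtw i) • om i) k = a k := by
          simp [om, hk]
        rw [h10] at h9
        have := hp k
        omega
      rcases hS.prop a ha i h8 with h9 | h9
      · exact hne h9
      · have h10 := hp i
        rw [h9] at h10
        simp [om] at h10
  have h4 : D.Dem (D.s (some i) (aw N (-om i))) 1 = D.demL c.reverse (ex (aw N (om i))) := by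
    rw [hdemw _ _ D hOK c.reverse (D.s (some i) (aw N (-om i))) 1 (hsT _ _ hNT)
      (by rw [hy4]; exact e1 _ _ _ hcr hcrit4)]
    have h5 : D.sR c (aw N (om i)) = D.s (some i) (aw N (-om i)) := by
      rw [← hc1, hs2, hy4]
      apply hW
      intro j
      have : (om i : Fin n → ℤ) i = 1 := by simp [om]
      rw [this]
      ring
    rw [← h5, (e5 _ _).1, hex]
  -- part (5)
  have hcov2 := hcovN N (by omega)
  have h5 := hOK.d4 (aw N (-om i)) hNT 0 (some i) (by
    rw [hA.co]; show -(om i i) = -1; simp [om]) hcov2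
  rw [zero_add, hOK.d5 _ hNT, mul_one, h3, h4] at h5
  have h6 : ex (aw N (-om i)) = D.demL (some i :: c).reverse (ex (aw N (om i))) -
      D.demL c.reverse (ex (aw N (om i))) := by
    rw [h5]; abel
  intro l
  have hmul : ∀ x y : Option (Fin n) → ℤ, ex x * ex y = ex (x + y) := by
    intro x y
    unfold ex
    rw [AddMonoidAlgebra.single_mul_single, one_mul]
  have hinv : ∀ j : Option (Fin n), (∃ k, j = some k) → D.IsInv j (ex (aw (l - N) 0)) := by
    rintro j ⟨k, rfl⟩
    have h7 := (hop _ _ D (some k)).2.2.2.2.2.2.2.2.1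
    apply h7
    rw [hA.co]; rfl
  have hadj0 := (hadj _ _ D (fun _ => 0) (fun _ _ => by simp)).2.2.1
  have e01 : ∀ mu : Fin n → ℤ, ex (aw l mu) = ex (aw (l - N) 0) * ex (aw N mu) := by
    intro mu
    rw [hmul, aw_add]
    congr 2
    · ring
    · rw [zero_add]
  rw [e01, e01, h6, mul_sub, hadj0 _ _ _ (fun j hj => hinv j ?_), hadj0 _ _ _ (fun j hj => hinv j ?_)]
  · rw [List.mem_reverse] at hj
    exact hc j hj
  · rw [List.mem_reverse, List.mem_cons] at hj
    rcases hj with rfl | hj
    · exact ⟨i, rfl⟩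
    · exact hc j hj

end H391.KR.P_jsd
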