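import Pool.Agent.H391.KR.JC

noncomputable section

namespace H391.KR.P_jsig

open H391.KR Finset

variable {n : ℕ}

/-- pairing of the coroot `(a, m)` with a weight -/
def pr (a : Fin n → ℤ) (m : ℤ) (x : Option (Fin n) → ℤ) : ℤ := dot a (fp x) + m * x none

theorem wext {x y : Option (Fin n) → ℤ} (h0 : x none = y none) (h : ∀ j, x (some j) = y (some j)) :
    x = y := by
  funext o
  cases o with
  | none => exact h0
  | some j => exact h j

theorem dot_sub (a x y : Fin n → ℤ) : dot a (x - y) = dot a x - dot a y := by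
  simp [dot, mul_sub, Finset.sum_sub_distrib]

theorem dot_smul (a : Fin n → ℤ) (c : ℤ) (x : Fin n → ℤ) : dot a (c • x) = c * dot a x := by
  simp only [dot, Pi.smul_apply, smul_eq_mul, Finset.mul_sum]
  exact Finset.sum_congr rfl fun i _ => by ring

theorem sub_dot (a b x : Fin n → ℤ) : dot (a - b) x = dot a x - dot b x := by
  simp [dot, sub_mul, Finset.sum_sub_distrib]

theorem smul_dot (a : Fin n → ℤ) (c : ℤ) (x : Fin n → ℤ) : dot (c • a) x = c * dot a x := by
  simp only [dot, Pi.smul_apply, smul_eq_mul, Finset.mul_sum]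
  exact Finset.sum_congr rfl fun i _ => by ring

theorem neg_dot (a x : Fin n → ℤ) : dot (-a) x = - dot a x := by
  simp [dot]

theorem dot_neg (a x : Fin n → ℤ) : dot a (-x) = - dot a x := by
  simp [dot]

theorem dot_om (a : Fin n → ℤ) (i : Fin n) : dot a (om i) = a i := by
  simp [dot, om]

theorem pr_refl (S : GD n) (a b : Fin n → ℤ) (m k : ℤ) (x : Option (Fin n) → ℤ) :
    pr a m (x - pr b k x • aw 0 (S.rt b)) =
      pr (a - dot a (S.rt b) • b) (m - dot a (S.rt b) * k) x := by
  have h1 : fp (x - pr b k x • aw 0 (S.rt b)) = fp x - pr b k x • S.rt b := rfl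
  have h2 : (x - pr b k x • aw 0 (S.rt b)) none = x none := by
    simp [aw]
  unfold pr at *
  rw [h1, h2, dot_sub, dot_smul, sub_dot, smul_dot]
  ring

theorem rt_refl (S : GD n) (hS : S.OKs) (a b : Fin n → ℤ) (k : ℤ)
    (ha : S.Cor a) (hb : S.Cor b) :
    aw 0 (S.rt (a - dot a (S.rt b) • b)) -
      pr b k (aw 0 (S.rt (a - dot a (S.rt b) • b))) • aw 0 (S.rt b) = aw 0 (S.rt a) := by
  rw [(hS.refl b a hb ha).2.2]
  have h1 : pr b k (aw 0 (S.rt a - dot b (S.rt a) • S.rt b)) = - dot b (S.rt a) := by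
    have : pr b k (aw 0 (S.rt a - dot b (S.rt a) • S.rt b)) =
      dot b (S.rt a - dot b (S.rt a) • S.rt b) + k * 0 := rfl
    rw [this, dot_sub, dot_smul, hS.two b hb]
    ring
  rw [h1]
  apply wext
  · simp [aw]
  · intro j
    simp [aw]

/-- composition of coroots with a word -/
theorem word (S : GD n) (hS : S.OKs)
    (D : RDat (Option (Fin n)) (Option (Fin n))) (hD : S.AffDat D)
    (w : List (Option (Fin n))) : ∀ a m, S.Cor a → S.tt a ∣ m → ∃ a' m', S.Cor a' ∧
      S.tt a' ∣ m' ∧
      (∀ x, pr a m (D.sR w x) = pr a' m' x) ∧ D.sR w (aw 0 (S.rt a')) = aw 0 (S.rt a) := by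
  induction w with
  | nil => exact fun a m ha hm => ⟨a, m, ha, hm, fun x => rfl, rfl⟩
  | cons j w ih =>
    intro a m ha hm
    obtain ⟨a1, m1, h1, h1d, h2, h3⟩ := ih a m ha hm
    obtain ⟨b, k, hb, hev, hrt⟩ := hD.ev (D.sim j)
    have hsj : ∀ x, D.s j x = x - pr b k x • aw 0 (S.rt b) := by
      intro x
      unfold RDat.s RDat.co RDat.al
      rw [hrt, hev]
      rfl
    have hr := hS.refl b a1 hb.1 h1
    refine ⟨a1 - dot a1 (S.rt b) • b, m1 - dot a1 (S.rt b) * k, hr.1, ?_, ?_, ?_⟩
    · rw [hr.2.1]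
      refine dvd_sub h1d ?_
      obtain ⟨c, hc⟩ := hb.2.1
      refine ⟨c * dot b (S.rt a1), ?_⟩
      have hp := (hS.pairs a1 b h1 hb.1).1
      rw [hc]
      linear_combination c * hp
    · intro x
      show pr a m (D.sR w (D.s j x)) = _
      rw [h2, hsj, pr_refl]
    · show D.sR w (D.s j _) = _
      rw [hsj, rt_refl S hS a1 b k h1 hb.1, h3]

theorem lev (S : GD n) (D : RDat (Option (Fin n)) (Option (Fin n))) (hD : S.AffDat D)
    (w : List (Option (Fin n))) : ∀ x, D.sR w x none = x none := by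
  induction w with
  | nil => exact fun x => rfl
  | cons j w ih =>
    intro x
    obtain ⟨b, k, hb, hev, hrt⟩ := hD.ev (D.sim j)
    show D.sR w (D.s j x) none = _
    rw [ih]
    unfold RDat.s RDat.al
    rw [hrt]
    simp [aw]

/-- inverse of the translation -/
def ti (S : GD n) (i : Fin n) (x : Option (Fin n) → ℤ) : Option (Fin n) → ℤ :=
  aw (x none) (fp x + (x none * S.t i) • om i)

theorem ti_tr (S : GD n) (i : Fin n) (x : Option (Fin n) → ℤ) : ti S i (S.tr i x) = x := by
  apply wext
  · rfl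
  · intro j
    simp [ti, GD.tr, aw, fp]

theorem tr_ti (S : GD n) (i : Fin n) (x : Option (Fin n) → ℤ) : S.tr i (ti S i x) = x := by
  apply wext
  · rfl
  · intro j
    simp [ti, GD.tr, aw, fp]

theorem tr_add (S : GD n) (i : Fin n) (x y : Option (Fin n) → ℤ) :
    S.tr i (x + y) = S.tr i x + S.tr i y := by
  apply wext
  · rfl
  · intro j
    simp [GD.tr, aw, fp]
    ring

theorem pr_tr (S : GD n) (a : Fin n → ℤ) (m : ℤ) (i : Fin n) (x : Option (Fin n) → ℤ) :
    pr a m (S.tr i x) = pr a (m - S.t i * a i) x := by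
  have h : pr a m (S.tr i x) = dot a (fp x - (x none * S.t i) • om i) + m * x none := rfl
  rw [h, dot_sub, dot_smul, dot_om]
  unfold pr
  ring

theorem pr_ti (S : GD n) (a : Fin n → ℤ) (m : ℤ) (i : Fin n) (x : Option (Fin n) → ℤ) :
    pr a m (ti S i x) = pr a (m + S.t i * a i) x := by
  have h := pr_tr S a (m + S.t i * a i) i (ti S i x)
  rw [tr_ti] at h
  rw [h]
  congr 1
  ring

theorem tr_aw0 (S : GD n) (i : Fin n) (mu : Fin n → ℤ) : S.tr i (aw 0 mu) = aw 0 mu := by
  apply wext
  · rfl
  · intro j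
    simp [GD.tr, aw, fp]

theorem dot_nonneg {a x : Fin n → ℤ} (ha : ∀ i, 0 ≤ a i) (hx : ∀ i, 0 ≤ x i) : 0 ≤ dot a x :=
  Finset.sum_nonneg fun i _ => mul_nonneg (ha i) (hx i)

theorem dot_le {a b x : Fin n → ℤ} (h : ∀ i, a i ≤ b i) (hx : ∀ i, 0 ≤ x i) :
    dot a x ≤ dot b x :=
  Finset.sum_le_sum fun i _ => mul_le_mul_of_nonneg_right (h i) (hx i)

theorem cneg (S : GD n) (hS : S.OKs) : ∀ a, S.Cor a → S.Cor (-a) ∧ S.tt (-a) = S.tt a := by
  intro a ha
  have h := hS.refl a a ha ha
  rw [hS.two a ha] at h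
  have e : a - (2 : ℤ) • a = -a := by
    rw [two_smul]
    abel
  rw [e] at h
  exact ⟨h.1, h.2.1⟩

/-- a coroot pairs with a dominant weight of level `l` to at most `tt a * l` -/
theorem dot_bnd (S : GD n) (hS : S.OKs) (a : Fin n → ℤ) (ha : S.Cor a) (mu : Fin n → ℤ) (l : ℤ)
    (h0 : ∀ j, 0 ≤ mu j) (h1 : dot S.th mu ≤ l) : dot a mu ≤ S.tt a * l := by
  have k1 : dot a mu ≤ dot (S.tt a • S.th) mu := dot_le (fun j => hS.bnd a ha j) h0
  rw [smul_dot] at k1
  have k2 : S.tt a * dot S.th mu ≤ S.tt a * l :=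
    mul_le_mul_of_nonneg_left h1 (le_trans zero_le_one (hS.tt_pos a ha))
  exact le_trans k1 k2

/-- a positive multiple is at least the divisor -/
theorem le_of_dvd_pos {t m : ℤ} (h : t ∣ m) (hm : 1 ≤ m) : t ≤ m := Int.le_of_dvd (by omega) h

/-- the twisted group element preserves dominance -/
theorem dom_sg (S : GD n) (D : RDat (Option (Fin n)) (Option (Fin n))) (hD : S.AffDat D)
    (hS : S.OKs) (hd : D.HD S.rho) (hN : RDat.N_desc) (i : Fin n)
    (W : List (Option (Fin n))) (hW : D.Desc W (S.xi i)) (hdom : D.Dom (D.sR W (S.xi i)))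
    (z : Option (Fin n) → ℤ) (hz : D.Dom z) : ∀ b, 0 ≤ D.ev b (D.sR W (S.tr i z)) := by
  have hz0 : ∀ j, 0 ≤ fp z j := by
    intro j
    have := hz (some j)
    rwa [hD.co] at this
  have hz1 : dot S.th (fp z) ≤ z none := by
    have := hz none
    rw [hD.co] at this
    have k : S.co none z = z none - dot S.th (fp z) := rfl
    rw [k] at this
    linarith
  have hl : 0 ≤ z none :=
    le_trans (dot_nonneg (fun j => le_trans zero_le_one (hS.th_pos j)) hz0) hz1
  have e1 : ∀ a (m : ℤ), dot a (fp (S.xi i)) + m * (S.xi i) none = m - S.t i * a i := by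
    intro a m
    have : dot a (fp (S.xi i)) + m * (S.xi i) none = dot a (-(S.t i • om i)) + m * 1 := rfl
    rw [this, dot_neg, dot_smul, dot_om]
    ring
  have e2 : ∀ a (m : ℤ), dot a (fp (S.tr i z)) + m * (S.tr i z) none =
      dot a (fp z) + (m - S.t i * a i) * z none := fun a m => pr_tr S a m i z
  refine (hN _ _ D).2.2.1 W (S.xi i) (S.tr i z) hW ?_ ?_ (fun b => hd.dom _ hdom b)
  · intro b hb
    obtain ⟨a, m, hP, hev, -⟩ := hD.ev b
    rw [hev, e1] at hb
    rw [hev, e2]
    have htt := hS.tt_pos a hP.1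
    have hdv : S.tt a ∣ S.t i * a i - m := dvd_sub (hS.tdvd a hP.1 i) hP.2.1
    have h1 : S.tt a ≤ S.t i * a i - m := le_of_dvd_pos hdv (by omega)
    have ha := dot_bnd S hS a hP.1 (fp z) (z none) hz0 hz1
    have h2 : (m - S.t i * a i) * z none ≤ (-S.tt a) * z none :=
      mul_le_mul_of_nonneg_right (by omega) hl
    linarith
  · intro b hb
    by_contra hcon
    obtain ⟨a, m, hP, hev, -⟩ := hD.ev b
    rw [hev, e1] at hcon
    rw [hev, e2] at hb
    have hpos : 0 ≤ m - S.t i * a i := by omega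
    have htt := hS.tt_pos a hP.1
    rcases (hS.sgn a hP.1).2 with ha | ha
    · have h1 := dot_nonneg ha hz0
      have h3 := mul_nonneg hpos hl
      linarith
    · rcases hP.2.2 with hm | hm
      · have h0 : S.tt a ≤ m := le_of_dvd_pos hP.2.1 hm
        have hn := cneg S hS a hP.1
        have h1 := dot_bnd S hS (-a) hn.1 (fp z) (z none) hz0 hz1
        rw [neg_dot, hn.2] at h1
        have h4 : S.t i * a i ≤ 0 :=
          mul_nonpos_of_nonneg_of_nonpos (le_trans zero_le_one (hS.t_pos i)) (ha i)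
        have h3 : S.tt a * z none ≤ (m - S.t i * a i) * z none :=
          mul_le_mul_of_nonneg_right (by linarith) hl
        linarith
      · have h1 := dot_nonneg hm.2 hz0
        have h3 := mul_nonneg hpos hl
        linarith

/-- a nonnegative combination of numbers that are at least one with total one -/
theorem one_sum {ι : Type} [Fintype ι] (N c : ι → ℤ) (hN : ∀ j, 0 ≤ N j) (hc : ∀ j, 1 ≤ c j)
    (h : ∑ j, N j * c j = 1) : ∃ j, N j = 1 ∧ ∀ k, k ≠ j → N k = 0 := by
  classical
  have h0 : ∃ j, N j ≠ 0 := by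
    by_contra hcon
    push Not at hcon
    have : ∑ j, N j * c j = 0 := Finset.sum_eq_zero fun j _ => by rw [hcon j, zero_mul]
    omega
  obtain ⟨j, hj⟩ := h0
  have hj1 : 1 ≤ N j := by
    have := hN j
    omega
  have hsplit : N j * c j + ∑ k ∈ Finset.univ.erase j, N k * c k = 1 := by
    have := Finset.add_sum_erase Finset.univ (fun k => N k * c k) (Finset.mem_univ j)
    exact this.trans h
  have hnn : ∀ k ∈ Finset.univ.erase j, 0 ≤ N k * c k := fun k _ =>
    mul_nonneg (hN k) (le_trans zero_le_one (hc k))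
  have hs0 : 0 ≤ ∑ k ∈ Finset.univ.erase j, N k * c k := Finset.sum_nonneg hnn
  have hjc : N j ≤ N j * c j := by
    have := mul_le_mul_of_nonneg_left (hc j) (hN j)
    linarith
  refine ⟨j, by omega, ?_⟩
  intro k hk
  have hsum : ∑ k ∈ Finset.univ.erase j, N k * c k = 0 := by omega
  have hz := (Finset.sum_eq_zero_iff_of_nonneg hnn).1 hsum k
    (Finset.mem_erase.2 ⟨hk, Finset.mem_univ k⟩)
  rcases mul_eq_zero.1 hz with h1 | h1
  · exact h1
  · have := hc k
    omega

/-- existence for a given word -/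
theorem main1 (hNd : RDat.N_desc) (hH : GD.J_hd) (n : ℕ) (S : GD n) (hS : S.OKs)
    (D : RDat (Option (Fin n)) (Option (Fin n))) (hD : S.AffDat D) (i : Fin n)
    (w : List (Option (Fin n))) (hdesc : D.Desc (some i :: w) (S.xi i))
    (hdomend : D.Dom (D.sR (some i :: w) (S.xi i))) : ∃ X : S.XD D i, X.w = w := by
  have hd := hH n S hS D hD
  have hneg := cneg S hS
  obtain ⟨d1, d2, d3, d4, drev, dadd, dsm, dng, dapp, ddem, dT⟩ := hNd _ _ D
  -- the automorphism
  let W : List (Option (Fin n)) := some i :: w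
  let sg : (Option (Fin n) → ℤ) ≃+ (Option (Fin n) → ℤ) :=
    { toFun := fun x => D.sR W (S.tr i x)
      invFun := fun x => ti S i (D.sR W.reverse x)
      left_inv := fun x => by
        show ti S i (D.sR W.reverse (D.sR W (S.tr i x))) = x
        rw [(drev W _).1, ti_tr]
      right_inv := fun x => by
        show D.sR W (S.tr i (ti S i (D.sR W.reverse x))) = x
        rw [tr_ti, (drev W _).2]
      map_add' := fun x y => by
        show D.sR W (S.tr i (x + y)) = D.sR W (S.tr i x) + D.sR W (S.tr i y)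
        rw [tr_add, dadd] }
  have hsg : ∀ x, sg x = D.sR W (S.tr i x) := fun x => rfl
  have hsi : ∀ x, sg.symm x = ti S i (D.sR W.reverse x) := fun x => rfl
  have hlev : ∀ x, sg x none = x none := by
    intro x
    rw [hsg, lev S D hD]
    rfl
  -- dominance
  have hrdom : D.Dom S.rho := fun j => by rw [hd.one]; exact zero_le_one
  have hsdom : ∀ b, 0 ≤ D.ev b (sg S.rho) := fun b =>
    dom_sg S D hD hS hd hNd i W hdesc hdomend S.rho hrdom b
  -- positive or negative
  have hpn : ∀ a m, S.Cor a → S.tt a ∣ m → S.APos a m ∨ S.APos (-a) (-m) := by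
    intro a m ha hdv
    have hn := hneg a ha
    have hdv' : S.tt (-a) ∣ -m := by
      rw [hn.2]
      exact (dvd_neg).2 hdv
    rcases lt_trichotomy m 0 with h | h | h
    · exact Or.inr ⟨hn.1, hdv', Or.inl (by omega)⟩
    · rcases (hS.sgn a ha).2 with h' | h'
      · exact Or.inl ⟨ha, hdv, Or.inr ⟨h, h'⟩⟩
      · exact Or.inr ⟨hn.1, hdv', Or.inr ⟨by omega, fun j => by
          have := h' j
          simp only [Pi.neg_apply]
          omega⟩⟩
    · exact Or.inl ⟨ha, hdv, Or.inl (by omega)⟩
  have prneg : ∀ (a : Fin n → ℤ) (m : ℤ) x, pr (-a) (-m) x = - pr a m x := by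
    intro a m x
    unfold pr
    rw [neg_dot]
    ring
  have hphi : ∀ b, ∃ c, (∀ x, D.ev b (sg x) = D.ev c x) ∧ sg (D.rt c) = D.rt b := by
    intro b
    obtain ⟨a, m, hP, hev, hrt⟩ := hD.ev b
    obtain ⟨a', m', ha', hd', h1, h3⟩ := word S hS D hD W a m hP.1 hP.2.1
    have h1' : ∀ x, D.ev b (sg x) = pr a' (m' - S.t i * a' i) x := by
      intro x
      rw [hev, hsg]
      exact (h1 _).trans (pr_tr _ _ _ _ _)
    have hd'' : S.tt a' ∣ m' - S.t i * a' i := dvd_sub hd' (hS.tdvd a' ha' i)
    rcases hpn a' (m' - S.t i * a' i) ha' hd'' with hq | hq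
    · obtain ⟨c, hc1, hc2⟩ := hD.exi _ _ hq
      refine ⟨c, fun x => by rw [h1', hc1]; rfl, ?_⟩
      rw [hc2, hrt, hsg, tr_aw0, h3]
    · exfalso
      obtain ⟨c, hc1, hc2⟩ := hD.exi _ _ hq
      have k1 := hd.pos c
      have k2 := hsdom b
      rw [h1'] at k2
      rw [hc1] at k1
      have k3 := prneg a' (m' - S.t i * a' i) S.rho
      unfold pr at k2 k3
      omega
  have hpsi : ∀ b, ∃ c, ∀ x, D.ev b (sg.symm x) = D.ev c x := by
    intro b
    obtain ⟨a, m, hP, hev, hrt⟩ := hD.ev b
    have hdv : S.tt a ∣ m + S.t i * a i := dvd_add hP.2.1 (hS.tdvd a hP.1 i)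
    obtain ⟨a', m', ha', hd', h1, h3⟩ := word S hS D hD W.reverse a (m + S.t i * a i) hP.1 hdv
    have h1' : ∀ x, D.ev b (sg.symm x) = pr a' m' x := by
      intro x
      rw [hev, hsi]
      exact (pr_ti _ _ _ _ _).trans (h1 _)
    rcases hpn a' m' ha' hd' with hq | hq
    · obtain ⟨c, hc1, hc2⟩ := hD.exi _ _ hq
      exact ⟨c, fun x => by rw [h1', hc1]; rfl⟩
    · exfalso
      obtain ⟨c, hc1, hc2⟩ := hD.exi _ _ hq
      obtain ⟨d, hd1, hd2⟩ := hphi c
      apply D.pos d b
      intro x
      rw [← hd1, hc1]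
      have k1 := h1' (sg x)
      rw [sg.symm_apply_apply] at k1
      have k3 := prneg a' m' (sg x)
      unfold pr at k1 k3
      rw [k1]
      exact k3
  -- expansion in simple coroots
  have hexp : ∀ b, ∃ N : Option (Fin n) → ℤ, (∀ j, 0 ≤ N j) ∧
      ∀ x, D.ev b x = ∑ j, N j * D.co j x := by
    intro b
    obtain ⟨a, m, hP, hev, hrt⟩ := hD.ev b
    refine ⟨aw m (a + m • S.th), ?_, ?_⟩
    · have hm : 0 ≤ m := by
        rcases hP.2.2 with h | h
        · omega
        · omega
      intro j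
      cases j with
      | none => exact hm
      | some j =>
        show 0 ≤ a j + m * S.th j
        rcases hP.2.2 with h | h
        · have hn := hneg a hP.1
          have k1 := hS.bnd (-a) hn.1 j
          rw [hn.2] at k1
          have k2 : S.tt a * S.th j ≤ m * S.th j :=
            mul_le_mul_of_nonneg_right (le_of_dvd_pos hP.2.1 h)
              (le_trans zero_le_one (hS.th_pos j))
          simp only [Pi.neg_apply] at k1
          linarith
        · rw [h.1]
          have := h.2 j
          linarith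
    · intro x
      have c1 : ∀ j, D.co (some j) x = x (some j) := fun j => hD.co (some j) x
      have c0 : D.co none x = x none - dot S.th (fp x) := hD.co none x
      rw [hev, Fintype.sum_option]
      simp only [c1, c0]
      have k1 : ∑ j, aw m (a + m • S.th) (some j) * x (some j) =
          dot a (fp x) + m * dot S.th (fp x) := by
        simp only [dot, Finset.mul_sum, ← Finset.sum_add_distrib]
        refine Finset.sum_congr rfl fun j _ => ?_
        simp only [aw, fp, Option.elim, Pi.add_apply, Pi.smul_apply, smul_eq_mul]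
        ring
      rw [k1]
      show _ = m * (x none - dot S.th (fp x)) + _
      ring
  -- the permutation of the nodes
  have hta : ∀ k, ∃ j, ∀ x, D.co j (sg x) = D.co k x := by
    intro k
    obtain ⟨b, hb⟩ := hpsi (D.sim k)
    obtain ⟨N, hN, hNs⟩ := hexp b
    have h1 : ∑ j, N j * D.co j (sg S.rho) = 1 := by
      rw [← hNs, ← hb, sg.symm_apply_apply]
      exact hd.one k
    have h3 : ∀ j, 1 ≤ D.co j (sg S.rho) := by
      intro j
      obtain ⟨c, hc, -⟩ := hphi (D.sim j)
      show 1 ≤ D.ev (D.sim j) (sg S.rho)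
      rw [hc]
      exact hd.pos c
    obtain ⟨j, hj1, hj0⟩ := one_sum N _ hN h3 h1
    refine ⟨j, fun x => ?_⟩
    have k1 : D.ev b (sg x) = D.co k x := by
      rw [← hb, sg.symm_apply_apply]
      rfl
    rw [← k1, hNs, Finset.sum_eq_single j, hj1, one_mul]
    · intro l _ hl
      rw [hj0 l hl, zero_mul]
    · intro h
      exact absurd (Finset.mem_univ j) h
  choose ta hta using hta
  have hcs : ∀ j x, D.co (some j) x = x (some j) := fun j x => hD.co (some j) x
  have hcn : ∀ x, D.co none x = x none - dot S.th (fp x) := fun x => hD.co none x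
  have hcoinj : ∀ k k', (∀ x, D.co k x = D.co k' x) → k = k' := by
    intro k k' h
    cases k with
    | none =>
      cases k' with
      | none => rfl
      | some j' =>
        exfalso
        have := h (aw 1 0)
        rw [hcs, hcn] at this
        simp [aw, fp, dot] at this
    | some j =>
      cases k' with
      | none =>
        exfalso
        have := h (aw 1 0)
        rw [hcs, hcn] at this
        simp [aw, fp, dot] at this
      | some j' =>
        have := h (aw 0 (om j))
        rw [hcs, hcs] at this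
        by_contra hne
        have hne' : j' ≠ j := fun e => hne (by rw [e])
        simp [aw, om, hne'] at this
  have htainj : Function.Injective ta := by
    intro k k' h
    apply hcoinj
    intro x
    rw [← hta k x, ← hta k' x, h]
  refine ⟨{ w := w, sg := sg, ta := Equiv.ofBijective ta (Finite.injective_iff_bijective.1 htainj),
            tw := ?_, desc := hdesc, eq := fun x => rfl }, rfl⟩
  refine ⟨fun j x => hta j x, fun j => ?_, fun x => ?_⟩
  · obtain ⟨c, hc1, hc2⟩ := hphi (D.sim (ta j))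
    have : c = D.sim j := by
      apply D.inj
      intro x
      rw [← hc1]
      exact hta j x
    rw [this] at hc2
    exact hc2
  · rw [hD.T]
    show 1 ≤ x none ↔ 1 ≤ sg x none
    rw [hlev]

theorem main : RDat.S_len → RDat.N_red → RDat.N_desc → GD.J_hd → GD.J_sig := by
  intro _ hNr hNd hH n S hS D hD i
  refine ⟨fun w h1 h2 => main1 hNd hH n S hS D hD i w h1 h2, ?_⟩
  have hxT : S.xi i ∈ D.T := by
    rw [hD.T]
    exact le_refl (1 : ℤ)
  have hxi : D.co (some i) (S.xi i) < 0 := by
    rw [hD.co]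
    have h1 : S.co (some i) (S.xi i) = -(S.t i * 1) := by
      show -(S.t i * (if i = i then 1 else 0)) = _
      rw [if_pos rfl]
    rw [h1]
    have := hS.t_pos i
    omega
  obtain ⟨w, -, hdesc, hend⟩ := (hNr _ _ D Set.univ (S.xi i) hxT).2 (some i) (Set.mem_univ _) hxi
  obtain ⟨X, -⟩ := main1 hNd hH n S hS D hD i w hdesc (fun j => hend j (Set.mem_univ _))
  exact ⟨X⟩

end H391.KR.P_jsig
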