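import Pool.Agent.H391.KR.JV

/-!
Quantum dimensions, two root lengths: symmetries and positivity.
-/

noncomputable section

namespace H391.KR.P_jsin

open Finset H391.KR

/-- a product which changes its sign -/
theorem anti {β : Type*} [DecidableEq β] (P : Finset β) (t : β → β) (b0 : β) (hb : b0 ∈ P)
    (ht : ∀ a ∈ P, a ≠ b0 → t a ∈ P ∧ t a ≠ b0 ∧ t (t a) = a) (f g : β → ℝ)
    (h0 : g b0 = - f b0) (h1 : ∀ a ∈ P, a ≠ b0 → g a = f (t a)) :
    ∏ a ∈ P, g a = - ∏ a ∈ P, f a := by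
  rw [← Finset.mul_prod_erase P g hb, ← Finset.mul_prod_erase P f hb, h0, neg_mul]
  congr 2
  refine Finset.prod_nbij' t t ?_ ?_ ?_ ?_ ?_
  · intro a ha
    rw [mem_erase] at ha ⊢
    exact ⟨(ht a ha.2 ha.1).2.1, (ht a ha.2 ha.1).1⟩
  · intro a ha
    rw [mem_erase] at ha ⊢
    exact ⟨(ht a ha.2 ha.1).2.1, (ht a ha.2 ha.1).1⟩
  · intro a ha
    rw [mem_erase] at ha
    exact (ht a ha.2 ha.1).2.2
  · intro a ha
    rw [mem_erase] at ha
    exact (ht a ha.2 ha.1).2.2
  · intro a ha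
    rw [mem_erase] at ha
    exact h1 a ha.2 ha.1

variable {n : ℕ} (S : GD n)

/-- numerator -/
def num (τ : ℝ) (mu a : Fin n → ℤ) : ℝ :=
  Real.sin (τ * (∑ i, a i * (mu i + 1) : ℤ) / (S.tt a : ℤ))

/-- denominator -/
def den (τ : ℝ) (a : Fin n → ℤ) : ℝ :=
  Real.sin (τ * (∑ i, a i : ℤ) / (S.tt a : ℤ))

theorem qd_eq (τ : ℝ) (mu : Fin n → ℤ) (hf : S.pos.Finite) :
    S.qdR τ mu = (∏ a ∈ hf.toFinset, num S τ mu a) / ∏ a ∈ hf.toFinset, den S τ a := by
  unfold GD.qdR
  rw [finprod_mem_eq_finite_toFinset_prod _ hf, Finset.prod_div_distrib]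
  rfl

theorem dot_sub_left (a b c : Fin n → ℤ) : dot (a - b) c = dot a c - dot b c := by
  simp [dot, sub_mul, Finset.sum_sub_distrib]

theorem dot_smul_left (t : ℤ) (a c : Fin n → ℤ) : dot (t • a) c = t * dot a c := by
  simp [dot, Finset.mul_sum, mul_assoc]

theorem dot_one (a mu : Fin n → ℤ) : ∑ i, a i * (mu i + 1) = dot a (mu + fun _ => 1) := rfl

theorem dot_sub_right (a b c : Fin n → ℤ) : dot a (b - c) = dot a b - dot a c := by
  simp [dot, mul_sub, Finset.sum_sub_distrib]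

theorem dot_smul_right (t : ℤ) (a c : Fin n → ℤ) : dot a (t • c) = t * dot a c := by
  simp only [dot, Pi.smul_apply, smul_eq_mul, Finset.mul_sum]
  exact Finset.sum_congr rfl fun i _ => by ring

variable {S}

theorem cor_neg (h : S.OKs) {a : Fin n → ℤ} (ha : S.Cor a) : S.Cor (-a) ∧ S.tt (-a) = S.tt a := by
  have h1 := h.refl a a ha ha
  rw [h.two a ha] at h1
  have h2 : a - (2 : ℤ) • a = -a := by
    funext i
    simp only [Pi.sub_apply, Pi.smul_apply, smul_eq_mul, Pi.neg_apply]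
    ring
  rw [h2] at h1
  exact ⟨h1.1, h1.2.1⟩

theorem num_neg (h : S.OKs) (τ : ℝ) (mu : Fin n → ℤ) {a : Fin n → ℤ} (ha : S.Cor a) :
    num S τ mu (-a) = - num S τ mu a := by
  unfold num
  rw [(cor_neg h ha).2, ← Real.sin_neg]
  congr 1
  simp only [Pi.neg_apply, neg_mul, Finset.sum_neg_distrib]
  push_cast
  ring

theorem num_refl (h : S.OKs) (τ : ℝ) (mu : Fin n → ℤ) (i : Fin n) {a : Fin n → ℤ}
    (ha : S.Cor a) :
    num S τ (mu - (mu i + 1) • S.rtw i) a = num S τ mu (a - dot a (S.rtw i) • om i) := by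
  have h1 := (h.refl (om i) a (GD.Cor.simple i) ha).2.1
  rw [(h.om i).2] at h1
  unfold num
  have e : ∑ j, a j * ((mu - (mu i + 1) • S.rtw i) j + 1) =
      ∑ j, (a - dot a (S.rtw i) • om i) j * (mu j + 1) := by
    have h2 : ∑ j, (a - dot a (S.rtw i) • om i) j * (mu j + 1) =
        ∑ j, a j * (mu j + 1) - dot a (S.rtw i) * (mu i + 1) := by
      simp only [Pi.sub_apply, Pi.smul_apply, smul_eq_mul, sub_mul, Finset.sum_sub_distrib]
      congr 1
      simp [om]
    rw [h2, show dot a (S.rtw i) = ∑ j, a j * S.rtw i j from rfl, Finset.sum_mul,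
      ← Finset.sum_sub_distrib]
    refine Finset.sum_congr rfl fun j _ => ?_
    simp only [Pi.sub_apply, Pi.smul_apply, smul_eq_mul]
    ring
  rw [e, h1]

theorem ht_pos (h : S.OKs) {a : Fin n → ℤ} (ha : a ∈ S.pos) : 1 ≤ ∑ i, a i := by
  by_contra hc
  push Not at hc
  have h1 : ∑ i, a i = 0 := le_antisymm (by omega) (Finset.sum_nonneg fun i _ => ha.2 i)
  have h2 : a = 0 := by
    funext i
    exact (Finset.sum_eq_zero_iff_of_nonneg fun i _ => ha.2 i).1 h1 i (Finset.mem_univ i)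
  exact (h.sgn a ha.1).1 h2

theorem hv_pos (h : S.OKs) : 1 ≤ S.hv := by
  have : 0 ≤ ∑ i, S.th i := Finset.sum_nonneg fun i _ => by
    have := h.th_pos i
    omega
  unfold GD.hv
  omega

theorem ht_le (h : S.OKs) {a : Fin n → ℤ} (ha : a ∈ S.pos) :
    ∑ i, a i ≤ S.tt a * (S.hv - 1) := by
  have h1 : ∑ i, a i ≤ ∑ i, S.tt a * S.th i := Finset.sum_le_sum fun i _ => h.bnd a ha.1 i
  rw [← Finset.mul_sum] at h1
  refine h1.trans (le_of_eq ?_)
  unfold GD.hv
  ring

theorem sin_pos' {τ : ℝ} {x t : ℤ} (hτ : 0 < τ) (hx : 1 ≤ x) (ht : 1 ≤ t)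
    (h : τ * (x : ℝ) / (t : ℝ) < Real.pi) : 0 < Real.sin (τ * (x : ℝ) / (t : ℝ)) := by
  have hx' : (0 : ℝ) < x := by exact_mod_cast (show 0 < x by omega)
  have ht' : (0 : ℝ) < t := by exact_mod_cast (show 0 < t by omega)
  exact Real.sin_pos_of_pos_of_lt_pi (by positivity) h

theorem den_pos (h : S.OKs) {τ : ℝ} (hτ : 0 < τ) (hτ2 : τ * S.hv ≤ Real.pi) {a : Fin n → ℤ}
    (ha : a ∈ S.pos) : 0 < den S τ a := by
  have ht := h.tt_pos a ha.1
  refine sin_pos' hτ (ht_pos h ha) ht ?_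
  have ht' : (0 : ℝ) < S.tt a := by exact_mod_cast (show 0 < S.tt a by omega)
  rw [div_lt_iff₀ ht']
  have h1 : ((∑ i, a i : ℤ) : ℝ) ≤ (S.tt a : ℝ) * ((S.hv : ℝ) - 1) := by
    exact_mod_cast ht_le h ha
  calc τ * ((∑ i, a i : ℤ) : ℝ) ≤ τ * ((S.tt a : ℝ) * ((S.hv : ℝ) - 1)) :=
        mul_le_mul_of_nonneg_left h1 hτ.le
    _ < τ * S.hv * S.tt a := by
        have h2 : 0 < τ * (S.tt a : ℝ) := mul_pos hτ ht'
        nlinarith
    _ ≤ Real.pi * S.tt a := mul_le_mul_of_nonneg_right hτ2 ht'.le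

theorem num_zero (τ : ℝ) (a : Fin n → ℤ) : num S τ 0 a = den S τ a := by
  simp [num, den]

theorem num_pos (h : S.OKs) {τ : ℝ} (hτ : 0 < τ) {mu : Fin n → ℤ} (hmu : ∀ i, 0 ≤ mu i)
    {a : Fin n → ℤ} (ha : a ∈ S.pos)
    (hlt : τ * (∑ i, a i * (mu i + 1) : ℤ) / (S.tt a : ℤ) < Real.pi) : 0 < num S τ mu a := by
  refine sin_pos' hτ ?_ (h.tt_pos a ha.1) hlt
  refine (ht_pos h ha).trans (Finset.sum_le_sum fun i _ => ?_)
  have h1 := ha.2 i
  have h2 := hmu i
  nlinarith

theorem par_pos (h : S.OKs) (k : ℕ) : 0 < S.par k := by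
  have h1 : (1 : ℝ) ≤ (S.hv : ℝ) := by exact_mod_cast hv_pos h
  unfold GD.par
  have h2 : (0 : ℝ) ≤ k := Nat.cast_nonneg k
  exact div_pos Real.pi_pos (by linarith)

theorem par_hv (h : S.OKs) (k : ℕ) : S.par k * S.hv ≤ Real.pi := by
  have h1 : (1 : ℝ) ≤ (S.hv : ℝ) := by exact_mod_cast hv_pos h
  have h2 : (0 : ℝ) ≤ k := Nat.cast_nonneg k
  unfold GD.par
  rw [div_mul_eq_mul_div, div_le_iff₀ (by linarith)]
  have := Real.pi_pos
  nlinarith

theorem alc_lt (h : S.OKs) (k : ℕ) {la : Fin n → ℤ} (hla : la ∈ S.alc k) {a : Fin n → ℤ}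
    (ha : a ∈ S.pos) :
    S.par k * (∑ i, a i * (la i + 1) : ℤ) / (S.tt a : ℤ) < Real.pi := by
  have ht := h.tt_pos a ha.1
  have ht' : (0 : ℝ) < S.tt a := by exact_mod_cast (show 0 < S.tt a by omega)
  have h1 : (1 : ℝ) ≤ (S.hv : ℝ) := by exact_mod_cast hv_pos h
  have h2 : (0 : ℝ) ≤ k := Nat.cast_nonneg k
  have h3 : ∑ i, a i * (la i + 1) ≤ S.tt a * (k + S.hv - 1) := by
    have h4 : ∑ i, a i * (la i + 1) ≤ ∑ i, (S.tt a * S.th i) * (la i + 1) :=
      Finset.sum_le_sum fun i _ => mul_le_mul_of_nonneg_right (h.bnd a ha.1 i) (by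
        have := hla.1 i
        omega)
    have h5 : ∑ i, (S.tt a * S.th i) * (la i + 1) = S.tt a * (dot S.th la + ∑ i, S.th i) := by
      rw [show dot S.th la = ∑ i, S.th i * la i from rfl, ← Finset.sum_add_distrib,
        Finset.mul_sum]
      exact Finset.sum_congr rfl fun i _ => by ring
    have h6 := hla.2
    have h7 : S.hv = 1 + ∑ i, S.th i := rfl
    rw [h5] at h4
    refine h4.trans (mul_le_mul_of_nonneg_left (by omega) (by omega))
  have h8 : ((∑ i, a i * (la i + 1) : ℤ) : ℝ) ≤ (S.tt a : ℝ) * ((k : ℝ) + S.hv - 1) := by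
    exact_mod_cast h3
  rw [div_lt_iff₀ ht']
  have hp := par_pos h k
  have hN0 : (0 : ℝ) < (k : ℝ) + (S.hv : ℝ) := by linarith
  have hN : S.par k * ((k : ℝ) + S.hv) = Real.pi := by
    unfold GD.par
    exact div_mul_cancel₀ _ hN0.ne'
  calc S.par k * ((∑ i, a i * (la i + 1) : ℤ) : ℝ)
      ≤ S.par k * ((S.tt a : ℝ) * ((k : ℝ) + S.hv - 1)) := mul_le_mul_of_nonneg_left h8 hp.le
    _ < S.par k * ((k : ℝ) + S.hv) * S.tt a := by
        have h9 : 0 < S.par k * (S.tt a : ℝ) := mul_pos hp ht'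
        nlinarith
    _ = Real.pi * S.tt a := by rw [hN]

theorem num_aff_int (mu a : Fin n → ℤ) (k : ℕ) :
    ∑ j, a j * ((mu - (dot S.th mu - k - 1) • S.rt S.th) j + 1) =
      ∑ j, a j * (mu j + 1) - (∑ j, S.th j * (mu j + 1)) * dot a (S.rt S.th) +
        (k + S.hv) * dot a (S.rt S.th) := by
  have h1 : ∑ j, S.th j * (mu j + 1) = dot S.th mu + ∑ j, S.th j := by
    simp [dot, mul_add, Finset.sum_add_distrib]
  have h2 : ∑ j, a j * ((mu - (dot S.th mu - k - 1) • S.rt S.th) j + 1) =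
      ∑ j, a j * (mu j + 1) - (dot S.th mu - k - 1) * dot a (S.rt S.th) := by
    rw [show dot a (S.rt S.th) = ∑ j, a j * S.rt S.th j from rfl, Finset.mul_sum,
      ← Finset.sum_sub_distrib]
    refine Finset.sum_congr rfl fun j _ => ?_
    simp only [Pi.sub_apply, Pi.smul_apply, smul_eq_mul]
    ring
  rw [h1, h2, show S.hv = 1 + ∑ i, S.th i from rfl]
  ring

theorem num_aff0 (k : ℕ) (mu a : Fin n → ℤ) (ha : dot a (S.rt S.th) = 0) :
    num S (S.par k) (mu - (dot S.th mu - k - 1) • S.rt S.th) a = num S (S.par k) mu a := by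
  unfold num
  rw [num_aff_int, ha]
  simp

theorem par_mul (h : S.OKs) (k : ℕ) : S.par k * ((k : ℝ) + S.hv) = Real.pi := by
  have h1 : (1 : ℝ) ≤ (S.hv : ℝ) := by exact_mod_cast hv_pos h
  have h2 : (0 : ℝ) ≤ k := Nat.cast_nonneg k
  have hN0 : (0 : ℝ) < (k : ℝ) + (S.hv : ℝ) := by linarith
  unfold GD.par
  exact div_mul_cancel₀ _ hN0.ne'

theorem num_aff1 (h : S.OKs) (k : ℕ) (mu : Fin n → ℤ) {a : Fin n → ℤ}
    (hc : S.Cor a) (ha : dot a (S.rt S.th) = S.tt a)
    (hta : S.tt (S.tt a • S.th - a) = S.tt a) :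
    num S (S.par k) (mu - (dot S.th mu - k - 1) • S.rt S.th) a =
      num S (S.par k) mu (S.tt a • S.th - a) := by
  have ht := h.tt_pos a hc
  have ht' : (S.tt a : ℝ) ≠ 0 := by exact_mod_cast (show S.tt a ≠ 0 by omega)
  have hN := par_mul h k
  unfold num
  rw [num_aff_int, ha, hta, ← Real.sin_pi_sub]
  congr 1
  have e : ∑ j, (S.tt a • S.th - a) j * (mu j + 1) =
      S.tt a * ∑ j, S.th j * (mu j + 1) - ∑ j, a j * (mu j + 1) := by
    rw [Finset.mul_sum, ← Finset.sum_sub_distrib]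
    refine Finset.sum_congr rfl fun j _ => ?_
    simp only [Pi.sub_apply, Pi.smul_apply, smul_eq_mul]
    ring
  rw [e]
  generalize ∑ j, S.th j * (mu j + 1) = x
  generalize ∑ j, a j * (mu j + 1) = y
  push_cast
  field_simp
  linear_combination (-(S.tt a : ℝ)) * hN

theorem num_aff2 (h : S.OKs) (k : ℕ) (mu : Fin n → ℤ) :
    num S (S.par k) (mu - (dot S.th mu - k - 1) • S.rt S.th) S.th =
      - num S (S.par k) mu S.th := by
  have hN := par_mul h k
  unfold num
  rw [num_aff_int, h.two _ h.th_cor.1, h.th_cor.2, ← Real.sin_neg,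
    ← Real.sin_add_two_pi (-(S.par k * _ / _))]
  congr 1
  generalize ∑ j, S.th j * (mu j + 1) = x
  push_cast
  linear_combination 2 * hN

theorem main : GD.J_sin := by
  intro n S h
  have hf : S.pos.Finite := h.fin.subset fun a ha => ha.1
  have hP : ∀ a, a ∈ hf.toFinset ↔ a ∈ S.pos := fun a => hf.mem_toFinset
  have H5 : ∀ τ : ℝ, 0 < τ → τ * S.hv ≤ Real.pi → ∀ mu : Fin n → ℤ, (∀ i, 0 ≤ mu i) →
      (∀ a ∈ S.pos, τ * (∑ i, a i * (mu i + 1) : ℤ) / (S.tt a : ℤ) < Real.pi) →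
      0 < S.qdR τ mu := by
    intro τ hτ hτ2 mu hmu hlt
    rw [qd_eq S τ _ hf]
    exact div_pos (Finset.prod_pos fun a ha => num_pos h hτ hmu ((hP _).1 ha) (hlt a ((hP _).1 ha)))
      (Finset.prod_pos fun a ha => den_pos h hτ hτ2 ((hP _).1 ha))
  classical
  refine ⟨?_, ?_, ?_, ?_, H5⟩
  · -- finite reflections
    intro τ mu i
    rw [qd_eq S τ _ hf, qd_eq S τ _ hf, ← neg_div]
    congr 1
    have homi : ∀ j, om i j = if j = i then 1 else 0 := fun j => rfl
    have hcor : S.Cor (om i) := GD.Cor.simple i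
    have hpos : om i ∈ S.pos := ⟨hcor, fun j => by rw [homi]; split_ifs <;> norm_num⟩
    have hii : dot (om i) (S.rtw i) = 2 := by
      rw [← (h.om i).2]
      exact h.two _ hcor
    refine anti hf.toFinset (fun a => a - dot a (S.rtw i) • om i) (om i) ((hP _).2 hpos) ?_ _ _
      ?_ ?_
    · intro a ha hne
      rw [hP] at ha
      have hj : ∃ j, j ≠ i ∧ 0 < a j := by
        by_contra hc
        push Not at hc
        have h1 : ∀ j, j ≠ i → a j = 0 := fun j hj => le_antisymm (hc j hj) (ha.2 j)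
        rcases h.prop a ha.1 i h1 with h2 | h2
        · exact hne h2
        · have h3 := ha.2 i
          rw [h2, Pi.neg_apply, homi, if_pos rfl] at h3
          omega
      obtain ⟨j, hji, hj⟩ := hj
      have hroot : S.Cor (a - dot a (S.rtw i) • om i) := GD.Cor.refl a i ha.1
      have hcoord : (a - dot a (S.rtw i) • om i) j = a j := by
        rw [Pi.sub_apply, Pi.smul_apply, homi, if_neg hji, smul_zero, sub_zero]
      refine ⟨?_, ?_, ?_⟩
      · rw [hP]
        refine ⟨hroot, ?_⟩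
        rcases (h.sgn _ hroot).2 with h1 | h1
        · exact h1
        · exfalso
          have := h1 j
          rw [hcoord] at this
          omega
      · intro h1
        have h2 := congrFun h1 j
        rw [hcoord, homi, if_neg hji] at h2
        omega
      · rw [dot_sub_left, dot_smul_left, hii]
        funext l
        simp only [Pi.sub_apply, Pi.smul_apply, smul_eq_mul]
        ring
    · rw [num_refl h τ mu i hcor, hii]
      have e : om i - (2 : ℤ) • om i = -(om i : Fin n → ℤ) := by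
        funext l
        simp only [Pi.sub_apply, Pi.smul_apply, smul_eq_mul, Pi.neg_apply]
        ring
      rw [e, num_neg h τ mu hcor]
    · intro a ha _
      exact num_refl h τ mu i ((hP _).1 ha).1
  · -- the affine reflection
    intro k mu
    rw [qd_eq S _ _ hf, qd_eq S _ _ hf, ← neg_div]
    congr 1
    have hthr : S.Cor S.th := h.th_cor.1
    have hpos : S.th ∈ S.pos := ⟨hthr, fun j => by have := h.th_pos j; omega⟩
    have hthn : S.th ≠ 0 := (h.sgn _ hthr).1
    -- the two cases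
    have hbf : ∀ a ∈ S.pos, a ≠ S.th → dot a (S.rt S.th) = 0 ∨ dot a (S.rt S.th) = S.tt a := by
      intro a ha hne
      have h0 : a ≠ -S.th := by
        intro h1
        apply hthn
        funext j
        have h2 := ha.2 j
        rw [h1, Pi.neg_apply] at h2
        have h3 := h.th_pos j
        omega
      obtain ⟨⟨q, hq⟩, h2⟩ := h.th_pair a ha.1 hne h0
      have h3 : 0 ≤ dot a (S.rt S.th) :=
        Finset.sum_nonneg fun i _ => mul_nonneg (ha.2 i) (h.th_dom i)
      have ht := h.tt_pos a ha.1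
      rw [abs_of_nonneg h3] at h2
      have hq0 : 0 ≤ q := by
        by_contra hc
        push Not at hc
        have : S.tt a * q < 0 := mul_neg_of_pos_of_neg (by omega) hc
        omega
      have hq1 : q ≤ 1 := by
        by_contra hc
        push Not at hc
        nlinarith
      have hq2 : q = 0 ∨ q = 1 := by omega
      rcases hq2 with h4 | h4
      · left; rw [hq, h4, mul_zero]
      · right; rw [hq, h4, mul_one]
    -- the second case
    have hsec : ∀ a ∈ S.pos, dot a (S.rt S.th) = S.tt a →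
        S.tt a • S.th - a ∈ S.pos ∧ S.tt (S.tt a • S.th - a) = S.tt a := by
      intro a ha h1
      have h2 := h.refl S.th a hthr ha.1
      have h3 := cor_neg h h2.1
      have h4 : -(a - dot a (S.rt S.th) • S.th) = S.tt a • S.th - a := by
        rw [h1, neg_sub]
      rw [h4, h2.2.1] at h3
      refine ⟨⟨h3.1, fun j => ?_⟩, h3.2⟩
      have := h.bnd a ha.1 j
      rw [Pi.sub_apply, Pi.smul_apply, smul_eq_mul]
      omega
    refine anti hf.toFinset (fun a => if dot a (S.rt S.th) = 0 then a else S.tt a • S.th - a) S.th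
      ((hP _).2 hpos) ?_ _ _ (num_aff2 h k mu) ?_
    · intro a ha hne
      rw [hP] at ha
      have ht := h.tt_pos a ha.1
      rcases hbf a ha hne with h1 | h1
      · simp only [if_pos h1]
        exact ⟨(hP _).2 ha, hne, trivial⟩
      · obtain ⟨h2, h3⟩ := hsec a ha h1
        have h4 : ¬ dot a (S.rt S.th) = 0 := by omega
        have h5 : dot (S.tt a • S.th - a) (S.rt S.th) = S.tt a := by
          rw [dot_sub_left, dot_smul_left, h.two _ hthr, h1]
          ring
        have h6 : ¬ dot (S.tt a • S.th - a) (S.rt S.th) = 0 := by omega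
        simp only [if_neg h4, if_neg h6]
        refine ⟨(hP _).2 h2, ?_, ?_⟩
        · intro h7
          rw [h7, h.th_cor.2] at h3
          rw [← h3, one_smul] at h7
          have h8 : a = 0 := sub_eq_self.1 h7
          exact (h.sgn a ha.1).1 h8
        · rw [h3, sub_sub_cancel]
    · intro a ha hne
      rw [hP] at ha
      rcases hbf a ha hne with h1 | h1
      · simp only [if_pos h1]
        exact num_aff0 k mu a h1
      · have ht := h.tt_pos a ha.1
        have h4 : ¬ dot a (S.rt S.th) = 0 := by omega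
        simp only [if_neg h4]
        exact num_aff1 h k mu ha.1 h1 (hsec a ha h1).2
  · -- positivity in the alcove
    intro k la hla
    exact H5 _ (par_pos h k) (par_hv h k) la hla.1 fun a ha => alc_lt h k hla ha
  · intro τ hτ hτ2
    rw [qd_eq S τ _ hf]
    simp only [num_zero]
    exact div_self (Finset.prod_pos fun a ha => den_pos h hτ hτ2 ((hP _).1 ha)).ne'

end H391.KR.P_jsin
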