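import Pool.Agent.H391.KR.JV

/-! KR-gstar: reduced words of the longest element, starting with any given letter
(helper196 for helper391) -/

set_option autoImplicit false

noncomputable section

namespace H391.KR.P_jstar

open Finset H391.KR

variable {n : ℕ} {S : GD n} {D : RDat (Option (Fin n)) (Option (Fin n))} (hD : S.AffDat D)
include hD

lemma s_none (k : Fin n) (x : Option (Fin n) → ℤ) : D.s (some k) x none = x none := by
  unfold RDat.s
  rw [hD.al, Pi.sub_apply, Pi.smul_apply, smul_eq_mul]
  show x none - D.co (some k) x * 0 = x none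
  ring

lemma s_fp (k : Fin n) (x : Option (Fin n) → ℤ) :
    fp (D.s (some k) x) = fp x - fp x k • S.rtw k := by
  funext i
  unfold RDat.s fp
  rw [hD.al, hD.co, Pi.sub_apply, Pi.smul_apply, smul_eq_mul]
  rfl

lemma sR_none (w : List (Option (Fin n))) (hw : ∀ j ∈ w, ∃ k, j = some k) :
    ∀ x, D.sR w x none = x none := by
  induction w with
  | nil => exact fun _ => rfl
  | cons j w ih =>
    intro x
    obtain ⟨k, rfl⟩ := hw j List.mem_cons_self
    have h4 : D.sR (some k :: w) x = D.sR w (D.s (some k) x) := rfl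
    rw [h4, ih (fun i hi => hw i (List.mem_cons_of_mem _ hi)), s_none hD]

lemma sR_fp (w : List (Option (Fin n))) (hw : ∀ j ∈ w, ∃ k, j = some k) :
    ∀ x y, fp x = fp y → fp (D.sR w x) = fp (D.sR w y) := by
  induction w with
  | nil => exact fun _ _ h => h
  | cons j w ih =>
    intro x y hxy
    obtain ⟨k, rfl⟩ := hw j List.mem_cons_self
    refine ih (fun i hi => hw i (List.mem_cons_of_mem _ hi)) (D.s (some k) x) (D.s (some k) y) ?_
    rw [s_fp hD, s_fp hD, hxy]

lemma desc_fp (w : List (Option (Fin n))) (hw : ∀ j ∈ w, ∃ k, j = some k) :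
    ∀ x y, fp x = fp y → D.Desc w x → D.Desc w y := by
  induction w with
  | nil => exact fun _ _ _ _ => trivial
  | cons j w ih =>
    intro x y hxy hx
    obtain ⟨k, rfl⟩ := hw j List.mem_cons_self
    obtain ⟨h1, h2⟩ := hx
    refine ⟨?_, ih (fun i hi => hw i (List.mem_cons_of_mem _ hi)) _ _ ?_ h2⟩
    · rw [hD.co] at h1 ⊢
      have h3 : S.co (some k) y = S.co (some k) x := (congrFun hxy k).symm
      rw [h3]
      exact h1
    · rw [s_fp hD, s_fp hD, hxy]

/-- a word of finite letters acts on the finite part as the corresponding composite -/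
lemma sR_map (w : List (Fin n)) :
    ∀ x, fp (D.sR (w.map some) x) = w.foldl (fun y j => y - y j • S.rtw j) (fp x) := by
  induction w with
  | nil => exact fun _ => rfl
  | cons j w ih =>
    intro x
    have h4 : D.sR ((j :: w).map some) x = D.sR (w.map some) (D.s (some j) x) := rfl
    rw [h4, ih, s_fp hD]
    rfl

omit hD in
lemma ext_aw (x y : Option (Fin n) → ℤ) (h0 : x none = y none) (h1 : fp x = fp y) : x = y := by
  funext o
  cases o with
  | none => exact h0
  | some k => exact congrFun h1 k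

omit hD in
theorem main : RDat.N_red → RDat.N_desc → RDat.N_del → GD.J_hd → GD.J_star := by
  intro hred hdesc hdel hhd n S hS D hD i
  obtain ⟨-, -, -, -, -, -, -, -, d9, -, -⟩ := hdesc _ _ D
  obtain ⟨-, -, l3⟩ := hdel _ _ D _ (hhd n S hS D hD)
  obtain ⟨u, hu⟩ := hS.w0
  have hT : (aw 1 fun _ => -1 : Option (Fin n) → ℤ) ∈ D.T := by
    rw [hD.T]
    show (1 : ℤ) ≤ 1
    exact le_refl _
  obtain ⟨c, hc1, hc2, hc3⟩ := (hred _ _ D (Set.range some) _ hT).2 (some i) ⟨i, rfl⟩ (by
    rw [hD.co]
    show (-1 : ℤ) < 0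
    norm_num)
  have hc1' : ∀ j ∈ c, ∃ k, j = some k := by
    intro j hj
    obtain ⟨k, hk⟩ := hc1 j hj
    exact ⟨k, hk.symm⟩
  have hW : ∀ j ∈ (some i :: c), ∃ k, j = some k := by
    intro j hj
    rcases List.mem_cons.1 hj with h | h
    · exact ⟨i, h⟩
    · exact hc1' j h
  have hU : ∀ j ∈ u.map some, ∃ k, j = some k := by
    intro j hj
    obtain ⟨k, -, hk⟩ := List.mem_map.1 hj
    exact ⟨k, hk.symm⟩
  -- the word u acts as minus one on the finite part
  have hneg : ∀ x, D.sR (u.map some) x = aw (x none) (-fp x) := by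
    intro x
    apply ext_aw
    · rw [sR_none hD _ hU]
      rfl
    · rw [sR_map hD, hu]
      rfl
  refine ⟨c, hc1', fun N => desc_fp hD _ hW (aw 1 fun _ => -1) _ rfl hc2, fun x => ?_⟩
  obtain ⟨N, hN1, hN2⟩ : ∃ N : ℤ, dot S.th (fun _ => 1) + 1 ≤ N ∧
      dot S.th (fp (D.sR (some i :: c) (aw 1 fun _ => -1))) ≤ N :=
    ⟨max _ _, le_max_left _ _, le_max_right _ _⟩
  have hypos : ∀ j, 0 < D.co j (aw N fun _ => 1) := by
    intro j
    rw [hD.co]
    cases j with
    | none =>
      show 0 < N - dot S.th (fun _ => 1)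
      omega
    | some k =>
      show (0 : ℤ) < 1
      norm_num
  have hval : D.sR (u.map some) (aw N fun _ => 1) = aw N fun _ => -1 := hneg _
  have hdom : D.Dom (D.sR (u.map some ++ (some i :: c)) (aw N fun _ => 1)) := by
    rw [d9, hval]
    have hfp : fp (D.sR (some i :: c) (aw N fun _ => -1)) =
        fp (D.sR (some i :: c) (aw 1 fun _ => -1)) := sR_fp hD _ hW _ _ rfl
    intro j
    rw [hD.co]
    cases j with
    | none =>
      show 0 ≤ D.sR (some i :: c) (aw N fun _ => -1) none -
        dot S.th (fp (D.sR (some i :: c) (aw N fun _ => -1)))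
      rw [hfp, sR_none hD _ hW]
      show 0 ≤ N - dot S.th (fp (D.sR (some i :: c) (aw 1 fun _ => -1)))
      omega
    | some k =>
      have h1 := hc3 (some k) ⟨k, rfl⟩
      rw [hD.co] at h1
      have h2 : S.co (some k) (D.sR (some i :: c) (aw N fun _ => -1)) =
        S.co (some k) (D.sR (some i :: c) (aw 1 fun _ => -1)) := congrFun hfp k
      rw [h2]
      exact h1
  have hall := (l3 _ _ hypos hdom).1 (aw (x none) (-fp x))
  rw [d9, hneg] at hall
  have hx : (aw ((aw (x none) (-fp x) : Option (Fin n) → ℤ) none)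
      (-fp (aw (x none) (-fp x))) : Option (Fin n) → ℤ) = x := by
    apply ext_aw
    · rfl
    · show - - fp x = fp x
      rw [neg_neg]
  rw [hx] at hall
  exact hall

end H391.KR.P_jstar
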