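import Pool.Agent.H391.KR.JV

/-!
# KR-jt1: multiplicities of the elements `T_m`
-/

set_option autoImplicit false

noncomputable section

namespace H391.KR.P_jt1

open Finset

theorem pair_single {ι : Type} (p : (ι → ℤ) → ℤ) (x : ι → ℤ) (c : ℤ) :
    pair p (AddMonoidAlgebra.single x c) = c * p x := by
  unfold pair
  rw [AddMonoidHom.comp_apply]
  have : (AddMonoidAlgebra.coeffAddEquiv (R := ℤ) (M := ι → ℤ)).toAddMonoidHom
      (AddMonoidAlgebra.single x c) = Finsupp.single x c := by
    simp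
  rw [this, Finsupp.liftAddHom_apply_single]
  rfl

theorem push_single {n : ℕ} (x : Fin n → ℤ) (c : ℤ) :
    push aw0 (AddMonoidAlgebra.single x c) = AddMonoidAlgebra.single (aw 0 x) c := by
  simp [push, aw0]

theorem pair_push {n : ℕ} (k : ℤ) (p : (Option (Fin n) → ℤ) → ℤ) (f : GR (Fin n)) :
    pair (fun mu => p (aw k mu)) f = pair p (ex (aw k 0) * push aw0 f) := by
  induction f using AddMonoidAlgebra.induction_linear with
  | zero => simp
  | add f g hf hg => rw [map_add, hf, hg, map_add, mul_add, map_add]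
  | single x c =>
    rw [pair_single, push_single, ex, AddMonoidAlgebra.single_mul_single, one_mul, pair_single]
    congr 2
    funext o
    cases o <;> simp [aw]

theorem aw_inj {n : ℕ} {k : ℤ} {mu nu : Fin n → ℤ} (h : aw k mu = aw k nu) : mu = nu := by
  funext i
  exact congrFun h (some i)

theorem push_coeff {n : ℕ} (f : GR (Fin n)) (x : Fin n → ℤ) :
    (push aw0 f).coeff (aw 0 x) = f.coeff x := by
  induction f using AddMonoidAlgebra.induction_linear with
  | zero => simp
  | add f g hf hg =>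
    rw [map_add, AddMonoidAlgebra.coeff_add, AddMonoidAlgebra.coeff_add, Finsupp.add_apply,
      Finsupp.add_apply, hf, hg]
  | single y c =>
    rw [push_single, AddMonoidAlgebra.coeff_single, AddMonoidAlgebra.coeff_single]
    by_cases h : y = x
    · subst h
      rw [Finsupp.single_eq_same, Finsupp.single_eq_same]
    · rw [Finsupp.single_eq_of_ne (fun e => h (aw_inj e).symm),
        Finsupp.single_eq_of_ne (fun e => h e.symm)]

theorem coeff_mul_ne {ι : Type} {f g : GR ι} {x : ι → ℤ} (h : (f * g).coeff x ≠ 0) :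
    ∃ a b, f.coeff a ≠ 0 ∧ g.coeff b ≠ 0 ∧ a + b = x := by
  classical
  have h1 : x ∈ (f * g).coeff.support := Finsupp.mem_support_iff.2 h
  have h2 := AddMonoidAlgebra.support_coeff_mul_subset f g h1
  obtain ⟨a, ha, b, hb, hab⟩ := Finset.mem_add.1 h2
  exact ⟨a, b, Finsupp.mem_support_iff.1 ha, Finsupp.mem_support_iff.1 hb, hab⟩

variable {n : ℕ} {S : GD n} {D : RDat (Option (Fin n)) (Option (Fin n))}

theorem stepS (hD : S.AffDat D) (k : ℤ) (mu : Fin n → ℤ) (i : Fin n) :
    aw k mu - (D.co (some i) (aw k mu) + 1) • D.al (some i) =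
      aw k (mu - (mu i + 1) • S.rtw i) := by
  rw [hD.co, hD.al]
  funext o
  cases o <;> simp [aw, GD.co, GD.al]

theorem dom_iff (hD : S.AffDat D) (k : ℕ) (la : Fin n → ℤ) :
    D.Dom (aw k la) ↔ la ∈ S.alc k := by
  constructor
  · intro h
    refine ⟨fun i => ?_, ?_⟩
    · have := h (some i)
      rw [hD.co] at this
      exact this
    · have := h none
      rw [hD.co] at this
      have : 0 ≤ (k : ℤ) - dot S.th la := this
      linarith
  · rintro ⟨h1, h2⟩ j
    rw [hD.co]
    cases j with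
    | none =>
      show 0 ≤ (k : ℤ) - dot S.th la
      linarith
    | some j => exact h1 j

/-- support in the negative root cone -/
def Neg (S : GD n) (x : GR (Fin n)) : Prop :=
  ∀ mu, x.coeff mu ≠ 0 → ∃ g : Fin n → ℕ, mu = - ∑ j, (g j : ℤ) • S.rtw j

theorem neg_one : Neg S 1 := by
  intro mu h
  rw [AddMonoidAlgebra.one_def, AddMonoidAlgebra.coeff_single] at h
  have h1 : mu = 0 := by
    by_contra h2
    exact h (Finsupp.single_eq_of_ne h2)
  exact ⟨0, by rw [h1]; simp⟩

theorem neg_mul {x y : GR (Fin n)} (hx : Neg S x) (hy : Neg S y) : Neg S (x * y) := by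
  intro mu h
  obtain ⟨a, b, ha, hb, hab⟩ := coeff_mul_ne h
  obtain ⟨g, hg⟩ := hx a ha
  obtain ⟨g', hg'⟩ := hy b hb
  refine ⟨g + g', ?_⟩
  rw [← hab, hg, hg']
  simp only [Pi.add_apply, Nat.cast_add, add_smul, Finset.sum_add_distrib]
  abel

theorem neg_root (hS : S.OKs) {a : Fin n → ℤ} (ha : a ∈ S.pos) : Neg S (1 - ex (-(S.rt a))) := by
  intro mu h
  rw [AddMonoidAlgebra.coeff_sub, Finsupp.sub_apply] at h
  by_cases h1 : (1 : GR (Fin n)).coeff mu = 0
  · rw [h1, zero_sub, neg_ne_zero, ex, AddMonoidAlgebra.coeff_single] at h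
    have h2 : mu = -(S.rt a) := by
      by_contra h2
      exact h (Finsupp.single_eq_of_ne h2)
    obtain ⟨g, hg, hg'⟩ := hS.rtc a ha.1
    have hg0 : ∀ j, 0 ≤ g j := by
      intro j
      have h3 := hg' j
      have h4 := hS.tt_pos a ha.1
      have h5 := hS.t_pos j
      have h6 := ha.2 j
      by_contra h7
      push Not at h7
      nlinarith [mul_nonneg (by linarith : (0:ℤ) ≤ S.t j) h6]
    refine ⟨fun j => (g j).toNat, ?_⟩
    rw [h2, hg]
    congr 1
    exact Finset.sum_congr rfl (fun j _ => by rw [Int.toNat_of_nonneg (hg0 j)])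
  · exact neg_one mu h1

theorem neg_Delta (hS : S.OKs) : Neg S S.Delta :=
  finprod_mem_induction (Neg S) neg_one (fun _ _ => neg_mul) (fun _ ha => neg_root hS ha)

theorem main : RDat.N_link → GD.J_hd → GD.J_mem → GD.J_AB → GD.J_pos → GD.J_low → GD.J_t1 := by
  intro hN hhd _ hAB hpos hlow n S hS D hD hdem i m f hf mu hmu
  refine ⟨?_, ?_⟩
  · set h : GR (Fin n) := GD.chr f * S.Delta with hh
    set k : ℕ := m + (∑ nu ∈ h.coeff.support, (dot S.th nu).toNat) + (dot S.th mu).toNat with hk
    have hkm : m ≤ k := by rw [hk]; omega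
    have hk1 : dot S.th mu ≤ k := by
      have := Int.self_le_toNat (dot S.th mu)
      have h2 : (dot S.th mu).toNat ≤ k := by rw [hk]; omega
      have h3 : (((dot S.th mu).toNat : ℕ) : ℤ) ≤ (k : ℤ) := by exact_mod_cast h2
      linarith
    have hk2 : ∀ nu ∈ h.coeff.support, dot S.th nu ≤ k := by
      intro nu hnu
      have := Int.self_le_toNat (dot S.th nu)
      have h1 : (dot S.th nu).toNat ≤ ∑ nu ∈ h.coeff.support, (dot S.th nu).toNat :=
        Finset.single_le_sum (f := fun nu => (dot S.th nu).toNat) (fun _ _ => Nat.zero_le _) hnu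
      have h2 : (dot S.th nu).toNat ≤ k := by rw [hk]; omega
      have h3 : (((dot S.th nu).toNat : ℕ) : ℤ) ≤ (k : ℤ) := by exact_mod_cast h2
      linarith
    have hla : D.Dom (aw k mu) := (dom_iff hD k mu).2 ⟨hmu, hk1⟩
    obtain ⟨hanti, hone, hzero⟩ := (hN _ _ D S.rho (hhd n S hS D hD)).1 _ hla
    have hAB1 := (hAB n S hS).1 f (fun nu => D.pf (aw k mu) (aw k nu)) (by
      intro nu j
      have := hanti (aw k nu) (some j)
      rw [stepS hD] at this
      exact this)
    have hval : (h.coeff.sum fun nu c => if ∀ i, 0 ≤ nu i then c * D.pf (aw k mu) (aw k nu) else 0)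
        = h.coeff mu := by
      rw [Finsupp.sum, Finset.sum_eq_single mu]
      · rw [if_pos hmu, hone, mul_one]
      · intro nu hnu hne
        by_cases hc : ∀ i, 0 ≤ nu i
        · rw [if_pos hc, hzero (aw k nu) ((dom_iff hD k nu).2 ⟨hc, hk2 nu hnu⟩)
            (fun e => hne (aw_inj e)), mul_zero]
        · rw [if_neg hc]
      · intro hnot
        rw [Finsupp.notMem_support_iff.1 hnot]
        simp
    have hmain : h.coeff mu = pair (D.pf (aw k mu)) (ex (aw k 0) * S.T D i m) := by
      rw [← hf, ← pair_push, ← hval]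
      exact hAB1
    show 0 ≤ h.coeff mu
    rw [hmain]
    exact (hpos n S hS D hD hdem i).2.1 k m hkm _ hla
  · intro hne
    obtain ⟨a, b, ha, hb, hab⟩ := coeff_mul_ne hne
    have ha' : (S.T D i m).coeff (aw 0 a) ≠ 0 := by
      rw [← hf, push_coeff]
      exact ha
    obtain ⟨g, hg⟩ := hlow n S hS D hD hdem i m a ha'
    obtain ⟨g', hg'⟩ := neg_Delta hS b hb
    refine ⟨g + g', ?_⟩
    rw [← hab, hg, hg']
    simp only [Pi.add_apply, Nat.cast_add, add_smul, Finset.sum_add_distrib]
    abel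

end H391.KR.P_jt1
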