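import Pool.Agent.H391.KR.JV

/-! J_two: assembly. -/

noncomputable section

namespace H391.KR.P_jtwo

open Finset

/-- classes are determined by their characters -/
theorem ext_aff {n : ℕ} {S : GD n} (hS : S.OKs) {D : RDat (Option (Fin n)) (Option (Fin n))}
    (hD : S.AffDat D) (hmem : GD.J_mem) {f g : S.RepR}
    (h : push aw0 (GD.chr f) = push aw0 (GD.chr g)) : f = g := by
  have h1 := (hmem n S hS D hD).2.2 _ _ h
  exact Subtype.ext h1

/-- the elements `T_m` -/
theorem ex_T {n : ℕ} {S : GD n} (hS : S.OKs) {D : RDat (Option (Fin n)) (Option (Fin n))}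
    (hD : S.AffDat D) (hok : D.DemOK) (hmem : GD.J_mem) (hF : GD.J_F) (i : Fin n) :
    ∃ Te : ℕ → S.RepR, ∀ m, push aw0 (GD.chr (Te m)) = S.T D i m := by
  have h1 : ∀ m, ∃ f : S.RepR, push aw0 (GD.chr f) = S.T D i m := fun m => by
    obtain ⟨f, hf⟩ := (hmem n S hS D hD).2.1 _ ((hF n S hS D hD hok).2.1 i m)
    exact ⟨f, hf⟩
  choose Te hTe using h1
  exact ⟨Te, hTe⟩

theorem main : GD.J_mem → GD.J_F → GD.J_kr → GD.J_lvV → GD.J_lvq → GD.J_qk → GD.J_two := by
  intro hmem hF hkr hlvV hlvq hqk n S hS hT2 D hD hok Q hQ hodd k hk V _ R hv i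
  obtain ⟨⟨e, he⟩, hq0, -⟩ := hqk n S hS k hk
  obtain ⟨kr1, -, -⟩ := hkr n S hS D hD hok Q hQ
  have hFe : ∀ j m, push aw0 (GD.chr ((fun m => Q j ((S.t j).toNat * m)) m)) = S.F D j m :=
    fun j m => kr1 j m
  have hunit0 : IsUnit (R.pi (Q i 0)) := by
    rw [hQ.zero, map_one]
    exact isUnit_one
  obtain ⟨Te, hTe⟩ := ex_T hS hD hok hmem hF i
  obtain ⟨v1, v2, v3, v4, -⟩ := hlvV n S hS D hD hok i (fun m => Q i ((S.t i).toNat * m)) Te
    (hFe i) hTe k hk V R
  rcases hT2.t2 i with hti | hti
  · have ht : (S.t i).toNat = 1 := by rw [hti]; rfl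
    simp only [ht, one_mul] at v1 v3 v4
    refine ⟨?_, hunit0, ?_, ?_⟩
    · intro m hm
      rw [ht, one_mul] at hm
      exact v1 m hm
    · rw [ht, one_mul]
      exact v3
    · rw [ht, one_mul]
      exact v4
  · have ht : (S.t i).toNat = 2 := by rw [hti]; rfl
    simp only [ht] at v1 v3 v4
    have hTQ : ∀ m, Te (m + 1) = Q i (2 * m + 1) := fun m =>
      ext_aff hS hD hmem ((hTe (m + 1)).trans (hodd i hti m).symm)
    obtain ⟨q1, -⟩ := hlvq n S hS D hD hok i (fun m => Q i ((S.t i).toNat * m)) Te (hFe i) hTe k hk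
    simp only [ht] at q1
    -- the neighbours
    have hnb : ∀ m, m < k → 0 ≤ e (S.qnb Q i (2 * m + 1)) := by
      intro m hm
      unfold GD.qnb
      rw [map_prod]
      refine prod_nonneg fun j _ => ?_
      rw [map_prod]
      refine prod_nonneg fun l hl => ?_
      rw [mem_range] at hl
      obtain ⟨Tj, hTj⟩ := ex_T hS hD hok hmem hF j
      obtain ⟨r1, -, r3, -⟩ := hlvq n S hS D hD hok j (fun m => Q j ((S.t j).toNat * m)) Tj
        (hFe j) hTj k hk
      by_cases hji : j = i
      · subst hji
        rw [hS.diag] at hl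
        exact absurd hl (Nat.not_lt_zero _)
      rcases hT2.t2 j with htj | htj
      · rcases hT2.sl i j hti htj with ⟨h1, h2⟩ | ⟨h1, h2⟩
        · rw [h1] at hl
          exact absurd hl (Nat.not_lt_zero _)
        · have htj' : (S.t j).toNat = 1 := by rw [htj]; rfl
          simp only [htj', one_mul] at r1
          have e1 : (-(S.C i j)).toNat = 2 := by rw [h1]; rfl
          have e2 : (-(S.C j i)).toNat = 1 := by rw [h2]; rfl
          rw [e1] at hl
          rw [e1, e2, he]
          exact (r1 _ (by omega)).le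
      · rcases hT2.ss i j hti htj (fun h => hji h.symm) with h1 | h1
        · rw [h1] at hl
          exact absurd hl (Nat.not_lt_zero _)
        · have h2 : S.C j i = -1 := by
            have h3 := hS.symm i j
            rw [hti, htj, h1] at h3
            omega
          have e1 : (-(S.C i j)).toNat = 1 := by rw [h1]; rfl
          have e2 : (-(S.C j i)).toNat = 1 := by rw [h2]; rfl
          rw [e1] at hl
          have hl0 : l = 0 := by omega
          rw [e1, e2, hl0]
          have e3 : (1 * (2 * m + 1) + 0) / 1 = 2 * m + 1 := by omega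
          rw [e3]
          have h4 : Tj (m + 1) = Q j (2 * m + 1) :=
            ext_aff hS hD hmem ((hTj (m + 1)).trans (hodd j htj m).symm)
          rw [← h4, he]
          exact r3 (m + 1) hm
    have hne : ∀ m, m < k → R.pi (Q i (2 * m + 1)) ≠ 0 := by
      intro m hm h0
      have h1 : S.qdim k (Q i (2 * m + 1)) = 0 := by
        refine hq0 _ fun la hla => ?_
        have h2 := R.pi_eq (Q i (2 * m + 1)) ⟨la, hla⟩
        rw [h0, map_zero] at h2
        exact h2.symm
      have h3 := congrArg e (hQ.qsys i (2 * m))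
      rw [map_mul, map_add, map_mul, he (Q i (2 * m + 1)), h1, mul_zero] at h3
      have h4 : 0 < e (Q i (2 * m)) := by
        rw [he]
        exact q1 m hm.le
      have h5 : 0 < e (Q i (2 * m + 2)) := by
        rw [he]
        have := q1 (m + 1) hm
        rwa [Nat.mul_add, Nat.mul_one] at this
      have h6 := hnb m hm
      have h7 := mul_pos h5 h4
      linarith
    refine ⟨?_, hunit0, ?_, ?_⟩
    · intro m hm
      rw [ht] at hm
      rcases Nat.even_or_odd' m with ⟨c, rfl | rfl⟩
      · exact v1 c (by omega)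
      · refine ⟨?_, hne c (by omega)⟩
        rw [← hTQ c]
        exact v2 (c + 1) (by omega)
    · rw [ht]
      exact v3
    · rw [ht]
      exact hv i hti

end H391.KR.P_jtwo
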