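import Pool.Agent.H391.KR.PC

/-!
# KR-cF : the elements `F_m` and the product formula
-/

set_option autoImplicit false

noncomputable section

namespace H391.KR.P_cF

open Finset H391.KR

section basic

variable {ι : Type}

theorem ex_zero : (ex (0 : ι → ℤ) : GR ι) = 1 := rfl

theorem ex_mul (x y : ι → ℤ) : ex x * ex y = ex (x + y) := by
  unfold ex
  rw [AddMonoidAlgebra.single_mul_single, mul_one]

theorem ex_mul_cancel (x : ι → ℤ) (f : GR ι) : ex x * (ex (-x) * f) = f := by
  rw [← mul_assoc, ex_mul, add_neg_cancel, ex_zero, one_mul]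

end basic

section aff

variable {n : ℕ}

theorem aw_add (l l' : ℤ) (mu mu' : Fin n → ℤ) : aw l mu + aw l' mu' = aw (l + l') (mu + mu') := by
  funext o
  cases o <;> rfl

theorem aw_neg (l : ℤ) (mu : Fin n → ℤ) : - aw l mu = aw (-l) (-mu) := by
  funext o
  cases o <;> rfl

theorem aw_smul (c l : ℤ) (mu : Fin n → ℤ) : c • aw l mu = aw (c * l) (c • mu) := by
  funext o
  cases o <;> rfl

theorem aw_zero : aw 0 (0 : Fin n → ℤ) = 0 := by
  funext o
  cases o <;> rfl

theorem aw_none (l : ℤ) (mu : Fin n → ℤ) : aw l mu none = l := rfl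

theorem aw_some (l : ℤ) (mu : Fin n → ℤ) (j : Fin n) : aw l mu (some j) = mu j := rfl

end aff

section rdat

variable {ι I : Type} (D : RDat ι I)

theorem sR_mem (w : List I) : ∀ x ∈ D.T, D.sR w x ∈ D.T := by
  induction w with
  | nil => intro x hx; exact hx
  | cons j w ih =>
    intro x hx
    exact ih _ (D.T_refl x hx _)

theorem le_sR (hbru : RDat.S_bru) (w : List I) : ∀ x ∈ D.T, D.Desc w x → D.Le (D.sR w x) x := by
  induction w with
  | nil => intro x _ _; exact Relation.ReflTransGen.refl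
  | cons j w ih =>
    intro x hx hd
    have h1 : D.Le (D.s j x) x := (hbru ι I D x x hx Relation.ReflTransGen.refl j).2.2 hd.1
    have h2 := ih (D.s j x) (D.T_refl x hx _) hd.2
    exact Relation.ReflTransGen.trans h1 h2

theorem dom_smul {x : ι → ℤ} (hx : D.Dom x) (m : ℕ) : D.Dom ((m : ℤ) • x) := by
  intro j
  have h : D.co j ((m : ℤ) • x) = (m : ℤ) * D.co j x := by
    unfold RDat.co
    rw [map_zsmul, smul_eq_mul]
  rw [h]
  exact mul_nonneg (Nat.cast_nonneg m) (hx j)

theorem dem_ne_zero (hbru : RDat.S_bru) (hred : RDat.N_red) (hlink : RDat.N_link) (rho : ι → ℤ)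
    (hHD : D.HD rho) (hOK : D.DemOK) (x : ι → ℤ) (hx : x ∈ D.T) (m : ℕ) : D.Dem x m ≠ 0 := by
  obtain ⟨w, -, hw, hdom⟩ := (hred ι I D Set.univ x hx).1
  have hy : D.Dom (D.sR w x) := fun j => hdom j (Set.mem_univ j)
  have hle := le_sR D hbru w x hx hw
  have hmy := dom_smul D hy m
  have h0 : D.Dom (0 : ι → ℤ) := by
    intro j
    unfold RDat.co
    rw [map_zero]
  obtain ⟨c, hc1, hc2, hc3⟩ := hOK.d7 x hx m 0 h0
  have h3 := hc3 (D.sR w x) hle (by rw [zero_add]; exact hmy)
  rw [zero_add] at h3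
  obtain ⟨hp1, hp2, hp3⟩ := (hlink ι I D rho hHD).1 ((m : ℤ) • D.sR w x) hmy
  have h4 := hc2 (D.pf ((m : ℤ) • D.sR w x)) hp1
  rw [ex_zero, one_mul] at h4
  have h5 : (c.sum fun nu a => (a : ℤ) * D.pf ((m : ℤ) • D.sR w x) nu) =
      (c ((m : ℤ) • D.sR w x) : ℤ) := by
    rw [Finsupp.sum, Finset.sum_eq_single ((m : ℤ) • D.sR w x)]
    · rw [hp2, mul_one]
    · intro nu hnu hne
      rw [hp3 nu (hc1 nu (Finsupp.mem_support_iff.1 hnu)) hne, mul_zero]
    · intro h
      exact absurd (Finsupp.mem_support_iff.2 h3) h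
  intro hzero
  rw [hzero, map_zero, h5] at h4
  exact h3 (by exact_mod_cast h4.symm)

end rdat

section main

variable {n : ℕ} (S : SLC n) (D : RDat (Option (Fin n)) (Option (Fin n)))

theorem co_xi (hA : S.AffDat D) (i j : Fin n) : D.co (some j) (xi i) = - om i j := by
  rw [hA.cof]
  rfl

theorem xi_mem (hA : S.AffDat D) (i : Fin n) : xi i ∈ D.T := by
  rw [hA.T]
  show (1 : ℤ) ≤ 1
  exact le_refl _

theorem al_level (hA : S.AffDat D) (j : Option (Fin n)) : D.al j none = 0 := by
  cases j with
  | none => rw [hA.al0]; rfl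
  | some j => rw [hA.alf]; rfl

theorem closure_level (hA : S.AffDat D) {x : Option (Fin n) → ℤ}
    (hx : x ∈ AddSubgroup.closure (Set.range D.al)) : x none = 0 := by
  induction hx using AddSubgroup.closure_induction with
  | mem y hy =>
    obtain ⟨j, rfl⟩ := hy
    exact al_level S D hA j
  | zero => rfl
  | add y z _ _ hy hz =>
    rw [Pi.add_apply, hy, hz, add_zero]
  | neg y _ hy => rw [Pi.neg_apply, hy, neg_zero]

theorem dem_level (hA : S.AffDat D) (hOK : D.DemOK) (i : Fin n) (m : ℕ) {mu : Option (Fin n) → ℤ}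
    (h : (D.Dem (xi i) m).coeff mu ≠ 0) : mu none = m := by
  have h1 := closure_level S D hA (hOK.d8 (xi i) (xi_mem S D hA i) m mu h)
  have h2 : mu none - (m : ℤ) * 1 = 0 := h1
  linarith

theorem F_level (hA : S.AffDat D) (hOK : D.DemOK) (i : Fin n) (m : ℕ) {x : Option (Fin n) → ℤ}
    (h : (S.F D i m).coeff x ≠ 0) : x none = 0 := by
  unfold SLC.F ex at h
  rw [AddMonoidAlgebra.coeff_single_mul_apply, one_mul] at h
  have h1 := dem_level S D hA hOK i m h
  have h2 : -(-(m : ℤ)) + x none = m := h1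
  linarith

theorem F_inv (hop : RDat.N_op) (hinv0 : SLC.C_inv0) (hA : S.AffDat D) (hOK : D.DemOK) (i : Fin n)
    (m : ℕ) : SLC.Inv0 D (S.F D i m) := by
  refine hinv0 n S D hA _ (fun j => ?_) fun x hx => F_level S D hA hOK i m hx
  obtain ⟨-, o2, -, -, -, -, -, o8, o9, -⟩ := hop (Option (Fin n)) (Option (Fin n)) D (some j)
  have h1 : D.IsInv (some j) (ex (aw (-(m : ℤ)) (0 : Fin n → ℤ))) := by
    apply o9
    rw [hA.cof]
    rfl
  have h2 : D.IsInv (some j) (D.Dem (xi i) m) := by
    have h3 := hOK.d2 (xi i) (xi_mem S D hA i) m (some j) (by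
      rw [co_xi S D hA]
      unfold om
      split_ifs <;> norm_num)
    rw [← h3]
    exact o2 _
  exact (o8 _ _ h1 h2).2.2

theorem F_mul (i : Fin n) (m : ℕ) :
    ex (aw (m : ℤ) (0 : Fin n → ℤ)) * S.F D i m = D.Dem (xi i) m := by
  have h := ex_mul_cancel (aw (m : ℤ) (0 : Fin n → ℤ)) (D.Dem (xi i) m)
  rw [aw_neg, neg_zero] at h
  exact h

theorem prod_formula (hsig : SLC.C_sig) (hX : SLC.C_X) (hop : RDat.N_op) (hinv0 : SLC.C_inv0)
    (hA : S.AffDat D) (hOK : D.DemOK) (m : ℕ) : ∀ (N : ℕ) (la : Fin n → ℕ), ∑ j, la j = N →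
    D.Dem (aw 1 (fun j => -(la j : ℤ))) m = ex (aw m 0) * ∏ j, S.F D j m ^ la j := by
  intro N
  induction N with
  | zero =>
    intro la h
    have h0 : ∀ j, la j = 0 := fun j => by
      have := (Finset.sum_eq_zero_iff.1 h) j (Finset.mem_univ j)
      exact this
    have e1 : (fun j => -(la j : ℤ)) = (0 : Fin n → ℤ) := by
      funext j
      rw [h0 j]
      rfl
    rw [e1]
    have e2 : ∏ j, S.F D j m ^ la j = 1 := by
      apply Finset.prod_eq_one
      intro j _
      rw [h0 j, pow_zero]
    rw [e2, mul_one]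
    have hT : (aw 1 (0 : Fin n → ℤ)) ∈ D.T := by
      rw [hA.T]
      show (1 : ℤ) ≤ 1
      exact le_refl _
    have hdom : D.Dom (aw 1 (0 : Fin n → ℤ)) := by
      intro j
      cases j with
      | none =>
        rw [hA.co0]
        have : dot S.th (fp (aw 1 (0 : Fin n → ℤ))) = 0 := by
          unfold dot
          apply Finset.sum_eq_zero
          intro j _
          show S.th j * 0 = 0
          exact mul_zero _
        rw [this, aw_none]
        norm_num
      | some j =>
        rw [hA.cof]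
        exact le_refl _
    rw [hOK.d3 _ hT m hdom, aw_smul, mul_one, smul_zero]
  | succ N ih =>
    intro la h
    obtain ⟨i, hi⟩ : ∃ i, la i ≠ 0 := by
      by_contra hcon
      push Not at hcon
      have : ∑ j, la j = 0 := Finset.sum_eq_zero fun j _ => hcon j
      omega
    -- la = la' + e_i
    set la' : Fin n → ℕ := Function.update la i (la i - 1) with hla'
    have hi' : la' i + 1 = la i := by
      rw [hla', Function.update_self]
      omega
    have hne : ∀ j, j ≠ i → la' j = la j := fun j hj => by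
      rw [hla', Function.update_of_ne hj]
    have hsum : ∑ j, la' j = N := by
      have h1 := Finset.add_sum_erase Finset.univ la (Finset.mem_univ i)
      have h2 := Finset.add_sum_erase Finset.univ la' (Finset.mem_univ i)
      have h3 : ∑ j ∈ Finset.univ.erase i, la' j = ∑ j ∈ Finset.univ.erase i, la j :=
        Finset.sum_congr rfl fun j hj => hne j (Finset.ne_of_mem_erase hj)
      rw [h3] at h2
      omega
    have ih' := ih la' hsum
    obtain ⟨X⟩ := hsig n S D hA i
    obtain ⟨x1, -, x3, x4, -⟩ := hX n S D hA hOK i X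
    have h4 := x4 (fun j => (la' j : ℤ)) (fun j => Nat.cast_nonneg _) m
    have e1 : (-(fun j => (la' j : ℤ)) : Fin n → ℤ) = fun j => -(la' j : ℤ) := rfl
    have e2 : (-(fun j => (la' j : ℤ)) - om i : Fin n → ℤ) = fun j => -(la j : ℤ) := by
      funext j
      show -(la' j : ℤ) - (if j = i then 1 else 0) = -(la j : ℤ)
      split_ifs with hj
      · subst hj
        have : ((la' j + 1 : ℕ) : ℤ) = la j := by rw [hi']
        push_cast at this
        linarith
      · rw [hne j hj, sub_zero]
    rw [e2, e1, ih'] at h4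
    -- X commutes with the product
    have hcomm : ∀ f, X.X ((∏ j, S.F D j m ^ la' j) * f) = (∏ j, S.F D j m ^ la' j) * X.X f := by
      refine Finset.prod_induction (fun j => S.F D j m ^ la' j)
        (fun phi => ∀ f, X.X (phi * f) = phi * X.X f) ?_ ?_ ?_
      · intro a b ha hb f
        rw [mul_assoc, ha, hb, mul_assoc]
      · intro f
        rw [one_mul, one_mul]
      · intro j _
        have hp : ∀ k : ℕ, ∀ f, X.X (S.F D j m ^ k * f) = S.F D j m ^ k * X.X f := by
          intro k
          induction k with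
          | zero => intro f; rw [pow_zero, one_mul, one_mul]
          | succ k ihk =>
            intro f
            rw [pow_succ, mul_assoc, ihk, x1 _ _ (F_inv S D hop hinv0 hA hOK j m), mul_assoc]
        exact hp _
    rw [mul_comm (ex (aw (m : ℤ) (0 : Fin n → ℤ))), hcomm, x3 m, ← F_mul S D i m] at h4
    rw [← h4]
    have h5 : ∏ j, S.F D j m ^ la j = (∏ j, S.F D j m ^ la' j) * S.F D i m := by
      have h6 := Finset.mul_prod_erase Finset.univ (fun j => S.F D j m ^ la j) (Finset.mem_univ i)
      have h7 := Finset.mul_prod_erase Finset.univ (fun j => S.F D j m ^ la' j) (Finset.mem_univ i)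
      have h8 : ∏ j ∈ Finset.univ.erase i, S.F D j m ^ la' j =
          ∏ j ∈ Finset.univ.erase i, S.F D j m ^ la j :=
        Finset.prod_congr rfl fun j hj => by rw [hne j (Finset.ne_of_mem_erase hj)]
      rw [← h6, ← h7, h8]
      show S.F D i m ^ la i * _ = S.F D i m ^ la' i * _ * S.F D i m
      rw [← hi', pow_succ]
      ring
    rw [h5]
    ring

end main

theorem main : RDat.S_bru → RDat.N_op → RDat.N_red → RDat.N_link → SLC.C_facts → SLC.C_hd →
    SLC.C_inv0 → SLC.C_cov → SLC.C_sig → SLC.C_X → SLC.C_F := by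
  intro hbru hop hred hlink _ hhd hinv0 hcov hsig hX n S D hA hOK
  have h3 : ∀ (la : Fin n → ℕ) (m : ℕ), D.Dem (aw 1 (fun j => -(la j : ℤ))) m =
      ex (aw m 0) * ∏ j, S.F D j m ^ la j := fun la m =>
    prod_formula S D hsig hX hop hinv0 hA hOK m _ la rfl
  refine ⟨fun i m => F_inv S D hop hinv0 hA hOK i m, fun i m => F_mul S D i m, h3, ?_, ?_, ?_, ?_⟩
  · intro i m
    have h4 := h3 (fun j => if S.C i j = -1 then 1 else 0) m
    have e1 : (fun j => -(2 * om i j - S.C j i)) =
        (fun j => -(((if S.C i j = -1 then 1 else 0 : ℕ)) : ℤ)) := by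
      funext j
      unfold om
      by_cases hj : j = i
      · subst hj
        rw [if_pos rfl, S.diag, if_neg (by norm_num)]
        norm_num
      · rw [if_neg hj, S.symm j i]
        rcases S.off i j (Ne.symm hj) with h | h
        · rw [h, if_neg (by norm_num)]
          norm_num
        · rw [h, if_pos rfl]
          norm_num
    rw [e1, h4]
    congr 1
    refine Finset.prod_congr rfl fun j _ => ?_
    split_ifs
    · rw [pow_one]
    · rw [pow_zero]
  · intro i m
    refine hOK.d4 (xi i) (xi_mem S D hA i) m (some i) ?_ (hcov n S D hA i).1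
    rw [co_xi S D hA]
    unfold om
    rw [if_pos rfl]
  · intro i m hF
    have h5 := dem_ne_zero D hbru hred hlink S.rho (hhd n S D hA) hOK (xi i) (xi_mem S D hA i) m
    apply h5
    rw [← F_mul S D i m, hF, mul_zero]
  · intro i
    unfold SLC.F
    rw [hOK.d5 (xi i) (xi_mem S D hA i), mul_one]
    have : aw (-((0 : ℕ) : ℤ)) (0 : Fin n → ℤ) = 0 := by
      rw [Nat.cast_zero, neg_zero, aw_zero]
    rw [this, ex_zero]

end H391.KR.P_cF
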