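import Pool.Agent.H391.KR.PC

/-!
# The recursion for the elements `F_m` (task KR-cK)
-/

set_option autoImplicit false

noncomputable section

namespace H391.KR.P_cK

open Finset H391.KR

lemma ex_mul {ι : Type} (x y : ι → ℤ) : ex x * ex y = ex (x + y) := by
  unfold ex
  rw [AddMonoidAlgebra.single_mul_single, one_mul]

lemma ex_zero {ι : Type} : ex (0 : ι → ℤ) = 1 := rfl

lemma aw_add {n : ℕ} (a b : ℤ) (x y : Fin n → ℤ) : aw a x + aw b y = aw (a + b) (x + y) := by
  funext o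
  cases o with
  | none => rfl
  | some j => rfl

lemma aw_zero {n : ℕ} : (aw 0 0 : Option (Fin n) → ℤ) = 0 := by
  funext o
  cases o with
  | none => rfl
  | some j => rfl

theorem main : SLC.C_X → SLC.C_F → SLC.C_K := by
  intro hX hF n S D hD hOK i X m
  obtain ⟨x1, -, x3, -, x5⟩ := hX n S D hD hOK i X
  obtain ⟨f1, f2, -, f4, f5, -, -⟩ := hF n S D hD hOK
  have e1 : ex (aw (-((m : ℤ) + 1)) 0) * ex (aw ((m : ℤ) + 1) 0) =
      (1 : GR (Option (Fin n))) := by
    rw [ex_mul, aw_add, neg_add_cancel, add_zero, aw_zero, ex_zero]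
  have h3 : X.X (ex (aw ((m : ℤ) + 1) 0)) = ex (aw ((m : ℤ) + 1) 0) * S.F D i (m + 1) := by
    have h := x3 (m + 1)
    rw [← f2 i (m + 1)] at h
    push_cast at h
    exact h
  have h2 : D.Dem (xi i) (m + 1) = S.F D i (m + 1) * ex (aw ((m : ℤ) + 1) 0) := by
    have h := f2 i (m + 1)
    push_cast at h
    rw [← h, mul_comm]
  have h4 : ex (xi i) * D.Dem (xi i) m = S.F D i m * ex (aw ((m : ℤ) + 1) (-om i)) := by
    rw [← f2 i m, ← mul_assoc, ex_mul, mul_comm]
    unfold xi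
    rw [aw_add, add_zero, add_comm (1 : ℤ)]
  have h5 := f5 i m
  rw [h4, h2] at h5
  have h6 := congrArg X.X h5
  have h7 := f4 i (m + 1)
  push_cast at h7
  rw [map_add, x1 _ _ (f1 i (m + 1)), x1 _ _ (f1 i m), x5 (m + 1), h3, h7] at h6
  have h8 := congrArg (fun y => ex (aw (-((m : ℤ) + 1)) 0) * y) h6
  simp only [mul_add] at h8
  have h9 : ∀ a : GR (Option (Fin n)), ex (aw (-((m : ℤ) + 1)) 0) * (ex (aw ((m : ℤ) + 1) 0) * a) = a := by
    intro a
    rw [← mul_assoc, e1, one_mul]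
  rw [mul_left_comm (S.F D i (m + 1)) (ex (aw ((m : ℤ) + 1) 0)), h9, h9,
    mul_left_comm (ex (aw (-((m : ℤ) + 1)) 0)) (S.F D i m)] at h8
  rw [pow_two]
  exact h8

end H391.KR.P_cK
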