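import Pool.Agent.H391.KR.PC

/-!
# The Q-system (H391/KR, task cQ), by helper274
-/

noncomputable section

namespace H391.KR.P_cQ

open H391.KR Finset

/-! ### Exponentials -/

theorem ex_mul {ι : Type} (x y : ι → ℤ) : ex x * ex y = ex (x + y) := by
  unfold ex
  rw [AddMonoidAlgebra.single_mul_single, mul_one]

theorem ex_zero {ι : Type} : (ex (0 : ι → ℤ)) = 1 := rfl

theorem push_ex {ι κ : Type} (g : (ι → ℤ) →+ (κ → ℤ)) (x : ι → ℤ) :
    push g (ex x) = ex (g x) := by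
  unfold push ex
  simp

variable {n : ℕ}

theorem aw_add (a b : ℤ) (u v : Fin n → ℤ) : aw a u + aw b v = aw (a + b) (u + v) := by
  funext o
  cases o <;> rfl

theorem aw_zero : (aw 0 0 : Option (Fin n) → ℤ) = 0 := by
  funext o
  cases o <;> rfl

/-! ### Elements of level zero -/

/-- level zero -/
def Lv (f : GR (Option (Fin n))) : Prop := ∀ x, f.coeff x ≠ 0 → x none = 0

theorem exists_of_mul {ι : Type} {f g : GR ι} {x : ι → ℤ} (h : (f * g).coeff x ≠ 0) :
    ∃ a b, f.coeff a ≠ 0 ∧ g.coeff b ≠ 0 ∧ a + b = x := by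
  classical
  have h1 := AddMonoidAlgebra.support_coeff_mul_subset f g (Finsupp.mem_support_iff.2 h)
  obtain ⟨a, ha, b, hb, hab⟩ := Finset.mem_add.1 h1
  exact ⟨a, b, Finsupp.mem_support_iff.1 ha, Finsupp.mem_support_iff.1 hb, hab⟩

theorem Lv.mul {f g : GR (Option (Fin n))} (hf : Lv f) (hg : Lv g) : Lv (f * g) := by
  intro x hx
  obtain ⟨a, b, ha, hb, hab⟩ := exists_of_mul hx
  rw [← hab, Pi.add_apply, hf a ha, hg b hb, add_zero]

theorem Lv.sub {f g : GR (Option (Fin n))} (hf : Lv f) (hg : Lv g) : Lv (f - g) := by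
  intro x hx
  by_contra h
  have h1 : f.coeff x = 0 := by
    by_contra h2
    exact h (hf x h2)
  have h3 : g.coeff x = 0 := by
    by_contra h2
    exact h (hg x h2)
  apply hx
  have h4 : (f - g).coeff x = f.coeff x - g.coeff x := rfl
  rw [h4, h1, h3, sub_zero]

theorem Lv.one : Lv (1 : GR (Option (Fin n))) := by
  classical
  intro x hx
  rw [AddMonoidAlgebra.one_def, AddMonoidAlgebra.coeff_single, Finsupp.single_apply] at hx
  by_cases h : (0 : Option (Fin n) → ℤ) = x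
  · rw [← h]
    rfl
  · rw [if_neg h] at hx
    exact absurd rfl hx

/-- a factor of a level zero element is of level zero, if the other factor is nonzero of
level zero -/
theorem Lv.of_mul {f g : GR (Option (Fin n))} (hf : Lv f) (hf0 : f ≠ 0) (h : Lv (f * g)) :
    Lv g := by
  classical
  obtain ⟨g0, hg0⟩ : ∃ g0 : GR (Option (Fin n)),
    g0 = AddMonoidAlgebra.ofCoeff (g.coeff.filter fun x => x none = 0) := ⟨_, rfl⟩
  obtain ⟨g1, hg1⟩ : ∃ g1 : GR (Option (Fin n)),
    g1 = AddMonoidAlgebra.ofCoeff (g.coeff.filter fun x => ¬ x none = 0) := ⟨_, rfl⟩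
  have hs : g0 + g1 = g := by
    apply AddMonoidAlgebra.ext
    rw [AddMonoidAlgebra.coeff_add, hg0, hg1]
    exact Finsupp.filter_add_filter_not g.coeff fun x => x none = 0
  have h0 : Lv g0 := by
    intro x hx
    rw [hg0] at hx
    by_contra h1
    exact hx (Finsupp.filter_apply_neg (fun x : Option (Fin n) → ℤ => x none = 0) g.coeff h1)
  have h1 : ∀ x, g1.coeff x ≠ 0 → x none ≠ 0 := by
    intro x hx
    rw [hg1] at hx
    by_contra h1
    exact hx (Finsupp.filter_apply_neg (fun x : Option (Fin n) → ℤ => ¬ x none = 0) g.coeff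
      (not_not.2 h1))
  have h2 : f * g1 = 0 := by
    apply AddMonoidAlgebra.ext
    ext x
    by_contra h3
    have h4 : (f * g1).coeff x ≠ 0 := h3
    obtain ⟨a, b, ha, hb, hab⟩ := exists_of_mul h4
    have h5 : x none ≠ 0 := by
      rw [← hab, Pi.add_apply, hf a ha, zero_add]
      exact h1 b hb
    have h6 : (f * g).coeff x = (f * g0).coeff x + (f * g1).coeff x := by
      rw [← hs, mul_add]
      rfl
    have h7 : (f * g).coeff x = 0 := by
      by_contra h8
      exact h5 (h x h8)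
    have h9 : (f * g0).coeff x = 0 := by
      by_contra h8
      exact h5 (hf.mul h0 x h8)
    rw [h7, h9, zero_add] at h6
    exact h4 h6.symm
  have h3 : g1 = 0 := (mul_eq_zero.1 h2).resolve_left hf0
  rw [h3, add_zero] at hs
  rw [← hs]
  exact h0

/-! ### Invariance -/

section refl

variable {ι I : Type} (D : RDat ι I)

theorem co_al (j : I) : D.co j (D.al j) = 2 := D.ev_rt _

theorem s_add (j : I) (x y : ι → ℤ) : D.s j (x + y) = D.s j x + D.s j y := by
  unfold RDat.s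
  have h : D.co j (x + y) = D.co j x + D.co j y := map_add _ _ _
  rw [h, add_smul]
  abel

theorem s_s (j : I) (x : ι → ℤ) : D.s j (D.s j x) = x := by
  have h : D.co j (D.s j x) = - D.co j x := by
    have h1 : D.co j (D.s j x) = D.co j x - D.co j x * 2 := by
      unfold RDat.s
      have h2 : D.co j (x - D.co j x • D.al j) = D.co j x - D.co j (D.co j x • D.al j) :=
        map_sub _ _ _
      have h3 : D.co j (D.co j x • D.al j) = D.co j x • D.co j (D.al j) := map_zsmul _ _ _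
      rw [h2, h3, co_al, smul_eq_mul]
    rw [h1]
    ring
  have h4 : D.s j (D.s j x) = D.s j x - D.co j (D.s j x) • D.al j := rfl
  rw [h4, h]
  unfold RDat.s
  rw [neg_smul]
  abel

/-- the simple reflection as a homomorphism -/
def sH (j : I) : (ι → ℤ) →+ (ι → ℤ) := AddMonoidHom.mk' (D.s j) (s_add D j)

theorem coeff_push (j : I) (f : GR ι) (x : ι → ℤ) :
    (push (sH D j) f).coeff (D.s j x) = f.coeff x := by
  have h : Function.Injective (D.s j) := fun a b hab => by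
    rw [← s_s D j a, hab, s_s]
  exact Finsupp.mapDomain_apply h f.coeff x

theorem isInv_iff (j : I) (f : GR ι) : D.IsInv j f ↔ push (sH D j) f = f := by
  refine ⟨fun h => ?_, fun h x => ?_⟩
  · apply AddMonoidAlgebra.ext
    ext x
    have h1 := coeff_push D j f (D.s j x)
    rw [s_s] at h1
    rw [h1]
    exact h x
  · have h1 := coeff_push D j f x
    rwa [h] at h1

theorem isInv_of_mul (j : I) {f g : GR ι} (hf : D.IsInv j f) (hf0 : f ≠ 0)
    (h : D.IsInv j (f * g)) : D.IsInv j g := by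
  rw [isInv_iff] at hf h ⊢
  rw [map_mul, hf] at h
  exact mul_left_cancel₀ hf0 h

end refl

/-! ### The pairings -/

section pairings

variable {S : SLC n} {D : RDat (Option (Fin n)) (Option (Fin n))}

theorem inv_aw (h2 : RDat.N_op) (hA : S.AffDat D) (k : Fin n) (l : ℤ) :
    D.IsInv (some k) (ex (aw l 0)) := by
  refine (h2 _ _ D (some k)).2.2.2.2.2.2.2.2.1 _ ?_
  rw [hA.cof]
  rfl

/-- the first pairing formula -/
theorem pair_X (h3 : RDat.N_adj) (h4 : RDat.N_tw) (h6 : SLC.C_adj) (h12 : SLC.C_hd)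
    (hA : S.AffDat D) (hD : D.DemOK) {i : Fin n} (X : SLC.XDat D i)
    (p : (Option (Fin n) → ℤ) → ℤ) (hp : D.Anti p) (f : GR (Option (Fin n))) (j : ℕ) :
    pair p (X.X f * ex (aw (j : ℤ) 0)) =
      pair (fun x => p (X.sg x)) (f * D.Dem (aw 1 (om i)) j) := by
  have h1 : X.X f = D.demL (some i :: X.w)
      (push (X.sg : (Option (Fin n) → ℤ) →+ (Option (Fin n) → ℤ)) f) := rfl
  obtain ⟨-, -, -, -, -, t6, -⟩ := h4 _ _ D S.rho (h12 n S D hA) hD X.sg X.ta X.tw
  rw [h1, (h3 _ _ D p hp).2.1, h6 n S D hA hD i X j, ← map_mul, t6]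

/-- the second pairing formula -/
theorem pair_Y (h3 : RDat.N_adj) (h8 : SLC.C_F) (hA : S.AffDat D) (hD : D.DemOK) {i i' : Fin n}
    {c : List (Option (Fin n))}
    (c2 : ∀ m, D.Dem (xi i') m = D.demL (some i' :: c) (D.Dem (aw 1 (om i)) m))
    (c3 : ∀ m, D.Dem (D.s (some i') (xi i')) m = D.demL c (D.Dem (aw 1 (om i)) m))
    (c4 : ∀ l : ℤ, ex (aw l (-om i)) = D.demL (some i' :: c).reverse (ex (aw l (om i'))) -
      D.demL c.reverse (ex (aw l (om i'))))
    (p : (Option (Fin n) → ℤ) → ℤ) (hp : D.Anti p) (l : ℤ) (j : ℕ) :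
    pair p (ex (aw l (-om i)) * D.Dem (aw 1 (om i)) (j + 1)) =
      pair p (ex (aw (l + 1) 0) * D.Dem (xi i') j) := by
  have h1 := (h3 _ _ D p hp).2.1
  have h5 := (h8 n S D hA hD).2.2.2.2.1 i' j
  rw [c4, sub_mul, map_sub, h1, h1, List.reverse_reverse, List.reverse_reverse, ← c2, ← c3,
    ← map_sub, ← mul_sub, h5, add_sub_cancel_left, ← mul_assoc, ex_mul]
  unfold xi
  rw [aw_add, add_neg_cancel]

/-- the third pairing formula -/
theorem pair_Z (h2 : RDat.N_op) (h3 : RDat.N_adj) (hA : S.AffDat D) {i i' : Fin n}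
    {c : List (Option (Fin n))} (c1 : ∀ j ∈ c, ∃ k : Fin n, j = some k)
    (c2 : ∀ m, D.Dem (xi i') m = D.demL (some i' :: c) (D.Dem (aw 1 (om i)) m))
    (p : (Option (Fin n) → ℤ) → ℤ) (hp : D.Anti p) (l : ℤ) (j : ℕ) :
    pair p (ex (aw l 0) * D.Dem (aw 1 (om i)) j) =
      pair p (ex (aw l 0) * D.Dem (xi i') j) := by
  have h1 := (h3 _ _ D p hp).2.1 (some i' :: c).reverse (ex (aw l 0)) (D.Dem (aw 1 (om i)) j)
  have h4 : D.demL (some i' :: c).reverse (ex (aw l 0)) = ex (aw l 0) := by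
    refine (h3 _ _ D p hp).2.2.2 _ _ fun a ha => ?_
    rw [List.mem_reverse, List.mem_cons] at ha
    rcases ha with ha | ha
    · rw [ha]
      exact inv_aw h2 hA i' l
    · obtain ⟨k, hk⟩ := c1 a ha
      rw [hk]
      exact inv_aw h2 hA k l
  rw [h4, List.reverse_reverse, ← c2] at h1
  exact h1

end pairings

theorem main : RDat.N_op → RDat.N_adj → RDat.N_tw → SLC.C_X → SLC.C_adj → SLC.C_sd → SLC.C_F →
    SLC.C_K → SLC.C_inj → SLC.C_inv0 → SLC.C_hd → SLC.C_Q := by
  intro h2 h3 h4 h5 h6 h7 h8 h9 h10 h11 h12 n S D hA hD i X m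
  obtain ⟨F1, F2, -, -, -, F6, -⟩ := h8 n S D hA hD
  obtain ⟨i', c, c1, c2, c3, c4⟩ := h7 n S D hA hD i
  obtain ⟨K, hK⟩ : ∃ K, K = ex (aw (-((m : ℤ) + 1)) 0) * X.X (ex (aw ((m : ℤ) + 1) (-om i))) :=
    ⟨_, rfl⟩
  have hF := h9 n S D hA hD i X m
  rw [← hK] at hF ⊢
  -- the element `K` is invariant and of level zero
  have hFK : S.F D i m * K = S.F D i (m + 1) * S.F D i (m + 1) -
      ∏ j, if S.C i j = -1 then S.F D j (m + 1) else 1 := by
    rw [← sq, hF]
    ring
  have hPlv : Lv (∏ j, if S.C i j = -1 then S.F D j (m + 1) else 1) := by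
    refine Finset.prod_induction _ Lv (fun a b => Lv.mul) Lv.one fun j _ => ?_
    by_cases h : S.C i j = -1
    · rw [if_pos h]
      exact (F1 j (m + 1)).2
    · rw [if_neg h]
      exact Lv.one
  have hPinv : ∀ a, D.IsInv a (∏ j, if S.C i j = -1 then S.F D j (m + 1) else 1) := by
    intro a
    obtain ⟨-, -, -, -, -, -, -, o8, -, o10⟩ := h2 _ _ D a
    refine Finset.prod_induction _ (D.IsInv a) (fun a b ha hb => (o8 a b ha hb).2.2) o10
      fun j _ => ?_
    by_cases h : S.C i j = -1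
    · rw [if_pos h]
      exact (F1 j (m + 1)).1 a
    · rw [if_neg h]
      exact o10
  have hKlv : Lv K := by
    refine Lv.of_mul (F1 i m).2 (F6 i m) ?_
    rw [hFK]
    exact (Lv.mul (F1 i (m + 1)).2 (F1 i (m + 1)).2).sub hPlv
  have hKinv : ∀ a, D.IsInv a K := by
    intro a
    refine isInv_of_mul D a ((F1 i m).1 a) (F6 i m) ?_
    rw [hFK]
    obtain ⟨-, -, -, -, -, -, -, o8, -, -⟩ := h2 _ _ D a
    exact (o8 _ _ (o8 _ _ ((F1 i (m + 1)).1 a) ((F1 i (m + 1)).1 a)).2.2 (hPinv a)).2.1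
  have hA0 : SLC.Inv0 D (K - S.F D i (m + 2)) := by
    refine ⟨fun a => ?_, Lv.sub hKlv (F1 i (m + 2)).2⟩
    obtain ⟨-, -, -, -, -, -, -, o8, -, -⟩ := h2 _ _ D a
    exact (o8 _ _ (hKinv a) ((F1 i (m + 2)).1 a)).2.1
  -- the pairings
  have hmain : K - S.F D i (m + 2) = 0 := by
    refine h10 n S D hA _ hA0 ((m : ℤ) + 2) fun k hk p hp => ?_
    obtain ⟨j, hj⟩ : ∃ j : ℕ, k = (m : ℤ) + 2 + j := ⟨(k - (m + 2)).toNat, by omega⟩
    have hp' : D.Anti fun x => p (X.sg x) :=
      (h4 _ _ D S.rho (h12 n S D hA) hD X.sg X.ta X.tw).2.2.2.2.1 p hp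
    have e1 : ex (aw k 0) * K =
        X.X (ex (aw ((m : ℤ) + 1) (-om i))) * ex (aw ((j + 1 : ℕ) : ℤ) 0) := by
      have h : ex (aw k 0) * ex (aw (-((m : ℤ) + 1)) 0) =
          (ex (aw ((j + 1 : ℕ) : ℤ) 0) : GR (Option (Fin n))) := by
        rw [ex_mul, aw_add, add_zero, hj]
        congr 2
        push_cast
        ring
      rw [hK, ← mul_assoc, h, mul_comm]
    have e2 : ex (aw k 0) * S.F D i (m + 2) =
        X.X (ex (aw ((m + 2 : ℕ) : ℤ) 0)) * ex (aw (j : ℤ) 0) := by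
      have h : (ex (aw k 0) : GR (Option (Fin n))) =
          ex (aw (j : ℤ) 0) * ex (aw ((m + 2 : ℕ) : ℤ) 0) := by
        rw [ex_mul, aw_add, add_zero, hj]
        congr 2
        push_cast
        ring
      rw [h, mul_assoc, F2, (h5 n S D hA hD i X).2.2.1, mul_comm]
    rw [mul_sub, map_sub, e1, e2, pair_X h3 h4 h6 h12 hA hD X p hp,
      pair_X h3 h4 h6 h12 hA hD X p hp, pair_Y h3 h8 hA hD c2 c3 c4 _ hp',
      pair_Z h2 h3 hA c1 c2 _ hp']
    have e3 : (m : ℤ) + 1 + 1 = ((m + 2 : ℕ) : ℤ) := by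
      push_cast
      ring
    rw [e3, sub_self]
  have hKF : K = S.F D i (m + 2) := sub_eq_zero.1 hmain
  rw [hKF] at hF ⊢
  exact ⟨rfl, hF⟩

end H391.KR.P_cQ
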