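import Pool.Agent.H391.KR.PC

noncomputable section

namespace H391.KR.P_cX

open Finset H391.KR

variable {n : ℕ}

theorem al_none {S : SLC n} {D : RDat (Option (Fin n)) (Option (Fin n))} (hD : S.AffDat D)
    (j : Option (Fin n)) : (D.al j) none = 0 := by
  cases j with
  | none => rw [hD.al0]; rfl
  | some j => rw [hD.alf]; rfl

theorem s_none {S : SLC n} {D : RDat (Option (Fin n)) (Option (Fin n))} (hD : S.AffDat D)
    (j : Option (Fin n)) (x : Option (Fin n) → ℤ) : (D.s j x) none = x none := by
  unfold RDat.s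
  rw [Pi.sub_apply, Pi.smul_apply, al_none hD, smul_zero, sub_zero]

theorem sR_none {S : SLC n} {D : RDat (Option (Fin n)) (Option (Fin n))} (hD : S.AffDat D)
    (w : List (Option (Fin n))) : ∀ x : Option (Fin n) → ℤ, (D.sR w x) none = x none := by
  induction w with
  | nil => intro x; rfl
  | cons j w ih =>
    intro x
    have h1 : D.sR (j :: w) x = D.sR w (D.s j x) := rfl
    rw [h1, ih, s_none hD]

theorem inv_sR {D : RDat (Option (Fin n)) (Option (Fin n))} {f : GR (Option (Fin n))}
    (hf : ∀ j, D.IsInv j f) (w : List (Option (Fin n))) :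
    ∀ x : Option (Fin n) → ℤ, f.coeff (D.sR w x) = f.coeff x := by
  induction w with
  | nil => intro x; rfl
  | cons j w ih =>
    intro x
    have h1 : D.sR (j :: w) x = D.sR w (D.s j x) := rfl
    rw [h1, ih, hf j x]

theorem tr_zero (i : Fin n) (x : Option (Fin n) → ℤ) (hx : x none = 0) : tr i x = x := by
  funext o
  cases o with
  | none => rfl
  | some j =>
    have h1 : tr i x (some j) = x (some j) - x none * om i j := rfl
    rw [h1, hx, zero_mul, sub_zero]

theorem push_inv {S : SLC n} {D : RDat (Option (Fin n)) (Option (Fin n))} (hD : S.AffDat D)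
    {i : Fin n} (X : SLC.XDat D i) {phi : GR (Option (Fin n))} (hphi : SLC.Inv0 D phi) :
    push (X.sg : (Option (Fin n) → ℤ) →+ (Option (Fin n) → ℤ)) phi = phi := by
  have h0 : push (X.sg : (Option (Fin n) → ℤ) →+ (Option (Fin n) → ℤ)) phi =
      AddMonoidAlgebra.mapDomain X.sg phi := rfl
  rw [h0]
  refine AddMonoidAlgebra.ext (Finsupp.ext fun z => ?_)
  obtain ⟨x, rfl⟩ := X.sg.surjective z
  rw [AddMonoidAlgebra.coeff_mapDomain, Finsupp.mapDomain_apply X.sg.injective]
  have hlev : (X.sg x) none = x none := by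
    rw [X.eq, sR_none hD]
    rfl
  by_cases hx : x none = 0
  · rw [X.eq, inv_sR hphi.1, tr_zero i x hx]
  · have h1 : phi.coeff x = 0 := by
      by_contra h
      exact hx (hphi.2 x h)
    have h2 : phi.coeff (X.sg x) = 0 := by
      by_contra h
      exact hx (hlev ▸ hphi.2 _ h)
    rw [h1, h2]

theorem X_apply {D : RDat (Option (Fin n)) (Option (Fin n))} {i : Fin n} (X : SLC.XDat D i)
    (f : GR (Option (Fin n))) : X.X f =
      D.demL (some i :: X.w) (push (X.sg : (Option (Fin n) → ℤ) →+ (Option (Fin n) → ℤ)) f) := rfl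

theorem dot_neg_om (a : Fin n → ℤ) (i : Fin n) : dot a (-om i) = - a i := by
  unfold dot om
  simp

theorem xi_pair {D : RDat (Option (Fin n)) (Option (Fin n))}
    (i : Fin n) (a : Fin n → ℤ) (m : ℤ) (b : D.R)
    (hb : ∀ x, D.ev b x = dot a (fp x) + m * x none) : D.ev b (xi i) = m - a i := by
  rw [hb]
  have h1 : fp (xi i) = -om i := rfl
  have h2 : (xi i) none = 1 := rfl
  rw [h1, h2, dot_neg_om]
  ring

theorem main : RDat.N_desc → RDat.N_demw → RDat.N_op → RDat.N_adj → RDat.N_tw → SLC.C_facts →
    SLC.C_hd → SLC.C_X := by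
  intro hdesc hdemw _ hadj htw hfacts hhd n S D hD hOK i X
  obtain ⟨hd1, hd2, hd3, hd4, hd5, hd6, hd7, hd8, hd9, hd10, hd11⟩ := hdesc _ _ D
  obtain ⟨ht1, ht2, ht3, ht4, ht5, ht6, ht7⟩ := htw _ _ D S.rho (hhd n S D hD) hOK X.sg X.ta X.tw
  obtain ⟨ha1, ha2, ha3, ha4⟩ := hadj _ _ D (fun _ => 0) (fun y j => by simp)
  obtain ⟨hf1, hf2, hf3, hf4, hf5, hf6, hf7, hf8, hf9, hf10⟩ := hfacts n S
  have hT : ∀ x, x ∈ D.T ↔ 1 ≤ x none := by
    intro x
    rw [hD.T]
    rfl
  have key : ∀ y ∈ D.T, (∀ b, D.ev b (xi i) < 0 → D.ev b (tr i y) ≤ 0) →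
      ∀ m, X.X (D.Dem y m) = D.Dem (tr i y) m := by
    intro y hy hb m
    rw [X_apply, ← ht4 y hy m, X.eq]
    refine (hdemw _ _ D hOK (some i :: X.w) (tr i y) m ?_ ?_).symm
    · rw [hT] at hy ⊢
      exact hy
    · exact hd1 (some i :: X.w) (xi i) (tr i y) X.desc hb
  -- the coroots negative on xi
  have hneg : ∀ b, D.ev b (xi i) < 0 → ∃ (a : Fin n → ℤ) (m : ℤ), S.IsRoot a ∧ 0 ≤ m ∧ m < a i ∧
      (∀ j, 0 ≤ a j) ∧ ∀ x, D.ev b x = dot a (fp x) + m * x none := by
    intro b hb
    obtain ⟨a, m, hP, hev, -⟩ := hD.ev b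
    have h1 := xi_pair i a m b hev
    rw [h1] at hb
    have hm : 0 ≤ m := by
      rcases hP.2 with h | h
      · omega
      · omega
    refine ⟨a, m, hP.1, hm, by omega, ?_, hev⟩
    rcases hf3 a hP.1 with h | h
    · exact h
    · have := h i
      omega
  refine ⟨?_, key, ?_, ?_, ?_⟩
  · intro phi f hphi
    rw [X_apply, X_apply, map_mul, push_inv hD X hphi]
    exact ha3 _ _ _ fun j _ => hphi.1 j
  · intro m
    have hy : aw 1 (0 : Fin n → ℤ) ∈ D.T := by
      rw [hT]
      exact le_refl (1 : ℤ)
    have htr : tr i (aw 1 (0 : Fin n → ℤ)) = xi i := by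
      funext o
      cases o with
      | none => rfl
      | some j =>
        have h1 : tr i (aw 1 (0 : Fin n → ℤ)) (some j) = 0 - 1 * om i j := rfl
        have h2 : xi i (some j) = - om i j := rfl
        rw [h1, h2]
        ring
    have hdom : D.Dom (aw 1 (0 : Fin n → ℤ)) := by
      intro j
      cases j with
      | none =>
        rw [hD.co0]
        have h1 : fp (aw 1 (0 : Fin n → ℤ)) = 0 := rfl
        have h2 : (aw 1 (0 : Fin n → ℤ)) none = 1 := rfl
        rw [h1, h2]
        simp [dot]
      | some j =>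
        rw [hD.cof]
        exact le_refl (0 : ℤ)
    have h3 := key _ hy (by rw [htr]; exact fun b hb => hb.le) m
    rw [htr, hOK.d3 _ hy m hdom] at h3
    have h4 : (m : ℤ) • aw 1 (0 : Fin n → ℤ) = aw (m : ℤ) 0 := by
      funext o
      cases o with
      | none =>
        have h1 : ((m : ℤ) • aw 1 (0 : Fin n → ℤ)) none = (m : ℤ) * 1 := rfl
        rw [h1, mul_one]
        rfl
      | some j =>
        have h1 : ((m : ℤ) • aw 1 (0 : Fin n → ℤ)) (some j) = (m : ℤ) * 0 := rfl
        rw [h1, mul_zero]
        rfl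
    rw [h4] at h3
    exact h3
  · intro la hla m
    have hy : aw 1 (-la) ∈ D.T := by
      rw [hT]
      exact le_refl (1 : ℤ)
    have htr : tr i (aw 1 (-la)) = aw 1 (-la - om i) := by
      funext o
      cases o with
      | none => rfl
      | some j =>
        have h1 : tr i (aw 1 (-la)) (some j) = - la j - 1 * om i j := rfl
        have h2 : aw 1 (-la - om i) (some j) = - la j - om i j := rfl
        rw [h1, h2]
        ring
    have h3 := key _ hy (by
      intro b hb
      obtain ⟨a, q, ha, hq0, hq1, ha0, hev⟩ := hneg b hb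
      rw [htr, hev]
      have h1 : fp (aw 1 (-la - om i)) = -la - om i := rfl
      have h2 : (aw 1 (-la - om i)) none = 1 := rfl
      rw [h1, h2]
      have h4 : dot a (-la - om i) = - (∑ j, a j * la j) - a i := by
        have h5 := dot_neg_om a i
        unfold dot at h5 ⊢
        rw [← Finset.sum_neg_distrib]
        have h6 : ∑ j, a j * (-la - om i) j = ∑ j, (-(a j * la j)) + ∑ j, a j * (-om i) j := by
          rw [← Finset.sum_add_distrib]
          refine Finset.sum_congr rfl fun j _ => ?_
          simp only [Pi.sub_apply, Pi.neg_apply]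
          ring
        rw [h6, h5]
        ring
      have h7 : 0 ≤ ∑ j, a j * la j := Finset.sum_nonneg fun j _ => mul_nonneg (ha0 j) (hla j)
      rw [h4]
      omega) m
    rw [htr] at h3
    exact h3
  · intro m
    have hco : D.co (some i) (xi i) = -1 := by
      rw [hD.cof]
      have h1 : xi i (some i) = - om i i := rfl
      rw [h1]
      simp [om]
    have hs : ∀ o, D.s (some i) (xi i) o = xi i o + aw 0 (fun k => S.C k i) o := by
      intro o
      unfold RDat.s
      rw [hco, hD.alf]
      simp
    have hy : D.s (some i) (xi i) ∈ D.T := by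
      rw [hT, s_none hD]
      exact le_refl (1 : ℤ)
    have htr : tr i (D.s (some i) (xi i)) = aw 1 (fun j => -(2 * om i j - S.C j i)) := by
      funext o
      cases o with
      | none =>
        have h1 : tr i (D.s (some i) (xi i)) none = D.s (some i) (xi i) none := rfl
        rw [h1, s_none hD]
        rfl
      | some j =>
        have h1 : tr i (D.s (some i) (xi i)) (some j) =
            D.s (some i) (xi i) (some j) - D.s (some i) (xi i) none * om i j := rfl
        have h2 : aw 1 (fun j => -(2 * om i j - S.C j i)) (some j) = -(2 * om i j - S.C j i) := rfl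
        have h3 : xi i (some j) = - om i j := rfl
        have h4 : aw 0 (fun k => S.C k i) (some j) = S.C j i := rfl
        have h5 : (xi i) none = 1 := rfl
        rw [h1, h2, s_none hD, hs, h3, h4, h5]
        ring
    have h3 := key _ hy (by
      intro b hb
      obtain ⟨a, q, ha, hq0, hq1, ha0, hev⟩ := hneg b hb
      rw [htr, hev]
      have h1 : fp (aw 1 (fun j => -(2 * om i j - S.C j i))) = fun j => -(2 * om i j - S.C j i) := rfl
      have h2 : (aw 1 (fun j => -(2 * om i j - S.C j i))) none = 1 := rfl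
      rw [h1, h2]
      have hcv : S.cv (om i) = fun j => S.C j i := by
        funext j
        unfold SLC.cv om
        simp
      have h4 : dot a (fun j => -(2 * om i j - S.C j i)) = - (2 * a i) + S.bf a (om i) := by
        unfold SLC.bf
        rw [hcv]
        have h5 := dot_neg_om a i
        unfold dot at h5 ⊢
        have h6 : ∑ j, a j * -(2 * om i j - S.C j i) =
            2 * ∑ j, a j * (-om i) j + ∑ j, a j * S.C j i := by
          rw [Finset.mul_sum, ← Finset.sum_add_distrib]
          refine Finset.sum_congr rfl fun j _ => ?_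
          simp only [Pi.neg_apply]
          ring
        rw [h6, h5]
        ring
      rw [h4]
      obtain ⟨-, hb2, hb3, -⟩ := hf4 a (om i) ha (hf10 i)
      by_cases hbf : S.bf a (om i) = 2
      · have hai : a = om i := hb3 hbf
        have : a i = 1 := by rw [hai]; simp [om]
        omega
      · omega) m
    rw [htr] at h3
    exact h3

end H391.KR.P_cX
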