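import Pool.Agent.H391.KR.PC

noncomputable section

namespace H391.KR.P_ccov

open Finset

theorem dot_add_left {n : ℕ} (a b mu : Fin n → ℤ) : dot (a + b) mu = dot a mu + dot b mu := by
  unfold dot
  rw [← Finset.sum_add_distrib]
  exact Finset.sum_congr rfl fun i _ => by simp only [Pi.add_apply]; ring

theorem dot_smul_left {n : ℕ} (t : ℤ) (a mu : Fin n → ℤ) : dot (t • a) mu = t * dot a mu := by
  unfold dot
  rw [Finset.mul_sum]
  exact Finset.sum_congr rfl fun i _ => by simp only [Pi.smul_apply, smul_eq_mul]; ring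

theorem dot_sub_left {n : ℕ} (a b mu : Fin n → ℤ) : dot (a - b) mu = dot a mu - dot b mu := by
  unfold dot
  rw [← Finset.sum_sub_distrib]
  exact Finset.sum_congr rfl fun i _ => by simp only [Pi.sub_apply]; ring

theorem dot_smul_right {n : ℕ} (t : ℤ) (a mu : Fin n → ℤ) : dot a (t • mu) = t * dot a mu := by
  unfold dot
  rw [Finset.mul_sum]
  exact Finset.sum_congr rfl fun i _ => by simp only [Pi.smul_apply, smul_eq_mul]; ring

theorem dot_sub_right {n : ℕ} (a mu nu : Fin n → ℤ) : dot a (mu - nu) = dot a mu - dot a nu := by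
  unfold dot
  rw [← Finset.sum_sub_distrib]
  exact Finset.sum_congr rfl fun i _ => by simp only [Pi.sub_apply]; ring

theorem dot_neg_right {n : ℕ} (a mu : Fin n → ℤ) : dot a (-mu) = - dot a mu := by
  unfold dot
  rw [← Finset.sum_neg_distrib]
  exact Finset.sum_congr rfl fun i _ => by simp only [Pi.neg_apply]; ring

theorem dot_om {n : ℕ} (a : Fin n → ℤ) (j : Fin n) : dot a (om j) = a j := by
  unfold dot om
  simp

theorem dot_nonneg {n : ℕ} {a mu : Fin n → ℤ} (ha : ∀ i, 0 ≤ a i) (hm : ∀ i, 0 ≤ mu i) :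
    0 ≤ dot a mu := Finset.sum_nonneg fun i _ => mul_nonneg (ha i) (hm i)

theorem dot_comm {n : ℕ} (a mu : Fin n → ℤ) : dot a mu = dot mu a := by
  unfold dot
  exact Finset.sum_congr rfl fun i _ => mul_comm _ _

section

variable {n : ℕ} (S : SLC n)

theorem bf_sub_left (a b c : Fin n → ℤ) : S.bf (a - b) c = S.bf a c - S.bf b c := dot_sub_left _ _ _

theorem bf_smul_left (t : ℤ) (a c : Fin n → ℤ) : S.bf (t • a) c = t * S.bf a c :=
  dot_smul_left _ _ _

variable (F1 : ∀ a b, S.bf a b = S.bf b a)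
  (F3 : ∀ a, S.IsRoot a → (∀ i, 0 ≤ a i) ∨ ∀ i, a i ≤ 0)
  (F9 : ∀ a b, S.IsRoot a → S.IsRoot b → S.IsRoot (b - S.bf a b • a))
  (F10 : ∀ i, S.IsRoot (om i))

include F1 F10 in
/-- a positive root other than `om j` has another positive coefficient -/
theorem other {a : Fin n → ℤ} (ha : S.IsRoot a) (hp : ∀ i, 0 ≤ a i) {j : Fin n} (hj : a ≠ om j) :
    ∃ k, k ≠ j ∧ 0 < a k := by
  by_contra hcon
  push Not at hcon
  have h0 : ∀ k, k ≠ j → a k = 0 := fun k hk => le_antisymm (hcon k hk) (hp k)
  have h1 : a = a j • om j := by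
    funext k
    by_cases hk : k = j
    · subst hk; simp [om]
    · simp [om, hk, h0 k hk]
  have h2 : S.bf a a = a j * (a j * 2) := by
    have h3 : S.bf (om j) (om j) = 2 := F10 j
    conv_lhs => rw [h1]
    rw [bf_smul_left, F1, bf_smul_left, h3]
  have h4 : S.bf a a = 2 := ha
  rw [h4] at h2
  have h5 : a j = 1 := by nlinarith [hp j]
  apply hj
  rw [h1, h5, one_smul]

include F1 F3 F9 F10 in
theorem sum_om (P : Finset (Fin n → ℤ)) (hP : ∀ a, a ∈ P ↔ S.IsRoot a ∧ ∀ i, 0 ≤ a i)
    (j : Fin n) : ∑ a ∈ P, S.bf a (om j) = 2 := by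
  classical
  have hom : om j ∈ P := by
    rw [hP]
    refine ⟨F10 j, fun i => ?_⟩
    unfold om; split_ifs <;> norm_num
  have h2 : S.bf (om j) (om j) = 2 := F10 j
  rw [← Finset.add_sum_erase P _ hom, h2]
  have h0 : ∑ a ∈ P.erase (om j), S.bf a (om j) = 0 := by
    apply Finset.sum_involution (fun a _ => a - S.bf (om j) a • om j)
    · intro a _
      rw [bf_sub_left, bf_smul_left, h2, F1 (om j) a]
      ring
    · intro a _ hne heq
      apply hne
      have h3 : S.bf (om j) a • om j = 0 := by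
        have := sub_eq_self.1 heq
        exact this
      have h4 := congrFun h3 j
      simp [om] at h4
      rw [F1]; exact h4
    · intro a ha
      rw [Finset.mem_erase, hP] at ha ⊢
      obtain ⟨hne, hroot, hp⟩ := ha
      obtain ⟨k, hk, hak⟩ := other S F1 F10 hroot hp hne
      have hr := F9 (om j) a (F10 j) hroot
      have hkv : (a - S.bf (om j) a • om j) k = a k := by
        simp [om, hk]
      refine ⟨?_, hr, ?_⟩
      · intro he
        have := congrFun he k
        rw [hkv] at this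
        simp [om, hk] at this
        omega
      · rcases F3 _ hr with h | h
        · exact h
        · exfalso
          have := h k
          rw [hkv] at this
          omega
    · intro a _
      have h5 : S.bf (om j) (a - S.bf (om j) a • om j) = - S.bf (om j) a := by
        rw [F1, bf_sub_left, bf_smul_left, h2, F1 a (om j)]
        ring
      rw [h5]
      simp
  rw [h0, add_zero]

include F1 F3 F9 F10 in
theorem sum_cv (P : Finset (Fin n → ℤ)) (hP : ∀ a, a ∈ P ↔ S.IsRoot a ∧ ∀ i, 0 ≤ a i)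
    (b : Fin n → ℤ) : ∑ a ∈ P, dot a (S.cv b) = 2 * ∑ j, b j := by
  have h1 : ∀ a, dot a (S.cv b) = ∑ j, b j * S.bf a (om j) := by
    intro a
    have h2 : S.bf a b = S.bf b a := F1 a b
    have h3 : dot a (S.cv b) = S.bf a b := rfl
    rw [h3, h2]
    show dot b (S.cv a) = _
    unfold dot
    refine Finset.sum_congr rfl fun j _ => ?_
    rw [F1 a (om j)]
    congr 1
    show _ = dot (om j) (S.cv a)
    rw [dot_comm, dot_om]
  simp only [h1]
  rw [Finset.sum_comm, Finset.mul_sum]
  refine Finset.sum_congr rfl fun j _ => ?_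
  rw [← Finset.mul_sum, sum_om S F1 F3 F9 F10 P hP j]
  ring

/-- the length of a translation -/
theorem len_formula (F3 : ∀ a, S.IsRoot a → (∀ i, 0 ≤ a i) ∨ ∀ i, a i ≤ 0)
    (P : Finset (Fin n → ℤ)) (hP : ∀ a, a ∈ P ↔ S.IsRoot a ∧ ∀ i, 0 ≤ a i)
    (D : RDat (Option (Fin n)) (Option (Fin n))) (hD : S.AffDat D) (nu : Fin n → ℤ)
    (hnu : ∀ i, 0 ≤ nu i) : (D.len (aw 1 (-nu)) : ℤ) = ∑ a ∈ P, dot a nu := by
  classical
  have hex : ∀ p : (_ : Fin n → ℤ) × ℕ, ∃ b : D.R, S.Pos p.1 p.2 →
      ∀ x, D.ev b x = dot p.1 (fp x) + p.2 * x none := by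
    intro p
    by_cases h : S.Pos p.1 p.2
    · obtain ⟨b, hb, _⟩ := hD.exi p.1 p.2 h
      exact ⟨b, fun _ => hb⟩
    · exact ⟨D.sim none, fun h' => absurd h' h⟩
  choose g hg using hex
  set T : Finset ((_ : Fin n → ℤ) × ℕ) := P.sigma fun a => Finset.range (dot a nu).toNat with hT
  have hTpos : ∀ p ∈ T, S.Pos p.1 p.2 := by
    intro p hp
    rw [hT, Finset.mem_sigma] at hp
    obtain ⟨h1, h2⟩ := (hP _).1 hp.1
    refine ⟨h1, ?_⟩
    rcases Nat.eq_zero_or_pos p.2 with h | h
    · right; exact ⟨by exact_mod_cast h, h2⟩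
    · left; exact_mod_cast h
  have hset : {b | D.ev b (aw 1 (-nu)) < 0} = g '' (T : Set ((_ : Fin n → ℤ) × ℕ)) := by
    ext b
    constructor
    · intro hb
      obtain ⟨a, m, hpos, hev, _⟩ := hD.ev b
      have hb' : D.ev b (aw 1 (-nu)) < 0 := hb
      rw [hev] at hb'
      have e1 : fp (aw 1 (-nu)) = -nu := rfl
      have e2 : (aw 1 (-nu) : Option (Fin n) → ℤ) none = 1 := rfl
      rw [e1, e2, dot_neg_right, mul_one] at hb'
      have hm : 0 ≤ m := by
        rcases hpos.2 with h | h
        · omega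
        · omega
      have ha : ∀ i, 0 ≤ a i := by
        rcases F3 a hpos.1 with h | h
        · exact h
        · exfalso
          have h3 : 0 ≤ dot (-a) nu := dot_nonneg (fun i => by
            have := h i
            simp only [Pi.neg_apply]; omega) hnu
          have h4 : dot (-a) nu = - dot a nu := by
            rw [dot_comm, dot_neg_right, dot_comm]
          omega
      refine ⟨⟨a, m.toNat⟩, ?_, ?_⟩
      · rw [Finset.mem_coe, hT, Finset.mem_sigma, Finset.mem_range]
        refine ⟨(hP a).2 ⟨hpos.1, ha⟩, ?_⟩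
        show m.toNat < (dot a nu).toNat
        omega
      · apply D.inj
        intro x
        have hmm : ((m.toNat : ℕ) : ℤ) = m := Int.toNat_of_nonneg hm
        have hpos' : S.Pos (⟨a, m.toNat⟩ : (_ : Fin n → ℤ) × ℕ).1
            ((⟨a, m.toNat⟩ : (_ : Fin n → ℤ) × ℕ).2 : ℤ) := by
          show S.Pos a ((m.toNat : ℕ) : ℤ)
          rw [hmm]; exact hpos
        rw [hg _ hpos', hev]
        show dot a (fp x) + ((m.toNat : ℕ) : ℤ) * x none = _
        rw [hmm]
    · rintro ⟨p, hp, rfl⟩
      have hp' := hp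
      rw [Finset.mem_coe] at hp
      show D.ev (g p) (aw 1 (-nu)) < 0
      rw [hg p (hTpos p hp)]
      have e1 : fp (aw 1 (-nu)) = -nu := rfl
      have e2 : (aw 1 (-nu) : Option (Fin n) → ℤ) none = 1 := rfl
      rw [e1, e2, dot_neg_right, mul_one]
      rw [hT, Finset.mem_sigma, Finset.mem_range] at hp
      have := hp.2
      omega
  have hinj : Set.InjOn g (T : Set ((_ : Fin n → ℤ) × ℕ)) := by
    intro p hp q hq hpq
    have h1 := hg p (hTpos p hp)
    have h2 := hg q (hTpos q hq)
    rw [hpq] at h1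
    have h3 : ∀ x, dot p.1 (fp x) + p.2 * x none = dot q.1 (fp x) + q.2 * x none := fun x => by
      rw [← h1, ← h2]
    have h4 : p.1 = q.1 := by
      funext j
      have h5 := h3 (aw 0 (om j))
      have e1 : fp (aw 0 (om j)) = om j := rfl
      have e2 : (aw 0 (om j) : Option (Fin n) → ℤ) none = 0 := rfl
      rw [e1, e2, dot_om, dot_om, mul_zero, mul_zero, add_zero, add_zero] at h5
      exact h5
    have h6 : (p.2 : ℤ) = q.2 := by
      have h5 := h3 (aw 1 0)
      have e1 : fp (aw 1 0 : Option (Fin n) → ℤ) = 0 := rfl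
      have e2 : (aw 1 0 : Option (Fin n) → ℤ) none = 1 := rfl
      rw [e1, e2, mul_one, mul_one, h4] at h5
      omega
    obtain ⟨p1, p2⟩ := p
    obtain ⟨q1, q2⟩ := q
    simp only at h4 h6
    have h7 : p2 = q2 := by exact_mod_cast h6
    rw [h4, h7]
  have hlen : D.len (aw 1 (-nu)) = T.card := by
    unfold RDat.len
    rw [hset, Set.InjOn.ncard_image hinj, Set.ncard_coe_finset]
  rw [hlen, hT, Finset.card_sigma]
  push_cast
  refine Finset.sum_congr rfl fun a ha => ?_
  rw [Finset.card_range]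
  exact Int.toNat_of_nonneg (dot_nonneg ((hP a).1 ha).2 hnu)

end

theorem common {n : ℕ} (S : SLC n) (hcov : RDat.S_cov)
    (F3 : ∀ a, S.IsRoot a → (∀ i, 0 ≤ a i) ∨ ∀ i, a i ≤ 0)
    (D : RDat (Option (Fin n)) (Option (Fin n))) (hD : S.AffDat D) (i : Fin n) (N : ℤ)
    (hN : 1 ≤ N) (y : Option (Fin n) → ℤ) (hy : D.Step 1 0 (aw N (-om i)) y)
    (hne : y ≠ D.s (some i) (aw N (-om i))) :
    ∃ (a : Fin n → ℤ) (m : ℤ), S.IsRoot a ∧ (∀ k, 0 ≤ a k) ∧ 0 ≤ m ∧ m * N < a i ∧
      y = aw N (-om i + (a i - m * N) • S.cv a) ∧ (∀ k, y (some k) ≤ 0) ∧ y (some i) < 0 ∧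
      D.len y + 1 = D.len (aw N (-om i)) := by
  have hT : aw N (-om i) ∈ D.T := by
    rw [hD.T]; exact hN
  have hc := fun j => hcov _ _ D 1 0 (aw N (-om i)) y hT hy j
  obtain ⟨b, hb, hyb, hlen, _⟩ := hy
  obtain ⟨a, m, hpos, hev, hrt⟩ := hD.ev b
  have e1 : fp (aw N (-om i)) = -om i := rfl
  have e2 : (aw N (-om i) : Option (Fin n) → ℤ) none = N := rfl
  have hval : D.ev b (aw N (-om i)) = m * N - a i := by
    rw [hev, e1, e2, dot_neg_right, dot_om]; ring
  rw [hval] at hb hyb
  have hm : 0 ≤ m := by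
    rcases hpos.2 with h | h
    · omega
    · omega
  have hmN : 0 ≤ m * N := mul_nonneg hm (by omega)
  have hai : 0 < a i := by omega
  have ha : ∀ k, 0 ≤ a k := by
    rcases F3 a hpos.1 with h | h
    · exact h
    · exfalso
      have := h i
      omega
  have hy2 : y = aw N (-om i + (a i - m * N) • S.cv a) := by
    rw [hyb, hrt]
    funext o
    rcases o with _ | k
    · simp [aw]
    · simp [aw]; ring
  have hk : ∀ k, y (some k) ≤ 0 := by
    intro k
    by_cases hki : k = i
    · subst hki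
      rcases hc (some k) with h | h
      · exact absurd h.1 hne
      · have h1 := h.1
        rw [hD.cof, hD.cof] at h1
        have h2 : (aw N (-om k) : Option (Fin n) → ℤ) (some k) = -1 := by simp [aw, om]
        rw [h2] at h1
        have := h1 (by norm_num)
        omega
    · have h2 : (aw N (-om i) : Option (Fin n) → ℤ) (some k) = 0 := by simp [aw, om, hki]
      rcases hc (some k) with h | h
      · exfalso
        have h1 := h.2.1
        rw [hD.cof, h2] at h1
        exact lt_irrefl _ h1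
      · by_contra h3
        have h1 := h.2.1
        rw [hD.cof, hD.cof, h2] at h1
        exact lt_irrefl _ (h1 (by omega))
  have hi : y (some i) < 0 := by
    rcases hc (some i) with h | h
    · exact absurd h.1 hne
    · have h1 := h.1
      rw [hD.cof, hD.cof] at h1
      have h2 : (aw N (-om i) : Option (Fin n) → ℤ) (some i) = -1 := by simp [aw, om]
      rw [h2] at h1
      exact h1 (by norm_num)
  exact ⟨a, m, hpos.1, ha, hm, by omega, hy2, hk, hi, hlen⟩

theorem main : RDat.S_cov → SLC.C_facts → SLC.C_cov := by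
  intro hcov hfacts n S D hD i
  obtain ⟨F1, _, F3, _, F5, F6, _, _, F9, F10⟩ := hfacts n S
  constructor
  · intro y hy
    by_contra hne
    have hxi : xi i = aw 1 (-om i) := rfl
    rw [hxi] at hy hne
    obtain ⟨a, m, hroot, ha, hm, hmN, hy2, hk, hi, hlen⟩ :=
      common S hcov F3 D hD i 1 le_rfl y hy hne
    classical
    set P : Finset (Fin n → ℤ) := F5.toFinset.filter (fun a => ∀ i, 0 ≤ a i) with hPd
    have hP : ∀ a, a ∈ P ↔ S.IsRoot a ∧ ∀ i, 0 ≤ a i := by
      intro a
      rw [hPd, Finset.mem_filter, Set.Finite.mem_toFinset]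
      rfl
    have hy3 : y = aw 1 (-(om i - (a i - m * 1) • S.cv a)) := by
      rw [hy2]; congr 1; abel
    have h1 := len_formula S F3 P hP D hD (om i) (fun k => by unfold om; split_ifs <;> norm_num)
    have h2 := len_formula S F3 P hP D hD (om i - (a i - m * 1) • S.cv a) (fun k => by
      have h3 := hk k
      rw [hy3] at h3
      have h4 : (aw 1 (-(om i - (a i - m * 1) • S.cv a)) : Option (Fin n) → ℤ) (some k) =
        - (om i - (a i - m * 1) • S.cv a) k := rfl
      rw [h4] at h3
      omega)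
    rw [← hy3] at h2
    have h5 : ∑ a' ∈ P, dot a' (om i - (a i - m * 1) • S.cv a) =
        ∑ a' ∈ P, dot a' (om i) - (a i - m * 1) * (2 * ∑ j, a j) := by
      rw [← sum_cv S F1 F3 F9 F10 P hP a, Finset.mul_sum, ← Finset.sum_sub_distrib]
      refine Finset.sum_congr rfl fun a' _ => ?_
      rw [dot_sub_right, dot_smul_right]
    rw [h5, ← h1] at h2
    have h6 : a i ≤ ∑ j, a j := Finset.single_le_sum (fun j _ => ha j) (Finset.mem_univ i)
    have h7 : 1 ≤ a i - m * 1 := by omega
    have h8 : 1 ≤ ∑ j, a j := by omega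
    have h9 : (D.len y : ℤ) + 1 = D.len (aw 1 (-om i)) := by exact_mod_cast hlen
    nlinarith
  · intro N hN hth y hy
    by_contra hne
    obtain ⟨a, m, hroot, ha, hm, hmN, hy2, hk, hi, hlen⟩ :=
      common S hcov F3 D hD i N hN y hy hne
    have h1 := F6 a hroot i
    have hm0 : m = 0 := by
      by_contra h
      have : 1 ≤ m := by omega
      nlinarith
    subst hm0
    have h2 : dot a (fp y) = a i := by
      rw [hy2]
      show dot a (-om i + (a i - 0 * N) • S.cv a) = a i
      have h3 : -om i + (a i - 0 * N) • S.cv a = (a i • S.cv a) - om i := by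
        rw [zero_mul, sub_zero]; abel
      rw [h3, dot_sub_right, dot_smul_right, dot_om]
      have h4 : dot a (S.cv a) = 2 := hroot
      rw [h4]; ring
    have h3 : 0 ≤ dot a (-(fp y)) := dot_nonneg ha (fun k => by
      have := hk k
      show 0 ≤ -(y (some k))
      omega)
    rw [dot_neg_right, h2] at h3
    omega

end H391.KR.P_ccov
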