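import Pool.Agent.H391.KR.PC

set_option autoImplicit false

noncomputable section

namespace H391.KR.P_cdat

open Finset H391.KR

/-! ### Linearity -/

section lin

variable {n : ℕ}

theorem dot_add_left (a b mu : Fin n → ℤ) : dot (a + b) mu = dot a mu + dot b mu := by
  unfold dot
  rw [← Finset.sum_add_distrib]
  exact Finset.sum_congr rfl fun i _ => by rw [Pi.add_apply]; ring

theorem dot_sub_left (a b mu : Fin n → ℤ) : dot (a - b) mu = dot a mu - dot b mu := by
  unfold dot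
  rw [← Finset.sum_sub_distrib]
  exact Finset.sum_congr rfl fun i _ => by rw [Pi.sub_apply]; ring

theorem dot_smul_left (c : ℤ) (a mu : Fin n → ℤ) : dot (c • a) mu = c * dot a mu := by
  unfold dot
  rw [Finset.mul_sum]
  exact Finset.sum_congr rfl fun i _ => by rw [Pi.smul_apply, smul_eq_mul]; ring

theorem dot_neg_left (a mu : Fin n → ℤ) : dot (-a) mu = - dot a mu := by
  unfold dot
  rw [← Finset.sum_neg_distrib]
  exact Finset.sum_congr rfl fun i _ => by rw [Pi.neg_apply]; ring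

theorem dot_comm (a mu : Fin n → ℤ) : dot a mu = dot mu a := by
  unfold dot
  exact Finset.sum_congr rfl fun i _ => mul_comm _ _

theorem dot_add_right (a b mu : Fin n → ℤ) : dot mu (a + b) = dot mu a + dot mu b := by
  rw [dot_comm, dot_add_left, dot_comm a, dot_comm b]

theorem dot_sub_right (a b mu : Fin n → ℤ) : dot mu (a - b) = dot mu a - dot mu b := by
  rw [dot_comm, dot_sub_left, dot_comm a, dot_comm b]

theorem dot_smul_right (c : ℤ) (a mu : Fin n → ℤ) : dot mu (c • a) = c * dot mu a := by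
  rw [dot_comm, dot_smul_left, dot_comm a]

theorem dot_om (a : Fin n → ℤ) (i : Fin n) : dot a (om i) = a i := by
  unfold dot om
  rw [Finset.sum_eq_single i]
  · rw [if_pos rfl, mul_one]
  · intro j _ hj
    rw [if_neg hj, mul_zero]
  · intro h
    exact absurd (Finset.mem_univ i) h

variable (S : SLC n)

theorem cv_eq (a : Fin n → ℤ) (i : Fin n) : S.cv a i = dot (S.C i) a := rfl

theorem cv_sub (a b : Fin n → ℤ) : S.cv (a - b) = S.cv a - S.cv b := by
  funext i
  rw [Pi.sub_apply, cv_eq, cv_eq, cv_eq, dot_sub_right]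

theorem cv_add (a b : Fin n → ℤ) : S.cv (a + b) = S.cv a + S.cv b := by
  funext i
  rw [Pi.add_apply, cv_eq, cv_eq, cv_eq, dot_add_right]

theorem cv_smul (c : ℤ) (a : Fin n → ℤ) : S.cv (c • a) = c • S.cv a := by
  funext i
  rw [Pi.smul_apply, smul_eq_mul, cv_eq, cv_eq, dot_smul_right]

theorem cv_neg (a : Fin n → ℤ) : S.cv (-a) = - S.cv a := by
  rw [← neg_one_smul ℤ a, cv_smul, neg_one_smul]

theorem cv_om (j : Fin n) : S.cv (om j) = fun i => S.C i j := by
  funext i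
  rw [cv_eq, dot_om]

theorem bf_add_left (a b c : Fin n → ℤ) : S.bf (a + b) c = S.bf a c + S.bf b c :=
  dot_add_left _ _ _

theorem bf_sub_left (a b c : Fin n → ℤ) : S.bf (a - b) c = S.bf a c - S.bf b c :=
  dot_sub_left _ _ _

theorem bf_smul_left (t : ℤ) (a c : Fin n → ℤ) : S.bf (t • a) c = t * S.bf a c :=
  dot_smul_left _ _ _

theorem bf_neg_left (a c : Fin n → ℤ) : S.bf (-a) c = - S.bf a c := dot_neg_left _ _

theorem bf_neg_right (a c : Fin n → ℤ) : S.bf a (-c) = - S.bf a c := by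
  unfold SLC.bf
  rw [cv_neg, dot_comm, dot_neg_left, dot_comm]

theorem bf_smul_right (t : ℤ) (a c : Fin n → ℤ) : S.bf a (t • c) = t * S.bf a c := by
  unfold SLC.bf
  rw [cv_smul, dot_smul_right]

theorem bf_zero_left (c : Fin n → ℤ) : S.bf 0 c = 0 := by
  have := bf_smul_left S 0 0 c
  rw [zero_smul, zero_mul] at this
  exact this

end lin

/-! ### The datum -/

section

variable {n : ℕ} (S : SLC n)

/-- the facts -/
def Facts : Prop :=
  (∀ a b, S.bf a b = S.bf b a) ∧ (∀ a, a ≠ 0 → 2 ≤ S.bf a a) ∧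
  (∀ a, S.IsRoot a → (∀ i, 0 ≤ a i) ∨ ∀ i, a i ≤ 0) ∧
  (∀ a b, S.IsRoot a → S.IsRoot b → -2 ≤ S.bf a b ∧ S.bf a b ≤ 2 ∧ (S.bf a b = 2 → a = b) ∧
    (S.bf a b = -2 → a = -b)) ∧
  {a | S.IsRoot a}.Finite ∧ (∀ a, S.IsRoot a → ∀ i, a i ≤ S.th i) ∧ (∀ i, 1 ≤ S.th i) ∧
  (∀ a b, S.cv a = S.cv b → a = b) ∧
  (∀ a b, S.IsRoot a → S.IsRoot b → S.IsRoot (b - S.bf a b • a)) ∧ (∀ i, S.IsRoot (om i))

/-- the value of a coroot -/
def evF (a : Fin n → ℤ) (m : ℤ) : (Option (Fin n) → ℤ) →+ ℤ where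
  toFun x := dot a (fp x) + m * x none
  map_zero' := by
    have h : fp (0 : Option (Fin n) → ℤ) = (0 : ℤ) • (0 : Fin n → ℤ) := by
      rw [zero_smul]
      rfl
    rw [h, dot_smul_right, Pi.zero_apply]
    ring
  map_add' x y := by
    have h : fp (x + y) = fp x + fp y := rfl
    rw [h, dot_add_right, Pi.add_apply]
    ring

theorem evF_apply (a : Fin n → ℤ) (m : ℤ) (x : Option (Fin n) → ℤ) :
    evF a m x = dot a (fp x) + m * x none := rfl

theorem evF_refl (a a0 : Fin n → ℤ) (m m0 : ℤ) (x : Option (Fin n) → ℤ) :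
    evF a m (x - evF a0 m0 x • aw 0 (S.cv a0)) =
      evF (a - S.bf a a0 • a0) (m - S.bf a a0 * m0) x := by
  rw [evF_apply a m, evF_apply (a - S.bf a a0 • a0)]
  have h1 : fp (x - evF a0 m0 x • aw 0 (S.cv a0)) = fp x - evF a0 m0 x • S.cv a0 := rfl
  have h2 : (x - evF a0 m0 x • aw 0 (S.cv a0)) none = x none - evF a0 m0 x * 0 := rfl
  rw [h1, h2, dot_sub_right, dot_smul_right, dot_sub_left, dot_smul_left, evF_apply]
  unfold SLC.bf
  ring

theorem evF_neg (a : Fin n → ℤ) (m : ℤ) (x : Option (Fin n) → ℤ) :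
    evF (-a) (-m) x = - evF a m x := by
  rw [evF_apply, evF_apply, dot_neg_left]
  ring

theorem evF_inj {a a' : Fin n → ℤ} {m m' : ℤ} (h : ∀ x, evF a m x = evF a' m' x) :
    a = a' ∧ m = m' := by
  constructor
  · funext i
    have h1 := h (aw 0 (om i))
    rw [evF_apply, evF_apply] at h1
    have h2 : fp (aw 0 (om i) : Option (Fin n) → ℤ) = om i := rfl
    have h3 : (aw 0 (om i) : Option (Fin n) → ℤ) none = 0 := rfl
    rw [h2, h3, dot_om, dot_om] at h1
    linarith
  · have h1 := h (aw 1 ((0 : ℤ) • (0 : Fin n → ℤ)))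
    rw [evF_apply, evF_apply] at h1
    have h2 : fp (aw 1 ((0 : ℤ) • (0 : Fin n → ℤ)) : Option (Fin n) → ℤ) =
      (0 : ℤ) • (0 : Fin n → ℤ) := rfl
    have h3 : (aw 1 ((0 : ℤ) • (0 : Fin n → ℤ)) : Option (Fin n) → ℤ) none = 1 := rfl
    rw [h2, h3, dot_smul_right, dot_smul_right] at h1
    linarith

variable {S}

theorem isRoot_neg {a : Fin n → ℤ} (h : S.IsRoot a) : S.IsRoot (-a) := by
  unfold SLC.IsRoot at *
  rw [bf_neg_left, bf_neg_right, neg_neg]
  exact h

theorem isRoot_th : S.IsRoot S.th := by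
  unfold SLC.IsRoot
  rw [← S.th_root]
  unfold SLC.bf dot SLC.cv
  refine Finset.sum_congr rfl fun i _ => ?_
  rw [Finset.mul_sum]
  exact Finset.sum_congr rfl fun j _ => by ring

theorem root_ne {a : Fin n → ℤ} (h : S.IsRoot a) (h0 : ∀ i, 0 ≤ a i) (h1 : ∀ i, a i ≤ 0) :
    False := by
  have : a = 0 := funext fun i => le_antisymm (h1 i) (h0 i)
  rw [this] at h
  unfold SLC.IsRoot at h
  rw [bf_zero_left] at h
  norm_num at h

theorem not_pos_neg {a : Fin n → ℤ} {m : ℤ} (h : S.Pos a m) : ¬ S.Pos (-a) (-m) := by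
  intro h'
  obtain ⟨r, h1 | ⟨h1, h2⟩⟩ := h
  · rcases h'.2 with h3 | ⟨h3, -⟩ <;> linarith
  · rcases h'.2 with h3 | ⟨-, h3⟩
    · linarith
    · exact root_ne r h2 fun i => by
        have := h3 i
        rw [Pi.neg_apply] at this
        linarith

theorem m_nonneg {a : Fin n → ℤ} {m : ℤ} (h : S.Pos a m) : 0 ≤ m := by
  rcases h.2 with h1 | ⟨h1, -⟩ <;> linarith

/-- the reflected coroot is different from the reflecting one -/
theorem refl_ne {a a0 : Fin n → ℤ} {m m0 : ℤ} (h : S.Pos a m) (h0 : S.Pos a0 m0) :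
    ¬ (a - S.bf a a0 • a0 = a0 ∧ m - S.bf a a0 * m0 = m0) := by
  rintro ⟨h1, h2⟩
  have h3 : S.bf (a - S.bf a a0 • a0) a0 = S.bf a0 a0 := by rw [h1]
  have h4 : S.bf a0 a0 = 2 := h0.1
  rw [bf_sub_left, bf_smul_left, h4] at h3
  have h5 : S.bf a a0 = -2 := by linarith
  rw [h5] at h1 h2
  have h6 : a = - a0 := by
    have : a = a0 + (-2 : ℤ) • a0 := by rw [← sub_eq_iff_eq_add.1 h1]
    rw [this]
    funext i
    simp only [Pi.add_apply, Pi.smul_apply, Pi.neg_apply, smul_eq_mul]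
    ring
  have h7 : m = - m0 := by linarith
  rw [h6, h7] at h
  exact not_pos_neg h0 h

/-- the simple reflections -/
theorem perm_some (hF : Facts S) {a : Fin n → ℤ} {m : ℤ} (h : S.Pos a m) (i : Fin n)
    (hne : ¬ (a = om i ∧ m = 0)) :
    S.Pos (a - S.bf a (om i) • om i) (m - S.bf a (om i) * 0) := by
  obtain ⟨g1, g2, g3, g4, g5, g6, g7, g8, g9, g10⟩ := hF
  have hr : S.IsRoot (a - S.bf a (om i) • om i) := by
    have := g9 (om i) a (g10 i) h.1
    rwa [g1 (om i) a] at this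
  refine ⟨hr, ?_⟩
  rw [mul_zero, sub_zero]
  rcases h.2 with h1 | ⟨h1, h2⟩
  · exact Or.inl h1
  · refine Or.inr ⟨h1, ?_⟩
    rcases g3 _ hr with h3 | h3
    · exact h3
    · exfalso
      have h4 : ∀ k, k ≠ i → a k = 0 := by
        intro k hk
        have h5 := h3 k
        rw [Pi.sub_apply, Pi.smul_apply] at h5
        unfold om at h5
        rw [if_neg hk, smul_zero, sub_zero] at h5
        exact le_antisymm h5 (h2 k)
      have h6 : a = a i • om i := by
        funext k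
        rw [Pi.smul_apply, smul_eq_mul]
        unfold om
        by_cases hk : k = i
        · rw [if_pos hk, hk, mul_one]
        · rw [if_neg hk, h4 k hk, mul_zero]
      have h7 : S.bf a a = 2 := h.1
      have h8 : S.bf (om i) (om i) = 2 := g10 i
      rw [h6, bf_smul_left, bf_smul_right, h8] at h7
      have h9 : a i = 1 := by
        have := h2 i
        nlinarith
      apply hne
      refine ⟨?_, h1⟩
      rw [h6, h9, one_smul]

theorem th_pos {a : Fin n → ℤ} (h : ∀ i, 0 ≤ a i) : 0 ≤ S.bf a S.th := by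
  unfold SLC.bf dot
  exact Finset.sum_nonneg fun i _ => mul_nonneg (h i) (S.th_dom i)

theorem perm_none (hF : Facts S) {a : Fin n → ℤ} {m : ℤ} (h : S.Pos a m)
    (hne : ¬ (a = - S.th ∧ m = 1)) :
    S.Pos (a - S.bf a (-S.th) • (-S.th)) (m - S.bf a (-S.th) * 1) := by
  obtain ⟨g1, g2, g3, g4, g5, g6, g7, g8, g9, g10⟩ := hF
  have hr : S.IsRoot (a - S.bf a (-S.th) • (-S.th)) := by
    have := g9 (-S.th) a (isRoot_neg isRoot_th) h.1
    rwa [g1 (-S.th) a] at this
  refine ⟨hr, ?_⟩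
  have hm := m_nonneg h
  rw [bf_neg_right]
  have e1 : a - (-S.bf a S.th) • (-S.th) = a - S.bf a S.th • S.th := by
    rw [neg_smul_neg]
  rw [e1]
  obtain ⟨k1, k2, k3, k4⟩ := g4 a S.th h.1 isRoot_th
  have hth : ∀ i, 0 ≤ S.th i := fun i => by linarith [g7 i]
  rcases lt_trichotomy (S.bf a S.th) 0 with hb | hb | hb
  · have hb' : S.bf a S.th = -2 ∨ S.bf a S.th = -1 := by omega
    have hm1 : 1 ≤ m := by
      rcases h.2 with h1 | ⟨h1, h2⟩
      · exact h1
      · exfalso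
        have := th_pos (S := S) h2
        linarith
    rcases hb' with hb' | hb'
    · have ha := k4 hb'
      have hm2 : m ≠ 1 := fun h => hne ⟨ha, h⟩
      rw [hb']
      rcases eq_or_ne m 2 with h3 | h3
      · refine Or.inr ⟨by rw [h3]; norm_num, fun i => ?_⟩
        rw [ha]
        simp only [Pi.sub_apply, Pi.smul_apply, Pi.neg_apply, smul_eq_mul]
        linarith [hth i]
      · left
        omega
    · rw [hb']
      rcases eq_or_ne m 1 with h3 | h3
      · refine Or.inr ⟨by rw [h3]; norm_num, fun i => ?_⟩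
        have h4 := g6 (-a) (isRoot_neg h.1) i
        simp only [Pi.sub_apply, Pi.smul_apply, Pi.neg_apply, smul_eq_mul] at h4 ⊢
        linarith
      · left
        omega
  · rw [hb, zero_smul, sub_zero, neg_zero, zero_mul, sub_zero]
    exact h.2
  · left
    linarith

theorem dich_aux (hF : Facts S) {a a' : Fin n → ℤ} {m m' : ℤ} (h : S.Pos a m)
    (h' : S.Pos a' m') :
    S.Pos (a' - S.bf a' a • a) (m' - S.bf a' a * m) ∨
      (0 < S.bf a' a ∧ S.Pos (-(a' - S.bf a' a • a)) (-(m' - S.bf a' a * m))) := by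
  obtain ⟨g1, g2, g3, g4, g5, g6, g7, g8, g9, g10⟩ := hF
  have hr : S.IsRoot (a' - S.bf a' a • a) := by
    have := g9 a a' h.1 h'.1
    rwa [g1 a a'] at this
  by_cases hp : S.Pos (a' - S.bf a' a • a) (m' - S.bf a' a * m)
  · exact Or.inl hp
  right
  have hm := m_nonneg h
  have hm' := m_nonneg h'
  have hnot1 : ¬ 1 ≤ m' - S.bf a' a * m := fun h1 => hp ⟨hr, Or.inl h1⟩
  have hnot2 : ¬ (m' - S.bf a' a * m = 0 ∧ ∀ i, 0 ≤ (a' - S.bf a' a • a) i) :=
    fun h1 => hp ⟨hr, Or.inr h1⟩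
  constructor
  · by_contra hb
    push Not at hb
    have h1 : S.bf a' a * m ≤ 0 := mul_nonpos_of_nonpos_of_nonneg hb hm
    have h2 : m' = 0 := by omega
    have h3 : S.bf a' a * m = 0 := by omega
    apply hnot2
    refine ⟨by rw [h2, h3]; norm_num, fun i => ?_⟩
    have h4 : ∀ i, 0 ≤ a' i := by
      rcases h'.2 with h5 | ⟨-, h5⟩
      · omega
      · exact h5
    rw [Pi.sub_apply, Pi.smul_apply, smul_eq_mul]
    rcases mul_eq_zero.1 h3 with h5 | h5
    · rw [h5, zero_mul, sub_zero]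
      exact h4 i
    · have h6 : ∀ i, 0 ≤ a i := by
        rcases h.2 with h7 | ⟨-, h7⟩
        · omega
        · exact h7
      have := mul_nonpos_of_nonpos_of_nonneg hb (h6 i)
      linarith [h4 i]
  · refine ⟨isRoot_neg hr, ?_⟩
    rcases lt_or_eq_of_le (show m' - S.bf a' a * m ≤ 0 by omega) with h1 | h1
    · left
      omega
    · right
      refine ⟨by rw [h1]; norm_num, fun i => ?_⟩
      rcases g3 _ hr with h2 | h2
      · exact absurd ⟨h1, h2⟩ hnot2
      · rw [Pi.neg_apply]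
        linarith [h2 i]

theorem pos_om (hF : Facts S) (i : Fin n) : S.Pos (om i) 0 := by
  refine ⟨hF.2.2.2.2.2.2.2.2.2 i, Or.inr ⟨rfl, fun k => ?_⟩⟩
  unfold om
  split_ifs <;> norm_num

theorem pos_th : S.Pos (-S.th) 1 := ⟨isRoot_neg isRoot_th, Or.inl le_rfl⟩

/-- the coroots -/
def simP (hF : Facts S) : Option (Fin n) → {p : (Fin n → ℤ) × ℤ // S.Pos p.1 p.2}
  | none => ⟨(-S.th, 1), pos_th⟩
  | some i => ⟨(om i, 0), pos_om hF i⟩

theorem perm_aux (hF : Facts S) (j : Option (Fin n))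
    (b : {p : (Fin n → ℤ) × ℤ // S.Pos p.1 p.2}) (hb : b ≠ simP hF j) :
    S.Pos (b.1.1 - S.bf b.1.1 (simP hF j).1.1 • (simP hF j).1.1)
      (b.1.2 - S.bf b.1.1 (simP hF j).1.1 * (simP hF j).1.2) := by
  cases j with
  | none =>
    exact perm_none hF b.2 fun h => hb (Subtype.ext (Prod.ext h.1 h.2))
  | some i =>
    exact perm_some hF b.2 i fun h => hb (Subtype.ext (Prod.ext h.1 h.2))

/-- the reflection datum -/
def datum (hF : Facts S) : RDat (Option (Fin n)) (Option (Fin n)) where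
  R := {p : (Fin n → ℤ) × ℤ // S.Pos p.1 p.2}
  ev b := evF b.1.1 b.1.2
  rt b := aw 0 (S.cv b.1.1)
  sim := simP hF
  ev_rt b := by
    rw [evF_apply]
    have h1 : fp (aw 0 (S.cv b.1.1) : Option (Fin n) → ℤ) = S.cv b.1.1 := rfl
    have h2 : (aw 0 (S.cv b.1.1) : Option (Fin n) → ℤ) none = 0 := rfl
    rw [h1, h2, mul_zero, add_zero]
    exact b.2.1
  inj b c h := by
    obtain ⟨h1, h2⟩ := evF_inj h
    exact Subtype.ext (Prod.ext h1 h2)
  pos b c h := by
    have h1 : ∀ x, evF b.1.1 b.1.2 x = evF (-c.1.1) (-c.1.2) x := fun x => by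
      rw [evF_neg]
      exact h x
    obtain ⟨h2, h3⟩ := evF_inj h1
    have h4 := b.2
    rw [h2, h3] at h4
    exact not_pos_neg c.2 h4
  perm j b hb := by
    refine ⟨⟨(b.1.1 - S.bf b.1.1 (simP hF j).1.1 • (simP hF j).1.1,
      b.1.2 - S.bf b.1.1 (simP hF j).1.1 * (simP hF j).1.2), perm_aux hF j b hb⟩, ?_, ?_, ?_⟩
    · intro h
      have h1 := congrArg Subtype.val h
      exact refl_ne b.2 (simP hF j).2 ⟨congrArg Prod.fst h1, congrArg Prod.snd h1⟩
    · intro x
      exact (evF_refl S _ _ _ _ x).symm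
    · show aw 0 (S.cv (b.1.1 - S.bf b.1.1 (simP hF j).1.1 • (simP hF j).1.1)) =
        aw 0 (S.cv b.1.1) - evF (simP hF j).1.1 (simP hF j).1.2 (aw 0 (S.cv b.1.1)) •
          aw 0 (S.cv (simP hF j).1.1)
      have h1 : evF (simP hF j).1.1 (simP hF j).1.2 (aw 0 (S.cv b.1.1)) =
          S.bf b.1.1 (simP hF j).1.1 := by
        rw [evF_apply, hF.1]
        show dot _ (S.cv b.1.1) + _ * 0 = _
        rw [mul_zero, add_zero]
        rfl
      rw [h1, cv_sub, cv_smul]
      funext o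
      cases o with
      | none =>
        show (0 : ℤ) = 0 - S.bf b.1.1 (simP hF j).1.1 * 0
        ring
      | some i => rfl
  dich b c := by
    rcases dich_aux hF b.2 c.2 with h | ⟨h0, h⟩
    · exact Or.inl ⟨⟨(_, _), h⟩, fun x => (evF_refl S _ _ _ _ x).symm⟩
    · refine Or.inr ⟨?_, ⟨⟨(_, _), h⟩, fun x => ?_⟩⟩
      · show 0 < evF c.1.1 c.1.2 (aw 0 (S.cv b.1.1))
        rw [evF_apply]
        show 0 < dot _ (S.cv b.1.1) + _ * 0
        rw [mul_zero, add_zero]
        exact h0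
      · show evF _ _ x = _
        rw [evF_neg, ← evF_refl S]
  T := {x | 1 ≤ x none}
  T_refl x hx b := by
    show 1 ≤ x none - evF b.1.1 b.1.2 x * 0
    rw [mul_zero, sub_zero]
    exact hx
  fin x hx := by
    have hfin : (⋃ a ∈ {a | S.IsRoot a}, ({a} : Set (Fin n → ℤ)) ×ˢ Set.Icc (0 : ℤ) (-dot a (fp x))).Finite :=
      Set.Finite.biUnion hF.2.2.2.2.1 fun a _ =>
        (Set.finite_singleton a).prod (Set.finite_Icc _ _)
    refine Set.Finite.subset (hfin.preimage (Subtype.val_injective.injOn)) fun b hb => ?_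
    have hb' : dot b.1.1 (fp x) + b.1.2 * x none < 0 := hb
    have hx' : 1 ≤ x none := hx
    have hm := m_nonneg b.2
    rw [Set.mem_preimage, Set.mem_iUnion₂]
    refine ⟨b.1.1, b.2.1, Set.mk_mem_prod rfl ⟨hm, ?_⟩⟩
    nlinarith

end

theorem main : SLC.C_facts → SLC.C_dat := by
  intro hfacts n S
  have hF : Facts S := hfacts n S
  refine ⟨datum hF, ?_⟩
  refine ⟨?_, ?_, ?_, ?_, ?_, ?_, rfl⟩
  · intro b
    exact ⟨b.1.1, b.1.2, b.2, fun x => rfl, rfl⟩
  · intro a m h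
    exact ⟨⟨(a, m), h⟩, fun x => rfl, rfl⟩
  · intro j x
    show dot (om j) (fp x) + 0 * x none = x (some j)
    rw [dot_comm, dot_om, zero_mul, add_zero]
    rfl
  · intro x
    show dot (-S.th) (fp x) + 1 * x none = _
    rw [dot_neg_left]
    ring
  · intro j
    show aw 0 (S.cv (om j)) = _
    rw [cv_om]
  · show aw 0 (S.cv (-S.th)) = _
    rw [cv_neg]
    rfl

end H391.KR.P_cdat
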