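import Pool.Agent.H391.KR.PC

/-!
# Elementary facts on simply laced root systems
-/

noncomputable section

namespace H391.KR.P_cfacts

open Finset H391.KR

variable {n : ℕ} (S : SLC n)

lemma cv_add (a b : Fin n → ℤ) : S.cv (a + b) = S.cv a + S.cv b := by
  funext i
  simp [SLC.cv, mul_add, sum_add_distrib]

lemma cv_smul (c : ℤ) (a : Fin n → ℤ) : S.cv (c • a) = c • S.cv a := by
  funext i
  simp only [SLC.cv, Pi.smul_apply, smul_eq_mul, mul_sum]
  exact sum_congr rfl fun j _ => by ring

lemma cv_neg (a : Fin n → ℤ) : S.cv (-a) = - S.cv a := by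
  funext i
  simp [SLC.cv]

lemma cv_sub (a b : Fin n → ℤ) : S.cv (a - b) = S.cv a - S.cv b := by
  rw [sub_eq_add_neg, cv_add, cv_neg, ← sub_eq_add_neg]

lemma dot_add_left (a b mu : Fin n → ℤ) : dot (a + b) mu = dot a mu + dot b mu := by
  simp [dot, add_mul, sum_add_distrib]

lemma dot_add_right (a mu nu : Fin n → ℤ) : dot a (mu + nu) = dot a mu + dot a nu := by
  simp [dot, mul_add, sum_add_distrib]

lemma dot_smul_left (c : ℤ) (a mu : Fin n → ℤ) : dot (c • a) mu = c * dot a mu := by
  simp only [dot, Pi.smul_apply, smul_eq_mul, mul_sum]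
  exact sum_congr rfl fun j _ => by ring

lemma dot_smul_right (c : ℤ) (a mu : Fin n → ℤ) : dot a (c • mu) = c * dot a mu := by
  simp only [dot, Pi.smul_apply, smul_eq_mul, mul_sum]
  exact sum_congr rfl fun j _ => by ring

lemma bf_eq (a b : Fin n → ℤ) : S.bf a b = ∑ i, ∑ j, a i * S.C i j * b j := by
  simp only [SLC.bf, dot, SLC.cv, mul_sum]
  exact sum_congr rfl fun i _ => sum_congr rfl fun j _ => by ring

lemma bf_symm (a b : Fin n → ℤ) : S.bf a b = S.bf b a := by
  rw [bf_eq, bf_eq, sum_comm]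
  exact sum_congr rfl fun i _ => sum_congr rfl fun j _ => by rw [S.symm]; ring

lemma bf_add_left (a b c : Fin n → ℤ) : S.bf (a + b) c = S.bf a c + S.bf b c :=
  dot_add_left a b _

lemma bf_add_right (a b c : Fin n → ℤ) : S.bf a (b + c) = S.bf a b + S.bf a c := by
  rw [SLC.bf, cv_add, dot_add_right]; rfl

lemma bf_smul_left (c : ℤ) (a b : Fin n → ℤ) : S.bf (c • a) b = c * S.bf a b :=
  dot_smul_left c a _

lemma bf_smul_right (c : ℤ) (a b : Fin n → ℤ) : S.bf a (c • b) = c * S.bf a b := by
  rw [SLC.bf, cv_smul, dot_smul_right]; rfl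

lemma bf_neg_left (a b : Fin n → ℤ) : S.bf (-a) b = - S.bf a b := by
  have h := bf_smul_left S (-1) a b
  rw [neg_smul, one_smul] at h
  rw [h]; ring

lemma bf_neg_right (a b : Fin n → ℤ) : S.bf a (-b) = - S.bf a b := by
  have h := bf_smul_right S (-1) a b
  rw [neg_smul, one_smul] at h
  rw [h]; ring

lemma bf_sub_left (a b c : Fin n → ℤ) : S.bf (a - b) c = S.bf a c - S.bf b c := by
  rw [sub_eq_add_neg, bf_add_left, bf_neg_left, ← sub_eq_add_neg]

lemma bf_sub_right (a b c : Fin n → ℤ) : S.bf a (b - c) = S.bf a b - S.bf a c := by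
  rw [sub_eq_add_neg, bf_add_right, bf_neg_right, ← sub_eq_add_neg]

lemma q_add (a b : Fin n → ℤ) :
    S.bf (a + b) (a + b) = S.bf a a + 2 * S.bf a b + S.bf b b := by
  rw [bf_add_left, bf_add_right, bf_add_right, bf_symm S b a]; ring

lemma q_sub (a b : Fin n → ℤ) :
    S.bf (a - b) (a - b) = S.bf a a - 2 * S.bf a b + S.bf b b := by
  rw [bf_sub_left, bf_sub_right, bf_sub_right, bf_symm S b a]; ring

lemma bf_om (i : Fin n) (b : Fin n → ℤ) : S.bf (om i) b = S.cv b i := by
  simp only [SLC.bf, dot, om]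
  rw [sum_eq_single i]
  · simp
  · intro j _ hj
    simp [hj]
  · intro h
    exact absurd (mem_univ _) h

lemma cv_om (i j : Fin n) : S.cv (om i) j = S.C j i := by
  simp only [SLC.cv, om]
  rw [sum_eq_single i]
  · simp
  · intro k _ hk
    simp [hk]
  · intro h
    exact absurd (mem_univ _) h

lemma root_om (i : Fin n) : S.IsRoot (om i) := by
  rw [SLC.IsRoot, bf_om, cv_om, S.diag]

lemma even_q (a : Fin n → ℤ) : Even (S.bf a a) := by
  have h1 : a = ∑ i, a i • om i := by
    funext j
    rw [Finset.sum_apply, sum_eq_single j]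
    · simp [om]
    · intro k _ hk
      simp [om, hk.symm]
    · intro h
      exact absurd (mem_univ _) h
  rw [h1]
  refine Finset.sum_induction (fun i => a i • om i) (fun b => Even (S.bf b b)) ?_ ?_ ?_
  · intro b c hb hc
    rw [q_add]
    exact (hb.add (even_two_mul _)).add hc
  · rw [show S.bf 0 0 = 0 by simp [bf_eq]]
    exact Even.zero
  · intro i _
    rw [bf_smul_left, bf_smul_right, show S.bf (om i) (om i) = 2 from root_om S i]
    exact ⟨a i * a i, by ring⟩

lemma q_ge (a : Fin n → ℤ) (ha : a ≠ 0) : 2 ≤ S.bf a a := by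
  have h1 := S.pd a ha
  rw [← bf_eq] at h1
  obtain ⟨k, hk⟩ := even_q S a
  omega

lemma q_nonneg (a : Fin n → ℤ) : 0 ≤ S.bf a a := by
  by_cases h : a = 0
  · rw [h]; simp [bf_eq]
  · have := q_ge S a h
    omega

lemma eq_zero_of_q (a : Fin n → ℤ) (h : S.bf a a ≤ 1) : a = 0 := by
  by_contra hne
  have := q_ge S a hne
  omega

lemma off_le {i j : Fin n} (h : i ≠ j) : S.C i j ≤ 0 := by
  rcases S.off i j h with h1 | h1 <;> omega

lemma sign (a : Fin n → ℤ) (ha : S.IsRoot a) : (∀ i, 0 ≤ a i) ∨ ∀ i, a i ≤ 0 := by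
  set p : Fin n → ℤ := fun i => max (a i) 0 with hp
  set m : Fin n → ℤ := fun i => max (-(a i)) 0 with hm
  have h1 : a = p - m := by
    funext i
    show a i = max (a i) 0 - max (-(a i)) 0
    omega
  have h2 : S.bf p m ≤ 0 := by
    rw [bf_eq]
    refine sum_nonpos fun i _ => sum_nonpos fun j _ => ?_
    have hp0 : 0 ≤ p i := le_max_right _ _
    have hm0 : 0 ≤ m j := le_max_right _ _
    by_cases hij : i = j
    · subst hij
      have : p i * m i = 0 := by
        rcases le_total (a i) 0 with h | h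
        · have : p i = 0 := max_eq_right h
          rw [this, zero_mul]
        · have : m i = 0 := max_eq_right (by omega)
          rw [this, mul_zero]
      have h3 : p i * S.C i i * m i = S.C i i * (p i * m i) := by ring
      rw [h3, this, mul_zero]
    · have h3 := off_le S hij
      have h4 := mul_nonneg hp0 hm0
      have h5 : p i * S.C i j * m j = S.C i j * (p i * m j) := by ring
      rw [h5]
      exact mul_nonpos_of_nonpos_of_nonneg h3 h4
  have h3 : S.bf a a = 2 := ha
  rw [h1, q_sub] at h3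
  by_cases hpz : p = 0
  · right
    intro i
    have h4 : max (a i) 0 = 0 := congrFun hpz i
    omega
  · by_cases hmz : m = 0
    · left
      intro i
      have h4 : max (-(a i)) 0 = 0 := congrFun hmz i
      omega
    · have h4 := q_ge S p hpz
      have h5 := q_ge S m hmz
      omega

lemma pairs (a b : Fin n → ℤ) (ha : S.IsRoot a) (hb : S.IsRoot b) :
    -2 ≤ S.bf a b ∧ S.bf a b ≤ 2 ∧ (S.bf a b = 2 → a = b) ∧ (S.bf a b = -2 → a = -b) := by
  have h1 := q_nonneg S (a + b)
  have h2 := q_nonneg S (a - b)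
  have ha' : S.bf a a = 2 := ha
  have hb' : S.bf b b = 2 := hb
  rw [q_add] at h1
  rw [q_sub] at h2
  refine ⟨by omega, by omega, fun h => ?_, fun h => ?_⟩
  · apply sub_eq_zero.1
    apply eq_zero_of_q S
    rw [q_sub]
    omega
  · apply eq_neg_of_add_eq_zero_left
    apply eq_zero_of_q S
    rw [q_add]
    omega

lemma cv_inj (a b : Fin n → ℤ) (h : S.cv a = S.cv b) : a = b := by
  apply sub_eq_zero.1
  apply eq_zero_of_q S
  rw [SLC.bf, cv_sub, h, sub_self]
  simp [dot]

lemma finite_roots : {a | S.IsRoot a}.Finite := by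
  have h1 : {a | S.IsRoot a} ⊆ S.cv ⁻¹' (Set.Icc (fun _ => (-2 : ℤ)) (fun _ => 2)) := by
    intro a ha
    have h2 : ∀ i, -2 ≤ S.cv a i ∧ S.cv a i ≤ 2 := by
      intro i
      have h3 := pairs S (om i) a (root_om S i) ha
      rw [bf_om] at h3
      exact ⟨h3.1, h3.2.1⟩
    exact ⟨fun i => (h2 i).1, fun i => (h2 i).2⟩
  refine Set.Finite.subset (Set.Finite.preimage ?_ (Set.finite_Icc _ _)) h1
  exact fun a _ b _ h => cv_inj S a b h

lemma refl_root (a b : Fin n → ℤ) (ha : S.IsRoot a) (hb : S.IsRoot b) :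
    S.IsRoot (b - S.bf a b • a) := by
  have ha' : S.bf a a = 2 := ha
  have hb' : S.bf b b = 2 := hb
  show S.bf _ _ = 2
  rw [q_sub, bf_smul_left, bf_smul_right, bf_smul_right, bf_symm S b a, ha', hb']
  ring

lemma dot_nonneg {a mu : Fin n → ℤ} (ha : ∀ i, 0 ≤ a i) (hmu : ∀ i, 0 ≤ mu i) : 0 ≤ dot a mu :=
  sum_nonneg fun i _ => mul_nonneg (ha i) (hmu i)

lemma root_ne_zero {a : Fin n → ℤ} (ha : S.IsRoot a) : a ≠ 0 := by
  rintro rfl
  have h1 : S.bf 0 0 = 2 := ha
  rw [show S.bf 0 0 = 0 by simp [bf_eq]] at h1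
  omega

/-- a dominant root is nonnegative -/
lemma dom_nonneg {t : Fin n → ℤ} (ht : S.IsRoot t) (hd : ∀ i, 0 ≤ S.cv t i) : ∀ i, 0 ≤ t i := by
  rcases sign S t ht with h | h
  · exact h
  · exfalso
    have h1 : S.bf t t = 2 := ht
    have h2 : ∑ i, t i * S.cv t i ≤ 0 :=
      sum_nonpos fun i _ => mul_nonpos_of_nonpos_of_nonneg (h i) (hd i)
    have h3 : S.bf t t ≤ 0 := h2
    omega

/-- a dominant root has full support -/
lemma dom_pos {t : Fin n → ℤ} (ht : S.IsRoot t) (hd : ∀ i, 0 ≤ S.cv t i) : ∀ i, 1 ≤ t i := by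
  have h0 := dom_nonneg S ht hd
  intro i
  by_contra hcon
  have hi : t i = 0 := by have := h0 i; omega
  have hall := S.conn {k | t k = 0} ⟨i, hi⟩ (by
    intro k hk j hkj
    have hk' : t k = 0 := hk
    show t j = 0
    by_cases hjk : j = k
    · rw [hjk]; exact hk'
    · have h1 : ∀ l ∈ (univ : Finset (Fin n)), S.C k l * t l ≤ 0 := by
        intro l _
        by_cases hl : k = l
        · rw [← hl, hk', mul_zero]
        · exact mul_nonpos_of_nonpos_of_nonneg (off_le S hl) (h0 l)
      have h2 : ∑ l, S.C k l * t l = 0 := le_antisymm (sum_nonpos h1) (hd k)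
      have h3 : S.C k j * t j = 0 := (sum_eq_zero_iff_of_nonpos h1).1 h2 j (mem_univ _)
      rcases mul_eq_zero.1 h3 with h4 | h4
      · exact absurd h4 hkj
      · exact h4)
  apply root_ne_zero S ht
  funext j
  exact hall j

lemma root_th : S.IsRoot S.th := by
  show S.bf _ _ = 2
  rw [bf_eq]
  exact S.th_root

/-- the highest root is the only dominant root -/
lemma dom_eq_th {t : Fin n → ℤ} (ht : S.IsRoot t) (hd : ∀ i, 0 ≤ S.cv t i) : t = S.th := by
  have h1 := dom_pos S ht hd
  have hth : ∀ i, 0 ≤ S.cv S.th i := S.th_dom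
  have h2 : 0 < S.bf t S.th := by
    have h3 : 0 ≤ S.bf t S.th := dot_nonneg (fun i => by have := h1 i; omega) hth
    rcases h3.lt_or_eq with h4 | h4
    · exact h4
    · exfalso
      have h45 : ∑ i, t i * S.cv S.th i = 0 := h4.symm
      have h5 := (sum_eq_zero_iff_of_nonneg (fun i _ => mul_nonneg
        (show 0 ≤ t i by have := h1 i; omega) (hth i))).1 h45
      have h6 : S.cv S.th = 0 := by
        funext i
        rcases mul_eq_zero.1 (h5 i (mem_univ _)) with h7 | h7
        · have := h1 i; omega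
        · exact h7
      have h7 : S.bf S.th S.th = 2 := root_th S
      rw [SLC.bf, h6] at h7
      simp [dot] at h7
  have hp := pairs S t S.th ht (root_th S)
  have ht' : S.bf t t = 2 := ht
  have hth' : S.bf S.th S.th = 2 := root_th S
  by_cases h3 : S.bf t S.th = 2
  · exact hp.2.2.1 h3
  · exfalso
    have h4 : S.bf t S.th = 1 := by omega
    have h5 : S.IsRoot (t - S.th) := by
      show S.bf _ _ = 2
      rw [q_sub]
      omega
    rcases sign S _ h5 with h6 | h6
    · have h7 : 0 ≤ S.bf (t - S.th) S.th := dot_nonneg h6 hth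
      rw [bf_sub_left] at h7
      omega
    · have h7 : 0 ≤ S.bf (S.th - t) t := dot_nonneg (fun i => by
        have := h6 i
        simp only [Pi.sub_apply] at this ⊢
        omega) hd
      rw [bf_sub_left, bf_symm S S.th t] at h7
      omega

lemma le_th (a : Fin n → ℤ) (ha : S.IsRoot a) : ∀ i, a i ≤ S.th i := by
  obtain ⟨t, hat, ht⟩ := (finite_roots S).exists_le_maximal ha
  have htr : S.IsRoot t := ht.prop
  have hd : ∀ i, 0 ≤ S.cv t i := by
    intro i
    by_contra hcon
    have h1 := refl_root S (om i) t (root_om S i) htr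
    rw [bf_om] at h1
    have h2 : t ≤ t - S.cv t i • om i := by
      intro j
      simp only [Pi.sub_apply, Pi.smul_apply, smul_eq_mul, om]
      split_ifs <;> omega
    have h3 := ht.le_of_ge h1 h2 i
    simp only [Pi.sub_apply, Pi.smul_apply, smul_eq_mul, om, if_true] at h3
    omega
  rw [← dom_eq_th S htr hd]
  exact hat

theorem main : SLC.C_facts := fun n S =>
  ⟨bf_symm S, q_ge S, sign S, pairs S, finite_roots S, le_th S, dom_pos S (root_th S) S.th_dom,
    cv_inj S, refl_root S, root_om S⟩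

end H391.KR.P_cfacts
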