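import Pool.Agent.H391.KR.PM

/-!
# Chains of covers and a simple reflection
-/

noncomputable section

namespace H391.KR.P_chain

open H391.KR H391.KR.RDat

theorem main : RDat.S_len → RDat.S_cov → RDat.S_cong → RDat.S_chain := by
  intro hlen hcov hcong ι I D M l x y hx hxy j
  -- facts on a point of the chain
  have memT : ∀ z, D.Rel M l x z → z ∈ D.T := fun z hz => (hcong ι I D M l x z hx hz).1
  have dvd : ∀ u v, u ∈ D.T → D.Rel M l u v → (M : ℤ) ∣ (l : ℤ) * (D.co j u - D.co j v) :=
    fun u v hu huv => (hcong ι I D M l u v hu huv).2.2.2.2.1 (D.sim j)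
  have stepT : ∀ u v, u ∈ D.T → D.Step M l u v → v ∈ D.T :=
    fun u v hu huv => (hcong ι I D M l u v hu (Relation.ReflTransGen.single huv)).1
  have mulsub : ∀ p q : ℤ, (M : ℤ) ∣ (l : ℤ) * (p - q) → (M : ℤ) ∣ (l : ℤ) * q →
      (M : ℤ) ∣ (l : ℤ) * p := by
    intro p q h1 h2
    have h3 := dvd_add h1 h2
    have e : (l : ℤ) * (p - q) + (l : ℤ) * q = (l : ℤ) * p := by ring
    rwa [e] at h3
  have mulsub2 : ∀ p q : ℤ, (M : ℤ) ∣ (l : ℤ) * (p - q) → (M : ℤ) ∣ (l : ℤ) * p →
      (M : ℤ) ∣ (l : ℤ) * q := by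
    intro p q h1 h2
    have h3 := dvd_sub h2 h1
    have e : (l : ℤ) * p - (l : ℤ) * (p - q) = (l : ℤ) * q := by ring
    rwa [e] at h3
  obtain ⟨L1, L2, _, L4, L5, L6⟩ := hlen ι I D x hx j
  refine ⟨?_, ?_, ?_, ?_, ?_, ?_⟩
  · -- (1)
    intro h1 h2
    have key : ∀ u, D.Rel M l u y → u ∈ D.T → D.co j u < 0 →
        D.Rel M l (D.s j u) y ∧ (M : ℤ) ∣ (l : ℤ) * D.co j u := by
      intro u hu
      refine Relation.ReflTransGen.head_induction_on
        (motive := fun u _ => u ∈ D.T → D.co j u < 0 →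
          D.Rel M l (D.s j u) y ∧ (M : ℤ) ∣ (l : ℤ) * D.co j u) hu ?_ ?_
      · intro _ h3
        exact absurd h3 (not_lt.mpr h2)
      · intro a c hac hcy ih haT ha
        have hcT := stepT a c haT hac
        rcases hcov ι I D M l a c haT hac j with ⟨e1, _, e3⟩ | ⟨e1, _, e3, _⟩
        · refine ⟨?_, e3⟩
          rw [← e1]
          exact hcy
        · obtain ⟨k1, k2⟩ := ih hcT (e1 ha)
          refine ⟨Relation.ReflTransGen.head (e3 ha) k1, ?_⟩
          exact mulsub _ _ (dvd a c haT (Relation.ReflTransGen.single hac)) k2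
    exact key x hxy hx h1
  · -- (2)
    intro h1 h2
    have key : ∀ v, D.Rel M l x v → 0 < D.co j v →
        D.Rel M l x (D.s j v) ∧ (M : ℤ) ∣ (l : ℤ) * D.co j v := by
      intro v hv
      induction hv with
      | refl => intro h3; exact absurd h3 (not_lt.mpr h1)
      | @tail b c hb hbc ih =>
        intro h3
        have hbT := memT b hb
        obtain ⟨_, _, _, _, M5, M6⟩ := hlen ι I D b hbT j
        rcases hcov ι I D M l b c hbT hbc j with ⟨e1, _, e3⟩ | ⟨_, e2, _, e4⟩
        · rw [e1, M6, M5]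
          refine ⟨hb, ?_⟩
          rw [mul_neg]
          exact (dvd_neg).mpr e3
        · obtain ⟨k1, k2⟩ := ih (e2 h3)
          refine ⟨Relation.ReflTransGen.tail k1 (e4 h3), ?_⟩
          exact mulsub2 _ _ (dvd b c hbT (Relation.ReflTransGen.single hbc)) k2
    exact key y hxy h2
  · -- (3)
    intro h0 _ h2
    have key : ∀ v, D.Rel M l x v → 0 < D.co j v → D.Rel M l (D.s j x) (D.s j v) := by
      intro v hv
      induction hv with
      | refl => intro _; exact Relation.ReflTransGen.refl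
      | @tail b c hb hbc ih =>
        intro h3
        have hbT := memT b hb
        rcases hcov ι I D M l b c hbT hbc j with ⟨_, _, e3⟩ | ⟨_, e2, _, e4⟩
        · exact absurd (mulsub _ _ (dvd x b hx hb) e3) h0
        · exact Relation.ReflTransGen.tail (ih (e2 h3)) (e4 h3)
    exact key y hxy h2
  · -- (4)
    intro h0 h1
    have key : ∀ v, D.Rel M l x v → D.co j v < 0 ∧ D.Rel M l (D.s j x) (D.s j v) := by
      intro v hv
      induction hv with
      | refl => exact ⟨h1, Relation.ReflTransGen.refl⟩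
      | @tail b c hb hbc ih =>
        have hbT := memT b hb
        rcases hcov ι I D M l b c hbT hbc j with ⟨_, _, e3⟩ | ⟨e1, _, e3, _⟩
        · exact absurd (mulsub _ _ (dvd x b hx hb) e3) h0
        · exact ⟨e1 ih.1, Relation.ReflTransGen.tail ih.2 (e3 ih.1)⟩
    exact key y hxy
  · -- (5)
    intro h1 h2
    exact ⟨D.sim j, h1, rfl, L1 h1, h2⟩
  · -- (6)
    intro h1 h2
    have e : D.ev (D.sim j) (D.s j x) = - D.co j x := L5
    refine ⟨D.sim j, ?_, ?_, (L2 h1).symm, ?_⟩
    · rw [e]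
      linarith
    · exact L6.symm
    · rw [e, mul_neg]
      exact (dvd_neg).mpr h2

end H391.KR.P_chain
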