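import Pool.Agent.H391.KR.PC

/-!
# KR-chd : dominant coroots and invariance under the affine reflection at level zero
-/

noncomputable section

namespace H391.KR.P_chd

open Finset H391.KR

variable {n : ℕ} (S : SLC n)

theorem dot_nonneg {a u : Fin n → ℤ} (ha : ∀ i, 0 ≤ a i) (hu : ∀ i, 0 ≤ u i) :
    0 ≤ dot a u := Finset.sum_nonneg fun i _ => mul_nonneg (ha i) (hu i)

theorem dot_mono {a b u : Fin n → ℤ} (h : ∀ i, a i ≤ b i) (hu : ∀ i, 0 ≤ u i) :
    dot a u ≤ dot b u :=
  Finset.sum_le_sum fun i _ => mul_le_mul_of_nonneg_right (h i) (hu i)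

theorem dot_neg_left (a u : Fin n → ℤ) : dot (-a) u = - dot a u := by
  simp [dot, Finset.sum_neg_distrib]

theorem dot_add_left (a b u : Fin n → ℤ) : dot (a + b) u = dot a u + dot b u := by
  simp [dot, add_mul, Finset.sum_add_distrib]

theorem dot_add_right (a u v : Fin n → ℤ) : dot a (u + v) = dot a u + dot a v := by
  simp [dot, mul_add, Finset.sum_add_distrib]

theorem dot_smul_right (a u : Fin n → ℤ) (c : ℤ) : dot a (c • u) = c * dot a u := by
  simp only [dot, Pi.smul_apply, smul_eq_mul, Finset.mul_sum]
  exact Finset.sum_congr rfl fun i _ => by ring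

theorem dot_sub_smul (a u v : Fin n → ℤ) (c : ℤ) :
    dot a (u - c • v) = dot a u - c * dot a v := by
  have : u - c • v = u + (-c) • v := by module
  rw [this, dot_add_right, dot_smul_right]; ring

theorem fp_sub_smul (x : Option (Fin n) → ℤ) (c : ℤ) (v : Fin n → ℤ) (l : ℤ) :
    fp (x - c • aw l v) = fp x - c • v := by
  funext i; simp [fp, aw]

theorem cv_add (a b : Fin n → ℤ) : S.cv (a + b) = S.cv a + S.cv b := by
  funext i; simp [SLC.cv, mul_add, Finset.sum_add_distrib]

theorem aw_add (u v : Fin n → ℤ) : aw 0 (u + v) = aw 0 u + aw 0 v := by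
  funext o; cases o <;> simp [aw]

theorem dot_one (a : Fin n → ℤ) : dot a (fun _ => 1) = ∑ i, a i := by simp [dot]

theorem isRoot_neg {a : Fin n → ℤ} (h : S.IsRoot a) : S.IsRoot (-a) := by
  have h1 : S.cv (-a) = - S.cv a := by funext i; simp [SLC.cv, Finset.sum_neg_distrib]
  unfold SLC.IsRoot SLC.bf at *
  rw [h1, dot_neg_left]
  have : dot a (- S.cv a) = - dot a (S.cv a) := by simp [dot, Finset.sum_neg_distrib]
  rw [this]; linarith

theorem root_ne_zero {a : Fin n → ℤ} (h : S.IsRoot a) : a ≠ 0 := by
  rintro rfl
  unfold SLC.IsRoot SLC.bf at h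
  simp [dot] at h

theorem chd (hF : SLC.C_facts) : SLC.C_hd := by
  intro n S D hD
  obtain ⟨hsymm, h2, hsign, hpair, hfin, hle, hth, hinj, hrefl, hom⟩ := hF n S
  have hlow : ∀ a, S.IsRoot a → ∀ i, (-S.th) i ≤ a i := by
    intro a ha i
    have := hle (-a) (isRoot_neg S ha) i
    simp only [Pi.neg_apply] at *
    linarith
  have hthn : ∀ i, 0 ≤ S.th i := fun i => by have := hth i; linarith
  have hsum : 0 ≤ ∑ i, S.th i := Finset.sum_nonneg fun i _ => hthn i
  refine ⟨?_, ?_, ?_, ?_⟩
  · intro x hx b
    obtain ⟨a, m, ⟨ha, hm⟩, hev, -⟩ := hD.ev b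
    have hu : ∀ i, 0 ≤ fp x i := by
      intro i
      have := hx (some i)
      rw [hD.cof] at this
      exact this
    have h0 := hx none
    rw [hD.co0] at h0
    have hd : 0 ≤ dot S.th (fp x) := dot_nonneg hthn hu
    rw [hev]
    rcases hm with hm | ⟨rfl, hpos⟩
    · have h3 := dot_mono (hlow a ha) hu
      rw [dot_neg_left] at h3
      nlinarith
    · have := dot_nonneg hpos hu
      simpa using this
  · intro j
    cases j with
    | none => rw [hD.co0]; show (1 + ∑ i, S.th i) - dot S.th (fun _ => 1) = 1
              rw [dot_one]; ring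
    | some j => rw [hD.cof]; rfl
  · intro b
    obtain ⟨a, m, ⟨ha, hm⟩, hev, -⟩ := hD.ev b
    rw [hev]
    show 1 ≤ dot a (fun _ => 1) + m * (1 + ∑ i, S.th i)
    rcases hm with hm | ⟨rfl, hpos⟩
    · have h3 := dot_mono (u := fun _ => 1) (hlow a ha) (fun _ => zero_le_one)
      rw [dot_neg_left, dot_one, dot_one] at h3
      rw [dot_one]
      nlinarith
    · rw [dot_one]
      have hne := root_ne_zero S ha
      have : 0 < ∑ i, a i := by
        rcases (Finset.sum_nonneg fun i (_ : i ∈ Finset.univ) => hpos i).lt_or_eq with h | h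
        · exact h
        · exfalso
          apply hne
          funext i
          exact (Finset.sum_eq_zero_iff_of_nonneg fun i _ => hpos i).mp h.symm i
            (Finset.mem_univ i)
      linarith
  · rw [hD.T]
    show 1 ≤ 1 + ∑ i, S.th i
    linarith

/-- reflection in the finite root `a` -/
def sa (a : Fin n → ℤ) (x : Option (Fin n) → ℤ) : Option (Fin n) → ℤ :=
  x - dot a (fp x) • aw 0 (S.cv a)

theorem cv_om (i : Fin n) : S.cv (om i) = fun j => S.C j i := by
  funext j
  simp only [SLC.cv, om]
  simp

theorem dot_om (i : Fin n) (u : Fin n → ℤ) : dot (om i) u = u i := by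
  simp [dot, om]

theorem s_eq {D : RDat (Option (Fin n)) (Option (Fin n))} (hD : S.AffDat D) (i : Fin n)
    (x : Option (Fin n) → ℤ) : D.s (some i) x = sa S (om i) x := by
  unfold RDat.s sa
  rw [hD.cof, hD.alf, cv_om, dot_om]; rfl

theorem sa_comp (hsymm : ∀ a b, S.bf a b = S.bf b a) (i : Fin n) (a' : Fin n → ℤ)
    (h : S.bf (om i) a' = -1) (hi : S.bf (om i) (om i) = 2) (x : Option (Fin n) → ℤ) :
    sa S (om i) (sa S a' (sa S (om i) x)) = sa S (a' + om i) x := by
  have h' : S.bf a' (om i) = -1 := by rw [hsymm]; exact h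
  unfold SLC.bf at h h' hi
  unfold sa
  simp only [fp_sub_smul, dot_sub_smul, h, h', hi, dot_add_left, cv_add, aw_add]
  module

theorem inv_root (hF : SLC.C_facts) {D : RDat (Option (Fin n)) (Option (Fin n))}
    (hD : S.AffDat D) (f : GR (Option (Fin n))) (hf : ∀ j : Fin n, D.IsInv (some j) f) :
    ∀ (N : ℕ) (a : Fin n → ℤ), S.IsRoot a → (∀ i, 0 ≤ a i) → ∑ i, a i ≤ N →
      ∀ x, f.coeff (sa S a x) = f.coeff x := by
  obtain ⟨hsymm, h2, hsign, hpair, hfin, hle, hth, hinj, hrefl, hom⟩ := hF n S
  have hbase : ∀ i x, f.coeff (sa S (om i) x) = f.coeff x := by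
    intro i x
    rw [← s_eq S hD]
    exact hf i x
  intro N
  induction N with
  | zero =>
    intro a ha hpos hs
    exfalso
    apply root_ne_zero S ha
    have h0 : ∑ i, a i = 0 :=
      le_antisymm (by simpa using hs) (Finset.sum_nonneg fun i _ => hpos i)
    funext i
    exact (Finset.sum_eq_zero_iff_of_nonneg fun i _ => hpos i).mp h0 i (Finset.mem_univ i)
  | succ N ih =>
    intro a ha hpos hs x
    -- choose i with a i * (cv a) i > 0
    have hex : ∃ i, 0 < a i * S.cv a i := by
      by_contra hcon
      push Not at hcon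
      have : S.bf a a ≤ 0 := by
        unfold SLC.bf dot
        exact Finset.sum_nonpos fun i _ => hcon i
      have h2' : S.bf a a = 2 := ha
      omega
    obtain ⟨i, hi⟩ := hex
    have hai : 0 < a i := by
      rcases (hpos i).lt_or_eq with h | h
      · exact h
      · rw [← h] at hi; simp at hi
    have hci : 0 < S.cv a i := by
      by_contra hcon
      push Not at hcon
      have := mul_nonpos_of_nonneg_of_nonpos hai.le hcon
      omega
    have hb : S.bf (om i) a = S.cv a i := by unfold SLC.bf; rw [dot_om]
    by_cases hae : om i = a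
    · rw [← hae]; exact hbase i x
    obtain ⟨-, hp2, hp3, -⟩ := hpair (om i) a (hom i) ha
    have hb1 : S.bf (om i) a = 1 := by
      have : S.bf (om i) a ≠ 2 := fun h => hae (hp3 h)
      omega
    have hr := hrefl (om i) a (hom i) ha
    rw [hb1, one_smul] at hr
    have hoi : S.bf (om i) (om i) = 2 := hom i
    have hpos' : ∀ k, 0 ≤ (a - om i) k := by
      rcases hsign _ hr with h | h
      · exact h
      · exfalso
        apply hae
        funext k
        have hk := h k
        have hpk := hpos k
        simp only [Pi.sub_apply, om] at hk ⊢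
        by_cases hki : k = i
        · subst hki
          simp only [if_true] at hk ⊢
          omega
        · simp only [if_neg hki] at hk ⊢
          omega
    have hsum : ∑ k, (a - om i) k ≤ (N : ℤ) := by
      have : ∑ k, (a - om i) k = ∑ k, a k - 1 := by
        simp [om, Finset.sum_sub_distrib]
      rw [this]
      push_cast at hs
      linarith
    have hbf' : S.bf (om i) (a - om i) = -1 := by
      have e1 : a = (a - om i) + om i := by abel
      have e2 : S.bf (om i) a = S.bf (om i) (a - om i) + S.bf (om i) (om i) := by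
        conv_lhs => rw [e1]
        unfold SLC.bf
        rw [cv_add, dot_add_right]
      rw [hb1, hoi] at e2
      linarith
    have key := sa_comp S hsymm i (a - om i) hbf' hoi x
    rw [sub_add_cancel] at key
    rw [← key, hbase, ih _ hr hpos' hsum, hbase]

theorem inv0 (hF : SLC.C_facts) : SLC.C_inv0 := by
  intro n S D hD f hf hlev
  refine ⟨?_, hlev⟩
  have hFs := hF n S
  obtain ⟨hsymm, h2, hsign, hpair, hfin, hle, hth, hinj, hrefl, hom⟩ := hFs
  intro j
  cases j with
  | some j => exact hf j
  | none =>
    intro x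
    have hs : (D.s none x) none = x none := by
      unfold RDat.s
      rw [hD.al0]
      simp [aw]
    by_cases hx : x none = 0
    · have hroot : S.IsRoot S.th := by
        unfold SLC.IsRoot SLC.bf dot SLC.cv
        rw [← S.th_root]
        refine Finset.sum_congr rfl fun i _ => ?_
        rw [Finset.mul_sum]
        refine Finset.sum_congr rfl fun j _ => ?_
        ring
      have hpos : ∀ i, 0 ≤ S.th i := fun i => by have := hth i; linarith
      have e : D.s none x = sa S S.th x := by
        unfold RDat.s sa
        rw [hD.al0, hD.co0, hx]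
        funext o
        cases o <;> simp [aw]
      rw [e]
      refine inv_root S hF hD f hf (∑ i, S.th i).toNat S.th hroot hpos ?_ x
      exact Int.self_le_toNat _
    · have h1 : f.coeff x = 0 := by
        by_contra h
        exact hx (hlev x h)
      have h2 : f.coeff (D.s none x) = 0 := by
        by_contra h
        have := hlev _ h
        rw [hs] at this
        exact hx this
      rw [h1, h2]

theorem main : SLC.C_facts → SLC.C_hd ∧ SLC.C_inv0 := fun hF => ⟨chd hF, inv0 hF⟩

end H391.KR.P_chd
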