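import Pool.Agent.H391.KR.PC

/-!
# Invariant elements are determined by the antisymmetric functionals of large level
-/

noncomputable section

namespace H391.KR.P_cinj

open Finset Matrix

variable {n : ℕ}

/-! ### The pairing -/

lemma pair_apply {ι : Type} (p : (ι → ℤ) → ℤ) (f : GR ι) :
    pair p f = f.coeff.sum fun x a => a * p x := rfl

lemma pair_single {ι : Type} (p : (ι → ℤ) → ℤ) (x : ι → ℤ) (a : ℤ) :
    pair p (AddMonoidAlgebra.single x a) = a * p x := by
  rw [pair_apply]
  exact Finsupp.sum_single_index (by simp)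

lemma pair_ex_mul {ι : Type} (p : (ι → ℤ) → ℤ) (x0 : ι → ℤ) (f : GR ι) :
    pair p (ex x0 * f) = pair (fun x => p (x0 + x)) f := by
  have h : (pair p).comp (AddMonoidHom.mulLeft (ex x0)) = pair (fun x => p (x0 + x)) := by
    apply AddMonoidAlgebra.addMonoidHom_ext
    intro x a
    show pair p (ex x0 * AddMonoidAlgebra.single x a) = _
    rw [ex, AddMonoidAlgebra.single_mul_single, one_mul, pair_single, pair_single]
  exact DFunLike.congr_fun h f

/-! ### The quadratic form -/

/-- finite reflection -/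
def fs (S : SLC n) (j : Fin n) (mu : Fin n → ℤ) : Fin n → ℤ := fun i => mu i - mu j * S.C i j

/-- action of finite words -/
def fa (S : SLC n) : List (Fin n) → (Fin n → ℤ) → (Fin n → ℤ)
  | [], mu => mu
  | j :: w, mu => fa S w (fs S j mu)

/-- the Cartan matrix -/
def cm (S : SLC n) : Matrix (Fin n) (Fin n) ℤ := Matrix.of S.C

/-- bilinear form -/
def Bf (S : SLC n) (x y : Fin n → ℤ) : ℤ := x ⬝ᵥ ((cm S).adjugate *ᵥ y)

lemma Bf_symm (S : SLC n) (x y : Fin n → ℤ) : Bf S x y = Bf S y x := by
  unfold Bf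
  have h : (cm S)ᵀ = cm S := by
    ext i j
    exact S.symm j i
  have h2 : ((cm S).adjugate)ᵀ = (cm S).adjugate := by
    rw [Matrix.adjugate_transpose, h]
  rw [Matrix.dotProduct_mulVec, ← Matrix.mulVec_transpose, h2, dotProduct_comm]

lemma Bf_sub_left (S : SLC n) (x y z : Fin n → ℤ) : Bf S (x - y) z = Bf S x z - Bf S y z := by
  unfold Bf
  rw [sub_dotProduct]

lemma Bf_smul_left (S : SLC n) (c : ℤ) (x z : Fin n → ℤ) : Bf S (c • x) z = c * Bf S x z := by
  unfold Bf
  rw [smul_dotProduct, smul_eq_mul]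

lemma Bf_col (S : SLC n) (x : Fin n → ℤ) (j : Fin n) :
    Bf S x (fun i => S.C i j) = (cm S).det * x j := by
  unfold Bf
  have h : (cm S).adjugate *ᵥ (fun i => S.C i j) = fun i => if i = j then (cm S).det else 0 := by
    have h1 := Matrix.adjugate_mul (cm S)
    funext i
    have h2 := congrFun (congrFun h1 i) j
    rw [Matrix.smul_apply, Matrix.one_apply, smul_eq_mul, mul_ite, mul_one, mul_zero] at h2
    rw [← h2]
    rfl
  rw [h]
  unfold dotProduct
  rw [Finset.sum_eq_single j]
  · simp [mul_comm]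
  · intro b _ hb
    simp [hb]
  · intro hj
    exact absurd (Finset.mem_univ j) hj

/-- quadratic form -/
def QN (S : SLC n) (x : Fin n → ℤ) : ℤ := (cm S).det * Bf S x x

lemma QN_sub (S : SLC n) (x : Fin n → ℤ) (j : Fin n) (c : ℤ) :
    QN S (fun i => x i - c * S.C i j) =
      QN S x - 2 * (cm S).det ^ 2 * c * x j + 2 * (cm S).det ^ 2 * c ^ 2 := by
  have h : (fun i => x i - c * S.C i j) = x - c • (fun i => S.C i j) := by
    funext i
    simp
  unfold QN
  rw [h, Bf_sub_left, Bf_smul_left, Bf_symm S x (x - _), Bf_symm S (fun i => S.C i j) (x - _),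
    Bf_sub_left, Bf_sub_left, Bf_smul_left, Bf_smul_left, Bf_symm S (fun i => S.C i j) x,
    Bf_col, Bf_col, S.diag]
  ring

lemma QN_fs (S : SLC n) (x : Fin n → ℤ) (j : Fin n) : QN S (fs S j x) = QN S x := by
  unfold fs
  rw [QN_sub]
  ring

lemma QN_fa (S : SLC n) (w : List (Fin n)) : ∀ x : Fin n → ℤ, QN S (fa S w x) = QN S x := by
  induction w with
  | nil => intro x; rfl
  | cons j w ih =>
    intro x
    show QN S (fa S w (fs S j x)) = _
    rw [ih, QN_fs]

lemma QN_lt (S : SLC n) (hd : (cm S).det ≠ 0) (mu : Fin n → ℤ) (j : Fin n) (h : mu j < 0) :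
    QN S (mu + 1) < QN S (fs S j mu + 1) := by
  have h1 : fs S j mu + 1 = fun i => (mu + 1) i - mu j * S.C i j := by
    funext i
    simp only [fs, Pi.add_apply, Pi.one_apply]
    ring
  rw [h1, QN_sub, Pi.add_apply, Pi.one_apply]
  have h2 : 0 < (cm S).det ^ 2 := by positivity
  nlinarith

lemma det_ne (S : SLC n) (hinj : ∀ a b, S.cv a = S.cv b → a = b) : (cm S).det ≠ 0 := by
  intro h
  obtain ⟨v, hv, hv2⟩ := Matrix.exists_mulVec_eq_zero_iff.2 h
  apply hv
  apply hinj
  funext i
  have h1 := congrFun hv2 i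
  have h2 : S.cv 0 i = 0 := by simp [SLC.cv]
  rw [h2]
  exact h1

/-! ### Finite words -/

section

variable (S : SLC n) {D : RDat (Option (Fin n)) (Option (Fin n))}

lemma s_aw (hD : S.AffDat D) (j : Fin n) (l : ℤ) (mu : Fin n → ℤ) :
    D.s (some j) (aw l mu) = aw l (fs S j mu) := by
  unfold RDat.s
  rw [hD.cof, hD.alf]
  funext o
  cases o with
  | none => simp [aw]
  | some i => simp [aw, fs]

lemma sR_aw (hD : S.AffDat D) (l : ℤ) (w : List (Fin n)) : ∀ mu : Fin n → ℤ,
    D.sR (w.map some) (aw l mu) = aw l (fa S w mu) := by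
  induction w with
  | nil => intro mu; rfl
  | cons j w ih =>
    intro mu
    show D.sR (w.map some) (D.s (some j) (aw l mu)) = _
    rw [s_aw S hD, ih]
    rfl

lemma anti_fs (hD : S.AffDat D) {p : (Option (Fin n) → ℤ) → ℤ} (hp : D.Anti p) (j : Fin n)
    (l : ℤ) (mu : Fin n → ℤ) : p (aw l (fs S j mu - 1)) = - p (aw l (mu - 1)) := by
  have h := hp (aw l (mu - 1)) (some j)
  rw [hD.cof, hD.alf] at h
  rw [← h]
  congr 1
  funext o
  cases o with
  | none => simp [aw]
  | some i =>
    simp [aw, fs]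
    ring

lemma anti_fa (hD : S.AffDat D) {p : (Option (Fin n) → ℤ) → ℤ} (hp : D.Anti p) (l : ℤ)
    (w : List (Fin n)) : ∀ mu : Fin n → ℤ, p (aw l (fa S w mu - 1)) = 0 →
      p (aw l (mu - 1)) = 0 := by
  induction w with
  | nil => intro mu h; exact h
  | cons j w ih =>
    intro mu h
    have h1 := ih (fs S j mu) h
    rw [anti_fs S hD hp, neg_eq_zero] at h1
    exact h1

lemma anti_zero (hD : S.AffDat D) {p : (Option (Fin n) → ℤ) → ℤ} (hp : D.Anti p) (j : Fin n)
    (l : ℤ) (mu : Fin n → ℤ) (h : mu j = 0) : p (aw l (mu - 1)) = 0 := by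
  have h1 := anti_fs S hD hp j l mu
  have h2 : fs S j mu = mu := by
    funext i
    simp [fs, h]
  rw [h2] at h1
  omega

lemma dom_aw (hD : S.AffDat D) (l : ℤ) (mu : Fin n → ℤ) (h : ∀ j, 0 ≤ mu j)
    (hl : dot S.th mu ≤ l) : D.Dom (aw l mu) := by
  intro o
  cases o with
  | none =>
    rw [hD.co0]
    show 0 ≤ l - dot S.th mu
    linarith
  | some j =>
    rw [hD.cof]
    exact h j

lemma exists_word (hD : S.AffDat D) (hred : RDat.N_red) (mu : Fin n → ℤ) :
    ∃ w : List (Fin n), ∀ j, 0 ≤ fa S w mu j := by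
  have hT : aw 1 mu ∈ D.T := by
    rw [hD.T]
    exact le_refl (1 : ℤ)
  obtain ⟨w, hw, -, h3⟩ := (hred _ _ D (Set.range some) (aw 1 mu) hT).1
  obtain ⟨w', hw'⟩ : ∃ w' : List (Fin n), w'.map some = w := by
    clear h3
    induction w with
    | nil => exact ⟨[], rfl⟩
    | cons a w ih =>
      obtain ⟨w', hw'⟩ := ih fun j hj => hw j (List.mem_cons_of_mem _ hj)
      obtain ⟨b, hb⟩ := hw a List.mem_cons_self
      exact ⟨b :: w', by rw [List.map_cons, hb, hw']⟩
  refine ⟨w', fun j => ?_⟩
  have h4 := h3 (some j) ⟨j, rfl⟩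
  rw [← hw', sR_aw S hD, hD.cof] at h4
  exact h4

end

/-- **C_inj.** -/
theorem main : RDat.N_red → RDat.N_link → SLC.C_facts → SLC.C_hd → SLC.C_inj := by
  intro hred hlink hfacts hhd n S D hD f hf k0 hp
  classical
  obtain ⟨hinv, hlev⟩ := hf
  have hd : (cm S).det ≠ 0 := det_ne S (hfacts n S).2.2.2.2.2.2.2.1
  by_contra hne
  have hsupp : f.coeff.support.Nonempty := by
    rw [Finset.nonempty_iff_ne_empty]
    intro h
    apply hne
    rw [Finsupp.support_eq_empty] at h
    exact AddMonoidAlgebra.coeff_injective h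
  obtain ⟨y, hy, hmax⟩ := Finset.exists_max_image f.coeff.support (fun x => QN S (fp x + 1)) hsupp
  have haw : ∀ x ∈ f.coeff.support, x = aw 0 (fp x) := by
    intro x hx
    funext o
    cases o with
    | none => exact hlev x (Finsupp.mem_support_iff.1 hx)
    | some i => rfl
  -- maximal weights are dominant
  have hdom : ∀ x ∈ f.coeff.support, QN S (fp x + 1) = QN S (fp y + 1) → ∀ j, 0 ≤ fp x j := by
    intro x hx he j
    by_contra hcon
    push Not at hcon
    have h1 := QN_lt S hd (fp x) j hcon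
    have h2 : D.s (some j) x ∈ f.coeff.support := by
      rw [Finsupp.mem_support_iff, hinv (some j) x]
      exact Finsupp.mem_support_iff.1 hx
    have h3 : fp (D.s (some j) x) = fs S j (fp x) := by
      rw [haw x hx, s_aw S hD]
      rfl
    have h4 := hmax _ h2
    rw [h3] at h4
    omega
  -- words
  choose w hw using fun x : Option (Fin n) → ℤ => exists_word S hD hred (fp x + 1)
  obtain ⟨K1, hK1⟩ := Finset.exists_le (f.coeff.support.image fun x => dot S.th (fp x))
  obtain ⟨K2, hK2⟩ := Finset.exists_le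
    (f.coeff.support.image fun x => dot S.th (fa S (w x) (fp x + 1) - 1))
  obtain ⟨k, hk⟩ : ∃ k : ℤ, k = max k0 (max K1 K2) := ⟨_, rfl⟩
  have hk0 : k0 ≤ k := by rw [hk]; exact le_max_left _ _
  have hk1 : ∀ x ∈ f.coeff.support, dot S.th (fp x) ≤ k := fun x hx =>
    (hK1 _ (Finset.mem_image_of_mem _ hx)).trans (by
      rw [hk]; exact (le_max_left _ _).trans (le_max_right _ _))
  have hk2 : ∀ x ∈ f.coeff.support, dot S.th (fa S (w x) (fp x + 1) - 1) ≤ k := fun x hx =>
    (hK2 _ (Finset.mem_image_of_mem (fun x => dot S.th (fa S (w x) (fp x + 1) - 1)) hx)).trans (by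
      rw [hk]; exact (le_max_right _ _).trans (le_max_right _ _))
  have hnu : D.Dom (aw k (fp y)) := dom_aw S hD k _ (hdom y hy rfl) (hk1 y hy)
  obtain ⟨hl1, hl2, hl3⟩ := (hlink _ _ D S.rho (hhd n S D hD)).1 _ hnu
  have hval : ∀ x ∈ f.coeff.support, x ≠ y → D.pf (aw k (fp y)) (aw k (fp x)) = 0 := by
    intro x hx hxy
    have hxy' : fp x ≠ fp y := by
      intro h
      apply hxy
      rw [haw x hx, haw y hy, h]
    have e1 : fp x = fp x + 1 - 1 := by simp
    have key : D.pf (aw k (fp y)) (aw k (fp x + 1 - 1)) = 0 := by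
      by_cases hz : ∃ j, fa S (w x) (fp x + 1) j = 0
      · obtain ⟨j, hj⟩ := hz
        exact anti_fa S hD hl1 k (w x) _ (anti_zero S hD hl1 j k _ hj)
      · push Not at hz
        have h1 : D.Dom (aw k (fa S (w x) (fp x + 1) - 1)) := by
          refine dom_aw S hD k _ (fun j => ?_) (hk2 x hx)
          have h2 := hw x j
          have h3 := hz j
          have h4 : (fa S (w x) (fp x + 1) - 1) j = fa S (w x) (fp x + 1) j - 1 := rfl
          rw [h4]
          omega
        by_cases heq : aw k (fa S (w x) (fp x + 1) - 1) = aw k (fp y)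
        · have h5 : fa S (w x) (fp x + 1) = fp y + 1 := by
            have h6 : fa S (w x) (fp x + 1) - 1 = fp y := by
              funext j
              exact congrFun heq (some j)
            rw [← h6]
            simp
          have h7 : QN S (fp x + 1) = QN S (fp y + 1) := by
            rw [← h5, QN_fa]
          have h8 : D.Dom (aw k (fp x)) := dom_aw S hD k _ (hdom x hx h7) (hk1 x hx)
          rw [← e1]
          refine hl3 _ h8 fun h => hxy' ?_
          funext j
          exact congrFun h (some j)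
        · exact anti_fa S hD hl1 k (w x) _ (hl3 _ h1 heq)
    rwa [← e1] at key
  have hfin := hp k hk0 _ hl1
  rw [pair_ex_mul, pair_apply, Finsupp.sum, Finset.sum_eq_single y] at hfin
  · have h1 : aw k 0 + y = aw k (fp y) := by
      funext o
      cases o with
      | none =>
        show k + y none = k
        rw [hlev y (Finsupp.mem_support_iff.1 hy), add_zero]
      | some i =>
        show (0 : ℤ) + y (some i) = y (some i)
        rw [zero_add]
    rw [h1, hl2, mul_one] at hfin
    exact Finsupp.mem_support_iff.1 hy hfin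
  · intro x hx hxy
    have h1 : aw k 0 + x = aw k (fp x) := by
      funext o
      cases o with
      | none =>
        show k + x none = k
        rw [hlev x (Finsupp.mem_support_iff.1 hx), add_zero]
      | some i =>
        show (0 : ℤ) + x (some i) = x (some i)
        rw [zero_add]
    rw [h1, hval x hx hxy, mul_zero]
  · intro h
    exact absurd hy h

end H391.KR.P_cinj
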