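import Mathlib
import Pool.Agent.H391.KR.PM

noncomputable section

namespace H391.KR.P_cong

open H391.KR H391.KR.RDat

variable {ι I : Type} (D : RDat ι I)

theorem ev_sub_smul (c b : D.R) (x : ι → ℤ) (n : ℤ) :
    D.ev c (x - n • D.rt b) = D.ev c x - n * D.ev c (D.rt b) := by
  rw [map_sub, map_zsmul, smul_eq_mul]

theorem step_le {M l : ℕ} {x y : ι → ℤ} (h : D.Step M l x y) : D.Step 1 0 x y := by
  obtain ⟨b, h1, h2, h3, _⟩ := h
  exact ⟨b, h1, h2, h3, by simp⟩

theorem step_props {M l : ℕ} {x y : ι → ℤ} (hx : x ∈ D.T) (h : D.Step M l x y) :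
    y ∈ D.T ∧ D.len y + 1 = D.len x ∧ (∀ i, (M : ℤ) ∣ (l : ℤ) * (x i - y i)) ∧
    (∀ b, (M : ℤ) ∣ (l : ℤ) * (D.ev b x - D.ev b y)) := by
  obtain ⟨b, h1, h2, h3, h4⟩ := h
  subst h2
  refine ⟨D.T_refl x hx b, h3, ?_, ?_⟩
  · intro i
    have e : (l : ℤ) * (x i - (x - D.ev b x • D.rt b) i) = ((l : ℤ) * D.ev b x) * D.rt b i := by
      simp only [Pi.sub_apply, Pi.smul_apply, smul_eq_mul]
      ring
    rw [e]
    exact Dvd.dvd.mul_right h4 _
  · intro c
    have e : (l : ℤ) * (D.ev c x - D.ev c (x - D.ev b x • D.rt b)) =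
        ((l : ℤ) * D.ev b x) * D.ev c (D.rt b) := by
      rw [ev_sub_smul]
      ring
    rw [e]
    exact Dvd.dvd.mul_right h4 _

end H391.KR.P_cong

namespace H391.KR.P_cong

open H391.KR H391.KR.RDat

theorem main : RDat.S_cong := by
  intro ι I D M l x y hx h
  induction h with
  | refl =>
    refine ⟨hx, le_refl _, fun _ => rfl, ?_, ?_, Relation.ReflTransGen.refl⟩
    · intro i
      simp
    · intro b
      simp
  | tail hab hbc ih =>
    rename_i b c
    obtain ⟨i1, i2, i3, i4, i5, i6⟩ := ih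
    obtain ⟨s1, s2, s3, s4⟩ := step_props D i1 hbc
    refine ⟨s1, by omega, fun hh => by omega, ?_, ?_, ?_⟩
    · intro i
      have e : (l : ℤ) * (x i - c i) = (l : ℤ) * (x i - b i) + (l : ℤ) * (b i - c i) := by ring
      rw [e]
      exact dvd_add (i4 i) (s3 i)
    · intro d
      have e : (l : ℤ) * (D.ev d x - D.ev d c) =
          (l : ℤ) * (D.ev d x - D.ev d b) + (l : ℤ) * (D.ev d b - D.ev d c) := by ring
      rw [e]
      exact dvd_add (i5 d) (s4 d)
    · exact Relation.ReflTransGen.tail i6 (step_le D hbc)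

end H391.KR.P_cong

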