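import Pool.Agent.H391.KR.PM

/-!
# KR-cov (helper921 for helper391)
-/

noncomputable section

namespace H391.KR.P_cov

open H391.KR H391.KR.RDat

variable {ι I : Type} (D : RDat ι I)

theorem s_sub_smul (j : I) (x r : ι → ℤ) (t : ℤ) : D.s j (x - t • r) = D.s j x - t • D.s j r := by
  unfold RDat.s RDat.co
  rw [map_sub, map_zsmul]
  funext i
  simp only [Pi.sub_apply, Pi.smul_apply, smul_eq_mul]
  ring

theorem main : RDat.S_len → RDat.S_refl → RDat.S_cov := by
  intro hlen hrefl ι I D M l x y hx hstep j
  obtain ⟨b, hb, hy, hl, hM⟩ := hstep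
  by_cases hbj : b = D.sim j
  · left
    subst hbj
    exact ⟨hy, hb, hM⟩
  · right
    obtain ⟨c, -, hc, hrc⟩ := D.perm j b hbj
    have hyT : y ∈ D.T := by
      rw [hy]
      exact D.T_refl x hx b
    obtain ⟨x1, x2, x3, x4, -, x6⟩ := hlen ι I D x hx j
    obtain ⟨y1, y2, y3, y4, -, -⟩ := hlen ι I D y hyT j
    have hev : D.ev c (D.s j x) = D.ev b x := by
      have h1 : D.ev c (D.s j x) = D.ev b (D.s j (D.s j x)) := hc (D.s j x)
      rw [h1, x6]
    have hrc' : D.rt c = D.s j (D.rt b) := hrc
    have hsy : D.s j y = D.s j x - D.ev c (D.s j x) • D.rt c := by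
      rw [hev, hrc', hy, s_sub_smul]
    have hneg : D.ev c (D.s j x) < 0 := by
      rw [hev]
      exact hb
    have hlt : D.len (D.s j y) < D.len (D.s j x) := by
      rw [hsy]
      exact hrefl ι I D (D.s j x) x4 c hneg
    have p1 : D.co j x < 0 → D.co j y < 0 := by
      intro h
      have e1 := x1 h
      rcases lt_trichotomy (D.co j y) 0 with h2 | h2 | h2
      · exact h2
      · have e2 := y3 h2
        rw [e2] at hlt
        omega
      · have e2 := y2 h2
        omega
    have p2 : 0 < D.co j y → 0 < D.co j x := by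
      intro h
      have e1 := y2 h
      rcases lt_trichotomy (D.co j x) 0 with h2 | h2 | h2
      · have e2 := x1 h2
        omega
      · have e2 := x3 h2
        rw [e2] at hlt
        omega
      · exact h2
    have hM' : (M : ℤ) ∣ (l : ℤ) * D.ev c (D.s j x) := by
      rw [hev]
      exact hM
    refine ⟨p1, p2, fun h => ?_, fun h => ?_⟩
    · have e1 := x1 h
      have e2 := y1 (p1 h)
      exact ⟨c, hneg, hsy, by omega, hM'⟩
    · have e1 := x2 (p2 h)
      have e2 := y2 h
      exact ⟨c, hneg, hsy, by omega, hM'⟩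

end H391.KR.P_cov
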