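import Pool.Agent.H391.KR.PC

noncomputable section

namespace H391.KR.P_csd

open Finset H391.KR

variable {n : ℕ}

theorem dot_add (a mu nu : Fin n → ℤ) : dot a (mu + nu) = dot a mu + dot a nu := by
  unfold dot
  rw [← Finset.sum_add_distrib]
  exact Finset.sum_congr rfl fun i _ => by simp [mul_add]

theorem dot_neg (a mu : Fin n → ℤ) : dot a (-mu) = - dot a mu := by
  unfold dot
  rw [← Finset.sum_neg_distrib]
  exact Finset.sum_congr rfl fun i _ => by simp

theorem dot_one (a : Fin n → ℤ) : dot a (fun _ => 1) = ∑ k, a k := by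
  unfold dot
  simp

theorem dot_om (a : Fin n → ℤ) (i : Fin n) : dot a (om i) = a i := by
  unfold dot om
  simp

theorem cv_om (S : SLC n) (i : Fin n) : S.cv (om i) = fun k => S.C k i := by
  funext k
  unfold SLC.cv om
  simp

theorem aw_add (l l' : ℤ) (a b : Fin n → ℤ) : aw l a + aw l' b = aw (l + l') (a + b) := by
  funext o
  rcases o with _ | o <;> rfl

theorem aw_neg (l : ℤ) (a : Fin n → ℤ) : - aw l a = aw (-l) (-a) := by
  funext o
  rcases o with _ | o <;> rfl

theorem aw_ext {x y : Option (Fin n) → ℤ} (h0 : x none = y none)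
    (h1 : ∀ k, x (some k) = y (some k)) : x = y := by
  funext o
  rcases o with _ | o
  · exact h0
  · exact h1 o

theorem neg_form {S : SLC n} {D : RDat (Option (Fin n)) (Option (Fin n))} (hA : S.AffDat D)
    {N : ℤ} {mu : Fin n → ℤ} (hN0 : 0 ≤ N) (hN : ∀ a, S.IsRoot a → - N < dot a mu) (b : D.R)
    (hb : D.ev b (aw N mu) < 0) :
    ∃ a, S.IsRoot a ∧ (∀ k, 0 ≤ a k) ∧ ∀ x, D.ev b x = dot a (fp x) := by
  obtain ⟨a, m, ⟨ha, hm⟩, hev, -⟩ := hA.ev b
  rcases hm with hm | ⟨hm, hp⟩
  · exfalso
    rw [hev] at hb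
    have h1 := hN a ha
    have h2 : N ≤ m * N := by nlinarith
    have h3 : dot a (fp (aw N mu)) = dot a mu := rfl
    have h4 : (aw N mu) none = N := rfl
    rw [h3, h4] at hb
    omega
  · exact ⟨a, ha, hp, fun x => by rw [hev, hm]; ring⟩

theorem main : RDat.N_desc → RDat.N_demw → RDat.N_op → RDat.N_adj → SLC.C_facts → SLC.C_hd →
    SLC.C_cov → SLC.C_star → SLC.C_sd := by
  intro hdesc hdemw hop hadj hfacts _ hcov hstar n S D hA hOK i
  obtain ⟨st, hst, hst2⟩ := hstar n S D hA
  obtain ⟨c, hc, hcD, hcu⟩ := hst2 (st.symm i)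
  obtain ⟨i', hi'⟩ : ∃ i', i' = st.symm i := ⟨_, rfl⟩
  rw [← hi'] at hcD hcu
  have hsti : st i' = i := by rw [hi']; simp
  obtain ⟨f1, f2, f3, f4, f5, f6, f7, f8, f9, f10⟩ := hfacts n S
  obtain ⟨e1, e2, e3, e4, e5, e6, e7, e8, e9, e10, e11⟩ := hdesc _ _ D
  obtain ⟨H, hH⟩ : ∃ H : ℤ, H = ∑ k, S.th k := ⟨_, rfl⟩
  have hht : ∀ a, S.IsRoot a → ∑ k, a k ≤ H := fun a ha => by
    rw [hH]; exact Finset.sum_le_sum fun k _ => f6 a ha k
  have hth1 : ∀ k, S.th k ≤ H := by
    intro k
    rw [hH]
    exact Finset.single_le_sum (f := S.th) (fun j _ => by have := f7 j; omega) (Finset.mem_univ k)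
  have hH0 : 0 ≤ H := by
    rw [hH]; exact Finset.sum_nonneg fun j _ => by have := f7 j; omega
  have hbfdot : ∀ a k, dot a (fun j => S.C j k) = S.bf a (om k) := by
    intro a k
    rw [← cv_om]; rfl
  have hdotm1 : ∀ a : Fin n → ℤ, dot a (fun _ => -1) = - ∑ k, a k := by
    intro a
    have : (fun _ : Fin n => (-1 : ℤ)) = -(fun _ => 1) := by funext k; rfl
    rw [this, dot_neg, dot_one]
  -- positivity of nonnegative roots
  have hpos : ∀ a, S.IsRoot a → (∀ k, 0 ≤ a k) → 0 < ∑ k, a k := by
    intro a ha hp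
    rcases (Finset.sum_nonneg fun k (_ : k ∈ univ) => hp k).lt_or_eq with h | h
    · exact h
    · exfalso
      have h0 : ∀ k ∈ univ, a k = 0 :=
        (Finset.sum_eq_zero_iff_of_nonneg fun k _ => hp k).mp h.symm
      have ha0 : a = 0 := funext fun k => h0 k (Finset.mem_univ k)
      have h2 : S.bf a a = 2 := ha
      rw [ha0] at h2
      have h3 : S.bf 0 0 = 0 := by unfold SLC.bf dot; simp
      rw [h3] at h2
      omega
  obtain ⟨N, hNd⟩ : ∃ N : ℤ, N = H + 3 := ⟨_, rfl⟩
  have hN1 : ∀ a, S.IsRoot a → -N < dot a (fun _ => -1) := by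
    intro a ha
    rw [hdotm1]
    have := hht a ha
    omega
  have hsplit : ∀ (a : Fin n → ℤ) k, dot a (fun j => -1 + S.C j k) = - ∑ j, a j + S.bf a (om k) := by
    intro a k
    have : (fun j : Fin n => -1 + S.C j k) = (fun _ => -1) + (fun j => S.C j k) := rfl
    rw [this, dot_add, hdotm1, hbfdot]
  have hN2 : ∀ k a, S.IsRoot a → -N < dot a (fun j => -1 + S.C j k) := by
    intro k a ha
    rw [hsplit]
    have := hht a ha
    have := (f4 a (om k) ha (f10 k)).1
    omega
  -- simple reflections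
  have hs1 : ∀ k x, D.s (some k) x = x - x (some k) • aw 0 (fun j => S.C j k) := by
    intro k x
    unfold RDat.s
    rw [hA.cof, hA.alf]
  have hss : ∀ j x, D.s j (D.s j x) = x := by
    intro j x
    exact (e5 [j] x).1
  have hsT : ∀ j x, x ∈ D.T → D.s j x ∈ D.T := fun j x hx => e11 [j] x hx
  have hTT : ∀ l mu, 1 ≤ l → (aw l mu : Option (Fin n) → ℤ) ∈ D.T := by
    intro l mu hl
    rw [hA.T]; exact hl
  -- action of the longest word
  have hW : ∀ (l : ℤ) (mu nu : Fin n → ℤ), (∀ j, nu (st j) = - mu j) →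
      D.sR (some i' :: c) (aw l mu) = aw l nu := by
    intro l mu nu h
    apply aw_ext
    · exact (hcu (aw l mu)).1
    · intro k
      obtain ⟨j, rfl⟩ := st.surjective k
      rw [(hcu (aw l mu)).2 j]
      show - mu j = nu (st j)
      rw [h]
  have hc1 : ∀ x, D.sR (some i' :: c) (D.s (some i') x) = D.sR c x := by
    intro x
    show D.sR c (D.s (some i') (D.s (some i') x)) = D.sR c x
    rw [hss]
  have hom : ∀ j, om i (st j) = om i' j := by
    intro j
    unfold om
    by_cases h : j = i'
    · subst h; simp [hsti]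
    · have : st j ≠ i := fun h' => h (st.injective (by rw [h', hsti]))
      simp [h, this]
  -- part (1)
  have hcrit1 : ∀ (l : ℤ) (k : Fin n), ∀ b, D.ev b (aw N fun _ => -1) < 0 →
      D.ev b (aw l (-om k)) ≤ 0 := by
    intro l k b hb
    obtain ⟨a, ha, hp, hev⟩ := neg_form hA (by omega) hN1 b hb
    rw [hev]
    show dot a (-om k) ≤ 0
    rw [dot_neg, dot_om]
    have := hp k
    omega
  have hD0 : D.Desc0 (some i' :: c) (xi i') :=
    e1 _ _ _ (hcD N) (hcrit1 1 i')
  have huxi : D.sR (some i' :: c) (xi i') = aw 1 (om i) := by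
    apply hW
    intro j
    rw [hom]; simp
  refine ⟨i', c, hc, ?_, ?_, ?_⟩
  · intro m
    rw [hdemw _ _ D hOK (some i' :: c) (xi i') m (hTT _ _ le_rfl) hD0, huxi]
  · intro m
    rw [hdemw _ _ D hOK c (D.s (some i') (xi i')) m (hsT _ _ (hTT _ _ le_rfl)) hD0.2]
    have : D.sR c (D.s (some i') (xi i')) = aw 1 (om i) := huxi
    rw [this]
  -- part (3)
  have hNT : (aw N (-om i) : Option (Fin n) → ℤ) ∈ D.T := hTT _ _ (by omega)
  have hdom : D.Dom (aw N (om i')) := by
    intro j
    rcases j with _ | j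
    · rw [hA.co0]
      have h1 : dot S.th (fp (aw N (om i'))) = S.th i' := dot_om S.th i'
      have h2 : (aw N (om i') : Option (Fin n) → ℤ) none = N := rfl
      rw [h1, h2]
      have := hth1 i'
      omega
    · rw [hA.cof]
      show 0 ≤ om i' j
      unfold om
      split_ifs <;> omega
  have hex : D.Dem (aw N (om i')) 1 = ex (aw N (om i')) := by
    rw [hOK.d3 _ (hTT _ _ (by omega)) 1 hdom]
    simp
  have hneg : ∀ l : ℤ, -(aw l (fun _ => 1) : Option (Fin n) → ℤ) = aw (-l) (fun _ => -1) := by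
    intro l
    rw [aw_neg]; rfl
  have hWr : D.Desc (some i' :: c).reverse (aw N fun _ => -1) := by
    have h1 := e4 (some i' :: c) (aw N fun _ => 1) (by rw [hneg]; exact hcD _)
    rw [hW N (fun _ => 1) (fun _ => -1) (fun _ => rfl)] at h1
    exact h1
  have h3 : D.Dem (aw N (-om i)) 1 = D.demL (some i' :: c).reverse (ex (aw N (om i'))) := by
    rw [hdemw _ _ D hOK (some i' :: c).reverse (aw N (-om i)) 1 hNT
      (e1 _ _ _ hWr (hcrit1 N i))]
    have h1 : D.sR (some i' :: c) (aw N (om i')) = aw N (-om i) := by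
      apply hW
      intro j
      simp [hom]
    rw [← h1, (e5 _ _).1, hex]
  -- part (4)
  have hs2 : ∀ (l : ℤ) (k : Fin n) (mu : Fin n → ℤ), D.s (some k) (aw l mu) =
      aw l (fun j => mu j - mu k * S.C j k) := by
    intro l k mu
    rw [hs1]
    apply aw_ext
    · show l - mu k • (0 : ℤ) = l
      simp
    · intro j
      show mu j - mu k • S.C j k = mu j - mu k * S.C j k
      simp
  have hcm : ∀ M : ℤ, D.Desc c (aw M fun _ => -1) := by
    intro M
    refine e2 c (D.s (some i') (aw N fun _ => -1)) _ (hcD N).2 ?_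
    intro b hb
    have h5 : D.s (some i') (aw N fun _ => -1) = aw N (fun j => -1 + S.C j i') := by
      rw [hs2]
      congr 1
      funext j
      ring
    rw [h5] at hb
    obtain ⟨a, ha, hp, hev⟩ := neg_form hA (by omega) (hN2 i') b hb
    rw [hev]
    show dot a (fun _ => -1) < 0
    rw [hdotm1]
    have := hpos a ha hp
    omega
  have hcr : D.Desc c.reverse (aw N fun j => -1 + S.C j i) := by
    have h5 := e4 c (aw N fun _ => 1) (by rw [hneg]; exact hcm _)
    have h6 : D.sR c (aw N fun _ => 1) = aw N fun j => -1 + S.C j i := by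
      rw [← hc1, hs2]
      apply hW
      intro j
      have := hst j i'
      rw [hsti] at this
      rw [this]
      ring
    rw [h6] at h5
    exact h5
  have hy4 : D.s (some i) (aw N (-om i)) = aw N (fun j => - om i j + S.C j i) := by
    rw [hs2]
    congr 1
    funext j
    have : (-om i : Fin n → ℤ) i = -1 := by simp [om]
    rw [this]
    simp
  have hcrit4 : ∀ b, D.ev b (aw N fun j => -1 + S.C j i) < 0 →
      D.ev b (aw N (fun j => - om i j + S.C j i)) ≤ 0 := by
    intro b hb
    obtain ⟨a, ha, hp, hev⟩ := neg_form hA (by omega) (hN2 i) b hb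
    rw [hev] at hb ⊢
    have hb' : dot a (fun j => -1 + S.C j i) < 0 := hb
    rw [hsplit] at hb'
    have e : dot a (fp (aw N fun j => - om i j + S.C j i)) = - a i + S.bf a (om i) := by
      show dot a (fun j => - om i j + S.C j i) = _
      have : (fun j : Fin n => - om i j + S.C j i) = -(om i) + (fun j => S.C j i) := rfl
      rw [this, dot_add, dot_neg, dot_om, hbfdot]
    rw [e]
    obtain ⟨-, g2, g3, -⟩ := f4 a (om i) ha (f10 i)
    have hai := hp i
    rcases eq_or_ne (S.bf a (om i)) 2 with h2 | h2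
    · exfalso
      have := g3 h2
      rw [this] at hb' h2
      have h7 : ∑ j, (om i : Fin n → ℤ) j = 1 := by unfold om; simp
      rw [h7, h2] at hb'
      omega
    · rcases le_or_gt (S.bf a (om i)) 0 with h4 | h4
      · omega
      · have h5 : S.bf a (om i) = 1 := by omega
        rw [h5]
        by_contra hcon
        have hai0 : a i = 0 := by omega
        have h6 := f9 (om i) a (f10 i) ha
        rw [f1, h5, one_smul] at h6
        rcases f3 _ h6 with h7 | h7
        · have := h7 i
          simp [om, hai0] at this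
        · have ha0 : a = 0 := by
            funext k
            have h8 := h7 k
            have h9 := hp k
            by_cases hk : k = i
            · rw [hk, hai0]; rfl
            · simp [om, hk] at h8
              simp; omega
          have := hpos a ha hp
          rw [ha0] at this
          simp at this
  have h4 : D.Dem (D.s (some i) (aw N (-om i))) 1 = D.demL c.reverse (ex (aw N (om i'))) := by
    rw [hdemw _ _ D hOK c.reverse (D.s (some i) (aw N (-om i))) 1 (hsT _ _ hNT)
      (by rw [hy4]; exact e1 _ _ _ hcr hcrit4)]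
    have h5 : D.sR c (aw N (om i')) = D.s (some i) (aw N (-om i)) := by
      rw [← hc1, hs2, hy4]
      apply hW
      intro j
      have h8 := hst j i'
      rw [hsti] at h8
      rw [h8, hom]
      have : (om i' : Fin n → ℤ) i' = 1 := by simp [om]
      rw [this]
      ring
    rw [← h5, (e5 _ _).1, hex]
  -- part (5)
  have hcov2 := (hcov n S D hA i).2 N (by omega) (by have := hth1 i; omega)
  have h5 := hOK.d4 (aw N (-om i)) hNT 0 (some i) (by
    rw [hA.cof]; show -(om i i) = -1; simp [om]) hcov2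
  rw [zero_add, hOK.d5 _ hNT, mul_one, h3, h4] at h5
  have h6 : ex (aw N (-om i)) = D.demL (some i' :: c).reverse (ex (aw N (om i'))) -
      D.demL c.reverse (ex (aw N (om i'))) := by
    rw [h5]; abel
  intro l
  have hmul : ∀ x y : Option (Fin n) → ℤ, ex x * ex y = ex (x + y) := by
    intro x y
    unfold ex
    rw [AddMonoidAlgebra.single_mul_single, one_mul]
  have hinv : ∀ j : Option (Fin n), (∃ k, j = some k) → D.IsInv j (ex (aw (l - N) 0)) := by
    rintro j ⟨k, rfl⟩
    have h7 := (hop _ _ D (some k)).2.2.2.2.2.2.2.2.1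
    apply h7
    rw [hA.cof]; rfl
  have hadj0 := (hadj _ _ D (fun _ => 0) (fun _ _ => by simp)).2.2.1
  have e01 : ∀ mu : Fin n → ℤ, ex (aw l mu) = ex (aw (l - N) 0) * ex (aw N mu) := by
    intro mu
    rw [hmul, aw_add]
    congr 2
    · ring
    · rw [zero_add]
  rw [e01, e01, h6, mul_sub, hadj0 _ _ _ (fun j hj => hinv j ?_), hadj0 _ _ _ (fun j hj => hinv j ?_)]
  · rw [List.mem_reverse] at hj
    exact hc j hj
  · rw [List.mem_reverse, List.mem_cons] at hj
    rcases hj with rfl | hj
    · exact ⟨i', rfl⟩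
    · exact hc j hj

end H391.KR.P_csd
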