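import Pool.Agent.H391.KR.PC

noncomputable section

namespace H391.KR.P_csig

open H391.KR Finset

variable {n : ℕ}

/-- pairing of the coroot `(a, m)` with a weight -/
def pr (a : Fin n → ℤ) (m : ℤ) (x : Option (Fin n) → ℤ) : ℤ := dot a (fp x) + m * x none

theorem wext {x y : Option (Fin n) → ℤ} (h0 : x none = y none) (h : ∀ j, x (some j) = y (some j)) :
    x = y := by
  funext o
  cases o with
  | none => exact h0
  | some j => exact h j

theorem dot_sub (a x y : Fin n → ℤ) : dot a (x - y) = dot a x - dot a y := by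
  simp [dot, mul_sub, Finset.sum_sub_distrib]

theorem dot_smul (a : Fin n → ℤ) (c : ℤ) (x : Fin n → ℤ) : dot a (c • x) = c * dot a x := by
  simp only [dot, Pi.smul_apply, smul_eq_mul, Finset.mul_sum]
  exact Finset.sum_congr rfl fun i _ => by ring

theorem sub_dot (a b x : Fin n → ℤ) : dot (a - b) x = dot a x - dot b x := by
  simp [dot, sub_mul, Finset.sum_sub_distrib]

theorem smul_dot (a : Fin n → ℤ) (c : ℤ) (x : Fin n → ℤ) : dot (c • a) x = c * dot a x := by
  simp only [dot, Pi.smul_apply, smul_eq_mul, Finset.mul_sum]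
  exact Finset.sum_congr rfl fun i _ => by ring

theorem neg_dot (a x : Fin n → ℤ) : dot (-a) x = - dot a x := by
  simp [dot]

theorem dot_neg (a x : Fin n → ℤ) : dot a (-x) = - dot a x := by
  simp [dot]

theorem dot_om (a : Fin n → ℤ) (i : Fin n) : dot a (om i) = a i := by
  simp [dot, om]

theorem cv_sub (S : SLC n) (a b : Fin n → ℤ) : S.cv (a - b) = S.cv a - S.cv b := by
  funext i
  simp [SLC.cv, mul_sub, Finset.sum_sub_distrib]

theorem cv_smul (S : SLC n) (c : ℤ) (a : Fin n → ℤ) : S.cv (c • a) = c • S.cv a := by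
  funext i
  simp only [SLC.cv, Pi.smul_apply, smul_eq_mul, Finset.mul_sum]
  exact Finset.sum_congr rfl fun j _ => by ring

theorem bf_sub_smul (S : SLC n) (a b d : Fin n → ℤ) (c : ℤ) :
    S.bf (a - c • b) d = S.bf a d - c * S.bf b d := by
  simp only [SLC.bf, sub_dot, smul_dot]

theorem pr_refl (S : SLC n) (a b : Fin n → ℤ) (m k : ℤ) (x : Option (Fin n) → ℤ) :
    pr a m (x - pr b k x • aw 0 (S.cv b)) =
      pr (a - S.bf a b • b) (m - S.bf a b * k) x := by
  have h1 : fp (x - pr b k x • aw 0 (S.cv b)) = fp x - pr b k x • S.cv b := rfl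
  have h2 : (x - pr b k x • aw 0 (S.cv b)) none = x none := by
    simp [aw]
  unfold pr at *
  rw [h1, h2, dot_sub, dot_smul, sub_dot, smul_dot]
  show _ - _ * S.bf a b + _ = _
  ring

theorem rt_refl (S : SLC n) (hs : ∀ a b, S.bf a b = S.bf b a) (a b : Fin n → ℤ) (k : ℤ)
    (hb : S.IsRoot b) :
    aw 0 (S.cv (a - S.bf a b • b)) - pr b k (aw 0 (S.cv (a - S.bf a b • b))) • aw 0 (S.cv b) =
      aw 0 (S.cv a) := by
  have h1 : pr b k (aw 0 (S.cv (a - S.bf a b • b))) = - S.bf a b := by
    have : pr b k (aw 0 (S.cv (a - S.bf a b • b))) = S.bf b (a - S.bf a b • b) + k * 0 := rfl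
    rw [this, hs, bf_sub_smul, show S.bf b b = 2 from hb]
    ring
  rw [h1, cv_sub, cv_smul]
  apply wext
  · simp [aw]
  · intro j
    simp [aw]

/-- composition of coroots with a word -/
theorem word (S : SLC n) (hs : ∀ a b, S.bf a b = S.bf b a)
    (hr : ∀ a b, S.IsRoot a → S.IsRoot b → S.IsRoot (b - S.bf a b • a))
    (D : RDat (Option (Fin n)) (Option (Fin n))) (hD : S.AffDat D)
    (w : List (Option (Fin n))) : ∀ a m, S.IsRoot a → ∃ a' m', S.IsRoot a' ∧
      (∀ x, pr a m (D.sR w x) = pr a' m' x) ∧ D.sR w (aw 0 (S.cv a')) = aw 0 (S.cv a) := by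
  induction w with
  | nil => exact fun a m ha => ⟨a, m, ha, fun x => rfl, rfl⟩
  | cons j w ih =>
    intro a m ha
    obtain ⟨a1, m1, h1, h2, h3⟩ := ih a m ha
    obtain ⟨b, k, hb, hev, hrt⟩ := hD.ev (D.sim j)
    have hsj : ∀ x, D.s j x = x - pr b k x • aw 0 (S.cv b) := by
      intro x
      unfold RDat.s RDat.co RDat.al
      rw [hrt, hev]
      rfl
    refine ⟨a1 - S.bf a1 b • b, m1 - S.bf a1 b * k, ?_, ?_, ?_⟩
    · have := hr b a1 hb.1 h1
      rwa [hs b a1] at this
    · intro x
      show pr a m (D.sR w (D.s j x)) = _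
      rw [h2, hsj, pr_refl]
    · show D.sR w (D.s j _) = _
      rw [hsj, rt_refl S hs a1 b k hb.1, h3]

theorem lev (S : SLC n) (D : RDat (Option (Fin n)) (Option (Fin n))) (hD : S.AffDat D)
    (w : List (Option (Fin n))) : ∀ x, D.sR w x none = x none := by
  induction w with
  | nil => exact fun x => rfl
  | cons j w ih =>
    intro x
    obtain ⟨b, k, hb, hev, hrt⟩ := hD.ev (D.sim j)
    show D.sR w (D.s j x) none = _
    rw [ih]
    unfold RDat.s RDat.al
    rw [hrt]
    simp [aw]

/-- inverse of the translation -/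
def ti (i : Fin n) (x : Option (Fin n) → ℤ) : Option (Fin n) → ℤ :=
  aw (x none) (fp x + x none • om i)

theorem ti_tr (i : Fin n) (x : Option (Fin n) → ℤ) : ti i (tr i x) = x := by
  apply wext
  · rfl
  · intro j
    simp [ti, tr, aw, fp]

theorem tr_ti (i : Fin n) (x : Option (Fin n) → ℤ) : tr i (ti i x) = x := by
  apply wext
  · rfl
  · intro j
    simp [ti, tr, aw, fp]

theorem tr_add (i : Fin n) (x y : Option (Fin n) → ℤ) : tr i (x + y) = tr i x + tr i y := by
  apply wext
  · rfl
  · intro j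
    simp [tr, aw, fp]
    ring

theorem pr_tr (a : Fin n → ℤ) (m : ℤ) (i : Fin n) (x : Option (Fin n) → ℤ) :
    pr a m (tr i x) = pr a (m - a i) x := by
  have h : pr a m (tr i x) = dot a (fp x - x none • om i) + m * x none := rfl
  rw [h, dot_sub, dot_smul, dot_om]
  unfold pr
  ring

theorem pr_ti (a : Fin n → ℤ) (m : ℤ) (i : Fin n) (x : Option (Fin n) → ℤ) :
    pr a m (ti i x) = pr a (m + a i) x := by
  have h := pr_tr a (m + a i) i (ti i x)
  rw [tr_ti] at h
  rw [h]
  congr 1
  ring

theorem tr_aw0 (i : Fin n) (mu : Fin n → ℤ) : tr i (aw 0 mu) = aw 0 mu := by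
  apply wext
  · rfl
  · intro j
    simp [tr, aw, fp]

theorem dot_nonneg {a x : Fin n → ℤ} (ha : ∀ i, 0 ≤ a i) (hx : ∀ i, 0 ≤ x i) : 0 ≤ dot a x :=
  Finset.sum_nonneg fun i _ => mul_nonneg (ha i) (hx i)

theorem dot_le {a b x : Fin n → ℤ} (h : ∀ i, a i ≤ b i) (hx : ∀ i, 0 ≤ x i) :
    dot a x ≤ dot b x :=
  Finset.sum_le_sum fun i _ => mul_le_mul_of_nonneg_right (h i) (hx i)

/-- the twisted group element preserves dominance -/
theorem dom_sg (S : SLC n) (D : RDat (Option (Fin n)) (Option (Fin n))) (hD : S.AffDat D)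
    (hC : SLC.C_facts) (hd : D.HD S.rho) (hN : RDat.N_desc) (i : Fin n)
    (W : List (Option (Fin n))) (hW : D.Desc W (xi i)) (hdom : D.Dom (D.sR W (xi i)))
    (z : Option (Fin n) → ℤ) (hz : D.Dom z) : ∀ b, 0 ≤ D.ev b (D.sR W (tr i z)) := by
  obtain ⟨hsym, h2, hsgn, h4, h5, hth, hth1, h8, h9, h10⟩ := hC n S
  have hneg : ∀ a, S.IsRoot a → S.IsRoot (-a) := by
    intro a ha
    have := h9 a a ha ha
    rw [show S.bf a a = 2 from ha] at this
    have e : a - (2 : ℤ) • a = -a := by
      rw [two_smul]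
      abel
    rwa [e] at this
  have hz0 : ∀ j, 0 ≤ fp z j := by
    intro j
    have := hz (some j)
    rwa [hD.cof] at this
  have hz1 : dot S.th (fp z) ≤ z none := by
    have := hz none
    rw [hD.co0] at this
    linarith
  have hl : 0 ≤ z none := le_trans (dot_nonneg (fun j => le_trans zero_le_one (hth1 j)) hz0) hz1
  have e1 : ∀ a (m : ℤ), dot a (fp (xi i)) + m * (xi i) none = m - a i := by
    intro a m
    have : dot a (fp (xi i)) + m * (xi i) none = dot a (-om i) + m * 1 := rfl
    rw [this, dot_neg, dot_om]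
    ring
  have e2 : ∀ a (m : ℤ), dot a (fp (tr i z)) + m * (tr i z) none =
      dot a (fp z) + (m - a i) * z none := fun a m => pr_tr a m i z
  refine (hN _ _ D).2.2.1 W (xi i) (tr i z) hW ?_ ?_ (fun b => hd.dom _ hdom b)
  · intro b hb
    obtain ⟨a, m, hP, hev, -⟩ := hD.ev b
    rw [hev, e1] at hb
    rw [hev, e2]
    have hm : 0 ≤ m := by
      rcases hP.2 with h | h
      · omega
      · omega
    have ha : dot a (fp z) ≤ z none := le_trans (dot_le (hth a hP.1) hz0) hz1
    have : (m - a i) * z none ≤ (-1) * z none :=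
      mul_le_mul_of_nonneg_right (by omega) hl
    linarith
  · intro b hb
    by_contra hcon
    obtain ⟨a, m, hP, hev, -⟩ := hD.ev b
    rw [hev, e1] at hcon
    rw [hev, e2] at hb
    have hpos : 0 ≤ m - a i := by omega
    rcases hsgn a hP.1 with ha | ha
    · have h1 := dot_nonneg ha hz0
      have h3 := mul_nonneg hpos hl
      linarith
    · have hm : 1 ≤ m ∨ (∀ j, 0 ≤ a j) := by
        rcases hP.2 with h | h
        · exact Or.inl h
        · exact Or.inr h.2
      rcases hm with hm | hm
      · have h1 : dot (-a) (fp z) ≤ z none :=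
          le_trans (dot_le (hth (-a) (hneg a hP.1)) hz0) hz1
        rw [neg_dot] at h1
        have h3 : 1 * z none ≤ (m - a i) * z none :=
          mul_le_mul_of_nonneg_right (by have := ha i; omega) hl
        linarith
      · have h1 := dot_nonneg hm hz0
        have h3 := mul_nonneg hpos hl
        linarith

/-- a nonnegative combination of numbers that are at least one with total one -/
theorem one_sum {ι : Type} [Fintype ι] (N c : ι → ℤ) (hN : ∀ j, 0 ≤ N j) (hc : ∀ j, 1 ≤ c j)
    (h : ∑ j, N j * c j = 1) : ∃ j, N j = 1 ∧ ∀ k, k ≠ j → N k = 0 := by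
  classical
  have h0 : ∃ j, N j ≠ 0 := by
    by_contra hcon
    push Not at hcon
    have : ∑ j, N j * c j = 0 := Finset.sum_eq_zero fun j _ => by rw [hcon j, zero_mul]
    omega
  obtain ⟨j, hj⟩ := h0
  have hj1 : 1 ≤ N j := by
    have := hN j
    omega
  have hsplit : N j * c j + ∑ k ∈ Finset.univ.erase j, N k * c k = 1 := by
    have := Finset.add_sum_erase Finset.univ (fun k => N k * c k) (Finset.mem_univ j)
    exact this.trans h
  have hnn : ∀ k ∈ Finset.univ.erase j, 0 ≤ N k * c k := fun k _ =>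
    mul_nonneg (hN k) (le_trans zero_le_one (hc k))
  have hs0 : 0 ≤ ∑ k ∈ Finset.univ.erase j, N k * c k := Finset.sum_nonneg hnn
  have hjc : N j ≤ N j * c j := by
    have := mul_le_mul_of_nonneg_left (hc j) (hN j)
    linarith
  refine ⟨j, by omega, ?_⟩
  intro k hk
  have hsum : ∑ k ∈ Finset.univ.erase j, N k * c k = 0 := by omega
  have hz := (Finset.sum_eq_zero_iff_of_nonneg hnn).1 hsum k
    (Finset.mem_erase.2 ⟨hk, Finset.mem_univ k⟩)
  rcases mul_eq_zero.1 hz with h1 | h1
  · exact h1
  · have := hc k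
    omega

theorem main : RDat.N_red → RDat.N_desc → SLC.C_facts → SLC.C_hd → SLC.C_sig := by
  intro hNr hNd hC hH n S D hD i
  have hd := hH n S D hD
  obtain ⟨hsym, h2, hsgn, h4, h5, hth, hth1, h8, h9, h10⟩ := hC n S
  have hneg : ∀ a, S.IsRoot a → S.IsRoot (-a) := by
    intro a ha
    have := h9 a a ha ha
    rw [show S.bf a a = 2 from ha] at this
    have e : a - (2 : ℤ) • a = -a := by
      rw [two_smul]
      abel
    rwa [e] at this
  -- the word
  have hxT : xi i ∈ D.T := by
    rw [hD.T]
    exact le_refl (1 : ℤ)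
  have hxi : D.co (some i) (xi i) < 0 := by
    rw [hD.cof]
    simp [xi, aw, om]
  obtain ⟨w, -, hdesc, hend⟩ := (hNr _ _ D Set.univ (xi i) hxT).2 (some i) (Set.mem_univ _) hxi
  have hdomend : D.Dom (D.sR (some i :: w) (xi i)) := fun j => hend j (Set.mem_univ _)
  obtain ⟨d1, d2, d3, d4, drev, dadd, dsm, dng, dapp, ddem, dT⟩ := hNd _ _ D
  -- the automorphism
  let W : List (Option (Fin n)) := some i :: w
  let sg : (Option (Fin n) → ℤ) ≃+ (Option (Fin n) → ℤ) :=
    { toFun := fun x => D.sR W (tr i x)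
      invFun := fun x => ti i (D.sR W.reverse x)
      left_inv := fun x => by
        show ti i (D.sR W.reverse (D.sR W (tr i x))) = x
        rw [(drev W _).1, ti_tr]
      right_inv := fun x => by
        show D.sR W (tr i (ti i (D.sR W.reverse x))) = x
        rw [tr_ti, (drev W _).2]
      map_add' := fun x y => by
        show D.sR W (tr i (x + y)) = D.sR W (tr i x) + D.sR W (tr i y)
        rw [tr_add, dadd] }
  have hsg : ∀ x, sg x = D.sR W (tr i x) := fun x => rfl
  have hsi : ∀ x, sg.symm x = ti i (D.sR W.reverse x) := fun x => rfl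
  have hlev : ∀ x, sg x none = x none := by
    intro x
    rw [hsg, lev S D hD]
    rfl
  -- dominance
  have hrdom : D.Dom S.rho := fun j => by rw [hd.one]; exact zero_le_one
  have hsdom : ∀ b, 0 ≤ D.ev b (sg S.rho) := fun b =>
    dom_sg S D hD hC hd hNd i W hdesc hdomend S.rho hrdom b
  -- positive or negative
  have hpn : ∀ a m, S.IsRoot a → S.Pos a m ∨ S.Pos (-a) (-m) := by
    intro a m ha
    rcases lt_trichotomy m 0 with h | h | h
    · exact Or.inr ⟨hneg a ha, Or.inl (by omega)⟩
    · rcases hsgn a ha with h' | h'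
      · exact Or.inl ⟨ha, Or.inr ⟨h, h'⟩⟩
      · exact Or.inr ⟨hneg a ha, Or.inr ⟨by omega, fun j => by
          have := h' j
          simp only [Pi.neg_apply]
          omega⟩⟩
    · exact Or.inl ⟨ha, Or.inl (by omega)⟩
  have prneg : ∀ (a : Fin n → ℤ) (m : ℤ) x, pr (-a) (-m) x = - pr a m x := by
    intro a m x
    unfold pr
    rw [neg_dot]
    ring
  have hphi : ∀ b, ∃ c, (∀ x, D.ev b (sg x) = D.ev c x) ∧ sg (D.rt c) = D.rt b := by
    intro b
    obtain ⟨a, m, hP, hev, hrt⟩ := hD.ev b
    obtain ⟨a', m', ha', h1, h3⟩ := word S hsym h9 D hD W a m hP.1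
    have h1' : ∀ x, D.ev b (sg x) = pr a' (m' - a' i) x := by
      intro x
      rw [hev, hsg]
      exact (h1 _).trans (pr_tr _ _ _ _)
    rcases hpn a' (m' - a' i) ha' with hq | hq
    · obtain ⟨c, hc1, hc2⟩ := hD.exi _ _ hq
      refine ⟨c, fun x => by rw [h1', hc1]; rfl, ?_⟩
      rw [hc2, hrt, hsg, tr_aw0, h3]
    · exfalso
      obtain ⟨c, hc1, hc2⟩ := hD.exi _ _ hq
      have k1 := hd.pos c
      have k2 := hsdom b
      rw [h1'] at k2
      rw [hc1] at k1
      have k3 := prneg a' (m' - a' i) S.rho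
      unfold pr at k2 k3
      omega
  have hpsi : ∀ b, ∃ c, ∀ x, D.ev b (sg.symm x) = D.ev c x := by
    intro b
    obtain ⟨a, m, hP, hev, hrt⟩ := hD.ev b
    obtain ⟨a', m', ha', h1, h3⟩ := word S hsym h9 D hD W.reverse a (m + a i) hP.1
    have h1' : ∀ x, D.ev b (sg.symm x) = pr a' m' x := by
      intro x
      rw [hev, hsi]
      exact (pr_ti _ _ _ _).trans (h1 _)
    rcases hpn a' m' ha' with hq | hq
    · obtain ⟨c, hc1, hc2⟩ := hD.exi _ _ hq
      exact ⟨c, fun x => by rw [h1', hc1]; rfl⟩
    · exfalso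
      obtain ⟨c, hc1, hc2⟩ := hD.exi _ _ hq
      obtain ⟨d, hd1, hd2⟩ := hphi c
      apply D.pos d b
      intro x
      rw [← hd1, hc1]
      have k1 := h1' (sg x)
      rw [sg.symm_apply_apply] at k1
      have k3 := prneg a' m' (sg x)
      unfold pr at k1 k3
      rw [k1]
      exact k3
  -- expansion in simple coroots
  have hexp : ∀ b, ∃ N : Option (Fin n) → ℤ, (∀ j, 0 ≤ N j) ∧
      ∀ x, D.ev b x = ∑ j, N j * D.co j x := by
    intro b
    obtain ⟨a, m, hP, hev, hrt⟩ := hD.ev b
    refine ⟨aw m (a + m • S.th), ?_, ?_⟩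
    · have hm : 0 ≤ m := by
        rcases hP.2 with h | h
        · omega
        · omega
      intro j
      cases j with
      | none => exact hm
      | some j =>
        show 0 ≤ a j + m * S.th j
        rcases hP.2 with h | h
        · have k1 := hth (-a) (hneg a hP.1) j
          have k2 : 1 * S.th j ≤ m * S.th j :=
            mul_le_mul_of_nonneg_right h (le_trans zero_le_one (hth1 j))
          simp only [Pi.neg_apply] at k1
          linarith
        · rw [h.1]
          have := h.2 j
          linarith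
    · intro x
      rw [hev, Fintype.sum_option]
      simp only [hD.cof, hD.co0]
      have k1 : ∑ j, aw m (a + m • S.th) (some j) * x (some j) =
          dot a (fp x) + m * dot S.th (fp x) := by
        simp only [dot, Finset.mul_sum, ← Finset.sum_add_distrib]
        refine Finset.sum_congr rfl fun j _ => ?_
        simp only [aw, fp, Option.elim, Pi.add_apply, Pi.smul_apply, smul_eq_mul]
        ring
      rw [k1]
      show _ = m * (x none - dot S.th (fp x)) + _
      ring
  -- the permutation of the nodes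
  have hta : ∀ k, ∃ j, ∀ x, D.co j (sg x) = D.co k x := by
    intro k
    obtain ⟨b, hb⟩ := hpsi (D.sim k)
    obtain ⟨N, hN, hNs⟩ := hexp b
    have h1 : ∑ j, N j * D.co j (sg S.rho) = 1 := by
      rw [← hNs, ← hb, sg.symm_apply_apply]
      exact hd.one k
    have h3 : ∀ j, 1 ≤ D.co j (sg S.rho) := by
      intro j
      obtain ⟨c, hc, -⟩ := hphi (D.sim j)
      show 1 ≤ D.ev (D.sim j) (sg S.rho)
      rw [hc]
      exact hd.pos c
    obtain ⟨j, hj1, hj0⟩ := one_sum N _ hN h3 h1
    refine ⟨j, fun x => ?_⟩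
    have k1 : D.ev b (sg x) = D.co k x := by
      rw [← hb, sg.symm_apply_apply]
      rfl
    rw [← k1, hNs, Finset.sum_eq_single j, hj1, one_mul]
    · intro l _ hl
      rw [hj0 l hl, zero_mul]
    · intro h
      exact absurd (Finset.mem_univ j) h
  choose ta hta using hta
  have hcoinj : ∀ k k', (∀ x, D.co k x = D.co k' x) → k = k' := by
    intro k k' h
    cases k with
    | none =>
      cases k' with
      | none => rfl
      | some j' =>
        exfalso
        have := h (aw 1 0)
        rw [hD.cof, hD.co0] at this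
        simp [aw, fp, dot] at this
    | some j =>
      cases k' with
      | none =>
        exfalso
        have := h (aw 1 0)
        rw [hD.cof, hD.co0] at this
        simp [aw, fp, dot] at this
      | some j' =>
        have := h (aw 0 (om j))
        rw [hD.cof, hD.cof] at this
        by_contra hne
        have hne' : j' ≠ j := fun e => hne (by rw [e])
        simp [aw, om, hne'] at this
  have htainj : Function.Injective ta := by
    intro k k' h
    apply hcoinj
    intro x
    rw [← hta k x, ← hta k' x, h]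
  refine ⟨{ w := w, sg := sg, ta := Equiv.ofBijective ta (Finite.injective_iff_bijective.1 htainj),
            tw := ?_, desc := hdesc, eq := fun x => rfl }⟩
  refine ⟨fun j x => hta j x, fun j => ?_, fun x => ?_⟩
  · obtain ⟨c, hc1, hc2⟩ := hphi (D.sim (ta j))
    have : c = D.sim j := by
      apply D.inj
      intro x
      rw [← hc1]
      exact hta j x
    rw [this] at hc2
    exact hc2
  · rw [hD.T]
    show 1 ≤ x none ↔ 1 ≤ sg x none
    rw [hlev]

end H391.KR.P_csig
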