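import Pool.Agent.H391.KR.PC

set_option autoImplicit false

noncomputable section

namespace H391.KR.P_cstar

open Finset H391.KR

variable {n : ℕ} (S : SLC n)

lemma dot_add (a b mu : Fin n → ℤ) : dot (a + b) mu = dot a mu + dot b mu := by
  unfold dot
  rw [← Finset.sum_add_distrib]
  exact Finset.sum_congr rfl fun i _ => by rw [Pi.add_apply]; ring

lemma dot_add' (a mu nu : Fin n → ℤ) : dot a (mu + nu) = dot a mu + dot a nu := by
  unfold dot
  rw [← Finset.sum_add_distrib]
  exact Finset.sum_congr rfl fun i _ => by rw [Pi.add_apply]; ring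

lemma dot_smul (c : ℤ) (a mu : Fin n → ℤ) : dot (c • a) mu = c * dot a mu := by
  unfold dot
  rw [Finset.mul_sum]
  exact Finset.sum_congr rfl fun i _ => by rw [Pi.smul_apply, smul_eq_mul]; ring

lemma dot_smul' (c : ℤ) (a mu : Fin n → ℤ) : dot a (c • mu) = c * dot a mu := by
  unfold dot
  rw [Finset.mul_sum]
  exact Finset.sum_congr rfl fun i _ => by rw [Pi.smul_apply, smul_eq_mul]; ring

lemma dot_neg (a mu : Fin n → ℤ) : dot (-a) mu = - dot a mu := by
  have := dot_smul (-1) a mu
  rw [neg_one_smul] at this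
  rw [this]; ring

lemma dot_om (k : Fin n) (mu : Fin n → ℤ) : dot (om k) mu = mu k := by
  unfold dot om
  rw [Finset.sum_eq_single k]
  · simp
  · intro b _ hb
    rw [if_neg hb, zero_mul]
  · intro h
    exact absurd (Finset.mem_univ k) h

lemma cv_add (a b : Fin n → ℤ) : S.cv (a + b) = S.cv a + S.cv b := by
  funext i
  unfold SLC.cv
  rw [Pi.add_apply, ← Finset.sum_add_distrib]
  exact Finset.sum_congr rfl fun j _ => by rw [Pi.add_apply]; ring

lemma cv_smul (c : ℤ) (a : Fin n → ℤ) : S.cv (c • a) = c • S.cv a := by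
  funext i
  rw [Pi.smul_apply, smul_eq_mul]
  unfold SLC.cv
  rw [Finset.mul_sum]
  exact Finset.sum_congr rfl fun j _ => by rw [Pi.smul_apply, smul_eq_mul]; ring

lemma bf_add (a b c : Fin n → ℤ) : S.bf (a + b) c = S.bf a c + S.bf b c := dot_add _ _ _

lemma bf_smul (r : ℤ) (a c : Fin n → ℤ) : S.bf (r • a) c = r * S.bf a c := dot_smul _ _ _

lemma bf_add' (a b c : Fin n → ℤ) : S.bf a (b + c) = S.bf a b + S.bf a c := by
  unfold SLC.bf
  rw [cv_add, dot_add']

lemma bf_smul' (r : ℤ) (a c : Fin n → ℤ) : S.bf a (r • c) = r * S.bf a c := by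
  unfold SLC.bf
  rw [cv_smul, dot_smul']

lemma bf_om (i j : Fin n) : S.bf (om i) (om j) = S.C i j := by
  unfold SLC.bf
  rw [dot_om]
  unfold SLC.cv om
  rw [Finset.sum_eq_single j]
  · simp
  · intro b _ hb
    rw [if_neg hb, mul_zero]
  · intro h
    exact absurd (Finset.mem_univ j) h

lemma bf_om' (a : Fin n → ℤ) (k : Fin n) : S.bf a (om k) = ∑ i, a i * S.C i k := by
  unfold SLC.bf dot
  refine Finset.sum_congr rfl fun i _ => ?_
  congr 1
  unfold SLC.cv om
  rw [Finset.sum_eq_single k]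
  · simp
  · intro b _ hb
    rw [if_neg hb, mul_zero]
  · intro h
    exact absurd (Finset.mem_univ k) h

lemma bf_neg (a b : Fin n → ℤ) : S.bf (-a) (-b) = S.bf a b := by
  have h1 := bf_smul S (-1) a (-b)
  have h2 := bf_smul' S (-1) a b
  rw [neg_one_smul] at h1 h2
  rw [h1, h2]; ring

lemma om_inj {i j : Fin n} (h : (om i : Fin n → ℤ) = om j) : i = j := by
  have h1 := congrFun h i
  unfold om at h1
  by_contra hc
  simp [hc] at h1

/-- the simple reflection on coroots -/
def rf (k : Fin n) (a : Fin n → ℤ) : Fin n → ℤ := a - S.bf a (om k) • om k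

variable {S}

lemma rf_rf (k : Fin n) (a : Fin n → ℤ) : rf S k (rf S k a) = a := by
  unfold rf
  have h1 : S.bf (a - S.bf a (om k) • om k) (om k) = - S.bf a (om k) := by
    rw [sub_eq_add_neg, ← neg_smul, bf_add, bf_smul, bf_om, S.diag]
    ring
  rw [h1]
  funext i
  simp only [Pi.sub_apply, Pi.smul_apply, smul_eq_mul]
  ring

lemma rf_add (k : Fin n) (a b : Fin n → ℤ) : rf S k (a + b) = rf S k a + rf S k b := by
  unfold rf
  rw [bf_add]
  funext i
  simp only [Pi.sub_apply, Pi.add_apply, Pi.smul_apply, smul_eq_mul]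
  ring

lemma rf_bf (hs : ∀ a b, S.bf a b = S.bf b a) (k : Fin n) (a b : Fin n → ℤ) :
    S.bf (rf S k a) (rf S k b) = S.bf a b := by
  unfold rf
  rw [sub_eq_add_neg, sub_eq_add_neg, ← neg_smul, ← neg_smul, bf_add, bf_add', bf_add', bf_smul,
    bf_smul', bf_smul, bf_smul', bf_om, S.diag, hs (om k) b]
  ring

/-- the reflection as an automorphism -/
def rfE (k : Fin n) : (Fin n → ℤ) ≃+ (Fin n → ℤ) where
  toFun := rf S k
  invFun := rf S k
  left_inv := rf_rf k
  right_inv := rf_rf k
  map_add' := rf_add k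

section

variable {D : RDat (Option (Fin n)) (Option (Fin n))} (hD : S.AffDat D)
include hD

lemma s_none (k : Fin n) (x : Option (Fin n) → ℤ) : D.s (some k) x none = x none := by
  unfold RDat.s
  rw [hD.alf, Pi.sub_apply, Pi.smul_apply, smul_eq_mul]
  show x none - D.co (some k) x * 0 = x none
  ring

lemma s_fp (k : Fin n) (x : Option (Fin n) → ℤ) (i : Fin n) :
    fp (D.s (some k) x) i = fp x i - fp x k * S.C i k := by
  unfold RDat.s fp
  rw [hD.alf, hD.cof, Pi.sub_apply, Pi.smul_apply, smul_eq_mul]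
  rfl

lemma s_dot (k : Fin n) (x : Option (Fin n) → ℤ) (a : Fin n → ℤ) :
    dot a (fp (D.s (some k) x)) = dot (rf S k a) (fp x) := by
  unfold rf
  rw [sub_eq_add_neg, ← neg_smul, dot_add, dot_smul, dot_om, bf_om']
  unfold dot
  simp only [s_fp hD]
  rw [neg_mul, Finset.sum_mul, ← Finset.sum_neg_distrib, ← Finset.sum_add_distrib]
  exact Finset.sum_congr rfl fun i _ => by ring

lemma exPhi (hs : ∀ a b, S.bf a b = S.bf b a) (w : List (Option (Fin n)))
    (hw : ∀ j ∈ w, ∃ k, j = some k) :
    ∃ φ : (Fin n → ℤ) ≃+ (Fin n → ℤ), (∀ a b, S.bf (φ a) (φ b) = S.bf a b) ∧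
      (∀ a x, dot (φ a) (fp x) = dot a (fp (D.sR w x))) ∧ ∀ x, D.sR w x none = x none := by
  induction w with
  | nil =>
    exact ⟨AddEquiv.refl _, fun _ _ => rfl, fun _ _ => rfl, fun _ => rfl⟩
  | cons j w ih =>
    obtain ⟨φ, h1, h2, h3⟩ := ih fun i hi => hw i (List.mem_cons_of_mem _ hi)
    obtain ⟨k, rfl⟩ := hw j List.mem_cons_self
    refine ⟨φ.trans (rfE (S := S) k), fun a b => ?_, fun a x => ?_, fun x => ?_⟩
    · rw [← h1 a b]
      exact rf_bf hs k _ _
    · have h4 : dot a (fp (D.sR (some k :: w) x)) = dot a (fp (D.sR w (D.s (some k) x))) := rfl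
      rw [h4, ← h2, s_dot hD]
      rfl
    · have h4 : D.sR (some k :: w) x = D.sR w (D.s (some k) x) := rfl
      rw [h4, h3, s_none hD]

lemma desc_fp (w : List (Option (Fin n))) (hw : ∀ j ∈ w, ∃ k, j = some k) :
    ∀ x y, fp x = fp y → D.Desc w x → D.Desc w y := by
  induction w with
  | nil => exact fun _ _ _ _ => trivial
  | cons j w ih =>
    intro x y hxy hx
    obtain ⟨k, rfl⟩ := hw j List.mem_cons_self
    obtain ⟨h1, h2⟩ := hx
    refine ⟨?_, ih (fun i hi => hw i (List.mem_cons_of_mem _ hi)) _ _ ?_ h2⟩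
    · rw [hD.cof] at h1 ⊢
      have := congrFun hxy k
      unfold fp at this
      rw [← this]
      exact h1
    · funext i
      rw [s_fp hD, s_fp hD, hxy]

end

lemma om_of_sum {b : Fin n → ℤ} (h0 : ∀ i, 0 ≤ b i) (h1 : b ≠ 0) (h2 : ∑ i, b i ≤ 1) :
    ∃ k, b = om k := by
  obtain ⟨k, hk⟩ : ∃ k, b k ≠ 0 := by
    by_contra hc
    push Not at hc
    exact h1 (funext hc)
  have hk1 : 1 ≤ b k := by
    have := h0 k
    omega
  have h3 : b k + ∑ i ∈ univ.erase k, b i = ∑ i, b i := Finset.add_sum_erase _ _ (Finset.mem_univ k)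
  have h4 : 0 ≤ ∑ i ∈ univ.erase k, b i := Finset.sum_nonneg fun i _ => h0 i
  have h5 : ∑ i ∈ univ.erase k, b i = 0 := by omega
  have h6 := (Finset.sum_eq_zero_iff_of_nonneg fun i _ => h0 i).1 h5
  refine ⟨k, funext fun i => ?_⟩
  unfold om
  by_cases hi : i = k
  · rw [if_pos hi, hi]
    omega
  · rw [if_neg hi]
    exact h6 i (Finset.mem_erase.2 ⟨hi, Finset.mem_univ i⟩)

lemma om_sum (k : Fin n) : ∑ i, (om k : Fin n → ℤ) i = 1 := by
  unfold om
  rw [Finset.sum_eq_single k]
  · simp
  · intro b _ hb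
    rw [if_neg hb]
  · intro h
    exact absurd (Finset.mem_univ k) h

lemma sum_exp (b : Fin n → ℤ) : b = ∑ k, b k • (om k : Fin n → ℤ) := by
  funext i
  rw [Finset.sum_apply, Finset.sum_eq_single i]
  · simp [om]
  · intro k _ hk
    rw [Pi.smul_apply, smul_eq_mul]
    unfold om
    rw [if_neg (Ne.symm hk), mul_zero]
  · intro h
    exact absurd (Finset.mem_univ i) h

/-- an automorphism preserving the positive roots in both directions permutes the simple ones -/
lemma perm_of (hpos : ∀ a, S.IsRoot a → (∀ i, 0 ≤ a i) ∨ ∀ i, a i ≤ 0)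
    (hom : ∀ i, S.IsRoot (om i)) (ψ : (Fin n → ℤ) ≃+ (Fin n → ℤ))
    (hb : ∀ a b, S.bf (ψ a) (ψ b) = S.bf a b)
    (hp : ∀ a, S.IsRoot a → (∀ i, 0 ≤ a i) → ∀ i, 0 ≤ ψ a i) :
    ∃ π : Fin n ≃ Fin n, (∀ j, ψ (om j) = om (π j)) ∧ ∀ i j, S.C (π i) (π j) = S.C i j := by
  have hr0 : ∀ a, S.IsRoot a → a ≠ 0 := by
    rintro a ha rfl
    unfold SLC.IsRoot at ha
    have := bf_smul S 0 0 0
    rw [zero_smul, zero_mul] at this
    rw [this] at ha
    exact absurd ha (by norm_num)
  have hroot : ∀ a, S.IsRoot (ψ a) ↔ S.IsRoot a := by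
    intro a
    unfold SLC.IsRoot
    rw [hb]
  have hinv : ∀ a, S.IsRoot a → (∀ i, 0 ≤ a i) → ∀ i, 0 ≤ ψ.symm a i := by
    intro a ha h0
    have h1 : S.IsRoot (ψ.symm a) := by
      rw [← hroot, AddEquiv.apply_symm_apply]
      exact ha
    rcases hpos _ h1 with h2 | h2
    · exact h2
    · exfalso
      have h3 : S.IsRoot (-(ψ.symm a)) := by
        unfold SLC.IsRoot
        rw [bf_neg]
        exact h1
      have h4 := hp _ h3 fun i => by
        have := h2 i
        rw [Pi.neg_apply]
        omega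
      rw [map_neg, AddEquiv.apply_symm_apply] at h4
      apply hr0 a ha
      funext i
      have h5 := h4 i
      have h6 := h0 i
      rw [Pi.neg_apply] at h5
      rw [Pi.zero_apply]
      omega
  have hht : ∀ a, S.IsRoot a → (∀ i, 0 ≤ a i) → 1 ≤ ∑ i, a i := by
    intro a ha h0
    by_contra hc
    have h1 : 0 ≤ ∑ i, a i := Finset.sum_nonneg fun i _ => h0 i
    have h2 : ∑ i, a i = 0 := by omega
    have h3 := (Finset.sum_eq_zero_iff_of_nonneg fun i _ => h0 i).1 h2
    exact hr0 a ha (funext fun i => h3 i (Finset.mem_univ i))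
  have hom0 : ∀ k i : Fin n, 0 ≤ (om k : Fin n → ℤ) i := by
    intro k i
    unfold om
    split_ifs <;> norm_num
  have key : ∀ j, ∃ k, ψ (om j) = om k := by
    intro j
    have h1 := hp _ (hom j) (hom0 j)
    refine om_of_sum h1 (hr0 _ ((hroot _).2 (hom j))) ?_
    have h2 : (om j : Fin n → ℤ) = ∑ k, (ψ (om j)) k • ψ.symm (om k) := by
      have h3 := congrArg ψ.symm (sum_exp (ψ (om j)))
      rw [AddEquiv.symm_apply_apply, map_sum] at h3
      refine h3.trans ?_
      exact Finset.sum_congr rfl fun k _ => by rw [map_zsmul]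
    have h3 : (1 : ℤ) = ∑ k, (ψ (om j)) k * ∑ i, ψ.symm (om k) i := by
      rw [← om_sum j]
      have h4 : ∑ i, (om j : Fin n → ℤ) i = ∑ i, (∑ k, (ψ (om j)) k • ψ.symm (om k)) i := by
        rw [← h2]
      rw [h4]
      simp only [Finset.sum_apply, Pi.smul_apply, smul_eq_mul]
      rw [Finset.sum_comm]
      exact Finset.sum_congr rfl fun k _ => by rw [Finset.mul_sum]
    rw [h3]
    refine Finset.sum_le_sum fun k _ => ?_
    have h4 := hht _ (by
      have : S.IsRoot (ψ (ψ.symm (om k))) := by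
        rw [AddEquiv.apply_symm_apply]
        exact hom k
      exact (hroot _).1 this) (hinv _ (hom k) (hom0 k))
    have h5 := mul_le_mul_of_nonneg_left h4 (h1 k)
    rw [mul_one] at h5
    exact h5
  choose π hπ using key
  have hinj : Function.Injective π := by
    intro i j hij
    apply om_inj
    apply ψ.injective
    rw [hπ, hπ, hij]
  refine ⟨Equiv.ofBijective π (Finite.injective_iff_bijective.1 hinj), hπ, fun i j => ?_⟩
  have h1 := hb (om i) (om j)
  rw [hπ, hπ, bf_om, bf_om] at h1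
  exact h1

theorem main : RDat.S_len → RDat.N_red → RDat.N_desc → RDat.N_del → SLC.C_facts → SLC.C_hd →
    SLC.C_star := by
  intro _ hred hdesc hdel hfacts hhd n S D hD
  obtain ⟨f1, -, f3, -, -, -, -, -, -, f10⟩ := hfacts n S
  obtain ⟨-, -, -, -, d5, -, -, -, d9, -, -⟩ := hdesc _ _ D
  obtain ⟨-, -, l3⟩ := hdel _ _ D _ (hhd n S D hD)
  -- one word
  have one : ∀ i' : Fin n, ∃ (c : List (Option (Fin n))) (π : Fin n ≃ Fin n),
      (∀ j ∈ c, ∃ k, j = some k) ∧ (∀ N, D.Desc (some i' :: c) (aw N fun _ => -1)) ∧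
      (∀ i j, S.C (π i) (π j) = S.C i j) ∧
      ∀ x, (D.sR (some i' :: c) x) none = x none ∧
        ∀ j, (D.sR (some i' :: c) x) (some j) = - x (some (π j)) := by
    intro i'
    have hT : (aw 1 fun _ => -1 : Option (Fin n) → ℤ) ∈ D.T := by
      rw [hD.T]
      show (1 : ℤ) ≤ 1
      exact le_refl _
    obtain ⟨c, hc1, hc2, hc3⟩ := (hred _ _ D (Set.range some) _ hT).2 (some i') ⟨i', rfl⟩ (by
      rw [hD.cof]
      show (-1 : ℤ) < 0
      norm_num)
    have hc1' : ∀ j ∈ c, ∃ k, j = some k := by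
      intro j hj
      obtain ⟨k, hk⟩ := hc1 j hj
      exact ⟨k, hk.symm⟩
    have hW : ∀ j ∈ (some i' :: c), ∃ k, j = some k := by
      intro j hj
      rcases List.mem_cons.1 hj with h | h
      · exact ⟨i', h⟩
      · exact hc1' j h
    obtain ⟨φ, p1, p2, p3⟩ := exPhi hD f1 _ hW
    obtain ⟨π, q1, q2⟩ := perm_of f3 f10 (φ.trans (AddEquiv.neg _))
      (fun a b => by
        show S.bf (-(φ a)) (-(φ b)) = S.bf a b
        rw [bf_neg, p1]) (by
        intro a ha h0
        show ∀ i, 0 ≤ (-(φ a)) i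
        have h1 : S.IsRoot (φ a) := by
          unfold SLC.IsRoot
          rw [p1]
          exact ha
        have h2 := p2 a (aw 1 fun _ => -1)
        have h3 : 0 ≤ dot a (fp (D.sR (some i' :: c) (aw 1 fun _ => -1))) := by
          refine Finset.sum_nonneg fun i _ => mul_nonneg (h0 i) ?_
          have := hc3 (some i) ⟨i, rfl⟩
          rw [hD.cof] at this
          exact this
        have h4 : dot (φ a) (fp (aw 1 fun _ => -1)) = - ∑ i, φ a i := by
          unfold dot
          rw [← Finset.sum_neg_distrib]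
          refine Finset.sum_congr rfl fun i _ => ?_
          show φ a i * (-1) = - φ a i
          ring
        rw [h4] at h2
        rw [← h2] at h3
        rcases f3 _ h1 with h5 | h5
        · have h6 : ∑ i, φ a i = 0 := le_antisymm (by omega)
            (Finset.sum_nonneg fun i _ => h5 i)
          have h7 := (Finset.sum_eq_zero_iff_of_nonneg fun i _ => h5 i).1 h6
          intro i
          rw [Pi.neg_apply, h7 i (Finset.mem_univ i)]
          norm_num
        · intro i
          rw [Pi.neg_apply]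
          have := h5 i
          omega)
    refine ⟨c, π, hc1', fun N => desc_fp hD _ hW (aw 1 fun _ => -1) _ rfl hc2, q2, fun x => ⟨p3 x, fun j => ?_⟩⟩
    have h1 := p2 (om j) x
    have h2 : φ (om j) = - om (π j) := by
      have h3 : -(φ (om j)) = om (π j) := q1 j
      rw [← h3, neg_neg]
    rw [h2, dot_neg, dot_om, dot_om] at h1
    exact h1.symm
  rcases isEmpty_or_nonempty (Fin n) with he | ⟨⟨i0⟩⟩
  · exact ⟨Equiv.refl _, fun _ _ => rfl, fun i' => (he.false i').elim⟩
  · choose c π h1 h2 h3 h4 using one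
    refine ⟨(π i0).symm, fun i j => ?_, fun i' => ⟨c i', h1 i', h2 i', fun x => ⟨(h4 i' x).1,
      fun j => ?_⟩⟩⟩
    · have := h3 i0 ((π i0).symm i) ((π i0).symm j)
      rw [Equiv.apply_symm_apply, Equiv.apply_symm_apply] at this
      exact this.symm
    · -- the two words act in the same way
      set y : Option (Fin n) → ℤ := aw (dot S.th (fun _ => 1) + 1) fun _ => 1 with hy
      have hval : ∀ i, D.sR (some i :: c i) y = aw (dot S.th (fun _ => 1) + 1) fun _ => -1 := by
        intro i
        funext o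
        cases o with
        | none => exact (h4 i y).1
        | some j => exact (h4 i y).2 j
      have hypos : ∀ j, 0 < D.co j y := by
        intro j
        cases j with
        | none =>
          rw [hD.co0]
          show 0 < (dot S.th (fun _ => 1) + 1) - dot S.th (fun _ => 1)
          omega
        | some k =>
          rw [hD.cof]
          show (0 : ℤ) < 1
          norm_num
      have hid : D.sR ((some i' :: c i') ++ (some i0 :: c i0).reverse) y = y := by
        rw [d9, hval i', ← hval i0, (d5 _ _).1]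
      have hall := (l3 ((some i' :: c i') ++ (some i0 :: c i0).reverse) y hypos (by
        rw [hid]
        exact fun j => (hypos j).le)).1
      have heq : D.sR (some i' :: c i') x = D.sR (some i0 :: c i0) x := by
        have h5 := hall x
        rw [d9] at h5
        have h6 := congrArg (D.sR (some i0 :: c i0)) h5
        rw [(d5 _ _).2] at h6
        exact h6
      rw [heq, (h4 i0 x).2, Equiv.apply_symm_apply]

end H391.KR.P_cstar
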