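import Pool.Agent.H391.KR.PM

noncomputable section

namespace H391.KR.P_demstr

open Finset H391.KR

variable {ι I : Type} (D : RDat ι I)

theorem dem_ex (j : I) (x : ι → ℤ) : D.dem j (ex x) = D.demB j x := by
  unfold RDat.dem ex
  simp

theorem co_add (j : I) (x y : ι → ℤ) : D.co j (x + y) = D.co j x + D.co j y := by
  unfold RDat.co; simp

theorem co_sub (j : I) (x y : ι → ℤ) : D.co j (x - y) = D.co j x - D.co j y := by
  unfold RDat.co; simp

theorem co_smul (j : I) (n : ℤ) (x : ι → ℤ) : D.co j (n • x) = n * D.co j x := by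
  unfold RDat.co; rw [map_zsmul, smul_eq_mul]

theorem co_al (j : I) : D.co j (D.al j) = 2 := D.ev_rt _

/-- uniform formula for the Demazure operator on `e^(x - c al)` -/
theorem demB_formula (j : I) (x : ι → ℤ) (n c : ℕ) (hx : D.co j x = n) (hc : c ≤ n) :
    D.demB j (x - (c : ℤ) • D.al j) =
      ∑ k ∈ range (n - c + 1), ex (x - (k : ℤ) • D.al j) -
        ∑ k ∈ range c, ex (x - (k : ℤ) • D.al j) := by
  have hco : D.co j (x - (c : ℤ) • D.al j) = (n : ℤ) - 2 * c := by
    rw [co_sub, co_smul, co_al, hx]; ring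
  unfold RDat.demB
  rw [hco]
  split_ifs with h
  · have h2 : 2 * c ≤ n := by omega
    have e1 : ((n : ℤ) - 2 * c).toNat + 1 = n - 2 * c + 1 := by omega
    rw [e1]
    have e2 : n - c + 1 = c + (n - 2 * c + 1) := by omega
    rw [e2, Finset.sum_range_add _ c (n - 2 * c + 1), add_sub_cancel_left]
    apply Finset.sum_congr rfl
    intro k _
    congr 1
    push_cast
    rw [sub_sub, ← add_smul]
  · have h2 : n < 2 * c := by omega
    have e1 : (-((n : ℤ) - 2 * c)).toNat - 1 = 2 * c - n - 1 := by omega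
    rw [e1]
    have e2 : c = (n - c + 1) + (2 * c - n - 1) := by omega
    have e3 : ∑ k ∈ range c, ex (x - (k : ℤ) • D.al j) =
        ∑ k ∈ range (n - c + 1), ex (x - (k : ℤ) • D.al j) +
          ∑ k ∈ range (2 * c - n - 1), ex (x - ((n - c + 1 + k : ℕ) : ℤ) • D.al j) := by
      conv_lhs => rw [e2]
      rw [Finset.sum_range_add]
    rw [e3, sub_add_cancel_left]
    congr 1
    rw [← Finset.sum_range_reflect]
    apply Finset.sum_congr rfl
    intro k hk
    rw [Finset.mem_range] at hk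
    congr 1
    have e4 : ((2 * c - n - 1 - 1 - k : ℕ) : ℤ) = 2 * c - n - 1 - 1 - k := by omega
    rw [e4]
    have e5 : ((n - c + 1 + k : ℕ) : ℤ) = n - c + 1 + k := by omega
    rw [e5, sub_add, ← sub_smul]
    congr 2
    ring

theorem sum_demB (j : I) (x : ι → ℤ) (n : ℕ) (hx : D.co j x = n) :
    ∑ c ∈ range (n + 1), D.demB j (x - (c : ℤ) • D.al j) =
      ∑ c ∈ range (n + 1), ex (x - (c : ℤ) • D.al j) := by
  set F : ℕ → GR ι := fun m => ∑ k ∈ range m, ex (x - (k : ℤ) • D.al j) with hF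
  have h1 : ∑ c ∈ range (n + 1), D.demB j (x - (c : ℤ) • D.al j) =
      ∑ c ∈ range (n + 1), (F (n - c + 1) - F c) := by
    apply Finset.sum_congr rfl
    intro c hc
    rw [Finset.mem_range] at hc
    exact demB_formula D j x n c hx (by omega)
  rw [h1, Finset.sum_sub_distrib]
  have h2 : ∑ c ∈ range (n + 1), F (n - c + 1) = ∑ c ∈ range (n + 1), F (c + 1) := by
    rw [← Finset.sum_range_reflect]
    apply Finset.sum_congr rfl
    intro c hc
    rw [Finset.mem_range] at hc
    congr 1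
    omega
  rw [h2]
  have h3 := Finset.sum_range_succ' F (n + 1)
  have h4 := Finset.sum_range_succ F (n + 1)
  have h5 : F 0 = 0 := by simp [hF]
  rw [h5, add_zero] at h3
  rw [← h3, h4, add_sub_cancel_left]

theorem H_eq (j : I) (L : ℕ) (τ : ℕ → ι → ℤ) : D.H j τ L = D.co j (tot L τ) := by
  unfold RDat.H RDat.co
  have : tot L τ = ∑ l ∈ range L, τ l := by
    funext i; simp [tot]
  rw [this, map_sum]

section strings

variable {M L : ℕ} {j : I} {B : Set (ℕ → ι → ℤ)} (st : D.Str M 0 L j B)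

theorem iter_f (h : ℕ → ι → ℤ) (hB : h ∈ B) (h0 : st.ep h = 0) :
    ∀ c, c ≤ st.ph h → st.f^[c] h ∈ B ∧ st.ep (st.f^[c] h) = c ∧
      st.ph (st.f^[c] h) = st.ph h - c ∧ st.e^[c] (st.f^[c] h) = h ∧
      tot L (st.f^[c] h) = tot L h - (c : ℤ) • ((M : ℤ) • D.al j) := by
  intro c
  induction c with
  | zero => intro _; simp [hB, h0]
  | succ c ih =>
    intro hc
    obtain ⟨a1, a2, a3, a4, a5⟩ := ih (by omega)
    obtain ⟨b1, b2, b3, b4, b5, _⟩ := st.hf _ a1 (by omega)
    rw [Function.iterate_succ_apply']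
    refine ⟨b1, by rw [b3, a2], by omega, ?_, ?_⟩
    · rw [Function.iterate_succ_apply, b2, a4]
    · rw [b5, a5]
      push_cast
      rw [add_smul, one_smul]
      abel

theorem iter_e (τ : ℕ → ι → ℤ) (hB : τ ∈ B) :
    ∀ c, c ≤ st.ep τ → st.e^[c] τ ∈ B ∧ st.ep (st.e^[c] τ) = st.ep τ - c ∧
      st.ph (st.e^[c] τ) = st.ph τ + c ∧ st.f^[c] (st.e^[c] τ) = τ := by
  intro c
  induction c with
  | zero => intro _; simp [hB]
  | succ c ih =>
    intro hc
    obtain ⟨a1, a2, a3, a4⟩ := ih (by omega)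
    obtain ⟨b1, b2, b3, b4, b5, _⟩ := st.he _ a1 (by omega)
    rw [Function.iterate_succ_apply']
    refine ⟨b1, by omega, by omega, ?_⟩
    rw [Function.iterate_succ_apply, b2, a4]

/-- a sum over `B` is a sum over the strings -/
theorem sum_strings {A : Type} [AddCommMonoid A] (b : Finset (ℕ → ι → ℤ))
    (hb : ∀ τ, τ ∈ b ↔ τ ∈ B) (φ : (ℕ → ι → ℤ) → A) :
    ∑ τ ∈ b, φ τ = ∑ h ∈ b.filter (fun τ => st.ep τ = 0),
      ∑ c ∈ range (st.ph h + 1), φ (st.f^[c] h) := by
  classical
  rw [Finset.sum_sigma']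
  refine Finset.sum_bij' (fun τ _ => ⟨st.e^[st.ep τ] τ, st.ep τ⟩) (fun p _ => st.f^[p.2] p.1)
    ?_ ?_ ?_ ?_ ?_
  · intro τ hτ
    obtain ⟨a1, a2, a3, a4⟩ := iter_e D st τ ((hb τ).1 hτ) (st.ep τ) le_rfl
    simp only [Finset.mem_sigma, Finset.mem_filter, Finset.mem_range]
    refine ⟨⟨(hb _).2 a1, by rw [a2]; omega⟩, by omega⟩
  · rintro ⟨h, c⟩ hp
    simp only [Finset.mem_sigma, Finset.mem_filter, Finset.mem_range] at hp
    obtain ⟨a1, -⟩ := iter_f D st h ((hb h).1 hp.1.1) hp.1.2 c (by omega)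
    exact (hb _).2 a1
  · intro τ hτ
    obtain ⟨a1, a2, a3, a4⟩ := iter_e D st τ ((hb τ).1 hτ) (st.ep τ) le_rfl
    exact a4
  · rintro ⟨h, c⟩ hp
    simp only [Finset.mem_sigma, Finset.mem_filter, Finset.mem_range] at hp
    obtain ⟨a1, a2, a3, a4, a5⟩ := iter_f D st h ((hb h).1 hp.1.1) hp.1.2 c (by omega)
    simp only [a2, a4]
  · intro τ hτ
    obtain ⟨a1, a2, a3, a4⟩ := iter_e D st τ ((hb τ).1 hτ) (st.ep τ) le_rfl
    simp only [a4]

end strings

theorem main : RDat.S_demstr := by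
  classical
  intro ι I D M L j B B' hM hfin hsub hwt st hhead hclosed
  have hM' : (M : ℤ) ≠ 0 := by exact_mod_cast hM.ne'
  -- weights along a string
  have hco : ∀ τ ∈ B, D.co j (wt M L τ) = st.ph τ - st.ep τ := by
    intro τ hτ
    have h1 := st.h1 τ hτ
    rw [H_eq, hwt τ hτ, co_smul] at h1
    have h2 : (M : ℤ) * (D.co j (wt M L τ)) = M * (st.ph τ - st.ep τ) := by
      rw [← h1]; ring
    exact mul_left_cancel₀ hM' h2
  have hcanc : ∀ x y : ι → ℤ, (M : ℤ) • x = (M : ℤ) • y → x = y := by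
    intro x y hxy
    funext i
    have := congrFun hxy i
    simp only [Pi.smul_apply, smul_eq_mul] at this
    exact mul_left_cancel₀ hM' this
  have hwtf : ∀ h ∈ B, st.ep h = 0 → ∀ c, c ≤ st.ph h →
      wt M L (st.f^[c] h) = wt M L h - (c : ℤ) • D.al j := by
    intro h hh h0 c hc
    obtain ⟨a1, a2, a3, a4, a5⟩ := iter_f D st h hh h0 c hc
    apply hcanc
    rw [← hwt _ a1, a5, hwt h hh, smul_sub, smul_comm]
  set b := hfin.toFinset with hb
  have hbm : ∀ τ, τ ∈ b ↔ τ ∈ B := fun τ => hfin.mem_toFinset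
  set b' := (hfin.subset hsub).toFinset with hb'
  have hbm' : ∀ τ, τ ∈ b' ↔ τ ∈ B' := fun τ => (hfin.subset hsub).mem_toFinset
  have hch : chS M L B = ∑ τ ∈ b, ex (wt M L τ) := by
    unfold chS
    rw [finsum_mem_eq_finite_toFinset_sum _ hfin]
  have hch' : chS M L B' = ∑ τ ∈ b', ex (wt M L τ) := by
    unfold chS
    rw [finsum_mem_eq_finite_toFinset_sum _ (hfin.subset hsub)]
  rw [hch, hch', map_sum]
  simp only [dem_ex]
  have hsub' : b' = b.filter (fun τ => τ ∈ B') := by
    ext τ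
    rw [hbm', Finset.mem_filter, hbm]
    exact ⟨fun h => ⟨hsub h, h⟩, fun h => h.2⟩
  rw [hsub', Finset.sum_filter, sum_strings D st b hbm, sum_strings D st b hbm]
  apply Finset.sum_congr rfl
  intro h hh
  rw [Finset.mem_filter, hbm] at hh
  obtain ⟨hhB, hh0⟩ := hh
  have hx : D.co j (wt M L h) = (st.ph h : ℤ) := by
    rw [hco h hhB, hh0]; simp
  have hR : ∑ c ∈ range (st.ph h + 1), ex (wt M L (st.f^[c] h)) =
      ∑ c ∈ range (st.ph h + 1), ex (wt M L h - (c : ℤ) • D.al j) := by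
    apply Finset.sum_congr rfl
    intro c hc
    rw [Finset.mem_range] at hc
    rw [hwtf h hhB hh0 c (by omega)]
  rw [hR]
  have hhB' : h ∈ B' := hhead h hhB hh0
  by_cases hcase : 0 < st.ph h ∧ st.f h ∈ B'
  · -- the full string is in `B'`
    have hall : ∀ c, c ≤ st.ph h → st.f^[c] h ∈ B' := by
      intro c
      induction c with
      | zero => intro _; exact hhB'
      | succ c ih =>
        intro hc
        rw [Function.iterate_succ_apply']
        rcases Nat.eq_zero_or_pos c with h0 | h0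
        · subst h0; exact hcase.2
        · obtain ⟨a1, a2, a3, a4, a5⟩ := iter_f D st h hhB hh0 c (by omega)
          exact (hclosed _ (ih (by omega)) (by omega)).2 (by omega)
    rw [← sum_demB D j (wt M L h) (st.ph h) hx]
    apply Finset.sum_congr rfl
    intro c hc
    rw [Finset.mem_range] at hc
    rw [if_pos (hall c (by omega)), hwtf h hhB hh0 c (by omega)]
  · -- only the head is in `B'`
    have hnone : ∀ c, c + 1 ≤ st.ph h → st.f^[c + 1] h ∉ B' := by
      intro c
      induction c with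
      | zero =>
        intro hc hmem
        exact hcase ⟨by omega, hmem⟩
      | succ c ih =>
        intro hc hmem
        obtain ⟨a1, a2, a3, a4, a5⟩ := iter_f D st h hhB hh0 (c + 1) (by omega)
        obtain ⟨c1, c2, c3, c4, c5⟩ := iter_f D st h hhB hh0 (c + 1 + 1) hc
        obtain ⟨b1, b2, -⟩ := st.hf _ a1 (by omega)
        have e1 := (hclosed _ hmem (by omega)).1
        rw [Function.iterate_succ_apply', b2] at e1
        exact ih (by omega) e1
    rw [Finset.sum_range_succ']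
    have hz : ∑ c ∈ range (st.ph h),
        (if st.f^[c + 1] h ∈ B' then D.demB j (wt M L (st.f^[c + 1] h)) else 0) = 0 := by
      apply Finset.sum_eq_zero
      intro c hc
      rw [Finset.mem_range] at hc
      rw [if_neg (hnone c (by omega))]
    rw [hz, zero_add, Function.iterate_zero, id, if_pos hhB']
    have := demB_formula D j (wt M L h) (st.ph h) 0 hx (by omega)
    simpa using this

end H391.KR.P_demstr
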