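import Pool.Agent.H391.KR.PM

/-! S_e: the raising operator. -/

namespace H391.KR.P_e

open Finset

theorem main : RDat.S_cong → RDat.S_len → RDat.S_chain → RDat.S_int → RDat.S_e := by
  intro _ _ hchain hint ι I D M a L k j hctx τ hτ Q hmin hex hQ
  obtain ⟨hctx0, -⟩ := hctx
  have hMpos : 0 < M := hctx0.2.1.1
  have hMz : (0 : ℤ) < M := by exact_mod_cast hMpos
  obtain ⟨i1, i2, i3, -, i5, i6, -, i8, i9⟩ := hint ι I D M a L k j hctx0 τ hτ
  obtain ⟨t1, t2, t3⟩ := hτ
  have hsucc : ∀ l, D.H j τ (l + 1) = D.H j τ l + D.co j (τ l) := by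
    intro l
    unfold RDat.H
    rw [Finset.sum_range_succ]
  have hMQ : (M : ℤ) ∣ Q := i9 Q hmin hex
  obtain ⟨q, hq⟩ := hMQ
  -- `M` divides no value strictly between `Q` and `Q + M`
  have hnd : ∀ v : ℤ, Q < v → v < Q + M → ¬ (M : ℤ) ∣ v := by
    rintro v h1 h2 ⟨r, hr⟩
    have h3 : (M : ℤ) * q < M * r := by rw [← hq, ← hr]; exact h1
    have h4 : (M : ℤ) * r < M * (q + 1) := by rw [← hr, mul_add, mul_one, ← hq]; exact h2
    have h5 := lt_of_mul_lt_mul_left h3 hMz.le
    have h6 := lt_of_mul_lt_mul_left h4 hMz.le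
    omega
  have hQM : Q + M ≤ 0 := by
    have h1 : q < 0 := by
      by_contra h
      have : 0 ≤ (M : ℤ) * q := mul_nonneg hMz.le (not_lt.mp h)
      rw [← hq] at this
      omega
    have h2 : (M : ℤ) * (q + 1) ≤ 0 := mul_nonpos_of_nonneg_of_nonpos hMz.le (by omega)
    rw [mul_add, mul_one, ← hq] at h2
    exact h2
  -- the first position of the minimum
  classical
  have hex' : ∃ l, a ≤ l ∧ l ≤ L ∧ D.H j τ l = Q := hex
  obtain ⟨l1, ⟨h1a, h1L, h1Q⟩, h1min⟩ : ∃ l1, (a ≤ l1 ∧ l1 ≤ L ∧ D.H j τ l1 = Q) ∧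
      ∀ l, l < l1 → ¬ (a ≤ l ∧ l ≤ L ∧ D.H j τ l = Q) :=
    ⟨Nat.find hex', Nat.find_spec hex', fun l hl => Nat.find_min hex' hl⟩
  have h1a' : a < l1 := by
    rcases Nat.lt_or_eq_of_le h1a with h | h
    · exact h
    · subst h
      rw [i5] at h1Q
      omega
  have hlt1 : ∀ l, a ≤ l → l < l1 → Q < D.H j τ l := by
    intro l h2 h3
    have h4 := hmin l h2 (by omega)
    rcases lt_or_eq_of_le h4 with h | h
    · exact h
    · exact absurd ⟨h2, by omega, h.symm⟩ (h1min l h3)
  -- the last position before it with height at least `Q + M`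
  obtain ⟨l0, ⟨h0a, h01, h0Q⟩, h0max⟩ : ∃ l0, (a ≤ l0 ∧ l0 < l1 ∧ Q + M ≤ D.H j τ l0) ∧
      ∀ l, l0 < l → l < l1 → ¬ (Q + M ≤ D.H j τ l) := by
    set S : Finset ℕ := (Finset.range l1).filter fun l => a ≤ l ∧ Q + M ≤ D.H j τ l with hS
    have hmem : ∀ l, l ∈ S ↔ l < l1 ∧ a ≤ l ∧ Q + M ≤ D.H j τ l := by
      intro l
      rw [hS, Finset.mem_filter, Finset.mem_range]
    have hne : S.Nonempty := ⟨a, (hmem a).mpr ⟨h1a', le_refl a, by rw [i5]; exact hQM⟩⟩
    have hm := (hmem _).mp (Finset.max'_mem S hne)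
    refine ⟨S.max' hne, ⟨hm.2.1, hm.1, hm.2.2⟩, ?_⟩
    intro l h2 h3 h4
    have h5 := Finset.le_max' S l ((hmem l).mpr ⟨h3, hm.2.1.trans h2.le, h4⟩)
    omega
  have hbelow : ∀ l, l0 < l → l < l1 → D.H j τ l < Q + M := fun l h2 h3 =>
    not_le.mp (h0max l h2 h3)
  have hnext : D.H j τ (l0 + 1) < Q + M := by
    rcases Nat.lt_or_eq_of_le (show l0 + 1 ≤ l1 by omega) with h | h
    · exact hbelow _ (by omega) h
    · rw [h, h1Q]
      omega
  have h0Q' : D.H j τ l0 = Q + M := by
    by_contra hne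
    have h2 : Q + M < D.H j τ l0 := lt_of_le_of_ne h0Q (Ne.symm hne)
    have h3 : (q + 1) * (M : ℤ) = Q + M := by rw [hq]; ring
    refine (i8 l0 h0a (by omega) (q + 1)).2 ⟨?_, ?_⟩
    · rw [h3]; exact hnext
    · rw [h3]; exact h2
  -- the directions are negative
  have hneg : ∀ l, l0 ≤ l → l < l1 → D.co j (τ l) < 0 := by
    intro l hl
    induction l, hl using Nat.le_induction with
    | base =>
      intro _
      have := hsucc l0
      omega
    | succ l hl ih =>
      intro h2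
      by_contra h3
      have h4 := i6 (l + 1) (by omega) (by omega) (by
        rw [Nat.add_sub_cancel]
        exact ih (by omega)) (not_lt.mp h3)
      exact hnd _ (hlt1 (l + 1) (by omega) h2) (hbelow (l + 1) (by omega) h2) h4
  refine ⟨l0, l1, h0a, h01, h1L, h1Q, hlt1, h0Q', hbelow, hneg, ?_⟩
  -- the new path
  have hin : ∀ l, l0 ≤ l → l < l1 → D.rseg j l0 l1 τ l = D.s j (τ l) := by
    intro l h2 h3
    unfold RDat.rseg
    rw [if_pos ⟨h2, h3⟩]
  have hout : ∀ l, ¬ (l0 ≤ l ∧ l < l1) → D.rseg j l0 l1 τ l = τ l := by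
    intro l h2
    unfold RDat.rseg
    rw [if_neg h2]
  have hstep0 : D.Rel M l0 (τ l0) (D.s j (τ l0)) := by
    have h2 := hchain ι I D M l0 (τ l0) (τ l0) (i1 l0 h0a (by omega)).1 Relation.ReflTransGen.refl j
    refine Relation.ReflTransGen.single (h2.2.2.2.2.1 (hneg l0 (le_refl _) h01) ?_)
    have h3 := i2 l0 h0a (by omega)
    rw [h0Q'] at h3
    have h4 : (M : ℤ) ∣ Q + M := ⟨q + 1, by rw [hq]; ring⟩
    have h5 := dvd_sub h4 h3
    rwa [sub_sub_cancel] at h5
  refine ⟨?_, ?_, ?_⟩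
  · intro haL
    rcases Nat.lt_or_eq_of_le h0a with h | h
    · rw [hout a (by omega)]
      exact t1 haL
    · rw [hin a (by omega) h1a']
      subst h
      exact (t1 haL).trans hstep0
  · intro l hal hlL
    rcases lt_trichotomy l l0 with h | h | h
    · rw [hout l (by omega), hout (l - 1) (by omega)]
      exact t2 l hal hlL
    · subst h
      rw [hout (l - 1) (by omega), hin l (le_refl _) h01]
      exact (t2 l hal hlL).trans hstep0
    · rcases lt_trichotomy l l1 with h' | h' | h'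
      · rw [hin l h.le h', hin (l - 1) (by omega) (by omega)]
        have h2 := hchain ι I D M l (τ (l - 1)) (τ l) (i1 (l - 1) (by omega) (by omega)).1
          (t2 l hal hlL) j
        refine (h2.2.2.2.1 ?_ (hneg (l - 1) (by omega) (by omega))).2
        intro h3
        have h4 := i3 l hal hlL.le
        have h5 := dvd_add h4 h3
        rw [sub_add_cancel] at h5
        exact hnd _ (hlt1 l (by omega) h') (hbelow l h h') h5
      · subst h'
        rw [hout l (by omega), hin (l - 1) (by omega) (by omega)]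
        have h2 := hchain ι I D M l (τ (l - 1)) (τ l) (i1 (l - 1) (by omega) (by omega)).1
          (t2 l hal hlL) j
        refine (h2.1 (hneg (l - 1) (by omega) (by omega)) ?_).1
        have h3 := hmin (l + 1) (by omega) (by omega)
        have h4 := hsucc l
        omega
      · rw [hout l (by omega), hout (l - 1) (by omega)]
        exact t2 l hal hlL
  · intro l hl
    rw [hout l (by omega)]
    exact t3 l hl

end H391.KR.P_e
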