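import Pool.Agent.H391.KR.PM

/-!
# KR-f: the lowering operator
-/

namespace H391.KR.P_f

open H391.KR H391.KR.RDat Finset

variable {ι I : Type} (D : RDat ι I)

theorem H_succ (j : I) (τ : ℕ → ι → ℤ) (l : ℕ) : D.H j τ (l + 1) = D.H j τ l + D.co j (τ l) := by
  unfold RDat.H
  rw [Finset.sum_range_succ]

/-- last position with value `Q` -/
theorem exists_last (h : ℕ → ℤ) (a L : ℕ) (Q : ℤ) (hex : ∃ l, a ≤ l ∧ l ≤ L ∧ h l = Q) :
    ∃ l0, a ≤ l0 ∧ l0 ≤ L ∧ h l0 = Q ∧ ∀ l, l0 < l → l ≤ L → h l ≠ Q := by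
  classical
  obtain ⟨l, h1, h2, h3⟩ := hex
  refine ⟨Nat.findGreatest (fun l => a ≤ l ∧ h l = Q) L, ?_, Nat.findGreatest_le L, ?_, ?_⟩
  · exact (Nat.findGreatest_spec (P := fun l => a ≤ l ∧ h l = Q) h2 ⟨h1, h3⟩).1
  · exact (Nat.findGreatest_spec (P := fun l => a ≤ l ∧ h l = Q) h2 ⟨h1, h3⟩).2
  · intro m hm hmL hmQ
    have hle : Nat.findGreatest (fun l => a ≤ l ∧ h l = Q) L < m := hm
    have := Nat.le_findGreatest (P := fun l => a ≤ l ∧ h l = Q) hmL
      ⟨(Nat.findGreatest_spec (P := fun l => a ≤ l ∧ h l = Q) h2 ⟨h1, h3⟩).1.trans hm.le, hmQ⟩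
    omega

/-- first position with property `p` above `l0` -/
theorem exists_first (p : ℕ → Prop) (l0 L : ℕ) (h0 : l0 < L) (hL : p L) :
    ∃ l1, l0 < l1 ∧ l1 ≤ L ∧ p l1 ∧ ∀ l, l0 < l → l < l1 → ¬ p l := by
  classical
  have hex : ∃ l, l0 < l ∧ p l := ⟨L, h0, hL⟩
  refine ⟨Nat.find hex, (Nat.find_spec hex).1, Nat.find_min' hex ⟨h0, hL⟩, (Nat.find_spec hex).2, ?_⟩
  intro l hl hl1 hp
  exact Nat.find_min hex hl1 ⟨hl, hp⟩

theorem not_dvd_between {M Q x : ℤ} (hQ : M ∣ Q) (h1 : Q < x) (h2 : x < Q + M) : ¬ M ∣ x := by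
  intro hx
  have h3 : M ∣ x - Q := dvd_sub hx hQ
  have h4 := Int.le_of_dvd (by linarith) h3
  linarith

theorem main : RDat.S_cong → RDat.S_len → RDat.S_chain → RDat.S_int → RDat.S_f := by
  intro _ _ hchain hint ι I D M a L k j hctx τ hτ Q hQmin hQex hQL
  obtain ⟨hctx0, hk0⟩ := hctx
  have hint' := hint ι I D M a L k j hctx0 τ hτ
  obtain ⟨i1, i2, i3, i4, i5, i6, i7, i8, i9⟩ := hint'
  obtain ⟨hkT, hgood, hML, haL, haM⟩ := hctx0
  obtain ⟨t1, t2, t3⟩ := hτ
  have hMpos : (0 : ℤ) < M := by exact_mod_cast hgood.1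
  have hMQ : (M : ℤ) ∣ Q := i9 Q hQmin hQex
  obtain ⟨l0, hl0a, hl0L, hl0Q, hl0last⟩ := exists_last (D.H j τ) a L Q hQex
  have hl0L' : l0 < L := by
    rcases Nat.lt_or_ge l0 L with h | h
    · exact h
    · have : l0 = L := le_antisymm hl0L h
      rw [this] at hl0Q; omega
  have hgt : ∀ l, l0 < l → l ≤ L → Q < D.H j τ l := by
    intro l hl hlL
    exact lt_of_le_of_ne (hQmin l (by omega) hlL) (fun h => hl0last l hl hlL h.symm)
  have hHL : Q + M ≤ D.H j τ L := by
    have h1 : (M : ℤ) ∣ D.H j τ L - Q := dvd_sub i4 hMQ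
    have h2 := Int.le_of_dvd (by linarith) h1
    linarith
  obtain ⟨l1, hl01, hl1L, hl1Q, hl1first⟩ :=
    exists_first (fun l => Q + M ≤ D.H j τ l) l0 L hl0L' hHL
  have hlt : ∀ l, l0 < l → l < l1 → D.H j τ l < Q + M := by
    intro l h1 h2
    exact not_le.1 (hl1first l h1 h2)
  have hlt' : ∀ l, l0 ≤ l → l < l1 → D.H j τ l < Q + M := by
    intro l h1 h2
    rcases Nat.eq_or_lt_of_le h1 with h | h
    · rw [← h, hl0Q]; linarith
    · exact hlt l h h2
  have hMQ' : (M : ℤ) ∣ Q + M := dvd_add hMQ (dvd_refl _)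
  have hl1eq : D.H j τ l1 = Q + M := by
    refine le_antisymm ?_ hl1Q
    by_contra hne
    push Not at hne
    obtain ⟨m, rfl⟩ : ∃ m, l1 = m + 1 := ⟨l1 - 1, by omega⟩
    obtain ⟨q, hq⟩ := hMQ'
    have h1 := hlt' m (by omega) (by omega)
    have h2 := (i8 m (by omega) (by omega) q).1
    apply h2
    have hq' : q * M = Q + M := by rw [hq]; ring
    rw [hq']
    exact ⟨h1, hne⟩
  have hnd : ∀ l, l0 < l → l < l1 → ¬ (M : ℤ) ∣ D.H j τ l := by
    intro l h1 h2
    exact not_dvd_between hMQ (hgt l h1 (by omega)) (hlt l h1 h2)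
  -- positivity between `l0` and `l1`
  have hpos' : ∀ d l, l0 ≤ l → l + d + 1 = l1 → 0 < D.co j (τ l) := by
    intro d
    induction d with
    | zero =>
      intro l h1 h2
      have h3 := hlt' l h1 (by omega)
      have h4 := H_succ D j τ l
      rw [show l + 1 = l1 by omega, hl1eq] at h4
      linarith
    | succ d ih =>
      intro l h1 h2
      have h3 := ih (l + 1) (by omega) (by omega)
      by_contra hne
      push Not at hne
      exact hnd (l + 1) (by omega) (by omega) (i7 (l + 1) (by omega) (by omega)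
        (by rw [Nat.add_sub_cancel]; exact hne) h3)
  have hpos : ∀ l, l0 ≤ l → l < l1 → 0 < D.co j (τ l) := by
    intro l h1 h2
    exact hpos' (l1 - 1 - l) l h1 (by omega)
  -- lower bound after `l1`
  have hafter : ∀ l, l1 ≤ l → l ≤ L → Q + M ≤ D.H j τ l := by
    by_contra hcon
    push Not at hcon
    obtain ⟨m, hm1, hmL, hmQ⟩ := hcon
    have hm1' : l1 < m := by
      rcases Nat.eq_or_lt_of_le hm1 with h | h
      · rw [← h, hl1eq] at hmQ; omega
      · exact h
    obtain ⟨l2, h12, h2m, h2Q, h2first⟩ :=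
      exists_first (fun l => D.H j τ l < Q + M) l1 m hm1' hmQ
    obtain ⟨n, rfl⟩ : ∃ n, l2 = n + 1 := ⟨l2 - 1, by omega⟩
    have hn : Q + M ≤ D.H j τ n := by
      rcases Nat.eq_or_lt_of_le (show l1 ≤ n by omega) with h | h
      · rw [← h, hl1eq]
      · exact not_lt.1 (h2first n h (by omega))
    have hco : D.co j (τ n) ≤ 0 := by
      have := H_succ D j τ n
      linarith
    have key : ∀ l, n + 1 ≤ l → l ≤ L → D.H j τ l < Q + M ∧ D.co j (τ (l - 1)) ≤ 0 := by
      intro l hl
      induction l, hl using Nat.le_induction with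
      | base => intro _; exact ⟨h2Q, by rw [Nat.add_sub_cancel]; exact hco⟩
      | succ l hl ih =>
        intro hlL
        obtain ⟨e1, e2⟩ := ih (by omega)
        have e3 : D.co j (τ l) ≤ 0 := by
          by_contra hne
          push Not at hne
          have e4 := i7 l (by omega) (by omega) e2 hne
          exact not_dvd_between hMQ (hgt l (by omega) (by omega)) e1 e4
        refine ⟨?_, by rw [Nat.add_sub_cancel]; exact e3⟩
        rw [H_succ]; linarith
    have := (key L (by omega) le_rfl).1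
    linarith
  refine ⟨l0, l1, hl0a, hl01, hl1L, hl0Q, hgt, hl1eq, hlt, hafter, hpos, ?_⟩
  -- the reflected path
  have r_in : ∀ l, l0 ≤ l → l < l1 → D.rseg j l0 l1 τ l = D.s j (τ l) := by
    intro l h1 h2
    unfold RDat.rseg
    rw [if_pos ⟨h1, h2⟩]
  have r_lo : ∀ l, l < l0 → D.rseg j l0 l1 τ l = τ l := by
    intro l h1
    unfold RDat.rseg
    rw [if_neg (by omega)]
  have r_hi : ∀ l, l1 ≤ l → D.rseg j l0 l1 τ l = τ l := by
    intro l h1
    unfold RDat.rseg
    rw [if_neg (by omega)]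
  refine ⟨?_, ?_, ?_⟩
  · intro haL'
    rcases Nat.eq_or_lt_of_le hl0a with h | h
    · have hc := hchain ι I D M a k (τ a) hkT (t1 haL') j
      rw [r_in a (by omega) (by omega)]
      exact (hc.2.1 hk0 (hpos a (by omega) (by omega))).1
    · rw [r_lo a h]
      exact t1 haL'
  · intro l hal hlL
    have hT : τ (l - 1) ∈ D.T := (i1 (l - 1) (by omega) (by omega)).1
    have hR := t2 l hal hlL
    have hc := hchain ι I D M l (τ (l - 1)) (τ l) hT hR j
    rcases lt_trichotomy l l0 with h | h | h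
    · rw [r_lo l h, r_lo (l - 1) (by omega)]
      exact hR
    · rw [r_lo (l - 1) (by omega), r_in l (by omega) (by omega)]
      refine (hc.2.1 ?_ (hpos l (by omega) (by omega))).1
      have e1 := H_succ D j τ (l - 1)
      rw [show l - 1 + 1 = l by omega] at e1
      have e2 := hQmin (l - 1) (by omega) (by omega)
      rw [h] at e1 e2 ⊢
      linarith
    · rcases lt_trichotomy l l1 with h' | h' | h'
      · rw [r_in (l - 1) (by omega) (by omega), r_in l (by omega) h']
        refine hc.2.2.1 ?_ (hpos (l - 1) (by omega) (by omega)) (hpos l (by omega) h')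
        intro hd
        apply hnd l h h'
        have e1 := dvd_add (i3 l hal hlL.le) hd
        rwa [sub_add_cancel] at e1
      · rw [r_in (l - 1) (by omega) (by omega), r_hi l (by omega)]
        have hd : (M : ℤ) ∣ (l : ℤ) * D.co j (τ (l - 1)) := by
          have e1 := i3 l hal hlL.le
          have e2 : (M : ℤ) ∣ D.H j τ l := by rw [h', hl1eq]; exact hMQ'
          have e3 := dvd_sub e2 e1
          rwa [sub_sub_cancel] at e3
        have hstep := hc.2.2.2.2.2 (hpos (l - 1) (by omega) (by omega)) hd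
        exact Relation.ReflTransGen.head hstep hR
      · rw [r_hi (l - 1) (by omega), r_hi l (by omega)]
        exact hR
  · intro l hl
    have : D.rseg j l0 l1 τ l = τ l := by
      unfold RDat.rseg
      rw [if_neg (by omega)]
    rw [this]
    exact t3 l hl

end H391.KR.P_f
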