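import Pool.Agent.H391.KR.PM

/-!
# KR-fin: finiteness, good moduli, lifting property
-/

noncomputable section

namespace H391.KR.P_fin

open Finset H391.KR H391.KR.RDat

theorem le_trans' {ι I : Type} (D : RDat ι I) {x y z : ι → ℤ} (h1 : D.Le y x) (h2 : D.Le z y) :
    D.Le z x := Relation.ReflTransGen.trans h1 h2

theorem fin_le {ι I : Type} (D : RDat ι I) : ∀ (n : ℕ) (x : ι → ℤ), x ∈ D.T → D.len x = n →
    {y | D.Le y x}.Finite := by
  intro n
  induction n using Nat.strong_induction_on with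
  | _ n ih =>
    intro x hx hn
    have hfin := D.fin x hx
    refine Set.Finite.subset (s := {x} ∪ ⋃ b ∈ {b | D.ev b x < 0},
      {y | D.len (x - D.ev b x • D.rt b) + 1 = D.len x ∧ D.Le y (x - D.ev b x • D.rt b)}) ?_ ?_
    · refine (Set.finite_singleton x).union (hfin.biUnion fun b _ => ?_)
      by_cases h : D.len (x - D.ev b x • D.rt b) + 1 = D.len x
      · refine (ih (D.len (x - D.ev b x • D.rt b)) (by omega) _ (D.T_refl x hx b) rfl).subset ?_
        intro y hy
        exact hy.2
      · refine Set.finite_empty.subset ?_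
        intro y hy
        exact h hy.1
    · intro y hy
      rcases Relation.ReflTransGen.cases_head hy with h | ⟨z, ⟨b, hb, hz, hl, -⟩, hzy⟩
      · left
        exact h.symm
      · right
        simp only [Set.mem_iUnion]
        refine ⟨b, hb, ?_, ?_⟩
        · rw [← hz]
          exact hl
        · rw [← hz]
          exact hzy

theorem tails_val {ι I : Type} (D : RDat ι I) (h1 : S_cong) {M a L : ℕ} {x : ι → ℤ}
    (hx : x ∈ D.T) {τ : ℕ → ι → ℤ} (hτ : τ ∈ D.Tails M a L x) :
    ∀ l, a ≤ l → l < L → τ l ∈ D.T ∧ D.Le (τ l) x := by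
  intro l hal
  induction l, hal using Nat.le_induction with
  | base =>
    intro hL
    have h := h1 ι I D M a x (τ a) hx (hτ.1 hL)
    exact ⟨h.1, h.2.2.2.2.2⟩
  | succ l hal ih =>
    intro hL
    obtain ⟨hT, hle⟩ := ih (by omega)
    have h := h1 ι I D M (l + 1) (τ l) (τ (l + 1)) hT (hτ.2.1 (l + 1) (by omega) hL)
    exact ⟨h.1, le_trans' D hle h.2.2.2.2.2⟩

theorem fin_tails {ι I : Type} (D : RDat ι I) (h1 : S_cong) (x : ι → ℤ) (hx : x ∈ D.T)
    (M a L : ℕ) : (D.Tails M a L x).Finite := by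
  have hF : ({y | D.Le y x} ∪ {0} : Set (ι → ℤ)).Finite :=
    (fin_le D _ x hx rfl).union (Set.finite_singleton 0)
  have hP : (Set.pi Set.univ fun _ : Fin L => ({y | D.Le y x} ∪ {0} : Set (ι → ℤ))).Finite :=
    Set.Finite.pi fun _ => hF
  refine Set.Finite.of_injOn (f := fun (τ : ℕ → ι → ℤ) (i : Fin L) => τ i) ?_ ?_ hP
  · intro τ hτ i _
    show τ i ∈ ({y | D.Le y x} ∪ {0} : Set (ι → ℤ))
    by_cases hi : (i : ℕ) < a
    · right
      exact hτ.2.2 i (Or.inl hi)
    · left
      exact (tails_val D h1 hx hτ i (by omega) i.2).2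
  · intro τ hτ σ hσ h
    funext l
    by_cases hl : l < L
    · exact congrFun h ⟨l, hl⟩
    · rw [hτ.2.2 l (Or.inr (by omega)), hσ.2.2 l (Or.inr (by omega))]

theorem main : RDat.S_cong → RDat.S_len → RDat.S_chain →
    RDat.S_fin ∧ RDat.S_good ∧ RDat.S_bru := by
  intro h1 h2 h3
  refine ⟨?_, ?_, ?_⟩
  · intro ι I D x hx
    exact ⟨fin_le D _ x hx rfl, fun M a L => fin_tails D h1 x hx M a L⟩
  · intro ι I _ D x hx
    classical
    have : Fintype I := Fintype.ofFinite I
    have hF := fin_le D _ x hx rfl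
    refine ⟨∏ y ∈ hF.toFinset, ∏ j : I, (if D.co j y = 0 then 1 else (D.co j y).natAbs), ?_, ?_⟩
    · refine Finset.prod_pos fun y _ => Finset.prod_pos fun j _ => ?_
      split_ifs with h
      · exact one_pos
      · exact Int.natAbs_pos.2 h
    · intro y hy j hj
      rw [← Int.natAbs_dvd, Int.natCast_dvd_natCast]
      have hy' : y ∈ hF.toFinset := hF.mem_toFinset.2 hy
      refine dvd_trans ?_ (Finset.dvd_prod_of_mem _ hy')
      have h4 := Finset.dvd_prod_of_mem
        (fun j : I => if D.co j y = 0 then 1 else (D.co j y).natAbs) (Finset.mem_univ j)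
      simpa only [if_neg hj] using h4
  · intro ι I D x y hx hyx j
    have hyT : y ∈ D.T := (h1 ι I D 1 0 x y hx hyx).1
    have hstep : ∀ z, z ∈ D.T → D.co j z < 0 → D.Le (D.s j z) z := by
      intro z hz hc
      refine Relation.ReflTransGen.single ⟨D.sim j, hc, rfl, (h2 ι I D z hz j).1 hc, ?_⟩
      simp
    have hch := h3 ι I D 1 0 x y hx hyx j
    refine ⟨fun hc => ?_, fun hc hc' => ?_, fun hc => hstep x hx hc⟩
    · rcases lt_trichotomy (D.co j y) 0 with h | h | h
      · exact le_trans' D hyx (hstep y hyT h)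
      · rw [(h2 ι I D y hyT j).2.2.1 h]
        exact hyx
      · exact (hch.2.1 hc h).1
    · exact (hch.1 hc hc').1

end H391.KR.P_fin
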