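import Pool.Agent.H391.KR.GV

/-!
# The finite reflection datum, two root lengths
-/

noncomputable section

namespace H391.KR.P_hfin

open Finset H391.KR

variable {n : ℕ}

lemma dot_sub_left (a b mu : Fin n → ℤ) : dot (a - b) mu = dot a mu - dot b mu := by
  simp [dot, sub_mul, sum_sub_distrib]

lemma dot_sub_right (a mu nu : Fin n → ℤ) : dot a (mu - nu) = dot a mu - dot a nu := by
  simp [dot, mul_sub, sum_sub_distrib]

lemma dot_neg_left (a mu : Fin n → ℤ) : dot (-a) mu = - dot a mu := by
  simp [dot]

lemma dot_smul_left (c : ℤ) (a mu : Fin n → ℤ) : dot (c • a) mu = c * dot a mu := by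
  simp only [dot, Pi.smul_apply, smul_eq_mul, mul_sum]
  exact sum_congr rfl fun j _ => by ring

lemma dot_smul_right (c : ℤ) (a mu : Fin n → ℤ) : dot a (c • mu) = c * dot a mu := by
  simp only [dot, Pi.smul_apply, smul_eq_mul, mul_sum]
  exact sum_congr rfl fun j _ => by ring

lemma dot_om_left (i : Fin n) (b : Fin n → ℤ) : dot (om i) b = b i := by
  simp only [dot, om]
  rw [sum_eq_single i]
  · simp
  · intro j _ hj
    simp [hj]
  · intro h
    exact absurd (mem_univ _) h

lemma dot_om_right (i : Fin n) (b : Fin n → ℤ) : dot b (om i) = b i := by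
  simp only [dot, om]
  rw [sum_eq_single i]
  · simp
  · intro j _ hj
    simp [hj]
  · intro h
    exact absurd (mem_univ _) h

variable {S : GD n}

/-- reflection of a coroot -/
lemma refl_eq (b c x : Fin n → ℤ) :
    dot c (x - dot b x • S.rt b) = dot (c - dot c (S.rt b) • b) x := by
  rw [dot_sub_right, dot_smul_right, dot_sub_left, dot_smul_left]
  ring

lemma neg_cor (hS : S.OK) {a : Fin n → ℤ} (ha : S.Cor a) : S.Cor (-a) := by
  have h1 := (hS.refl a a ha ha).1
  rw [hS.two a ha] at h1
  have h2 : a - (2 : ℤ) • a = -a := by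
    funext i
    simp only [Pi.sub_apply, Pi.smul_apply, smul_eq_mul, Pi.neg_apply]
    ring
  rwa [h2] at h1

/-- the finite reflection datum -/
def dat (S : GD n) (hS : S.OK) : RDat (Fin n) (Fin n) where
  R := {a : Fin n → ℤ // a ∈ S.pos}
  ev a :=
    { toFun := fun x => dot a.1 x
      map_zero' := by simp [dot]
      map_add' := by intro x y; simp [dot, mul_add, sum_add_distrib] }
  rt a := S.rt a.1
  sim j := ⟨om j, GD.Cor.simple j, fun i => by
    unfold om; split_ifs <;> norm_num⟩
  ev_rt b := hS.two b.1 b.2.1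
  inj b c h := by
    apply Subtype.ext
    funext i
    have h1 := h (om i)
    change dot b.1 (om i) = dot c.1 (om i) at h1
    rw [dot_om_right, dot_om_right] at h1
    exact h1
  pos b c h := by
    apply (hS.sgn b.1 b.2.1).1
    funext i
    have h1 := h (om i)
    change dot b.1 (om i) = - dot c.1 (om i) at h1
    rw [dot_om_right, dot_om_right] at h1
    have h2 := b.2.2 i
    have h3 := c.2.2 i
    show b.1 i = 0
    omega
  perm j b hb := by
    have hk : ∃ k, k ≠ j ∧ 0 < b.1 k := by
      by_contra hcon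
      push Not at hcon
      rcases hS.prop b.1 b.2.1 j (fun k hkj => by
        have h2 := hcon k hkj
        have h3 := b.2.2 k
        omega) with h | h
      · exact hb (Subtype.ext h)
      · have h1 := b.2.2 j
        rw [h] at h1
        simp [om] at h1
    obtain ⟨k, hkj, hkpos⟩ := hk
    have hr := hS.refl (om j) b.1 (GD.Cor.simple j) b.2.1
    have hom := (hS.om j).2
    have hck : (b.1 - dot b.1 (S.rt (om j)) • om j) k = b.1 k := by
      simp [om, hkj]
    have hcp : ∀ i, 0 ≤ (b.1 - dot b.1 (S.rt (om j)) • om j) i := by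
      rcases (hS.sgn _ hr.1).2 with h | h
      · exact h
      · exfalso
        have h1 := h k
        omega
    refine ⟨⟨b.1 - dot b.1 (S.rt (om j)) • om j, hr.1, hcp⟩, ?_, ?_, ?_⟩
    · intro h
      have h1 := congrFun (congrArg Subtype.val h) k
      change (b.1 - dot b.1 (S.rt (om j)) • om j) k = om j k at h1
      rw [hck] at h1
      simp [om, hkj] at h1
      omega
    · intro x
      show dot (b.1 - dot b.1 (S.rt (om j)) • om j) x = dot b.1 (x - dot (om j) x • S.rt (om j))
      rw [refl_eq]
    · show S.rt (b.1 - dot b.1 (S.rt (om j)) • om j) = S.rt b.1 - dot (om j) (S.rt b.1) • S.rt (om j)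
      exact hr.2.2
  dich b c := by
    have hr := (hS.refl b.1 c.1 b.2.1 c.2.1).1
    rcases (hS.sgn _ hr).2 with h | h
    · left
      exact ⟨⟨_, hr, h⟩, fun x => (refl_eq b.1 c.1 x).symm⟩
    · right
      refine ⟨?_, ⟨⟨-(c.1 - dot c.1 (S.rt b.1) • b.1), neg_cor hS hr, ?_⟩, fun x => ?_⟩⟩
      · show 0 < dot c.1 (S.rt b.1)
        by_contra hcon
        push Not at hcon
        apply (hS.sgn _ hr).1
        funext i
        have h1 := h i
        have h2 := c.2.2 i
        have h3 := mul_nonneg (neg_nonneg.2 hcon) (b.2.2 i)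
        simp only [Pi.sub_apply, Pi.smul_apply, smul_eq_mul, Pi.zero_apply] at h1 ⊢
        linarith
      · intro i
        have h1 := h i
        simp only [Pi.neg_apply]
        omega
      · show dot (-(c.1 - dot c.1 (S.rt b.1) • b.1)) x = - dot c.1 (x - dot b.1 x • S.rt b.1)
        rw [dot_neg_left, refl_eq]
  T := Set.univ
  T_refl _ _ _ := Set.mem_univ _
  fin x _ := by
    have h1 : S.pos.Finite := hS.fin.subset fun a ha => ha.1
    have : Finite {a : Fin n → ℤ // a ∈ S.pos} := h1
    exact Set.toFinite _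

theorem main : GD.H_fin := by
  intro n S hS
  refine ⟨dat S hS, ?_, ?_, rfl, ?_, ?_, ?_⟩
  · intro j x
    exact dot_om_left j x
  · intro j
    exact (hS.om j).2
  · refine ⟨?_, ?_, ?_, Set.mem_univ _⟩
    · intro x hx b
      show 0 ≤ dot b.1 x
      refine sum_nonneg fun i _ => mul_nonneg (b.2.2 i) ?_
      have h1 := hx i
      have h2 : (dat S hS).co i x = x i := dot_om_left i x
      rwa [h2] at h1
    · intro j
      exact dot_om_left j _
    · intro b
      show 1 ≤ dot b.1 (fun _ => 1)
      have h1 : dot b.1 (fun _ => 1) = ∑ i, b.1 i := by simp [dot]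
      rw [h1]
      by_contra hcon
      have h2 : ∑ i, b.1 i = 0 := by
        have h3 : 0 ≤ ∑ i, b.1 i := sum_nonneg fun i _ => b.2.2 i
        omega
      apply (hS.sgn b.1 b.2.1).1
      funext i
      exact (sum_eq_zero_iff_of_nonneg fun i _ => b.2.2 i).1 h2 i (mem_univ _)
  · intro b
    exact ⟨b.1, b.2, fun x => rfl, rfl⟩
  · intro a ha
    exact ⟨⟨a, ha⟩, fun x => rfl, rfl⟩

end H391.KR.P_hfin
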