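import Pool.Agent.H391.KR.PM

/-!
# KR-int: integrality of heights
-/

namespace H391.KR.P_int

open Finset H391.KR

theorem co_zero {ι I : Type} (D : RDat ι I) (j : I) : D.co j 0 = 0 := map_zero _

theorem H_succ {ι I : Type} (D : RDat ι I) (j : I) (τ : ℕ → ι → ℤ) (l : ℕ) :
    D.H j τ (l + 1) = D.H j τ l + D.co j (τ l) := Finset.sum_range_succ _ _

theorem main : RDat.S_cong → RDat.S_chain → RDat.S_int := by
  intro hcong hchain ι I D M a L k j hctx τ hτ
  obtain ⟨hkT, ⟨hM0, hgood⟩, hML, haL, hak⟩ := hctx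
  obtain ⟨hτa, hτl, hτ0⟩ := hτ
  -- (1)
  have h1 : ∀ n, a + n < L → τ (a + n) ∈ D.T ∧ D.Le (τ (a + n)) k := by
    intro n
    induction n with
    | zero =>
      intro h
      have h2 := hcong ι I D M a k (τ a) hkT (hτa h)
      exact ⟨h2.1, h2.2.2.2.2.2⟩
    | succ n ih =>
      intro h
      obtain ⟨i1, i2⟩ := ih (by omega)
      have h3 : D.Rel M (a + (n + 1)) (τ (a + n)) (τ (a + (n + 1))) := by
        have h4 := hτl (a + (n + 1)) (by omega) h
        have h5 : a + (n + 1) - 1 = a + n := by omega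
        rw [h5] at h4
        exact h4
      have h2 := hcong ι I D M _ _ _ i1 h3
      refine ⟨h2.1, ?_⟩
      have h6 : D.Rel 1 0 (τ (a + n)) (τ (a + (n + 1))) := h2.2.2.2.2.2
      exact Relation.ReflTransGen.trans i2 h6
  have h1' : ∀ l, a ≤ l → l < L → τ l ∈ D.T ∧ D.Le (τ l) k := by
    intro l hl hl2
    obtain ⟨n, rfl⟩ := Nat.exists_eq_add_of_le hl
    exact h1 n hl2
  have hdvd : ∀ l, a ≤ l → l < L → D.co j (τ l) ≠ 0 → D.co j (τ l) ∣ (M : ℤ) := by
    intro l hl hl2
    exact hgood _ (h1' l hl hl2).2 j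
  -- (5)
  have h5 : D.H j τ a = 0 := by
    refine Finset.sum_eq_zero fun i hi => ?_
    rw [hτ0 i (Or.inl (Finset.mem_range.1 hi)), co_zero]
  -- (2)
  have h2 : ∀ n, a + n < L → (M : ℤ) ∣ D.H j τ (a + n) - ((a + n : ℕ) : ℤ) * D.co j (τ (a + n)) := by
    intro n
    induction n with
    | zero =>
      intro h
      have h3 := (hcong ι I D M a k (τ a) hkT (hτa h)).2.2.2.2.1 (D.sim j)
      have h4 : (M : ℤ) ∣ (a : ℤ) * (D.co j k - D.co j (τ a)) := h3
      have h6 : D.H j τ (a + 0) - ((a + 0 : ℕ) : ℤ) * D.co j (τ (a + 0)) =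
          (a : ℤ) * (D.co j k - D.co j (τ a)) - (a : ℤ) * D.co j k := by
        rw [add_zero, h5]; ring
      rw [h6]
      exact dvd_sub h4 hak
    | succ n ih =>
      intro h
      have i1 := ih (by omega)
      have h3 : D.Rel M (a + (n + 1)) (τ (a + n)) (τ (a + (n + 1))) := by
        have h4 := hτl (a + (n + 1)) (by omega) h
        have h5 : a + (n + 1) - 1 = a + n := by omega
        rw [h5] at h4
        exact h4
      have h4 : (M : ℤ) ∣ ((a + (n + 1) : ℕ) : ℤ) *
          (D.co j (τ (a + n)) - D.co j (τ (a + (n + 1)))) :=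
        (hcong ι I D M _ _ _ (h1 n (by omega)).1 h3).2.2.2.2.1 (D.sim j)
      have h6 : D.H j τ (a + (n + 1)) - ((a + (n + 1) : ℕ) : ℤ) * D.co j (τ (a + (n + 1))) =
          (D.H j τ (a + n) - ((a + n : ℕ) : ℤ) * D.co j (τ (a + n))) +
            ((a + (n + 1) : ℕ) : ℤ) * (D.co j (τ (a + n)) - D.co j (τ (a + (n + 1)))) := by
        have h7 : D.H j τ (a + (n + 1)) = D.H j τ (a + n) + D.co j (τ (a + n)) :=
          H_succ D j τ (a + n)
        rw [h7]
        push_cast
        ring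
      rw [h6]
      exact dvd_add i1 h4
  have h2' : ∀ l, a ≤ l → l < L → (M : ℤ) ∣ D.H j τ l - l * D.co j (τ l) := by
    intro l hl hl2
    obtain ⟨n, rfl⟩ := Nat.exists_eq_add_of_le hl
    exact h2 n hl2
  -- (3)
  have h3 : ∀ l, a < l → l ≤ L → (M : ℤ) ∣ D.H j τ l - l * D.co j (τ (l - 1)) := by
    intro l hl hl2
    obtain ⟨n, rfl⟩ : ∃ n, l = n + 1 := ⟨l - 1, by omega⟩
    have h4 := h2' n (by omega) (by omega)
    have h6 : D.H j τ (n + 1) - ((n + 1 : ℕ) : ℤ) * D.co j (τ (n + 1 - 1)) =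
        D.H j τ n - n * D.co j (τ n) := by
      rw [Nat.add_sub_cancel, H_succ]
      push_cast
      ring
    rw [h6]
    exact h4
  have hMLz : (M : ℤ) ∣ (L : ℤ) := Int.natCast_dvd_natCast.2 hML
  -- (4)
  have h4 : (M : ℤ) ∣ D.H j τ L := by
    rcases Nat.lt_or_ge a L with h | h
    · have h6 := h3 L h le_rfl
      have h7 : (M : ℤ) ∣ (L : ℤ) * D.co j (τ (L - 1)) := Dvd.dvd.mul_right hMLz _
      have h8 := dvd_add h6 h7
      rwa [sub_add_cancel] at h8
    · have h6 : a = L := le_antisymm haL h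
      rw [← h6, h5]
      exact dvd_zero _
  have hrel : ∀ l, a < l → l < L → τ (l - 1) ∈ D.T := by
    intro l hl hl2
    exact (h1' (l - 1) (by omega) (by omega)).1
  -- (6)
  have h6 : ∀ l, a < l → l < L → D.co j (τ (l - 1)) < 0 → 0 ≤ D.co j (τ l) →
      (M : ℤ) ∣ D.H j τ l := by
    intro l hl hl2 hc1 hc2
    have h7 := ((hchain ι I D M l _ _ (hrel l hl hl2) (hτl l hl hl2) j).1 hc1 hc2).2
    have h8 := dvd_add (h3 l hl hl2.le) h7
    rwa [sub_add_cancel] at h8
  -- (7)
  have h7 : ∀ l, a < l → l < L → D.co j (τ (l - 1)) ≤ 0 → 0 < D.co j (τ l) →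
      (M : ℤ) ∣ D.H j τ l := by
    intro l hl hl2 hc1 hc2
    have h7 := ((hchain ι I D M l _ _ (hrel l hl hl2) (hτl l hl hl2) j).2.1 hc1 hc2).2
    have h8 := dvd_add (h2' l hl.le hl2) h7
    rwa [sub_add_cancel] at h8
  -- (8)
  have h8 : ∀ l, a ≤ l → l < L → ∀ q : ℤ, ¬ (D.H j τ l < q * M ∧ q * M < D.H j τ (l + 1)) ∧
      ¬ (D.H j τ (l + 1) < q * M ∧ q * M < D.H j τ l) := by
    intro l hl hl2 q
    rw [H_succ]
    by_cases hc : D.co j (τ l) = 0
    · rw [hc]
      constructor
      · rintro ⟨x, y⟩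
        omega
      · rintro ⟨x, y⟩
        omega
    · obtain ⟨w, hw⟩ := hdvd l hl hl2 hc
      obtain ⟨v, hv⟩ := h2' l hl hl2
      set c := D.co j (τ l) with hcdef
      have e1 : D.H j τ l = c * (l + w * v) := by
        have e2 : D.H j τ l = (D.H j τ l - l * c) + l * c := by ring
        rw [e2, hv, hw]; ring
      have e3 : q * (M : ℤ) = c * (q * w) := by rw [hw]; ring
      have e4 : D.H j τ l + c = c * (l + w * v + 1) := by rw [e1]; ring
      rw [e4, e3, e1]
      rcases lt_or_gt_of_ne hc with hneg | hpos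
      · constructor
        · rintro ⟨x, y⟩
          have x1 := lt_of_mul_lt_mul_of_nonpos_left x hneg.le
          have y1 := lt_of_mul_lt_mul_of_nonpos_left y hneg.le
          omega
        · rintro ⟨x, y⟩
          have x1 := lt_of_mul_lt_mul_of_nonpos_left x hneg.le
          have y1 := lt_of_mul_lt_mul_of_nonpos_left y hneg.le
          omega
      · constructor
        · rintro ⟨x, y⟩
          have x1 := lt_of_mul_lt_mul_of_nonneg_left x hpos.le
          have y1 := lt_of_mul_lt_mul_of_nonneg_left y hpos.le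
          omega
        · rintro ⟨x, y⟩
          have x1 := lt_of_mul_lt_mul_of_nonneg_left x hpos.le
          have y1 := lt_of_mul_lt_mul_of_nonneg_left y hpos.le
          omega
  refine ⟨fun l hl hl2 => ⟨(h1' l hl hl2).1, (h1' l hl hl2).2, hdvd l hl hl2⟩, h2', h3, h4, h5,
    h6, h7, h8, ?_⟩
  -- (9)
  intro Q hQ hex
  classical
  have hf := Nat.find_spec hex
  have hmin := fun m (hm : m < Nat.find hex) => Nat.find_min hex hm
  set l := Nat.find hex with hl
  obtain ⟨hl1, hl2, hl3⟩ := hf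
  rcases Nat.eq_or_lt_of_le hl1 with h | h
  · rw [← hl3, ← h, h5]
    exact dvd_zero _
  · rcases Nat.eq_or_lt_of_le hl2 with h' | h'
    · rw [← hl3, h']
      exact h4
    · rw [← hl3]
      refine h6 l h h' ?_ ?_
      · have e1 : D.H j τ l = D.H j τ (l - 1) + D.co j (τ (l - 1)) := by
          have e2 := H_succ D j τ (l - 1)
          have e3 : l - 1 + 1 = l := by omega
          rw [e3] at e2
          exact e2
        have e4 : Q ≤ D.H j τ (l - 1) := hQ (l - 1) (by omega) (by omega)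
        have e5 : D.H j τ (l - 1) ≠ Q := by
          intro e6
          exact hmin (l - 1) (by omega) ⟨by omega, by omega, e6⟩
        have e7 : Q < D.H j τ (l - 1) := lt_of_le_of_ne e4 (Ne.symm e5)
        omega
      · have e1 := H_succ D j τ l
        have e2 : Q ≤ D.H j τ (l + 1) := hQ (l + 1) (by omega) (by omega)
        omega

end H391.KR.P_int
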