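import Pool.Agent.H391.KR.PM

noncomputable section

namespace H391.KR.P_inv

open Finset H391.KR

variable {ι I : Type} (D : RDat ι I)

theorem co_sub (j : I) (x y : ι → ℤ) : D.co j (x - y) = D.co j x - D.co j y := by
  unfold RDat.co; simp

theorem co_smul (j : I) (n : ℤ) (x : ι → ℤ) : D.co j (n • x) = n * D.co j x := by
  unfold RDat.co; rw [map_zsmul, smul_eq_mul]

theorem co_al (j : I) : D.co j (D.al j) = 2 := D.ev_rt _

theorem H_eq (j : I) (L : ℕ) (τ : ℕ → ι → ℤ) : D.H j τ L = D.co j (tot L τ) := by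
  unfold RDat.H RDat.co
  have : tot L τ = ∑ l ∈ range L, τ l := by
    funext i; simp [tot]
  rw [this, map_sum]

section strings

variable {M a L : ℕ} {j : I} {B : Set (ℕ → ι → ℤ)} (st : D.Str M a L j B)

theorem iter_f (h : ℕ → ι → ℤ) (hB : h ∈ B) (h0 : st.ep h = 0) :
    ∀ c, c ≤ st.ph h → st.f^[c] h ∈ B ∧ st.ep (st.f^[c] h) = c ∧
      st.ph (st.f^[c] h) = st.ph h - c ∧ st.e^[c] (st.f^[c] h) = h ∧
      tot L (st.f^[c] h) = tot L h - (c : ℤ) • ((M : ℤ) • D.al j) := by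
  intro c
  induction c with
  | zero => intro _; simp [hB, h0]
  | succ c ih =>
    intro hc
    obtain ⟨a1, a2, a3, a4, a5⟩ := ih (by omega)
    obtain ⟨b1, b2, b3, b4, b5, _⟩ := st.hf _ a1 (by omega)
    rw [Function.iterate_succ_apply']
    refine ⟨b1, by rw [b3, a2], by omega, ?_, ?_⟩
    · rw [Function.iterate_succ_apply, b2, a4]
    · rw [b5, a5]
      push_cast
      rw [add_smul, one_smul]
      abel

theorem iter_e (τ : ℕ → ι → ℤ) (hB : τ ∈ B) :
    ∀ c, c ≤ st.ep τ → st.e^[c] τ ∈ B ∧ st.ep (st.e^[c] τ) = st.ep τ - c ∧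
      st.ph (st.e^[c] τ) = st.ph τ + c ∧ st.f^[c] (st.e^[c] τ) = τ := by
  intro c
  induction c with
  | zero => intro _; simp [hB]
  | succ c ih =>
    intro hc
    obtain ⟨a1, a2, a3, a4⟩ := ih (by omega)
    obtain ⟨b1, b2, b3, b4, b5, _⟩ := st.he _ a1 (by omega)
    rw [Function.iterate_succ_apply']
    refine ⟨b1, by omega, by omega, ?_⟩
    rw [Function.iterate_succ_apply, b2, a4]

/-- a sum over `B` is a sum over the strings -/
theorem sum_strings {A : Type} [AddCommMonoid A] (b : Finset (ℕ → ι → ℤ))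
    (hb : ∀ τ, τ ∈ b ↔ τ ∈ B) (φ : (ℕ → ι → ℤ) → A) :
    ∑ τ ∈ b, φ τ = ∑ h ∈ b.filter (fun τ => st.ep τ = 0),
      ∑ c ∈ range (st.ph h + 1), φ (st.f^[c] h) := by
  classical
  rw [Finset.sum_sigma']
  refine Finset.sum_bij' (fun τ _ => ⟨st.e^[st.ep τ] τ, st.ep τ⟩) (fun p _ => st.f^[p.2] p.1)
    ?_ ?_ ?_ ?_ ?_
  · intro τ hτ
    obtain ⟨a1, a2, a3, a4⟩ := iter_e D st τ ((hb τ).1 hτ) (st.ep τ) le_rfl
    simp only [Finset.mem_sigma, Finset.mem_filter, Finset.mem_range]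
    refine ⟨⟨(hb _).2 a1, by rw [a2]; omega⟩, by omega⟩
  · rintro ⟨h, c⟩ hp
    simp only [Finset.mem_sigma, Finset.mem_filter, Finset.mem_range] at hp
    obtain ⟨a1, -⟩ := iter_f D st h ((hb h).1 hp.1.1) hp.1.2 c (by omega)
    exact (hb _).2 a1
  · intro τ hτ
    obtain ⟨a1, a2, a3, a4⟩ := iter_e D st τ ((hb τ).1 hτ) (st.ep τ) le_rfl
    exact a4
  · rintro ⟨h, c⟩ hp
    simp only [Finset.mem_sigma, Finset.mem_filter, Finset.mem_range] at hp
    obtain ⟨a1, a2, a3, a4, a5⟩ := iter_f D st h ((hb h).1 hp.1.1) hp.1.2 c (by omega)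
    simp only [a2, a4]
  · intro τ hτ
    obtain ⟨a1, a2, a3, a4⟩ := iter_e D st τ ((hb τ).1 hτ) (st.ep τ) le_rfl
    simp only [a4]

end strings

theorem main : RDat.S_inv := by
  classical
  intro ι I D M a L j B hM hfin hst g
  obtain ⟨st⟩ := hst
  set b := hfin.toFinset with hb
  have hbm : ∀ τ, τ ∈ b ↔ τ ∈ B := fun τ => hfin.mem_toFinset
  rw [finsum_mem_eq_finite_toFinset_sum _ hfin, finsum_mem_eq_finite_toFinset_sum _ hfin]
  rw [sum_strings D st b hbm, sum_strings D st b hbm]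
  apply Finset.sum_congr rfl
  intro h hh
  rw [Finset.mem_filter, hbm] at hh
  obtain ⟨hhB, hh0⟩ := hh
  have hx : D.co j (tot L h) = M * (st.ph h : ℤ) := by
    rw [← H_eq, ← st.h1 h hhB, hh0]; simp
  rw [← Finset.sum_range_reflect]
  apply Finset.sum_congr rfl
  intro c hc
  rw [Finset.mem_range] at hc
  have e0 : st.ph h + 1 - 1 - c = st.ph h - c := by omega
  rw [e0]
  obtain ⟨-, -, -, -, a5⟩ := iter_f D st h hhB hh0 (st.ph h - c) (by omega)
  obtain ⟨-, -, -, -, b5⟩ := iter_f D st h hhB hh0 c (by omega)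
  rw [a5, b5]
  congr 1
  unfold RDat.s
  rw [co_sub, co_smul, co_smul, co_al, hx, smul_smul, smul_smul, sub_sub, ← add_smul]
  congr 2
  have : ((st.ph h - c : ℕ) : ℤ) = st.ph h - c := by omega
  rw [this]
  ring

end H391.KR.P_inv
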