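import Pool.Agent.H391.KR.JC

/-!
# KR-jCpre: type `C_n`, the elementary conditions
-/

set_option autoImplicit false

namespace H391.KR.P_jCpre

open Finset H391.KR

/-- the symmetrized matrix of the infinite chain -/
def g (i j : ℕ) : ℤ := if i = j then 4 else if i + 1 = j then -2 else if j + 1 = i then -2 else 0

theorem g_comm (i j : ℕ) : g i j = g j i := by
  unfold g
  split_ifs <;> first | rfl | omega

theorem row (A : ℕ → ℤ) (m : ℕ) : ∑ j ∈ range (m + 1), g (m + 1) j * A j = -2 * A m := by
  rw [sum_range_succ, sum_eq_zero, zero_add]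
  · have : g (m + 1) m = -2 := by
      unfold g
      rw [if_neg (by omega), if_neg (by omega), if_pos rfl]
    rw [this]
  · intro j hj
    rw [mem_range] at hj
    have : g (m + 1) j = 0 := by
      unfold g
      rw [if_neg (by omega), if_neg (by omega), if_neg (by omega)]
    rw [this, zero_mul]

theorem chain (A : ℕ → ℤ) (n : ℕ) : ∑ i ∈ range (n + 1), ∑ j ∈ range (n + 1), A i * g i j * A j =
    2 * A n ^ 2 + 2 * A 0 ^ 2 + 2 * ∑ k ∈ range n, (A (k + 1) - A k) ^ 2 := by
  induction n with
  | zero =>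
    simp [g]
    ring
  | succ n ih =>
    rw [sum_range_succ]
    have h1 : ∑ i ∈ range (n + 1), ∑ j ∈ range (n + 1 + 1), A i * g i j * A j =
        (∑ i ∈ range (n + 1), ∑ j ∈ range (n + 1), A i * g i j * A j) +
          A (n + 1) * ∑ i ∈ range (n + 1), g (n + 1) i * A i := by
      rw [mul_sum, ← sum_add_distrib]
      refine sum_congr rfl fun i _ => ?_
      rw [sum_range_succ, g_comm i (n + 1)]
      ring
    have h2 : ∑ j ∈ range (n + 1 + 1), A (n + 1) * g (n + 1) j * A j =
        A (n + 1) * (∑ i ∈ range (n + 1), g (n + 1) i * A i) + 4 * A (n + 1) ^ 2 := by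
      rw [sum_range_succ, mul_sum]
      have : g (n + 1) (n + 1) = 4 := by
        unfold g
        rw [if_pos rfl]
      rw [this]
      congr 1
      · exact sum_congr rfl fun i _ => by ring
      · ring
    rw [h1, h2, row, ih, sum_range_succ]
    ring

theorem ct (n : ℕ) (i j : Fin n) : (Ct n).C i j * (Ct n).t j =
    g i j - (if (i : ℕ) = j ∧ (i : ℕ) + 1 = n then 2 else 0) := by
  have hi := i.2
  have hj := j.2
  simp only [Ct, g, Fin.ext_iff]
  split_ifs <;> omega

theorem quad (m : ℕ) (a : Fin (m + 1) → ℤ) (A : ℕ → ℤ) (hA : ∀ i : Fin (m + 1), a i = A i) :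
    ∑ i, ∑ j, a i * (Ct (m + 1)).C i j * (Ct (m + 1)).t j * a j =
      2 * A 0 ^ 2 + 2 * ∑ k ∈ range m, (A (k + 1) - A k) ^ 2 := by
  have h1 : ∀ i j : Fin (m + 1), a i * (Ct (m + 1)).C i j * (Ct (m + 1)).t j * a j =
      A i * g i j * A j - (if (i : ℕ) = j then (if (i : ℕ) = m then 2 * A m ^ 2 else 0) else 0) := by
    intro i j
    rw [mul_assoc (a i), ct, hA, hA]
    by_cases h : (i : ℕ) = j
    · by_cases h' : (i : ℕ) = m
      · rw [if_pos ⟨h, by omega⟩, if_pos h, if_pos h', ← h, h']
        ring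
      · rw [if_neg (by omega), if_pos h, if_neg h']
        ring
    · rw [if_neg (by omega), if_neg h]
      ring
  simp_rw [h1]
  rw [Fin.sum_univ_eq_sum_range (fun i => ∑ j : Fin (m + 1), (A i * g i j * A j -
    (if i = (j : ℕ) then (if i = m then 2 * A m ^ 2 else 0) else 0))) (m + 1)]
  have h2 : ∀ i ∈ range (m + 1), (∑ j : Fin (m + 1), (A i * g i j * A j -
      (if i = (j : ℕ) then (if i = m then 2 * A m ^ 2 else 0) else 0))) =
      (∑ j ∈ range (m + 1), A i * g i j * A j) - (if i = m then 2 * A m ^ 2 else 0) := by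
    intro i hi
    rw [Fin.sum_univ_eq_sum_range (fun j => A i * g i j * A j -
      (if i = j then (if i = m then 2 * A m ^ 2 else 0) else 0)) (m + 1), sum_sub_distrib,
      sum_ite_eq, if_pos hi]
  rw [sum_congr rfl h2, sum_sub_distrib, sum_ite_eq', if_pos (by simp), chain]
  ring

theorem sum_up (n : ℕ) (i : Fin n) (c : ℤ) :
    ∑ j : Fin n, (if (i : ℕ) + 1 = j then c else 0) = if (i : ℕ) + 1 < n then c else 0 := by
  rw [Fin.sum_univ_eq_sum_range (fun j => if (i : ℕ) + 1 = j then c else 0) n, sum_ite_eq]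
  simp only [mem_range]

theorem sum_dn (n : ℕ) (i : Fin n) (c : ℤ) :
    ∑ j : Fin n, (if (j : ℕ) + 1 = i then c else 0) = if 0 < (i : ℕ) then c else 0 := by
  rw [Fin.sum_univ_eq_sum_range (fun j => if j + 1 = (i : ℕ) then c else 0) n]
  by_cases h : 0 < (i : ℕ)
  · rw [if_pos h, sum_eq_single ((i : ℕ) - 1), if_pos (by omega)]
    · intro j _ hj
      rw [if_neg (by omega)]
    · intro hi
      have := i.2
      exact absurd (mem_range.mpr (by omega)) hi
  · rw [if_neg h]
    exact sum_eq_zero fun j _ => by rw [if_neg (by omega)]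

theorem sum_eqq (n : ℕ) (i : Fin n) (c : ℤ) :
    ∑ j : Fin n, (if (i : ℕ) = j then c else 0) = c := by
  rw [Fin.sum_univ_eq_sum_range (fun j => if (i : ℕ) = j then c else 0) n, sum_ite_eq,
    if_pos (mem_range.mpr i.2)]

theorem pre (m : ℕ) (hm : 1 ≤ m) : (Ct (m + 1)).Pre where
  t12 i := by
    simp only [Ct]
    split_ifs
    · left; rfl
    · right; rfl
  symm i j := by
    have hi := i.2
    have hj := j.2
    simp only [Ct, Fin.ext_iff]
    split_ifs <;> omega
  diag i := by simp [Ct]
  off i j hij := by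
    simp only [Ct]
    rw [if_neg hij]
    split_ifs <;> norm_num
  pd a ha := by
    have h := quad m a (fun k => if hk : k < m + 1 then a ⟨k, hk⟩ else 0) (by
      intro i
      simp only [i.2, dif_pos])
    rw [h]
    set A : ℕ → ℤ := fun k => if hk : k < m + 1 then a ⟨k, hk⟩ else 0 with hA
    have h0 : 0 ≤ ∑ k ∈ range m, (A (k + 1) - A k) ^ 2 := sum_nonneg fun k _ => sq_nonneg _
    by_contra hc
    have h1 : A 0 ^ 2 = 0 := by nlinarith [sq_nonneg (A 0)]
    have h2 : ∑ k ∈ range m, (A (k + 1) - A k) ^ 2 = 0 := by nlinarith [sq_nonneg (A 0)]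
    have h3 : ∀ k, k ≤ m → A k = 0 := by
      intro k
      induction k with
      | zero =>
        intro _
        exact pow_eq_zero_iff (two_ne_zero) |>.mp h1
      | succ k ih =>
        intro hk
        have h4 := (sum_eq_zero_iff_of_nonneg (fun k _ => sq_nonneg (A (k + 1) - A k))).mp h2 k
          (mem_range.mpr (by omega))
        have h5 : A (k + 1) - A k = 0 := pow_eq_zero_iff (two_ne_zero) |>.mp h4
        rw [ih (by omega)] at h5
        linarith
    apply ha
    funext i
    have h4 := h3 i (by have := i.2; omega)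
    rw [hA] at h4
    simp only [i.2, dif_pos] at h4
    exact h4
  thq := by
    have h := quad m (Ct (m + 1)).th (fun _ => 1) (fun i => rfl)
    rw [h]
    simp
  thd i := by
    have hi := i.2
    have h1 : ∀ j : Fin (m + 1), (Ct (m + 1)).C i j * (Ct (m + 1)).t j * (Ct (m + 1)).th j =
        (if (i : ℕ) = j then (if (i : ℕ) = m then 2 else 4) else 0) +
          (if (i : ℕ) + 1 = j then -2 else 0) + (if (j : ℕ) + 1 = i then -2 else 0) := by
      intro j
      have e : (Ct (m + 1)).th j = 1 := rfl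
      rw [e, mul_one, ct]
      unfold g
      split_ifs <;> omega
    simp_rw [h1]
    rw [sum_add_distrib, sum_add_distrib, sum_eqq, sum_up, sum_dn]
    split_ifs <;> omega
  thp _ := le_rfl

theorem t2 (m : ℕ) (hm : 1 ≤ m) : (Ct (m + 1)).T2 where
  t2 i := by
    simp only [Ct]
    split_ifs
    · left; rfl
    · right; rfl
  th2 i _ := by
    have e : (Ct (m + 1)).th i = 1 := rfl
    rw [e]
    norm_num
  ss i j := by
    have hi := i.2
    have hj := j.2
    simp only [Ct, ne_eq, Fin.ext_iff]
    split_ifs <;> omega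
  sl i j := by
    have hi := i.2
    have hj := j.2
    simp only [Ct, Fin.ext_iff]
    split_ifs <;> omega
  nb2 i _ := by
    have h1 : ∀ j : Fin (m + 1), (if (Ct (m + 1)).t j = 2 ∧ j ≠ i then -(Ct (m + 1)).C i j else 0) ≤
        (if (i : ℕ) + 1 = j then 1 else 0) + (if (j : ℕ) + 1 = i then 1 else 0) := by
      intro j
      have hi := i.2
      have hj := j.2
      simp only [Ct, ne_eq, Fin.ext_iff]
      split_ifs <;> omega
    refine (sum_le_sum fun j _ => h1 j).trans ?_
    rw [sum_add_distrib, sum_up, sum_dn]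
    split_ifs <;> omega

theorem main : GD.J_Cpre := by
  intro n hn
  obtain ⟨m, rfl⟩ : ∃ m, n = m + 1 := ⟨n - 1, by omega⟩
  exact ⟨pre m (by omega), t2 m (by omega)⟩

end H391.KR.P_jCpre
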