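import Pool.Agent.H391.KR.JV

/-!
# KR-hlev: expansion of quantum dimensions over the alcove (two root lengths)
-/

set_option autoImplicit false

noncomputable section

namespace H391.KR.P_jlev

open Finset

theorem pair_single {ι : Type} (p : (ι → ℤ) → ℤ) (x : ι → ℤ) (c : ℤ) :
    pair p (AddMonoidAlgebra.single x c) = c * p x := by
  unfold pair
  rw [AddMonoidHom.comp_apply]
  have : (AddMonoidAlgebra.coeffAddEquiv (R := ℤ) (M := ι → ℤ)).toAddMonoidHom
      (AddMonoidAlgebra.single x c) = Finsupp.single x c := by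
    simp
  rw [this, Finsupp.liftAddHom_apply_single]
  rfl

theorem pair_eq_sum {ι : Type} (p : (ι → ℤ) → ℤ) (f : GR ι) :
    pair p f = ∑ x ∈ f.coeff.support, f.coeff x * p x := by
  have h : pair p f = f.coeff.sum fun x c => c * p x := by
    induction f using AddMonoidAlgebra.induction_linear with
    | zero => simp
    | add f g hf hg =>
      rw [map_add, hf, hg, AddMonoidAlgebra.coeff_add,
        Finsupp.sum_add_index' (fun _ => by ring) (fun _ _ _ => by ring)]
    | single x c =>
      rw [pair_single, AddMonoidAlgebra.coeff_single, Finsupp.sum_single_index (by ring)]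
  rw [h]
  rfl

theorem pair_push {n : ℕ} (k : ℤ) (p : (Option (Fin n) → ℤ) → ℤ) (f : GR (Fin n)) :
    pair (fun mu => p (aw k mu)) f = pair p (ex (aw k 0) * push aw0 f) := by
  induction f using AddMonoidAlgebra.induction_linear with
  | zero => simp
  | add f g hf hg => rw [map_add, hf, hg, map_add, mul_add, map_add]
  | single x c =>
    rw [pair_single]
    have h1 : push aw0 (AddMonoidAlgebra.single x c) = AddMonoidAlgebra.single (aw 0 x) c := by
      simp [push, aw0]
    rw [h1, ex, AddMonoidAlgebra.single_mul_single, one_mul, pair_single]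
    congr 2
    funext o
    cases o <;> simp [aw]

variable {n : ℕ} {S : GD n} {D : RDat (Option (Fin n)) (Option (Fin n))}

theorem al_none (hD : S.AffDat D) (j : Option (Fin n)) : D.al j none = 0 := by
  rw [hD.al]
  cases j <;> rfl

theorem s_none (hD : S.AffDat D) (j : Option (Fin n)) (x : Option (Fin n) → ℤ) :
    D.s j x none = x none := by
  unfold RDat.s
  rw [Pi.sub_apply, Pi.smul_apply, al_none hD, smul_zero, sub_zero]

theorem sR_none (hD : S.AffDat D) (w : List (Option (Fin n))) (x : Option (Fin n) → ℤ) :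
    D.sR w x none = x none := by
  induction w generalizing x with
  | nil => rfl
  | cons j w ih =>
    change D.sR w (D.s j x) none = x none
    rw [ih, s_none hD]

theorem aw_fp (x : Option (Fin n) → ℤ) : aw (x none) (fp x) = x := by
  funext o
  cases o <;> rfl

theorem co_al (D : RDat (Option (Fin n)) (Option (Fin n))) (j : Option (Fin n)) :
    D.co j (D.al j) = 2 := D.ev_rt _

/-- antisymmetry of the quantum dimension on the weights of level `k` -/
theorem q_step (hs : GD.J_sin) (hS : S.OKs) (hD : S.AffDat D) (k : ℕ) (x : Option (Fin n) → ℤ)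
    (hx : x none = k) (j : Option (Fin n)) :
    S.qdR (S.par k) (fp (x - (D.co j x + 1) • D.al j)) = - S.qdR (S.par k) (fp x) := by
  obtain ⟨h1, h2, -⟩ := hs n S hS
  cases j with
  | none =>
    have e : fp (x - (D.co none x + 1) • D.al none) =
        fp x - (dot S.th (fp x) - k - 1) • S.rt S.th := by
      rw [hD.co, hD.al]
      funext l
      change x (some l) - ((x none - dot S.th (fp x)) + 1) * (-(S.rt S.th l)) =
        x (some l) - (dot S.th (fp x) - k - 1) * S.rt S.th l
      rw [hx]
      ring
    rw [e]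
    exact h2 k (fp x)
  | some i =>
    have e : fp (x - (D.co (some i) x + 1) • D.al (some i)) =
        fp x - (fp x i + 1) • S.rtw i := by
      rw [hD.co, hD.al]
      rfl
    rw [e]
    exact h1 _ (fp x) i

/-- a word links a weight with its image, and the quantum dimension follows -/
theorem link_back (hs : GD.J_sin) (hS : S.OKs) (hD : S.AffDat D) (k : ℕ)
    {rho : Option (Fin n) → ℤ}
    (hrho : D.HD rho) (w : List (Option (Fin n))) (x z : Option (Fin n) → ℤ) (hx : x none = k)
    (h : D.sR w (x + rho) = z + rho) : ∃ e : ℤ, D.Link e x z ∧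
      S.qdR (S.par k) (fp x) = (e : ℝ) * S.qdR (S.par k) (fp z) := by
  induction w generalizing x with
  | nil =>
    have h1 : x + rho = z + rho := h
    rw [add_right_cancel h1]
    exact ⟨1, RDat.Link.refl z, by simp⟩
  | cons j w ih =>
    have h1 : D.s j (x + rho) = (x - (D.co j x + 1) • D.al j) + rho := by
      unfold RDat.s
      have h2 : D.co j (x + rho) = D.co j x + 1 := by
        have h3 := hrho.one j
        unfold RDat.co at h3 ⊢
        rw [map_add, h3]
      rw [h2]
      abel
    have h4 : D.sR w ((x - (D.co j x + 1) • D.al j) + rho) = z + rho := by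
      rw [← h1]
      exact h
    have hx' : (x - (D.co j x + 1) • D.al j) none = k := by
      rw [Pi.sub_apply, Pi.smul_apply, al_none hD, smul_zero, sub_zero, hx]
    obtain ⟨e, he, hq⟩ := ih _ hx' h4
    have hq1 := q_step hs hS hD k x hx j
    refine ⟨-e, ?_, ?_⟩
    · have h5 := RDat.Link.step e _ z j he
      have h6 : x - (D.co j x + 1) • D.al j -
          (D.co j (x - (D.co j x + 1) • D.al j) + 1) • D.al j = x := by
        have h7 : D.co j (x - (D.co j x + 1) • D.al j) = - D.co j x - 2 := by
          have h8 := co_al D j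
          unfold RDat.co at h8 ⊢
          rw [map_sub, map_zsmul, h8, smul_eq_mul]
          ring
        rw [h7]
        module
      rw [h6] at h5
      exact h5
    · rw [hq] at hq1
      push_cast
      linarith

theorem dom_iff (hD : S.AffDat D) (k : ℕ) (la : Fin n → ℤ) :
    D.Dom (aw k la) ↔ la ∈ S.alc k := by
  constructor
  · intro h
    refine ⟨fun i => ?_, ?_⟩
    · have := h (some i)
      rw [hD.co] at this
      exact this
    · have := h none
      rw [hD.co] at this
      change 0 ≤ (k : ℤ) - dot S.th la at this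
      linarith
  · rintro ⟨h1, h2⟩ j
    cases j with
    | none =>
      rw [hD.co]
      change 0 ≤ (k : ℤ) - dot S.th la
      linarith
    | some i =>
      rw [hD.co]
      exact h1 i

/-- the expansion at one weight of level `k` -/
theorem key (h2 : RDat.N_red) (h3 : RDat.N_link) (h5 : GD.J_hd) (hs : GD.J_sin) (hS : S.OKs)
    (hD : S.AffDat D) (k : ℕ) (A : Finset (Fin n → ℤ)) (hA : ∀ la, la ∈ A ↔ la ∈ S.alc k)
    (x : Option (Fin n) → ℤ) (hx : x none = k) :
    S.qdR (S.par k) (fp x) =
      ∑ la ∈ A, (D.pf (aw k la) x : ℝ) * S.qdR (S.par k) la := by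
  have hrho := h5 n S hS D hD
  have hth := hS.th_pos
  obtain ⟨l1, l2, -, -⟩ := h3 _ _ D S.rho hrho
  have hT : x + S.rho ∈ D.T := by
    rw [hD.T]
    change 1 ≤ x none + (1 + ∑ i, S.th i)
    have h6 : 0 ≤ ∑ i, S.th i := Finset.sum_nonneg fun i _ => by have := hth i; linarith
    rw [hx]
    have h7 : (0 : ℤ) ≤ k := Int.natCast_nonneg k
    linarith
  obtain ⟨⟨w, -, -, hw⟩, -⟩ := h2 _ _ D Set.univ (x + S.rho) hT
  obtain ⟨z, hz⟩ : ∃ z, z = D.sR w (x + S.rho) - S.rho := ⟨_, rfl⟩
  have hz1 : D.sR w (x + S.rho) = z + S.rho := by rw [hz]; abel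
  have hz0 : z none = k := by
    rw [hz, Pi.sub_apply, sR_none hD, Pi.add_apply, hx]
    ring
  have hco : ∀ j, -1 ≤ D.co j z := by
    intro j
    have h6 := hw j (Set.mem_univ j)
    rw [hz1] at h6
    have h7 := hrho.one j
    unfold RDat.co at h6 h7 ⊢
    rw [map_add, h7] at h6
    linarith
  obtain ⟨e, he, hq⟩ := link_back hs hS hD k hrho w x z hx hz1
  obtain ⟨he1, he2⟩ := l2 e x z he
  by_cases hreg : ∃ j, D.co j z = -1
  · obtain ⟨j, hj⟩ := hreg
    have hzero : ∀ p', D.Anti p' → p' x = 0 := by
      intro p' hp'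
      have h6 := hp' z j
      rw [hj] at h6
      simp only [Int.reduceNeg, neg_add_cancel, zero_smul, sub_zero] at h6
      rw [he2 p' hp']
      have h7 : p' z = 0 := by linarith
      rw [h7, mul_zero]
    have hqz : S.qdR (S.par k) (fp z) = 0 := by
      have h6 := q_step hs hS hD k z hz0 j
      rw [hj] at h6
      simp only [Int.reduceNeg, neg_add_cancel, zero_smul, sub_zero] at h6
      linarith
    rw [hq, hqz, mul_zero]
    symm
    refine Finset.sum_eq_zero fun la hla => ?_
    have hdom := (dom_iff hD k la).mpr ((hA la).mp hla)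
    rw [hzero _ (l1 _ hdom).1]
    simp
  · push Not at hreg
    have hdz : D.Dom z := by
      intro j
      have h6 := hco j
      have h7 := hreg j
      omega
    obtain ⟨mu, hmu⟩ : ∃ mu, mu = fp z := ⟨_, rfl⟩
    have hzmu : z = aw k mu := by
      rw [hmu, ← hz0]
      exact (aw_fp z).symm
    rw [← hmu] at hq
    rw [hzmu] at hdz he2
    have hmuA : mu ∈ A := (hA mu).mpr ((dom_iff hD k mu).mp hdz)
    rw [Finset.sum_eq_single mu]
    · have h6 := he2 _ (l1 _ hdz).1
      rw [(l1 _ hdz).2.1, mul_one] at h6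
      rw [h6, hq]
    · intro la hla hne
      have hdom := (dom_iff hD k la).mpr ((hA la).mp hla)
      have h6 := he2 _ (l1 _ hdom).1
      have h7 : aw (k : ℤ) mu ≠ aw k la := by
        intro h8
        apply hne
        funext i
        exact (congrFun h8 (some i)).symm
      rw [(l1 _ hdom).2.2 _ hdz h7, mul_zero] at h6
      rw [h6]
      simp
    · intro h6
      exact absurd hmuA h6

theorem alc_finite (hS : S.OKs) (k : ℕ) : (S.alc k).Finite := by
  have hth := hS.th_pos
  refine (Set.finite_Icc (0 : Fin n → ℤ) (fun _ => (k : ℤ))).subset ?_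
  rintro la ⟨h1, h2⟩
  refine ⟨fun i => h1 i, fun i => ?_⟩
  have h3 : S.th i * la i ≤ dot S.th la :=
    Finset.single_le_sum (f := fun i => S.th i * la i)
      (fun j _ => mul_nonneg (by have := hth j; linarith) (h1 j)) (Finset.mem_univ i)
  have h5 := h1 i
  have h6 := hth i
  change la i ≤ (k : ℤ)
  nlinarith

theorem main : RDat.N_red → RDat.N_link → GD.J_hd → GD.J_AB → GD.J_sin → GD.J_lev := by
  intro h2 h3 h5 hAB hs n S hS D hD k
  have hfin := alc_finite hS k
  have hA : ∀ la, la ∈ hfin.toFinset ↔ la ∈ S.alc k := fun la => hfin.mem_toFinset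
  refine ⟨hfin.toFinset, hA, fun f => ?_⟩
  obtain ⟨s1, -⟩ := hs n S hS
  obtain ⟨-, b2, -⟩ := hAB n S hS
  have e1 : S.qdimR (S.par k) (f : GR (Fin n)) =
      pairR (S.qdR (S.par k)) (f : GR (Fin n)) := b2 f _ (s1 (S.par k))
  rw [e1]
  unfold pairR Finsupp.sum
  have e2 : ∀ la, (S.lm D k la (push aw0 (f : GR (Fin n))) : ℝ) =
      ∑ x ∈ (f : GR (Fin n)).coeff.support,
        ((f : GR (Fin n)).coeff x : ℝ) * (D.pf (aw k la) (aw k x) : ℝ) := by
    intro la
    unfold GD.lm
    rw [← pair_push, pair_eq_sum]
    push_cast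
    rfl
  simp only [e2, Finset.sum_mul]
  rw [Finset.sum_comm]
  refine Finset.sum_congr rfl fun x _ => ?_
  have e3 := key h2 h3 h5 hs hS hD k hfin.toFinset hA (aw k x) rfl
  have e4 : fp (aw (k : ℤ) x) = x := rfl
  rw [e4] at e3
  change ((f : GR (Fin n)).coeff x : ℝ) * S.qdR (S.par k) x = _
  rw [e3, Finset.mul_sum]
  refine Finset.sum_congr rfl fun la _ => ?_
  ring

end H391.KR.P_jlev
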