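import Pool.Agent.H391.KR.JV

/-!
# A class all of whose multiplicities vanish is zero (KR-jmz)
-/

noncomputable section

namespace H391.KR.P_jmz

open Finset H391.KR

/-! ### the group ring -/

section gr

variable {ι κ : Type}

theorem coeff_ex_mul (x : ι → ℤ) (f : GR ι) (y : ι → ℤ) :
    (ex x * f).coeff y = f.coeff (y - x) := by
  unfold ex
  rw [AddMonoidAlgebra.coeff_single_mul_apply, one_mul]
  congr 1
  abel

theorem ex_mul_ex (x y : ι → ℤ) : ex x * ex y = ex (x + y) := by
  unfold ex
  rw [AddMonoidAlgebra.single_mul_single, one_mul]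

theorem ex_zero : (ex 0 : GR ι) = 1 := rfl

theorem push_ex (g : (ι → ℤ) →+ (κ → ℤ)) (x : ι → ℤ) : push g (ex x) = ex (g x) := by
  have h0 : push g (ex x) = AddMonoidAlgebra.mapDomain g (ex x) := rfl
  rw [h0]
  unfold ex
  rw [AddMonoidAlgebra.mapDomain_single]

theorem coeff_push (g : (ι → ℤ) →+ (κ → ℤ)) (hg : Function.Injective g) (f : GR ι) (x : ι → ℤ) :
    (push g f).coeff (g x) = f.coeff x := by
  have h0 : push g f = AddMonoidAlgebra.mapDomain g f := rfl
  rw [h0, AddMonoidAlgebra.coeff_mapDomain, Finsupp.mapDomain_apply hg]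

theorem one_sub_ex_ne (x : ι → ℤ) (hx : x ≠ 0) : (1 - ex x : GR ι) ≠ 0 := by
  intro h
  have h1 : (1 - ex x : GR ι).coeff 0 = 0 := by
    rw [h]
    rfl
  rw [← ex_zero, AddMonoidAlgebra.coeff_sub, Finsupp.sub_apply] at h1
  unfold ex at h1
  rw [AddMonoidAlgebra.coeff_single, AddMonoidAlgebra.coeff_single, Finsupp.single_eq_same,
    Finsupp.single_eq_of_ne (Ne.symm hx)] at h1
  norm_num at h1

end gr

/-! ### roots -/

section roots

variable {n : ℕ} (S : GD n)

theorem dot_om (i : Fin n) (x : Fin n → ℤ) : dot (om i) x = x i := by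
  unfold dot om
  simp

theorem dot_add_left (a b x : Fin n → ℤ) : dot (a + b) x = dot a x + dot b x := by
  unfold dot
  simp only [Pi.add_apply, add_mul, sum_add_distrib]

theorem dot_smul_left (c : ℤ) (a x : Fin n → ℤ) : dot (c • a) x = c * dot a x := by
  unfold dot
  simp only [Pi.smul_apply, smul_eq_mul, mul_sum]
  refine sum_congr rfl fun j _ => by ring

theorem dot_neg_left (a x : Fin n → ℤ) : dot (-a) x = - dot a x := by
  have h := dot_smul_left (-1) a x
  rw [neg_one_smul] at h
  rw [h]
  ring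

theorem dot_sub_smul_left (a b x : Fin n → ℤ) (c : ℤ) :
    dot (a - c • b) x = dot a x - c * dot b x := by
  rw [sub_eq_add_neg, dot_add_left, dot_neg_left, dot_smul_left]
  ring

/-- reflection of a coroot -/
def rf (i : Fin n) (a : Fin n → ℤ) : Fin n → ℤ := a - dot a (S.rtw i) • om i

variable (hS : S.OKs)
include hS

theorem rt_rf (i : Fin n) (a : Fin n → ℤ) (ha : S.Cor a) :
    S.Cor (rf S i a) ∧ S.rt (rf S i a) = S.refl i (S.rt a) := by
  obtain ⟨h1, -, h3⟩ := hS.refl (om i) a (GD.Cor.simple i) ha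
  rw [(hS.om i).2] at h1 h3
  rw [dot_om] at h3
  exact ⟨h1, h3⟩

theorem refl_self (i : Fin n) (x : Fin n → ℤ) : S.refl i x i = - x i := by
  have h : S.refl i x i = x i - x i * S.C i i := rfl
  rw [h, hS.diag i]
  ring

theorem refl_refl (i : Fin n) (x : Fin n → ℤ) : S.refl i (S.refl i x) = x := by
  have h : S.refl i (S.refl i x) = S.refl i x - S.refl i x i • S.rtw i := rfl
  have h2 : S.refl i x = x - x i • S.rtw i := rfl
  rw [h, refl_self S hS, h2, neg_smul]
  abel

theorem refl_inj (i : Fin n) : Function.Injective (S.refl i) := by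
  intro x y h
  rw [← refl_refl S hS i x, h, refl_refl S hS]

theorem rf_rf (i : Fin n) (a : Fin n → ℤ) : rf S i (rf S i a) = a := by
  have h : rf S i (rf S i a) = rf S i a - dot (rf S i a) (S.rtw i) • om i := rfl
  have h2 : rf S i a = a - dot a (S.rtw i) • om i := rfl
  have h3 : dot (rf S i a) (S.rtw i) = - dot a (S.rtw i) := by
    rw [h2, dot_sub_smul_left, dot_om]
    have h4 : S.rtw i i = 2 := hS.diag i
    rw [h4]
    ring
  rw [h, h3, h2, neg_smul]
  abel

theorem rf_mem (i : Fin n) {a : Fin n → ℤ} (ha : a ∈ S.pos) (hai : a ≠ om i) :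
    rf S i a ∈ S.pos ∧ rf S i a ≠ om i := by
  obtain ⟨ha1, ha2⟩ := ha
  have hroot : S.Cor (rf S i a) := (rt_rf S hS i a ha1).1
  constructor
  · refine ⟨hroot, ?_⟩
    obtain ⟨k, hk, hak⟩ : ∃ k, k ≠ i ∧ a k ≠ 0 := by
      by_contra hcon
      push Not at hcon
      rcases hS.prop a ha1 i hcon with h | h
      · exact hai h
      · have h2 := ha2 i
        rw [h] at h2
        simp [om] at h2
    rcases (hS.sgn _ hroot).2 with h | h
    · exact h
    · exfalso
      have h1 := h k
      have h2 : rf S i a k = a k - dot a (S.rtw i) * om i k := rfl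
      have h3 : om i k = 0 := by simp [om, hk]
      rw [h2, h3, mul_zero, sub_zero] at h1
      exact hak (le_antisymm h1 (ha2 k))
  · intro h
    have h1 : a = rf S i (om i) := by rw [← h, rf_rf S hS]
    have h2 : a i = -1 := by
      rw [h1]
      have h3 : rf S i (om i) i = om i i - dot (om i) (S.rtw i) * om i i := rfl
      have h4 : dot (om i) (S.rtw i) = 2 := by rw [dot_om]; exact hS.diag i
      have h5 : (om i : Fin n → ℤ) i = 1 := by simp [om]
      rw [h3, h4, h5]
      ring
    have := ha2 i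
    omega

theorem pos_finite : S.pos.Finite := hS.fin.subset fun _ ha => ha.1

omit hS in
theorem om_mem (i : Fin n) : om i ∈ S.pos := by
  refine ⟨GD.Cor.simple i, fun j => ?_⟩
  unfold om
  split_ifs <;> norm_num

theorem push_delta (i : Fin n) : push (S.refl i) S.Delta = - (ex (S.rtw i) * S.Delta) := by
  have hfin := pos_finite S hS
  have hD : S.Delta = ∏ a ∈ hfin.toFinset, (1 - ex (-(S.rt a))) := by
    unfold GD.Delta
    rw [finprod_mem_eq_finite_toFinset_prod _ hfin]
  have hmem : om i ∈ hfin.toFinset := by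
    rw [Set.Finite.mem_toFinset]
    exact om_mem S i
  have hrt : S.refl i (S.rtw i) = - S.rtw i := by
    have h2 : S.refl i (S.rtw i) = S.rtw i - S.rtw i i • S.rtw i := rfl
    have h3 : S.rtw i i = 2 := hS.diag i
    rw [h2, h3, two_smul]
    abel
  rw [hD, ← mul_prod_erase _ _ hmem, map_mul]
  have h1 : push (S.refl i) (∏ a ∈ hfin.toFinset.erase (om i), (1 - ex (-(S.rt a)))) =
      ∏ a ∈ hfin.toFinset.erase (om i), (1 - ex (-(S.rt a))) := by
    rw [map_prod]
    refine prod_nbij' (rf S i) (rf S i) ?_ ?_ ?_ ?_ ?_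
    · intro a ha
      rw [mem_erase, Set.Finite.mem_toFinset] at ha ⊢
      have := rf_mem S hS i ha.2 ha.1
      exact ⟨this.2, this.1⟩
    · intro a ha
      rw [mem_erase, Set.Finite.mem_toFinset] at ha ⊢
      have := rf_mem S hS i ha.2 ha.1
      exact ⟨this.2, this.1⟩
    · intro a _
      exact rf_rf S hS i a
    · intro a _
      exact rf_rf S hS i a
    · intro a ha
      rw [mem_erase, Set.Finite.mem_toFinset] at ha
      rw [map_sub, map_one, push_ex, map_neg, (rt_rf S hS i a ha.2.1).2]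
  rw [h1, map_sub, map_one, push_ex, map_neg, (hS.om i).2, hrt, neg_neg, ← mul_assoc, ← neg_mul]
  congr 1
  rw [mul_sub, mul_one, ex_mul_ex, add_neg_cancel, ex_zero]
  ring

theorem delta_ne : S.Delta ≠ 0 := by
  have hfin := pos_finite S hS
  have hD : S.Delta = ∏ a ∈ hfin.toFinset, (1 - ex (-(S.rt a))) := by
    unfold GD.Delta
    rw [finprod_mem_eq_finite_toFinset_prod _ hfin]
  rw [hD, Finset.prod_ne_zero_iff]
  intro a ha
  rw [Set.Finite.mem_toFinset] at ha
  refine one_sub_ex_ne _ ?_
  intro h0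
  have h1 : S.rt a = 0 := neg_eq_zero.1 h0
  have h2 := hS.two a ha.1
  rw [h1] at h2
  simp [dot] at h2

omit hS in
theorem push_chr (i : Fin n) (f : S.RepR) : push (S.refl i) (GD.chr f) = GD.chr f := by
  have h1 : GD.chr f ∈ S.Rep := Subtype.property (p := fun x => x ∈ S.Rep) f
  unfold GD.Rep at h1
  rw [Subring.mem_iInf] at h1
  exact h1 i

theorem mult_anti (i : Fin n) (f : S.RepR) (x : Fin n → ℤ) :
    S.mult f (x - (x i + 1) • S.rtw i) = - S.mult f x := by
  have h1 := coeff_push (S.refl i) (refl_inj S hS i) (GD.chr f * S.Delta) x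
  rw [map_mul, push_chr, push_delta S hS i, mul_neg, mul_left_comm, AddMonoidAlgebra.coeff_neg,
    Finsupp.neg_apply, coeff_ex_mul] at h1
  have h2 : S.refl i x - S.rtw i = x - (x i + 1) • S.rtw i := by
    have h3 : S.refl i x = x - x i • S.rtw i := rfl
    rw [h3, add_smul, one_smul]
    abel
  rw [h2] at h1
  unfold GD.mult
  rw [← h1, neg_neg]

end roots

/-! ### words -/

theorem anti_sR {n : ℕ} {D : RDat (Fin n) (Fin n)} {q : (Fin n → ℤ) → ℤ}
    (hq : ∀ j z, q (D.s j z) = - q z) (w : List (Fin n)) :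
    ∀ z, q (D.sR w z) = (-1) ^ w.length * q z := by
  induction w with
  | nil => intro z; simp [RDat.sR]
  | cons j w ih =>
    intro z
    have h1 : D.sR (j :: w) z = D.sR w (D.s j z) := rfl
    rw [h1, ih, hq, List.length_cons, pow_succ]
    ring

theorem main : RDat.N_red → GD.J_fin → GD.J_mz := by
  intro hred hfin n S hS f hf
  obtain ⟨D, hco, hal, hT, -, -, -⟩ := hfin n S hS
  -- the shifted function
  have hs : ∀ j z, D.s j z = z - z j • S.rtw j := by
    intro j z
    have h1 : D.s j z = z - D.co j z • D.al j := rfl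
    rw [h1, hco, hal]
  have hq : ∀ (j : Fin n) (z : Fin n → ℤ), S.mult f (D.s j z - fun _ => 1) =
      - S.mult f (z - fun _ => 1) := by
    intro j z
    rw [← mult_anti S hS j f (z - fun _ => 1), hs]
    congr 1
    have h1 : (z - fun _ => (1 : ℤ) : Fin n → ℤ) j + 1 = z j := by
      rw [Pi.sub_apply]
      ring
    rw [h1]
    abel
  have hz : ∀ z : Fin n → ℤ, S.mult f (z - fun _ => 1) = 0 := by
    intro z
    obtain ⟨⟨w, -, -, hw⟩, -⟩ := hred _ _ D Set.univ z (by rw [hT]; trivial)
    have h1 := anti_sR (D := D) (q := fun z => S.mult f (z - fun _ => 1)) hq w z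
    have h2 : S.mult f (D.sR w z - fun _ => 1) = 0 := by
      by_cases h3 : ∃ j, D.sR w z j = 0
      · obtain ⟨j, hj⟩ := h3
        have h4 := hq j (D.sR w z)
        rw [hs, hj, zero_smul, sub_zero] at h4
        omega
      · push Not at h3
        refine hf _ fun i => ?_
        have h5 := hw i (Set.mem_univ i)
        rw [hco] at h5
        have h6 := h3 i
        rw [Pi.sub_apply]
        omega
    rw [h2] at h1
    rcases mul_eq_zero.1 h1.symm with h | h
    · exact absurd h (pow_ne_zero _ (by norm_num))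
    · exact h
  have h0 : GD.chr f * S.Delta = 0 := by
    ext mu
    have h1 := hz (mu + fun _ => 1)
    rw [add_sub_cancel_right] at h1
    exact h1
  rcases mul_eq_zero.1 h0 with h | h
  · exact Subtype.ext h
  · exact absurd h (delta_ne S hS)

end H391.KR.P_jmz
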