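import Pool.Agent.H391.KR.PM

/-!
# KR-len: counting inversions (helper100, for helper391)
-/

set_option autoImplicit false

noncomputable section

namespace H391.KR.P_len

open H391.KR H391.KR.RDat

variable {ι I : Type} (D : RDat ι I)

/-- the reflection in `b` -/
def rf (b : D.R) (x : ι → ℤ) : ι → ℤ := x - D.ev b x • D.rt b

lemma ev_rf (b c : D.R) (x : ι → ℤ) :
    D.ev c (rf D b x) = D.ev c x - D.ev b x * D.ev c (D.rt b) := by
  unfold rf
  rw [map_sub, map_zsmul, smul_eq_mul]

lemma ev_rf_self (b : D.R) (x : ι → ℤ) : D.ev b (rf D b x) = - D.ev b x := by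
  rw [ev_rf, D.ev_rt]; ring

lemma rf_rf (b : D.R) (x : ι → ℤ) : rf D b (rf D b x) = x := by
  have h : rf D b (rf D b x) = rf D b x - D.ev b (rf D b x) • D.rt b := rfl
  rw [h, ev_rf_self]
  unfold rf
  rw [neg_smul, sub_neg_eq_add, sub_add_cancel]

/-- the inversions of `x` -/
def Inv (x : ι → ℤ) : Set D.R := {b | D.ev b x < 0}

open Classical in
/-- the permutation of the positive coroots different from `sim j` -/
def sg (j : I) (b : D.R) : D.R := if h : b ≠ D.sim j then (D.perm j b h).choose else b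

lemma sg_spec (j : I) (b : D.R) (h : b ≠ D.sim j) :
    sg D j b ≠ D.sim j ∧ ∀ x, D.ev (sg D j b) x = D.ev b (rf D (D.sim j) x) := by
  have h1 := (D.perm j b h).choose_spec
  unfold sg
  rw [dif_pos h]
  exact ⟨h1.1, h1.2.1⟩

lemma ncard_le (j : I) (x : ι → ℤ) (hx : x ∈ D.T) :
    (Inv D (rf D (D.sim j) x) \ {D.sim j}).ncard ≤ (Inv D x \ {D.sim j}).ncard := by
  refine Set.ncard_le_ncard_of_injOn (sg D j) ?_ ?_
    ((D.fin x hx).subset Set.sdiff_subset)
  · rintro c ⟨hc1, hc2⟩
    have hc2' : c ≠ D.sim j := fun h => hc2 h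
    obtain ⟨h1, h2⟩ := sg_spec D j c hc2'
    refine ⟨?_, fun h => h1 h⟩
    have hc1' : D.ev c (rf D (D.sim j) x) < 0 := hc1
    change D.ev (sg D j c) x < 0
    rw [h2]
    exact hc1'
  · rintro c ⟨_, hc2⟩ c' ⟨_, hc2'⟩ h
    have e1 := (sg_spec D j c (fun h => hc2 h)).2
    have e2 := (sg_spec D j c' (fun h => hc2' h)).2
    apply D.inj
    intro z
    have h1 : D.ev c (rf D (D.sim j) (rf D (D.sim j) z)) =
        D.ev c' (rf D (D.sim j) (rf D (D.sim j) z)) := by
      rw [← e1, ← e2, h]
    rw [rf_rf] at h1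
    exact h1

lemma ncard_eq (j : I) (x : ι → ℤ) (hx : x ∈ D.T) :
    (Inv D (rf D (D.sim j) x) \ {D.sim j}).ncard = (Inv D x \ {D.sim j}).ncard := by
  apply le_antisymm (ncard_le D j x hx)
  have h := ncard_le D j (rf D (D.sim j) x) (D.T_refl x hx (D.sim j))
  rw [rf_rf] at h
  exact h

lemma len_neg (j : I) (x : ι → ℤ) (hx : x ∈ D.T) (h : D.ev (D.sim j) x < 0) :
    D.len x = (Inv D x \ {D.sim j}).ncard + 1 := by
  have hmem : D.sim j ∈ Inv D x := h
  exact (Set.ncard_sdiff_singleton_add_one hmem (D.fin x hx)).symm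

lemma len_nonneg (j : I) (x : ι → ℤ) (h : 0 ≤ D.ev (D.sim j) x) :
    D.len x = (Inv D x \ {D.sim j}).ncard := by
  have hmem : D.sim j ∉ Inv D x := fun h' => absurd (show D.ev (D.sim j) x < 0 from h')
    (not_lt.2 h)
  rw [Set.sdiff_singleton_eq_self hmem]
  rfl

theorem t_len : RDat.S_len := by
  intro ι I D x hx j
  have hs : D.s j x = rf D (D.sim j) x := rfl
  have hco : D.co j (D.s j x) = - D.co j x := ev_rf_self D (D.sim j) x
  have hT : D.s j x ∈ D.T := D.T_refl x hx (D.sim j)
  have hss : D.s j (D.s j x) = x := rf_rf D (D.sim j) x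
  have hcard := ncard_eq D j x hx
  refine ⟨?_, ?_, ?_, hT, hco, hss⟩
  · intro h
    have h1 := len_neg D j x hx h
    have h2 := len_nonneg D j (D.s j x) (by
      change 0 ≤ D.co j (D.s j x)
      rw [hco]; linarith)
    rw [hs] at h2 ⊢
    omega
  · intro h
    have h1 := len_nonneg D j x h.le
    have h2 := len_neg D j (D.s j x) hT (by
      change D.co j (D.s j x) < 0
      rw [hco]; linarith)
    rw [hs] at h2 ⊢
    omega
  · intro h
    have h' : D.s j x = x - D.co j x • D.al j := rfl
    rw [h', h, zero_smul, sub_zero]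

open Classical in
/-- the injection of the inversions -/
def ph (b c : D.R) : D.R :=
  if h : ∃ d, ∀ x, D.ev d x = D.ev c (rf D b x) then h.choose else c

lemma ph_pos (b c : D.R) (h : ∃ d, ∀ x, D.ev d x = D.ev c (rf D b x)) (x : ι → ℤ) :
    D.ev (ph D b c) x = D.ev c (rf D b x) := by
  unfold ph
  rw [dif_pos h]
  exact h.choose_spec x

lemma ph_neg (b c : D.R) (h : ¬ ∃ d, ∀ x, D.ev d x = D.ev c (rf D b x)) :
    ph D b c = c := by
  unfold ph
  rw [dif_neg h]

theorem t_refl : RDat.S_refl := by
  intro ι I D x hx b hb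
  change D.len (rf D b x) < D.len x
  have hmem : b ∈ Inv D x := hb
  have h1 : D.len x = (Inv D x \ {b}).ncard + 1 :=
    (Set.ncard_sdiff_singleton_add_one hmem (D.fin x hx)).symm
  rw [h1, Nat.lt_succ_iff]
  refine Set.ncard_le_ncard_of_injOn (ph D b) ?_ ?_
    ((D.fin x hx).subset Set.sdiff_subset)
  · intro c hc
    have hc' : D.ev c (rf D b x) < 0 := hc
    by_cases h : ∃ d, ∀ x, D.ev d x = D.ev c (rf D b x)
    · refine ⟨?_, ?_⟩
      · change D.ev (ph D b c) x < 0
        rw [ph_pos D b c h]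
        exact hc'
      · intro he
        have he' : ph D b c = b := he
        apply D.pos c b
        intro z
        have e1 := ph_pos D b c h (rf D b z)
        rw [rf_rf, he', ev_rf_self] at e1
        exact e1.symm
    · rw [ph_neg D b c h]
      rcases D.dich b c with h2 | ⟨h2, -⟩
      · exact absurd h2 h
      · refine ⟨?_, ?_⟩
        · change D.ev c x < 0
          rw [ev_rf] at hc'
          have := mul_neg_of_neg_of_pos hb h2
          linarith
        · intro he
          have he' : c = b := he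
          rw [he', ev_rf_self] at hc'
          linarith
  · intro c _ c' _ he
    by_cases h : ∃ d, ∀ x, D.ev d x = D.ev c (rf D b x)
    · by_cases h' : ∃ d, ∀ x, D.ev d x = D.ev c' (rf D b x)
      · apply D.inj
        intro z
        have e1 := ph_pos D b c h (rf D b z)
        have e2 := ph_pos D b c' h' (rf D b z)
        rw [he] at e1
        rw [rf_rf] at e1 e2
        rw [← e1, ← e2]
      · exfalso
        apply h'
        refine ⟨c, fun z => ?_⟩
        have e1 := ph_pos D b c h (rf D b z)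
        rw [he, ph_neg D b c' h', rf_rf] at e1
        exact e1.symm
    · by_cases h' : ∃ d, ∀ x, D.ev d x = D.ev c' (rf D b x)
      · exfalso
        apply h
        refine ⟨c', fun z => ?_⟩
        have e1 := ph_pos D b c' h' (rf D b z)
        rw [← he, ph_neg D b c h, rf_rf] at e1
        exact e1.symm
      · rw [ph_neg D b c h, ph_neg D b c' h'] at he
        exact he

theorem main : RDat.S_len ∧ RDat.S_refl := ⟨t_len, t_refl⟩

end H391.KR.P_len
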