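import Pool.Agent.H391.KR.PM

noncomputable section

namespace H391.KR.P_main1

open Finset H391.KR

theorem main : RDat.S_len → RDat.S_cong → RDat.S_chain → RDat.S_fin → RDat.S_str → RDat.S_wt →
    RDat.S_demstr → RDat.S_main1 := by
  intro hlen hcong hchain hfin hstr hwt hdem ι I D M m x j hxT hgood
  have hM : 0 < M := hgood.1
  have hML : M ∣ m * M := Dvd.intro_left m rfl
  have hbase : D.co j x ≤ 0 → D.Ctx M 0 (m * M) x j := by
    intro h
    refine ⟨⟨hxT, hgood, hML, Nat.zero_le _, ?_⟩, h⟩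
    simp
  have hBfin : (D.Paths M (m * M) x).Finite := (hfin ι I D x hxT).2 M 0 (m * M)
  have hBwt : ∀ τ ∈ D.Paths M (m * M) x, tot (m * M) τ = (M : ℤ) • wt M (m * M) τ :=
    hwt ι I D M (m * M) x hxT hM hML
  constructor
  · intro hneg
    obtain ⟨st⟩ := hstr ι I D M 0 (m * M) x j (hbase hneg.le)
    have hsx : D.s j x ∈ D.T := (hlen ι I D x hxT j).2.2.2.1
    have hstep : ∀ z, z ∈ D.T → D.co j z < 0 → D.Step M 0 z (D.s j z) := by
      intro z hz hzn
      exact (hchain ι I D M 0 z z hz Relation.ReflTransGen.refl j).2.2.2.2.1 hzn (by simp)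
    refine hdem ι I D M (m * M) j (D.Paths M (m * M) x) (D.Paths M (m * M) (D.s j x)) hM hBfin
      ?_ hBwt st ?_ ?_
    · rintro τ ⟨h1, h2, h3⟩
      exact ⟨fun h => Relation.ReflTransGen.head (hstep x hxT hneg) (h1 h), h2, h3⟩
    · rintro τ hτ hep
      refine ⟨fun h => ?_, hτ.2.1, hτ.2.2⟩
      have hH := st.h0 τ hτ hep 1 (by omega) (by omega)
      have hH' : 0 ≤ D.co j (τ 0) := by
        simpa [RDat.H] using hH
      exact ((hchain ι I D M 0 x (τ 0) hxT (hτ.1 h) j).1 hneg hH').1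
    · rintro τ hτ hep
      have hτB : τ ∈ D.Paths M (m * M) x :=
        ⟨fun h => Relation.ReflTransGen.head (hstep x hxT hneg) (hτ.1 h), hτ.2.1, hτ.2.2⟩
      obtain ⟨e1, -, -, -, -, e6⟩ := st.he τ hτB hep
      constructor
      · refine ⟨fun h => ?_, e1.2.1, e1.2.2⟩
        rcases e6 with e6 | ⟨e6, e7⟩
        · rw [e6]; exact hτ.1 h
        · rw [e7]
          have hT0 : τ 0 ∈ D.T := (hcong ι I D M 0 (D.s j x) (τ 0) hsx (hτ.1 h)).1
          exact Relation.ReflTransGen.tail (hτ.1 h) (hstep _ hT0 e6)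
      · intro hph
        obtain ⟨f1, -, -, -, -, f6⟩ := st.hf τ hτB hph
        refine ⟨fun h => ?_, f1.2.1, f1.2.2⟩
        rw [f6 hep]; exact hτ.1 h
  · intro hneg
    obtain ⟨st⟩ := hstr ι I D M 0 (m * M) x j (hbase hneg)
    refine hdem ι I D M (m * M) j (D.Paths M (m * M) x) (D.Paths M (m * M) x) hM hBfin
      (fun _ h => h) hBwt st (fun τ h _ => h) ?_
    intro τ hτ hep
    exact ⟨(st.he τ hτ hep).1, fun hph => (st.hf τ hτ hph).1⟩

end H391.KR.P_main1
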