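import Pool.Agent.H391.KR.PM

/-!
# KR project (helper391), task KR-main3 (helper726)
-/

set_option autoImplicit false

noncomputable section

namespace H391.KR.P_main3

open Finset H391.KR H391.KR.RDat

theorem main : RDat.S_cong → RDat.S_main3 := by
  intro hc ι I D M m x hx hM hlen
  have key : ∀ l y, D.Rel M l x y → y = x := by
    intro l y h
    have h1 := hc ι I D M l x y hx h
    exact h1.2.2.1 (by rw [hlen]; have := h1.2.1; omega)
  have hset : D.Paths M (m * M) x = {fun l => if l < m * M then x else 0} := by
    ext τ
    rw [Set.mem_singleton_iff]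
    constructor
    · rintro ⟨h1, h2, h3⟩
      have h4 : ∀ l, l < m * M → τ l = x := by
        intro l
        induction l with
        | zero => intro hl; exact key 0 _ (h1 hl)
        | succ l ih =>
          intro hl
          have h5 := h2 (l + 1) (Nat.succ_pos l) hl
          rw [Nat.add_sub_cancel, ih (by omega)] at h5
          exact key (l + 1) _ h5
      funext l
      by_cases hl : l < m * M
      · rw [if_pos hl]; exact h4 l hl
      · rw [if_neg hl]; exact h3 l (Or.inr (not_lt.1 hl))
    · rintro rfl
      refine ⟨fun h => ?_, fun l h1 h2 => ?_, fun l h => ?_⟩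
      · show D.Rel M 0 x (if 0 < m * M then x else 0)
        rw [if_pos h]
        exact Relation.ReflTransGen.refl
      · show D.Rel M l (if l - 1 < m * M then x else 0) (if l < m * M then x else 0)
        rw [if_pos (by omega), if_pos h2]
        exact Relation.ReflTransGen.refl
      · show (if l < m * M then x else 0) = 0
        rcases h with h | h
        · exact absurd h (Nat.not_lt_zero l)
        · rw [if_neg (not_lt.2 h)]
  have hwt : wt M (m * M) (fun l => if l < m * M then x else 0) = (m : ℤ) • x := by
    funext i
    show (∑ l ∈ range (m * M), (if l < m * M then x else 0) i) / (M : ℤ) = (m : ℤ) * x i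
    have h1 : (∑ l ∈ range (m * M), (if l < m * M then x else 0) i) =
        ∑ l ∈ range (m * M), x i := by
      refine Finset.sum_congr rfl fun l hl => ?_
      rw [if_pos (Finset.mem_range.1 hl)]
    rw [h1, Finset.sum_const, Finset.card_range, nsmul_eq_mul]
    push_cast
    have hM' : (M : ℤ) ≠ 0 := by exact_mod_cast hM.ne'
    rw [show (m : ℤ) * M * x i = ((m : ℤ) * x i) * M by ring]
    exact Int.mul_ediv_cancel _ hM'
  unfold RDat.ch chS
  rw [hset, finsum_mem_singleton, hwt]

end H391.KR.P_main3
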