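import Pool.Agent.H391.KR.PM

/-!
# The Pieri type recursion at a weight with one cover
-/

set_option autoImplicit false

noncomputable section

namespace H391.KR.P_main4

open Finset H391.KR H391.KR.RDat

variable {ι I : Type} (D : RDat ι I)

theorem step_weak {M l : ℕ} {x y : ι → ℤ} (h : D.Step M l x y) : D.Step 1 0 x y := by
  obtain ⟨b, h1, h2, h3, -⟩ := h
  exact ⟨b, h1, h2, h3, by simp⟩

theorem step_shift {M l l' : ℕ} (hl : ∀ c : ℤ, (M : ℤ) ∣ (l : ℤ) * c → (M : ℤ) ∣ (l' : ℤ) * c)
    {x y : ι → ℤ} (h : D.Step M l x y) : D.Step M l' x y := by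
  obtain ⟨b, h1, h2, h3, h4⟩ := h
  exact ⟨b, h1, h2, h3, hl _ h4⟩

theorem rel_shift {M l l' : ℕ} (hl : ∀ c : ℤ, (M : ℤ) ∣ (l : ℤ) * c → (M : ℤ) ∣ (l' : ℤ) * c)
    {x y : ι → ℤ} (h : D.Rel M l x y) : D.Rel M l' x y :=
  Relation.ReflTransGen.mono (fun _ _ => step_shift D hl) _ _ h

theorem up (M l : ℕ) (c : ℤ) (h : (M : ℤ) ∣ (l : ℤ) * c) : (M : ℤ) ∣ ((l + M : ℕ) : ℤ) * c := by
  push_cast
  rw [add_mul]
  exact dvd_add h (dvd_mul_right _ _)

theorem down (M l : ℕ) (c : ℤ) (h : (M : ℤ) ∣ ((l + M : ℕ) : ℤ) * c) : (M : ℤ) ∣ (l : ℤ) * c := by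
  push_cast at h
  rw [add_mul] at h
  exact (dvd_add_left (dvd_mul_right _ _)).mp h

theorem rel_up {M l : ℕ} {x y : ι → ℤ} (h : D.Rel M l x y) : D.Rel M (l + M) x y :=
  rel_shift D (up M l) h

theorem rel_down {M l : ℕ} {x y : ι → ℤ} (h : D.Rel M (l + M) x y) : D.Rel M l x y :=
  rel_shift D (down M l) h

/-- prefix a path with `M` steps in the direction `x` -/
def pre (M : ℕ) (x : ι → ℤ) (σ : ℕ → ι → ℤ) : ℕ → ι → ℤ := fun l => if l < M then x else σ (l - M)

theorem pre_inj (M : ℕ) (x : ι → ℤ) : Function.Injective (pre M x) := by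
  intro σ σ' h
  funext l
  have h1 := congrFun h (l + M)
  simpa [pre] using h1

theorem tot_pre (M m : ℕ) (x : ι → ℤ) (σ : ℕ → ι → ℤ) (i : ι) :
    tot ((m + 1) * M) (pre M x σ) i = (M : ℤ) * x i + tot (m * M) σ i := by
  unfold tot
  have e1 : (m + 1) * M = M + m * M := by ring
  rw [e1, Finset.sum_range_add]
  congr 1
  · rw [Finset.sum_congr rfl (g := fun _ => x i) (fun l hl => by
      rw [pre, if_pos (Finset.mem_range.mp hl)]), Finset.sum_const, Finset.card_range]
    simp
  · refine Finset.sum_congr rfl fun l _ => ?_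
    rw [pre, if_neg (by omega), Nat.add_sub_cancel_left]

theorem wt_pre (M m : ℕ) (hM : 0 < M) (x : ι → ℤ) (σ : ℕ → ι → ℤ) :
    wt M ((m + 1) * M) (pre M x σ) = x + wt M (m * M) σ := by
  funext i
  show tot ((m + 1) * M) (pre M x σ) i / (M : ℤ) = x i + tot (m * M) σ i / (M : ℤ)
  rw [tot_pre, add_comm, Int.add_mul_ediv_left _ _ (by exact_mod_cast hM.ne'), add_comm]

theorem ex_add (x y : ι → ℤ) : ex (x + y) = ex x * ex y := by
  unfold ex
  rw [AddMonoidAlgebra.single_mul_single, one_mul]

variable {D}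

/-- a nontrivial chain starts with a step -/
theorem first {M l : ℕ} {x y z : ι → ℤ} (hone : ∀ y, D.Step 1 0 x y → y = z)
    (h : D.Rel M l x y) (hne : y ≠ x) : D.Step M l x z ∧ D.Rel M l z y := by
  rcases Relation.ReflTransGen.cases_head h with h | ⟨w, hw, hwy⟩
  · exact absurd h.symm hne
  · have e : w = z := hone w (step_weak D hw)
    rw [e] at hw hwy
    exact ⟨hw, hwy⟩

theorem main : RDat.S_len → RDat.S_cov → RDat.S_cong → RDat.S_fin → RDat.S_wt →
    RDat.S_main4 := by
  intro hlen hcov hcong hfin _ ι I D M m x i hx hgood hco hone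
  have hM : 0 < M := hgood.1
  obtain ⟨L1, -, -, L4, L5, -⟩ := hlen ι I D x hx i
  have hlt : D.co i x < 0 := by rw [hco]; norm_num
  have hlenx : D.len (D.s i x) + 1 = D.len x := L1 hlt
  have hML : 0 < (m + 1) * M := Nat.mul_pos (Nat.succ_pos m) hM
  -- the step to the cover
  have hstep : D.Step M 0 x (D.s i x) := ⟨D.sim i, hlt, rfl, hlenx, by simp⟩
  -- no step at the times `0 < l < M`
  have hno : ∀ l, 0 < l → l < M → ∀ y, D.Rel M l x y → y = x := by
    intro l hl0 hlM y hy
    by_contra hne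
    obtain ⟨hs, -⟩ := first hone hy hne
    have hdvd : (M : ℤ) ∣ (l : ℤ) * D.co i x := by
      rcases hcov ι I D M l x (D.s i x) hx hs i with h | h
      · exact h.2.2
      · have := h.1 hlt
        rw [L5, hco] at this
        norm_num at this
    rw [hco] at hdvd
    have h2 : (M : ℤ) ∣ (l : ℤ) := by simpa using hdvd
    have h3 := Nat.le_of_dvd hl0 (Int.natCast_dvd_natCast.mp h2)
    omega
  -- the two parts
  have hA : {τ | τ ∈ D.Paths M ((m + 1) * M) x ∧ τ 0 ≠ x} = D.Paths M ((m + 1) * M) (D.s i x) := by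
    ext τ
    constructor
    · rintro ⟨⟨h1, h2, h3⟩, hne⟩
      exact ⟨fun hL => (first hone (h1 hL) hne).2, h2, h3⟩
    · rintro ⟨h1, h2, h3⟩
      refine ⟨⟨fun hL => Relation.ReflTransGen.head hstep (h1 hL), h2, h3⟩, ?_⟩
      intro h0
      obtain ⟨-, hle, -⟩ := hcong ι I D M 0 (D.s i x) (τ 0) L4 (h1 hML)
      rw [h0] at hle
      omega
  have hB : {τ | τ ∈ D.Paths M ((m + 1) * M) x ∧ τ 0 = x} =
      pre M x '' D.Paths M (m * M) x := by
    ext τ
    constructor
    · rintro ⟨⟨h1, h2, h3⟩, h0⟩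
      have hstr : ∀ l, l < M → τ l = x := by
        intro l
        induction l with
        | zero => intro _; exact h0
        | succ l ih =>
          intro hl
          have h4 := h2 (l + 1) (Nat.succ_pos l) (lt_of_lt_of_le hl (Nat.le_mul_of_pos_left M (Nat.succ_pos m)))
          rw [Nat.add_sub_cancel, ih (by omega)] at h4
          exact hno (l + 1) (Nat.succ_pos l) hl _ h4
      have hmM : (m + 1) * M = m * M + M := by ring
      refine ⟨fun l => τ (l + M), ⟨?_, ?_, ?_⟩, ?_⟩
      · intro hL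
        have h4 := h2 M hM (by omega)
        rw [hstr (M - 1) (by omega)] at h4
        have h5 : D.Rel M (0 + M) x (τ M) := by rwa [zero_add]
        have h6 := rel_down D h5
        show D.Rel M 0 x (τ (0 + M))
        rwa [zero_add]
      · intro l hl0 hl
        have h4 := h2 (l + M) (by omega) (by omega)
        have e : l + M - 1 = l - 1 + M := by omega
        rw [e] at h4
        exact rel_down D h4
      · intro l hl
        rcases hl with hl | hl
        · exact absurd hl (Nat.not_lt_zero l)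
        · exact h3 (l + M) (Or.inr (by omega))
      · funext l
        unfold pre
        split_ifs with hl
        · exact (hstr l hl).symm
        · show τ (l - M + M) = τ l
          rw [Nat.sub_add_cancel (by omega)]
    · rintro ⟨σ, ⟨h1, h2, h3⟩, rfl⟩
      have hmM : (m + 1) * M = m * M + M := by ring
      have p0 : pre M x σ 0 = x := by rw [pre, if_pos hM]
      refine ⟨⟨?_, ?_, ?_⟩, p0⟩
      · intro _
        rw [p0]
        exact Relation.ReflTransGen.refl
      · intro l hl0 hl
        unfold pre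
        by_cases c1 : l < M
        · rw [if_pos (show l - 1 < M by omega), if_pos c1]
          exact Relation.ReflTransGen.refl
        · by_cases c2 : l = M
          · subst c2
            rw [if_pos (show l - 1 < l by omega), if_neg c1, Nat.sub_self]
            have h4 := rel_up D (h1 (by omega))
            rwa [zero_add] at h4
          · rw [if_neg (show ¬ l - 1 < M by omega), if_neg c1]
            have h4 := rel_up D (h2 (l - M) (by omega) (by omega))
            have e1 : l - M + M = l := by omega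
            have e2 : l - M - 1 = l - 1 - M := by omega
            rwa [e1, e2] at h4
      · intro l hl
        rcases hl with hl | hl
        · exact absurd hl (Nat.not_lt_zero l)
        · unfold pre
          rw [if_neg (by omega)]
          exact h3 (l - M) (Or.inr (by omega))
  have hfin1 : (D.Paths M ((m + 1) * M) x).Finite := (hfin ι I D x hx).2 M 0 _
  have hfin2 : (D.Paths M (m * M) x).Finite := (hfin ι I D x hx).2 M 0 _
  have hU : D.Paths M ((m + 1) * M) x =
      {τ | τ ∈ D.Paths M ((m + 1) * M) x ∧ τ 0 ≠ x} ∪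
        {τ | τ ∈ D.Paths M ((m + 1) * M) x ∧ τ 0 = x} := by
    ext τ
    constructor
    · intro h
      by_cases h0 : τ 0 = x
      · exact Or.inr ⟨h, h0⟩
      · exact Or.inl ⟨h, h0⟩
    · rintro (h | h)
      · exact h.1
      · exact h.1
  have hd : Disjoint {τ | τ ∈ D.Paths M ((m + 1) * M) x ∧ τ 0 ≠ x}
      {τ | τ ∈ D.Paths M ((m + 1) * M) x ∧ τ 0 = x} := by
    rw [Set.disjoint_left]
    rintro τ ⟨-, h⟩ ⟨-, h'⟩
    exact h h'
  show chS M ((m + 1) * M) (D.Paths M ((m + 1) * M) x) =
    chS M ((m + 1) * M) (D.Paths M ((m + 1) * M) (D.s i x)) +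
      ex x * chS M (m * M) (D.Paths M (m * M) x)
  unfold chS
  rw [hU, finsum_mem_union hd (hfin1.subset fun τ h => h.1) (hfin1.subset fun τ h => h.1), hA, hB,
    finsum_mem_image ((pre_inj M x).injOn), mul_finsum_mem' _ _ hfin2]
  congr 1
  refine finsum_mem_congr rfl fun σ _ => ?_
  rw [wt_pre M m hM, ex_add]

end H391.KR.P_main4
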