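import Pool.Agent.H391.KR.PN

/-!
# Adjunction along words (N_adj)
-/

noncomputable section

namespace H391.KR.P_nadj

open Finset H391.KR

variable {ι I : Type} (D : RDat ι I)

theorem demL_append (w w' : List I) (f : GR ι) :
    D.demL (w ++ w') f = D.demL w (D.demL w' f) := by
  induction w with
  | nil => rfl
  | cons j w ih =>
    show D.dem j (D.demL (w ++ w') f) = D.dem j (D.demL w (D.demL w' f))
    rw [ih]

theorem main : RDat.N_op → RDat.N_adj := by
  intro hop ι I D p hp
  have demL_cons : ∀ (j : I) (w : List I) (f : GR ι), D.demL (j :: w) f = D.dem j (D.demL w f) :=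
    fun _ _ _ => rfl
  refine ⟨?_, ?_, ?_, ?_⟩
  · intro w
    induction w with
    | nil =>
      intro f
      rfl
    | cons j w ih =>
      intro f
      rw [demL_cons, (hop ι I D j).2.2.2.1 p hp, ih]
  · intro w
    induction w with
    | nil =>
      intro f g
      rfl
    | cons j w ih =>
      intro f g
      rw [demL_cons, (hop ι I D j).2.2.2.2.1 p hp, ih, List.reverse_cons, demL_append]
      rfl
  · intro w
    induction w with
    | nil =>
      intro f g _
      rfl
    | cons j w ih =>
      intro f g hf
      rw [demL_cons, demL_cons, ih f g (fun i hi => hf i (List.mem_cons_of_mem _ hi)),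
        (hop ι I D j).1 f _ (hf j List.mem_cons_self)]
  · intro w
    induction w with
    | nil =>
      intro f _
      rfl
    | cons j w ih =>
      intro f hf
      rw [demL_cons, ih f (fun i hi => hf i (List.mem_cons_of_mem _ hi)),
        (hop ι I D j).2.2.1 f (hf j List.mem_cons_self)]

end H391.KR.P_nadj
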