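import Pool.Agent.H391.KR.PN

/-!
# KR-ndel: deletion property
-/

noncomputable section

namespace H391.KR.P_ndel

open Finset H391.KR

variable {ι I : Type} (D : RDat ι I)

theorem s_sub (j : I) (x y : ι → ℤ) : D.s j (x - y) = D.s j x - D.s j y := by
  unfold RDat.s RDat.co
  rw [map_sub, sub_smul]
  abel

theorem s_zsmul (j : I) (c : ℤ) (x : ι → ℤ) : D.s j (c • x) = c • D.s j x := by
  unfold RDat.s RDat.co
  rw [map_zsmul, smul_sub, smul_smul, smul_eq_mul]

theorem co_s (j : I) (x : ι → ℤ) : D.co j (D.s j x) = - D.co j x := by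
  unfold RDat.s RDat.co RDat.al
  rw [map_sub, map_zsmul, D.ev_rt, smul_eq_mul]
  ring

theorem s_s (j : I) (x : ι → ℤ) : D.s j (D.s j x) = x := by
  have h := co_s D j x
  have h1 : D.s j (D.s j x) = D.s j x - D.co j (D.s j x) • D.al j := rfl
  rw [h1, h, neg_smul]
  unfold RDat.s
  abel

theorem sR_append (u v : List I) : ∀ x, D.sR (u ++ v) x = D.sR v (D.sR u x) := by
  induction u with
  | nil => intro x; rfl
  | cons j u ih => intro x; exact ih (D.s j x)

/-- reflection -/
def rf (b : D.R) (x : ι → ℤ) : ι → ℤ := x - D.ev b x • D.rt b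

theorem rf_sim (j : I) (x : ι → ℤ) : rf D (D.sim j) x = D.s j x := rfl

theorem key : ∀ (u : List I) (b : D.R),
    (∃ c, ∀ x, D.ev c x = D.ev b (D.sR u x)) ∨
    (∃ u1 j u2, u = u1 ++ j :: u2 ∧ ∀ x, rf D b (D.sR u x) = D.sR (u1 ++ u2) x) := by
  intro u
  induction u using List.reverseRecOn with
  | nil => intro b; exact Or.inl ⟨b, fun x => rfl⟩
  | append_singleton v j ih =>
    intro b
    by_cases hb : b = D.sim j
    · right
      refine ⟨v, j, [], rfl, fun x => ?_⟩
      rw [sR_append, List.append_nil]
      subst hb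
      exact s_s D j _
    · obtain ⟨c, -, hc, hrt⟩ := D.perm j b hb
      have hc' : ∀ x, D.ev c x = D.ev b (D.s j x) := hc
      have hrt' : D.rt c = D.s j (D.rt b) := hrt
      rcases ih c with ⟨c', hc1⟩ | ⟨u1, i, u2, hu, h⟩
      · left
        refine ⟨c', fun x => ?_⟩
        rw [hc1, hc', sR_append]
        rfl
      · right
        refine ⟨u1, i, u2 ++ [j], ?_, fun x => ?_⟩
        · rw [hu, List.append_assoc, List.cons_append]
        · have h1 := h x
          have h2 : rf D b (D.s j (D.sR v x)) = D.s j (rf D c (D.sR v x)) := by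
            unfold rf
            rw [s_sub, s_zsmul, hc', hrt', s_s]
          have h3 : D.sR (v ++ [j]) x = D.s j (D.sR v x) := by
            rw [sR_append]
            rfl
          have h4 : D.sR (u1 ++ (u2 ++ [j])) x = D.s j (D.sR (u1 ++ u2) x) := by
            rw [← List.append_assoc, sR_append]
            rfl
          rw [h3, h2, h1, h4]

theorem sR_T {rho : ι → ℤ} (hT : rho ∈ D.T) : ∀ w : List I, D.sR w rho ∈ D.T := by
  intro w
  induction w using List.reverseRecOn with
  | nil => exact hT
  | append_singleton v j ih =>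
    rw [sR_append]
    exact D.T_refl _ ih (D.sim j)

variable {D}

theorem len_rho {rho : ι → ℤ} (h : D.HD rho) : D.len rho = 0 := by
  unfold RDat.len
  have h1 : {b | D.ev b rho < 0} = (∅ : Set D.R) := by
    ext b
    simp only [Set.mem_ofPred_eq, Set.mem_empty_iff_false, iff_false, not_lt]
    have := h.pos b
    omega
  rw [h1, Set.ncard_empty]

theorem len_s_le (hl : RDat.S_len) {x : ι → ℤ} (hx : x ∈ D.T) (j : I) :
    D.len (D.s j x) ≤ D.len x + 1 := by
  obtain ⟨h1, h2, h3, -⟩ := hl ι I D x hx j
  rcases lt_trichotomy (D.co j x) 0 with h | h | h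
  · have := h1 h
    omega
  · rw [h3 h]
    omega
  · have := h2 h
    omega

theorem len_le (hl : RDat.S_len) {rho : ι → ℤ} (h : D.HD rho) :
    ∀ w : List I, D.len (D.sR w rho) ≤ w.length := by
  intro w
  induction w using List.reverseRecOn with
  | nil =>
    have := len_rho h
    exact le_of_eq this
  | append_singleton v j ih =>
    have h1 := len_s_le hl (sR_T D h.T v) j
    have h3 : D.sR (v ++ [j]) rho = D.s j (D.sR v rho) := by
      rw [sR_append]
      rfl
    rw [h3, List.length_append, List.length_singleton]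
    omega

theorem deletion (hl : RDat.S_len) {rho : ι → ℤ} (h : D.HD rho) : ∀ w : List I,
    D.len (D.sR w rho) = w.length ∨ ∃ w' : List I, (∀ j ∈ w', j ∈ w) ∧
      w'.length + 2 = w.length ∧ ∀ x, D.sR w' x = D.sR w x := by
  intro w
  induction w using List.reverseRecOn with
  | nil => exact Or.inl (len_rho h)
  | append_singleton v j ih =>
    have h3 : ∀ x, D.sR (v ++ [j]) x = D.s j (D.sR v x) := by
      intro x
      rw [sR_append]
      rfl
    rcases ih with ih | ⟨v', hv1, hv2, hv3⟩
    · rcases key D v (D.sim j) with ⟨c, hc⟩ | ⟨u1, i, u2, hu, hq⟩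
      · left
        have h1 : 0 < D.co j (D.sR v rho) := by
          have h2 := hc rho
          have h4 := h.pos c
          unfold RDat.co
          omega
        have h2 := (hl ι I D _ (sR_T D h.T v) j).2.1 h1
        rw [h3, h2, ih, List.length_append, List.length_singleton]
      · right
        refine ⟨u1 ++ u2, ?_, ?_, ?_⟩
        · intro k hk
          rw [hu]
          rw [List.mem_append] at hk
          rw [List.mem_append, List.mem_append, List.mem_cons]
          tauto
        · rw [hu]
          simp only [List.length_append, List.length_cons, List.length_nil]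
          omega
        · intro x
          rw [← hq x, rf_sim, h3]
    · right
      refine ⟨v' ++ [j], ?_, ?_, ?_⟩
      · intro k hk
        rw [List.mem_append] at hk ⊢
        rcases hk with hk | hk
        · exact Or.inl (hv1 k hk)
        · exact Or.inr hk
      · rw [List.length_append, List.length_append, List.length_singleton]
        omega
      · intro x
        rw [h3, sR_append, hv3]
        rfl

theorem reduce (hl : RDat.S_len) {rho : ι → ℤ} (h : D.HD rho) : ∀ (n : ℕ) (w : List I),
    w.length = n → ∃ w' : List I, (∀ j ∈ w', j ∈ w) ∧ w'.length % 2 = w.length % 2 ∧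
    (∀ x, D.sR w' x = D.sR w x) ∧ D.len (D.sR w rho) = w'.length := by
  intro n
  induction n using Nat.strong_induction_on with
  | _ n ih =>
    intro w hw
    rcases deletion hl h w with h1 | ⟨w', h1, h2, h3⟩
    · exact ⟨w, fun j hj => hj, rfl, fun x => rfl, h1⟩
    · obtain ⟨w2, k1, k2, k3, k4⟩ := ih w'.length (by omega) w' rfl
      refine ⟨w2, fun j hj => h1 j (k1 j hj), by omega, fun x => by rw [k3, h3], ?_⟩
      rw [← h3]
      exact k4

/-- the last letter of a reduced word -/
theorem last (hl : RDat.S_len) {rho : ι → ℤ} (h : D.HD rho) {u : List I} {j : I}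
    (hr : D.len (D.sR (u ++ [j]) rho) = (u ++ [j]).length) :
    D.len (D.sR u rho) = u.length ∧ ∃ c, ∀ x, D.ev c x = D.co j (D.sR u x) := by
  have h3 : ∀ x, D.sR (u ++ [j]) x = D.s j (D.sR u x) := by
    intro x
    rw [sR_append]
    rfl
  rw [List.length_append, List.length_singleton] at hr
  constructor
  · have h1 := len_le hl h u
    have h2 := len_s_le hl (sR_T D h.T u) j
    rw [← h3] at h2
    omega
  · rcases key D u (D.sim j) with ⟨c, hc⟩ | ⟨u1, i, u2, hu, hq⟩
    · exact ⟨c, hc⟩
    · exfalso
      have h1 := hq rho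
      rw [rf_sim, ← h3] at h1
      have h2 := len_le hl h (u1 ++ u2)
      rw [← h1, hr, hu] at h2
      simp only [List.length_append, List.length_cons] at h2
      omega

theorem fixed (hl : RDat.S_len) {rho : ι → ℤ} (h : D.HD rho) : ∀ (w : List I),
    D.len (D.sR w rho) = w.length → ∀ y, D.Dom y → D.Dom (D.sR w y) → D.sR w y = y := by
  intro w
  induction w using List.reverseRecOn with
  | nil => intro _ y _ _; rfl
  | append_singleton u j ih =>
    intro hr y hy hwy
    obtain ⟨hu, c, hc⟩ := last hl h hr
    have h3 : D.sR (u ++ [j]) y = D.s j (D.sR u y) := by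
      rw [sR_append]
      rfl
    have h4 : 0 ≤ D.co j (D.sR u y) := by
      rw [← hc]
      exact h.dom y hy c
    have h5 : D.co j (D.sR u y) = 0 := by
      have h6 := hwy j
      rw [h3, co_s] at h6
      omega
    have h7 : D.s j (D.sR u y) = D.sR u y := by
      unfold RDat.s
      rw [h5, zero_smul, sub_zero]
    rw [h3, h7] at hwy ⊢
    exact ih hu y hy hwy

theorem main : RDat.S_len → RDat.N_del := by
  intro hl ι I D rho h
  refine ⟨fun w => reduce hl h w.length w rfl, ?_, ?_⟩
  · intro w y hy hwy
    obtain ⟨w', -, -, h3, h4⟩ := reduce hl h w.length w rfl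
    rw [← h3] at hwy ⊢
    rw [← h3] at h4
    exact fixed hl h w' h4 y hy hwy
  · intro w y hy hwy
    obtain ⟨w', -, h2, h3, h4⟩ := reduce hl h w.length w rfl
    rw [← h3] at hwy h4
    rcases List.eq_nil_or_concat' w' with h5 | ⟨u, j, h5⟩
    · subst h5
      exact ⟨fun x => (h3 x).symm, by simpa using h2.symm⟩
    · exfalso
      subst h5
      obtain ⟨-, c, hc⟩ := last hl h h4
      have h6 := hwy j
      have h7 : D.sR (u ++ [j]) y = D.s j (D.sR u y) := by
        rw [sR_append]
        rfl
      rw [h7, co_s, ← hc] at h6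
      have h8 : D.Dom (y - rho) := by
        intro i
        have e1 := hy i
        have e2 := h.one i
        unfold RDat.co at e1 e2 ⊢
        rw [map_sub]
        omega
      have h9 := h.dom _ h8 c
      rw [map_sub] at h9
      have h10 := h.pos c
      omega

end H391.KR.P_ndel
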