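import Pool.Agent.H391.KR.PN

/-!
# N_dem (H391/KR): properties of Demazure characters
-/

noncomputable section

namespace H391.KR.P_ndem

open Finset H391.KR H391.KR.RDat

variable {ι I : Type}

theorem good_mono (D : RDat ι I) {M : ℕ} {x y : ι → ℤ} (h : D.Good M x) (hy : D.Le y x) :
    D.Good M y :=
  ⟨h.1, fun z hz j hj => h.2 z (Relation.ReflTransGen.trans hy hz) j hj⟩

theorem len_dom (D : RDat ι I) {rho : ι → ℤ} (hD : D.HD rho) {x : ι → ℤ} (hx : D.Dom x) :
    D.len x = 0 := by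
  have : {b | D.ev b x < 0} = ∅ := by
    ext b
    simp only [Set.mem_setOf_eq, Set.mem_empty_iff_false, iff_false, not_lt]
    exact hD.dom x hx b
  unfold RDat.len
  rw [this, Set.ncard_empty]

theorem dom_of_not (D : RDat ι I) {x : ι → ℤ} (h : ¬ ∃ j, D.co j x < 0) : D.Dom x := by
  intro j
  by_contra hj
  exact h ⟨j, not_le.mp hj⟩

theorem le_s (D : RDat ι I) (hbru : S_bru) {x : ι → ℤ} (hx : x ∈ D.T) {j : I}
    (hj : D.co j x < 0) : D.Le (D.s j x) x :=
  (hbru ι I D x x hx Relation.ReflTransGen.refl j).2.2 hj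

theorem indep (hlen : S_len) (hbru : S_bru) (h1 : S_main1) (h3 : S_main3) (D : RDat ι I)
    {rho : ι → ℤ} (hD : D.HD rho) : ∀ n x, x ∈ D.T → D.len x = n → ∀ m M M', D.Good M x →
    D.Good M' x → D.ch M (m * M) x = D.ch M' (m * M') x := by
  intro n
  induction n using Nat.strong_induction_on with
  | _ n ih =>
    intro x hx hn m M M' hM hM'
    by_cases hj : ∃ j, D.co j x < 0
    · obtain ⟨j, hj⟩ := hj
      have hl := (hlen ι I D x hx j).1 hj
      have hT := (hlen ι I D x hx j).2.2.2.1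
      have hle := le_s D hbru hx hj
      rw [← (h1 ι I D M m x j hx hM).1 hj, ← (h1 ι I D M' m x j hx hM').1 hj]
      rw [ih (D.len (D.s j x)) (by omega) (D.s j x) hT rfl m M M' (good_mono D hM hle)
        (good_mono D hM' hle)]
    · have h0 := len_dom D hD (dom_of_not D hj)
      rw [h3 ι I D M m x hx hM.1 h0, h3 ι I D M' m x hx hM'.1 h0]

theorem Dem_eq (hlen : S_len) (hbru : S_bru) (h1 : S_main1) (h3 : S_main3) (D : RDat ι I)
    {rho : ι → ℤ} (hD : D.HD rho) {x : ι → ℤ} (hx : x ∈ D.T) {M : ℕ} (hM : D.Good M x) (m : ℕ) :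
    D.Dem x m = D.ch M (m * M) x := by
  have h : ∃ M, D.Good M x := ⟨M, hM⟩
  unfold RDat.Dem
  rw [dif_pos h]
  exact indep hlen hbru h1 h3 D hD (D.len x) x hx rfl m _ M h.choose_spec hM

theorem ch_sum (hfin : S_fin) (D : RDat ι I) {x : ι → ℤ} (hx : x ∈ D.T) (M L : ℕ) :
    ∃ S : Finset (ℕ → ι → ℤ), (∀ τ, τ ∈ S ↔ τ ∈ D.Paths M L x) ∧
      D.ch M L x = ∑ τ ∈ S, ex (wt M L τ) := by
  have hf : (D.Paths M L x).Finite := (hfin ι I D x hx).2 M 0 L
  refine ⟨hf.toFinset, fun τ => by simp, ?_⟩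
  unfold RDat.ch chS
  exact finsum_mem_eq_finite_toFinset_sum _ hf

theorem tot_eq (L : ℕ) (τ : ℕ → ι → ℤ) : tot L τ = ∑ l ∈ range L, τ l := by
  funext i
  simp [tot, Finset.sum_apply]

theorem co_tot (D : RDat ι I) (L : ℕ) (τ : ℕ → ι → ℤ) (j : I) :
    D.co j (tot L τ) = D.H j τ L := by
  rw [tot_eq]
  unfold RDat.co RDat.H
  rw [map_sum]
  rfl

theorem co_add (D : RDat ι I) (j : I) (x y : ι → ℤ) : D.co j (x + y) = D.co j x + D.co j y := by
  unfold RDat.co
  rw [map_add]

theorem co_smul (D : RDat ι I) (j : I) (c : ℤ) (x : ι → ℤ) :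
    D.co j (c • x) = c * D.co j x := by
  unfold RDat.co
  rw [map_zsmul, smul_eq_mul]

theorem ex_mul (x y : ι → ℤ) : (ex x * ex y : GR ι) = ex (x + y) := by
  unfold ex
  rw [AddMonoidAlgebra.single_mul_single, one_mul]

theorem pair_ex (p : (ι → ℤ) → ℤ) (x : ι → ℤ) : pair p (ex x) = p x := by
  unfold pair ex
  simp

theorem coeff_ex (x y : ι → ℤ) (h : (ex x : GR ι).coeff y ≠ 0) : x = y := by
  classical
  by_contra hne
  apply h
  unfold ex
  rw [AddMonoidAlgebra.coeff_single, Finsupp.single_apply, if_neg hne]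

/-- terms of a finite sum of group ring elements -/
theorem coeff_sum_ne {α : Type} (S : Finset α) (f : α → GR ι) (mu : ι → ℤ)
    (h : (∑ a ∈ S, f a).coeff mu ≠ 0) : ∃ a ∈ S, (f a).coeff mu ≠ 0 := by
  rw [AddMonoidAlgebra.coeff_sum, Finsupp.finset_sum_apply] at h
  exact Finset.exists_ne_zero_of_sum_ne_zero h

theorem single_sum {α : Type} (S : Finset α) (w : α → ι → ℤ) (p : (ι → ℤ) → ℤ) :
    (∑ a ∈ S, Finsupp.single (w a) 1 : (ι → ℤ) →₀ ℕ).sum (fun nu a => (a : ℤ) * p nu) =
      ∑ a ∈ S, p (w a) := by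
  classical
  induction S using Finset.induction_on with
  | empty => simp
  | insert a S ha ih =>
    rw [Finset.sum_insert ha, Finset.sum_insert ha, Finsupp.sum_add_index', ih,
      Finsupp.sum_single_index]
    · simp
    · simp
    · intro nu; simp
    · intro nu b1 b2; push_cast; ring

theorem paths_zero (D : RDat ι I) (M : ℕ) (x : ι → ℤ) : D.Paths M 0 x = {0} := by
  ext τ
  unfold RDat.Paths RDat.Tails
  simp only [Set.mem_setOf_eq, Set.mem_singleton_iff]
  constructor
  · rintro ⟨-, -, h⟩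
    funext l
    exact h l (Or.inr (Nat.zero_le _))
  · rintro rfl
    exact ⟨fun h => absurd h (lt_irrefl _), fun l _ h => absurd h (Nat.not_lt_zero _),
      fun l _ => rfl⟩

theorem demB_supp (D : RDat ι I) (j : I) (z mu : ι → ℤ) (h : (D.demB j z).coeff mu ≠ 0) :
    ∃ k : ℤ, mu = z + k • D.al j := by
  unfold RDat.demB at h
  split_ifs at h with h0
  · obtain ⟨c, -, hc⟩ := coeff_sum_ne _ _ _ h
    have := coeff_ex _ _ hc
    refine ⟨-(c : ℤ), ?_⟩
    rw [← this]
    module
  · rw [AddMonoidAlgebra.coeff_neg, Finsupp.neg_apply, neg_ne_zero] at h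
    obtain ⟨c, -, hc⟩ := coeff_sum_ne _ _ _ h
    have := coeff_ex _ _ hc
    exact ⟨(c : ℤ) + 1, this.symm⟩

theorem dem_supp (D : RDat ι I) (j : I) (f : GR ι) (mu : ι → ℤ) (h : (D.dem j f).coeff mu ≠ 0) :
    ∃ (z : ι → ℤ) (k : ℤ), f.coeff z ≠ 0 ∧ mu = z + k • D.al j := by
  have hd : D.dem j f = ∑ z ∈ f.coeff.support, ((f.coeff z : ℤ) : GR ι) * D.demB j z := by
    unfold RDat.dem
    simp [Finsupp.liftAddHom_apply, Finsupp.sum]
  rw [hd] at h
  obtain ⟨z, hz, hc⟩ := coeff_sum_ne _ _ _ h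
  rw [← zsmul_eq_mul] at hc
  have h2 : ((f.coeff z) • D.demB j z).coeff = (f.coeff z) • (D.demB j z).coeff :=
    map_zsmul (AddMonoidAlgebra.coeffAddEquiv (R := ℤ) (M := ι → ℤ)) (f.coeff z) (D.demB j z)
  rw [h2, Finsupp.smul_apply] at hc
  have h3 : (D.demB j z).coeff mu ≠ 0 := fun h0 => hc (by rw [h0, smul_zero])
  obtain ⟨k, hk⟩ := demB_supp D j z mu h3
  exact ⟨z, k, Finsupp.mem_support_iff.mp hz, hk⟩

theorem main : RDat.S_len → RDat.S_cong → RDat.S_fin → RDat.S_good → RDat.S_bru → RDat.S_wt →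
    RDat.S_main1 → RDat.S_main3 → RDat.S_main4 → RDat.S_main5 → RDat.S_main6 → RDat.N_dem := by
  intro hlen hcong hfin hgood hbru hwt h1 h3 h4 h5 h6 ι I _ D rho hD
  have hEq : ∀ {x : ι → ℤ}, x ∈ D.T → ∀ {M : ℕ}, D.Good M x → ∀ m,
      D.Dem x m = D.ch M (m * M) x := fun hx M hM m =>
    Dem_eq hlen hbru h1 h3 D hD hx hM m
  have hd1 : ∀ x ∈ D.T, ∀ m j, D.co j x < 0 → D.dem j (D.Dem (D.s j x) m) = D.Dem x m := by
    intro x hx m j hj
    obtain ⟨M, hM⟩ := hgood ι I D x hx
    have hT := (hlen ι I D x hx j).2.2.2.1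
    rw [hEq hx hM, hEq hT (good_mono D hM (le_s D hbru hx hj))]
    exact (h1 ι I D M m x j hx hM).1 hj
  have hd3 : ∀ x ∈ D.T, ∀ m, D.Dom x → D.Dem x m = ex ((m : ℤ) • x) := by
    intro x hx m hdom
    obtain ⟨M, hM⟩ := hgood ι I D x hx
    rw [hEq hx hM]
    exact h3 ι I D M m x hx hM.1 (len_dom D hD hdom)
  refine ⟨hd1, ?_, hd3, ?_, ?_, ?_, ?_, ?_⟩
  · intro x hx m j hj
    obtain ⟨M, hM⟩ := hgood ι I D x hx
    rw [hEq hx hM]
    exact (h1 ι I D M m x j hx hM).2 hj
  · intro x hx m i hi hcov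
    obtain ⟨M, hM⟩ := hgood ι I D x hx
    have hT := (hlen ι I D x hx i).2.2.2.1
    have hi' : D.co i x < 0 := by rw [hi]; norm_num
    rw [hEq hx hM, hEq hx hM, hEq hT (good_mono D hM (le_s D hbru hx hi'))]
    exact h4 ι I D M m x i hx hM hi hcov
  · intro x hx
    obtain ⟨M, hM⟩ := hgood ι I D x hx
    rw [hEq hx hM, Nat.zero_mul]
    unfold RDat.ch chS
    rw [paths_zero, finsum_mem_singleton]
    have : wt M 0 (0 : ℕ → ι → ℤ) = 0 := by
      funext i
      simp [wt, tot]
    rw [this]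
    rfl
  · intro x hx m mu hmu
    obtain ⟨M, hM⟩ := hgood ι I D x hx
    rw [hEq hx hM] at hmu
    obtain ⟨S, hS, hch⟩ := ch_sum hfin D hx M (m * M)
    rw [hch] at hmu
    obtain ⟨τ, hτ, hc⟩ := coeff_sum_ne _ _ _ hmu
    have hw := coeff_ex _ _ hc
    have hτ' := (hS τ).mp hτ
    refine ⟨M, τ, hM.1, (h6 ι I D M (m * M) x hx).1 τ hτ', ?_⟩
    rw [← hw, ← hwt ι I D M (m * M) x hx hM.1 (Dvd.intro_left m rfl) τ hτ', tot_eq]
  · intro x hx m lam hlam
    obtain ⟨M, hM⟩ := hgood ι I D x hx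
    have hMpos : (0 : ℤ) < (M : ℤ) := by exact_mod_cast hM.1
    obtain ⟨S, hS, hch⟩ := ch_sum hfin D hx M (m * M)
    have hf : (D.Paths M (m * M) x).Finite := (hfin ι I D x hx).2 M 0 (m * M)
    have hf2 : ({τ | τ ∈ D.Paths M (m * M) x ∧ D.DomFrom M (m * M) lam τ} :
        Set (ℕ → ι → ℤ)).Finite := hf.subset (fun τ hτ => hτ.1)
    refine ⟨∑ τ ∈ hf2.toFinset, Finsupp.single (lam + wt M (m * M) τ) 1, ?_, ?_, ?_⟩
    · intro nu hnu
      rw [Finsupp.finset_sum_apply] at hnu
      obtain ⟨τ, hτ, hc⟩ := Finset.exists_ne_zero_of_sum_ne_zero hnu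
      have hnu' : nu = lam + wt M (m * M) τ := by
        classical
        by_contra hne
        apply hc
        rw [Finsupp.single_apply, if_neg (fun h => hne h.symm)]
      rw [Set.Finite.mem_toFinset] at hτ
      intro j
      have h := hτ.2 (m * M) le_rfl j
      rw [← co_tot, hwt ι I D M (m * M) x hx hM.1 (Dvd.intro_left m rfl) τ hτ.1, co_smul,
        ← mul_add, ← co_add, ← hnu'] at h
      exact nonneg_of_mul_nonneg_right h hMpos
    · intro p hp
      rw [hEq hx hM, hch, Finset.mul_sum, map_sum, single_sum]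
      have e1 : ∑ τ ∈ S, pair p (ex lam * ex (wt M (m * M) τ)) =
          ∑ τ ∈ S, p (lam + wt M (m * M) τ) :=
        Finset.sum_congr rfl fun τ _ => by rw [ex_mul, pair_ex]
      have hSf : S = hf.toFinset := by
        ext τ
        rw [hS, Set.Finite.mem_toFinset]
      rw [e1, hSf, ← finsum_mem_eq_finite_toFinset_sum _ hf,
        h5 ι I D M m x lam hx hM hlam p hp, finsum_mem_eq_finite_toFinset_sum _ hf2]
    · intro y hy hdom
      set τ0 : ℕ → ι → ℤ := fun l => if l < m * M then y else 0 with hτ0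
      have hmem : τ0 ∈ D.Paths M (m * M) x := (h6 ι I D M (m * M) x hx).2 y hy
      have hH : ∀ l, l ≤ m * M → ∀ j, D.H j τ0 l = (l : ℤ) * D.co j y := by
        intro l hl j
        unfold RDat.H
        rw [Finset.sum_congr rfl (g := fun _ => D.co j y)]
        · rw [Finset.sum_const, Finset.card_range, nsmul_eq_mul]
        · intro i hi
          rw [Finset.mem_range] at hi
          rw [hτ0]
          simp only
          rw [if_pos (lt_of_lt_of_le hi hl)]
      have hDF : D.DomFrom M (m * M) lam τ0 := by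
        intro l hl j
        rw [hH l hl j]
        have ha := hlam j
        have hb := hdom j
        rw [co_add, co_smul] at hb
        have hl' : (l : ℤ) ≤ (m : ℤ) * M := by exact_mod_cast hl
        have hl0 : (0 : ℤ) ≤ (l : ℤ) := Int.natCast_nonneg l
        rcases le_or_gt 0 (D.co j y) with h0 | h0
        · positivity
        · nlinarith [mul_nonneg (sub_nonneg.mpr hl') (neg_nonneg.mpr h0.le),
            mul_nonneg hMpos.le hb]
      have hw : wt M (m * M) τ0 = (m : ℤ) • y := by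
        have h := hwt ι I D M (m * M) x hx hM.1 (Dvd.intro_left m rfl) τ0 hmem
        have h2 : tot (m * M) τ0 = (M : ℤ) • ((m : ℤ) • y) := by
          rw [tot_eq, Finset.sum_congr rfl (g := fun _ => y)]
          · rw [Finset.sum_const, Finset.card_range, smul_smul, ← natCast_zsmul]
            congr 1
            push_cast
            ring
          · intro i hi
            rw [Finset.mem_range] at hi
            rw [hτ0]
            simp only
            rw [if_pos hi]
        rw [h2] at h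
        funext i
        have h7 := congrFun h i
        simp only [Pi.smul_apply, smul_eq_mul] at h7
        have h8 := mul_left_cancel₀ hMpos.ne' h7
        simp only [Pi.smul_apply, smul_eq_mul]
        exact h8.symm
      rw [Finsupp.finset_sum_apply]
      intro hz
      have hz' := (Finset.sum_eq_zero_iff.mp hz) τ0 (by
        rw [Set.Finite.mem_toFinset]
        exact ⟨hmem, hDF⟩)
      rw [hw, Finsupp.single_eq_same] at hz'
      exact one_ne_zero hz'
  · have key : ∀ n x, x ∈ D.T → D.len x = n → ∀ m mu, (D.Dem x m).coeff mu ≠ 0 →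
        mu - (m : ℤ) • x ∈ AddSubgroup.closure (Set.range D.al) := by
      intro n
      induction n using Nat.strong_induction_on with
      | _ n ih =>
        intro x hx hn m mu hmu
        by_cases hj : ∃ j, D.co j x < 0
        · obtain ⟨j, hj⟩ := hj
          have hl := (hlen ι I D x hx j).1 hj
          have hT := (hlen ι I D x hx j).2.2.2.1
          rw [← hd1 x hx m j hj] at hmu
          obtain ⟨z, k, hz, hk⟩ := dem_supp D j _ mu hmu
          have h := ih (D.len (D.s j x)) (by omega) (D.s j x) hT rfl m z hz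
          have hal : D.al j ∈ AddSubgroup.closure (Set.range D.al) :=
            AddSubgroup.subset_closure ⟨j, rfl⟩
          have he : mu - (m : ℤ) • x = (z - (m : ℤ) • D.s j x) +
              (k - (m : ℤ) * D.co j x) • D.al j := by
            rw [hk]
            unfold RDat.s
            module
          rw [he]
          exact AddSubgroup.add_mem _ h (AddSubgroup.zsmul_mem _ hal _)
        · rw [hd3 x hx m (dom_of_not D hj)] at hmu
          rw [← coeff_ex _ _ hmu, sub_self]
          exact AddSubgroup.zero_mem _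
    intro x hx m mu hmu
    exact key _ x hx rfl m mu hmu

end H391.KR.P_ndem
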