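import Pool.Agent.H391.KR.PN

/-!
# KR-ndesc: words and descents, Demazure's formula along a word (helper734 for helper391)
-/

noncomputable section

namespace H391.KR.P_ndesc

open Finset H391.KR H391.KR.RDat

variable {ι I : Type} (D : RDat ι I)

theorem co_add (j : I) (x y : ι → ℤ) : D.co j (x + y) = D.co j x + D.co j y :=
  map_add (D.ev (D.sim j)) x y

theorem co_neg (j : I) (x : ι → ℤ) : D.co j (-x) = - D.co j x := map_neg (D.ev (D.sim j)) x

theorem co_zsmul (j : I) (c : ℤ) (x : ι → ℤ) : D.co j (c • x) = c * D.co j x := by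
  have h := map_zsmul (D.ev (D.sim j)) c x
  rw [smul_eq_mul] at h
  exact h

theorem co_s (j : I) (x : ι → ℤ) : D.co j (D.s j x) = - D.co j x := by
  have h1 : D.co j (D.al j) = 2 := D.ev_rt (D.sim j)
  unfold RDat.s
  rw [sub_eq_add_neg, co_add, co_neg, co_zsmul, h1]
  ring

theorem s_s (j : I) (x : ι → ℤ) : D.s j (D.s j x) = x := by
  have h1 := co_s D j x
  have h2 : D.s j (D.s j x) = D.s j x - D.co j (D.s j x) • D.al j := rfl
  rw [h2, h1]
  unfold RDat.s
  rw [neg_smul, sub_neg_eq_add, sub_add_cancel]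

theorem s_add (j : I) (x y : ι → ℤ) : D.s j (x + y) = D.s j x + D.s j y := by
  unfold RDat.s
  rw [co_add, add_smul]
  abel

theorem s_zsmul (j : I) (c : ℤ) (x : ι → ℤ) : D.s j (c • x) = c • D.s j x := by
  unfold RDat.s
  rw [co_zsmul, smul_sub, mul_smul]

theorem s_neg (j : I) (x : ι → ℤ) : D.s j (-x) = - D.s j x := by
  unfold RDat.s
  rw [co_neg, neg_smul]
  abel

theorem s_mem (j : I) {x : ι → ℤ} (hx : x ∈ D.T) : D.s j x ∈ D.T := D.T_refl x hx (D.sim j)

/-- a positive coroot at the reflected weight -/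
theorem ev_s (j : I) (b : D.R) (hb : b ≠ D.sim j) : ∃ c, ∀ x, D.ev c x = D.ev b (D.s j x) := by
  obtain ⟨c, -, hc, -⟩ := D.perm j b hb
  exact ⟨c, hc⟩

theorem sR_append (w w' : List I) (x : ι → ℤ) : D.sR (w ++ w') x = D.sR w' (D.sR w x) := by
  induction w generalizing x with
  | nil => rfl
  | cons j w ih => exact ih (D.s j x)

theorem desc_append (w w' : List I) (x : ι → ℤ) :
    D.Desc (w ++ w') x ↔ D.Desc w x ∧ D.Desc w' (D.sR w x) := by
  induction w generalizing x with
  | nil => exact ⟨fun h => ⟨trivial, h⟩, fun h => h.2⟩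
  | cons j w ih =>
    change (D.co j x < 0 ∧ D.Desc (w ++ w') (D.s j x)) ↔
      (D.co j x < 0 ∧ D.Desc w (D.s j x)) ∧ D.Desc w' (D.sR w (D.s j x))
    rw [ih]
    tauto

theorem sR_rev (w : List I) (x : ι → ℤ) : D.sR w.reverse (D.sR w x) = x := by
  induction w generalizing x with
  | nil => rfl
  | cons j w ih =>
    rw [List.reverse_cons, sR_append]
    change D.s j (D.sR w.reverse (D.sR w (D.s j x))) = x
    rw [ih, s_s]

theorem sR_rev' (w : List I) (x : ι → ℤ) : D.sR w (D.sR w.reverse x) = x := by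
  have h := sR_rev D w.reverse x
  rwa [List.reverse_reverse] at h

theorem sR_add (w : List I) (x y : ι → ℤ) : D.sR w (x + y) = D.sR w x + D.sR w y := by
  induction w generalizing x y with
  | nil => rfl
  | cons j w ih =>
    change D.sR w (D.s j (x + y)) = D.sR w (D.s j x) + D.sR w (D.s j y)
    rw [s_add, ih]

theorem sR_zsmul (w : List I) (c : ℤ) (x : ι → ℤ) : D.sR w (c • x) = c • D.sR w x := by
  induction w generalizing x with
  | nil => rfl
  | cons j w ih =>
    change D.sR w (D.s j (c • x)) = c • D.sR w (D.s j x)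
    rw [s_zsmul, ih]

theorem sR_neg (w : List I) (x : ι → ℤ) : D.sR w (-x) = - D.sR w x := by
  induction w generalizing x with
  | nil => rfl
  | cons j w ih =>
    change D.sR w (D.s j (-x)) = - D.sR w (D.s j x)
    rw [s_neg, ih]

theorem sR_mem (w : List I) (x : ι → ℤ) (hx : x ∈ D.T) : D.sR w x ∈ D.T := by
  induction w generalizing x with
  | nil => exact hx
  | cons j w ih => exact ih (D.s j x) (s_mem D j hx)

theorem demL_append (w w' : List I) (f : GR ι) : D.demL (w ++ w') f = D.demL w (D.demL w' f) := by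
  induction w with
  | nil => rfl
  | cons j w ih =>
    change D.dem j (D.demL (w ++ w') f) = D.dem j (D.demL w (D.demL w' f))
    rw [ih]

theorem desc_zero (w : List I) (x y : ι → ℤ) (hw : D.Desc w x)
    (h : ∀ b, D.ev b x < 0 → D.ev b y ≤ 0) : D.Desc0 w y := by
  induction w generalizing x y with
  | nil => trivial
  | cons j w ih =>
    obtain ⟨h1, h2⟩ := hw
    refine ⟨h _ h1, ih _ _ h2 fun b hb => ?_⟩
    by_cases hbj : b = D.sim j
    · have h3 : D.ev (D.sim j) (D.s j x) = - D.co j x := co_s D j x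
      rw [hbj, h3] at hb
      omega
    · obtain ⟨c, hc⟩ := ev_s D j b hbj
      rw [← hc] at hb ⊢
      exact h c hb

theorem desc_strict (w : List I) (x y : ι → ℤ) (hw : D.Desc w x)
    (h : ∀ b, D.ev b x < 0 → D.ev b y < 0) : D.Desc w y := by
  induction w generalizing x y with
  | nil => trivial
  | cons j w ih =>
    obtain ⟨h1, h2⟩ := hw
    refine ⟨h _ h1, ih _ _ h2 fun b hb => ?_⟩
    by_cases hbj : b = D.sim j
    · have h3 : D.ev (D.sim j) (D.s j x) = - D.co j x := co_s D j x
      rw [hbj, h3] at hb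
      omega
    · obtain ⟨c, hc⟩ := ev_s D j b hbj
      rw [← hc] at hb ⊢
      exact h c hb

theorem desc_dom (w : List I) (x y : ι → ℤ) (hw : D.Desc w x)
    (h : ∀ b, D.ev b x < 0 → D.ev b y ≤ 0) (h' : ∀ b, D.ev b y < 0 → D.ev b x < 0)
    (hx : ∀ b, 0 ≤ D.ev b (D.sR w x)) (b : D.R) : 0 ≤ D.ev b (D.sR w y) := by
  induction w generalizing x y with
  | nil =>
    by_contra hcon
    exact absurd (h' b (not_le.1 hcon)) (not_lt.2 (hx b))
  | cons j w ih =>
    obtain ⟨h1, h2⟩ := hw
    refine ih (D.s j x) (D.s j y) h2 (fun b hb => ?_) (fun b hb => ?_) hx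
    · by_cases hbj : b = D.sim j
      · have h3 : D.ev (D.sim j) (D.s j x) = - D.co j x := co_s D j x
        rw [hbj, h3] at hb
        omega
      · obtain ⟨c, hc⟩ := ev_s D j b hbj
        rw [← hc] at hb ⊢
        exact h c hb
    · by_cases hbj : b = D.sim j
      · have h3 : D.ev (D.sim j) (D.s j y) = - D.co j y := co_s D j y
        have h4 : D.co j y ≤ 0 := h _ h1
        rw [hbj, h3] at hb
        omega
      · obtain ⟨c, hc⟩ := ev_s D j b hbj
        rw [← hc] at hb ⊢
        exact h' c hb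

theorem desc_rev (w : List I) (y : ι → ℤ) (hw : D.Desc w (-y)) :
    D.Desc w.reverse (D.sR w y) := by
  induction w generalizing y with
  | nil => trivial
  | cons j w ih =>
    obtain ⟨h1, h2⟩ := hw
    rw [s_neg] at h2
    rw [List.reverse_cons, desc_append]
    refine ⟨ih _ h2, ?_⟩
    change D.Desc [j] (D.sR w.reverse (D.sR w (D.s j y)))
    rw [sR_rev]
    refine ⟨?_, trivial⟩
    rw [co_neg] at h1
    rw [co_s]
    exact h1

theorem ndesc : RDat.N_desc := by
  intro ι I D
  exact ⟨desc_zero D, desc_strict D, desc_dom D, desc_rev D,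
    fun w x => ⟨sR_rev D w x, sR_rev' D w x⟩, sR_add D, sR_zsmul D, sR_neg D, sR_append D,
    demL_append D, sR_mem D⟩

theorem ndemw : RDat.N_demw := by
  intro ι I D hD w
  induction w with
  | nil => intro y m _ _; rfl
  | cons j w ih =>
    intro y m hy hw
    obtain ⟨h1, h2⟩ := hw
    have h3 := ih (D.s j y) m (s_mem D j hy) h2
    change D.Dem y m = D.dem j (D.demL w (D.Dem (D.sR w (D.s j y)) m))
    rw [← h3]
    rcases lt_or_eq_of_le h1 with h4 | h4
    · exact (hD.d1 y hy m j h4).symm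
    · have h5 : D.s j y = y := by
        unfold RDat.s
        rw [h4, zero_smul, sub_zero]
      rw [h5]
      exact (hD.d2 y hy m j h1).symm

theorem main : RDat.N_desc ∧ RDat.N_demw := ⟨ndesc, ndemw⟩

end H391.KR.P_ndesc
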