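import Pool.Agent.H391.KR.PN

/-! KR-nlink: signed linkage and the antisymmetric functions of dominant weights -/

set_option autoImplicit false

namespace H391.KR.P_nlink

open RDat

variable {ι I : Type} (D : RDat ι I)

theorem co_add (j : I) (x y : ι → ℤ) : D.co j (x + y) = D.co j x + D.co j y :=
  map_add (D.ev (D.sim j)) x y

theorem co_sub (j : I) (x y : ι → ℤ) : D.co j (x - y) = D.co j x - D.co j y :=
  map_sub (D.ev (D.sim j)) x y

theorem co_smul (j : I) (c : ℤ) (x : ι → ℤ) : D.co j (c • x) = c * D.co j x := by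
  have h := map_zsmul (D.ev (D.sim j)) c x
  rw [smul_eq_mul] at h
  exact h

theorem co_al (j : I) : D.co j (D.al j) = 2 := D.ev_rt _

theorem co_dot (j : I) (y : ι → ℤ) :
    D.co j (y - (D.co j y + 1) • D.al j) = - D.co j y - 2 := by
  rw [co_sub, co_smul, co_al]
  ring

theorem dot_dot (j : I) (y : ι → ℤ) : (y - (D.co j y + 1) • D.al j) -
    (D.co j (y - (D.co j y + 1) • D.al j) + 1) • D.al j = y := by
  rw [co_dot]
  have h : - D.co j y - 2 + 1 = - (D.co j y + 1) := by ring
  rw [h, neg_smul]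
  abel

theorem s_s (j : I) (x : ι → ℤ) : D.s j (D.s j x) = x := by
  unfold RDat.s
  rw [co_sub, co_smul, co_al]
  have h : D.co j x - D.co j x * 2 = - D.co j x := by ring
  rw [h, neg_smul]
  abel

theorem sR_append (w w' : List I) (x : ι → ℤ) : D.sR (w ++ w') x = D.sR w' (D.sR w x) := by
  induction w generalizing x with
  | nil => rfl
  | cons j w ih => exact ih _

theorem sR_reverse (w : List I) (x : ι → ℤ) : D.sR w.reverse (D.sR w x) = x := by
  induction w generalizing x with
  | nil => rfl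
  | cons j w ih =>
    rw [List.reverse_cons, sR_append]
    change D.s j (D.sR w.reverse (D.sR w (D.s j x))) = x
    rw [ih, s_s]

/-- the dot action and the usual action -/
theorem s_rho {rho : ι → ℤ} (h : D.HD rho) (j : I) (mu : ι → ℤ) :
    D.s j (mu + rho) = mu - (D.co j mu + 1) • D.al j + rho := by
  unfold RDat.s
  rw [co_add, h.one j]
  abel

theorem word {rho : ι → ℤ} (h : D.HD rho) {e : ℤ} {mu nu : ι → ℤ} (hl : D.Link e mu nu) :
    ∃ w : List I, D.sR w (nu + rho) = mu + rho ∧ e = (-1) ^ w.length := by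
  induction hl with
  | refl nu => exact ⟨[], rfl, by simp⟩
  | step e mu nu j _ ih =>
    obtain ⟨w, h1, h2⟩ := ih
    refine ⟨w ++ [j], ?_, ?_⟩
    · rw [sR_append, h1, ← s_rho D h]
      rfl
    · rw [h2, List.length_append, List.length_singleton, pow_succ]
      ring

theorem anti {e : ℤ} {mu nu : ι → ℤ} (hl : D.Link e mu nu) :
    (e = 1 ∨ e = -1) ∧ ∀ p, D.Anti p → p mu = e * p nu := by
  induction hl with
  | refl nu => exact ⟨Or.inl rfl, fun p _ => by rw [one_mul]⟩
  | step e mu nu j _ ih =>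
    obtain ⟨h1, h2⟩ := ih
    refine ⟨?_, fun p hp => ?_⟩
    · rcases h1 with rfl | rfl
      · exact Or.inr rfl
      · exact Or.inl (by norm_num)
    · rw [hp, h2 p hp]
      ring

theorem uniq (hdel : N_del) {rho : ι → ℤ} (h : D.HD rho) {e e' : ℤ} {mu lam lam' : ι → ℤ}
    (h1 : D.Link e mu lam) (h2 : D.Link e' mu lam') (d1 : D.Dom lam) (d2 : D.Dom lam') :
    lam = lam' ∧ e = e' := by
  obtain ⟨w, w1, w2⟩ := word D h h1
  obtain ⟨w', w1', w2'⟩ := word D h h2
  obtain ⟨-, k2, k3⟩ := hdel ι I D rho h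
  have hs : D.sR (w ++ w'.reverse) (lam + rho) = lam' + rho := by
    rw [sR_append, w1, ← w1', sR_reverse]
  have p1 : ∀ j, 0 < D.co j (lam + rho) := by
    intro j
    rw [co_add, h.one j]
    have := d1 j
    omega
  have p2 : D.Dom (lam' + rho) := by
    intro j
    rw [co_add, h.one j]
    have := d2 j
    omega
  have q1 := k2 (w ++ w'.reverse) (lam + rho) (fun j => (p1 j).le) (by rw [hs]; exact p2)
  have q2 := (k3 (w ++ w'.reverse) (lam + rho) p1 (by rw [hs]; exact p2)).2
  rw [hs] at q1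
  refine ⟨(add_right_cancel q1).symm, ?_⟩
  rw [List.length_append, List.length_reverse] at q2
  rw [w2, w2']
  have q3 : Even (w.length + w'.length) := Nat.even_iff.2 q2
  rcases Nat.even_or_odd w.length with ha | ha
  · have hb : Even w'.length := by
      rcases Nat.even_or_odd w'.length with hb | hb
      · exact hb
      · exact absurd q3 (Nat.not_even_iff_odd.2 (ha.add_odd hb))
    rw [ha.neg_one_pow, hb.neg_one_pow]
  · have hb : Odd w'.length := by
      rcases Nat.even_or_odd w'.length with hb | hb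
      · exact absurd q3 (Nat.not_even_iff_odd.2 (ha.add_even hb))
      · exact hb
    rw [ha.neg_one_pow, hb.neg_one_pow]

theorem dot_link {e : ℤ} {y lam : ι → ℤ} (j : I) :
    D.Link (-e) (y - (D.co j y + 1) • D.al j) lam ↔ D.Link e y lam := by
  constructor
  · intro h
    have h1 := Link.step _ _ _ j h
    rwa [dot_dot, neg_neg] at h1
  · intro h
    exact Link.step _ _ _ j h

theorem pf_anti (hdel : N_del) {rho : ι → ℤ} (h : D.HD rho) {lam : ι → ℤ} (hd : D.Dom lam) :
    D.Anti (D.pf lam) := by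
  intro y j
  have a1 : D.Link (-1) (y - (D.co j y + 1) • D.al j) lam ↔ D.Link 1 y lam := dot_link D j
  have a2 : D.Link 1 (y - (D.co j y + 1) • D.al j) lam ↔ D.Link (-1) y lam := by
    have := dot_link D (e := -1) (y := y) (lam := lam) j
    rwa [neg_neg] at this
  unfold RDat.pf
  rw [a1, a2]
  by_cases b1 : D.Link 1 y lam
  · have b2 : ¬ D.Link (-1) y lam := by
      intro b2
      have := (uniq D hdel h b1 b2 hd hd).2
      norm_num at this
    simp [b1, b2]
  · by_cases b2 : D.Link (-1) y lam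
    · simp [b1, b2]
    · simp [b1, b2]

theorem pf_zero (hdel : N_del) {rho : ι → ℤ} (h : D.HD rho) {lam mu : ι → ℤ} (hd : D.Dom lam)
    (hm : D.Dom mu) (hne : mu ≠ lam) : D.pf lam mu = 0 := by
  have a : ∀ e, ¬ D.Link e mu lam := by
    intro e he
    exact hne (uniq D hdel h he (Link.refl mu) hd hm).1.symm
  unfold RDat.pf
  rw [if_neg (a 1), if_neg (a (-1))]

theorem main : RDat.N_del → RDat.N_link := by
  intro hdel ι I D rho h
  refine ⟨fun lam hd => ⟨pf_anti D hdel h hd, ?_, fun mu hm hne => pf_zero D hdel h hd hm hne⟩,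
    fun e mu nu hl => anti D hl, fun e e' mu lam lam' h1 h2 d1 d2 => uniq D hdel h h1 h2 d1 d2,
    fun e mu nu hl => ?_⟩
  · unfold RDat.pf
    rw [if_pos (Link.refl lam)]
  · obtain ⟨w, hw, -⟩ := word D h hl
    exact ⟨w, hw⟩

end H391.KR.P_nlink
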