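import Pool.Agent.H391.KR.PN

/-!
# Algebra of Demazure operators (N_op)
-/

noncomputable section

namespace H391.KR.P_nop

open Finset H391.KR

theorem hom_ext {ι : Type} {N : Type*} [AddCommGroup N] (f g : GR ι →+ N)
    (h : ∀ x, f (ex x) = g (ex x)) : f = g := by
  refine AddMonoidAlgebra.addMonoidHom_ext ?_
  intro x r
  have e : (AddMonoidAlgebra.single x r : GR ι) = r • (ex x : GR ι) := by
    unfold ex
    rw [AddMonoidAlgebra.smul_single]
    simp
  rw [e, map_zsmul, map_zsmul, h]

theorem pair_eq {ι : Type} (p : (ι → ℤ) → ℤ) (f : GR ι) :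
    pair p f = f.coeff.sum (fun x r => r * p x) := rfl

theorem pair_ex {ι : Type} (p : (ι → ℤ) → ℤ) (x : ι → ℤ) : pair p (ex x) = p x := by
  rw [pair_eq]
  unfold ex
  rw [AddMonoidAlgebra.coeff_single, Finsupp.sum_single_index (by simp)]
  simp

theorem ex_mul {ι : Type} (x y : ι → ℤ) : (ex x : GR ι) * ex y = ex (x + y) := by
  unfold ex
  rw [AddMonoidAlgebra.single_mul_single, one_mul]

theorem ex_zero {ι : Type} : (ex (0 : ι → ℤ) : GR ι) = 1 := rfl

variable {ι I : Type} (D : RDat ι I) (j : I)

theorem dem_eq (f : GR ι) : D.dem j f = f.coeff.sum (fun x r => (r : GR ι) * D.demB j x) := rfl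

theorem dem_ex (x : ι → ℤ) : D.dem j (ex x) = D.demB j x := by
  rw [dem_eq]
  unfold ex
  rw [AddMonoidAlgebra.coeff_single, Finsupp.sum_single_index (by simp)]
  simp

/-! ### the reflection as a ring homomorphism -/

theorem co_al : D.co j (D.al j) = 2 := D.ev_rt _

theorem co_add (x y : ι → ℤ) : D.co j (x + y) = D.co j x + D.co j y := map_add _ _ _

theorem co_sub (x y : ι → ℤ) : D.co j (x - y) = D.co j x - D.co j y := map_sub _ _ _

theorem co_neg (x : ι → ℤ) : D.co j (-x) = - D.co j x := map_neg _ _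

theorem co_zero : D.co j 0 = 0 := map_zero _

theorem co_smul (c : ℤ) (x : ι → ℤ) : D.co j (c • x) = c * D.co j x := by
  unfold RDat.co
  rw [map_zsmul, smul_eq_mul]

theorem co_s (x : ι → ℤ) : D.co j (D.s j x) = - D.co j x := by
  unfold RDat.s
  rw [co_sub, co_smul, co_al]
  ring

theorem s_s (x : ι → ℤ) : D.s j (D.s j x) = x := by
  have h : D.s j (D.s j x) = D.s j x - D.co j (D.s j x) • D.al j := rfl
  rw [h, co_s]
  unfold RDat.s
  rw [neg_smul]
  abel

/-- simple reflection as an additive homomorphism -/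
def sH : (ι → ℤ) →+ (ι → ℤ) where
  toFun := D.s j
  map_zero' := by
    unfold RDat.s
    rw [co_zero]
    simp
  map_add' x y := by
    unfold RDat.s
    rw [co_add, add_smul]
    abel

theorem s_neg (x : ι → ℤ) : D.s j (-x) = - D.s j x := map_neg (sH D j) x

/-- simple reflection on the group ring -/
def S : GR ι →+* GR ι := push (sH D j)

theorem S_ex (x : ι → ℤ) : S D j (ex x) = ex (D.s j x) := by
  unfold S push ex
  exact AddMonoidAlgebra.mapDomain_single

theorem S_S (f : GR ι) : S D j (S D j f) = f := by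
  have h : ((S D j).toAddMonoidHom.comp (S D j).toAddMonoidHom) = AddMonoidHom.id (GR ι) := by
    apply hom_ext
    intro x
    show S D j (S D j (ex x)) = ex x
    rw [S_ex, S_ex, s_s]
  exact DFunLike.congr_fun h f

theorem S_coeff (f : GR ι) (x : ι → ℤ) : (S D j f).coeff (D.s j x) = f.coeff x := by
  have hinj : Function.Injective (D.s j) := fun a b h => by
    have := congrArg (D.s j) h
    rwa [s_s, s_s] at this
  have h : (S D j f).coeff = Finsupp.mapDomain (D.s j) f.coeff := rfl
  rw [h]
  exact Finsupp.mapDomain_apply hinj _ _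

theorem inv_iff (f : GR ι) : D.IsInv j f ↔ S D j f = f := by
  constructor
  · intro h
    apply AddMonoidAlgebra.coeff_injective
    ext y
    have h1 := S_coeff D j f (D.s j y)
    rw [s_s] at h1
    rw [h1]
    exact h y
  · intro h x
    have h1 := S_coeff D j f x
    rwa [h] at h1

/-! ### the defining identity -/

/-- the denominator -/
def E : GR ι := 1 - ex (-(D.al j))

theorem E_ex (x : ι → ℤ) : E D j * ex x = ex x - ex (x - D.al j) := by
  unfold E
  rw [sub_mul, one_mul, ex_mul, neg_add_eq_sub]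

theorem E_demB (x : ι → ℤ) :
    E D j * D.demB j x = ex x - ex (-(D.al j)) * S D j (ex x) := by
  rw [S_ex, ex_mul]
  unfold RDat.demB
  split_ifs with h
  · rw [Finset.mul_sum]
    have h1 : ∀ c ∈ range ((D.co j x).toNat + 1), E D j * ex (x - (c : ℤ) • D.al j) =
        ex (x - (c : ℤ) • D.al j) - ex (x - ((c + 1 : ℕ) : ℤ) • D.al j) := by
      intro c _
      rw [E_ex]
      congr 2
      push_cast
      rw [add_smul, one_smul]
      abel
    rw [Finset.sum_congr rfl h1,
      Finset.sum_range_sub' (fun c : ℕ => (ex (x - (c : ℤ) • D.al j) : GR ι))]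
    have h2 : x - ((0 : ℕ) : ℤ) • D.al j = x := by simp
    have h3 : x - (((D.co j x).toNat + 1 : ℕ) : ℤ) • D.al j = -(D.al j) + D.s j x := by
      unfold RDat.s
      push_cast
      rw [Int.toNat_of_nonneg h, add_smul, one_smul]
      abel
    rw [h2, h3]
  · rw [mul_neg, Finset.mul_sum]
    have h1 : ∀ c ∈ range ((- D.co j x).toNat - 1), E D j * ex (x + ((c : ℤ) + 1) • D.al j) =
        ex (x + ((c + 1 : ℕ) : ℤ) • D.al j) - ex (x + ((c : ℕ) : ℤ) • D.al j) := by
      intro c _
      rw [E_ex]
      have e1 : x + ((c + 1 : ℕ) : ℤ) • D.al j = x + ((c : ℤ) + 1) • D.al j := by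
        push_cast
        rfl
      have e2 : x + ((c : ℕ) : ℤ) • D.al j = x + ((c : ℤ) + 1) • D.al j - D.al j := by
        rw [add_smul, one_smul]
        abel
      rw [e1, e2]
    rw [Finset.sum_congr rfl h1,
      Finset.sum_range_sub (fun c : ℕ => (ex (x + (c : ℤ) • D.al j) : GR ι))]
    have h2 : x + ((0 : ℕ) : ℤ) • D.al j = x := by simp
    have h3 : x + (((- D.co j x).toNat - 1 : ℕ) : ℤ) • D.al j = -(D.al j) + D.s j x := by
      unfold RDat.s
      have h4 : (((- D.co j x).toNat - 1 : ℕ) : ℤ) = - D.co j x - 1 := by omega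
      rw [h4, sub_smul, neg_smul, one_smul]
      abel
    rw [h2, h3]
    ring

theorem E_dem (f : GR ι) : E D j * D.dem j f = f - ex (-(D.al j)) * S D j f := by
  have h : (AddMonoidHom.mulLeft (E D j)).comp (D.dem j) =
      AddMonoidHom.id (GR ι) -
        (AddMonoidHom.mulLeft (ex (-(D.al j)))).comp (S D j).toAddMonoidHom := by
    apply hom_ext
    intro x
    show E D j * D.dem j (ex x) = ex x - ex (-(D.al j)) * S D j (ex x)
    rw [dem_ex, E_demB]
  exact DFunLike.congr_fun h f

theorem E_zero (f : GR ι) (h : E D j * f = 0) : f = 0 := by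
  have h1 : f = ex (-(D.al j)) * f := by
    unfold E at h
    rw [sub_mul, one_mul] at h
    exact sub_eq_zero.mp h
  have h2 : ∀ y, f.coeff y = f.coeff (D.al j + y) := by
    intro y
    have h3 : (ex (-(D.al j)) * f).coeff y = 1 * f.coeff (- -(D.al j) + y) :=
      AddMonoidAlgebra.coeff_single_mul_apply f 1 (-(D.al j)) y
    rw [← h1, one_mul, neg_neg] at h3
    exact h3
  have h3 : ∀ (n : ℕ) y, f.coeff y = f.coeff ((n : ℤ) • D.al j + y) := by
    intro n
    induction n with
    | zero =>
      intro y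
      simp
    | succ n ih =>
      intro y
      rw [ih y, h2]
      congr 1
      push_cast
      rw [add_smul, one_smul]
      abel
  by_contra hne
  have h4 : ∃ y, f.coeff y ≠ 0 := by
    by_contra hcon
    push Not at hcon
    apply hne
    apply AddMonoidAlgebra.coeff_injective
    ext y
    exact hcon y
  obtain ⟨y, hy⟩ := h4
  have hinj : Function.Injective (fun n : ℕ => (n : ℤ) • D.al j + y) := by
    intro a b hab
    have := congrArg (D.co j) hab
    simp only [co_add, co_smul, co_al] at this
    omega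
  have hinf := Set.infinite_range_of_injective hinj
  apply hinf
  refine Set.Finite.subset f.coeff.support.finite_toSet ?_
  rintro _ ⟨n, rfl⟩
  rw [Finset.mem_coe, Finsupp.mem_support_iff, ← h3 n y]
  exact hy

theorem E_cancel (f g : GR ι) (h : E D j * f = E D j * g) : f = g := by
  have : E D j * (f - g) = 0 := by rw [mul_sub, h, sub_self]
  exact sub_eq_zero.mp (E_zero D j _ this)

theorem leib (f g : GR ι) (hf : D.IsInv j f) : D.dem j (f * g) = f * D.dem j g := by
  have hf' := (inv_iff D j f).mp hf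
  apply E_cancel D j
  have h1 : E D j * (f * D.dem j g) = f * (E D j * D.dem j g) := by ring
  rw [h1, E_dem, E_dem, map_mul, hf']
  ring

theorem dem_inv (f : GR ι) : D.IsInv j (D.dem j f) := by
  rw [inv_iff]
  apply E_cancel D j
  rw [E_dem]
  have h1 := congrArg (S D j) (E_dem D j f)
  rw [map_mul, map_sub, map_mul, S_S, S_ex] at h1
  have h2 : S D j (E D j) = 1 - ex (D.al j) := by
    unfold E
    rw [map_sub, map_one, S_ex, s_neg]
    have : D.s j (D.al j) = -(D.al j) := by
      unfold RDat.s
      rw [co_al, two_smul]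
      abel
    rw [this, neg_neg]
  have h3 : D.s j (-(D.al j)) = D.al j := by
    rw [s_neg]
    have : D.s j (D.al j) = -(D.al j) := by
      unfold RDat.s
      rw [co_al, two_smul]
      abel
    rw [this, neg_neg]
  rw [h2, h3] at h1
  have h4 : (ex (-(D.al j)) : GR ι) * ex (D.al j) = 1 := by
    rw [ex_mul, neg_add_cancel, ex_zero]
  have h5 := congrArg (fun t => ex (-(D.al j)) * t) h1
  beta_reduce at h5
  have h6 : (ex (-(D.al j)) : GR ι) * ((1 - ex (D.al j)) * S D j (D.dem j f)) =
      - (E D j * S D j (D.dem j f)) := by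
    unfold E
    linear_combination (- S D j (D.dem j f)) * h4
  have h7 : (ex (-(D.al j)) : GR ι) * (S D j f - ex (D.al j) * f) =
      ex (-(D.al j)) * S D j f - f := by
    linear_combination (- f) * h4
  rw [h6, h7] at h5
  linear_combination -h5

theorem inv_dem (f : GR ι) (hf : D.IsInv j f) : D.dem j f = f := by
  have hf' := (inv_iff D j f).mp hf
  apply E_cancel D j
  rw [E_dem, hf']
  unfold E
  ring

theorem inv_one : D.IsInv j 1 := by
  rw [inv_iff, map_one]

/-! ### antisymmetric functionals -/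

theorem pair_demB (p : (ι → ℤ) → ℤ) (hp : D.Anti p) (x : ι → ℤ) :
    pair p (D.demB j x) = p x := by
  unfold RDat.demB
  split_ifs with h
  · obtain ⟨n, hn⟩ := Int.eq_ofNat_of_zero_le h
    have hn' : (D.co j x).toNat = n := by omega
    rw [hn', map_sum]
    simp only [pair_ex]
    rw [Finset.sum_range_succ']
    have h1 : ∀ c ∈ range n, p (x - ((n - 1 - c + 1 : ℕ) : ℤ) • D.al j) =
        - p (x - ((c + 1 : ℕ) : ℤ) • D.al j) := by
      intro c hc
      rw [Finset.mem_range] at hc
      rw [← hp (x - ((c + 1 : ℕ) : ℤ) • D.al j) j]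
      congr 1
      rw [co_sub, co_smul, co_al, hn]
      have h2 : ((n - 1 - c + 1 : ℕ) : ℤ) = (n : ℤ) - c := by omega
      rw [h2, sub_sub, ← add_smul]
      congr 2
      push_cast
      ring
    have h2 : ∑ c ∈ range n, p (x - ((c + 1 : ℕ) : ℤ) • D.al j) = 0 := by
      have h3 := Finset.sum_range_reflect (fun c : ℕ => p (x - ((c + 1 : ℕ) : ℤ) • D.al j)) n
      rw [Finset.sum_congr rfl h1, Finset.sum_neg_distrib] at h3
      omega
    rw [h2]
    simp
  · obtain ⟨n, hn⟩ := Int.eq_ofNat_of_zero_le (a := - D.co j x) (by omega)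
    have hn' : (- D.co j x).toNat = n := by omega
    have hn1 : 1 ≤ n := by omega
    rw [hn', map_neg, map_sum]
    simp only [pair_ex]
    have h1 : ∀ c ∈ range n, p (x + ((n - 1 - c : ℕ) : ℤ) • D.al j) =
        - p (x + (c : ℤ) • D.al j) := by
      intro c hc
      rw [Finset.mem_range] at hc
      rw [← hp (x + (c : ℤ) • D.al j) j]
      congr 1
      have h4 : D.co j x = - (n : ℤ) := by omega
      rw [co_add, co_smul, co_al, h4]
      have h2 : ((n - 1 - c : ℕ) : ℤ) = (n : ℤ) - 1 - c := by omega
      rw [h2, add_sub_assoc, ← sub_smul]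
      congr 2
      ring
    have h2 : ∑ c ∈ range n, p (x + (c : ℤ) • D.al j) = 0 := by
      have h3 := Finset.sum_range_reflect (fun c : ℕ => p (x + (c : ℤ) • D.al j)) n
      rw [Finset.sum_congr rfl h1, Finset.sum_neg_distrib] at h3
      omega
    have h5 : n = (n - 1) + 1 := by omega
    rw [h5, Finset.sum_range_succ'] at h2
    simp only [Nat.cast_zero, zero_smul, add_zero, Nat.cast_add, Nat.cast_one] at h2
    omega

theorem pair_dem (p : (ι → ℤ) → ℤ) (hp : D.Anti p) (f : GR ι) :
    pair p (D.dem j f) = pair p f := by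
  have h : (pair p).comp (D.dem j) = pair p := by
    apply hom_ext
    intro x
    show pair p (D.dem j (ex x)) = pair p (ex x)
    rw [dem_ex, pair_demB D j p hp, pair_ex]
  exact DFunLike.congr_fun h f

theorem main : RDat.N_op := by
  intro ι I D j
  refine ⟨leib D j, dem_inv D j, inv_dem D j, ?_, ?_, ?_, dem_ex D j, ?_, ?_, inv_one D j⟩
  · intro p hp f
    exact pair_dem D j p hp f
  · intro p hp f g
    have h1 : pair p (D.dem j f * g) = pair p (D.dem j f * D.dem j g) := by
      rw [← pair_dem D j p hp (D.dem j f * g), leib D j _ _ (dem_inv D j f)]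
    have h2 : pair p (f * D.dem j g) = pair p (D.dem j f * D.dem j g) := by
      rw [mul_comm f, ← pair_dem D j p hp (D.dem j g * f), leib D j _ _ (dem_inv D j g),
        mul_comm]
    rw [h1, h2]
  · intro p hp f x hf hx
    rw [← pair_dem D j p hp (ex x * f), mul_comm, leib D j _ _ hf, dem_ex]
    have h1 : D.demB j x = 0 := by
      unfold RDat.demB
      rw [hx]
      simp
    rw [h1, mul_zero, map_zero]
  · intro f g hf hg
    refine ⟨?_, ?_, ?_⟩
    · intro x
      rw [AddMonoidAlgebra.coeff_add, Finsupp.add_apply, Finsupp.add_apply, hf x, hg x]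
    · intro x
      rw [AddMonoidAlgebra.coeff_sub, Finsupp.sub_apply, Finsupp.sub_apply, hf x, hg x]
    · rw [inv_iff] at hf hg ⊢
      rw [map_mul, hf, hg]
  · intro x hx
    rw [inv_iff, S_ex]
    unfold RDat.s
    rw [hx, zero_smul, sub_zero]

end H391.KR.P_nop
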