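import Pool.Agent.H391.KR.PN

/-! KR-nred: reduction to weights that are dominant for the letters in a set -/

set_option autoImplicit false

namespace H391.KR.P_nred

open RDat

theorem first (h : S_len) {ι I : Type} (D : RDat ι I) (J : Set I) : ∀ (n : ℕ) (x : ι → ℤ),
    x ∈ D.T → D.len x ≤ n →
    ∃ w : List I, (∀ j ∈ w, j ∈ J) ∧ D.Desc w x ∧ ∀ j ∈ J, 0 ≤ D.co j (D.sR w x) := by
  intro n
  induction n with
  | zero =>
    intro x hx hn
    refine ⟨[], fun j hj => absurd hj (by simp), trivial, fun j hj => ?_⟩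
    by_contra hc
    have h1 := (h ι I D x hx j).1 (not_le.1 hc)
    omega
  | succ n ih =>
    intro x hx hn
    by_cases hc : ∀ j ∈ J, 0 ≤ D.co j x
    · exact ⟨[], fun j hj => absurd hj (by simp), trivial, hc⟩
    · push Not at hc
      obtain ⟨j, hj, hlt⟩ := hc
      have h1 := h ι I D x hx j
      have h2 := h1.1 hlt
      obtain ⟨w, hw, hd, hp⟩ := ih (D.s j x) h1.2.2.2.1 (by omega)
      refine ⟨j :: w, fun i hi => ?_, ⟨hlt, hd⟩, hp⟩
      rcases List.mem_cons.1 hi with rfl | hi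
      · exact hj
      · exact hw i hi

theorem main : RDat.S_len → RDat.N_red := by
  intro h ι I D J x hx
  refine ⟨first h D J (D.len x) x hx le_rfl, fun i hi hlt => ?_⟩
  have h1 := (h ι I D x hx i).2.2.2.1
  obtain ⟨w, hw, hd, hp⟩ := first h D J _ (D.s i x) h1 le_rfl
  exact ⟨w, hw, ⟨hlt, hd⟩, hp⟩

end H391.KR.P_nred
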