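import Pool.Agent.H391.KR.PN

/-!
# KR-ntw: diagram automorphisms
-/

set_option autoImplicit false

noncomputable section

namespace H391.KR.P_ntw

open Finset

variable {ι I : Type} (D : RDat ι I)

theorem single_eq (x : ι → ℤ) (a : ℤ) : (AddMonoidAlgebra.single x a : GR ι) = a • ex x := by
  unfold ex
  ext
  simp

theorem dem_single (j : I) (x : ι → ℤ) (a : ℤ) :
    D.dem j (AddMonoidAlgebra.single x a) = a • D.demB j x := by
  unfold RDat.dem
  simp [AddMonoidAlgebra.coeffAddEquiv]

theorem dem_ex (j : I) (x : ι → ℤ) : D.dem j (ex x) = D.demB j x := by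
  unfold ex
  rw [dem_single, one_smul]

theorem pair_single (p : (ι → ℤ) → ℤ) (x : ι → ℤ) (a : ℤ) :
    pair p (AddMonoidAlgebra.single x a) = a * p x := by
  unfold pair
  simp [AddMonoidAlgebra.coeffAddEquiv]

theorem push_single {κ : Type} (g : (ι → ℤ) →+ (κ → ℤ)) (x : ι → ℤ) (a : ℤ) :
    push g (AddMonoidAlgebra.single x a) = AddMonoidAlgebra.single (g x) a := by
  unfold push
  simp

theorem push_ex {κ : Type} (g : (ι → ℤ) →+ (κ → ℤ)) (x : ι → ℤ) :
    push g (ex x) = ex (g x) := push_single g x 1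

theorem push_demB (σ : (ι → ℤ) ≃+ (ι → ℤ)) (τ : I ≃ I) (h : D.Tw σ τ) (j : I) (x : ι → ℤ) :
    push (σ : (ι → ℤ) →+ (ι → ℤ)) (D.demB j x) = D.demB (τ j) (σ x) := by
  unfold RDat.demB
  rw [h.co]
  split_ifs with h0
  · rw [map_sum]
    refine Finset.sum_congr rfl fun c _ => ?_
    rw [push_ex, map_sub, map_zsmul]
    congr 2
    rw [← h.al]
    rfl
  · rw [map_neg, map_sum]
    congr 1
    refine Finset.sum_congr rfl fun c _ => ?_
    rw [push_ex, map_add, map_zsmul]
    congr 2
    rw [← h.al]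
    rfl

theorem push_dem (σ : (ι → ℤ) ≃+ (ι → ℤ)) (τ : I ≃ I) (h : D.Tw σ τ) (j : I) (f : GR ι) :
    push (σ : (ι → ℤ) →+ (ι → ℤ)) (D.dem j f) =
      D.dem (τ j) (push (σ : (ι → ℤ) →+ (ι → ℤ)) f) := by
  induction f using AddMonoidAlgebra.induction_linear with
  | zero => simp only [map_zero]
  | add f g hf hg => rw [map_add, map_add, map_add, map_add, hf, hg]
  | single x a =>
    rw [dem_single, push_single, dem_single, map_zsmul, push_demB D σ τ h]
    rfl

theorem co_s (j : I) (x : ι → ℤ) : D.co j (D.s j x) = - D.co j x := by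
  have h1 : D.co j (D.al j) = 2 := D.ev_rt (D.sim j)
  have h2 : D.co j (D.s j x) = D.co j x - D.co j x * D.co j (D.al j) := by
    unfold RDat.s
    show D.ev (D.sim j) (x - D.co j x • D.al j) = _
    rw [map_sub, map_zsmul, smul_eq_mul]
    rfl
  rw [h2, h1]
  ring

theorem sig_s (σ : (ι → ℤ) ≃+ (ι → ℤ)) (τ : I ≃ I) (h : D.Tw σ τ) (j : I) (x : ι → ℤ) :
    σ (D.s j x) = D.s (τ j) (σ x) := by
  unfold RDat.s
  rw [map_sub, map_zsmul, h.al, h.co]

theorem dom_iff (σ : (ι → ℤ) ≃+ (ι → ℤ)) (τ : I ≃ I) (h : D.Tw σ τ) (x : ι → ℤ) :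
    D.Dom x ↔ D.Dom (σ x) := by
  constructor
  · intro hx j
    have h1 := h.co (τ.symm j) x
    rw [Equiv.apply_symm_apply] at h1
    rw [h1]
    exact hx _
  · intro hx j
    rw [← h.co j x]
    exact hx _

theorem main : RDat.S_len → RDat.N_op → RDat.N_tw := by
  intro hlen _ ι I D rho _ hD σ τ h
  refine ⟨dom_iff D σ τ h, sig_s D σ τ h, push_dem D σ τ h, ?_, ?_, ?_, ?_, ?_, ?_⟩
  · have key : ∀ n : ℕ, ∀ x ∈ D.T, D.len x = n → ∀ m,
        D.Dem (σ x) m = push (σ : (ι → ℤ) →+ (ι → ℤ)) (D.Dem x m) := by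
      intro n
      induction n with
      | zero =>
        intro x hx hn m
        have hdom : D.Dom x := by
          intro j
          by_contra hcon
          push Not at hcon
          have h1 := (hlen ι I D x hx j).1 hcon
          omega
        have hx' : σ x ∈ D.T := (h.T x).1 hx
        rw [hD.d3 x hx m hdom, hD.d3 (σ x) hx' m ((dom_iff D σ τ h x).1 hdom), push_ex]
        congr 1
        rw [map_zsmul]
        rfl
      | succ n ih =>
        intro x hx hn m
        have hx' : σ x ∈ D.T := (h.T x).1 hx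
        by_cases hdom : D.Dom x
        · rw [hD.d3 x hx m hdom, hD.d3 (σ x) hx' m ((dom_iff D σ τ h x).1 hdom), push_ex]
          congr 1
          rw [map_zsmul]
          rfl
        · unfold RDat.Dom at hdom
          push Not at hdom
          obtain ⟨j, hj⟩ := hdom
          have h1 := hlen ι I D x hx j
          have h2 := h1.1 hj
          have h3 : D.Dem (D.s (τ j) (σ x)) m =
              push (σ : (ι → ℤ) →+ (ι → ℤ)) (D.Dem (D.s j x) m) := by
            rw [← sig_s D σ τ h]
            exact ih (D.s j x) h1.2.2.2.1 (by omega) m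
          rw [← hD.d1 x hx m j hj, push_dem D σ τ h, ← h3]
          rw [hD.d1 (σ x) hx' m (τ j) (by rw [h.co]; exact hj)]
    intro x hx m
    exact key _ x hx rfl m
  · intro p hp y j
    dsimp only
    rw [map_sub, map_zsmul, h.al]
    have h1 := hp (σ y) (τ j)
    rw [h.co] at h1
    exact h1
  · intro p f
    induction f using AddMonoidAlgebra.induction_linear with
    | zero => simp only [map_zero]
    | add f g hf hg => rw [map_add, map_add, map_add, hf, hg]
    | single x a =>
      rw [push_single, pair_single, pair_single]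
      rfl
  · intro j x
    have h1 := h.co (τ.symm j) (σ.symm x)
    rw [Equiv.apply_symm_apply, AddEquiv.apply_symm_apply] at h1
    exact h1.symm
  · intro j
    rw [AddEquiv.symm_apply_eq, h.al, Equiv.apply_symm_apply]
  · intro x
    rw [h.T (σ.symm x), AddEquiv.apply_symm_apply]

end H391.KR.P_ntw
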