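import Pool.Agent.H391.KR.PM

/-!
# String structure on tails of LS paths (task KR-str, helper282 for helper391)
-/

set_option autoImplicit false

noncomputable section

namespace H391.KR.P_str

open Finset H391.KR H391.KR.RDat

variable {ι I : Type} (D : RDat ι I)

theorem co_s (j : I) (x : ι → ℤ) : D.co j (D.s j x) = - D.co j x := by
  unfold RDat.s RDat.co RDat.al
  rw [map_sub, map_zsmul, D.ev_rt, smul_eq_mul]
  ring

theorem s_s (j : I) (x : ι → ℤ) : D.s j (D.s j x) = x := by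
  have h : D.s j (D.s j x) = D.s j x - D.co j (D.s j x) • D.al j := rfl
  rw [h, co_s]
  unfold RDat.s
  rw [neg_smul]
  abel

theorem H_succ (j : I) (τ : ℕ → ι → ℤ) (l : ℕ) :
    D.H j τ (l + 1) = D.H j τ l + D.co j (τ l) := by
  unfold RDat.H
  rw [sum_range_succ]

theorem H_rseg (j : I) (τ : ℕ → ι → ℤ) {p q : ℕ} (hpq : p ≤ q) (l : ℕ) :
    D.H j (D.rseg j p q τ) l =
      D.H j τ l - 2 * (D.H j τ (min (max l p) q) - D.H j τ p) := by
  induction l with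
  | zero =>
    have h1 : min (max 0 p) q = p := by omega
    rw [h1]
    unfold RDat.H
    simp
  | succ l ih =>
    rw [H_succ, H_succ, ih]
    unfold RDat.rseg
    by_cases h : p ≤ l ∧ l < q
    · rw [if_pos h, co_s]
      have h1 : min (max l p) q = l := by omega
      have h2 : min (max (l + 1) p) q = l + 1 := by omega
      rw [h1, h2, H_succ]
      ring
    · rw [if_neg h]
      have h1 : min (max (l + 1) p) q = min (max l p) q := by omega
      rw [h1]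
      ring

theorem H_rseg_left (j : I) (τ : ℕ → ι → ℤ) {p q l : ℕ} (hpq : p ≤ q) (hl : l ≤ p) :
    D.H j (D.rseg j p q τ) l = D.H j τ l := by
  rw [H_rseg D j τ hpq l]
  have h1 : min (max l p) q = p := by omega
  rw [h1]
  ring

theorem H_rseg_mid (j : I) (τ : ℕ → ι → ℤ) {p q l : ℕ} (hpq : p ≤ q) (hl : p ≤ l) (hl' : l ≤ q) :
    D.H j (D.rseg j p q τ) l = 2 * D.H j τ p - D.H j τ l := by
  rw [H_rseg D j τ hpq l]
  have h1 : min (max l p) q = l := by omega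
  rw [h1]
  ring

theorem H_rseg_right (j : I) (τ : ℕ → ι → ℤ) {p q l : ℕ} (hpq : p ≤ q) (hl : q ≤ l) :
    D.H j (D.rseg j p q τ) l = D.H j τ l - 2 * (D.H j τ q - D.H j τ p) := by
  rw [H_rseg D j τ hpq l]
  have h1 : min (max l p) q = q := by omega
  rw [h1]

theorem sum_rseg (j : I) (τ : ℕ → ι → ℤ) {p q : ℕ} (hpq : p ≤ q) (i : ι) (n : ℕ) :
    ∑ l ∈ range n, D.rseg j p q τ l i =
      ∑ l ∈ range n, τ l i - (D.H j τ (min (max n p) q) - D.H j τ p) * D.al j i := by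
  induction n with
  | zero =>
    have h1 : min (max 0 p) q = p := by omega
    rw [h1]
    simp
  | succ n ih =>
    rw [sum_range_succ, sum_range_succ, ih]
    have e : D.rseg j p q τ n = if p ≤ n ∧ n < q then D.s j (τ n) else τ n := rfl
    rw [e]
    by_cases h : p ≤ n ∧ n < q
    · rw [if_pos h]
      have h1 : min (max n p) q = n := by omega
      have h2 : min (max (n + 1) p) q = n + 1 := by omega
      have h3 : D.s j (τ n) i = τ n i - D.co j (τ n) * D.al j i := rfl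
      rw [h1, h2, H_succ, h3]
      ring
    · rw [if_neg h]
      have h1 : min (max (n + 1) p) q = min (max n p) q := by omega
      rw [h1]
      ring

theorem tot_rseg (j : I) (τ : ℕ → ι → ℤ) {p q L : ℕ} (hpq : p ≤ q) (hqL : q ≤ L) :
    tot L (D.rseg j p q τ) = tot L τ - (D.H j τ q - D.H j τ p) • D.al j := by
  funext i
  have h := sum_rseg D j τ hpq i L
  have h1 : min (max L p) q = q := by omega
  rw [h1] at h
  exact h

theorem rseg_rseg (j : I) (τ : ℕ → ι → ℤ) (p q : ℕ) :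
    D.rseg j p q (D.rseg j p q τ) = τ := by
  funext l
  unfold RDat.rseg
  by_cases h : p ≤ l ∧ l < q
  · simp only [if_pos h, s_s]
  · simp only [if_neg h]

/-- `Q` is the minimum of the heights -/
def IsMin (j : I) (a L : ℕ) (τ : ℕ → ι → ℤ) (Q : ℤ) : Prop :=
  (∀ l, a ≤ l → l ≤ L → Q ≤ D.H j τ l) ∧ ∃ l, a ≤ l ∧ l ≤ L ∧ D.H j τ l = Q

theorem exists_isMin (j : I) {a L : ℕ} (haL : a ≤ L) (τ : ℕ → ι → ℤ) :
    ∃ Q, IsMin D j a L τ Q := by
  obtain ⟨l, hl, hmin⟩ := Finset.exists_min_image (Finset.Icc a L) (D.H j τ)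
    ⟨a, Finset.mem_Icc.2 ⟨le_rfl, haL⟩⟩
  rw [Finset.mem_Icc] at hl
  exact ⟨D.H j τ l, fun l' h1 h2 => hmin l' (Finset.mem_Icc.2 ⟨h1, h2⟩), l, hl.1, hl.2, rfl⟩

theorem IsMin.unique {j : I} {a L : ℕ} {τ : ℕ → ι → ℤ} {Q Q' : ℤ} (h : IsMin D j a L τ Q)
    (h' : IsMin D j a L τ Q') : Q = Q' := by
  obtain ⟨h1, l, hl1, hl2, hl⟩ := h
  obtain ⟨h1', l', hl1', hl2', hl'⟩ := h'
  have e1 := h1 l' hl1' hl2'
  have e2 := h1' l hl1 hl2
  omega

/-- the positions of the lowering operator -/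
structure IsF (M a L : ℕ) (j : I) (τ : ℕ → ι → ℤ) (Q : ℤ) (l0 l1 : ℕ) : Prop where
  al0 : a ≤ l0
  lt : l0 < l1
  le : l1 ≤ L
  H0 : D.H j τ l0 = Q
  last : ∀ l, l0 < l → l ≤ L → Q < D.H j τ l
  H1 : D.H j τ l1 = Q + M
  mid : ∀ l, l0 < l → l < l1 → D.H j τ l < Q + M

/-- the positions of the raising operator -/
structure IsE (M a L : ℕ) (j : I) (τ : ℕ → ι → ℤ) (Q : ℤ) (l0 l1 : ℕ) : Prop where
  al0 : a ≤ l0
  lt : l0 < l1
  le : l1 ≤ L
  H1 : D.H j τ l1 = Q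
  first : ∀ l, a ≤ l → l < l1 → Q < D.H j τ l
  H0 : D.H j τ l0 = Q + M
  mid : ∀ l, l0 < l → l < l1 → D.H j τ l < Q + M

theorem IsF.unique {M a L : ℕ} {j : I} {τ : ℕ → ι → ℤ} {Q : ℤ} {l0 l1 l0' l1' : ℕ}
    (h : IsF D M a L j τ Q l0 l1) (h' : IsF D M a L j τ Q l0' l1') : l0 = l0' ∧ l1 = l1' := by
  have e0 : l0 = l0' := by
    rcases lt_trichotomy l0 l0' with hl | hl | hl
    · have h1 := h.last l0' hl (h'.lt.le.trans h'.le)
      rw [h'.H0] at h1
      exact absurd h1 (lt_irrefl _)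
    · exact hl
    · have h1 := h'.last l0 hl (h.lt.le.trans h.le)
      rw [h.H0] at h1
      exact absurd h1 (lt_irrefl _)
  refine ⟨e0, ?_⟩
  subst e0
  rcases lt_trichotomy l1 l1' with hl | hl | hl
  · have h1 := h'.mid l1 h.lt hl
    rw [h.H1] at h1
    exact absurd h1 (lt_irrefl _)
  · exact hl
  · have h1 := h.mid l1' h'.lt hl
    rw [h'.H1] at h1
    exact absurd h1 (lt_irrefl _)

theorem IsE.unique {M a L : ℕ} {j : I} {τ : ℕ → ι → ℤ} {Q : ℤ} {l0 l1 l0' l1' : ℕ}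
    (h : IsE D M a L j τ Q l0 l1) (h' : IsE D M a L j τ Q l0' l1') : l0 = l0' ∧ l1 = l1' := by
  have e1 : l1 = l1' := by
    rcases lt_trichotomy l1 l1' with hl | hl | hl
    · have h1 := h'.first l1 (h.al0.trans h.lt.le) hl
      rw [h.H1] at h1
      exact absurd h1 (lt_irrefl _)
    · exact hl
    · have h1 := h.first l1' (h'.al0.trans h'.lt.le) hl
      rw [h'.H1] at h1
      exact absurd h1 (lt_irrefl _)
  subst e1
  refine ⟨?_, rfl⟩
  rcases lt_trichotomy l0 l0' with hl | hl | hl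
  · have h1 := h.mid l0' hl h'.lt
    rw [h'.H0] at h1
    exact absurd h1 (lt_irrefl _)
  · exact hl
  · have h1 := h'.mid l0 hl h.lt
    rw [h.H0] at h1
    exact absurd h1 (lt_irrefl _)

open Classical in
/-- the lowering operator -/
def fO (M a L : ℕ) (j : I) (Q : (ℕ → ι → ℤ) → ℤ) (τ : ℕ → ι → ℤ) : ℕ → ι → ℤ :=
  if h : ∃ p : ℕ × ℕ, IsF D M a L j τ (Q τ) p.1 p.2 then D.rseg j h.choose.1 h.choose.2 τ else τ

open Classical in
/-- the raising operator -/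
def eO (M a L : ℕ) (j : I) (Q : (ℕ → ι → ℤ) → ℤ) (τ : ℕ → ι → ℤ) : ℕ → ι → ℤ :=
  if h : ∃ p : ℕ × ℕ, IsE D M a L j τ (Q τ) p.1 p.2 then D.rseg j h.choose.1 h.choose.2 τ else τ

theorem fO_eq {M a L : ℕ} {j : I} {Q : (ℕ → ι → ℤ) → ℤ} {τ : ℕ → ι → ℤ} {l0 l1 : ℕ}
    (h : IsF D M a L j τ (Q τ) l0 l1) : fO D M a L j Q τ = D.rseg j l0 l1 τ := by
  have hex : ∃ p : ℕ × ℕ, IsF D M a L j τ (Q τ) p.1 p.2 := ⟨(l0, l1), h⟩
  unfold fO
  rw [dif_pos hex]
  obtain ⟨e0, e1⟩ := IsF.unique D hex.choose_spec h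
  rw [e0, e1]

theorem eO_eq {M a L : ℕ} {j : I} {Q : (ℕ → ι → ℤ) → ℤ} {τ : ℕ → ι → ℤ} {l0 l1 : ℕ}
    (h : IsE D M a L j τ (Q τ) l0 l1) : eO D M a L j Q τ = D.rseg j l0 l1 τ := by
  have hex : ∃ p : ℕ × ℕ, IsE D M a L j τ (Q τ) p.1 p.2 := ⟨(l0, l1), h⟩
  unfold eO
  rw [dif_pos hex]
  obtain ⟨e0, e1⟩ := IsE.unique D hex.choose_spec h
  rw [e0, e1]

/-- after the lowering operator -/
theorem step_f {M a L : ℕ} {j : I} {τ : ℕ → ι → ℤ} {Q : ℤ} {l0 l1 : ℕ} (hM : 0 < (M : ℤ))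
    (hmin : IsMin D j a L τ Q) (h : IsF D M a L j τ Q l0 l1)
    (hge : ∀ l, l1 ≤ l → l ≤ L → Q + M ≤ D.H j τ l) :
    IsMin D j a L (D.rseg j l0 l1 τ) (Q - M) ∧ IsE D M a L j (D.rseg j l0 l1 τ) (Q - M) l0 l1 ∧
      D.H j (D.rseg j l0 l1 τ) L = D.H j τ L - 2 * M ∧
      tot L (D.rseg j l0 l1 τ) = tot L τ - (M : ℤ) • D.al j := by
  have hlt := h.lt
  have hle := h.le
  have h0 := h.H0
  have h1 := h.H1
  have E1 : D.H j (D.rseg j l0 l1 τ) l1 = Q - M := by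
    rw [H_rseg_mid D j τ hlt.le hlt.le le_rfl, h0, h1]
    ring
  have E0 : D.H j (D.rseg j l0 l1 τ) l0 = Q - M + M := by
    rw [H_rseg_left D j τ hlt.le le_rfl, h0]
    ring
  refine ⟨⟨?_, l1, h.al0.trans hlt.le, hle, E1⟩, ?_, ?_, ?_⟩
  · intro l hl hl'
    rcases le_or_gt l l0 with h2 | h2
    · rw [H_rseg_left D j τ hlt.le h2]
      have := hmin.1 l hl hl'
      omega
    · rcases lt_or_ge l l1 with h3 | h3
      · rw [H_rseg_mid D j τ hlt.le h2.le h3.le, h0]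
        have := h.mid l h2 h3
        omega
      · rw [H_rseg_right D j τ hlt.le h3, h0, h1]
        have := hge l h3 hl'
        omega
  · refine ⟨h.al0, hlt, hle, E1, ?_, E0, ?_⟩
    · intro l hl hl'
      rcases le_or_gt l l0 with h2 | h2
      · rw [H_rseg_left D j τ hlt.le h2]
        have := hmin.1 l hl (hl'.le.trans hle)
        omega
      · rw [H_rseg_mid D j τ hlt.le h2.le hl'.le, h0]
        have := h.mid l h2 hl'
        omega
    · intro l hl hl'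
      rw [H_rseg_mid D j τ hlt.le hl.le hl'.le, h0]
      have := h.last l hl (hl'.le.trans hle)
      omega
  · rw [H_rseg_right D j τ hlt.le hle, h0, h1]
    ring
  · rw [tot_rseg D j τ hlt.le hle, h0, h1]
    congr 2
    ring

/-- after the raising operator -/
theorem step_e {M a L : ℕ} {j : I} {τ : ℕ → ι → ℤ} {Q Q' : ℤ} {l0 l1 : ℕ} (hM : 0 < (M : ℤ))
    (hmin : IsMin D j a L τ Q) (h : IsE D M a L j τ Q l0 l1) (hd : (M : ℤ) ∣ Q)
    (hmin' : IsMin D j a L (D.rseg j l0 l1 τ) Q') (hd' : (M : ℤ) ∣ Q') :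
    Q' = Q + M ∧ IsF D M a L j (D.rseg j l0 l1 τ) Q' l0 l1 ∧
      D.H j (D.rseg j l0 l1 τ) L = D.H j τ L + 2 * M ∧
      tot L (D.rseg j l0 l1 τ) = tot L τ + (M : ℤ) • D.al j := by
  have hlt := h.lt
  have hle := h.le
  have h0 := h.H0
  have h1 := h.H1
  have E0 : D.H j (D.rseg j l0 l1 τ) l0 = Q + M := by
    rw [H_rseg_left D j τ hlt.le le_rfl, h0]
  have E1 : D.H j (D.rseg j l0 l1 τ) l1 = Q + M + M := by
    rw [H_rseg_mid D j τ hlt.le hlt.le le_rfl, h0, h1]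
    ring
  have hgt : ∀ l, a ≤ l → l ≤ L → Q < D.H j (D.rseg j l0 l1 τ) l := by
    intro l hl hl'
    rcases le_or_gt l l0 with h2 | h2
    · rw [H_rseg_left D j τ hlt.le h2]
      exact h.first l hl (lt_of_le_of_lt h2 hlt)
    · rcases lt_or_ge l l1 with h3 | h3
      · rw [H_rseg_mid D j τ hlt.le h2.le h3.le, h0]
        have := h.mid l h2 h3
        omega
      · rw [H_rseg_right D j τ hlt.le h3, h0, h1]
        have := hmin.1 l hl hl'
        omega
  have hQ : Q' = Q + M := by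
    have e1 : Q' ≤ Q + M := by
      rw [← E0]
      exact hmin'.1 l0 h.al0 (hlt.le.trans hle)
    have e2 : Q < Q' := by
      obtain ⟨_, l, hl1, hl2, hl⟩ := hmin'
      rw [← hl]
      exact hgt l hl1 hl2
    obtain ⟨c, hc⟩ := hd
    obtain ⟨c', hc'⟩ := hd'
    have e3 : c < c' := by
      rw [hc, hc'] at e2
      exact lt_of_mul_lt_mul_left e2 hM.le
    have e4 : (M : ℤ) * (c + 1) ≤ M * c' := mul_le_mul_of_nonneg_left (by omega) hM.le
    have e5 : (M : ℤ) * (c + 1) = M * c + M := by ring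
    rw [e5, ← hc, ← hc'] at e4
    omega
  refine ⟨hQ, ?_, ?_, ?_⟩
  · rw [hQ]
    refine ⟨h.al0, hlt, hle, E0, ?_, E1, ?_⟩
    · intro l hl hl'
      rcases lt_or_ge l l1 with h3 | h3
      · rw [H_rseg_mid D j τ hlt.le hl.le h3.le, h0]
        have := h.mid l hl h3
        omega
      · rw [H_rseg_right D j τ hlt.le h3, h0, h1]
        have := hmin.1 l (h.al0.trans hl.le) hl'
        omega
    · intro l hl hl'
      rw [H_rseg_mid D j τ hlt.le hl.le hl'.le, h0]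
      have := h.first l (h.al0.trans hl.le) hl'
      omega
  · rw [H_rseg_right D j τ hlt.le hle, h0, h1]
    ring
  · rw [tot_rseg D j τ hlt.le hle, h0, h1]
    have e : Q - (Q + (M : ℤ)) = -(M : ℤ) := by ring
    rw [e, neg_smul, sub_neg_eq_add]

theorem main : RDat.S_len → RDat.S_cong → RDat.S_int → RDat.S_f → RDat.S_e → RDat.S_str := by
  intro _ _ hint hf he ι I D M a L k j hctx
  have hctx0 := hctx.1
  obtain ⟨⟨_, hgood, _, haL, _⟩, hk⟩ := hctx
  have hM : 0 < (M : ℤ) := by exact_mod_cast hgood.1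
  choose Q hQ using fun τ => exists_isMin D j haL τ
  have hdiv : ∀ τ ∈ D.Tails M a L k, (M : ℤ) ∣ Q τ := fun τ hτ =>
    (hint ι I D M a L k j hctx0 τ hτ).2.2.2.2.2.2.2.2 (Q τ) (hQ τ).1 (hQ τ).2
  have hL : ∀ τ ∈ D.Tails M a L k, (M : ℤ) ∣ D.H j τ L := fun τ hτ =>
    (hint ι I D M a L k j hctx0 τ hτ).2.2.2.1
  have ha0 : ∀ τ ∈ D.Tails M a L k, D.H j τ a = 0 := fun τ hτ =>
    (hint ι I D M a L k j hctx0 τ hτ).2.2.2.2.1
  have hQ0 : ∀ τ ∈ D.Tails M a L k, Q τ ≤ 0 := fun τ hτ => by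
    rw [← ha0 τ hτ]
    exact (hQ τ).1 a le_rfl haL
  have hep : ∀ τ ∈ D.Tails M a L k, (M : ℤ) * (((-(Q τ)) / (M : ℤ)).toNat : ℤ) = -(Q τ) := by
    intro τ hτ
    rw [Int.toNat_of_nonneg (Int.ediv_nonneg (by have := hQ0 τ hτ; omega) hM.le)]
    exact Int.mul_ediv_cancel' ((dvd_neg).2 (hdiv τ hτ))
  have hph : ∀ τ ∈ D.Tails M a L k,
      (M : ℤ) * (((D.H j τ L - Q τ) / (M : ℤ)).toNat : ℤ) = D.H j τ L - Q τ := by
    intro τ hτ
    rw [Int.toNat_of_nonneg (Int.ediv_nonneg (by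
      have := (hQ τ).1 L haL le_rfl
      omega) hM.le)]
    exact Int.mul_ediv_cancel' (dvd_sub (hL τ hτ) (hdiv τ hτ))
  have hpos : ∀ (n : ℕ) (x : ℤ), (M : ℤ) * (n : ℤ) = x → (0 < n ↔ 0 < x) := by
    intro n x hx
    constructor
    · intro hn
      rw [← hx]
      have : (0 : ℤ) < n := by exact_mod_cast hn
      positivity
    · intro hx0
      rw [← hx] at hx0
      have := (mul_pos_iff_of_pos_left hM).1 hx0
      exact_mod_cast this
  have hcancel : ∀ m n : ℕ, (M : ℤ) * (m : ℤ) = M * (n : ℤ) → m = n := by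
    intro m n h
    have := mul_left_cancel₀ hM.ne' h
    exact_mod_cast this
  refine ⟨{
    ep := fun τ => ((-(Q τ)) / (M : ℤ)).toNat
    ph := fun τ => ((D.H j τ L - Q τ) / (M : ℤ)).toNat
    f := fO D M a L j Q
    e := eO D M a L j Q
    h1 := ?_
    hf := ?_
    he := ?_
    h0 := ?_ }⟩
  · intro τ hτ
    rw [hep τ hτ, hph τ hτ]
    ring
  · intro τ hτ hpp
    have hlt : Q τ < D.H j τ L := by
      have := (hpos _ _ (hph τ hτ)).1 hpp
      omega
    obtain ⟨l0, l1, a1, a2, a3, a4, a5, a6, a7, a8, _, a10⟩ :=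
      hf ι I D M a L k j ⟨hctx0, hk⟩ τ hτ (Q τ) (hQ τ).1 (hQ τ).2 hlt
    have hF : IsF D M a L j τ (Q τ) l0 l1 := ⟨a1, a2, a3, a4, a5, a6, a7⟩
    obtain ⟨b1, b2, b3, b4⟩ := step_f D hM (hQ τ) hF a8
    rw [fO_eq D hF]
    have hQ' : Q (D.rseg j l0 l1 τ) = Q τ - M := IsMin.unique D (hQ _) b1
    refine ⟨a10, ?_, ?_, ?_, b4, ?_⟩
    · rw [eO_eq D (l0 := l0) (l1 := l1) (by rw [hQ']; exact b2), rseg_rseg]
    · apply hcancel
      rw [hep _ a10, hQ']
      push_cast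
      rw [mul_add, hep τ hτ]
      ring
    · apply hcancel
      push_cast
      rw [mul_add, hph _ a10, hph τ hτ, hQ', b3]
      ring
    · intro hpe
      have h5 := (hpos _ _ (hep τ hτ)).1 hpe
      have h6 : a ≠ l0 := by
        intro h
        rw [← h, ha0 τ hτ] at a4
        omega
      show (if l0 ≤ a ∧ a < l1 then D.s j (τ a) else τ a) = τ a
      rw [if_neg (by omega)]
  · intro τ hτ hpe
    have hlt : Q τ < 0 := by
      have := (hpos _ _ (hep τ hτ)).1 hpe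
      omega
    obtain ⟨l0, l1, a1, a2, a3, a4, a5, a6, a7, a8, a9⟩ :=
      he ι I D M a L k j ⟨hctx0, hk⟩ τ hτ (Q τ) (hQ τ).1 (hQ τ).2 hlt
    have hE : IsE D M a L j τ (Q τ) l0 l1 := ⟨a1, a2, a3, a4, a5, a6, a7⟩
    obtain ⟨b1, b2, b3, b4⟩ := step_e D hM (hQ τ) hE (hdiv τ hτ) (hQ (D.rseg j l0 l1 τ))
      (hdiv _ a9)
    rw [eO_eq D hE]
    refine ⟨a9, ?_, ?_, ?_, b4, ?_⟩
    · rw [fO_eq D b2, rseg_rseg]
    · apply hcancel
      push_cast
      rw [mul_add, hep _ a9, hep τ hτ, b1]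
      ring
    · apply hcancel
      push_cast
      rw [mul_add, hph _ a9, hph τ hτ, b1, b3]
      ring
    · rcases Nat.lt_or_ge a l0 with h | h
      · left
        show (if l0 ≤ a ∧ a < l1 then D.s j (τ a) else τ a) = τ a
        rw [if_neg (by omega)]
      · right
        refine ⟨a8 a h (by omega), ?_⟩
        show (if l0 ≤ a ∧ a < l1 then D.s j (τ a) else τ a) = D.s j (τ a)
        rw [if_pos (by omega)]
  · intro τ hτ h0 l hl hl'
    have h1 := hep τ hτ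
    have h2 : ((-(Q τ)) / (M : ℤ)).toNat = 0 := h0
    rw [h2] at h1
    have h3 := (hQ τ).1 l hl hl'
    push_cast at h1
    omega

end H391.KR.P_str
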