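import Pool.Agent.H391.KR.GT

/-!
# KR-tg2fin: type `G_2`
-/

set_option linter.all false

namespace H391.KR.P_tg2fin

open Finset H391.KR H391.KR.GD

/-- the homomorphism on `RepR` -/
theorem hom (hOK : GD.T_G2) (hmul : GD.H_mul) (τ : ℝ) (h0 : 0 < τ) (h4 : τ * 4 ≤ Real.pi) :
    ∃ e : G2.RepR →+* ℝ, ∀ f : G2.RepR, e f = G2.qdimR τ (chr f) := by
  have hv : ((G2.hv : ℤ) : ℝ) = 4 := by
    have : G2.hv = 4 := by
      unfold GD.hv
      rw [Fin.sum_univ_two]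
      simp [G2]
    rw [this]
    norm_num
  obtain ⟨e, he⟩ := (hmul 2 G2 hOK).1 τ h0 (by rw [hv]; exact h4)
  let e' : G2.RepR →+* ℝ := e
  exact ⟨e', fun f => he f⟩

/-- the neighbour products -/
theorem qnb1 (Q : Fin 2 → ℕ → G2.RepR) (m : ℕ) : G2.qnb Q 1 m = Q 0 (3 * m) := by
  unfold GD.qnb
  rw [Fin.prod_univ_two]
  have e1 : (-(G2.C 1 0)).toNat = 1 := by simp [G2]
  have e2 : (-(G2.C 1 1)).toNat = 0 := by simp [G2]
  have e3 : (-(G2.C 0 1)).toNat = 3 := by simp [G2]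
  rw [e1, e2, e3, Finset.prod_range_one, Finset.range_zero, Finset.prod_empty, mul_one,
    Nat.div_one, add_zero]

theorem qnb0 (Q : Fin 2 → ℕ → G2.RepR) (m : ℕ) :
    G2.qnb Q 0 m = Q 1 (m / 3) * Q 1 ((m + 1) / 3) * Q 1 ((m + 2) / 3) := by
  unfold GD.qnb
  rw [Fin.prod_univ_two]
  have e1 : (-(G2.C 0 0)).toNat = 0 := by simp [G2]
  have e2 : (-(G2.C 0 1)).toNat = 3 := by simp [G2]
  have e3 : (-(G2.C 1 0)).toNat = 1 := by simp [G2]
  rw [e1, e2, e3, Finset.range_zero, Finset.prod_empty, one_mul, Finset.prod_range_succ,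
    Finset.prod_range_succ, Finset.prod_range_one]
  simp only [one_mul, add_zero]

section

variable (Q : Fin 2 → ℕ → G2.RepR)

/-- short node -/
noncomputable def q (τ : ℝ) (m : ℕ) : ℝ := G2.qdimR τ (chr (Q 0 m))

/-- long node -/
noncomputable def p (τ : ℝ) (m : ℕ) : ℝ := G2.qdimR τ (chr (Q 1 m))

theorem E0 (hOK : GD.T_G2) (hmul : GD.H_mul) (hQ : G2.KRFam Q) (τ : ℝ) (h0 : 0 < τ)
    (h4 : τ * 4 ≤ Real.pi) (m : ℕ) : q Q τ (m + 1) * q Q τ (m + 1) =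
      q Q τ (m + 2) * q Q τ m +
        p Q τ ((m + 1) / 3) * p Q τ ((m + 2) / 3) * p Q τ ((m + 3) / 3) := by
  obtain ⟨e, he⟩ := hom hOK hmul τ h0 h4
  have h := congrArg e (hQ.qsys 0 m)
  rw [qnb0, map_mul, map_add, map_mul, map_mul, map_mul] at h
  simp only [he] at h
  exact h

theorem E1 (hOK : GD.T_G2) (hmul : GD.H_mul) (hQ : G2.KRFam Q) (τ : ℝ) (h0 : 0 < τ)
    (h4 : τ * 4 ≤ Real.pi) (m : ℕ) : p Q τ (m + 1) * p Q τ (m + 1) =
      p Q τ (m + 2) * p Q τ m + q Q τ (3 * (m + 1)) := by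
  obtain ⟨e, he⟩ := hom hOK hmul τ h0 h4
  have h := congrArg e (hQ.qsys 1 m)
  rw [qnb1, map_mul, map_add, map_mul] at h
  simp only [he] at h
  exact h

theorem q0 (hOK : GD.T_G2) (hmul : GD.H_mul) (hQ : G2.KRFam Q) (τ : ℝ) (h0 : 0 < τ)
    (h4 : τ * 4 ≤ Real.pi) : q Q τ 0 = 1 := by
  obtain ⟨e, he⟩ := hom hOK hmul τ h0 h4
  have h := congrArg e (hQ.zero 0)
  rw [map_one, he] at h
  exact h

theorem p0 (hOK : GD.T_G2) (hmul : GD.H_mul) (hQ : G2.KRFam Q) (τ : ℝ) (h0 : 0 < τ)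
    (h4 : τ * 4 ≤ Real.pi) : p Q τ 0 = 1 := by
  obtain ⟨e, he⟩ := hom hOK hmul τ h0 h4
  have h := congrArg e (hQ.zero 1)
  rw [map_one, he] at h
  exact h

theorem p_eq (hp : GD.T_G2p) (hs : GD.T_G2s) (hQ : G2.KRFam Q) (τ : ℝ) (h0 : 0 < τ)
    (h4 : τ * 4 ≤ Real.pi) (m : ℕ) : p Q τ m = pG τ m := by
  unfold p pG
  rw [hp Q hQ τ h0 h4 m]
  exact Finset.sum_congr rfl fun j _ => hs τ h0 h4 j

theorem q_cont (hOK : GD.T_G2) (hmul : GD.H_mul) (m : ℕ) :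
    ContinuousOn (fun τ => q Q τ m) {τ : ℝ | 0 < τ ∧ τ * 4 ≤ Real.pi} := by
  have hv : ((G2.hv : ℤ) : ℝ) = 4 := by
    have : G2.hv = 4 := by
      unfold GD.hv
      rw [Fin.sum_univ_two]
      simp [G2]
    rw [this]
    norm_num
  have h := (hmul 2 G2 hOK).2.1 (Q 0 m)
  rw [hv] at h
  exact h

theorem q_near (hOK : GD.T_G2) (hmul : GD.H_mul) (hQ : G2.KRFam Q) (m : ℕ) :
    ∃ ε : ℝ, 0 < ε ∧ ∀ τ : ℝ, 0 < τ → τ < ε → 0 < q Q τ m := by
  refine (hmul 2 G2 hOK).2.2 (Q 0 m) ((m : ℤ) • om 0) ?_ ?_ ?_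
  · intro i
    fin_cases i <;> simp [om]
  · have := hQ.top 0 m
    have h1 : ((chr (Q 0 m)) * G2.Delta).coeff ((m : ℤ) • om 0) = 1 := this
    intro h2
    have h3 : ((chr (Q 0 m)) * G2.Delta).coeff ((m : ℤ) • om 0) = 0 := h2
    rw [h1] at h3
    exact one_ne_zero h3
  · intro mu hmu
    exact hQ.pos 0 m mu hmu

theorem p_pos (ha : GD.T_G2a) (hp : GD.T_G2p) (hs : GD.T_G2s) (hQ : G2.KRFam Q) (τ : ℝ)
    (h0 : 0 < τ) (m : ℕ) (hm : τ * (m + 4) ≤ Real.pi) : 0 < p Q τ m := by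
  have h4 : τ * 4 ≤ Real.pi := by
    refine le_trans ?_ hm
    apply mul_le_mul_of_nonneg_left _ h0.le
    have : (0 : ℝ) ≤ m := Nat.cast_nonneg m
    linarith
  rw [p_eq Q hp hs hQ τ h0 h4]
  exact (ha τ h0 m hm).1

theorem q3_pos (hOK : GD.T_G2) (hmul : GD.H_mul) (ha : GD.T_G2a) (hp : GD.T_G2p)
    (hs : GD.T_G2s) (hQ : G2.KRFam Q) (τ : ℝ)
    (h0 : 0 < τ) (m : ℕ) (hm : τ * (m + 4) ≤ Real.pi) : 0 < q Q τ (3 * m) := by
  have h4 : τ * 4 ≤ Real.pi := by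
    refine le_trans ?_ hm
    apply mul_le_mul_of_nonneg_left _ h0.le
    have : (0 : ℝ) ≤ m := Nat.cast_nonneg m
    linarith
  rcases Nat.eq_zero_or_pos m with h | h
  · subst h
    rw [mul_zero, q0 Q hOK hmul hQ τ h0 h4]
    exact one_pos
  · obtain ⟨n, rfl⟩ : ∃ n, m = n + 1 := ⟨m - 1, by omega⟩
    have h1 := E1 Q hOK hmul hQ τ h0 h4 n
    have h2 := (ha τ h0 (n + 1) hm).2.1
    rw [if_neg (Nat.succ_ne_zero n), Nat.add_sub_cancel] at h2
    rw [p_eq Q hp hs hQ τ h0 h4, p_eq Q hp hs hQ τ h0 h4, p_eq Q hp hs hQ τ h0 h4] at h1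
    nlinarith [h1, h2]

theorem mid (hOK : GD.T_G2) (hmul : GD.H_mul) (ha : GD.T_G2a) (hp : GD.T_G2p)
    (hs : GD.T_G2s) (hQ : G2.KRFam Q) (n : ℕ) (τ₁ : ℝ)
    (h0 : 0 < τ₁) (hm : τ₁ * (n + 1 + 4) ≤ Real.pi) :
    0 < q Q τ₁ (3 * n + 1) ∧ 0 < q Q τ₁ (3 * n + 2) := by
  obtain ⟨ε₁, hε₁, hb⟩ := q_near Q hOK hmul hQ (3 * n + 1)
  obtain ⟨ε₂, hε₂, hc⟩ := q_near Q hOK hmul hQ (3 * n + 2)
  have hn0 : (0 : ℝ) ≤ n := Nat.cast_nonneg n
  by_contra hcon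
  -- the function `min b c`
  have hle : min (q Q τ₁ (3 * n + 1)) (q Q τ₁ (3 * n + 2)) ≤ 0 := by
    by_contra h
    push Not at h
    exact hcon ⟨lt_of_lt_of_le h (min_le_left _ _), lt_of_lt_of_le h (min_le_right _ _)⟩
  obtain ⟨ε, hε0, hεlt⟩ := exists_between (lt_min (lt_min hε₁ hε₂) h0)
  have hε1 : ε < ε₁ := lt_of_lt_of_le hεlt (le_trans (min_le_left _ _) (min_le_left _ _))
  have hε2 : ε < ε₂ := lt_of_lt_of_le hεlt (le_trans (min_le_left _ _) (min_le_right _ _))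
  have hετ : ε < τ₁ := lt_of_lt_of_le hεlt (min_le_right _ _)
  have hpos : 0 < min (q Q ε (3 * n + 1)) (q Q ε (3 * n + 2)) :=
    lt_min (hb ε hε0 hε1) (hc ε hε0 hε2)
  have hsub : Set.Icc ε τ₁ ⊆ {τ : ℝ | 0 < τ ∧ τ * 4 ≤ Real.pi} := by
    rintro τ ⟨h1, h2⟩
    refine ⟨lt_of_lt_of_le hε0 h1, ?_⟩
    calc τ * 4 ≤ τ₁ * 4 := by linarith
      _ ≤ τ₁ * (n + 1 + 4) := by nlinarith
      _ ≤ Real.pi := hm
  have hcont : ContinuousOn (fun τ => min (q Q τ (3 * n + 1)) (q Q τ (3 * n + 2)))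
      (Set.Icc ε τ₁) :=
    ContinuousOn.inf ((q_cont Q hOK hmul (3 * n + 1)).mono hsub)
      ((q_cont Q hOK hmul (3 * n + 2)).mono hsub)
  obtain ⟨t, ht, htz⟩ := intermediate_value_Icc' hετ.le hcont ⟨hle, hpos.le⟩
  have ht0 : 0 < t := lt_of_lt_of_le hε0 ht.1
  have ht4 : t * 4 ≤ Real.pi := (hsub ht).2
  have htn1 : t * ((n : ℝ) + 1 + 4) ≤ Real.pi := by
    refine le_trans ?_ hm
    exact mul_le_mul_of_nonneg_right ht.2 (by linarith)
  have htn : t * ((n : ℝ) + 4) ≤ Real.pi := by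
    refine le_trans ?_ htn1
    exact mul_le_mul_of_nonneg_left (by linarith) ht0.le
  have htn1' : t * (((n + 1 : ℕ) : ℝ) + 4) ≤ Real.pi := by
    push_cast
    exact htn1
  have pn := p_pos Q ha hp hs hQ t ht0 n htn
  have pn1 := p_pos Q ha hp hs hQ t ht0 (n + 1) htn1'
  have qn := q3_pos Q hOK hmul ha hp hs hQ t ht0 n htn
  have qn1 := q3_pos Q hOK hmul ha hp hs hQ t ht0 (n + 1) htn1'
  have eb := E0 Q hOK hmul hQ t ht0 ht4 (3 * n)
  have ec := E0 Q hOK hmul hQ t ht0 ht4 (3 * n + 1)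
  have d1 : (3 * n + 1) / 3 = n := by omega
  have d2 : (3 * n + 2) / 3 = n := by omega
  have d3 : (3 * n + 3) / 3 = n + 1 := by omega
  have d4 : (3 * n + 1 + 1) / 3 = n := by omega
  have d5 : (3 * n + 1 + 2) / 3 = n + 1 := by omega
  have d6 : (3 * n + 1 + 3) / 3 = n + 1 := by omega
  rw [d1, d2, d3] at eb
  rw [d4, d5, d6] at ec
  have e1 : 3 * n + 1 + 1 = 3 * n + 2 := by ring
  have e2 : 3 * n + 1 + 2 = 3 * (n + 1) := by ring
  rw [e1, e2] at ec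
  simp only at htz
  rcases le_total (q Q t (3 * n + 1)) (q Q t (3 * n + 2)) with h | h
  · rw [min_eq_left h] at htz
    rw [htz] at eb h
    have h1 : 0 ≤ q Q t (3 * n + 2) * q Q t (3 * n) := mul_nonneg h qn.le
    have h2 : 0 < p Q t n * p Q t n * p Q t (n + 1) := mul_pos (mul_pos pn pn) pn1
    linarith
  · rw [min_eq_right h] at htz
    rw [htz] at ec h
    have h1 : 0 ≤ q Q t (3 * (n + 1)) * q Q t (3 * n + 1) := mul_nonneg qn1.le h
    have h2 : 0 < p Q t n * p Q t (n + 1) * p Q t (n + 1) := mul_pos (mul_pos pn pn1) pn1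
    linarith

end

theorem main : GD.T_G2 → GD.H_mul → GD.T_G2p → GD.T_G2s → GD.T_G2a → GD.T_G2fin := by
  intro hOK hmul hp hs ha Q hQ k hk i
  have hv : ((G2.hv : ℤ) : ℝ) = 4 := by
    have : G2.hv = 4 := by
      unfold GD.hv
      rw [Fin.sum_univ_two]
      simp [G2]
    rw [this]
    norm_num
  have hk0 : (2 : ℝ) ≤ k := by exact_mod_cast hk
  have hpar : G2.par k = Real.pi / ((k : ℝ) + 4) := by
    unfold GD.par
    rw [hv]
  set d := G2.par k with hd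
  have hpi := Real.pi_pos
  have hd0 : 0 < d := by rw [hpar]; positivity
  have hdk : d * ((k : ℝ) + 4) = Real.pi := by
    rw [hpar]
    field_simp
  have hle : ∀ m : ℕ, m ≤ k → d * ((m : ℝ) + 4) ≤ Real.pi := by
    intro m hm
    rw [← hdk]
    have : (m : ℝ) ≤ k := by exact_mod_cast hm
    exact mul_le_mul_of_nonneg_left (by linarith) hd0.le
  have hd4 : d * 4 ≤ Real.pi := by
    have := hle 0 (Nat.zero_le _)
    simpa using this
  have pk : p Q d k = 1 := by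
    rw [p_eq Q hp hs hQ d hd0 hd4]
    exact ((ha d hd0 k (le_of_eq hdk)).2.2 hdk).1
  have pk1 : p Q d (k + 1) = 0 := by
    rw [p_eq Q hp hs hQ d hd0 hd4]
    exact ((ha d hd0 k (le_of_eq hdk)).2.2 hdk).2
  have qmid : ∀ n : ℕ, n < k → 0 < q Q d (3 * n + 1) ∧ 0 < q Q d (3 * n + 2) := by
    intro n hn
    apply mid Q hOK hmul ha hp hs hQ n d hd0
    have := hle (n + 1) hn
    push_cast at this
    exact this
  obtain ⟨k', rfl⟩ : ∃ k', k = k' + 1 := ⟨k - 1, by omega⟩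
  have q3k : q Q d (3 * (k' + 1)) = 1 := by
    have h1 := E1 Q hOK hmul hQ d hd0 hd4 k'
    have e : k' + 2 = k' + 1 + 1 := rfl
    rw [e, pk1, pk] at h1
    linarith
  have q3k1 : q Q d (3 * (k' + 1) + 1) = 0 := by
    have h1 := E0 Q hOK hmul hQ d hd0 hd4 (3 * k' + 2)
    have d1 : (3 * k' + 2 + 1) / 3 = k' + 1 := by omega
    have d2 : (3 * k' + 2 + 2) / 3 = k' + 1 := by omega
    have d3 : (3 * k' + 2 + 3) / 3 = k' + 1 := by omega
    have e1 : 3 * k' + 2 + 1 = 3 * (k' + 1) := by ring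
    have e2 : 3 * k' + 2 + 2 = 3 * (k' + 1) + 1 := by ring
    rw [d1, d2, d3, pk, e1, e2, q3k] at h1
    have h2 := (qmid k' (Nat.lt_succ_self _)).2
    have h3 : q Q d (3 * (k' + 1) + 1) * q Q d (3 * k' + 2) = 0 := by linarith
    exact (mul_eq_zero.1 h3).resolve_right h2.ne'
  have key : ∀ j : Fin 2, G2.QD Q (k' + 1) j := by
    intro j
    have hj : j = 0 ∨ j = 1 := by
      fin_cases j
      · exact Or.inl rfl
      · exact Or.inr rfl
    rcases hj with rfl | rfl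
    · have ht : (G2.t 0).toNat = 3 := by simp [G2]
      unfold GD.QD
      rw [ht]
      refine ⟨?_, q0 Q hOK hmul hQ d hd0 hd4, q3k, q3k1⟩
      intro m hm
      change 0 < q Q d m
      have h3 : m = 3 * (m / 3) ∨ m = 3 * (m / 3) + 1 ∨ m = 3 * (m / 3) + 2 := by omega
      have hlt : m / 3 ≤ k' + 1 := by omega
      rcases h3 with h | h | h
      · rw [h]
        exact q3_pos Q hOK hmul ha hp hs hQ d hd0 (m / 3) (hle _ hlt)
      · rw [h]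
        exact (qmid (m / 3) (by omega)).1
      · rw [h]
        exact (qmid (m / 3) (by omega)).2
    · have ht : (G2.t 1).toNat = 1 := by simp [G2]
      unfold GD.QD
      rw [ht, one_mul]
      refine ⟨?_, p0 Q hOK hmul hQ d hd0 hd4, pk, pk1⟩
      intro m hm
      exact p_pos Q ha hp hs hQ d hd0 m (hle m hm)
  exact key i

end H391.KR.P_tg2fin
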