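import Pool.Agent.H391.KR.PF

noncomputable section

namespace H391.KR.P_vab

open Finset H391.KR

/-! ### the group ring -/

section gr

variable {ι κ : Type}

theorem pair_apply (p : (ι → ℤ) → ℤ) (f : GR ι) : pair p f = f.coeff.sum fun x c => c * p x := by
  rfl

theorem pair_single (p : (ι → ℤ) → ℤ) (x : ι → ℤ) (c : ℤ) :
    pair p (AddMonoidAlgebra.single x c) = c * p x := by
  rw [pair_apply, AddMonoidAlgebra.coeff_single, Finsupp.sum_single_index (by simp)]

theorem pair_mul (p : (ι → ℤ) → ℤ) (f g : GR ι) : pair p (f * g) =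
    ∑ x ∈ f.coeff.support, ∑ y ∈ g.coeff.support, f.coeff x * g.coeff y * p (x + y) := by
  rw [AddMonoidAlgebra.mul_def, Finsupp.sum, map_sum]
  refine sum_congr rfl fun x _ => ?_
  rw [Finsupp.sum, map_sum]
  refine sum_congr rfl fun y _ => ?_
  rw [pair_single]

theorem coeff_ex_mul (x : ι → ℤ) (f : GR ι) (y : ι → ℤ) :
    (ex x * f).coeff y = f.coeff (y - x) := by
  unfold ex
  rw [AddMonoidAlgebra.coeff_single_mul_apply, one_mul]
  congr 1
  abel

theorem ex_mul_ex (x y : ι → ℤ) : ex x * ex y = ex (x + y) := by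
  unfold ex
  rw [AddMonoidAlgebra.single_mul_single, one_mul]

theorem ex_zero : (ex 0 : GR ι) = 1 := rfl

theorem push_ex (g : (ι → ℤ) →+ (κ → ℤ)) (x : ι → ℤ) : push g (ex x) = ex (g x) := by
  have h0 : push g (ex x) = AddMonoidAlgebra.mapDomain g (ex x) := rfl
  rw [h0]
  unfold ex
  rw [AddMonoidAlgebra.mapDomain_single]

theorem coeff_push (g : (ι → ℤ) →+ (κ → ℤ)) (hg : Function.Injective g) (f : GR ι) (x : ι → ℤ) :
    (push g f).coeff (g x) = f.coeff x := by
  have h0 : push g f = AddMonoidAlgebra.mapDomain g f := rfl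
  rw [h0, AddMonoidAlgebra.coeff_mapDomain, Finsupp.mapDomain_apply hg]

end gr

/-! ### roots -/

section roots

variable {n : ℕ} (S : SLC n)

theorem cv_add (a b : Fin n → ℤ) : S.cv (a + b) = S.cv a + S.cv b := by
  funext i
  simp only [SLC.cv, Pi.add_apply, mul_add, sum_add_distrib]

theorem cv_smul (c : ℤ) (a : Fin n → ℤ) : S.cv (c • a) = c • S.cv a := by
  funext i
  simp only [SLC.cv, Pi.smul_apply, smul_eq_mul, mul_sum]
  refine sum_congr rfl fun j _ => by ring

theorem cv_zero : S.cv 0 = 0 := by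
  have := cv_smul S 0 0
  rwa [zero_smul, zero_smul] at this

theorem cv_neg (a : Fin n → ℤ) : S.cv (-a) = - S.cv a := by
  have := cv_smul S (-1) a
  rwa [neg_one_smul, neg_one_smul] at this

theorem cv_om (i : Fin n) : S.cv (om i) = S.rtw i := by
  funext j
  unfold SLC.cv SLC.rtw om
  simp

theorem dot_om (i : Fin n) (x : Fin n → ℤ) : dot (om i) x = x i := by
  unfold dot om
  simp

theorem bf_om (i : Fin n) (a : Fin n → ℤ) : S.bf (om i) a = S.cv a i := by
  unfold SLC.bf
  rw [dot_om]

/-- reflection of a root -/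
def rf (i : Fin n) (a : Fin n → ℤ) : Fin n → ℤ := a - S.cv a i • om i

theorem cv_rf (i : Fin n) (a : Fin n → ℤ) : S.cv (rf S i a) = S.refl i (S.cv a) := by
  have h1 : rf S i a = a + (- S.cv a i) • om i := by
    unfold rf
    rw [neg_smul]
    rfl
  rw [h1, cv_add, cv_smul, cv_om]
  have h2 : S.refl i (S.cv a) = S.cv a - S.cv a i • S.rtw i := rfl
  rw [h2, neg_smul]
  rfl

theorem refl_self (i : Fin n) (x : Fin n → ℤ) : S.refl i x i = - x i := by
  have h : S.refl i x i = x i - x i * S.C i i := rfl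
  rw [h, S.diag i]
  ring

theorem refl_refl (i : Fin n) (x : Fin n → ℤ) : S.refl i (S.refl i x) = x := by
  have h : S.refl i (S.refl i x) = S.refl i x - S.refl i x i • S.rtw i := rfl
  have h2 : S.refl i x = x - x i • S.rtw i := rfl
  rw [h, refl_self, h2, neg_smul]
  abel

theorem refl_inj (i : Fin n) : Function.Injective (S.refl i) := by
  intro x y h
  rw [← refl_refl S i x, h, refl_refl]

theorem rf_rf (i : Fin n) (a : Fin n → ℤ) : rf S i (rf S i a) = a := by
  have h : rf S i (rf S i a) = rf S i a - S.cv (rf S i a) i • om i := rfl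
  have h2 : rf S i a = a - S.cv a i • om i := rfl
  rw [h, cv_rf, refl_self, h2, neg_smul]
  abel

variable (hf : SLC.C_facts)
include hf

theorem rf_mem (i : Fin n) {a : Fin n → ℤ} (ha : a ∈ S.posRoots) (hai : a ≠ om i) :
    rf S i a ∈ S.posRoots ∧ rf S i a ≠ om i := by
  obtain ⟨hf1, hf2, hf3, hf4, hf5, hf6, hf7, hf8, hf9, hf10⟩ := hf n S
  obtain ⟨ha1, ha2⟩ := ha
  have hroot : S.IsRoot (rf S i a) := by
    have := hf9 (om i) a (hf10 i) ha1
    rw [bf_om] at this
    exact this
  constructor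
  · refine ⟨hroot, ?_⟩
    -- a positive coefficient off `i`
    obtain ⟨k, hk, hak⟩ : ∃ k, k ≠ i ∧ 0 < a k := by
      by_contra hcon
      push Not at hcon
      have h1 : a = (a i) • om i := by
        funext k
        rw [Pi.smul_apply, smul_eq_mul]
        by_cases hk : k = i
        · rw [hk]
          simp [om]
        · have h2 := hcon k hk
          have h3 := ha2 k
          have h4 : om i k = 0 := by simp [om, hk]
          rw [h4, mul_zero]
          omega
      have h5 : S.bf a (om i) = 2 * a i := by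
        rw [hf1, bf_om]
        conv_lhs => rw [h1]
        rw [cv_smul, cv_om, Pi.smul_apply, smul_eq_mul]
        have : S.rtw i i = 2 := S.diag i
        rw [this]
        ring
      obtain ⟨-, h6, h7, -⟩ := hf4 a (om i) ha1 (hf10 i)
      have h8 : 0 < a i := by
        rcases lt_or_eq_of_le (ha2 i) with h | h
        · exact h
        · exfalso
          rw [← h, zero_smul] at h1
          have h9 : S.bf a a = 2 := ha1
          rw [h1] at h9
          unfold SLC.bf dot at h9
          simp at h9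
      exact hai (h7 (by omega))
    rcases hf3 _ hroot with h | h
    · exact h
    · exfalso
      have h1 := h k
      have h2 : rf S i a k = a k - S.cv a i * om i k := rfl
      have h3 : om i k = 0 := by simp [om, hk]
      rw [h2, h3, mul_zero] at h1
      omega
  · intro h
    have h1 : a = rf S i (om i) := by rw [← h, rf_rf]
    have h2 : a i = -1 := by
      rw [h1]
      have h3 : rf S i (om i) i = om i i - S.cv (om i) i * om i i := rfl
      have h4 : S.cv (om i) i = 2 := by rw [cv_om]; exact S.diag i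
      have h5 : (om i : Fin n → ℤ) i = 1 := by simp [om]
      rw [h3, h4, h5]
      ring
    have := ha2 i
    omega

theorem pos_finite : S.posRoots.Finite := by
  obtain ⟨hf1, hf2, hf3, hf4, hf5, hf6, hf7, hf8, hf9, hf10⟩ := hf n S
  exact hf5.subset fun a ha => ha.1

theorem om_mem (i : Fin n) : om i ∈ S.posRoots := by
  obtain ⟨hf1, hf2, hf3, hf4, hf5, hf6, hf7, hf8, hf9, hf10⟩ := hf n S
  refine ⟨hf10 i, fun j => ?_⟩
  unfold om
  split_ifs <;> norm_num

theorem push_delta (i : Fin n) : push (S.refl i) S.Delta = - (ex (S.rtw i) * S.Delta) := by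
  have hfin := pos_finite S hf
  have hD : S.Delta = ∏ a ∈ hfin.toFinset, (1 - ex (-(S.cv a))) := by
    unfold SLC.Delta
    rw [finprod_mem_eq_finite_toFinset_prod _ hfin]
  have hmem : om i ∈ hfin.toFinset := by
    rw [Set.Finite.mem_toFinset]
    exact om_mem S hf i
  have hrt : S.refl i (S.rtw i) = - S.rtw i := by
    have h2 : S.refl i (S.rtw i) = S.rtw i - S.rtw i i • S.rtw i := rfl
    have h3 : S.rtw i i = 2 := S.diag i
    rw [h2, h3, two_smul]
    abel
  rw [hD, ← mul_prod_erase _ _ hmem, map_mul]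
  have h1 : push (S.refl i) (∏ a ∈ hfin.toFinset.erase (om i), (1 - ex (-(S.cv a)))) =
      ∏ a ∈ hfin.toFinset.erase (om i), (1 - ex (-(S.cv a))) := by
    rw [map_prod]
    refine prod_nbij' (rf S i) (rf S i) ?_ ?_ ?_ ?_ ?_
    · intro a ha
      rw [mem_erase, Set.Finite.mem_toFinset] at ha ⊢
      have := rf_mem S hf i ha.2 ha.1
      exact ⟨this.2, this.1⟩
    · intro a ha
      rw [mem_erase, Set.Finite.mem_toFinset] at ha ⊢
      have := rf_mem S hf i ha.2 ha.1
      exact ⟨this.2, this.1⟩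
    · intro a _
      exact rf_rf S i a
    · intro a _
      exact rf_rf S i a
    · intro a _
      rw [map_sub, map_one, push_ex, map_neg, cv_rf]
  rw [h1, map_sub, map_one, push_ex, map_neg, cv_om, hrt, neg_neg, ← mul_assoc, ← neg_mul]
  congr 1
  rw [mul_sub, mul_one, ex_mul_ex, add_neg_cancel, ex_zero]
  ring

theorem delta_coeff (i : Fin n) (x : Fin n → ℤ) :
    S.Delta.coeff (x - (x i + 1) • S.rtw i) = - S.Delta.coeff x := by
  have h1 := coeff_push (S.refl i) (refl_inj S i) S.Delta x
  rw [push_delta S hf i, AddMonoidAlgebra.coeff_neg, Finsupp.neg_apply, coeff_ex_mul] at h1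
  have h2 : S.refl i x - S.rtw i = x - (x i + 1) • S.rtw i := by
    have h3 : S.refl i x = x - x i • S.rtw i := rfl
    rw [h3, add_smul, one_smul]
    abel
  rw [h2] at h1
  rw [← h1, neg_neg]

theorem prod_supp (A : Finset (Fin n → ℤ)) (hA : ∀ a ∈ A, a ∈ S.posRoots) :
    (∀ mu, (∏ a ∈ A, (1 - ex (-(S.cv a))) : GR (Fin n)).coeff mu ≠ 0 →
      ∃ g : Fin n → ℤ, (∀ i, 0 ≤ g i) ∧ mu = - S.cv g) ∧
    (∏ a ∈ A, (1 - ex (-(S.cv a))) : GR (Fin n)).coeff 0 = 1 := by
  classical
  obtain ⟨hf1, hf2, hf3, hf4, hf5, hf6, hf7, hf8, hf9, hf10⟩ := hf n S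
  induction A using Finset.induction_on with
  | empty =>
    rw [prod_empty, AddMonoidAlgebra.one_def]
    constructor
    · intro mu hmu
      rw [AddMonoidAlgebra.coeff_single, Finsupp.single_apply] at hmu
      have : (0 : Fin n → ℤ) = mu := by
        by_contra h
        rw [if_neg h] at hmu
        exact hmu rfl
      exact ⟨0, fun i => le_rfl, by rw [cv_zero, neg_zero, this]⟩
    · rw [AddMonoidAlgebra.coeff_single, Finsupp.single_eq_same]
  | insert a A haA ih =>
    obtain ⟨ih1, ih2⟩ := ih fun b hb => hA b (mem_insert_of_mem hb)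
    have ha := hA a (mem_insert_self _ _)
    rw [prod_insert haA]
    have hc : ∀ mu, ((1 - ex (-(S.cv a))) * ∏ a ∈ A, (1 - ex (-(S.cv a))) : GR (Fin n)).coeff mu =
        (∏ a ∈ A, (1 - ex (-(S.cv a))) : GR (Fin n)).coeff mu -
        (∏ a ∈ A, (1 - ex (-(S.cv a))) : GR (Fin n)).coeff (mu + S.cv a) := by
      intro mu
      rw [sub_mul, one_mul, AddMonoidAlgebra.coeff_sub, Finsupp.sub_apply, coeff_ex_mul, sub_neg_eq_add]
    constructor
    · intro mu hmu
      rw [hc] at hmu
      by_cases h1 : (∏ a ∈ A, (1 - ex (-(S.cv a))) : GR (Fin n)).coeff mu = 0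
      · have h2 : (∏ a ∈ A, (1 - ex (-(S.cv a))) : GR (Fin n)).coeff (mu + S.cv a) ≠ 0 := by
          intro h
          rw [h1, h, sub_zero] at hmu
          exact hmu rfl
        obtain ⟨g, hg, hmg⟩ := ih1 _ h2
        refine ⟨g + a, fun i => ?_, ?_⟩
        · have := hg i
          have := ha.2 i
          rw [Pi.add_apply]
          omega
        · rw [cv_add, neg_add, ← hmg]
          abel
      · exact ih1 _ h1
    · rw [hc, ih2]
      have h2 : (∏ a ∈ A, (1 - ex (-(S.cv a))) : GR (Fin n)).coeff (0 + S.cv a) = 0 := by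
        by_contra h
        obtain ⟨g, hg, hmg⟩ := ih1 _ h
        have h3 : S.cv a = S.cv (-g) := by
          rw [cv_neg, ← hmg, zero_add]
        have h4 := hf8 _ _ h3
        have h5 : a = 0 := by
          funext i
          have h6 := ha.2 i
          have h7 := hg i
          have h8 : a i = - g i := congrFun h4 i
          rw [Pi.zero_apply]
          omega
        have h9 : S.bf a a = 2 := ha.1
        rw [h5] at h9
        unfold SLC.bf dot at h9
        simp at h9
      rw [h2, sub_zero]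

theorem delta_supp : (∀ mu : Fin n → ℤ, (∀ i, 0 ≤ mu i) → S.Delta.coeff mu ≠ 0 → mu = 0) ∧
    S.Delta.coeff 0 = 1 := by
  have hfin := pos_finite S hf
  have hD : S.Delta = ∏ a ∈ hfin.toFinset, (1 - ex (-(S.cv a))) := by
    unfold SLC.Delta
    rw [finprod_mem_eq_finite_toFinset_prod _ hfin]
  obtain ⟨h1, h2⟩ := prod_supp S hf hfin.toFinset (fun a ha => (Set.Finite.mem_toFinset hfin).1 ha)
  rw [← hD] at h1 h2
  refine ⟨?_, h2⟩
  intro mu hmu hc
  obtain ⟨g, hg, hmg⟩ := h1 mu hc
  obtain ⟨hf1, hf2, hf3, hf4, hf5, hf6, hf7, hf8, hf9, hf10⟩ := hf n S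
  have h3 : S.bf g g ≤ 0 := by
    unfold SLC.bf dot
    refine sum_nonpos fun i _ => ?_
    have h4 : S.cv g i = - mu i := by
      rw [hmg]
      simp
    rw [h4]
    have := mul_nonneg (hg i) (hmu i)
    linarith
  have h5 : g = 0 := by
    by_contra h
    have := hf2 g h
    omega
  rw [hmg, h5, cv_zero, neg_zero]

end roots

/-! ### words -/

section words

variable {n : ℕ} {D : RDat (Fin n) (Fin n)}

theorem anti_sR {q : (Fin n → ℤ) → ℤ} (hq : ∀ j z, q (D.s j z) = - q z) (w : List (Fin n)) :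
    ∀ z, q (D.sR w z) = (-1) ^ w.length * q z := by
  induction w with
  | nil => intro z; simp [RDat.sR]
  | cons j w ih =>
    intro z
    have h1 : D.sR (j :: w) z = D.sR w (D.s j z) := rfl
    rw [h1, ih, hq, List.length_cons, pow_succ]
    ring

theorem inv_sR {q : (Fin n → ℤ) → ℤ} (hq : ∀ j z, q (D.s j z) = q z) (w : List (Fin n)) :
    ∀ z, q (D.sR w z) = q z := by
  induction w with
  | nil => intro z; rfl
  | cons j w ih =>
    intro z
    have h1 : D.sR (j :: w) z = D.sR w (D.s j z) := rfl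
    rw [h1, ih, hq]

theorem exists_word (hco : ∀ j x, D.co j x = x j) (hT : D.T = Set.univ) (hred : RDat.N_red)
    {q : (Fin n → ℤ) → ℤ} (hq : ∀ j z, q (D.s j z) = - q z) (z : Fin n → ℤ) (hz : q z ≠ 0) :
    ∃ w : List (Fin n), ∀ j, 1 ≤ D.sR w z j := by
  obtain ⟨⟨w, -, -, hw⟩, -⟩ := hred _ _ D Set.univ z (by rw [hT]; trivial)
  refine ⟨w, fun j => ?_⟩
  have h1 := hw j trivial
  rw [hco] at h1
  rcases lt_or_eq_of_le h1 with h | h
  · omega
  · exfalso
    have h2 : D.s j (D.sR w z) = D.sR w z := by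
      unfold RDat.s
      rw [hco, ← h, zero_smul, sub_zero]
    have h3 := hq j (D.sR w z)
    rw [h2] at h3
    have h4 : q (D.sR w z) = 0 := by omega
    rw [anti_sR hq] at h4
    rcases mul_eq_zero.1 h4 with h5 | h5
    · exact absurd h5 (pow_ne_zero _ (by norm_num))
    · exact hz h5

end words

theorem main : RDat.S_len → RDat.N_red → RDat.N_desc → RDat.N_del → SLC.C_facts → SLC.V_fin →
    SLC.V_AB := by
  classical
  intro _ hred hdesc hdel hf hfin n S f p hp
  obtain ⟨D, hco, hal, hT, hHD, -, -⟩ := hfin n S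
  obtain ⟨hd1, hd2, hd3, hd4, hd5, hd6, hd7, hd8, hd9, hd10, hd11⟩ := hdesc _ _ D
  obtain ⟨-, -, hdel3⟩ := hdel _ _ D _ hHD
  obtain ⟨hD1, hD2⟩ := delta_supp S hf
  have hs : ∀ j x, D.s j x = S.refl j x := by
    intro j x
    unfold RDat.s
    rw [hco, hal]
    rfl
  have hs' : ∀ j x, D.s j x = x - x j • S.rtw j := by
    intro j x
    rw [hs]
    rfl
  -- invariance
  have hfinv : ∀ j z, (f : GR (Fin n)).coeff (D.s j z) = (f : GR (Fin n)).coeff z := by
    intro j z
    have h1 : (f : GR (Fin n)) ∈ ⨅ i, (push (S.refl i)).eqLocus (RingHom.id (GR (Fin n))) := f.2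
    rw [Subring.mem_iInf] at h1
    have h2 : push (S.refl j) (f : GR (Fin n)) = (f : GR (Fin n)) := h1 j
    rw [hs]
    have h3 := coeff_push (S.refl j) (refl_inj S j) (f : GR (Fin n)) z
    rw [h2] at h3
    exact h3
  obtain ⟨P, hP⟩ : ∃ P : (Fin n → ℤ) → ℤ, P = fun z => p (z - 1) := ⟨_, rfl⟩
  have hPa : ∀ j z, P (D.s j z) = - P z := by
    intro j z
    rw [hP, hs']
    have h1 := hp (z - 1) j
    have h2 : z - 1 - ((z - 1) j + 1) • S.rtw j = z - z j • S.rtw j - 1 := by
      have h3 : (z - 1) j + 1 = z j := by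
        rw [Pi.sub_apply, Pi.one_apply]
        ring
      rw [h3]
      abel
    rw [h2] at h1
    exact h1
  obtain ⟨A, hA⟩ : ∃ A : (Fin n → ℤ) → ℤ, A = fun z => S.Delta.coeff (z - 1) := ⟨_, rfl⟩
  have hAa : ∀ j z, A (D.s j z) = - A z := by
    intro j z
    rw [hA, hs']
    have h1 := delta_coeff S hf j (z - 1)
    have h2 : z - 1 - ((z - 1) j + 1) • S.rtw j = z - z j • S.rtw j - 1 := by
      have h3 : (z - 1) j + 1 = z j := by
        rw [Pi.sub_apply, Pi.one_apply]
        ring
      rw [h3]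
      abel
    rw [h2] at h1
    exact h1
  have hA1 : A 1 = 1 := by
    rw [hA]
    have : (1 : Fin n → ℤ) - 1 = 0 := sub_self _
    simp only [this]
    exact hD2
  -- words for the support of Delta
  have hw : ∀ ka : Fin n → ℤ, ∃ w : List (Fin n), S.Delta.coeff ka ≠ 0 → D.sR w (ka + 1) = 1 := by
    intro ka
    by_cases hk : S.Delta.coeff ka = 0
    · exact ⟨[], fun h => absurd hk h⟩
    · have h1 : A (ka + 1) = S.Delta.coeff ka := by
        rw [hA]
        simp only [add_sub_cancel_right]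
      obtain ⟨w, hw⟩ := exists_word hco hT hred hAa (ka + 1) (by rw [h1]; exact hk)
      refine ⟨w, fun _ => ?_⟩
      have h2 : A (D.sR w (ka + 1)) ≠ 0 := by
        rw [anti_sR hAa, h1]
        exact mul_ne_zero (pow_ne_zero _ (by norm_num)) hk
      rw [hA] at h2
      have h3 := hD1 (D.sR w (ka + 1) - 1) (fun i => by
        rw [Pi.sub_apply, Pi.one_apply]
        have := hw i
        omega) h2
      exact sub_eq_zero.1 h3
  choose U hU using hw
  have hUsgn : ∀ ka, S.Delta.coeff ka ≠ 0 → S.Delta.coeff ka = (-1) ^ (U ka).length := by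
    intro ka hk
    have h1 : A (ka + 1) = S.Delta.coeff ka := by
      rw [hA]
      simp only [add_sub_cancel_right]
    have h2 := anti_sR hAa (U ka) (ka + 1)
    rw [hU ka hk, hA1, h1] at h2
    have h3 : ((-1 : ℤ) ^ (U ka).length) * (-1) ^ (U ka).length = 1 := by
      rw [← mul_pow]
      norm_num
    calc S.Delta.coeff ka = ((-1) ^ (U ka).length * (-1) ^ (U ka).length) * S.Delta.coeff ka := by
          rw [h3, one_mul]
      _ = (-1) ^ (U ka).length * ((-1) ^ (U ka).length * S.Delta.coeff ka) := by ring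
      _ = _ := by rw [← h2, mul_one]
  -- regularity
  have hreg : ∀ (w : List (Fin n)) (y : Fin n → ℤ), (∀ j, 1 ≤ y j) → (∀ j, 1 ≤ D.sR w y j) →
      ∀ x, D.sR w x = x := by
    intro w y hy hy'
    refine (hdel3 w y ?_ ?_).1
    · intro j
      rw [hco]
      have := hy j
      omega
    · intro j
      rw [hco]
      have := hy' j
      omega
  -- the left side
  have hL : ((f : GR (Fin n)) * S.Delta).coeff.sum (fun mu c => if ∀ i, 0 ≤ mu i then c * p mu else 0) =
      pair (fun mu => if ∀ i, 0 ≤ mu i then p mu else 0) ((f : GR (Fin n)) * S.Delta) := by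
    rw [pair_apply]
    refine Finsupp.sum_congr fun mu _ => ?_
    split_ifs
    · rfl
    · rw [mul_zero]
  rw [hL, pair_mul, ← sum_product', pair_apply, Finsupp.sum]
  refine sum_bij_ne_zero (fun a _ _ => D.sR (U a.2) a.1) ?_ ?_ ?_ ?_
  · intro a ha _
    rw [mem_product] at ha
    rw [Finsupp.mem_support_iff, inv_sR hfinv]
    exact Finsupp.mem_support_iff.1 ha.1
  · rintro ⟨mu, ka⟩ h1 h2 ⟨mu', ka'⟩ h1' h2' heq
    rw [mem_product, Finsupp.mem_support_iff, Finsupp.mem_support_iff] at h1 h1'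
    dsimp only at h1 h1' h2 h2' heq ⊢
    have hd : ∀ i, 0 ≤ (mu + ka) i := by
      by_contra h
      rw [if_neg h, mul_zero] at h2
      exact h2 rfl
    have hd' : ∀ i, 0 ≤ (mu' + ka') i := by
      by_contra h
      rw [if_neg h, mul_zero] at h2'
      exact h2' rfl
    have e1 : D.sR (U ka) (mu + (ka + 1)) = D.sR (U ka') (mu' + (ka' + 1)) := by
      rw [hd6 (U ka) mu (ka + 1), hd6 (U ka') mu' (ka' + 1), heq, hU ka h1.2, hU ka' h1'.2]
    have e2 : D.sR (U ka ++ (U ka').reverse) (mu + (ka + 1)) = mu' + (ka' + 1) := by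
      rw [hd9, e1, (hd5 _ _).1]
    have e3 := hreg (U ka ++ (U ka').reverse) (mu + (ka + 1)) (by
      intro j
      have := hd j
      simp only [Pi.add_apply, Pi.one_apply] at this ⊢
      omega) (by
      intro j
      rw [e2]
      have := hd' j
      simp only [Pi.add_apply, Pi.one_apply] at this ⊢
      omega)
    have e4 : mu' = mu := by
      have h3 := e3 mu
      rw [hd9, heq, (hd5 _ _).1] at h3
      exact h3
    have e5 : ka' + 1 = ka + 1 := by
      have h3 := e3 (ka + 1)
      rw [hd9, hU ka h1.2] at h3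
      have e6 : D.sR (U ka').reverse (D.sR (U ka') (ka' + 1)) = ka' + 1 := (hd5 _ _).1
      rw [hU ka' h1'.2] at e6
      exact e6.symm.trans h3
    rw [e4, add_right_cancel e5]
  · intro m hm hne
    rw [Finsupp.mem_support_iff] at hm
    have hpm : p m ≠ 0 := fun h => hne (by rw [h, mul_zero])
    have hPm : P (m + 1) ≠ 0 := by
      rw [hP]
      simp only [add_sub_cancel_right]
      exact hpm
    obtain ⟨v, hv⟩ := exists_word hco hT hred hPa (m + 1) hPm
    have hka : S.Delta.coeff (D.sR v 1 - 1) ≠ 0 := by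
      have h1 := anti_sR hAa v 1
      rw [hA1, mul_one] at h1
      rw [hA] at h1
      have h2 : S.Delta.coeff (D.sR v 1 - 1) = (-1) ^ v.length := h1
      rw [h2]
      exact pow_ne_zero _ (by norm_num)
    have hfm : (f : GR (Fin n)).coeff (D.sR v m) ≠ 0 := by
      rw [inv_sR hfinv]
      exact hm
    have hsum : D.sR v m + (D.sR v 1 - 1) = D.sR v (m + 1) - 1 := by
      rw [hd6]
      abel
    have hp' : p (D.sR v (m + 1) - 1) ≠ 0 := by
      have h1 := anti_sR hPa v (m + 1)
      have h2 : p (D.sR v (m + 1) - 1) = P (D.sR v (m + 1)) := by rw [hP]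
      rw [h2, h1]
      exact mul_ne_zero (pow_ne_zero _ (by norm_num)) hPm
    refine ⟨(D.sR v m, D.sR v 1 - 1), ?_, ?_, ?_⟩
    · rw [mem_product, Finsupp.mem_support_iff, Finsupp.mem_support_iff]
      exact ⟨hfm, hka⟩
    · dsimp only
      rw [hsum, if_pos]
      · exact mul_ne_zero (mul_ne_zero hfm hka) hp'
      · intro i
        rw [Pi.sub_apply, Pi.one_apply]
        have := hv i
        omega
    · dsimp only
      have h1 := hU _ hka
      rw [sub_add_cancel] at h1
      have h2 := hreg (v ++ U (D.sR v 1 - 1)) 1 (fun j => le_rfl) (by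
        intro j
        rw [hd9, h1]
        exact le_rfl) m
      rw [hd9] at h2
      exact h2
  · rintro ⟨mu, ka⟩ h1 h2
    rw [mem_product, Finsupp.mem_support_iff, Finsupp.mem_support_iff] at h1
    dsimp only at h1 h2 ⊢
    have hd : ∀ i, 0 ≤ (mu + ka) i := by
      by_contra h
      rw [if_neg h, mul_zero] at h2
      exact h2 rfl
    rw [if_pos hd, inv_sR hfinv]
    have e1 : p (D.sR (U ka) mu) = (-1) ^ (U ka).length * p (mu + ka) := by
      have h3 := anti_sR hPa (U ka) (mu + (ka + 1))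
      rw [hd6, hU ka h1.2, hP] at h3
      simp only at h3
      rw [add_sub_cancel_right, ← add_assoc, add_sub_cancel_right] at h3
      exact h3
    rw [e1, hUsgn ka h1.2]
    ring

end H391.KR.P_vab
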