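import Pool.Agent.H391.KR.PF

/-!
# The family of Kirillov-Reshetikhin characters
-/

noncomputable section

namespace H391.KR.P_vfam

open Finset H391.KR

variable {n : ℕ}

theorem aw0_inj : Function.Injective (aw0 : (Fin n → ℤ) →+ (Option (Fin n) → ℤ)) := by
  intro x y h
  funext i
  exact congrFun h (some i)

theorem push_coeff (f : GR (Fin n)) (mu : Fin n → ℤ) :
    (push aw0 f).coeff (aw 0 mu) = f.coeff mu :=
  Finsupp.mapDomain_apply aw0_inj f.coeff mu

theorem inv_sR {ι I : Type} (D : RDat ι I) (f : GR ι) (h : ∀ j, D.IsInv j f) :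
    ∀ (w : List I) (x : ι → ℤ), f.coeff (D.sR w x) = f.coeff x
  | [], _ => rfl
  | j :: w, x => by
    rw [RDat.sR, inv_sR D f h w (D.s j x)]
    exact h j x

theorem cv_st (S : SLC n) (st : Fin n ≃ Fin n) (hst : ∀ i j, S.C (st i) (st j) = S.C i j)
    (g : Fin n → ℤ) (k : Fin n) : S.cv (fun l => g (st l)) (st.symm k) = S.cv g k := by
  unfold SLC.cv
  rw [← Equiv.sum_comp st (fun l => S.C k l * g l)]
  refine Finset.sum_congr rfl fun l _ => ?_
  have := hst (st.symm k) l
  rw [Equiv.apply_symm_apply] at this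
  rw [this]

theorem om_st (st : Fin n ≃ Fin n) (i k : Fin n) : om (st.symm i) (st.symm k) = om i k := by
  unfold om
  simp only [EmbeddingLike.apply_eq_iff_eq]

theorem main : SLC.C_star → SLC.C_facts → SLC.C_F → SLC.C_sig → SLC.C_Q → SLC.V_mem →
    SLC.V_low → SLC.V_fam := by
  intro hstar _ hF hsig hQ hmem hlow n S D hD hOK
  obtain ⟨st, hst, hw⟩ := hstar n S D hD
  obtain ⟨hF1, -, -, -, -, -, hF7⟩ := hF n S D hD hOK
  obtain ⟨hm1, hm2, hm3⟩ := hmem n S D hD
  have hex : ∀ (i : Fin n) (m : ℕ), ∃ f : S.Rep, push aw0 (f : GR (Fin n)) = S.F D (st.symm i) m :=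
    fun i m => hm2 _ (hF1 _ _)
  choose Q hQdef using hex
  have hinj : ∀ f g : S.Rep, push aw0 (f : GR (Fin n)) = push aw0 (g : GR (Fin n)) → f = g :=
    fun f g h => Subtype.ext (hm3 _ _ h)
  -- coefficients
  have key : ∀ (i : Fin n) (m : ℕ) (nu : Fin n → ℤ),
      (S.F D i m).coeff (aw 0 (fun k => -nu (st.symm k))) = (S.F D i m).coeff (aw 0 nu) := by
    intro i m nu
    obtain ⟨c, -, -, hc⟩ := hw i
    have h1 := inv_sR D (S.F D i m) (hF1 i m).1 (some i :: c) (aw 0 nu)
    have h2 : D.sR (some i :: c) (aw 0 nu) = aw 0 (fun k => -nu (st.symm k)) := by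
      funext o
      cases o with
      | none => exact (hc (aw 0 nu)).1
      | some k =>
        have h3 := (hc (aw 0 nu)).2 (st.symm k)
        rw [Equiv.apply_symm_apply] at h3
        exact h3
    rw [← h2]
    exact h1
  have hco : ∀ (i : Fin n) (m : ℕ) (nu : Fin n → ℤ),
      (Q i m : GR (Fin n)).coeff (fun k => -nu (st.symm k)) =
        (S.F D (st.symm i) m).coeff (aw 0 nu) := by
    intro i m nu
    rw [← push_coeff, hQdef, key]
  have hmu : ∀ (i : Fin n) (m : ℤ) (g : Fin n → ℤ),
      (fun k => -(-(m • om (st.symm i)) + S.cv (fun l => g (st l))) (st.symm k)) =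
        m • om i - S.cv g := by
    intro i m g
    funext k
    simp only [Pi.add_apply, Pi.neg_apply, Pi.smul_apply, Pi.sub_apply, smul_eq_mul]
    rw [cv_st S st hst, om_st]
    ring
  refine ⟨st.symm, Q, ⟨?_, ?_, ?_, ?_, ?_⟩, hQdef⟩
  · intro i
    apply hinj
    rw [hQdef, hF7]
    simp
  · intro i m
    apply hinj
    obtain ⟨X⟩ := hsig n S D hD (st.symm i)
    have h := (hQ n S D hD hOK (st.symm i) X m).2
    have hprod : push aw0 (((∏ j, if S.C i j = -1 then Q j (m + 1) else 1 : S.Rep)) :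
        GR (Fin n)) = ∏ j, if S.C (st.symm i) j = -1 then S.F D j (m + 1) else 1 := by
      rw [← Equiv.prod_comp st]
      have : ((∏ j, if S.C i (st j) = -1 then Q (st j) (m + 1) else 1 : S.Rep) : GR (Fin n)) =
          ∏ j, ((if S.C i (st j) = -1 then Q (st j) (m + 1) else 1 : S.Rep) : GR (Fin n)) :=
        map_prod S.Rep.subtype _ _
      rw [this, map_prod]
      refine Finset.prod_congr rfl fun j _ => ?_
      have h3 := hst (st.symm i) j
      rw [Equiv.apply_symm_apply] at h3
      rw [h3]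
      split_ifs with h4
      · rw [hQdef, Equiv.symm_apply_apply]
      · simp
    rw [Subring.coe_pow, Subring.coe_add, Subring.coe_mul, map_pow, map_add, map_mul, hprod,
      hQdef, hQdef, hQdef, h]
    ring
  · intro i m
    have h1 := (hlow n S D hD hOK (st.symm i) m).2.1
    have h2 := hco i m (-((m : ℤ) • om (st.symm i)))
    rw [h1] at h2
    rw [← h2]
    congr 1
    have h3 := hmu i m 0
    funext k
    have h4 := congrFun h3 k
    simp only [Pi.add_apply, Pi.neg_apply, Pi.smul_apply, Pi.sub_apply, smul_eq_mul] at h4 ⊢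
    rw [om_st]
    ring
  · intro i m mu hmu0
    have h1 : mu = fun k => -(fun l => -mu (st l)) (st.symm k) := by
      funext k
      simp
    have h0 := hco i m (fun l => -mu (st l))
    rw [← h1] at h0
    rw [h0] at hmu0
    obtain ⟨g, hg⟩ := (hlow n S D hD hOK (st.symm i) m).1 _ hmu0
    refine ⟨fun k => g (st.symm k), ?_⟩
    rw [h1, ← hmu i m (fun j => ((g (st.symm j) : ℕ) : ℤ))]
    funext k
    have h2 := congrFun hg (st.symm k)
    simp only [Equiv.symm_apply_apply] at h2 ⊢
    rw [h2]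
  · intro i g
    refine ⟨(S.F D (st.symm i) (g i)).coeff (aw 0 (-(((g i : ℕ) : ℤ) • om (st.symm i)) +
      S.cv fun j => ((g (st j) : ℕ) : ℤ))), g i, ?_⟩
    intro m hm
    rw [← hmu i m (fun j => ((g j : ℕ) : ℤ)), hco]
    induction m, hm using Nat.le_induction with
    | base => rfl
    | succ m hm ih =>
      have h1 := (hlow n S D hD hOK (st.symm i) m).2.2 (fun j => g (st j)) (by
        simpa using hm)
      rw [← ih, ← h1]
      push_cast
      rfl

end H391.KR.P_vfam
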