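import Pool.Agent.H391.KR.PF

/-!
# The finite reflection datum
-/

noncomputable section

namespace H391.KR.P_vfin

open Finset H391.KR

variable {n : ℕ} (S : SLC n)

lemma cv_smul (c : ℤ) (a : Fin n → ℤ) : S.cv (c • a) = c • S.cv a := by
  funext i
  simp only [SLC.cv, Pi.smul_apply, smul_eq_mul, mul_sum]
  exact sum_congr rfl fun j _ => by ring

lemma cv_sub (a b : Fin n → ℤ) : S.cv (a - b) = S.cv a - S.cv b := by
  funext i
  simp [SLC.cv, mul_sub, sum_sub_distrib]

lemma dot_sub_left (a b mu : Fin n → ℤ) : dot (a - b) mu = dot a mu - dot b mu := by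
  simp [dot, sub_mul, sum_sub_distrib]

lemma dot_sub_right (a mu nu : Fin n → ℤ) : dot a (mu - nu) = dot a mu - dot a nu := by
  simp [dot, mul_sub, sum_sub_distrib]

lemma dot_neg_left (a mu : Fin n → ℤ) : dot (-a) mu = - dot a mu := by
  simp [dot]

lemma dot_smul_left (c : ℤ) (a mu : Fin n → ℤ) : dot (c • a) mu = c * dot a mu := by
  simp only [dot, Pi.smul_apply, smul_eq_mul, mul_sum]
  exact sum_congr rfl fun j _ => by ring

lemma dot_smul_right (c : ℤ) (a mu : Fin n → ℤ) : dot a (c • mu) = c * dot a mu := by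
  simp only [dot, Pi.smul_apply, smul_eq_mul, mul_sum]
  exact sum_congr rfl fun j _ => by ring

lemma dot_om_left (i : Fin n) (b : Fin n → ℤ) : dot (om i) b = b i := by
  simp only [dot, om]
  rw [sum_eq_single i]
  · simp
  · intro j _ hj
    simp [hj]
  · intro h
    exact absurd (mem_univ _) h

lemma dot_om_right (i : Fin n) (b : Fin n → ℤ) : dot b (om i) = b i := by
  simp only [dot, om]
  rw [sum_eq_single i]
  · simp
  · intro j _ hj
    simp [hj]
  · intro h
    exact absurd (mem_univ _) h

lemma cv_om (i : Fin n) : S.cv (om i) = S.rtw i := by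
  funext j
  simp only [SLC.cv, om, SLC.rtw]
  rw [sum_eq_single i]
  · simp
  · intro k _ hk
    simp [hk]
  · intro h
    exact absurd (mem_univ _) h

/-- reflection of a coroot -/
lemma refl_eq (b c x : Fin n → ℤ) :
    dot c (x - dot b x • S.cv b) = dot (c - S.bf c b • b) x := by
  rw [dot_sub_right, dot_smul_right, dot_sub_left, dot_smul_left]
  show _ - _ * S.bf c b = _
  ring

lemma root_ne_zero {a : Fin n → ℤ} (ha : S.IsRoot a) : a ≠ 0 := by
  rintro rfl
  have h1 : S.bf 0 0 = 2 := ha
  have h2 : S.bf 0 0 = 0 := by simp [SLC.bf, dot]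
  omega

/-- the finite reflection datum -/
def dat (hf : SLC.C_facts) (S : SLC n) : RDat (Fin n) (Fin n) where
  R := {a : Fin n → ℤ // a ∈ S.posRoots}
  ev a :=
    { toFun := fun x => dot a.1 x
      map_zero' := by simp [dot]
      map_add' := by intro x y; simp [dot, mul_add, sum_add_distrib] }
  rt a := S.cv a.1
  sim j := ⟨om j, (hf n S).2.2.2.2.2.2.2.2.2 j, fun i => by
    unfold om; split_ifs <;> norm_num⟩
  ev_rt b := b.2.1
  inj b c h := by
    apply Subtype.ext
    funext i
    have h1 := h (om i)
    change dot b.1 (om i) = dot c.1 (om i) at h1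
    rw [dot_om_right, dot_om_right] at h1
    exact h1
  pos b c h := by
    apply root_ne_zero S b.2.1
    funext i
    have h1 := h (om i)
    change dot b.1 (om i) = - dot c.1 (om i) at h1
    rw [dot_om_right, dot_om_right] at h1
    have h2 := b.2.2 i
    have h3 := c.2.2 i
    show b.1 i = 0
    omega
  perm j b hb := by
    obtain ⟨hsymm, -, hsign, -, -, -, -, -, hrefl, hom⟩ := hf n S
    have hbr : S.IsRoot b.1 := b.2.1
    have hk : ∃ k, k ≠ j ∧ 0 < b.1 k := by
      by_contra hcon
      push Not at hcon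
      have h1 : b.1 = b.1 j • om j := by
        funext k
        by_cases hkj : k = j
        · rw [hkj]; simp [om]
        · have h2 := hcon k hkj
          have h3 := b.2.2 k
          have h4 : b.1 k = 0 := by omega
          rw [h4]; simp [om, hkj]
      have h2 : S.bf b.1 b.1 = 2 := hbr
      have h3 : S.bf (om j) (om j) = 2 := hom j
      have h4 : S.bf b.1 b.1 = b.1 j * (b.1 j * 2) := by
        conv_lhs => rw [h1]
        rw [← h3]
        unfold SLC.bf
        rw [cv_smul, dot_smul_left, dot_smul_right]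
      rw [h2] at h4
      have h5 : b.1 j * b.1 j = 1 := by linarith
      have h6 : b.1 j = 1 := by
        have h7 := b.2.2 j
        nlinarith
      apply hb
      apply Subtype.ext
      rw [h1, h6, one_smul]
    obtain ⟨k, hkj, hkpos⟩ := hk
    have hc := hrefl (om j) b.1 (hom j) hbr
    have hck : (b.1 - S.bf (om j) b.1 • om j) k = b.1 k := by
      simp [om, hkj]
    have hcp : ∀ i, 0 ≤ (b.1 - S.bf (om j) b.1 • om j) i := by
      rcases hsign _ hc with h | h
      · exact h
      · exfalso
        have h1 := h k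
        omega
    refine ⟨⟨b.1 - S.bf (om j) b.1 • om j, hc, hcp⟩, ?_, ?_, ?_⟩
    · intro h
      have h1 := congrFun (congrArg Subtype.val h) k
      change (b.1 - S.bf (om j) b.1 • om j) k = om j k at h1
      rw [hck] at h1
      simp [om, hkj] at h1
      omega
    · intro x
      show dot (b.1 - S.bf (om j) b.1 • om j) x = dot b.1 (x - dot (om j) x • S.cv (om j))
      rw [refl_eq, hsymm b.1 (om j)]
    · show S.cv (b.1 - S.bf (om j) b.1 • om j) = S.cv b.1 - dot (om j) (S.cv b.1) • S.cv (om j)
      rw [cv_sub, cv_smul]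
      rfl
  dich b c := by
    obtain ⟨hsymm, -, hsign, -, -, -, -, -, hrefl, hom⟩ := hf n S
    have hc := hrefl b.1 c.1 b.2.1 c.2.1
    rw [hsymm b.1 c.1] at hc
    rcases hsign _ hc with h | h
    · left
      exact ⟨⟨_, hc, h⟩, fun x => (refl_eq S b.1 c.1 x).symm⟩
    · right
      refine ⟨?_, ⟨⟨-(c.1 - S.bf c.1 b.1 • b.1), ?_, ?_⟩, fun x => ?_⟩⟩
      · show 0 < S.bf c.1 b.1
        by_contra hcon
        push Not at hcon
        apply root_ne_zero S hc
        funext i
        have h1 := h i
        have h2 := c.2.2 i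
        have h3 := mul_nonneg (neg_nonneg.2 hcon) (b.2.2 i)
        simp only [Pi.sub_apply, Pi.smul_apply, smul_eq_mul, Pi.zero_apply] at h1 ⊢
        linarith
      · show S.bf _ _ = 2
        have h1 : S.bf _ _ = 2 := hc
        rw [← h1]
        set e := c.1 - S.bf c.1 b.1 • b.1 with he
        have h2 : S.cv (-e) = - S.cv e := by
          have := cv_sub S 0 e
          rw [zero_sub] at this
          rw [this]
          have h3 : S.cv 0 = 0 := by
            funext i; simp [SLC.cv]
          rw [h3, zero_sub]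
        unfold SLC.bf
        rw [h2]
        simp [dot]
      · intro i
        have h1 := h i
        simp only [Pi.neg_apply]
        omega
      · show dot (-(c.1 - S.bf c.1 b.1 • b.1)) x = - dot c.1 (x - dot b.1 x • S.cv b.1)
        rw [dot_neg_left, refl_eq]
  T := Set.univ
  T_refl _ _ _ := Set.mem_univ _
  fin x _ := by
    have h1 : S.posRoots.Finite := (hf n S).2.2.2.2.1.subset fun a ha => ha.1
    haveI : Finite {a : Fin n → ℤ // a ∈ S.posRoots} := h1
    exact Set.toFinite _

theorem main : SLC.C_facts → SLC.V_fin := by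
  intro hf n S
  refine ⟨dat hf S, ?_, ?_, rfl, ?_, ?_, ?_⟩
  · intro j x
    exact dot_om_left j x
  · intro j
    exact cv_om S j
  · refine ⟨?_, ?_, ?_, Set.mem_univ _⟩
    · intro x hx b
      show 0 ≤ dot b.1 x
      refine sum_nonneg fun i _ => mul_nonneg (b.2.2 i) ?_
      have h1 := hx i
      have h2 : (dat hf S).co i x = x i := dot_om_left i x
      rwa [h2] at h1
    · intro j
      exact dot_om_left j _
    · intro b
      show 1 ≤ dot b.1 (fun _ => 1)
      have h1 : dot b.1 (fun _ => 1) = ∑ i, b.1 i := by simp [dot]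
      rw [h1]
      by_contra hcon
      have h2 : ∑ i, b.1 i = 0 := by
        have h3 : 0 ≤ ∑ i, b.1 i := sum_nonneg fun i _ => b.2.2 i
        omega
      apply root_ne_zero S b.2.1
      funext i
      exact (sum_eq_zero_iff_of_nonneg fun i _ => b.2.2 i).1 h2 i (mem_univ _)
  · intro b
    exact ⟨b.1, b.2, fun x => rfl, rfl⟩
  · intro a ha
    exact ⟨⟨a, ha⟩, fun x => rfl, rfl⟩

end H391.KR.P_vfin
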