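import Pool.Agent.H391.KR.PF

/-!
# Supports (lowest weights) and stabilisation (task KR-vlow)
-/

set_option autoImplicit false

noncomputable section

namespace H391.KR.P_vlow

open Finset H391.KR

section basic

variable {n : ℕ} (S : SLC n)

lemma cv_add (a b : Fin n → ℤ) : S.cv (a + b) = S.cv a + S.cv b := by
  funext i
  simp only [SLC.cv, Pi.add_apply, mul_add, Finset.sum_add_distrib]

lemma cv_smul (c : ℤ) (a : Fin n → ℤ) : S.cv (c • a) = c • S.cv a := by
  funext i
  simp only [SLC.cv, Pi.smul_apply, smul_eq_mul, Finset.mul_sum]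
  exact Finset.sum_congr rfl fun j _ => by ring

lemma cv_zero : S.cv 0 = 0 := by
  funext i
  simp [SLC.cv]

lemma cv_neg (a : Fin n → ℤ) : S.cv (-a) = -S.cv a := by
  have := cv_smul S (-1) a
  simpa using this

lemma cv_sub (a b : Fin n → ℤ) : S.cv (a - b) = S.cv a - S.cv b := by
  rw [sub_eq_add_neg, cv_add, cv_neg, ← sub_eq_add_neg]

lemma cv_om (i j : Fin n) : S.cv (om j) i = S.C i j := by
  simp [SLC.cv, om]

lemma dot_add_right (a x y : Fin n → ℤ) : dot a (x + y) = dot a x + dot a y := by
  simp only [dot, Pi.add_apply, mul_add, Finset.sum_add_distrib]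

lemma dot_smul_right (c : ℤ) (a x : Fin n → ℤ) : dot a (c • x) = c * dot a x := by
  simp only [dot, Pi.smul_apply, smul_eq_mul, Finset.mul_sum]
  exact Finset.sum_congr rfl fun j _ => by ring

lemma dot_neg_right (a x : Fin n → ℤ) : dot a (-x) = -dot a x := by
  simp only [dot, Pi.neg_apply, mul_neg, Finset.sum_neg_distrib]

lemma dot_sub_right (a x y : Fin n → ℤ) : dot a (x - y) = dot a x - dot a y := by
  rw [sub_eq_add_neg, dot_add_right, dot_neg_right, ← sub_eq_add_neg]

lemma dot_add_left (a b x : Fin n → ℤ) : dot (a + b) x = dot a x + dot b x := by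
  simp only [dot, Pi.add_apply, add_mul, Finset.sum_add_distrib]

lemma dot_smul_left (c : ℤ) (a x : Fin n → ℤ) : dot (c • a) x = c * dot a x := by
  simp only [dot, Pi.smul_apply, smul_eq_mul, Finset.mul_sum]
  exact Finset.sum_congr rfl fun j _ => by ring

lemma dot_neg_left (a x : Fin n → ℤ) : dot (-a) x = -dot a x := by
  simp only [dot, Pi.neg_apply, neg_mul, Finset.sum_neg_distrib]

lemma dot_sub_left (a b x : Fin n → ℤ) : dot (a - b) x = dot a x - dot b x := by
  rw [sub_eq_add_neg, dot_add_left, dot_neg_left, ← sub_eq_add_neg]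

lemma dot_om_left (i : Fin n) (x : Fin n → ℤ) : dot (om i) x = x i := by
  simp [dot, om]

lemma dot_om_right (i : Fin n) (a : Fin n → ℤ) : dot a (om i) = a i := by
  simp [dot, om]

lemma fp_aw (l : ℤ) (x : Fin n → ℤ) : fp (aw l x) = x := rfl

lemma aw_none (l : ℤ) (x : Fin n → ℤ) : aw l x none = l := rfl

lemma aw_add (a b : ℤ) (x y : Fin n → ℤ) : aw a x + aw b y = aw (a + b) (x + y) := by
  funext o
  cases o <;> rfl

lemma aw_sub (a b : ℤ) (x y : Fin n → ℤ) : aw a x - aw b y = aw (a - b) (x - y) := by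
  funext o
  cases o <;> rfl

lemma aw_smul (c a : ℤ) (x : Fin n → ℤ) : c • aw a x = aw (c * a) (c • x) := by
  funext o
  cases o <;> rfl

lemma aw_inj {l l' : ℤ} {x y : Fin n → ℤ} (h : aw l x = aw l' y) : x = y :=
  funext fun i => congrFun h (some i)

/-- finite reflection -/
def sf (a mu : Fin n → ℤ) : Fin n → ℤ := mu - dot a mu • S.cv a

/-- conjugation of a reflection by a simple one -/
lemma sf_conj (hsym : ∀ a b, S.bf a b = S.bf b a) (a mu : Fin n → ℤ) (j : Fin n) :
    sf S (om j) (sf S (a - S.cv a j • om j) (sf S (om j) mu)) = sf S a mu := by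
  have h2 : S.C j j = 2 := S.diag j
  have h3 : dot a (S.cv (om j)) = S.cv a j := by
    have := hsym a (om j)
    rw [SLC.bf, SLC.bf, dot_om_left] at this
    exact this
  unfold sf
  simp only [cv_sub, cv_smul, dot_om_left, dot_sub_left, dot_smul_left, dot_sub_right,
    dot_smul_right, cv_om, h2, h3]
  funext k
  simp only [Pi.sub_apply, Pi.smul_apply, smul_eq_mul, cv_om]
  ring

end basic

section main

variable {n : ℕ} {S : SLC n} {D : RDat (Option (Fin n)) (Option (Fin n))}

lemma xi_T (hD : S.AffDat D) (i : Fin n) : xi i ∈ D.T := by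
  rw [hD.T]
  show (1 : ℤ) ≤ 1
  exact le_refl _

lemma xi_eq (i : Fin n) : (xi i : Option (Fin n) → ℤ) = aw 1 (-om i + S.cv 0) := by
  rw [cv_zero, add_zero]
  rfl

/-- the form of the weights below `xi i`, and the inequality -/
lemma form (hsym : ∀ a b, S.bf a b = S.bf b a) (hD : S.AffDat D) (i : Fin n)
    (y : Option (Fin n) → ℤ) (h : D.Le y (xi i)) :
    ∃ g, y = aw 1 (-om i + S.cv g) ∧ S.bf g g ≤ 2 * g i := by
  unfold RDat.Le RDat.Rel at h
  induction h with
  | refl => exact ⟨0, xi_eq i, by simp [SLC.bf, dot]⟩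
  | tail hz hstep ih =>
    rename_i z y
    obtain ⟨b, hneg, hy, -, -⟩ := hstep
    obtain ⟨g, hzg, hg⟩ := ih
    obtain ⟨a, m, hpos, hev, hrt⟩ := hD.ev b
    set c : ℤ := - D.ev b z with hc
    have hc0 : 0 < c := by omega
    have e1 : D.ev b z = -a i + S.bf a g + m := by
      rw [hev, hzg, fp_aw, aw_none, dot_add_right, dot_neg_right, dot_om_right, mul_one]
      rfl
    have hm : 0 ≤ m := by
      rcases hpos.2 with h | h
      · omega
      · omega
    refine ⟨g + c • a, ?_, ?_⟩
    · have e2 : y = z + c • D.rt b := by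
        rw [hy, hc, neg_smul]
        rfl
      rw [e2, hzg, hrt, aw_smul, aw_add, cv_add, cv_smul, add_assoc]
      simp
    · have e3 : S.bf (g + c • a) (g + c • a) = S.bf g g + 2 * c * S.bf a g + 2 * c ^ 2 := by
        have h1 : S.bf g a = S.bf a g := hsym _ _
        have h2 : S.bf a a = 2 := hpos.1
        unfold SLC.bf at h1 h2 ⊢
        rw [cv_add, cv_smul, dot_add_left, dot_add_right, dot_add_right, dot_smul_left,
          dot_smul_left, dot_smul_right, dot_smul_right, h1, h2]
        ring
      rw [e3]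
      simp only [Pi.add_apply, Pi.smul_apply, smul_eq_mul]
      have e4 : S.bf a g = a i - m - c := by omega
      rw [e4]
      nlinarith [mul_nonneg hc0.le hm]

/-- the lower set of `xi i` is stable under finite reflections -/
lemma stab (hbru : RDat.S_bru) (hcf : SLC.C_facts) (hD : S.AffDat D) (i : Fin n) :
    ∀ (N : ℕ) (a : Fin n → ℤ), S.IsRoot a → (∀ j, 0 ≤ a j) → ∑ j, a j ≤ N →
      ∀ mu, D.Le (aw 1 mu) (xi i) → D.Le (aw 1 (sf S a mu)) (xi i) := by
  obtain ⟨hsym, -, hsign, -, -, -, -, -, hrefl, hom⟩ := hcf n S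
  have simple : ∀ (j : Fin n) mu, D.Le (aw 1 mu) (xi i) →
      D.Le (aw 1 (sf S (om j) mu)) (xi i) := by
    intro j mu hmu
    have h1 : D.co (some j) (xi i) ≤ 0 := by
      rw [hD.cof]
      show (-om i) j ≤ 0
      simp only [om, Pi.neg_apply]
      split_ifs <;> simp
    have h2 := (hbru _ _ D (xi i) (aw 1 mu) (xi_T hD i) hmu (some j)).1 h1
    have h3 : D.s (some j) (aw 1 mu) = aw 1 (sf S (om j) mu) := by
      unfold RDat.s sf
      rw [hD.cof, hD.alf, aw_smul, aw_sub, dot_om_left]
      have h4 : (fun i => S.C i j) = S.cv (om j) := by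
        funext k
        rw [cv_om]
      rw [h4]
      simp [aw]
    rwa [h3] at h2
  intro N
  induction N with
  | zero =>
    intro a ha ha0 hs
    exfalso
    have h1 : ∑ j, a j = 0 := le_antisymm (by exact_mod_cast hs) (Finset.sum_nonneg fun j _ => ha0 j)
    have h2 := (Finset.sum_eq_zero_iff_of_nonneg fun j _ => ha0 j).1 h1
    have h3 : a = 0 := funext fun j => h2 j (Finset.mem_univ _)
    unfold SLC.IsRoot SLC.bf at ha
    rw [h3] at ha
    simp [dot] at ha
  | succ N ih =>
    intro a ha ha0 hs mu hmu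
    by_cases hex : ∃ j, a = om j
    · obtain ⟨j, rfl⟩ := hex
      exact simple j mu hmu
    · obtain ⟨j, hj⟩ : ∃ j, 0 < a j * S.cv a j := by
        by_contra hcon
        push Not at hcon
        have h1 : ∑ j, a j * S.cv a j ≤ 0 := Finset.sum_nonpos fun j _ => hcon j
        have h2 : ∑ j, a j * S.cv a j = 2 := ha
        omega
      have hcj : 0 < S.cv a j := by
        by_contra hcon
        push Not at hcon
        have := mul_nonpos_of_nonneg_of_nonpos (ha0 j) hcon
        omega
      have hajp : 0 < a j := by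
        rcases (ha0 j).lt_or_eq with h | h
        · exact h
        · rw [← h, zero_mul] at hj
          exact absurd hj (lt_irrefl _)
      have hr : S.IsRoot (a - S.cv a j • om j) := by
        have h1 := hrefl (om j) a (hom j) ha
        have h2 : S.bf (om j) a = S.cv a j := by
          unfold SLC.bf
          rw [dot_om_left]
        rwa [h2] at h1
      have hp : ∀ k, 0 ≤ (a - S.cv a j • om j) k := by
        rcases hsign _ hr with h | h
        · exact h
        · exfalso
          have h1 : ∀ k, k ≠ j → a k = 0 := by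
            intro k hk
            have h2 := h k
            simp only [Pi.sub_apply, Pi.smul_apply, smul_eq_mul, om, if_neg hk, mul_zero,
              sub_zero] at h2
            exact le_antisymm h2 (ha0 k)
          have h3 : a = a j • om j := by
            funext k
            by_cases hk : k = j
            · subst hk
              simp [om]
            · simp [om, hk, h1 k hk]
          have h4 : S.bf a a = 2 := ha
          rw [h3] at h4
          unfold SLC.bf at h4
          rw [cv_smul, dot_smul_left, dot_smul_right, dot_om_left, cv_om, S.diag] at h4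
          have h5 : a j * a j = 1 := by linarith
          have h6 : a j = 1 := by nlinarith
          apply hex
          refine ⟨j, ?_⟩
          rw [h3, h6, one_smul]
      have hs' : ∑ k, (a - S.cv a j • om j) k ≤ N := by
        have h1 : ∑ k, (a - S.cv a j • om j) k = ∑ k, a k - S.cv a j := by
          simp only [Pi.sub_apply, Pi.smul_apply, smul_eq_mul, Finset.sum_sub_distrib, om]
          simp
        rw [h1]
        push_cast at hs
        omega
      rw [← sf_conj S hsym a mu j]
      exact simple j _ (ih _ hr hp hs' _ (simple j mu hmu))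

/-- the weights below `xi i` have nonnegative coordinates -/
lemma nonneg (hrf : RDat.S_refl) (hcg : RDat.S_cong) (hbru : RDat.S_bru) (hcf : SLC.C_facts)
    (hD : S.AffDat D) (i : Fin n) : ∀ (N : ℕ) (g : Fin n → ℤ),
      D.Le (aw 1 (-om i + S.cv g)) (xi i) →
      D.len (xi i) ≤ D.len (aw 1 (-om i + S.cv g)) + N → ∀ j, 0 ≤ g j := by
  obtain ⟨hsym, -, hsign, -, -, -, -, hinj, -, -⟩ := hcf n S
  have hneg : ∀ a, S.IsRoot a → S.IsRoot (-a) := by
    intro a ha
    unfold SLC.IsRoot SLC.bf at ha ⊢
    rw [cv_neg, dot_neg_left, dot_neg_right, neg_neg, ha]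
  intro N
  induction N with
  | zero =>
    intro g hle hlen
    rcases Relation.ReflTransGen.cases_tail hle with h | ⟨z, hz, b, -, -, hl, -⟩
    · have h1 : g = 0 := by
        apply hinj
        rw [xi_eq (S := S)] at h
        exact add_left_cancel (aw_inj h)
      intro j
      rw [h1]
      rfl
    · exfalso
      have h1 := (hcg _ _ D 1 0 (xi i) z (xi_T hD i) hz).2.1
      omega
  | succ N ih =>
    intro g hle hlen
    rcases Relation.ReflTransGen.cases_tail hle with h | ⟨z, hz, b, hbneg, hy, hl, -⟩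
    · have h1 : g = 0 := by
        apply hinj
        rw [xi_eq (S := S)] at h
        exact add_left_cancel (aw_inj h)
      intro j
      rw [h1]
      rfl
    · obtain ⟨gz, hzg, -⟩ := form hsym hD i z hz
      obtain ⟨a, m, hpos, hev, hrt⟩ := hD.ev b
      have hzT : z ∈ D.T := (hcg _ _ D 1 0 (xi i) z (xi_T hD i) hz).1
      set d : ℤ := dot a (-om i + S.cv gz) with hd
      have e1 : D.ev b z = d + m := by
        rw [hev, hzg, fp_aw, aw_none, mul_one]
      have e2 : g = gz - (d + m) • a := by
        apply hinj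
        rw [e1, hrt, hzg, aw_smul, aw_sub] at hy
        have h1 := aw_inj hy
        rw [cv_sub, cv_smul]
        have h2 : -om i + S.cv gz - (d + m) • S.cv a = -om i + (S.cv gz - (d + m) • S.cv a) := by
          abel
        rw [h2] at h1
        exact add_left_cancel h1
      rw [e1] at hbneg
      by_cases ha : ∀ j, 0 ≤ a j
      · have h1 := ih gz (by rw [← hzg]; exact hz) (by rw [← hzg]; omega)
        intro j
        rw [e2]
        simp only [Pi.sub_apply, Pi.smul_apply, smul_eq_mul]
        have h2 := mul_nonneg (show 0 ≤ -(d + m) by omega) (ha j)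
        have h3 := h1 j
        linarith
      · have hm : 1 ≤ m := by
          rcases hpos.2 with h | h
          · exact h
          · exact absurd h.2 ha
        have ha' : ∀ j, a j ≤ 0 := (hsign a hpos.1).resolve_left ha
        have hna : ∀ j, 0 ≤ (-a) j := fun j => by
          have := ha' j
          simp only [Pi.neg_apply]
          omega
        have hzle : D.Le (aw 1 (-om i + S.cv gz)) (xi i) := by
          rw [← hzg]
          exact hz
        have h1 := stab hbru hcf hD i (∑ j, (-a) j).toNat (-a) (hneg a hpos.1) hna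
          (Int.self_le_toNat _) _ hzle
        have e3 : sf S (-a) (-om i + S.cv gz) = -om i + S.cv (gz - d • a) := by
          unfold sf
          rw [dot_neg_left, cv_neg, ← hd, cv_sub, cv_smul, neg_smul, smul_neg, neg_neg]
          abel
        rw [e3] at h1
        obtain ⟨b', hb'1, hb'2⟩ := hD.exi (-a) 0 ⟨hneg a hpos.1, Or.inr ⟨rfl, hna⟩⟩
        have hz'T : aw 1 (-om i + S.cv (gz - d • a)) ∈ D.T :=
          (hcg _ _ D 1 0 (xi i) _ (xi_T hD i) h1).1
        have haa : dot a (S.cv a) = 2 := hpos.1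
        have e4 : D.ev b' (aw 1 (-om i + S.cv (gz - d • a))) = d := by
          rw [hb'1, fp_aw, dot_neg_left, cv_sub, cv_smul, zero_mul, add_zero]
          have h2 : -om i + (S.cv gz - d • S.cv a) = (-om i + S.cv gz) - d • S.cv a := by abel
          rw [h2, dot_sub_right, dot_smul_right, ← hd, haa]
          ring
        have h2 := hrf _ _ D _ hz'T b' (by rw [e4]; omega)
        have e5 : aw 1 (-om i + S.cv (gz - d • a)) -
            D.ev b' (aw 1 (-om i + S.cv (gz - d • a))) • D.rt b' = z := by
          rw [e4, hb'2, aw_smul, aw_sub, hzg, cv_neg, cv_sub, cv_smul, mul_zero, sub_zero]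
          congr 1
          rw [smul_neg]
          abel
        rw [e5] at h2
        have h3 := ih _ h1 (by omega)
        intro j
        have h4 := h3 j
        rw [e2]
        simp only [Pi.sub_apply, Pi.smul_apply, smul_eq_mul] at h4 ⊢
        have h5 := mul_nonneg (show 0 ≤ m by omega) (hna j)
        simp only [Pi.neg_apply] at h5
        linarith

lemma clos (hD : S.AffDat D) (x : Option (Fin n) → ℤ)
    (hx : x ∈ AddSubgroup.closure (Set.range D.al)) : ∃ g, x = aw 0 (S.cv g) := by
  induction hx using AddSubgroup.closure_induction with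
  | mem x hx =>
    obtain ⟨j, rfl⟩ := hx
    cases j with
    | none =>
      refine ⟨-S.th, ?_⟩
      rw [hD.al0, cv_neg]
      rfl
    | some j =>
      refine ⟨om j, ?_⟩
      rw [hD.alf]
      congr 1
      funext k
      rw [cv_om]
  | zero => exact ⟨0, by rw [cv_zero]; funext o; cases o <;> rfl⟩
  | add x y _ _ hx hy =>
    obtain ⟨g, rfl⟩ := hx
    obtain ⟨g', rfl⟩ := hy
    exact ⟨g + g', by rw [aw_add, cv_add, add_zero]⟩
  | neg x _ hx =>
    obtain ⟨g, rfl⟩ := hx
    refine ⟨-g, ?_⟩
    rw [cv_neg]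
    funext o
    cases o <;> rfl

lemma sum_aw (i : Fin n) (G : ℕ → Fin n → ℤ) (N : ℕ) :
    ∑ l ∈ range N, (aw 1 (-om i + S.cv (G l)) : Option (Fin n) → ℤ) =
      aw N (-((N : ℤ) • om i) + S.cv (∑ l ∈ range N, G l)) := by
  induction N with
  | zero =>
    simp only [Finset.range_zero, Finset.sum_empty, cv_zero, Nat.cast_zero, zero_smul, neg_zero,
      add_zero]
    funext o
    cases o <;> rfl
  | succ N ih =>
    rw [Finset.sum_range_succ, Finset.sum_range_succ, ih, aw_add, cv_add]
    congr 1
    push_cast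
    rw [add_smul, one_smul]
    abel

/-- the support of a Demazure character -/
lemma supp (hcg : RDat.S_cong) (hcf : SLC.C_facts) (hD : S.AffDat D) (hOK : D.DemOK) (i : Fin n)
    (x : Option (Fin n) → ℤ) (hx : D.Le x (xi i)) (m : ℕ) (mu : Option (Fin n) → ℤ)
    (hmu : (D.Dem x m).coeff mu ≠ 0) :
    ∃ (g : Fin n → ℤ) (M : ℕ) (G : ℕ → Fin n → ℤ), 0 < M ∧
      mu = aw m (-((m : ℤ) • om i) + S.cv g) ∧
      (∀ l, l < m * M → D.Le (aw 1 (-om i + S.cv (G l))) x) ∧
      (M : ℤ) • g = ∑ l ∈ range (m * M), G l := by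
  obtain ⟨hsym, -, -, -, -, -, -, hinj, -, -⟩ := hcf n S
  have hxT : x ∈ D.T := (hcg _ _ D 1 0 (xi i) x (xi_T hD i) hx).1
  obtain ⟨gx, hgx, -⟩ := form hsym hD i x hx
  obtain ⟨M, y, hM, hy, hsum⟩ := hOK.d6 x hxT m mu hmu
  obtain ⟨g0, hg0⟩ := clos hD _ (hOK.d8 x hxT m mu hmu)
  have hG : ∀ l, ∃ g, l < m * M → y l = aw 1 (-om i + S.cv g) := by
    intro l
    by_cases hl : l < m * M
    · have h1 : D.Le (y l) (xi i) := Relation.ReflTransGen.trans hx (hy l hl)
      obtain ⟨g, hg, -⟩ := form hsym hD i _ h1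
      exact ⟨g, fun _ => hg⟩
    · exact ⟨0, fun h => absurd h hl⟩
  choose G hG using hG
  have hmu' : mu = aw m (-((m : ℤ) • om i) + S.cv ((m : ℤ) • gx + g0)) := by
    have h1 : mu = (m : ℤ) • x + aw 0 (S.cv g0) := by
      rw [← hg0]
      abel
    rw [h1, hgx, aw_smul, aw_add, mul_one, add_zero, cv_add, cv_smul, smul_add, smul_neg, add_assoc]
  refine ⟨(m : ℤ) • gx + g0, M, G, hM, hmu', ?_, ?_⟩
  · intro l hl
    rw [← hG l hl]
    exact hy l hl
  · apply hinj
    have h1 : ∑ l ∈ range (m * M), y l = ∑ l ∈ range (m * M),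
        (aw 1 (-om i + S.cv (G l)) : Option (Fin n) → ℤ) :=
      Finset.sum_congr rfl fun l hl => hG l (Finset.mem_range.1 hl)
    rw [h1, sum_aw, hmu', aw_smul] at hsum
    have h2 := aw_inj hsum
    rw [smul_add, smul_neg, smul_smul, ← cv_smul] at h2
    push_cast at h2
    rw [mul_comm (M : ℤ)] at h2
    exact add_left_cancel h2

lemma coeffF (i : Fin n) (m : ℕ) (mu : Fin n → ℤ) :
    (S.F D i m).coeff (aw 0 mu) = (D.Dem (xi i) m).coeff (aw m mu) := by
  have h1 : (aw 0 mu : Option (Fin n) → ℤ) = aw (-(m : ℤ)) 0 + aw m mu := by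
    rw [aw_add, neg_add_cancel, zero_add]
  unfold SLC.F ex
  rw [h1, AddMonoidAlgebra.coeff_single_mul_add, one_mul]

end main

theorem main : RDat.S_len → RDat.S_refl → RDat.S_cong → RDat.S_bru → SLC.C_facts → SLC.C_F →
    SLC.V_low := by
  intro hlen hrf hcg hbru hcf hCF n S D hD hOK i m
  obtain ⟨hsym, hge2, -, -, -, -, -, hinj, -, -⟩ := hcf n S
  obtain ⟨-, -, -, -, f5, -, f0⟩ := hCF n S D hD hOK
  have hnn : ∀ g, D.Le (aw 1 (-om i + S.cv g)) (xi i) → ∀ j, 0 ≤ g j := fun g hg =>
    nonneg hrf hcg hbru hcf hD i (D.len (xi i)) g hg (Nat.le_add_left _ _)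
  -- support of the Demazure characters of `xi i`
  have hsupp : ∀ (m : ℕ) (g : Fin n → ℤ),
      (D.Dem (xi i) m).coeff (aw m (-((m : ℤ) • om i) + S.cv g)) ≠ 0 → ∀ j, 0 ≤ g j := by
    intro m g hg j
    obtain ⟨g', M, G, hM, h1, h2, h3⟩ := supp hcg hcf hD hOK i (xi i)
      Relation.ReflTransGen.refl m _ hg
    have h4 : g = g' := hinj _ _ (add_left_cancel (aw_inj h1))
    have h5 : 0 ≤ ∑ l ∈ range (m * M), G l j :=
      Finset.sum_nonneg fun l hl => hnn _ (h2 l (Finset.mem_range.1 hl)) j
    have h6 := congrFun h3 j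
    rw [Finset.sum_apply, Pi.smul_apply, smul_eq_mul] at h6
    rw [← h6] at h5
    rw [h4]
    exact nonneg_of_mul_nonneg_right h5 (by exact_mod_cast hM)
  have hmu_form : ∀ (m : ℕ) (mu : Fin n → ℤ), (D.Dem (xi i) m).coeff (aw m mu) ≠ 0 →
      ∃ g : Fin n → ℤ, mu = -((m : ℤ) • om i) + S.cv g := by
    intro m mu hmu
    obtain ⟨g', M, G, hM, h1, h2, h3⟩ := supp hcg hcf hD hOK i (xi i)
      Relation.ReflTransGen.refl m _ hmu
    exact ⟨g', aw_inj h1⟩
  -- the smaller Demazure character does not contribute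
  have hco : D.co (some i) (xi i) < 0 := by
    rw [hD.cof]
    show (-om i) i < 0
    simp [om]
  have hle : D.Le (D.s (some i) (xi i)) (xi i) :=
    (hbru _ _ D (xi i) (xi i) (xi_T hD i) Relation.ReflTransGen.refl (some i)).2.2 hco
  have hll : D.len (D.s (some i) (xi i)) + 1 = D.len (xi i) :=
    (hlen _ _ D (xi i) (xi_T hD i) (some i)).1 hco
  have hsT : D.s (some i) (xi i) ∈ D.T := (hlen _ _ D (xi i) (xi_T hD i) (some i)).2.2.2.1
  have hsmall : ∀ (m : ℕ) (g : Fin n → ℤ), g i ≤ m →
      (D.Dem (D.s (some i) (xi i)) (m + 1)).coeff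
        (aw ((m + 1 : ℕ) : ℤ) (-(((m + 1 : ℕ) : ℤ) • om i) + S.cv g)) = 0 := by
    intro m g hgm
    by_contra hne
    obtain ⟨g', M, G, hM, h1, h2, h3⟩ := supp hcg hcf hD hOK i _ hle (m + 1) _ hne
    have h4 : g = g' := hinj _ _ (add_left_cancel (aw_inj h1))
    have h5 : ∀ l ∈ range ((m + 1) * M), 1 ≤ G l i := by
      intro l hl
      have h6 := h2 l (Finset.mem_range.1 hl)
      have h7 : D.Le (aw 1 (-om i + S.cv (G l))) (xi i) := Relation.ReflTransGen.trans hle h6
      obtain ⟨g1, hg1, hg2⟩ := form hsym hD i _ h7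
      have h8 : G l = g1 := hinj _ _ (add_left_cancel (aw_inj hg1))
      have h9 := (hcg _ _ D 1 0 _ _ hsT h6).2.1
      have h10 : g1 ≠ 0 := by
        intro h0
        rw [h8, h0, ← xi_eq (S := S)] at h9
        omega
      have h11 := hge2 g1 h10
      rw [h8]
      omega
    have h6 : (((m + 1) * M : ℕ) : ℤ) ≤ ∑ l ∈ range ((m + 1) * M), G l i := by
      have := Finset.sum_le_sum h5
      simpa using this
    have h7 := congrFun h3 i
    rw [Finset.sum_apply, Pi.smul_apply, smul_eq_mul] at h7
    rw [← h7, ← h4] at h6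
    have hM' : (0 : ℤ) < M := by exact_mod_cast hM
    push_cast at h6
    nlinarith
  have hstep : ∀ (m : ℕ) (g : Fin n → ℤ), g i ≤ m →
      (S.F D i (m + 1)).coeff (aw 0 (-(((m : ℤ) + 1) • om i) + S.cv g)) =
      (S.F D i m).coeff (aw 0 (-((m : ℤ) • om i) + S.cv g)) := by
    intro m g hg
    have h1 := hsmall m g hg
    rw [coeffF, coeffF, f5 i m, AddMonoidAlgebra.coeff_add, Finsupp.add_apply]
    push_cast at h1 ⊢
    rw [h1, zero_add]
    have h2 : (aw ((m : ℤ) + 1) (-(((m : ℤ) + 1) • om i) + S.cv g) : Option (Fin n) → ℤ) =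
        xi i + aw m (-((m : ℤ) • om i) + S.cv g) := by
      unfold xi
      rw [aw_add, add_comm (1 : ℤ)]
      congr 1
      rw [add_smul, one_smul]
      abel
    unfold ex
    rw [h2, AddMonoidAlgebra.coeff_single_mul_add, one_mul]
  refine ⟨?_, ?_, ?_⟩
  · intro mu hmu
    rw [coeffF] at hmu
    obtain ⟨g, rfl⟩ := hmu_form m mu hmu
    have h1 := hsupp m g hmu
    refine ⟨fun j => (g j).toNat, ?_⟩
    have h2 : (fun j => (((g j).toNat : ℕ) : ℤ)) = g := funext fun j => Int.toNat_of_nonneg (h1 j)
    rw [h2]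
  · have h1 : ∀ m : ℕ, (S.F D i m).coeff (aw 0 (-((m : ℤ) • om i))) = 1 := by
      intro m
      induction m with
      | zero =>
        rw [f0]
        simp only [Nat.cast_zero, zero_smul, neg_zero]
        have : (aw 0 0 : Option (Fin n) → ℤ) = 0 := by
          funext o
          cases o <;> rfl
        rw [this]
        exact AddMonoidAlgebra.coeff_one_zero
      | succ m ih =>
        have h2 := hstep m 0 (by simp)
        rw [cv_zero, add_zero, add_zero, ih] at h2
        push_cast
        exact h2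
    exact h1 m
  · intro g hg
    exact hstep m (fun j => (g j : ℤ)) (by exact_mod_cast hg)

end H391.KR.P_vlow
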