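import Pool.Agent.H391.KR.PF

/-!
# Assembly of V_main1 (H391/KR, task KR-vmain1)
-/

noncomputable section

namespace H391.KR.P_vmain1

open Finset

/-- the unit element is invariant and of level zero -/
theorem inv0_one {n : ℕ} (D : RDat (Option (Fin n)) (Option (Fin n))) :
    SLC.Inv0 D (1 : GR (Option (Fin n))) := by
  classical
  have hc : ∀ x : Option (Fin n) → ℤ,
      (1 : GR (Option (Fin n))).coeff x = if x = 0 then 1 else 0 := by
    intro x
    rw [AddMonoidAlgebra.one_def]
    simp [AddMonoidAlgebra.coeff_single, Finsupp.single_apply, eq_comm]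
  refine ⟨?_, ?_⟩
  · intro j x
    have h : D.s j x = 0 ↔ x = 0 := by
      constructor
      · intro h
        have h1 : D.ev (D.sim j) (D.s j x) = 0 := by rw [h]; exact map_zero _
        have h2 : D.ev (D.sim j) (D.s j x) = - D.ev (D.sim j) x := by
          simp only [RDat.s, RDat.co, RDat.al, map_sub, map_zsmul, D.ev_rt, smul_eq_mul]
          ring
        have h3 : D.co j x = 0 := by
          have : D.ev (D.sim j) x = 0 := by linarith
          exact this
        simpa [RDat.s, h3] using h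
      · rintro rfl
        simp [RDat.s, RDat.co]
    rw [hc, hc]
    by_cases hx : x = 0
    · rw [if_pos hx, if_pos (h.2 hx)]
    · rw [if_neg hx, if_neg (fun h' => hx (h.1 h'))]
  · intro x hx
    rw [hc] at hx
    by_cases h0 : x = 0
    · rw [h0]; rfl
    · rw [if_neg h0] at hx; exact absurd rfl hx

theorem main : SLC.C_dat → SLC.C_hd → RDat.N_dem → RDat.N_link → SLC.V_pik → SLC.V_ring →
    SLC.V_ver → SLC.V_fam → SLC.V_uniq → SLC.V_main1 := by
  intro hdat hhd hdem hlink hpik hring hver hfam huniq n S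
  obtain ⟨D, hD⟩ := hdat n S
  have hrho := hhd n S D hD
  have hOK : D.DemOK := hdem _ _ D S.rho hrho
  obtain ⟨st, Q0, hQ0, hpush⟩ := hfam n S D hD hOK
  refine ⟨⟨Q0, hQ0, fun Q hQ => huniq n S Q Q0 hQ hQ0⟩, ?_⟩
  intro k hk
  refine ⟨hring n S k, ?_⟩
  intro Q hQ V _ R i
  obtain rfl : Q = Q0 := huniq n S Q Q0 hQ hQ0
  obtain ⟨-, halc, hpiK⟩ := hpik n S D hD k
  have key : ∀ (f : S.Rep) (la : S.alc k), R.b.repr (R.pi f) la =
      pair (D.pf (aw k la)) (ex (aw k 0) * push aw0 (f : GR (Fin n))) := fun f la => by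
    rw [R.pi_eq, hpiK f la la.2]
  obtain ⟨hv1, -, hv3, hv4⟩ := hver n S D hD hOK (st i)
  have hanti : ∀ la : S.alc k, D.Anti (D.pf (aw k la)) := fun la =>
    ((hlink _ _ D S.rho hrho).1 _ ((halc la).1 la.2)).1
  refine ⟨?_, ?_, ?_, ?_⟩
  · intro m hm
    obtain ⟨h1, la, hla, h2⟩ := hv1 k m hm
    refine ⟨?_, ?_⟩
    · intro la
      rw [key, hpush]
      exact h1 _ ((halc la).1 la.2)
    · intro h0
      apply h2
      have h3 := key (Q i m) ⟨la, hla⟩
      rw [h0, hpush] at h3
      rw [← h3]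
      simp
  · rw [hQ.zero i, map_one]
    exact isUnit_one
  · obtain ⟨N, hN, h3⟩ := hv3 k
    have h4 : R.pi (Q i k ^ N) = R.pi 1 := by
      apply R.b.repr.injective
      ext la
      rw [key, key]
      have h5 := h3 _ (hanti la) 1 (inv0_one D)
      rw [one_mul, one_mul, ← hpush] at h5
      rw [SubmonoidClass.coe_pow, map_pow, h5]
      simp
    rw [map_pow, map_one] at h4
    exact IsUnit.of_pow_eq_one h4 hN.ne'
  · apply R.b.repr.injective
    ext la
    rw [key, hpush]
    have h5 := hv4 k hk _ (hanti la) 1 (inv0_one D)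
    rw [one_mul] at h5
    rw [h5]
    simp

end H391.KR.P_vmain1

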