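import Pool.Agent.H391.KR.PF

/-!
# KR: the values of the quantum dimension
-/

noncomputable section

namespace H391.KR.P_vmain2

open Finset H391.KR

theorem pair_ex {ι : Type} (p : (ι → ℤ) → ℤ) (x : ι → ℤ) : pair p (ex x) = p x := by
  unfold pair ex
  simp

theorem sR_none {n : ℕ} {S : SLC n} {D : RDat (Option (Fin n)) (Option (Fin n))}
    (hD : S.AffDat D) : ∀ (w : List (Option (Fin n))) (x : Option (Fin n) → ℤ),
    (D.sR w x) none = x none := by
  have hal : ∀ j, (D.al j) none = 0 := by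
    intro j
    rcases j with _ | j
    · rw [hD.al0]; rfl
    · rw [hD.alf j]; rfl
  intro w
  induction w with
  | nil => intro x; rfl
  | cons j w ih =>
    intro x
    show (D.sR w (D.s j x)) none = x none
    rw [ih]
    show x none - (D.co j x • D.al j) none = x none
    rw [Pi.smul_apply, hal, smul_zero, sub_zero]

theorem main : SLC.C_dat → SLC.C_hd → SLC.C_sig → RDat.N_dem → RDat.N_link → RDat.N_tw →
    SLC.V_pik → SLC.V_mem → SLC.V_exp → SLC.V_ver → SLC.V_fam → SLC.V_uniq → SLC.V_sin →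
    SLC.V_qsg → SLC.V_qexp → SLC.V_main2 := by
  intro cdat chd csig ndem nlink ntw vpik vmem vexp vver vfam vuniq vsin vqsg vqexp
  intro n S Q hQ k hk i
  obtain ⟨D, hD⟩ := cdat n S
  have hHD := chd n S D hD
  have hdem : D.DemOK := ndem _ _ D S.rho hHD
  obtain ⟨st, Q', hQ', hF'⟩ := vfam n S D hD hdem
  have hQQ : Q = Q' := vuniq n S Q Q' hQ hQ'
  rw [← hQQ] at hF'
  obtain ⟨hfin, -⟩ := vexp n S D hD k
  obtain ⟨A, hA⟩ : ∃ A : Finset (Fin n → ℤ), ∀ la, la ∈ A ↔ la ∈ S.alc k :=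
    ⟨hfin.toFinset, fun la => hfin.mem_toFinset⟩
  obtain ⟨-, hq⟩ := vqexp n S k A hA
  obtain ⟨-, hdom, hpik⟩ := vpik n S D hD k
  obtain ⟨hl1, -, -, -⟩ := nlink _ _ D S.rho hHD
  obtain ⟨hs1, hs2, hpos, hone⟩ := vsin n S k
  obtain ⟨v1, v2, -, v4⟩ := vver n S D hD hdem (st i)
  have hpi : ∀ m, ∀ la ∈ S.alc k, S.piK k (Q i m) la =
      pair (D.pf (aw k la)) (ex (aw k 0) * S.F D (st i) m) := by
    intro m la hla
    rw [hpik (Q i m) la hla, hF']
  have hInv1 : SLC.Inv0 D (1 : GR (Option (Fin n))) := by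
    have h := (vmem n S D hD).1 1
    rwa [OneMemClass.coe_one, map_one] at h
  have h0alc : (0 : Fin n → ℤ) ∈ S.alc k := by
    refine ⟨fun i => le_rfl, ?_⟩
    have : dot S.th (0 : Fin n → ℤ) = 0 := by
      unfold dot
      simp
    rw [this]
    exact_mod_cast Nat.zero_le k
  -- sums with a delta
  have hdelta : ∀ f : GR (Fin n), ∀ mu0 ∈ S.alc k,
      (∀ la ∈ S.alc k, S.piK k f la = D.pf (aw k la) (aw k mu0)) →
      S.qdim k f = S.qd k mu0 := by
    intro f mu0 hmu0 hf
    rw [hq f, Finset.sum_eq_single mu0]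
    · rw [hf mu0 hmu0, (hl1 _ ((hdom mu0).1 hmu0)).2.1, Int.cast_one, one_mul]
    · intro la hla hne
      have hla' := (hA la).1 hla
      have hne' : (aw (k : ℤ) mu0) ≠ aw k la := by
        intro h
        apply hne
        funext j
        exact (congrFun h (some j)).symm
      rw [hf la hla', (hl1 _ ((hdom la).1 hla')).2.2 _ ((hdom mu0).1 hmu0) hne', Int.cast_zero,
        zero_mul]
    · intro h
      exact absurd ((hA mu0).2 hmu0) h
  refine ⟨?_, ?_, ?_, ?_⟩
  · intro m hm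
    obtain ⟨w1, la0, hla0, hne⟩ := v1 k m hm
    rw [hq]
    have hnn : ∀ la ∈ A, 0 ≤ (S.piK k (Q i m) la : ℝ) * S.qd k la := by
      intro la hla
      have hla' := (hA la).1 hla
      refine mul_nonneg ?_ (hpos la hla').le
      rw [hpi m la hla']
      exact_mod_cast w1 _ ((hdom la).1 hla')
    refine lt_of_lt_of_le ?_ (Finset.single_le_sum hnn ((hA la0).2 hla0))
    refine mul_pos ?_ (hpos la0 hla0)
    rw [hpi m la0 hla0]
    have h5 : 0 < pair (D.pf (aw k la0)) (ex (aw k 0) * S.F D (st i) m) :=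
      lt_of_le_of_ne (w1 _ ((hdom la0).1 hla0)) (Ne.symm hne)
    exact_mod_cast h5
  · rw [hdelta (Q i 0) 0 h0alc, hone]
    intro la hla
    rw [hpik (Q i 0) la hla, hQ.zero i, OneMemClass.coe_one, map_one, mul_one, pair_ex]
  · obtain ⟨X⟩ := csig n S D hD (st i)
    obtain ⟨t1, -, -, -, -, -, -⟩ := ntw _ _ D S.rho hHD hdem X.sg X.ta X.tw
    have hlev : (X.sg (aw k 0)) none = k := by
      rw [X.eq, sR_none hD]
      rfl
    have haw : X.sg (aw k 0) = aw k (fp (X.sg (aw k 0))) := by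
      funext o
      rcases o with _ | j
      · exact hlev
      · rfl
    have hDX : D.Dom (aw k (fp (X.sg (aw k 0)))) := by
      rw [← haw]
      exact (t1 _).1 ((hdom 0).1 h0alc)
    have hmem : fp (X.sg (aw k 0)) ∈ S.alc k := (hdom _).2 hDX
    rw [hdelta (Q i k) _ hmem]
    · exact vqsg n S D hD (st i) X k
    · intro la hla
      have h6 := v2 X k (D.pf (aw k la)) (hl1 _ ((hdom la).1 hla)).1 1 hInv1
      rw [one_mul, one_mul, pair_ex] at h6
      rw [hpi k la hla, h6, ← haw]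
  · rw [hq]
    refine Finset.sum_eq_zero fun la hla => ?_
    have hla' := (hA la).1 hla
    have h7 := v4 k hk (D.pf (aw k la)) (hl1 _ ((hdom la).1 hla')).1 1 hInv1
    rw [one_mul] at h7
    rw [hpi (k + 1) la hla', h7, Int.cast_zero, zero_mul]

end H391.KR.P_vmain2
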