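import Pool.Agent.H391.KR.PF

/-!
# KR-vqexp: expansion of quantum dimensions over the alcove
-/

noncomputable section

namespace H391.KR.P_vqexp

open Finset

/-- signs of linkage are units -/
theorem lk_sign {n : ℕ} (S : SLC n) {k : ℕ} {e : ℤ} {mu nu : Fin n → ℤ} (h : S.Lk k e mu nu) :
    e = 1 ∨ e = -1 := by
  induction h with
  | refl nu => exact Or.inl rfl
  | fin e mu nu i _ ih => rcases ih with h | h <;> simp [h]
  | aff e mu nu _ ih => rcases ih with h | h <;> simp [h]

/-- a linked pair has nonzero sign -/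
theorem sgn_ne {n : ℕ} (S : SLC n) {k : ℕ} {e : ℤ} {mu nu : Fin n → ℤ} (h : S.Lk k e mu nu) :
    S.sgn k mu nu ≠ 0 := by
  unfold SLC.sgn
  rcases lk_sign S h with h1 | h1
  · subst h1
    rw [if_pos h]
    exact one_ne_zero
  · subst h1
    by_cases h2 : S.Lk k 1 mu nu
    · rw [if_pos h2]; exact one_ne_zero
    · rw [if_neg h2, if_pos h]; decide

/-- nonzero signs come from linkage -/
theorem sgn_lk {n : ℕ} (S : SLC n) {k : ℕ} {mu nu : Fin n → ℤ} (h : S.sgn k mu nu ≠ 0) :
    S.Lk k (S.sgn k mu nu) mu nu := by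
  unfold SLC.sgn at h ⊢
  by_cases h1 : S.Lk k 1 mu nu
  · rw [if_pos h1]; exact h1
  · by_cases h2 : S.Lk k (-1) mu nu
    · rw [if_neg h1, if_pos h2]; exact h2
    · rw [if_neg h1, if_neg h2] at h
      exact absurd rfl h

/-- nonzero values of the antisymmetric function come from linkage -/
theorem pf_link {ι I : Type} (D : RDat ι I) {lam mu : ι → ℤ} (h : D.pf lam mu ≠ 0) :
    ∃ e, D.Link e mu lam := by
  unfold RDat.pf at h
  by_cases h1 : D.Link 1 mu lam
  · exact ⟨_, h1⟩
  · by_cases h2 : D.Link (-1) mu lam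
    · exact ⟨_, h2⟩
    · rw [if_neg h1, if_neg h2] at h
      exact absurd rfl h

/-- quantum dimensions of linked weights -/
theorem lk_qd (hs : SLC.V_sin) {n : ℕ} (S : SLC n) {k : ℕ} {e : ℤ} {mu nu : Fin n → ℤ}
    (h : S.Lk k e mu nu) : S.qd k mu = (e : ℝ) * S.qd k nu := by
  obtain ⟨h1, h2, -, -⟩ := hs n S k
  induction h with
  | refl nu => simp
  | fin e mu nu i _ ih => rw [h1, ih]; push_cast; ring
  | aff e mu nu _ ih => rw [h2, ih]; push_cast; ring

theorem aw_fp {n : ℕ} (x : Option (Fin n) → ℤ) : aw (x none) (fp x) = x := by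
  funext o
  cases o <;> rfl

theorem aw_inj {n : ℕ} {l : ℤ} {a b : Fin n → ℤ} (h : aw l a = aw l b) : a = b := by
  funext i
  have := congrFun h (some i)
  exact this

/-- simple reflections are involutions -/
theorem s_s {ι I : Type} (D : RDat ι I) (j : I) (x : ι → ℤ) : D.s j (D.s j x) = x := by
  have h : D.co j (D.s j x) = - D.co j x := by
    unfold RDat.s RDat.co RDat.al
    rw [map_sub, map_zsmul, D.ev_rt]
    simp only [smul_eq_mul]
    ring
  have h2 : D.s j (D.s j x) = D.s j x - D.co j (D.s j x) • D.al j := rfl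
  rw [h2, h]
  unfold RDat.s
  simp

/-- shifted finite part -/
def sh {n : ℕ} (x : Option (Fin n) → ℤ) : Fin n → ℤ := fun i => x (some i) - 1

variable {n : ℕ} {S : SLC n} {D : RDat (Option (Fin n)) (Option (Fin n))}

theorem s_none (hD : S.AffDat D) (j : Option (Fin n)) (x : Option (Fin n) → ℤ) :
    (D.s j x) none = x none := by
  unfold RDat.s
  cases j with
  | none => rw [hD.al0]; simp [aw]
  | some i => rw [hD.alf]; simp [aw]

theorem sh_some (hD : S.AffDat D) (i : Fin n) (x : Option (Fin n) → ℤ) :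
    sh (D.s (some i) x) = sh x - (sh x i + 1) • S.rtw i := by
  funext l
  unfold RDat.s sh SLC.rtw
  rw [hD.alf, hD.cof]
  simp only [Pi.sub_apply, Pi.smul_apply, smul_eq_mul, aw, Option.elim]
  ring

theorem sh_none (hD : S.AffDat D) (k : ℕ) (x : Option (Fin n) → ℤ)
    (hx : x none = k + (1 + ∑ i, S.th i)) :
    sh (D.s none x) = sh x - (dot S.th (sh x) - k - 1) • S.cv S.th := by
  have h1 : dot S.th (sh x) = dot S.th (fp x) - ∑ i, S.th i := by
    unfold dot sh fp
    rw [← Finset.sum_sub_distrib]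
    exact Finset.sum_congr rfl fun i _ => by ring
  funext l
  rw [h1]
  unfold RDat.s sh
  rw [hD.al0, hD.co0, hx]
  simp only [Pi.sub_apply, Pi.smul_apply, smul_eq_mul, aw, Option.elim]
  ring

/-- quantum dimension changes sign under a reflection of the shifted weight -/
theorem qd_s (hs : SLC.V_sin) (hD : S.AffDat D) (k : ℕ) (j : Option (Fin n))
    (x : Option (Fin n) → ℤ) (hx : x none = k + (1 + ∑ i, S.th i)) :
    S.qd k (sh (D.s j x)) = - S.qd k (sh x) := by
  obtain ⟨h1, h2, -, -⟩ := hs n S k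
  cases j with
  | none => rw [sh_none hD k x hx]; exact h2 _
  | some i => rw [sh_some hD i x]; exact h1 _ _

/-- linkage through a reflection of the shifted weight -/
theorem lk_s (hD : S.AffDat D) (k : ℕ) (j : Option (Fin n))
    (x : Option (Fin n) → ℤ) (hx : x none = k + (1 + ∑ i, S.th i)) {e : ℤ} {nu : Fin n → ℤ}
    (h : S.Lk k e (sh x) nu) : S.Lk k (-e) (sh (D.s j x)) nu := by
  cases j with
  | none => rw [sh_none hD k x hx]; exact SLC.Lk.aff _ _ _ h
  | some i => rw [sh_some hD i x]; exact SLC.Lk.fin _ _ _ _ h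

/-- a word links a shifted weight with its image -/
theorem word_lk (hD : S.AffDat D) (k : ℕ) (w : List (Option (Fin n))) :
    ∀ x : Option (Fin n) → ℤ, x none = k + (1 + ∑ i, S.th i) →
      (D.sR w x) none = k + (1 + ∑ i, S.th i) ∧ ∃ e, S.Lk k e (sh x) (sh (D.sR w x)) := by
  induction w with
  | nil => intro x hx; exact ⟨hx, 1, SLC.Lk.refl _⟩
  | cons j w ih =>
    intro x hx
    have hx' : (D.s j x) none = k + (1 + ∑ i, S.th i) := by rw [s_none hD]; exact hx
    obtain ⟨h1, e, h2⟩ := ih (D.s j x) hx'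
    refine ⟨h1, -e, ?_⟩
    have h3 := lk_s hD k j (D.s j x) hx' h2
    rw [s_s] at h3
    exact h3

/-- every weight is linked to the alcove, or has quantum dimension zero -/
theorem dicho (hr : RDat.N_red) (hs : SLC.V_sin) (hD : S.AffDat D) (k : ℕ) (mu : Fin n → ℤ)
    (hth : 0 ≤ ∑ i, S.th i) :
    S.qd k mu = 0 ∨ ∃ la ∈ S.alc k, ∃ e, S.Lk k e mu la := by
  obtain ⟨x, hx, hmu⟩ : ∃ x : Option (Fin n) → ℤ, x none = k + (1 + ∑ i, S.th i) ∧
      sh x = mu := ⟨aw (k + (1 + ∑ i, S.th i)) (mu + 1), rfl, by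
        funext i; simp [sh, aw]⟩
  subst hmu
  have hT : x ∈ D.T := by
    rw [hD.T]
    show 1 ≤ x none
    rw [hx]
    have : (0 : ℤ) ≤ k := Int.natCast_nonneg k
    linarith
  obtain ⟨⟨w, -, -, hw⟩, -⟩ := hr _ _ D Set.univ x hT
  obtain ⟨hy, e, hl⟩ := word_lk hD k w x hx
  set y := D.sR w x with hydef
  have hq := lk_qd hs S hl
  by_cases h0 : ∃ j, D.co j y = 0
  · left
    obtain ⟨j, hj⟩ := h0
    have h1 : D.s j y = y := by unfold RDat.s; rw [hj]; simp
    have h2 := qd_s hs hD k j y hy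
    rw [h1] at h2
    have h3 : S.qd k (sh y) = 0 := by linarith
    rw [hq, h3, mul_zero]
  · right
    have h1 : ∀ j, 1 ≤ D.co j y := by
      intro j
      have h2 := hw j (Set.mem_univ j)
      have h3 : D.co j y ≠ 0 := fun h => h0 ⟨j, h⟩
      omega
    refine ⟨sh y, ⟨fun i => ?_, ?_⟩, e, hl⟩
    · have := h1 (some i)
      rw [hD.cof] at this
      unfold sh
      omega
    · have := h1 none
      rw [hD.co0] at this
      have h4 : dot S.th (sh y) = dot S.th (fp y) - ∑ i, S.th i := by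
        unfold dot sh fp
        rw [← Finset.sum_sub_distrib]
        exact Finset.sum_congr rfl fun i _ => by ring
      rw [h4]
      omega

/-- the sum of the coefficients of the highest root is nonnegative, as rho is in the Tits cone -/
theorem th_nonneg (hh : SLC.C_hd) (hD : S.AffDat D) : 0 ≤ ∑ i, S.th i := by
  have h := (hh n S D hD).T
  rw [hD.T] at h
  have h2 : (1 : ℤ) ≤ 1 + ∑ i, S.th i := h
  linarith

open Classical in
/-- **Main.** -/
theorem main : RDat.N_red → SLC.C_dat → SLC.C_hd → RDat.N_link → SLC.V_pik → SLC.V_sin →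
    SLC.V_qexp := by
  intro hr hd hh hn hp hs n S k A hA
  obtain ⟨D, hD⟩ := hd n S
  have hHD := hh n S D hD
  obtain ⟨-, -, huniq, -⟩ := hn _ _ D S.rho hHD
  obtain ⟨hp1, hp2, -⟩ := hp n S D hD k
  have key : ∀ mu, S.qd k mu = ∑ la ∈ A, (S.sgn k mu la : ℝ) * S.qd k la := by
    intro mu
    by_cases h : ∃ la ∈ A, S.sgn k mu la ≠ 0
    · obtain ⟨la, hla, hne⟩ := h
      rw [Finset.sum_eq_single_of_mem la hla]
      · exact lk_qd hs S (sgn_lk S hne)
      · intro la' hla' hne'
        have h0 : S.sgn k mu la' = 0 := by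
          by_contra hcon
          rw [hp1] at hne hcon
          obtain ⟨e, h1⟩ := pf_link D hne
          obtain ⟨e', h2⟩ := pf_link D hcon
          have h3 := huniq e e' _ _ _ h1 h2 ((hp2 la).1 ((hA la).1 hla))
            ((hp2 la').1 ((hA la').1 hla'))
          exact hne' (aw_inj h3.1).symm
        rw [h0]
        simp
    · push Not at h
      have hz : S.qd k mu = 0 := by
        rcases dicho hr hs hD k mu (th_nonneg hh hD) with h1 | ⟨la, hla, e, hl⟩
        · exact h1
        · exact absurd (h la ((hA la).2 hla)) (sgn_ne S hl)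
      rw [hz]
      symm
      apply Finset.sum_eq_zero
      intro la hla
      rw [h la hla]
      simp
  refine ⟨key, fun f => ?_⟩
  unfold SLC.qdim SLC.piK Finsupp.sum
  simp only [Int.cast_sum, Finset.sum_mul]
  rw [Finset.sum_comm]
  refine Finset.sum_congr rfl fun mu _ => ?_
  by_cases hm : ∀ i, 0 ≤ mu i
  · simp only [if_pos hm]
    rw [key mu, Finset.mul_sum]
    refine Finset.sum_congr rfl fun la _ => ?_
    push_cast
    ring
  · simp only [if_neg hm]
    simp

end H391.KR.P_vqexp
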