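import Pool.Agent.H391.KR.PF

set_option autoImplicit false

noncomputable section

namespace H391.KR.P_vqsg

open Finset

/-- affine functional -/
def phi {n : ℕ} (a : Fin n → ℤ) (m : ℤ) (x : Option (Fin n) → ℤ) : ℤ :=
  dot a (fp x) + m * x none

lemma dot_add {n : ℕ} (a x y : Fin n → ℤ) : dot a (x + y) = dot a x + dot a y := by
  unfold dot
  rw [← Finset.sum_add_distrib]
  exact Finset.sum_congr rfl fun i _ => by simp [mul_add]

lemma dot_smul {n : ℕ} (a x : Fin n → ℤ) (c : ℤ) : dot a (c • x) = c * dot a x := by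
  unfold dot
  rw [Finset.mul_sum]
  exact Finset.sum_congr rfl fun i _ => by simp; ring

lemma dot_neg {n : ℕ} (a x : Fin n → ℤ) : dot a (-x) = - dot a x := by
  unfold dot
  rw [← Finset.sum_neg_distrib]
  exact Finset.sum_congr rfl fun i _ => by simp

lemma neg_dot {n : ℕ} (a x : Fin n → ℤ) : dot (-a) x = - dot a x := by
  unfold dot
  rw [← Finset.sum_neg_distrib]
  exact Finset.sum_congr rfl fun i _ => by simp

lemma sub_smul_dot {n : ℕ} (a b x : Fin n → ℤ) (c : ℤ) :
    dot (a - c • b) x = dot a x - c * dot b x := by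
  unfold dot
  rw [Finset.mul_sum, ← Finset.sum_sub_distrib]
  exact Finset.sum_congr rfl fun i _ => by simp; ring

lemma om_dot {n : ℕ} (i : Fin n) (x : Fin n → ℤ) : dot (om i) x = x i := by
  unfold dot om
  simp

lemma dot_om {n : ℕ} (a : Fin n → ℤ) (i : Fin n) : dot a (om i) = a i := by
  unfold dot om
  simp

lemma fp_sub_smul {n : ℕ} (x y : Option (Fin n) → ℤ) (c : ℤ) :
    fp (x - c • y) = fp x - c • fp y := by
  funext i; simp [fp]

lemma cv_om {n : ℕ} (S : SLC n) (i : Fin n) : S.cv (om i) = fun j => S.C i j := by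
  funext j
  unfold SLC.cv om
  simp [S.symm j i]

lemma lev_s {n : ℕ} (S : SLC n) (D : RDat (Option (Fin n)) (Option (Fin n))) (hD : S.AffDat D)
    (j : Option (Fin n)) (x : Option (Fin n) → ℤ) : (D.s j x) none = x none := by
  unfold RDat.s
  cases j with
  | none => rw [hD.al0]; simp [aw]
  | some j => rw [hD.alf]; simp [aw]

lemma lev_sR {n : ℕ} (S : SLC n) (D : RDat (Option (Fin n)) (Option (Fin n))) (hD : S.AffDat D)
    (w : List (Option (Fin n))) : ∀ x : Option (Fin n) → ℤ, (D.sR w x) none = x none := by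
  induction w with
  | nil => intro x; rfl
  | cons j w ih => intro x; rw [RDat.sR, ih, lev_s S D hD]

lemma phi_s {n : ℕ} (S : SLC n) (D : RDat (Option (Fin n)) (Option (Fin n))) (hD : S.AffDat D)
    (hR : ∀ a b, S.IsRoot a → S.IsRoot b → S.IsRoot (b - S.bf a b • a))
    (ho : ∀ i, S.IsRoot (om i))
    (j : Option (Fin n)) (a : Fin n → ℤ) (m : ℤ) (ha : S.IsRoot a) :
    ∃ a' m', S.IsRoot a' ∧ ∀ x, phi a m (D.s j x) = phi a' m' x := by
  have hth : S.IsRoot S.th := by
    have := S.th_root
    unfold SLC.IsRoot SLC.bf dot SLC.cv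
    rw [← this]
    refine Finset.sum_congr rfl fun i _ => ?_
    rw [Finset.mul_sum]
    exact Finset.sum_congr rfl fun j _ => by ring
  cases j with
  | some l =>
    refine ⟨a - S.bf (om l) a • om l, m, hR _ _ (ho l) ha, fun x => ?_⟩
    have hc : D.co (some l) x = x (some l) := hD.cof l x
    unfold phi
    rw [lev_s S D hD, sub_smul_dot, om_dot]
    congr 1
    unfold RDat.s
    rw [fp_sub_smul, hc, hD.alf]
    have e1 : fp (aw 0 fun i => S.C i l) = S.cv (om l) := by
      rw [cv_om]; funext i; exact S.symm i l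
    rw [e1, sub_eq_add_neg, ← neg_smul, dot_add, dot_smul]
    have e2 : dot a (S.cv (om l)) = S.bf (om l) a := by
      unfold SLC.bf
      rw [om_dot, cv_om]
      unfold dot SLC.cv
      exact Finset.sum_congr rfl fun i _ => by ring
    rw [e2]
    have e3 : fp x l = x (some l) := rfl
    rw [e3]
    ring
  | none =>
    refine ⟨a - S.bf S.th a • S.th, m + S.bf S.th a, hR _ _ hth ha, fun x => ?_⟩
    have hc : D.co none x = x none - dot S.th (fp x) := hD.co0 x
    unfold phi
    rw [lev_s S D hD, sub_smul_dot]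
    unfold RDat.s
    rw [fp_sub_smul, hc, hD.al0]
    have e1 : fp (aw 0 fun i => - S.cv S.th i) = - S.cv S.th := rfl
    rw [e1, sub_eq_add_neg, ← neg_smul, dot_add, dot_smul, dot_neg]
    have e2 : dot a (S.cv S.th) = S.bf S.th a := by
      unfold SLC.bf dot SLC.cv
      simp_rw [Finset.mul_sum]
      rw [Finset.sum_comm]
      refine Finset.sum_congr rfl fun i _ => Finset.sum_congr rfl fun j _ => ?_
      rw [S.symm j i]
      ring
    rw [e2]
    ring

lemma phi_sR {n : ℕ} (S : SLC n) (D : RDat (Option (Fin n)) (Option (Fin n))) (hD : S.AffDat D)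
    (hR : ∀ a b, S.IsRoot a → S.IsRoot b → S.IsRoot (b - S.bf a b • a))
    (ho : ∀ i, S.IsRoot (om i)) (w : List (Option (Fin n))) (a : Fin n → ℤ) (m : ℤ)
    (ha : S.IsRoot a) :
    ∃ a' m', S.IsRoot a' ∧ ∀ x, phi a m (D.sR w x) = phi a' m' x := by
  induction w with
  | nil => exact ⟨a, m, ha, fun x => rfl⟩
  | cons j w ih =>
    obtain ⟨a1, m1, h1, h2⟩ := ih
    obtain ⟨a2, m2, h3, h4⟩ := phi_s S D hD hR ho j a1 m1 h1
    exact ⟨a2, m2, h3, fun x => by rw [RDat.sR, h2, h4]⟩

lemma lev_sg {n : ℕ} (S : SLC n) (D : RDat (Option (Fin n)) (Option (Fin n))) (hD : S.AffDat D)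
    (i : Fin n) (X : SLC.XDat D i) (x : Option (Fin n) → ℤ) : (X.sg x) none = x none := by
  rw [X.eq, lev_sR S D hD]; rfl

lemma phi_sg {n : ℕ} (S : SLC n) (D : RDat (Option (Fin n)) (Option (Fin n))) (hD : S.AffDat D)
    (hR : ∀ a b, S.IsRoot a → S.IsRoot b → S.IsRoot (b - S.bf a b • a))
    (ho : ∀ i, S.IsRoot (om i)) (i : Fin n) (X : SLC.XDat D i) (a : Fin n → ℤ)
    (ha : S.IsRoot a) :
    ∃ a' m', S.IsRoot a' ∧ ∀ x, dot a (fp (X.sg x)) = dot a' (fp x) + m' * x none := by
  obtain ⟨a1, m1, h1, h2⟩ := phi_sR S D hD hR ho (some i :: X.w) a 0 ha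
  refine ⟨a1, m1 - a1 i, h1, fun x => ?_⟩
  have h3 := h2 (tr i x)
  unfold phi at h3
  rw [X.eq]
  have e1 : fp (tr i x) = fp x + (-(x none)) • om i := by
    funext l; simp [tr, fp, aw]; ring
  have e2 : (tr i x) none = x none := rfl
  rw [e1, e2, dot_add, dot_smul, dot_om] at h3
  linarith

lemma sg_rho {n : ℕ} (S : SLC n) (D : RDat (Option (Fin n)) (Option (Fin n))) (hD : S.AffDat D)
    (hH : D.HD S.rho) (i : Fin n) (X : SLC.XDat D i) : X.sg S.rho = S.rho := by
  have h1 : ∀ l, D.co l (X.sg S.rho) = 1 := by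
    intro l
    obtain ⟨j, rfl⟩ := X.ta.surjective l
    rw [X.tw.co, hH.one]
  have h2 : fp (X.sg S.rho) = fp S.rho := by
    funext l
    have h3 := h1 (some l)
    have h4 := hH.one (some l)
    have h5 : ∀ x, D.co (some l) x = x (some l) := hD.cof l
    rw [h5] at h3 h4
    show X.sg S.rho (some l) = S.rho (some l)
    rw [h3, h4]
  funext o
  cases o with
  | none =>
    exact lev_sg S D hD i X S.rho
  | some l => exact congrFun h2 l

theorem main : SLC.C_facts → SLC.C_hd → SLC.V_pik → SLC.V_sin → SLC.V_qsg := by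
  intro hf hhd hpik hsin n S D hD i X k
  obtain ⟨-, hq, hsgn, -, hfin, -, -, -, hR, ho⟩ := hf n S
  have hH := hhd n S D hD
  have hrho := sg_rho S D hD hH i X
  obtain ⟨-, -, hpos, h0⟩ := hsin n S k
  obtain ⟨-, halc, -⟩ := hpik n S D hD k
  set mu := fp (X.sg (aw k 0)) with hmu
  set K : ℤ := k + 1 + ∑ i, S.th i with hK
  -- the weight is dominant
  have hawk : aw (k : ℤ) mu = X.sg (aw k 0) := by
    funext o
    cases o with
    | none => rw [lev_sg S D hD i X]; rfl
    | some l => rfl
  have hdom : D.Dom (aw (k : ℤ) mu) := by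
    rw [hawk]
    intro l
    obtain ⟨j, rfl⟩ := X.ta.surjective l
    rw [X.tw.co]
    cases j with
    | none =>
      have : D.co none (aw (k : ℤ) 0) = (aw (k : ℤ) (0 : Fin n → ℤ)) none -
        dot S.th (fp (aw (k : ℤ) (0 : Fin n → ℤ))) := hD.co0 _
      rw [this]
      have e : dot S.th (fp (aw (k : ℤ) (0 : Fin n → ℤ))) = 0 := by
        unfold dot fp aw; simp
      rw [e]
      simp [aw]
    | some j =>
      have : D.co (some j) (aw (k : ℤ) 0) = (aw (k : ℤ) (0 : Fin n → ℤ)) (some j) := hD.cof _ _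
      rw [this]
      simp [aw]
  have hqpos : 0 < S.qd k mu := hpos mu ((halc mu).mpr hdom)
  -- finite product form
  have hPfin : S.posRoots.Finite := hfin.subset fun a ha => ha.1
  set P : Finset (Fin n → ℤ) := hPfin.toFinset with hP
  have hPm : ∀ a, a ∈ P ↔ (S.IsRoot a ∧ ∀ i, 0 ≤ a i) := by
    intro a; rw [hP, Set.Finite.mem_toFinset]; rfl
  have hqd : ∀ nu, S.qd k nu = ∏ a ∈ P,
      (Real.sin (Real.pi * (∑ i, a i * (nu i + 1) : ℤ) / (K : ℤ)) /
        Real.sin (Real.pi * (∑ i, a i : ℤ) / (K : ℤ))) := by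
    intro nu
    unfold SLC.qd
    rw [finprod_mem_eq_finite_toFinset_prod _ hPfin]
  -- denominators
  have hden : ∀ a ∈ P, Real.sin (Real.pi * (∑ i, a i : ℤ) / (K : ℤ)) ≠ 0 := by
    intro a ha h
    have h1 := hqd 0
    rw [h0, Finset.prod_eq_zero ha] at h1
    · exact one_ne_zero h1
    · rw [h, div_zero]
  -- reflection of roots
  have hK0 : (K : ℝ) ≠ 0 := by
    intro h
    by_cases hn : P.Nonempty
    · obtain ⟨a, ha⟩ := hn
      apply hden a ha
      rw [h, div_zero, Real.sin_zero]
    · exfalso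
      apply hn
      exact ⟨om i, (hPm _).mpr ⟨ho i, fun l => by unfold om; split_ifs <;> norm_num⟩⟩
  choose! f m hf1 hf2 using fun a (ha : S.IsRoot a) => phi_sg S D hD hR ho i X a ha
  have hval : ∀ a, S.IsRoot a → (∑ l, a l * (mu l + 1)) = (∑ l, f a l) + m a * K := by
    intro a ha
    have h1 : (fun l => mu l + 1) = fp (X.sg (aw k 0 + S.rho)) := by
      funext l
      rw [map_add, hrho]
      simp [fp, hmu, SLC.rho, aw]
    have h2 : (∑ l, a l * (mu l + 1)) = dot a (fun l => mu l + 1) := rfl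
    rw [h2, h1, hf2 a ha]
    have h3 : fp (aw (k : ℤ) 0 + S.rho) = fun _ => (1 : ℤ) := by
      funext l; simp [fp, SLC.rho, aw]
    have h4 : (aw (k : ℤ) (0 : Fin n → ℤ) + S.rho) none = K := by
      simp [SLC.rho, aw, hK]; ring
    rw [h3, h4]
    unfold dot
    simp
  -- level zero weights
  have hinj : ∀ a b : Fin n → ℤ, S.IsRoot a → S.IsRoot b → (f a = f b → a = b) ∧
      (f a = - f b → a = - b) := by
    intro a b ha hb
    have key : ∀ y : Fin n → ℤ, ∃ x : Option (Fin n) → ℤ, x none = 0 ∧ fp (X.sg x) = y := by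
      intro y
      refine ⟨X.sg.symm (aw 0 y), ?_, ?_⟩
      · have := lev_sg S D hD i X (X.sg.symm (aw 0 y))
        rw [AddEquiv.apply_symm_apply] at this
        exact this.symm
      · rw [AddEquiv.apply_symm_apply]; rfl
    constructor
    · intro hab
      funext l
      obtain ⟨x, hx0, hx⟩ := key (om l)
      have h1 := hf2 a ha x
      have h2 := hf2 b hb x
      rw [hx, dot_om, hx0] at h1 h2
      rw [h1, h2, hab]; ring
    · intro hab
      funext l
      obtain ⟨x, hx0, hx⟩ := key (om l)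
      have h1 := hf2 a ha x
      have h2 := hf2 b hb x
      rw [hx, dot_om, hx0] at h1 h2
      rw [Pi.neg_apply, h1, h2, hab, neg_dot]; ring
  have hnegroot : ∀ a, S.IsRoot a → S.IsRoot (-a) := by
    intro a ha
    unfold SLC.IsRoot SLC.bf at ha ⊢
    rw [← ha]
    unfold dot SLC.cv
    simp
  classical
  let g : (Fin n → ℤ) → (Fin n → ℤ) := fun a => if ∀ l, 0 ≤ f a l then f a else - f a
  have hgP : ∀ a ∈ P, g a ∈ P := by
    intro a ha
    rw [hPm] at ha ⊢
    have hr := hf1 a ha.1
    by_cases h : ∀ l, 0 ≤ f a l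
    · have : g a = f a := if_pos h
      rw [this]; exact ⟨hr, h⟩
    · have : g a = - f a := if_neg h
      rw [this]
      refine ⟨hnegroot _ hr, fun l => ?_⟩
      rcases hsgn _ hr with h' | h'
      · exact absurd h' h
      · have := h' l; simp only [Pi.neg_apply]; omega
  have hne : ∀ a, S.IsRoot a → a ≠ 0 := by
    intro a ha h
    unfold SLC.IsRoot SLC.bf dot at ha
    rw [h] at ha
    simp at ha
  have hno : ∀ a b, a ∈ P → b ∈ P → a ≠ - b := by
    intro a b ha hb h
    rw [hPm] at ha hb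
    apply hne b hb.1
    funext l
    have h1 := ha.2 l
    have h2 := hb.2 l
    rw [h] at h1
    simp only [Pi.neg_apply] at h1
    simp only [Pi.zero_apply]
    omega
  have hginj : ∀ a ∈ P, ∀ b ∈ P, g a = g b → a = b := by
    intro a ha b hb hab
    have ha' := (hPm a).mp ha
    have hb' := (hPm b).mp hb
    obtain ⟨i1, i2⟩ := hinj a b ha'.1 hb'.1
    have hga : g a = f a ∨ g a = - f a := by
      by_cases h : ∀ l, 0 ≤ f a l
      · exact Or.inl (if_pos h)
      · exact Or.inr (if_neg h)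
    have hgb : g b = f b ∨ g b = - f b := by
      by_cases h : ∀ l, 0 ≤ f b l
      · exact Or.inl (if_pos h)
      · exact Or.inr (if_neg h)
    rcases hga with h1 | h1 <;> rcases hgb with h2 | h2
    · exact i1 (by rw [← h1, ← h2, hab])
    · exact absurd (i2 (by rw [← h1, ← h2, hab])) (hno a b ha hb)
    · refine absurd (i2 ?_) (hno a b ha hb)
      rw [← h2, ← hab, h1, neg_neg]
    · refine i1 ?_
      have : - f a = - f b := by rw [← h1, ← h2, hab]
      exact neg_injective this
  -- absolute values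
  have habs : ∀ a ∈ P, |Real.sin (Real.pi * (∑ l, a l * (mu l + 1) : ℤ) / (K : ℤ))| =
      |Real.sin (Real.pi * (∑ l, g a l : ℤ) / (K : ℤ))| := by
    intro a ha
    have ha' := (hPm a).mp ha
    rw [hval a ha'.1]
    have e1 : Real.pi * (((∑ l, f a l) + m a * K : ℤ) : ℝ) / (K : ℝ) =
        Real.pi * ((∑ l, f a l : ℤ) : ℝ) / (K : ℝ) + (m a : ℤ) * Real.pi := by
      push_cast
      field_simp
    rw [e1, Real.sin_add_int_mul_pi, abs_mul]
    have e2 : |((-1 : ℝ)) ^ (m a)| = 1 := by
      rw [abs_zpow]; simp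
    rw [e2, one_mul]
    by_cases h : ∀ l, 0 ≤ f a l
    · have : g a = f a := if_pos h
      rw [this]
    · have : g a = - f a := if_neg h
      rw [this]
      have e3 : (∑ l, (- f a) l) = - ∑ l, f a l := by
        rw [← Finset.sum_neg_distrib]; rfl
      rw [e3, Int.cast_neg, mul_neg, neg_div, Real.sin_neg, abs_neg]
  have habs1 : |S.qd k mu| = 1 := by
    rw [hqd mu, Finset.prod_div_distrib, abs_div, Finset.abs_prod, Finset.abs_prod,
      Finset.prod_congr rfl habs]
    have : ∏ a ∈ P, |Real.sin (Real.pi * (∑ l, g a l : ℤ) / (K : ℤ))| =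
        ∏ a ∈ P, |Real.sin (Real.pi * (∑ l, a l : ℤ) / (K : ℤ))| := by
      apply Finset.prod_nbij g hgP
      · intro a ha b hb hab; exact hginj a ha b hb hab
      · have : Finset.image g P = P := by
          apply Finset.eq_of_subset_of_card_le
          · intro y hy
            rw [Finset.mem_image] at hy
            obtain ⟨x, hx, rfl⟩ := hy
            exact hgP x hx
          · rw [Finset.card_image_of_injOn]
            intro a ha b hb hab; exact hginj a ha b hb hab
        intro y hy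
        rw [← this] at hy
        rw [Finset.coe_image] at hy
        exact hy
      · intro a _; rfl
    rw [this]
    apply div_self
    exact Finset.prod_ne_zero_iff.mpr fun a ha => abs_ne_zero.mpr (hden a ha)
  rw [abs_of_pos hqpos] at habs1
  exact habs1

end H391.KR.P_vqsg
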