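import Pool.Agent.H391.KR.PF

/-!
Quantum dimensions: symmetries and positivity.
-/

noncomputable section

namespace H391.KR.P_vsin

open Finset H391.KR

/-- a product which changes its sign -/
theorem anti {β : Type*} [DecidableEq β] (P : Finset β) (t : β → β) (b0 : β) (hb : b0 ∈ P)
    (ht : ∀ a ∈ P, a ≠ b0 → t a ∈ P ∧ t a ≠ b0 ∧ t (t a) = a) (f g : β → ℝ)
    (h0 : g b0 = - f b0) (h1 : ∀ a ∈ P, a ≠ b0 → g a = f (t a)) :
    ∏ a ∈ P, g a = - ∏ a ∈ P, f a := by
  rw [← Finset.mul_prod_erase P g hb, ← Finset.mul_prod_erase P f hb, h0, neg_mul]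
  congr 2
  refine Finset.prod_nbij' t t ?_ ?_ ?_ ?_ ?_
  · intro a ha
    rw [mem_erase] at ha ⊢
    exact ⟨(ht a ha.2 ha.1).2.1, (ht a ha.2 ha.1).1⟩
  · intro a ha
    rw [mem_erase] at ha ⊢
    exact ⟨(ht a ha.2 ha.1).2.1, (ht a ha.2 ha.1).1⟩
  · intro a ha
    rw [mem_erase] at ha
    exact (ht a ha.2 ha.1).2.2
  · intro a ha
    rw [mem_erase] at ha
    exact (ht a ha.2 ha.1).2.2
  · intro a ha
    rw [mem_erase] at ha
    exact h1 a ha.2 ha.1

variable {n : ℕ} (S : SLC n)

/-- numerator -/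
def num (k : ℕ) (mu a : Fin n → ℤ) : ℝ :=
  Real.sin (Real.pi * (∑ i, a i * (mu i + 1) : ℤ) / (k + 1 + ∑ i, S.th i : ℤ))

/-- denominator -/
def den (k : ℕ) (a : Fin n → ℤ) : ℝ :=
  Real.sin (Real.pi * (∑ i, a i : ℤ) / (k + 1 + ∑ i, S.th i : ℤ))

theorem qd_eq (k : ℕ) (mu : Fin n → ℤ) (hf : S.posRoots.Finite) :
    S.qd k mu = (∏ a ∈ hf.toFinset, num S k mu a) / ∏ a ∈ hf.toFinset, den S k a := by
  unfold SLC.qd
  rw [finprod_mem_eq_finite_toFinset_prod _ hf, Finset.prod_div_distrib]
  rfl

theorem bf_om (a : Fin n → ℤ) (i : Fin n) : S.bf a (om i) = ∑ j, a j * S.C j i := by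
  simp [SLC.bf, dot, SLC.cv, om]

theorem bf_sub_left (a b c : Fin n → ℤ) : S.bf (a - b) c = S.bf a c - S.bf b c := by
  simp [SLC.bf, dot, sub_mul, Finset.sum_sub_distrib]

theorem bf_smul_left (t : ℤ) (a c : Fin n → ℤ) : S.bf (t • a) c = t * S.bf a c := by
  simp [SLC.bf, dot, Finset.mul_sum, mul_assoc]

theorem bf_th (S : SLC n) : S.bf S.th S.th = 2 := by
  rw [← S.th_root]
  simp [SLC.bf, dot, SLC.cv, Finset.mul_sum, mul_assoc]

theorem K_pos (hth : ∀ i, 1 ≤ S.th i) (k : ℕ) : 0 < (k : ℤ) + 1 + ∑ i, S.th i := by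
  have : 0 ≤ ∑ i, S.th i := Finset.sum_nonneg fun i _ => by
    have := hth i
    omega
  omega

theorem sin_pos {x K : ℤ} (h1 : 1 ≤ x) (h2 : x < K) :
    0 < Real.sin (Real.pi * (x : ℝ) / (K : ℝ)) := by
  have hx : (0 : ℝ) < x := by exact_mod_cast (show 0 < x by omega)
  have hK : (0 : ℝ) < K := by exact_mod_cast (show 0 < K by omega)
  have hxK : (x : ℝ) < K := by exact_mod_cast h2
  apply Real.sin_pos_of_pos_of_lt_pi
  · have := Real.pi_pos
    positivity
  · rw [div_lt_iff₀ hK]
    exact mul_lt_mul_of_pos_left hxK Real.pi_pos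

theorem ht_pos {a : Fin n → ℤ} (ha : a ∈ S.posRoots) : 1 ≤ ∑ i, a i := by
  by_contra h
  push Not at h
  have h1 : ∑ i, a i = 0 := le_antisymm (by omega) (Finset.sum_nonneg fun i _ => ha.2 i)
  have h2 : a = 0 := by
    funext i
    exact (Finset.sum_eq_zero_iff_of_nonneg fun i _ => ha.2 i).1 h1 i (Finset.mem_univ i)
  have h3 := ha.1
  rw [h2] at h3
  simp [SLC.IsRoot, SLC.bf, dot] at h3

theorem num_pos (hC : ∀ a, S.IsRoot a → ∀ i, a i ≤ S.th i) {k : ℕ} {la : Fin n → ℤ}
    (hla : la ∈ S.alc k) {a : Fin n → ℤ} (ha : a ∈ S.posRoots) : 0 < num S k la a := by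
  apply sin_pos
  · refine (ht_pos S ha).trans (Finset.sum_le_sum fun i _ => ?_)
    have h1 := ha.2 i
    have h2 := hla.1 i
    nlinarith
  · have h1 : ∑ i, a i * (la i + 1) ≤ ∑ i, S.th i * (la i + 1) :=
      Finset.sum_le_sum fun i _ => mul_le_mul_of_nonneg_right (hC a ha.1 i) (by
        have := hla.1 i
        omega)
    have h2 : ∑ i, S.th i * (la i + 1) = dot S.th la + ∑ i, S.th i := by
      simp [dot, mul_add, Finset.sum_add_distrib]
    have h3 := hla.2
    omega

theorem num_zero (k : ℕ) (a : Fin n → ℤ) : num S k 0 a = den S k a := by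
  simp [num, den]

theorem zero_mem (k : ℕ) : (0 : Fin n → ℤ) ∈ S.alc k := by
  refine ⟨fun i => le_refl _, ?_⟩
  simp [dot]

theorem num_refl (k : ℕ) (mu : Fin n → ℤ) (i : Fin n) (a : Fin n → ℤ) :
    num S k (mu - (mu i + 1) • S.rtw i) a = num S k mu (a - S.bf a (om i) • om i) := by
  unfold num
  have e : ∑ j, a j * ((mu - (mu i + 1) • S.rtw i) j + 1) =
      ∑ j, (a - S.bf a (om i) • om i) j * (mu j + 1) := by
    have h1 : ∑ j, (a - S.bf a (om i) • om i) j * (mu j + 1) =
        ∑ j, a j * (mu j + 1) - S.bf a (om i) * (mu i + 1) := by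
      simp only [Pi.sub_apply, Pi.smul_apply, smul_eq_mul, sub_mul, Finset.sum_sub_distrib]
      congr 1
      simp [om]
    rw [h1, bf_om, Finset.sum_mul, ← Finset.sum_sub_distrib]
    refine Finset.sum_congr rfl fun j _ => ?_
    simp only [Pi.sub_apply, Pi.smul_apply, smul_eq_mul, SLC.rtw]
    ring
  rw [e]

theorem num_neg (k : ℕ) (mu a : Fin n → ℤ) : num S k mu (-a) = - num S k mu a := by
  unfold num
  rw [← Real.sin_neg]
  congr 1
  simp only [Pi.neg_apply, neg_mul, Finset.sum_neg_distrib]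
  push_cast
  ring

theorem num_aff_int (k : ℕ) (mu a : Fin n → ℤ) :
    ∑ j, a j * ((mu - (dot S.th mu - k - 1) • S.cv S.th) j + 1) =
      ∑ j, a j * (mu j + 1) - (∑ j, S.th j * (mu j + 1)) * S.bf a S.th +
        (k + 1 + ∑ j, S.th j) * S.bf a S.th := by
  have h1 : ∑ j, S.th j * (mu j + 1) = dot S.th mu + ∑ j, S.th j := by
    simp [dot, mul_add, Finset.sum_add_distrib]
  have h2 : ∑ j, a j * ((mu - (dot S.th mu - k - 1) • S.cv S.th) j + 1) =
      ∑ j, a j * (mu j + 1) - (dot S.th mu - k - 1) * S.bf a S.th := by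
    unfold SLC.bf
    rw [show dot a (S.cv S.th) = ∑ j, a j * S.cv S.th j from rfl, Finset.mul_sum,
      ← Finset.sum_sub_distrib]
    refine Finset.sum_congr rfl fun j _ => ?_
    simp only [Pi.sub_apply, Pi.smul_apply, smul_eq_mul]
    ring
  rw [h1, h2]
  ring

theorem num_aff0 (k : ℕ) (mu a : Fin n → ℤ) (ha : S.bf a S.th = 0) :
    num S k (mu - (dot S.th mu - k - 1) • S.cv S.th) a = num S k mu a := by
  unfold num
  rw [num_aff_int, ha]
  simp

theorem num_aff1 (hth : ∀ i, 1 ≤ S.th i) (k : ℕ) (mu a : Fin n → ℤ) (ha : S.bf a S.th = 1) :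
    num S k (mu - (dot S.th mu - k - 1) • S.cv S.th) a = num S k mu (S.th - a) := by
  have hK : ((k + 1 + ∑ i, S.th i : ℤ) : ℝ) ≠ 0 := by
    exact_mod_cast (K_pos S hth k).ne'
  unfold num
  rw [num_aff_int, ha, mul_one, mul_one, ← Real.sin_pi_sub]
  congr 1
  have e : ∑ j, (S.th - a) j * (mu j + 1) =
      ∑ j, S.th j * (mu j + 1) - ∑ j, a j * (mu j + 1) := by
    simp [sub_mul, Finset.sum_sub_distrib]
  rw [e]
  generalize (k + 1 + ∑ i, S.th i : ℤ) = K at *
  generalize ∑ j, S.th j * (mu j + 1) = x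
  generalize ∑ j, a j * (mu j + 1) = y
  push_cast
  field_simp
  ring

theorem num_aff2 (hth : ∀ i, 1 ≤ S.th i) (k : ℕ) (mu : Fin n → ℤ) :
    num S k (mu - (dot S.th mu - k - 1) • S.cv S.th) S.th = - num S k mu S.th := by
  have hK : ((k + 1 + ∑ i, S.th i : ℤ) : ℝ) ≠ 0 := by
    exact_mod_cast (K_pos S hth k).ne'
  unfold num
  rw [num_aff_int, bf_th, ← Real.sin_neg, ← Real.sin_add_two_pi]
  rw [← Real.sin_add_two_pi (-(Real.pi * _ / _))]
  generalize (k + 1 + ∑ i, S.th i : ℤ) = K at *
  generalize ∑ j, S.th j * (mu j + 1) = x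
  rw [Real.sin_add_two_pi]
  congr 1
  push_cast
  field_simp
  ring

theorem main : SLC.C_facts → SLC.V_sin := by
  intro hC n S k
  obtain ⟨hsym, -, hsg, hpair, hfin, hle, hth, -, hrefl, hom⟩ := hC n S
  have hf : S.posRoots.Finite := hfin.subset fun a ha => ha.1
  have hP : ∀ a, a ∈ hf.toFinset ↔ a ∈ S.posRoots := fun a => hf.mem_toFinset
  classical
  refine ⟨?_, ?_, ?_, ?_⟩
  · -- finite reflections
    intro mu i
    rw [qd_eq S k _ hf, qd_eq S k _ hf, ← neg_div]
    congr 1
    have hii : S.bf (om i) (om i) = 2 := hom i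
    have homi : ∀ j, om i j = if j = i then 1 else 0 := fun j => rfl
    have hpos : om i ∈ S.posRoots := ⟨hom i, fun j => by rw [homi]; split_ifs <;> norm_num⟩
    refine anti hf.toFinset (fun a => a - S.bf a (om i) • om i) (om i) ((hP _).2 hpos) ?_ _ _ ?_ ?_
    · intro a ha hne
      rw [hP] at ha
      -- a positive coordinate different from `i`
      have hj : ∃ j, j ≠ i ∧ 0 < a j := by
        by_contra hc
        push Not at hc
        apply hne
        have h1 : ∀ j, j ≠ i → a j = 0 := fun j hj => le_antisymm (hc j hj) (ha.2 j)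
        have h2 : a = a i • om i := by
          funext j
          rw [Pi.smul_apply, homi, smul_eq_mul]
          by_cases hji : j = i
          · rw [if_pos hji, hji, mul_one]
          · rw [if_neg hji, mul_zero, h1 j hji]
        have h3 : S.bf a a = 2 := ha.1
        have h4 : S.bf a a = a i * (a i * 2) := by
          conv_lhs => rw [h2]
          rw [bf_smul_left, hsym, bf_smul_left, hii]
        have h5 : a i * a i = 1 := by
          rw [h3] at h4
          linarith
        have h6 : a i = 1 := by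
          have := ha.2 i
          nlinarith
        rw [h2, h6, one_smul]
      obtain ⟨j, hji, hj⟩ := hj
      have hroot : S.IsRoot (a - S.bf a (om i) • om i) := by
        have := hrefl (om i) a (hom i) ha.1
        rwa [hsym (om i) a] at this
      have hcoord : (a - S.bf a (om i) • om i) j = a j := by
        rw [Pi.sub_apply, Pi.smul_apply, homi, if_neg hji, smul_zero, sub_zero]
      refine ⟨?_, ?_, ?_⟩
      · rw [hP]
        refine ⟨hroot, ?_⟩
        rcases hsg _ hroot with h | h
        · exact h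
        · exfalso
          have := h j
          rw [hcoord] at this
          omega
      · intro h
        have h1 := congrFun h j
        rw [hcoord, homi, if_neg hji] at h1
        omega
      · rw [bf_sub_left, bf_smul_left, hii]
        funext l
        simp only [Pi.sub_apply, Pi.smul_apply, smul_eq_mul]
        ring
    · rw [num_refl, hii]
      have e : om i - (2 : ℤ) • om i = -(om i : Fin n → ℤ) := by
        funext l
        simp only [Pi.sub_apply, Pi.smul_apply, smul_eq_mul, Pi.neg_apply]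
        ring
      rw [e, num_neg]
    · intro a _ _
      exact num_refl S k mu i a
  · -- the affine reflection
    intro mu
    rw [qd_eq S k _ hf, qd_eq S k _ hf, ← neg_div]
    congr 1
    have hthr : S.IsRoot S.th := bf_th S
    have hpos : S.th ∈ S.posRoots := ⟨hthr, fun j => by have := hth j; omega⟩
    have hbf : ∀ a ∈ S.posRoots, a ≠ S.th → S.bf a S.th = 0 ∨ S.bf a S.th = 1 := by
      intro a ha hne
      have h1 := hpair a S.th ha.1 hthr
      have h2 : 0 ≤ S.bf a S.th := by
        change 0 ≤ ∑ i, a i * ∑ j, S.C i j * S.th j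
        exact Finset.sum_nonneg fun i _ => mul_nonneg (ha.2 i) (S.th_dom i)
      have h3 : S.bf a S.th ≠ 2 := fun h => hne (h1.2.2.1 h)
      omega
    refine anti hf.toFinset (fun a => if S.bf a S.th = 0 then a else S.th - a) S.th
      ((hP _).2 hpos) ?_ _ _ (num_aff2 S hth k mu) ?_
    · intro a ha hne
      rw [hP] at ha
      rcases hbf a ha hne with h | h
      · simp only [if_pos h]
        exact ⟨(hP _).2 ha, hne, trivial⟩
      · have h0 : ¬ S.bf a S.th = 0 := by omega
        have h1 : S.bf (S.th - a) S.th = 1 := by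
          rw [bf_sub_left, bf_th, h]
          norm_num
        have h2 : ¬ S.bf (S.th - a) S.th = 0 := by omega
        simp only [if_neg h0, if_neg h2, sub_sub_cancel]
        refine ⟨(hP _).2 ⟨?_, fun j => ?_⟩, ?_, trivial⟩
        · have := hrefl a S.th ha.1 hthr
          rwa [h, one_smul] at this
        · have := hle a ha.1 j
          rw [Pi.sub_apply]
          omega
        · intro h3
          have h4 : a = 0 := by
            have := sub_eq_self.1 h3
            exact this
          have h5 := ht_pos S ha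
          rw [h4] at h5
          simp at h5
    · intro a ha hne
      rw [hP] at ha
      rcases hbf a ha hne with h | h
      · simp only [if_pos h]
        exact num_aff0 S k mu a h
      · have h0 : ¬ S.bf a S.th = 0 := by omega
        simp only [if_neg h0]
        exact num_aff1 S hth k mu a h
  · -- positivity
    intro la hla
    rw [qd_eq S k _ hf]
    refine div_pos (Finset.prod_pos fun a ha => num_pos S hle hla ((hP _).1 ha))
      (Finset.prod_pos fun a ha => ?_)
    rw [← num_zero]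
    exact num_pos S hle (zero_mem S k) ((hP _).1 ha)
  · rw [qd_eq S k _ hf]
    simp only [num_zero]
    refine div_self (Finset.prod_pos fun a ha => ?_).ne'
    rw [← num_zero]
    exact num_pos S hle (zero_mem S k) ((hP _).1 ha)

end H391.KR.P_vsin
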