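import Pool.Agent.H391.KR.PF

/-!
# V_surj (H391/KR, part F)
-/

noncomputable section

namespace H391.KR.P_vsurj

open Finset

variable {n : ℕ} {S : SLC n} {D : RDat (Option (Fin n)) (Option (Fin n))}

theorem al_none (hD : S.AffDat D) (j : Option (Fin n)) : D.al j none = 0 := by
  cases j with
  | none => rw [hD.al0]; rfl
  | some j => rw [hD.alf]; rfl

theorem s_none (hD : S.AffDat D) (j : Option (Fin n)) (x : Option (Fin n) → ℤ) :
    (D.s j x) none = x none := by
  unfold RDat.s
  rw [Pi.sub_apply, Pi.smul_apply, al_none hD, smul_zero, sub_zero]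

theorem sR_none (hD : S.AffDat D) (w : List (Option (Fin n))) (x : Option (Fin n) → ℤ) :
    (D.sR w x) none = x none := by
  induction w generalizing x with
  | nil => rfl
  | cons j w ih =>
    show (D.sR w (D.s j x)) none = x none
    rw [ih, s_none hD]

/-- finite letters fix `aw l 0` -/
theorem s_shift (hD : S.AffDat D) (j : Fin n) (l : ℤ) (x : Option (Fin n) → ℤ) :
    D.s (some j) (x + aw l 0) = D.s (some j) x + aw l 0 := by
  have h1 : D.co (some j) (x + aw l 0) = D.co (some j) x := by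
    rw [hD.cof, hD.cof, Pi.add_apply]
    show x (some j) + 0 = x (some j)
    rw [add_zero]
  unfold RDat.s
  rw [h1]
  abel

theorem co_shift (hD : S.AffDat D) (j : Fin n) (l : ℤ) (x : Option (Fin n) → ℤ) :
    D.co (some j) (x + aw l 0) = D.co (some j) x := by
  rw [hD.cof, hD.cof, Pi.add_apply]
  show x (some j) + 0 = x (some j)
  rw [add_zero]

theorem sR_shift (hD : S.AffDat D) (w : List (Option (Fin n))) (hw : ∀ j ∈ w, j ∈ Set.range some)
    (l : ℤ) (x : Option (Fin n) → ℤ) : D.sR w (x + aw l 0) = D.sR w x + aw l 0 := by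
  induction w generalizing x with
  | nil => rfl
  | cons j w ih =>
    obtain ⟨i, rfl⟩ := hw j List.mem_cons_self
    show D.sR w (D.s (some i) (x + aw l 0)) = D.sR w (D.s (some i) x) + aw l 0
    rw [s_shift hD, ih fun j hj => hw j (List.mem_cons_of_mem _ hj)]

theorem desc_shift (hD : S.AffDat D) (w : List (Option (Fin n)))
    (hw : ∀ j ∈ w, j ∈ Set.range some) (l : ℤ) (x : Option (Fin n) → ℤ) (h : D.Desc w x) :
    D.Desc w (x + aw l 0) := by
  induction w generalizing x with
  | nil => trivial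
  | cons j w ih =>
    obtain ⟨i, rfl⟩ := hw j List.mem_cons_self
    refine ⟨?_, ?_⟩
    · rw [co_shift hD]
      exact h.1
    · rw [s_shift hD]
      exact ih (fun j hj => hw j (List.mem_cons_of_mem _ hj)) _ h.2

theorem desc0_of_desc (D : RDat (Option (Fin n)) (Option (Fin n))) (w : List (Option (Fin n)))
    (x : Option (Fin n) → ℤ) (h : D.Desc w x) : D.Desc0 w x := by
  induction w generalizing x with
  | nil => trivial
  | cons j w ih => exact ⟨h.1.le, ih _ h.2⟩

theorem aw_add (a b : ℤ) (mu nu : Fin n → ℤ) : aw a mu + aw b nu = aw (a + b) (mu + nu) := by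
  funext o
  cases o <;> rfl

theorem aw_neg (a : ℤ) (mu : Fin n → ℤ) : - aw a mu = aw (-a) (-mu) := by
  funext o
  cases o <;> rfl

theorem ex_add (x y : Option (Fin n) → ℤ) : ex x * ex y = ex (x + y) := by
  unfold ex
  rw [AddMonoidAlgebra.single_mul_single, mul_one]

theorem core (hop : RDat.N_op) (hadj : RDat.N_adj) (hred : RDat.N_red) (hdesc : RDat.N_desc)
    (hdemw : RDat.N_demw) (hinv0 : SLC.C_inv0) : SLC.V_surj := by
  intro n S D hD hok k la hla
  obtain ⟨hla0, hlak⟩ := hla
  obtain ⟨-, -, -, h4, h5, -, -, h8, -, -, h11⟩ := hdesc (Option (Fin n)) (Option (Fin n)) D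
  set N : ℤ := (k : ℤ) + 1 with hN
  -- the reducing word of `aw N (-la)`
  have hT' : aw N (-la) ∈ D.T := by
    rw [hD.T]
    show 1 ≤ N
    omega
  have hTla : aw N la ∈ D.T := by
    rw [hD.T]
    show 1 ≤ N
    omega
  obtain ⟨⟨w, hw1, hw2, hw3⟩, -⟩ := hred _ _ D (Set.range some) (aw N (-la)) hT'
  have hwr : ∀ j ∈ w.reverse, j ∈ Set.range (some : Fin n → Option (Fin n)) := fun j hj =>
    hw1 j (List.mem_reverse.mp hj)
  -- the antidominant weight in the orbit of `aw N la`
  set z : Option (Fin n) → ℤ := D.sR w (aw N la) with hz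
  have hzT : z ∈ D.T := h11 w _ hTla
  have hla' : aw N la = -(aw N (-la)) + aw (N + N) 0 := by
    rw [aw_neg, aw_add, neg_neg, add_zero]
    congr 1
    ring
  have hz' : z = -(D.sR w (aw N (-la))) + aw (N + N) 0 := by
    rw [hz, hla', sR_shift hD w hw1, h8]
  have hdz : D.Desc w.reverse z := by
    have h := h4 w (-(aw N (-la))) (by rw [neg_neg]; exact hw2)
    rw [h8] at h
    rw [hz']
    exact desc_shift hD _ hwr _ _ h
  have hzneg : ∀ j : Fin n, D.co (some j) z ≤ 0 := by
    intro j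
    have h := hw3 (some j) ⟨j, rfl⟩
    rw [hz', co_shift hD, hD.cof, Pi.neg_apply]
    rw [hD.cof] at h
    omega
  have hzr : D.sR w.reverse z = aw N la := (h5 w (aw N la)).1
  have hdom : D.Dom (aw N la) := by
    intro j
    cases j with
    | none =>
      rw [hD.co0]
      have h1 : fp (aw N la) = la := rfl
      rw [h1]
      show 0 ≤ N - dot S.th la
      omega
    | some j =>
      rw [hD.cof]
      exact hla0 j
  have hDem : D.Dem z 1 = D.demL w.reverse (ex (aw N la)) := by
    rw [hdemw _ _ D hok w.reverse z 1 hzT (desc0_of_desc D _ _ hdz), hzr,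
      hok.d3 _ hTla 1 hdom, Nat.cast_one, one_smul]
  -- invariance
  have hinvDem : ∀ j : Fin n, D.IsInv (some j) (D.Dem z 1) := by
    intro j
    obtain ⟨-, o2, -⟩ := hop _ _ D (some j)
    have h := o2 (D.Dem z 1)
    rwa [hok.d2 z hzT 1 (some j) (hzneg j)] at h
  have hinvex : ∀ (l : ℤ) (j : Fin n), D.IsInv (some j) (ex (aw l 0)) := by
    intro l j
    obtain ⟨-, -, -, -, -, -, -, -, o9, -⟩ := hop _ _ D (some j)
    apply o9
    rw [hD.cof]
    rfl
  have hinvf : ∀ j : Fin n, D.IsInv (some j) (ex (aw (-N) 0) * D.Dem z 1) := by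
    intro j
    obtain ⟨-, -, -, -, -, -, -, o8, -, -⟩ := hop _ _ D (some j)
    exact (o8 _ _ (hinvex (-N) j) (hinvDem j)).2.2
  -- level
  have hcl : ∀ v ∈ AddSubgroup.closure (Set.range D.al), v none = 0 := by
    intro v hv
    induction hv using AddSubgroup.closure_induction with
    | mem x hx =>
      obtain ⟨j, rfl⟩ := hx
      exact al_none hD j
    | zero => rfl
    | add x y _ _ hx hy => rw [Pi.add_apply, hx, hy, add_zero]
    | neg x _ hx => rw [Pi.neg_apply, hx, neg_zero]
  have hznone : z none = N := sR_none hD w (aw N la)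
  have hlevDem : ∀ x, (D.Dem z 1).coeff x ≠ 0 → x none = N := by
    intro x hx
    have h := hcl _ (hok.d8 z hzT 1 x hx)
    rw [Nat.cast_one, one_smul, Pi.sub_apply, hznone] at h
    omega
  have hlev : ∀ x, (ex (aw (-N) 0) * D.Dem z 1).coeff x ≠ 0 → x none = 0 := by
    intro x hx
    unfold ex at hx
    rw [AddMonoidAlgebra.coeff_single_mul_apply, one_mul] at hx
    have h := hlevDem _ hx
    rw [Pi.add_apply, Pi.neg_apply] at h
    have h1 : (aw (-N) (0 : Fin n → ℤ)) none = -N := rfl
    rw [h1] at h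
    omega
  refine ⟨ex (aw (-N) 0) * D.Dem z 1, hinv0 n S D hD _ hinvf hlev, ?_⟩
  intro p hp
  obtain ⟨a1, -, a3, -⟩ := hadj _ _ D p hp
  have e1 : aw (k : ℤ) (0 : Fin n → ℤ) + aw (-N) 0 = aw ((k : ℤ) - N) 0 := by
    rw [aw_add, add_zero]
    rfl
  have hinvw : ∀ j ∈ w.reverse, D.IsInv j (ex (aw ((k : ℤ) - N) 0)) := by
    intro j hj
    obtain ⟨i, rfl⟩ := hwr j hj
    exact hinvex _ i
  have e2 : aw ((k : ℤ) - N) (0 : Fin n → ℤ) + aw N la = aw k la := by
    rw [aw_add, zero_add]
    congr 1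
    ring
  rw [← mul_assoc, ex_add, e1, hDem, ← a3 _ _ _ hinvw, a1, ex_add, e2]
  unfold pair ex
  simp

/-- **V_surj.** -/
theorem main : RDat.N_op → RDat.N_adj → RDat.N_red → RDat.N_desc → RDat.N_demw → SLC.C_facts →
    SLC.C_inv0 → SLC.C_star → SLC.C_hd → SLC.V_surj :=
  fun hop hadj hred hdesc hdemw _ hinv0 _ _ => core hop hadj hred hdesc hdemw hinv0

end H391.KR.P_vsurj
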