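import Pool.Agent.H391.KR.PF

set_option autoImplicit false

noncomputable section

namespace H391.KR.P_vuniq

open Finset

/-- ideal of polynomials without terms of degree less than `N` -/
def J (n N : ℕ) : Ideal (MvPolynomial (Fin n) ℤ) where
  carrier := {p | ∀ g : Fin n →₀ ℕ, g.degree < N → MvPolynomial.coeff g p = 0}
  zero_mem' := by intro g _; simp
  add_mem' := by
    intro a b ha hb g hg
    rw [MvPolynomial.coeff_add, ha g hg, hb g hg, add_zero]
  smul_mem' := by
    classical
    intro c p hp g hg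
    rw [smul_eq_mul, MvPolynomial.coeff_mul]
    apply sum_eq_zero
    intro x hx
    have hx' := mem_antidiagonal.1 hx
    have h1 : x.1.degree + x.2.degree = g.degree := by rw [← hx', map_add]
    rw [hp _ (by omega), mul_zero]

lemma mem_J {n N : ℕ} (p : MvPolynomial (Fin n) ℤ) :
    p ∈ J n N ↔ ∀ g : Fin n →₀ ℕ, g.degree < N → MvPolynomial.coeff g p = 0 := Iff.rfl

lemma coeff_mul_J {n N : ℕ} (D B : MvPolynomial (Fin n) ℤ) (hD : D ∈ J n N) (g : Fin n →₀ ℕ)
    (hg : g.degree = N) :
    MvPolynomial.coeff g (D * B) = MvPolynomial.coeff g D * MvPolynomial.coeff 0 B := by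
  classical
  rw [MvPolynomial.coeff_mul]
  rw [sum_eq_single (g, 0)]
  · intro x hx hne
    have hx' := mem_antidiagonal.1 hx
    have h1 : x.1.degree + x.2.degree = g.degree := by rw [← hx', map_add]
    by_cases h2 : x.2.degree = 0
    · exfalso
      apply hne
      have h3 : x.2 = 0 := (Finsupp.degree_eq_zero_iff _).1 h2
      rw [h3, add_zero] at hx'
      exact Prod.ext hx' h3
    · rw [(mem_J D).1 hD x.1 (by omega), zero_mul]
  · intro h
    exact absurd (HasAntidiagonal.mem_antidiagonal.2 (by simp)) h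

/-- solutions of the Q-system in a polynomial ring -/
structure Sol {n : ℕ} (C : Fin n → Fin n → ℤ) (P : Fin n → ℕ → MvPolynomial (Fin n) ℤ) :
    Prop where
  zero : ∀ i, P i 0 = 1
  qsys : ∀ i m, P i (m + 1) ^ 2 = P i (m + 2) * P i m +
    (∏ j, if C i j = -1 then P j (m + 1) else 1) * MvPolynomial.X i ^ (m + 1)
  top : ∀ i m, MvPolynomial.coeff 0 (P i m) = 1
  lim : ∀ i (g : Fin n →₀ ℕ), ∃ (c : ℤ) (N : ℕ), ∀ m : ℕ, N ≤ m →
    MvPolynomial.coeff g (P i m) = c

theorem sol_uniq {n : ℕ} {C : Fin n → Fin n → ℤ} {P P' : Fin n → ℕ → MvPolynomial (Fin n) ℤ}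
    (h : Sol C P) (h' : Sol C P') : ∀ N : ℕ, ∀ g : Fin n →₀ ℕ, g.degree = N → ∀ i m,
    MvPolynomial.coeff g (P i m) = MvPolynomial.coeff g (P' i m) := by
  intro N
  induction N using Nat.strong_induction_on with
  | _ N ih =>
  intro g hg i
  have hJ : ∀ j m, P j m - P' j m ∈ J n N := by
    intro j m
    rw [mem_J]
    intro g' hg'
    rw [MvPolynomial.coeff_sub, ih _ hg' g' rfl j m, sub_self]
  have hprod : ∀ m, (∏ j, if C i j = -1 then P j (m + 1) else 1) -
      (∏ j, if C i j = -1 then P' j (m + 1) else 1) ∈ J n N := by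
    intro m
    rw [← Ideal.Quotient.eq_zero_iff_mem, map_sub, map_prod, map_prod, sub_eq_zero]
    apply prod_congr rfl
    intro j _
    split_ifs
    · rw [← sub_eq_zero, ← map_sub, Ideal.Quotient.eq_zero_iff_mem]
      exact hJ j _
    · rfl
  let d : ℕ → ℤ := fun m => MvPolynomial.coeff g (P i m) - MvPolynomial.coeff g (P' i m)
  have hd0 : d 0 = 0 := by simp only [d]; rw [h.zero, h'.zero, sub_self]
  have hd : ∀ m, d (m + 2) = 2 * d (m + 1) - d m := by
    intro m
    have e1 : (P i (m + 1) - P' i (m + 1)) * (P i (m + 1) + P' i (m + 1)) =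
        (P i (m + 2) - P' i (m + 2)) * P i m + (P i m - P' i m) * P' i (m + 2) +
        ((∏ j, if C i j = -1 then P j (m + 1) else 1) -
          (∏ j, if C i j = -1 then P' j (m + 1) else 1)) * MvPolynomial.X i ^ (m + 1) := by
      have a1 := h.qsys i m
      have a2 := h'.qsys i m
      linear_combination a1 - a2
    have e2 := congrArg (MvPolynomial.coeff g) e1
    rw [MvPolynomial.coeff_add, MvPolynomial.coeff_add, coeff_mul_J _ _ (hJ i _) g hg,
      coeff_mul_J _ _ (hJ i _) g hg, coeff_mul_J _ _ (hJ i _) g hg,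
      coeff_mul_J _ _ (hprod m) g hg, MvPolynomial.coeff_add, h.top, h'.top, h.top, h'.top,
      MvPolynomial.coeff_sub, MvPolynomial.coeff_sub, MvPolynomial.coeff_sub] at e2
    have e3 : MvPolynomial.coeff 0 ((MvPolynomial.X i : MvPolynomial (Fin n) ℤ) ^ (m + 1)) = 0 := by
      rw [← MvPolynomial.constantCoeff_eq, map_pow]
      simp
    rw [e3] at e2
    simp only [d]
    linarith
  have hlin : ∀ m, d m = m * d 1 ∧ d (m + 1) = (m + 1) * d 1 := by
    intro m
    induction m with
    | zero => simp [hd0]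
    | succ m ihm =>
      refine ⟨by rw [ihm.2]; push_cast; ring, ?_⟩
      rw [hd m, ihm.1, ihm.2]; push_cast; ring
  obtain ⟨c, M, hc⟩ := h.lim i g
  obtain ⟨c', M', hc'⟩ := h'.lim i g
  have hconst : ∀ m, M + M' ≤ m → d m = c - c' := by
    intro m hm
    simp only [d]
    rw [hc m (by omega), hc' m (by omega)]
  have h1 := hconst (M + M') le_rfl
  have h2 := hconst (M + M' + 1) (by omega)
  rw [(hlin (M + M')).1] at h1
  rw [(hlin (M + M')).2] at h2
  have h3 : d 1 = 0 := by
    have : ((M + M' : ℕ) : ℤ) * d 1 + d 1 = c - c' := by rw [← h2]; ring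
    omega
  intro m
  have h4 := (hlin m).1
  rw [h3, mul_zero] at h4
  simp only [d] at h4
  linarith

variable {n : ℕ} (S : SLC n)

/-- negative root lattice vectors -/
def ga : (Fin n →₀ ℕ) →+ (Fin n → ℤ) where
  toFun g := - S.cv (fun j => (g j : ℤ))
  map_zero' := by funext i; simp [SLC.cv]
  map_add' := by
    intro x y
    funext i
    simp [SLC.cv, mul_add, sum_add_distrib]
    ring

lemma ga_apply (g : Fin n →₀ ℕ) : ga S g = - S.cv (fun j => (g j : ℤ)) := rfl

lemma ga_inj : Function.Injective (ga S) := by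
  intro x y hxy
  rw [ga_apply, ga_apply, neg_inj] at hxy
  by_contra hne
  have h1 : (fun j => (x j : ℤ) - (y j : ℤ)) ≠ 0 := by
    intro h
    apply hne
    ext j
    have := congrFun h j
    simp only [Pi.zero_apply] at this
    omega
  have h2 := S.pd _ h1
  have h3 : ∀ i, ∑ j, S.C i j * ((x j : ℤ) - (y j : ℤ)) = 0 := by
    intro i
    have := congrFun hxy i
    simp only [SLC.cv] at this
    simp only [mul_sub, sum_sub_distrib]
    rw [this, sub_self]
  have h4 : ∑ i, ∑ j, ((x i : ℤ) - (y i : ℤ)) * S.C i j * ((x j : ℤ) - (y j : ℤ)) = 0 := by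
    apply sum_eq_zero
    intro i _
    have := h3 i
    simp only [mul_assoc]
    rw [← mul_sum, this, mul_zero]
  rw [h4] at h2
  exact lt_irrefl _ h2

/-- the substitution homomorphism -/
def Ph : MvPolynomial (Fin n) ℤ →+* GR (Fin n) := AddMonoidAlgebra.mapDomainRingHom ℤ (ga S)

lemma Ph_inj : Function.Injective (Ph S) :=
  AddMonoidAlgebra.mapDomain_injective (ga_inj S)

lemma Ph_coeff (P : MvPolynomial (Fin n) ℤ) (g : Fin n →₀ ℕ) :
    (Ph S P).coeff (ga S g) = MvPolynomial.coeff g P := by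
  have : (Ph S P).coeff = Finsupp.mapDomain (ga S) (AddMonoidAlgebra.coeff P) := rfl
  rw [this, Finsupp.mapDomain_apply (ga_inj S)]
  rfl

lemma ex_mul_ex (x y : Fin n → ℤ) : ex x * ex y = ex (x + y) := by
  simp [ex, AddMonoidAlgebra.single_mul_single]

lemma ex_zero : ex (0 : Fin n → ℤ) = 1 := rfl

lemma coeff_ex_mul (x y : Fin n → ℤ) (f : GR (Fin n)) :
    (ex x * f).coeff (x + y) = f.coeff y := by
  simp [ex]

lemma ex_cancel (x : Fin n → ℤ) (f g : GR (Fin n)) (h : ex x * f = ex x * g) : f = g := by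
  have : ex (-x) * (ex x * f) = ex (-x) * (ex x * g) := by rw [h]
  simpa [← mul_assoc, ex_mul_ex, ex_zero] using this

lemma exists_poly (la : Fin n → ℤ) (f : GR (Fin n))
    (hf : ∀ mu, f.coeff mu ≠ 0 → ∃ g : Fin n → ℕ, mu = la - S.cv fun j => (g j : ℤ)) :
    ∃ P : MvPolynomial (Fin n) ℤ, f = ex la * Ph S P := by
  let x : GR (Fin n) := ex (-la) * f
  have hx : ↑x.coeff.support ⊆ Set.range (ga S) := by
    intro mu hmu
    have h1 : x.coeff mu ≠ 0 := by simpa using hmu
    have h2 : x.coeff mu = f.coeff (la + mu) := by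
      have := coeff_ex_mul (-la) (la + mu) f
      rw [show -la + (la + mu) = mu by abel] at this
      exact this
    rw [h2] at h1
    obtain ⟨g, hg⟩ := hf _ h1
    refine ⟨Finsupp.equivFunOnFinite.symm g, ?_⟩
    rw [ga_apply]
    have h3 : mu = - S.cv (fun j => (g j : ℤ)) := by
      have := congrArg (fun z => z - la) hg
      simpa using this
    rw [h3]
    rfl
  refine ⟨AddMonoidAlgebra.comapDomain (ga S) (ga_inj S) x, ?_⟩
  have h4 : Ph S (AddMonoidAlgebra.comapDomain (ga S) (ga_inj S) x) = x :=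
    AddMonoidAlgebra.mapDomain_comapDomain hx (ga_inj S)
  rw [h4]
  simp only [x]
  rw [← mul_assoc, ex_mul_ex, add_neg_cancel, ex_zero, one_mul]

lemma Ph_X (i : Fin n) (m : ℕ) :
    Ph S (MvPolynomial.X i ^ m) = ex (ga S (Finsupp.single i m)) := by
  rw [MvPolynomial.X_pow_eq_monomial]
  have : (MvPolynomial.monomial (Finsupp.single i m) (1 : ℤ)) =
    AddMonoidAlgebra.single (Finsupp.single i m) (1 : ℤ) := rfl
  rw [this]
  exact AddMonoidAlgebra.mapDomain_single

lemma prod_ex {ι : Type} (s : Finset ι) (f : ι → Fin n → ℤ) :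
    ∏ j ∈ s, ex (f j) = ex (∑ j ∈ s, f j) := by
  classical
  induction s using Finset.induction_on with
  | empty => simp [ex_zero]
  | insert a s ha ih => rw [prod_insert ha, sum_insert ha, ih, ex_mul_ex]

lemma wt_id (i : Fin n) (m : ℕ) :
    ∑ j, (if S.C i j = -1 then ((m + 1 : ℕ) : ℤ) • om j else 0) =
      (((m + 1 : ℕ) : ℤ) • om i + ((m + 1 : ℕ) : ℤ) • om i) +
        ga S (Finsupp.single i (m + 1)) := by
  funext k
  rw [ga_apply]
  have h1 : (∑ j, (if S.C i j = -1 then ((m + 1 : ℕ) : ℤ) • om j else 0)) k =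
      if S.C i k = -1 then ((m + 1 : ℕ) : ℤ) else 0 := by
    rw [Finset.sum_apply]
    rw [sum_eq_single k]
    · split_ifs <;> simp [om]
    · intro j _ hj
      split_ifs
      · simp [om, hj.symm]
      · rfl
    · intro h; exact absurd (mem_univ k) h
  have h2 : S.cv (fun j => ((Finsupp.single i (m + 1) j : ℕ) : ℤ)) k =
      S.C k i * ((m + 1 : ℕ) : ℤ) := by
    simp only [SLC.cv]
    rw [sum_eq_single i]
    · simp
    · intro j _ hj
      simp [hj.symm]
    · intro h; exact absurd (mem_univ i) h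
  rw [h1]
  simp only [Pi.add_apply, Pi.neg_apply, Pi.smul_apply, smul_eq_mul]
  rw [h2]
  by_cases hk : k = i
  · subst hk
    rw [S.diag k]
    simp [om]
    ring
  · have h3 := S.off k i hk
    have h4 := S.symm i k
    simp only [om, hk, if_false, mul_zero, zero_add]
    rcases h3 with h3 | h3
    · rw [h4, h3]; simp
    · rw [h4, h3]; simp

theorem exists_sol (Q : Fin n → ℕ → S.Rep) (hQ : S.KRFamily Q) :
    ∃ P : Fin n → ℕ → MvPolynomial (Fin n) ℤ, Sol S.C P ∧
      ∀ i m, (Q i m : GR (Fin n)) = ex ((m : ℤ) • om i) * Ph S (P i m) := by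
  have h0 : ∀ i m, ∃ P : MvPolynomial (Fin n) ℤ,
      (Q i m : GR (Fin n)) = ex ((m : ℤ) • om i) * Ph S P := fun i m =>
    exists_poly S _ _ (hQ.low i m)
  choose P hP using h0
  refine ⟨P, ⟨?_, ?_, ?_, ?_⟩, hP⟩
  · intro i
    apply Ph_inj S
    have h1 := hP i 0
    rw [hQ.zero i] at h1
    simp only [Nat.cast_zero, zero_smul, ex_zero, one_mul] at h1
    rw [← h1, map_one]
    rfl
  · intro i m
    apply Ph_inj S
    have h1 : ((Q i (m + 1) : GR (Fin n))) ^ 2 = (Q i (m + 2) : GR (Fin n)) * Q i m +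
        ∏ j, if S.C i j = -1 then (Q j (m + 1) : GR (Fin n)) else 1 := by
      have h2 := congrArg (fun z : S.Rep => (z : GR (Fin n))) (hQ.qsys i m)
      simp only [Subring.coe_pow, Subring.coe_add, Subring.coe_mul] at h2
      rw [h2]
      congr 1
      have h3 := map_prod S.Rep.subtype (fun j => if S.C i j = -1 then Q j (m + 1) else 1) univ
      have h4 : (∏ j, S.Rep.subtype (if S.C i j = -1 then Q j (m + 1) else 1)) =
          ∏ j, if S.C i j = -1 then (Q j (m + 1) : GR (Fin n)) else 1 := by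
        apply prod_congr rfl
        intro j _
        split_ifs
        · rfl
        · simp
      rw [← h4, ← h3]
      rfl
    have h5 : (∏ j, if S.C i j = -1 then (Q j (m + 1) : GR (Fin n)) else 1) =
        ex ((((m + 1 : ℕ) : ℤ) • om i + ((m + 1 : ℕ) : ℤ) • om i) +
          ga S (Finsupp.single i (m + 1))) *
          Ph S (∏ j, if S.C i j = -1 then P j (m + 1) else 1) := by
      rw [← wt_id, ← prod_ex, map_prod, ← prod_mul_distrib]
      apply prod_congr rfl
      intro j _
      split_ifs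
      · exact hP j (m + 1)
      · rw [ex_zero, map_one, one_mul]
    rw [h5, hP i (m + 1), hP i (m + 2), hP i m] at h1
    apply ex_cancel (((m + 1 : ℕ) : ℤ) • om i + ((m + 1 : ℕ) : ℤ) • om i)
    rw [map_pow, map_add, map_mul, map_mul, Ph_X, ← ex_mul_ex]
    rw [← ex_mul_ex, ← ex_mul_ex] at h1
    have h6 : ex (((m + 2 : ℕ) : ℤ) • om i) * ex ((m : ℤ) • om i) =
        ex (((m + 1 : ℕ) : ℤ) • om i) * ex (((m + 1 : ℕ) : ℤ) • om i) := by
      rw [ex_mul_ex, ex_mul_ex]
      congr 1
      rw [← add_smul, ← add_smul]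
      congr 1
      push_cast
      ring
    linear_combination h1 + (Ph S (P i (m + 2)) * Ph S (P i m)) * h6
  · intro i m
    have h1 := hQ.top i m
    rw [hP i m] at h1
    have h2 := coeff_ex_mul ((m : ℤ) • om i) (ga S 0) (Ph S (P i m))
    rw [Ph_coeff, map_zero, add_zero] at h2
    rw [← h2]
    exact h1
  · intro i g
    obtain ⟨c, N, hc⟩ := hQ.lim i (fun j => g j)
    refine ⟨c, N, ?_⟩
    intro m hm
    have h1 := hc m hm
    rw [hP i m] at h1
    have h2 := coeff_ex_mul ((m : ℤ) • om i) (ga S g) (Ph S (P i m))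
    rw [Ph_coeff, ga_apply, ← sub_eq_add_neg] at h2
    rw [← h2]
    exact h1

theorem main : SLC.V_uniq := by
  intro n S Q Q' hQ hQ'
  obtain ⟨P, hP, hPQ⟩ := exists_sol S Q hQ
  obtain ⟨P', hP', hPQ'⟩ := exists_sol S Q' hQ'
  funext i m
  apply Subtype.ext
  rw [hPQ i m, hPQ' i m]
  congr 2
  apply MvPolynomial.ext
  intro g
  exact sol_uniq hP hP' _ g rfl i m

end H391.KR.P_vuniq
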