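import Pool.Agent.H391.KR.PF

/-!
# Positivity, simple currents and vanishing (H391/KR, task vver)
-/

noncomputable section

namespace H391.KR.P_vver

open Finset H391.KR

variable {n : ℕ} {S : SLC n} {D : RDat (Option (Fin n)) (Option (Fin n))}

theorem ex_mul {ι : Type} (x y : ι → ℤ) : ex x * ex y = ex (x + y) := by
  unfold ex
  rw [AddMonoidAlgebra.single_mul_single, one_mul]

theorem aw_add (a b : ℤ) (u v : Fin n → ℤ) : aw a u + aw b v = aw (a + b) (u + v) := by
  funext o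
  cases o <;> rfl

theorem ex_aw (a b : ℤ) (u : Fin n → ℤ) : ex (aw a 0) * ex (aw b u) = ex (aw (a + b) u) := by
  rw [ex_mul, aw_add, zero_add]

theorem ex_zero : ex (aw 0 (0 : Fin n → ℤ)) = 1 := by
  have h : aw 0 (0 : Fin n → ℤ) = 0 := by
    funext o
    cases o <;> rfl
  rw [h]
  rfl

theorem ex_F (S : SLC n) (D : RDat (Option (Fin n)) (Option (Fin n))) (i : Fin n) (k : ℤ) (m : ℕ) :
    ex (aw k 0) * S.F D i m = ex (aw (k - m) 0) * D.Dem (xi i) m := by
  unfold SLC.F
  rw [← mul_assoc, ex_aw, sub_eq_add_neg]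

theorem xi_T (h : S.AffDat D) (i : Fin n) : xi i ∈ D.T := by
  rw [h.T]
  exact le_refl (1 : ℤ)

theorem al_none (h : S.AffDat D) (j : Option (Fin n)) : D.al j none = 0 := by
  cases j with
  | none => rw [h.al0]; rfl
  | some j => rw [h.alf]; rfl

theorem s_none (h : S.AffDat D) (j : Option (Fin n)) (x : Option (Fin n) → ℤ) :
    D.s j x none = x none := by
  unfold RDat.s
  rw [Pi.sub_apply, Pi.smul_apply, al_none h, smul_zero, sub_zero]

theorem sR_none (h : S.AffDat D) (w : List (Option (Fin n))) :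
    ∀ x : Option (Fin n) → ℤ, D.sR w x none = x none := by
  induction w with
  | nil => intro x; rfl
  | cons j w ih =>
    intro x
    change D.sR w (D.s j x) none = x none
    rw [ih, s_none h]

theorem le_sR (hb : RDat.S_bru) (w : List (Option (Fin n))) :
    ∀ x ∈ D.T, D.Desc w x → D.Le (D.sR w x) x := by
  induction w with
  | nil => intro x _ _; exact Relation.ReflTransGen.refl
  | cons j w ih =>
    intro x hx hw
    have h1 : D.Le (D.s j x) x :=
      (hb _ _ D x x hx Relation.ReflTransGen.refl j).2.2 hw.1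
    have h2 : D.s j x ∈ D.T := D.T_refl x hx (D.sim j)
    have h3 := ih (D.s j x) h2 hw.2
    exact Relation.ReflTransGen.trans h1 h3

theorem co_add (j : Option (Fin n)) (x y : Option (Fin n) → ℤ) :
    D.co j (x + y) = D.co j x + D.co j y := map_add _ _ _

theorem co_smul (j : Option (Fin n)) (c : ℤ) (x : Option (Fin n) → ℤ) :
    D.co j (c • x) = c * D.co j x := by
  unfold RDat.co
  rw [map_zsmul, smul_eq_mul]

theorem pf_sum {la : Option (Fin n) → ℤ} (h1 : D.pf la la = 1)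
    (h2 : ∀ mu, D.Dom mu → mu ≠ la → D.pf la mu = 0)
    (c : (Option (Fin n) → ℤ) →₀ ℕ) (hc : ∀ nu, c nu ≠ 0 → D.Dom nu) :
    (c.sum fun nu a => (a : ℤ) * D.pf la nu) = (c la : ℤ) := by
  classical
  rw [Finsupp.sum_eq_single la]
  · rw [h1, mul_one]
  · intro nu hnu hne
    rw [h2 nu (hc nu hnu) hne, mul_zero]
  · intro _
    simp

theorem dom_aw (h : S.AffDat D) {a : ℤ} (ha : 0 ≤ a) : D.Dom (aw a (0 : Fin n → ℤ)) := by
  intro j
  cases j with
  | none =>
    rw [h.co0]
    have h1 : dot S.th (fp (aw a (0 : Fin n → ℤ))) = 0 := by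
      unfold dot fp aw
      simp
    rw [h1, sub_zero]
    exact ha
  | some j =>
    rw [h.cof]
    exact le_refl (0 : ℤ)

/-- positivity and nonvanishing -/
theorem partA (hb : RDat.S_bru) (hred : RDat.N_red) (hlink : RDat.N_link) (hhd : SLC.C_hd)
    (h : S.AffDat D) (hD : D.DemOK) (i : Fin n) (k m : ℕ) (hmk : m ≤ k) :
    (∀ la, D.Dom la → 0 ≤ pair (D.pf la) (ex (aw k 0) * S.F D i m)) ∧
      ∃ la ∈ S.alc k, pair (D.pf (aw k la)) (ex (aw k 0) * S.F D i m) ≠ 0 := by
  have hlk := (hlink _ _ D S.rho (hhd n S D h)).1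
  have hkm : (0 : ℤ) ≤ (k : ℤ) - m := by
    have : (m : ℤ) ≤ k := by exact_mod_cast hmk
    linarith
  have hlam : D.Dom (aw ((k : ℤ) - m) (0 : Fin n → ℤ)) := dom_aw h hkm
  obtain ⟨c, hc1, hc2, hc3⟩ := hD.d7 (xi i) (xi_T h i) m _ hlam
  have key : ∀ la, D.Dom la → pair (D.pf la) (ex (aw k 0) * S.F D i m) = (c la : ℤ) := by
    intro la hla
    obtain ⟨g1, g2, g3⟩ := hlk la hla
    rw [ex_F, hc2 _ g1, pf_sum g2 g3 c hc1]
  refine ⟨fun la hla => ?_, ?_⟩
  · rw [key la hla]
    exact Int.natCast_nonneg _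
  · obtain ⟨w, -, hw, hdom⟩ := (hred _ _ D Set.univ (xi i) (xi_T h i)).1
    have hle : D.Le (D.sR w (xi i)) (xi i) := le_sR hb w _ (xi_T h i) hw
    have hyn : D.sR w (xi i) none = 1 := by
      rw [sR_none h]
      rfl
    have hnu : D.Dom (aw ((k : ℤ) - m) (0 : Fin n → ℤ) + (m : ℤ) • D.sR w (xi i)) := by
      intro j
      rw [co_add, co_smul]
      have g1 := hdom j (Set.mem_univ j)
      have g2 := hlam j
      have g3 : (0 : ℤ) ≤ m := Int.natCast_nonneg m
      exact add_nonneg g2 (mul_nonneg g3 g1)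
    have hne := hc3 _ hle hnu
    set nu := aw ((k : ℤ) - m) (0 : Fin n → ℤ) + (m : ℤ) • D.sR w (xi i) with hnudef
    have hnn : nu none = k := by
      rw [hnudef, Pi.add_apply, Pi.smul_apply, hyn]
      change (k : ℤ) - m + (m : ℤ) * 1 = k
      ring
    have hnu2 : aw (k : ℤ) (fp nu) = nu := by
      funext o
      cases o with
      | none => exact hnn.symm
      | some j => rfl
    refine ⟨fp nu, ⟨fun j => ?_, ?_⟩, ?_⟩
    · have g1 := hnu (some j)
      rwa [h.cof] at g1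
    · have g1 := hnu none
      rw [h.co0, hnn] at g1
      linarith
    · rw [hnu2, key nu hnu]
      exact_mod_cast hne

/-- the functional of `X` -/
theorem pair_X (hadj : RDat.N_adj) (htw : RDat.N_tw) (hhd : SLC.C_hd)
    (h : S.AffDat D) (hD : D.DemOK) {i : Fin n} (X : SLC.XDat D i) (p : (Option (Fin n) → ℤ) → ℤ)
    (hp : D.Anti p) (g : GR (Option (Fin n))) :
    pair p (X.X g) = pair (fun x => p (X.sg x)) g := by
  have h1 := (hadj _ _ D p hp).1 (some i :: X.w) (push (X.sg : (Option (Fin n) → ℤ) →+ (Option (Fin n) → ℤ)) g)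
  have h2 := (htw _ _ D S.rho (hhd n S D h) hD X.sg X.ta X.tw).2.2.2.2.2.1 p g
  rw [← h2, ← h1]
  rfl

theorem partB (hadj : RDat.N_adj) (htw : RDat.N_tw) (hhd : SLC.C_hd) (hX : SLC.C_X)
    (h : S.AffDat D) (hD : D.DemOK) {i : Fin n} (X : SLC.XDat D i) (k : ℕ)
    (p : (Option (Fin n) → ℤ) → ℤ) (hp : D.Anti p) (phi : GR (Option (Fin n)))
    (hphi : SLC.Inv0 D phi) :
    pair p (phi * (ex (aw k 0) * S.F D i k)) =
      pair (fun x => p (X.sg x)) (phi * ex (aw k 0)) := by
  obtain ⟨x1, _, x3, _, _⟩ := hX n S D h hD i X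
  rw [ex_F, sub_self, ex_zero, one_mul, ← x3 k, ← x1 phi _ hphi, pair_X hadj htw hhd h hD X p hp]

theorem inv0_mul (hop : RDat.N_op) {f g : GR (Option (Fin n))} (hf : SLC.Inv0 D f)
    (hg : SLC.Inv0 D g) : SLC.Inv0 D (f * g) := by
  classical
  refine ⟨fun j => ?_, fun x hx => ?_⟩
  · exact ((hop _ _ D j).2.2.2.2.2.2.2.1 f g (hf.1 j) (hg.1 j)).2.2
  · by_contra hcon
    apply hx
    rw [AddMonoidAlgebra.coeff_mul]
    refine Finset.sum_eq_zero fun a ha => Finset.sum_eq_zero fun b hb => ?_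
    beta_reduce
    rw [if_neg]
    rintro rfl
    apply hcon
    have ha' := hf.2 a (Finsupp.mem_support_iff.1 ha)
    have hb' := hg.2 b (Finsupp.mem_support_iff.1 hb)
    rw [Pi.add_apply, ha', hb', add_zero]

theorem inv0_one (hop : RDat.N_op) : SLC.Inv0 D (1 : GR (Option (Fin n))) := by
  classical
  refine ⟨fun j => (hop _ _ D j).2.2.2.2.2.2.2.2.2, fun x hx => ?_⟩
  by_contra hcon
  apply hx
  have h1 : (1 : GR (Option (Fin n))).coeff x = if (0 : Option (Fin n) → ℤ) = x then 1 else 0 := by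
    rw [AddMonoidAlgebra.one_def, AddMonoidAlgebra.coeff_single, Finsupp.single_apply]
  rw [h1, if_neg]
  rintro rfl
  exact hcon rfl

theorem inv0_pow (hop : RDat.N_op) {f : GR (Option (Fin n))} (hf : SLC.Inv0 D f) (m : ℕ) :
    SLC.Inv0 D (f ^ m) := by
  induction m with
  | zero => rw [pow_zero]; exact inv0_one hop
  | succ m ih => rw [pow_succ]; exact inv0_mul hop ih hf

theorem iter (hop : RDat.N_op) (hadj : RDat.N_adj) (htw : RDat.N_tw) (hhd : SLC.C_hd)
    (hX : SLC.C_X) (hF : SLC.C_F)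
    (h : S.AffDat D) (hD : D.DemOK) {i : Fin n} (X : SLC.XDat D i) (k : ℕ) (m : ℕ) :
    ∀ p, D.Anti p → ∀ phi, SLC.Inv0 D phi →
    pair p (phi * (ex (aw k 0) * S.F D i k ^ m)) =
      pair (fun x => p (X.sg^[m] x)) (phi * ex (aw k 0)) := by
  induction m with
  | zero =>
    intro p _ phi _
    rw [pow_zero, mul_one]
    rfl
  | succ m ih =>
    intro p hp phi hphi
    have hFk : SLC.Inv0 D (S.F D i k) := (hF n S D h hD).1 i k
    have e1 : phi * (ex (aw k 0) * S.F D i k ^ (m + 1)) =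
        (phi * S.F D i k ^ m) * (ex (aw k 0) * S.F D i k) := by
      rw [pow_succ]
      ring
    have e2 : (phi * S.F D i k ^ m) * ex (aw k 0) = phi * (ex (aw k 0) * S.F D i k ^ m) := by
      ring
    have hp' : D.Anti (fun x => p (X.sg x)) :=
      (htw _ _ D S.rho (hhd n S D h) hD X.sg X.ta X.tw).2.2.2.2.1 p hp
    rw [e1, partB hadj htw hhd hX h hD X k p hp _ (inv0_mul hop hphi (inv0_pow hop hFk m)), e2,
      ih _ hp' phi hphi]
    have e3 : (fun x => p (X.sg (X.sg^[m] x))) = fun x => p (X.sg^[m + 1] x) := by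
      funext x
      rw [Function.iterate_succ_apply']
    rw [e3]


theorem co_iter {sg : (Option (Fin n) → ℤ) ≃+ (Option (Fin n) → ℤ)}
    {ta : Option (Fin n) ≃ Option (Fin n)} (T : D.Tw sg ta) (m : ℕ) :
    ∀ j x, D.co (ta^[m] j) (sg^[m] x) = D.co j x := by
  induction m with
  | zero => intro j x; rfl
  | succ m ih =>
    intro j x
    rw [Function.iterate_succ_apply', Function.iterate_succ_apply', T.co, ih]

theorem ext_co (h : S.AffDat D) {x y : Option (Fin n) → ℤ} (hxy : ∀ j, D.co j x = D.co j y) :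
    x = y := by
  have h1 : fp x = fp y := by
    funext j
    have := hxy (some j)
    rwa [h.cof, h.cof] at this
  funext o
  cases o with
  | none =>
    have := hxy none
    rw [h.co0, h.co0, h1] at this
    linarith
  | some j => exact congrFun h1 j

theorem partC (hop : RDat.N_op) (hadj : RDat.N_adj) (htw : RDat.N_tw) (hhd : SLC.C_hd)
    (hsig : SLC.C_sig) (hX : SLC.C_X) (hF : SLC.C_F)
    (h : S.AffDat D) (hD : D.DemOK) (i : Fin n) (k : ℕ) : ∃ N : ℕ, 0 < N ∧
      ∀ p, D.Anti p → ∀ phi, SLC.Inv0 D phi →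
        pair p (phi * (ex (aw k 0) * S.F D i k ^ N)) = pair p (phi * ex (aw k 0)) := by
  classical
  obtain ⟨X⟩ := hsig n S D h i
  let t : Equiv.Perm (Option (Fin n)) := X.ta
  refine ⟨orderOf t, orderOf_pos t, fun p hp phi hphi => ?_⟩
  rw [iter hop hadj htw hhd hX hF h hD X k _ p hp phi hphi]
  have h1 : (fun x => p (X.sg^[orderOf t] x)) = p := by
    funext x
    have h2 : X.sg^[orderOf t] x = x := by
      apply ext_co h
      intro j
      have h3 : X.ta^[orderOf t] j = j := by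
        have h4 : (t : Option (Fin n) → Option (Fin n))^[orderOf t] = ⇑(t ^ orderOf t) :=
          Equiv.Perm.iterate_eq_pow t _
        rw [pow_orderOf_eq_one] at h4
        exact congrFun h4 j
      have h5 := co_iter X.tw (orderOf t) j x
      rw [h3] at h5
      exact h5
    rw [h2]
  rw [h1]

theorem partD (hop : RDat.N_op) (hadj : RDat.N_adj) (htw : RDat.N_tw) (hhd : SLC.C_hd)
    (hsig : SLC.C_sig) (hX : SLC.C_X) (hQ : SLC.C_Q)
    (h : S.AffDat D) (hD : D.DemOK) (i : Fin n) (k : ℕ) (hk : 1 ≤ k)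
    (p : (Option (Fin n) → ℤ) → ℤ) (hp : D.Anti p) (phi : GR (Option (Fin n)))
    (hphi : SLC.Inv0 D phi) :
    pair p (phi * (ex (aw k 0) * S.F D i (k + 1))) = 0 := by
  obtain ⟨X⟩ := hsig n S D h i
  obtain ⟨m, rfl⟩ : ∃ m, k = m + 1 := ⟨k - 1, by omega⟩
  have hq := (hQ n S D h hD i X m).1
  have x1 := (hX n S D h hD i X).1
  have e1 : ex (aw ((m + 1 : ℕ) : ℤ) 0) * S.F D i (m + 1 + 1) =
      X.X (ex (aw ((m : ℤ) + 1) (-om i))) := by
    have e2 : m + 1 + 1 = m + 2 := rfl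
    rw [e2, ← hq, ← mul_assoc, ex_aw]
    have e3 : ((m + 1 : ℕ) : ℤ) + -((m : ℤ) + 1) = 0 := by push_cast; ring
    rw [e3, ex_zero, one_mul]
  rw [e1, ← x1 phi _ hphi, pair_X hadj htw hhd h hD X p hp, mul_comm]
  have hp' : D.Anti (fun x => p (X.sg x)) :=
    (htw _ _ D S.rho (hhd n S D h) hD X.sg X.ta X.tw).2.2.2.2.1 p hp
  refine (hop _ _ D (some i)).2.2.2.2.2.1 _ hp' phi _ (hphi.1 (some i)) ?_
  rw [h.cof]
  change (-om i) i = -1
  rw [Pi.neg_apply]
  unfold om
  rw [if_pos rfl]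

theorem main : RDat.S_bru → RDat.N_op → RDat.N_adj → RDat.N_tw → RDat.N_red → RDat.N_link →
    SLC.C_hd → SLC.C_sig → SLC.C_X → SLC.C_F → SLC.C_Q → SLC.V_ver := by
  intro hb hop hadj htw hred hlink hhd hsig hX hF hQ n S D h hD i
  refine ⟨fun k m hmk => partA hb hred hlink hhd h hD i k m hmk,
    fun X k p hp phi hphi => partB hadj htw hhd hX h hD X k p hp phi hphi,
    fun k => partC hop hadj htw hhd hsig hX hF h hD i k,
    fun k hk p hp phi hphi => partD hop hadj htw hhd hsig hX hQ h hD i k hk p hp phi hphi⟩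

end H391.KR.P_vver
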