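import Pool.Agent.H391.KR.PM

/-!
# Total weights of full paths
-/

set_option autoImplicit false

namespace H391.KR.P_wt

open Finset

variable {ι I : Type} (D : RDat ι I)

theorem le_trans' {x y z : ι → ℤ} (h1 : D.Le y x) (h2 : D.Le z y) : D.Le z x :=
  Relation.ReflTransGen.trans h1 h2

/-- the directions of a path -/
theorem dirs (hc : RDat.S_cong) {M L : ℕ} {x : ι → ℤ} (hx : x ∈ D.T) {τ : ℕ → ι → ℤ}
    (hτ : τ ∈ D.Paths M L x) : ∀ l, l < L → τ l ∈ D.T ∧ D.Le (τ l) x := by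
  obtain ⟨h0, h1, _⟩ := hτ
  intro l
  induction l with
  | zero =>
    intro hl
    obtain ⟨a, _, _, _, _, b⟩ := hc ι I D M 0 x (τ 0) hx (h0 hl)
    exact ⟨a, b⟩
  | succ l ih =>
    intro hl
    obtain ⟨a, b⟩ := ih (by omega)
    have h2 := h1 (l + 1) (Nat.succ_pos l) hl
    rw [Nat.add_sub_cancel] at h2
    obtain ⟨a', _, _, _, _, b'⟩ := hc ι I D M (l + 1) (τ l) (τ (l + 1)) a h2
    exact ⟨a', le_trans' D b b'⟩

/-- summation by parts -/
theorem parts (hc : RDat.S_cong) {M L : ℕ} {x : ι → ℤ} (hx : x ∈ D.T) {τ : ℕ → ι → ℤ}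
    (hτ : τ ∈ D.Paths M L x) (i : ι) : ∀ n, n < L →
      (M : ℤ) ∣ ∑ l ∈ range (n + 1), τ l i - ((n + 1 : ℕ) : ℤ) * τ n i := by
  intro n
  induction n with
  | zero =>
    intro _
    simp
  | succ n ih =>
    intro hn
    have h1 := hτ.2.1 (n + 1) (Nat.succ_pos n) hn
    rw [Nat.add_sub_cancel] at h1
    obtain ⟨_, _, _, h2, _, _⟩ := hc ι I D M (n + 1) (τ n) (τ (n + 1)) (dirs D hc hx hτ n (by omega)).1 h1
    rw [sum_range_succ]
    have h3 := dvd_add (ih (by omega)) (h2 i)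
    have e : ∑ l ∈ range (n + 1), τ l i + τ (n + 1) i - ((n + 1 + 1 : ℕ) : ℤ) * τ (n + 1) i =
        ∑ l ∈ range (n + 1), τ l i - ((n + 1 : ℕ) : ℤ) * τ n i + ((n + 1 : ℕ) : ℤ) * (τ n i - τ (n + 1) i) := by
      push_cast
      ring
    rw [e]
    exact h3

theorem dvd_tot (hc : RDat.S_cong) {M L : ℕ} {x : ι → ℤ} (hx : x ∈ D.T) (hML : M ∣ L)
    {τ : ℕ → ι → ℤ} (hτ : τ ∈ D.Paths M L x) (i : ι) : (M : ℤ) ∣ tot L τ i := by
  unfold tot
  rcases Nat.eq_zero_or_pos L with h0 | h0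
  · rw [h0]
    simp
  · obtain ⟨n, rfl⟩ : ∃ n, L = n + 1 := ⟨L - 1, by omega⟩
    have h1 := parts D hc hx hτ i n (Nat.lt_succ_self n)
    have h2 : (M : ℤ) ∣ ((n + 1 : ℕ) : ℤ) * τ n i :=
      Dvd.dvd.mul_right (Int.natCast_dvd_natCast.2 hML) _
    have h3 := dvd_add h1 h2
    rwa [sub_add_cancel] at h3

theorem main : RDat.S_cong → RDat.S_wt ∧ RDat.S_main6 := by
  intro hc
  constructor
  · intro ι I D M L x hx hM hML τ hτ
    funext i
    show tot L τ i = (M : ℤ) * (tot L τ i / (M : ℤ))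
    rw [Int.mul_ediv_cancel' (dvd_tot D hc hx hML hτ i)]
  · intro ι I D M L x hx
    refine ⟨fun τ hτ l hl => (dirs D hc hx hτ l hl).2, fun y hy => ?_⟩
    refine ⟨fun hL => ?_, fun l _ hl => ?_, fun l hl => ?_⟩
    · show D.Rel M 0 x (if 0 < L then y else 0)
      rw [if_pos hL]
      refine Relation.ReflTransGen.mono ?_ x y hy
      rintro u v ⟨b, h1, h2, h3, _⟩
      refine ⟨b, h1, h2, h3, ?_⟩
      simp
    · show D.Rel M l (if l - 1 < L then y else 0) (if l < L then y else 0)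
      rw [if_pos hl, if_pos (by omega)]
      exact Relation.ReflTransGen.refl
    · show (if l < L then y else 0) = 0
      rw [if_neg (by omega)]

end H391.KR.P_wt
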